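import Mathlib

/-!
Abel summation bound, sums of periodic functions, and the product formula coming from the
Chinese remainder theorem.
-/

open Finset

namespace Pool.Agent.Lib.MP_a3366f_nt

theorem abel_aux (c w : ℕ → ℝ) (A B : ℕ) (C : ℝ)
    (hc : ∀ B', A ≤ B' → B' ≤ B → |∑ n ∈ Ico A B', c n| ≤ C)
    (hw : ∀ n, A ≤ n → w (n + 1) ≤ w n) :
    ∀ B', A ≤ B' → B' ≤ B →
      |∑ n ∈ Ico A B', c n * w n - (∑ n ∈ Ico A B', c n) * w B'| ≤ C * (w A - w B') := by
  intro B' hAB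
  induction B', hAB using Nat.le_induction with
  | base => intro _; simp
  | succ B' hAB ih =>
    intro hB
    have h1 := ih (by omega)
    have h2 := hc (B' + 1) (by omega) hB
    have h3 := hw B' hAB
    rw [Finset.sum_Ico_succ_top hAB] at h2
    rw [Finset.sum_Ico_succ_top hAB, Finset.sum_Ico_succ_top hAB]
    have h4 : ∑ n ∈ Ico A B', c n * w n + c B' * w B' - (∑ n ∈ Ico A B', c n + c B') * w (B' + 1)
        = (∑ n ∈ Ico A B', c n * w n - (∑ n ∈ Ico A B', c n) * w B')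
          + (∑ n ∈ Ico A B', c n + c B') * (w B' - w (B' + 1)) := by ring
    rw [h4]
    refine (abs_add_le _ _).trans ?_
    rw [abs_mul, abs_of_nonneg (sub_nonneg.mpr h3)]
    have h5 := mul_le_mul_of_nonneg_right h2 (sub_nonneg.mpr h3)
    nlinarith

/-- Abel's inequality. -/
theorem abel_bound (c w : ℕ → ℝ) (A B : ℕ) (C : ℝ) (hAB : A ≤ B)
    (hc : ∀ B', A ≤ B' → B' ≤ B → |∑ n ∈ Ico A B', c n| ≤ C)
    (hw : ∀ n, A ≤ n → w (n + 1) ≤ w n) (hw0 : 0 ≤ w B) :
    |∑ n ∈ Ico A B, c n * w n| ≤ C * w A := by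
  have h1 := abel_aux c w A B C hc hw B hAB le_rfl
  have h2 := hc B hAB le_rfl
  have h3 : |(∑ n ∈ Ico A B, c n) * w B| ≤ C * w B := by
    rw [abs_mul, abs_of_nonneg hw0]
    exact mul_le_mul_of_nonneg_right h2 hw0
  have h4 := abs_add_le (∑ n ∈ Ico A B, c n * w n - (∑ n ∈ Ico A B, c n) * w B)
    ((∑ n ∈ Ico A B, c n) * w B)
  rw [sub_add_cancel] at h4
  nlinarith

theorem sum_Ico_period (F : ℕ → ℝ) (Q : ℕ) (hF : ∀ n, F (n + Q) = F n) (A : ℕ) :
    ∑ n ∈ Ico A (A + Q), F n = ∑ n ∈ range Q, F n := by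
  induction A with
  | zero => simp
  | succ A ih =>
    have h1 : ∑ n ∈ Ico A (A + 1 + Q), F n = ∑ n ∈ Ico A (A + Q), F n + F (A + Q) := by
      rw [show A + 1 + Q = (A + Q) + 1 by ring, Finset.sum_Ico_succ_top (by omega)]
    have h2 : ∑ n ∈ Ico A (A + 1 + Q), F n = F A + ∑ n ∈ Ico (A + 1) (A + 1 + Q), F n :=
      Finset.sum_eq_sum_Ico_succ_bot (by omega) _
    rw [hF] at h1
    linarith

/-- Partial sums of a bounded periodic function with zero mean are bounded. -/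
theorem periodic_sum_bound (F : ℕ → ℝ) (Q : ℕ) (M : ℝ) (hQ : 0 < Q)
    (hF : ∀ n, F (n + Q) = F n) (hM : ∀ n, |F n| ≤ M) (h0 : ∑ n ∈ range Q, F n = 0) (B : ℕ) :
    ∀ A, |∑ n ∈ Ico A B, F n| ≤ Q * M := by
  have hM0 : 0 ≤ M := (abs_nonneg _).trans (hM 0)
  have key : ∀ L A, B - A = L → |∑ n ∈ Ico A B, F n| ≤ Q * M := by
    intro L
    induction L using Nat.strong_induction_on with
    | _ L ih =>
      intro A hL
      by_cases h : L ≤ Q
      · calc |∑ n ∈ Ico A B, F n| ≤ ∑ n ∈ Ico A B, |F n| := abs_sum_le_sum_abs _ _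
          _ ≤ ∑ _n ∈ Ico A B, M := sum_le_sum fun n _ => hM n
          _ = L * M := by simp [hL]
          _ ≤ Q * M := by gcongr
      · have h1 : ∑ n ∈ Ico A B, F n
            = ∑ n ∈ Ico A (A + Q), F n + ∑ n ∈ Ico (A + Q) B, F n :=
          (Finset.sum_Ico_consecutive _ (by omega) (by omega)).symm
        rw [h1, sum_Ico_period F Q hF, h0, zero_add]
        exact ih (B - (A + Q)) (by omega) _ rfl
  exact fun A => key _ A rfl

/-- Weighted sums of a bounded periodic function with zero mean. -/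
theorem periodic_weighted_bound (F w : ℕ → ℝ) (Q : ℕ) (M : ℝ) (hQ : 0 < Q)
    (hF : ∀ n, F (n + Q) = F n) (hM : ∀ n, |F n| ≤ M) (h0 : ∑ n ∈ range Q, F n = 0) (A B : ℕ)
    (hAB : A ≤ B) (hw : ∀ n, A ≤ n → w (n + 1) ≤ w n) (hw0 : 0 ≤ w B) :
    |∑ n ∈ Ico A B, F n * w n| ≤ Q * M * w A :=
  abel_bound F w A B _ hAB (fun B' _ _ => periodic_sum_bound F Q M hQ hF hM h0 B' A) hw hw0

/-- Weighted sums of a bounded periodic function with mean `μ`. -/
theorem periodic_mean_bound (F w : ℕ → ℝ) (Q : ℕ) (M μ : ℝ) (hQ : 0 < Q)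
    (hF : ∀ n, F (n + Q) = F n) (hM : ∀ n, |F n| ≤ M) (h0 : ∑ n ∈ range Q, F n = Q * μ)
    (A B : ℕ) (hAB : A ≤ B) (hw : ∀ n, A ≤ n → w (n + 1) ≤ w n) (hw0 : 0 ≤ w B) :
    |∑ n ∈ Ico A B, F n * w n - μ * ∑ n ∈ Ico A B, w n| ≤ Q * (2 * M) * w A := by
  have hQ' : (0 : ℝ) < Q := by exact_mod_cast hQ
  have hμ : |μ| ≤ M := by
    have h1 : |∑ n ∈ range Q, F n| ≤ Q * M := by
      calc |∑ n ∈ range Q, F n| ≤ ∑ n ∈ range Q, |F n| := abs_sum_le_sum_abs _ _
        _ ≤ ∑ _n ∈ range Q, M := sum_le_sum fun n _ => hM n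
        _ = Q * M := by simp
    rw [h0, abs_mul, abs_of_pos hQ'] at h1
    exact le_of_mul_le_mul_left h1 hQ'
  have h := periodic_weighted_bound (fun n => F n - μ) w Q (2 * M) hQ
    (fun n => by simp [hF]) (fun n => by
      have := abs_sub (F n) μ
      linarith [hM n]) (by simp [sum_sub_distrib, h0]) A B hAB hw hw0
  have h2 : ∑ n ∈ Ico A B, (F n - μ) * w n
      = ∑ n ∈ Ico A B, F n * w n - μ * ∑ n ∈ Ico A B, w n := by
    rw [mul_sum, ← sum_sub_distrib]
    exact sum_congr rfl fun n _ => by ring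
  rwa [h2] at h

theorem periodic_mod (F : ℕ → ℝ) (Q : ℕ) (hF : ∀ n, F (n + Q) = F n) (n : ℕ) :
    F (n % Q) = F n := Function.Periodic.map_mod_nat hF n

theorem periodic_mul (F : ℕ → ℝ) (Q : ℕ) (hF : ∀ n, F (n + Q) = F n) (j n : ℕ) :
    F (n + Q * j) = F n := by
  induction j with
  | zero => simp
  | succ j ih => rw [Nat.mul_succ, ← add_assoc, hF, ih]

theorem periodic_of_dvd (F : ℕ → ℝ) (Q R : ℕ) (hF : ∀ n, F (n + Q) = F n) (h : Q ∣ R) (n : ℕ) :
    F (n + R) = F n := by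
  obtain ⟨j, rfl⟩ := h
  exact periodic_mul F Q hF j n

/-- A periodic function changing sign under multiplication by a unit has zero mean. -/
theorem sum_eq_zero_of_flip (F : ℕ → ℝ) (Q n₀ : ℕ) (hQ : 0 < Q) (hF : ∀ n, F (n + Q) = F n)
    (hc : Nat.Coprime n₀ Q) (hflip : ∀ n, F (n₀ * n) = -F n) : ∑ n ∈ range Q, F n = 0 := by
  have hinj : Set.InjOn (fun n => n₀ * n % Q) (range Q : Finset ℕ) := by
    intro a ha b hb hab
    have h1 : a ≡ b [MOD Q] := Nat.ModEq.cancel_left_of_coprime hc.symm hab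
    exact Nat.ModEq.eq_of_lt_of_lt h1 (by simpa using ha) (by simpa using hb)
  have himg : (range Q).image (fun n => n₀ * n % Q) = range Q := by
    apply Finset.eq_of_subset_of_card_le
    · intro x hx
      obtain ⟨n, _, rfl⟩ := mem_image.mp hx
      exact mem_range.mpr (Nat.mod_lt _ hQ)
    · rw [card_image_of_injOn hinj]
  have h1 : ∑ n ∈ range Q, F n = ∑ n ∈ range Q, F (n₀ * n % Q) := by
    conv_lhs => rw [← himg]
    rw [sum_image hinj]
  have h2 : ∑ n ∈ range Q, F (n₀ * n % Q) = -∑ n ∈ range Q, F n := by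
    rw [← sum_neg_distrib]
    exact sum_congr rfl fun n _ => by rw [periodic_mod F Q hF, hflip]
  linarith

theorem crt_two (F G : ℕ → ℝ) (a b : ℕ) (ha : 0 < a) (hb : 0 < b) (hab : Nat.Coprime a b)
    (hF : ∀ n, F (n + a) = F n) (hG : ∀ n, G (n + b) = G n) :
    ∑ z ∈ range (a * b), F z * G z = (∑ x ∈ range a, F x) * ∑ y ∈ range b, G y := by
  have hinj : Set.InjOn (fun z => (z % a, z % b)) (range (a * b) : Finset ℕ) := by
    intro z hz z' hz' h
    have h1 : z ≡ z' [MOD a * b] :=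
      (Nat.modEq_and_modEq_iff_modEq_mul hab).mp ⟨congrArg Prod.fst h, congrArg Prod.snd h⟩
    exact Nat.ModEq.eq_of_lt_of_lt h1 (by simpa using hz) (by simpa using hz')
  have himg : (range (a * b)).image (fun z => (z % a, z % b)) = range a ×ˢ range b := by
    apply Finset.eq_of_subset_of_card_le
    · intro x hx
      obtain ⟨n, _, rfl⟩ := mem_image.mp hx
      exact mem_product.mpr ⟨mem_range.mpr (Nat.mod_lt _ ha), mem_range.mpr (Nat.mod_lt _ hb)⟩
    · rw [card_image_of_injOn hinj]; simp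
  rw [sum_mul_sum, ← sum_product', ← himg, sum_image hinj]
  exact sum_congr rfl fun z _ => by simp only [periodic_mod F a hF, periodic_mod G b hG]

/-- Product formula for functions that are periodic modulo distinct primes. -/
theorem crt_prod (F : ℕ → ℕ → ℝ) (c : Finset ℕ) (hc : ∀ p ∈ c, p.Prime)
    (hF : ∀ p ∈ c, ∀ n, F p (n + p) = F p n) :
    ∑ z ∈ range (∏ p ∈ c, p), ∏ p ∈ c, F p z = ∏ p ∈ c, ∑ z ∈ range p, F p z := by
  classical
  induction c using Finset.induction_on with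
  | empty => simp
  | insert p c hp ih =>
    have hpp := hc p (mem_insert_self _ _)
    have hc' : ∀ q ∈ c, q.Prime := fun q hq => hc q (mem_insert_of_mem hq)
    have hF' : ∀ q ∈ c, ∀ n, F q (n + q) = F q n := fun q hq => hF q (mem_insert_of_mem hq)
    simp only [prod_insert hp]
    rw [← ih hc' hF']
    refine crt_two (F p) (fun z => ∏ q ∈ c, F q z) p _ hpp.pos
      (prod_pos fun q hq => (hc' q hq).pos) ?_ (hF p (mem_insert_self _ _)) ?_
    · refine Nat.Coprime.prod_right fun q hq => ?_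
      exact (Nat.coprime_primes hpp (hc' q hq)).mpr fun h => hp (h ▸ hq)
    · intro n
      exact prod_congr rfl fun q hq =>
        periodic_of_dvd (F q) q _ (hF' q hq) (dvd_prod_of_mem _ hq) n

/-- Weighted sums of a product of functions periodic modulo distinct primes. -/
theorem crt_weighted (F : ℕ → ℕ → ℝ) (μ : ℕ → ℝ) (w : ℕ → ℝ) (c : Finset ℕ)
    (hc : ∀ p ∈ c, p.Prime) (hF : ∀ p ∈ c, ∀ n, F p (n + p) = F p n)
    (hb : ∀ p ∈ c, ∀ n, |F p n| ≤ 1) (hμ : ∀ p ∈ c, ∑ z ∈ range p, F p z = p * μ p)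
    (A B : ℕ) (hAB : A ≤ B) (hw : ∀ n, A ≤ n → w (n + 1) ≤ w n) (hw0 : 0 ≤ w B) :
    |∑ n ∈ Ico A B, (∏ p ∈ c, F p n) * w n - (∏ p ∈ c, μ p) * ∑ n ∈ Ico A B, w n|
      ≤ (∏ p ∈ c, p : ℕ) * 2 * w A := by
  have h := periodic_mean_bound (fun n => ∏ p ∈ c, F p n) w (∏ p ∈ c, p) 1 (∏ p ∈ c, μ p)
    (prod_pos fun q hq => (hc q hq).pos)
    (fun n => prod_congr rfl fun q hq =>
        periodic_of_dvd (F q) q _ (hF q hq) (dvd_prod_of_mem _ hq) n)
    (fun n => by
      rw [abs_prod]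
      exact prod_le_one (fun _ _ => abs_nonneg _) fun p hp => hb p hp n)
    (by
      rw [crt_prod F c hc hF, prod_congr rfl hμ, prod_mul_distrib]
      simp) A B hAB hw hw0
  simpa using h

end Pool.Agent.Lib.MP_a3366f_nt
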