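import Mathlib
import Pool.Agent.Lib.MP_a3366f_nt.An1

/-!
Real characters given by Jacobi symbols.
-/

open Finset NumberTheorySymbols

namespace Pool.Agent.Lib.MP_a3366f_nt

/-- The Jacobi symbol `(a | n)` on odd `n`, extended by zero. -/
noncomputable def chi (a : ℤ) (n : ℕ) : ℝ := if Odd n then (J(a | n) : ℝ) else 0

theorem chi_of_odd (a : ℤ) {n : ℕ} (h : Odd n) : chi a n = (J(a | n) : ℝ) := if_pos h

theorem chi_trichotomy (a : ℤ) (n : ℕ) : chi a n = 0 ∨ chi a n = 1 ∨ chi a n = -1 := by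
  unfold chi
  split_ifs
  · rcases jacobiSym.trichotomy a n with h | h | h <;> simp [h]
  · simp

theorem abs_chi_le (a : ℤ) (n : ℕ) : |chi a n| ≤ 1 := by
  rcases chi_trichotomy a n with h | h | h <;> simp [h]

theorem chi_le_one (a : ℤ) (n : ℕ) : chi a n ≤ 1 := (abs_le.mp (abs_chi_le a n)).2

theorem neg_one_le_chi (a : ℤ) (n : ℕ) : -1 ≤ chi a n := (abs_le.mp (abs_chi_le a n)).1

theorem chi_mul_right (a : ℤ) (m n : ℕ) : chi a (m * n) = chi a m * chi a n := by
  unfold chi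
  by_cases hm : Odd m
  · by_cases hn : Odd n
    · rw [if_pos (hm.mul hn), if_pos hm, if_pos hn,
        jacobiSym.mul_right' a hm.pos.ne' hn.pos.ne']
      push_cast; ring
    · rw [if_neg (fun h => hn (Nat.odd_mul.mp h).2), if_neg hn, mul_zero]
  · rw [if_neg (fun h => hm (Nat.odd_mul.mp h).1), if_neg hm, zero_mul]

theorem chi_one_right (a : ℤ) : chi a 1 = 1 := by simp [chi]

theorem chi_prod_right {ι : Type*} (a : ℤ) (s : Finset ι) (f : ι → ℕ) :
    chi a (∏ i ∈ s, f i) = ∏ i ∈ s, chi a (f i) := by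
  classical
  induction s using Finset.induction_on with
  | empty => simp [chi_one_right]
  | insert i s hi ih => rw [prod_insert hi, prod_insert hi, chi_mul_right, ih]

theorem chi_mul_left (a b : ℤ) (n : ℕ) : chi (a * b) n = chi a n * chi b n := by
  unfold chi
  split_ifs
  · rw [jacobiSym.mul_left]; push_cast; ring
  · simp

theorem chi_periodic (a : ℤ) (n : ℕ) : chi a (n + 4 * a.natAbs) = chi a n := by
  unfold chi
  have h : Odd (n + 4 * a.natAbs) ↔ Odd n := by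
    rw [Nat.odd_iff, Nat.odd_iff]; omega
  by_cases hn : Odd n
  · rw [if_pos (h.mpr hn), if_pos hn, jacobiSym.mod_right a (h.mpr hn), jacobiSym.mod_right a hn,
      Nat.add_mod_right]
  · rw [if_neg (fun h' => hn (h.mp h')), if_neg hn]

theorem exists_flip_aux (l R : ℕ) (hl : l.Prime) (hR : 0 < R) (hlR : ¬ l ∣ R) (B : ℕ) :
    ∃ n₀ : ℕ, n₀.Prime ∧ B < n₀ ∧ Odd n₀ ∧ J(((l * R : ℕ) : ℤ) | n₀) = -1 := by
  have hcop : Nat.Coprime l R := (Nat.Prime.coprime_iff_not_dvd hl).mpr hlR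
  by_cases h2 : l = 2
  · subst h2
    have hRo : Odd R := by
      rw [Nat.odd_iff]; omega
    have hc8 : Nat.Coprime 8 R := by
      simpa using Nat.Coprime.pow_left 3 hcop
    obtain ⟨n₁, h1, h2⟩ := Nat.chineseRemainder hc8 5 1
    have hn₁ : Nat.Coprime n₁ (8 * R) := by
      refine Nat.Coprime.mul_right ?_ ?_
      · exact (Nat.ModEq.gcd_eq h1).trans (by norm_num)
      · exact (Nat.ModEq.gcd_eq h2).trans (by simp)
    obtain ⟨p, hpB, hp, hmod⟩ := Nat.forall_exists_prime_gt_and_modEq B (by omega) hn₁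
    have h8 : p % 8 = 5 := ((Nat.ModEq.of_mul_right R hmod).trans h1)
    have hpR : p ≡ 1 [MOD R] := (Nat.ModEq.of_mul_left 8 hmod).trans h2
    have hpo : Odd p := by rw [Nat.odd_iff]; omega
    refine ⟨p, hp, hpB, hpo, ?_⟩
    push_cast
    rw [jacobiSym.mul_left, jacobiSym.at_two hpo, ZMod.χ₈_nat_mod_eight, h8,
      jacobiSym.quadratic_reciprocity_one_mod_four' hRo (by omega),
      jacobiSym.mod_left' (a₂ := 1) (by exact_mod_cast Int.natCast_modEq_iff.mpr hpR),
      jacobiSym.one_left]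
    decide
  · have := Fact.mk hl
    have hlo : Odd l := hl.odd_of_ne_two h2
    obtain ⟨r, hr⟩ := FiniteField.exists_nonsquare (F := ZMod l)
      (by rw [ZMod.ringChar_zmod_n]; exact h2)
    have hc4 : Nat.Coprime l (4 * R) := by
      refine Nat.Coprime.mul_right ?_ hcop
      have : Nat.Coprime l 2 := (Nat.coprime_primes hl Nat.prime_two).mpr h2
      simpa using Nat.Coprime.pow_right 2 this
    obtain ⟨n₁, h1, h2⟩ := Nat.chineseRemainder hc4 r.val 1
    have hr0 : r ≠ 0 := by rintro rfl; exact hr ⟨0, by simp⟩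
    have hn₁ : Nat.Coprime n₁ (l * (4 * R)) := by
      refine Nat.Coprime.mul_right ?_ ?_
      · refine (Nat.ModEq.gcd_eq h1).trans ?_
        refine ((Nat.Prime.coprime_iff_not_dvd hl).mpr fun h => hr0 ?_).symm
        rw [← ZMod.natCast_zmod_val r]
        exact (ZMod.natCast_eq_zero_iff _ _).mpr h
      · exact (Nat.ModEq.gcd_eq h2).trans (by simp)
    obtain ⟨p, hpB, hp, hmod⟩ := Nat.forall_exists_prime_gt_and_modEq B
      (Nat.mul_ne_zero hl.ne_zero (by omega)) hn₁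
    have hpl : p ≡ r.val [MOD l] := (Nat.ModEq.of_mul_right _ hmod).trans h1
    have hp4 : p ≡ 1 [MOD 4 * R] := (Nat.ModEq.of_mul_left _ hmod).trans h2
    have hp4' : p % 4 = 1 := Nat.ModEq.of_mul_right R hp4
    have hpo : Odd p := by rw [Nat.odd_iff]; omega
    refine ⟨p, hp, hpB, hpo, ?_⟩
    push_cast
    have h3 : J((R : ℤ) | p) = 1 := by
      rw [jacobiSym.mod_right' R hpo, show p % (4 * R) = 1 from
        Eq.trans hp4 (Nat.mod_eq_of_lt (by omega)), jacobiSym.one_right]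
    have h4 : J((l : ℤ) | p) = -1 := by
      rw [jacobiSym.quadratic_reciprocity_one_mod_four' hlo hp4',
        ← ZMod.nonsquare_iff_jacobiSym_eq_neg_one.symm.symm.symm]
      · have : ((p : ℤ) : ZMod l) = r := by
          rw [Int.cast_natCast, (ZMod.natCast_eq_natCast_iff _ _ _).mpr hpl,
            ZMod.natCast_zmod_val]
        rwa [this]
    rw [jacobiSym.mul_left, h3, h4]
    norm_num

/-- Two distinct squarefree numbers give a nonprincipal character. -/
theorem exists_flip (d d' : ℕ) (hd : Squarefree d) (hd' : Squarefree d') (hne : d ≠ d') (B : ℕ) :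
    ∃ n₀ : ℕ, n₀.Prime ∧ B < n₀ ∧ chi ((d * d' : ℕ) : ℤ) n₀ = -1 := by
  have key : ∀ d d' : ℕ, Squarefree d → Squarefree d' → ∀ l, l.Prime → l ∣ d → ¬ l ∣ d' →
      ∃ n₀ : ℕ, n₀.Prime ∧ B < n₀ ∧ chi ((d * d' : ℕ) : ℤ) n₀ = -1 := by
    intro d d' hd hd' l hl hld hld'
    obtain ⟨d₁, rfl⟩ := hld
    have h1 : ¬ l ∣ d₁ := fun h =>
      hl.not_isUnit (hd l (mul_dvd_mul_left l h))
    have h2 : ¬ l ∣ d₁ * d' := fun h => ((Nat.Prime.dvd_mul hl).mp h).elim h1 hld'
    have h3 : 0 < d₁ * d' := Nat.pos_of_ne_zero fun h => h2 (h ▸ dvd_zero l)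
    obtain ⟨n₀, h4, h5, h6, h7⟩ := exists_flip_aux l (d₁ * d') hl h3 h2 B
    refine ⟨n₀, h4, h5, ?_⟩
    rw [chi_of_odd _ h6, mul_assoc, h7]
    norm_num
  by_cases h : ∀ l, l.Prime → l ∣ d → l ∣ d'
  · by_cases h' : ∀ l, l.Prime → l ∣ d' → l ∣ d
    · exfalso
      apply hne
      rw [← Nat.prod_primeFactors_of_squarefree hd, ← Nat.prod_primeFactors_of_squarefree hd']
      congr 1
      ext l
      simp only [Nat.mem_primeFactors, ne_eq, hd.ne_zero, hd'.ne_zero, not_false_eq_true, and_true]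
      exact ⟨fun ⟨a, b⟩ => ⟨a, h l a b⟩, fun ⟨a, b⟩ => ⟨a, h' l a b⟩⟩
    · push Not at h'
      obtain ⟨l, hl, h1, h2⟩ := h'
      rw [mul_comm]
      exact key d' d hd' hd l hl h1 h2
  · push Not at h
    obtain ⟨l, hl, h1, h2⟩ := h
    exact key d d' hd hd' l hl h1 h2

theorem chi_neg_mul_chi_neg (d d' n : ℕ) :
    chi (-(d : ℤ)) n * chi (-(d' : ℤ)) n = chi ((d * d' : ℕ) : ℤ) n := by
  rw [← chi_mul_left]; push_cast; ring_nf

/-- Off-diagonal bound: the product of two distinct characters against a function `G` that is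
periodic modulo `Q` and invariant under multiplication by large primes. -/
theorem offdiag_bound (d d' : ℕ) (hd : Squarefree d) (hd' : Squarefree d') (hne : d ≠ d')
    (G w : ℕ → ℝ) (Q : ℕ) (hQ : 0 < Q) (hG : ∀ n, G (n + Q) = G n) (hG1 : ∀ n, |G n| ≤ 1)
    (hinv : ∀ n₀ n, n₀.Prime → Q < n₀ → G (n₀ * n) = G n) (A B : ℕ) (hAB : A ≤ B)
    (hw : ∀ n, A ≤ n → w (n + 1) ≤ w n) (hw0 : 0 ≤ w B) :
    |∑ n ∈ Ico A B, G n * (chi (-(d : ℤ)) n * chi (-(d' : ℤ)) n) * w n|
      ≤ (Q * (4 * (d * d')) : ℕ) * w A := by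
  have hdd : 0 < d * d' := Nat.mul_pos (Nat.pos_of_ne_zero hd.ne_zero)
    (Nat.pos_of_ne_zero hd'.ne_zero)
  have hQ' : 0 < Q * (4 * (d * d')) := by positivity
  simp only [chi_neg_mul_chi_neg]
  have hper : ∀ n, G (n + Q * (4 * (d * d'))) * chi ((d * d' : ℕ) : ℤ) (n + Q * (4 * (d * d')))
      = G n * chi ((d * d' : ℕ) : ℤ) n := by
    intro n
    rw [periodic_mul G Q hG,
      periodic_of_dvd (chi ((d * d' : ℕ) : ℤ)) (4 * (d * d')) _
        (fun n => by
          have := chi_periodic ((d * d' : ℕ) : ℤ) n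
          rwa [Int.natAbs_natCast] at this) (Dvd.intro_left _ rfl)]
  obtain ⟨n₀, h1, h2, h3⟩ := exists_flip d d' hd hd' hne (Q * (4 * (d * d')))
  have hQn : Q < n₀ := lt_of_le_of_lt (Nat.le_mul_of_pos_right _ (by positivity)) h2
  have h0 := sum_eq_zero_of_flip (fun n => G n * chi ((d * d' : ℕ) : ℤ) n) _ n₀ hQ' hper
    ((Nat.Prime.coprime_iff_not_dvd h1).mpr fun h => absurd (Nat.le_of_dvd hQ' h) (by omega))
    (fun n => by simp only [hinv n₀ n h1 hQn, chi_mul_right, h3]; ring)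
  have h := periodic_weighted_bound (fun n => G n * chi ((d * d' : ℕ) : ℤ) n) w _ 1 hQ' hper
    (fun n => by
      rw [abs_mul]
      exact mul_le_one₀ (hG1 n) (abs_nonneg _) (abs_chi_le _ _)) h0 A B hAB hw hw0
  simpa using h

end Pool.Agent.Lib.MP_a3366f_nt
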