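import Mathlib
import Pool.Agent.Lib.MP_a3366f_nt.An2

/-!
The moment method for real characters, by duality.
-/

open Finset

namespace Pool.Agent.Lib.MP_a3366f_nt

theorem dual_bound (D : Finset ℕ) (s W : ℕ → ℝ) (I : Finset ℕ) (δ : ℝ) (hδ : 0 ≤ δ)
    (hs : ∀ d, |s d| ≤ 1) (hW : ∀ n ∈ I, 0 ≤ W n)
    (hoff : ∀ d ∈ D, ∀ d' ∈ D, d ≠ d' →
      |∑ n ∈ I, W n * (chi (-(d : ℤ)) n * chi (-(d' : ℤ)) n)| ≤ δ) :
    ∑ n ∈ I, W n * (∑ d ∈ D, s d * chi (-(d : ℤ)) n) ^ 2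
      ≤ D.card * ∑ n ∈ I, W n + (D.card : ℝ) ^ 2 * δ := by
  classical
  have h1 : ∑ n ∈ I, W n * (∑ d ∈ D, s d * chi (-(d : ℤ)) n) ^ 2
      = ∑ d ∈ D, ∑ d' ∈ D, s d * s d' *
          ∑ n ∈ I, W n * (chi (-(d : ℤ)) n * chi (-(d' : ℤ)) n) := by
    rw [sum_congr rfl (g := fun n => ∑ d ∈ D, ∑ d' ∈ D, s d * s d' *
      (W n * (chi (-(d : ℤ)) n * chi (-(d' : ℤ)) n))) fun n _ => by
        rw [sq, sum_mul_sum, mul_sum]
        refine sum_congr rfl fun d _ => ?_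
        rw [mul_sum]
        exact sum_congr rfl fun d' _ => by ring]
    rw [sum_comm]
    refine sum_congr rfl fun d _ => ?_
    rw [sum_comm]
    exact sum_congr rfl fun d' _ => by rw [mul_sum]
  have hW0 : 0 ≤ ∑ n ∈ I, W n := sum_nonneg hW
  have h2 : ∀ d ∈ D, ∀ d' ∈ D, s d * s d' *
      ∑ n ∈ I, W n * (chi (-(d : ℤ)) n * chi (-(d' : ℤ)) n)
        ≤ (if d = d' then ∑ n ∈ I, W n else 0) + δ := by
    intro d hd d' hd'
    have hss : |s d * s d'| ≤ 1 := by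
      rw [abs_mul]; exact mul_le_one₀ (hs d) (abs_nonneg _) (hs d')
    refine (le_abs_self _).trans ?_
    rw [abs_mul]
    refine (mul_le_of_le_one_left (abs_nonneg _) hss).trans ?_
    split_ifs with h
    · refine le_add_of_le_of_nonneg ((abs_sum_le_sum_abs _ _).trans (sum_le_sum fun n hn => ?_)) hδ
      rw [abs_mul, abs_of_nonneg (hW n hn), abs_mul]
      exact mul_le_of_le_one_right (hW n hn)
        (mul_le_one₀ (abs_chi_le _ _) (abs_nonneg _) (abs_chi_le _ _))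
    · rw [zero_add]; exact hoff d hd d' hd' h
  rw [h1]
  refine (sum_le_sum fun d hd => sum_le_sum fun d' hd' => h2 d hd d' hd').trans ?_
  simp only [sum_add_distrib, sum_ite_eq, sum_const, nsmul_eq_mul]
  rw [sum_congr rfl fun d hd => if_pos hd]
  simp only [sum_const, nsmul_eq_mul]
  nlinarith

theorem sum_inv_Ico_le (A B : ℕ) : ∑ n ∈ Ico A B, (1 : ℝ) / n ≤ 1 + Real.log B := by
  rcases Nat.eq_zero_or_pos B with rfl | hB
  · simp
  have h1 : ∑ n ∈ Ico A B, (1 : ℝ) / n ≤ ∑ n ∈ Icc 1 B, (1 : ℝ) / n := by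
    rw [← sum_filter_add_sum_filter_not (Ico A B) (fun n => n = 0)]
    have : ∑ n ∈ (Ico A B).filter (fun n => n = 0), (1 : ℝ) / n = 0 :=
      sum_eq_zero fun n hn => by simp [(mem_filter.mp hn).2]
    rw [this, zero_add]
    refine sum_le_sum_of_subset_of_nonneg (fun n hn => ?_) fun _ _ _ => by positivity
    simp only [mem_filter, mem_Ico, mem_Icc] at hn ⊢
    omega
  have h2 := harmonic_le_one_add_log B
  rw [harmonic_eq_sum_Icc] at h2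
  push_cast at h2
  simpa using h1.trans (by simpa using h2)

theorem card_tuple_fiber_le (P : Finset ℕ) (hP : ∀ p ∈ P, p.Prime) (r n : ℕ) :
    ((Fintype.piFinset fun _ : Fin r => P).filter fun τ => ∏ i, τ i = n).card ≤ r ^ r := by
  classical
  rcases ((Fintype.piFinset fun _ : Fin r => P).filter fun τ => ∏ i, τ i = n).eq_empty_or_nonempty
    with h | ⟨τ₀, h⟩
  · simp [h]
  obtain ⟨h1, h2⟩ := mem_filter.mp h
  have hsub : ((Fintype.piFinset fun _ : Fin r => P).filter fun τ => ∏ i, τ i = n)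
      ⊆ Fintype.piFinset fun _ : Fin r => univ.image τ₀ := by
    intro τ hτ
    obtain ⟨h3, h4⟩ := mem_filter.mp hτ
    rw [Fintype.mem_piFinset] at h1 h3 ⊢
    intro i
    have h5 : τ i ∣ ∏ j, τ₀ j := by
      rw [h2, ← h4]; exact dvd_prod_of_mem _ (mem_univ i)
    obtain ⟨j, -, hj⟩ := (Prime.dvd_finsetProd_iff (hP _ (h3 i)).prime _).mp h5
    exact mem_image.mpr ⟨j, mem_univ _,
      ((Nat.prime_dvd_prime_iff_eq (hP _ (h3 i)) (hP _ (h1 j))).mp hj).symm⟩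
  refine (card_le_card hsub).trans ?_
  rw [Fintype.card_piFinset]
  simp only [prod_const, card_univ, Fintype.card_fin]
  exact Nat.pow_le_pow_left (card_image_le.trans (by simp)) r

/-- The character sum over a set of primes. -/
noncomputable def beta (P : Finset ℕ) (d : ℕ) : ℝ := ∑ p ∈ P, chi (-(d : ℤ)) p / p

/-- The sum of the reciprocals. -/
noncomputable def lam (P : Finset ℕ) : ℝ := ∑ p ∈ P, (1 : ℝ) / p

theorem lam_nonneg (P : Finset ℕ) : 0 ≤ lam P := sum_nonneg fun _ _ => by positivity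

theorem moment_raw (P D : Finset ℕ) (Y₁ Y₂ Z r : ℕ) (ε : ℝ) (hε : 0 ≤ ε) (hY₁ : 1 ≤ Y₁)
    (hP : ∀ p ∈ P, p.Prime ∧ Y₁ ≤ p ∧ p ≤ Y₂) (hY : Y₁ ≤ Y₂)
    (hD : ∀ d ∈ D, Squarefree d ∧ d ≤ Z ∧ ε ≤ |beta P d|) :
    ((D.card : ℝ) * ε ^ r) ^ 2 ≤ (lam P * r) ^ r *
      (D.card * (1 + Real.log ((Y₂ ^ r + 1 : ℕ) : ℝ))
        + (D.card : ℝ) ^ 2 * (4 * (Z : ℝ) ^ 2 / (Y₁ : ℝ) ^ r)) := by
  classical
  set T := Fintype.piFinset fun _ : Fin r => P with hT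
  set s : ℕ → ℝ := fun d => if 0 ≤ beta P d ^ r then 1 else -1 with hs
  set S : ℕ → ℝ := fun n => ∑ d ∈ D, s d * chi (-(d : ℤ)) n with hS
  have hs1 : ∀ d, |s d| ≤ 1 := fun d => by
    simp only [hs]; split_ifs <;> simp
  have hTpos : ∀ τ ∈ T, (0 : ℝ) < ((∏ i, τ i : ℕ) : ℝ) := by
    intro τ hτ
    rw [hT, Fintype.mem_piFinset] at hτ
    exact_mod_cast prod_pos fun i _ => (hP _ (hτ i)).1.pos
  have h1 : (D.card : ℝ) * ε ^ r ≤ ∑ d ∈ D, s d * beta P d ^ r := by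
    rw [← nsmul_eq_mul, ← sum_const]
    refine sum_le_sum fun d hd => ?_
    have h2 : ε ^ r ≤ |beta P d ^ r| := by
      rw [abs_pow]; exact pow_le_pow_left₀ hε (hD d hd).2.2 r
    simp only [hs]
    split_ifs with h
    · rwa [abs_of_nonneg h, ← one_mul (beta P d ^ r)] at h2
    · rw [abs_of_neg (not_le.mp h)] at h2; linarith
  have h3 : ∑ d ∈ D, s d * beta P d ^ r
      = ∑ τ ∈ T, S (∏ i, τ i) / ((∏ i, τ i : ℕ) : ℝ) := by
    simp only [beta, Finset.sum_pow', hS, mul_sum, sum_div]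
    rw [sum_comm]
    refine sum_congr rfl fun τ _ => sum_congr rfl fun d _ => ?_
    rw [prod_div_distrib, chi_prod_right]
    push_cast
    ring
  have h4 : (∑ τ ∈ T, S (∏ i, τ i) / ((∏ i, τ i : ℕ) : ℝ)) ^ 2
      ≤ (∑ τ ∈ T, 1 / ((∏ i, τ i : ℕ) : ℝ)) *
        ∑ τ ∈ T, S (∏ i, τ i) ^ 2 / ((∏ i, τ i : ℕ) : ℝ) := by
    refine sum_sq_le_sum_mul_sum_of_sq_le_mul T (fun τ hτ => by positivity)
      (fun τ hτ => by positivity) fun τ hτ => le_of_eq ?_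
    have := hTpos τ hτ
    field_simp
  have h5 : ∑ τ ∈ T, 1 / ((∏ i, τ i : ℕ) : ℝ) = lam P ^ r := by
    simp only [lam, Finset.sum_pow']
    refine sum_congr rfl fun τ _ => ?_
    rw [prod_div_distrib]; push_cast; simp
  have hmaps : ∀ τ ∈ T, (∏ i, τ i) ∈ Ico (Y₁ ^ r) (Y₂ ^ r + 1) := by
    intro τ hτ
    rw [hT, Fintype.mem_piFinset] at hτ
    rw [mem_Ico, Nat.lt_succ_iff]
    constructor
    · calc Y₁ ^ r = ∏ _i : Fin r, Y₁ := by simp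
        _ ≤ ∏ i, τ i := prod_le_prod' fun i _ => (hP _ (hτ i)).2.1
    · calc ∏ i, τ i ≤ ∏ _i : Fin r, Y₂ := prod_le_prod' fun i _ => (hP _ (hτ i)).2.2
        _ = Y₂ ^ r := by simp
  have h6 : ∑ τ ∈ T, S (∏ i, τ i) ^ 2 / ((∏ i, τ i : ℕ) : ℝ)
      ≤ (r : ℝ) ^ r * ∑ n ∈ Ico (Y₁ ^ r) (Y₂ ^ r + 1), 1 / (n : ℝ) * S n ^ 2 := by
    rw [← sum_fiberwise_of_maps_to hmaps, mul_sum]
    refine sum_le_sum fun n _ => ?_
    rw [sum_congr rfl (g := fun _ => 1 / (n : ℝ) * S n ^ 2) fun τ hτ => by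
      rw [(mem_filter.mp hτ).2]; ring]
    rw [sum_const, nsmul_eq_mul]
    refine mul_le_mul_of_nonneg_right ?_ (by positivity)
    exact_mod_cast card_tuple_fiber_le P (fun p hp => (hP p hp).1) r n
  have hA : Y₁ ^ r ≤ Y₂ ^ r + 1 := (Nat.pow_le_pow_left hY r).trans (Nat.le_succ _)
  have hA1 : 1 ≤ Y₁ ^ r := Nat.one_le_pow _ _ hY₁
  have h7 := dual_bound D s (fun n => 1 / (n : ℝ)) (Ico (Y₁ ^ r) (Y₂ ^ r + 1))
    (4 * (Z : ℝ) ^ 2 / (Y₁ : ℝ) ^ r) (by positivity) hs1 (fun n _ => by positivity) (by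
      intro d hd d' hd' hne
      have h8 := offdiag_bound d d' (hD d hd).1 (hD d' hd').1 hne (fun _ => 1)
        (fun n => 1 / (n : ℝ)) 1 one_pos (fun _ => rfl) (fun _ => by simp) (fun _ _ _ _ => rfl)
        (Y₁ ^ r) (Y₂ ^ r + 1) hA (fun n hn => by
          have : (0 : ℝ) < n := by exact_mod_cast (by omega : 0 < n)
          push_cast
          exact one_div_le_one_div_of_le this (by linarith)) (by positivity)
      simp only [one_mul] at h8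
      rw [sum_congr rfl fun n _ => mul_comm _ _]
      refine h8.trans ?_
      have h9 : (d : ℝ) ≤ Z := by exact_mod_cast (hD d hd).2.1
      have h10 : (d' : ℝ) ≤ Z := by exact_mod_cast (hD d' hd').2.1
      push_cast
      rw [mul_one_div, sq]
      gcongr)
  have h8 := sum_inv_Ico_le (Y₁ ^ r) (Y₂ ^ r + 1)
  calc ((D.card : ℝ) * ε ^ r) ^ 2 ≤ (∑ d ∈ D, s d * beta P d ^ r) ^ 2 :=
        pow_le_pow_left₀ (by positivity) h1 2
    _ ≤ lam P ^ r * ((r : ℝ) ^ r * ∑ n ∈ Ico (Y₁ ^ r) (Y₂ ^ r + 1), 1 / (n : ℝ) * S n ^ 2) := by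
        rw [h3]
        refine h4.trans ?_
        rw [h5]
        exact mul_le_mul_of_nonneg_left h6 (pow_nonneg (lam_nonneg P) r)
    _ ≤ _ := by
        rw [mul_pow, mul_assoc]
        refine mul_le_mul_of_nonneg_left (mul_le_mul_of_nonneg_left (h7.trans ?_) (by positivity))
          (pow_nonneg (lam_nonneg P) r)
        gcongr

/-- Few squarefree kernels have a large character sum. -/
theorem moment_count (P D : Finset ℕ) (Y₁ Y₂ Z R₀ Q e : ℕ) (ε : ℝ) (hε : 0 < ε) (he : 1 ≤ e)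
    (hQ : 2 ≤ Q) (hP : ∀ p ∈ P, p.Prime ∧ Y₁ ≤ p ∧ p ≤ Y₂) (hY : Y₁ ≤ Y₂) (hZ1 : 1 ≤ Z)
    (hZ : Z ≤ 2 ^ R₀) (hlam : lam P * R₀ ≤ ε ^ 2 * Q)
    (hlog : 2 * (1 + Real.log ((Y₂ ^ R₀ + 1 : ℕ) : ℝ)) ≤ Q) (hY₁ : 8 * Q ^ (4 * e + 1) ≤ Y₁)
    (hD : ∀ d ∈ D, Squarefree d ∧ d ≤ Z ∧ ε ≤ |beta P d|) :
    D.card ^ e ≤ Q ^ (2 * e) * Z := by
  have hb : 1 < Q ^ (2 * e) := Nat.one_lt_pow (by omega) (by omega)
  set r := Nat.clog (Q ^ (2 * e)) Z with hr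
  have hZr : Z ≤ (Q ^ (2 * e)) ^ r := Nat.le_pow_clog hb Z
  rcases Nat.eq_or_lt_of_le hZ1 with h1 | h1
  · have h2 : D ⊆ {1} := fun d hd => by
      have h3 := (hD d hd).2.1
      have h4 := (hD d hd).1.ne_zero
      simp only [mem_singleton]; omega
    have h3 : D.card ≤ 1 := (card_le_card h2).trans (by simp)
    calc D.card ^ e ≤ 1 ^ e := Nat.pow_le_pow_left h3 e
      _ = 1 := one_pow e
      _ ≤ Q ^ (2 * e) * Z := Nat.mul_pos (by omega) hZ1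
  have hr1 : 1 ≤ r := Nat.clog_pos hb h1
  have hlt : (Q ^ (2 * e)) ^ (r - 1) < Z := Nat.pow_pred_clog_lt_self hb h1
  have hrR : r ≤ R₀ := by
    rw [hr, Nat.clog_le_iff_le_pow hb]
    exact hZ.trans (Nat.pow_le_pow_left hb R₀)
  have hY1 : 1 ≤ Y₁ := le_trans (Nat.mul_pos (by norm_num) (Nat.pow_pos (by omega))) hY₁
  have hraw := moment_raw P D Y₁ Y₂ Z r ε hε.le hY1 hP hY hD
  have hQ0 : (0 : ℝ) < Q := by exact_mod_cast (by omega : 0 < Q)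
  have h2 : (lam P * r) ^ r ≤ (ε ^ 2 * Q) ^ r := by
    refine pow_le_pow_left₀ (mul_nonneg (lam_nonneg P) (by positivity)) (le_trans ?_ hlam) r
    exact mul_le_mul_of_nonneg_left (by exact_mod_cast hrR) (lam_nonneg P)
  have h3 : 1 + Real.log ((Y₂ ^ r + 1 : ℕ) : ℝ) ≤ Q / 2 := by
    have : Real.log ((Y₂ ^ r + 1 : ℕ) : ℝ) ≤ Real.log ((Y₂ ^ R₀ + 1 : ℕ) : ℝ) := by
      refine Real.log_le_log (by positivity) ?_
      exact_mod_cast Nat.succ_le_succ (Nat.pow_le_pow_right (by omega) hrR)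
    linarith
  have h4 : (Q : ℝ) ^ r * (4 * (Z : ℝ) ^ 2 / (Y₁ : ℝ) ^ r) ≤ 1 / 2 := by
    have h5 : 8 * Q ^ r * Z ^ 2 ≤ Y₁ ^ r := by
      calc 8 * Q ^ r * Z ^ 2 ≤ 8 ^ r * Q ^ r * ((Q ^ (2 * e)) ^ r) ^ 2 := by
            gcongr
            exact Nat.le_self_pow (by omega) 8
        _ = (8 * Q ^ (4 * e + 1)) ^ r := by
            rw [mul_pow, ← pow_mul, ← pow_mul, ← pow_mul, mul_assoc, ← pow_add]
            congr 2; ring
        _ ≤ Y₁ ^ r := Nat.pow_le_pow_left hY₁ r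
    have h6 : (8 : ℝ) * (Q : ℝ) ^ r * (Z : ℝ) ^ 2 ≤ (Y₁ : ℝ) ^ r := by exact_mod_cast h5
    have h7 : (0 : ℝ) < (Y₁ : ℝ) ^ r := by positivity
    rw [← mul_div_assoc, div_le_iff₀ h7]
    linarith
  have h5 : (D.card : ℝ) ≤ (Q : ℝ) ^ (r + 1) := by
    have hεr : 0 < (ε ^ r) ^ 2 := by positivity
    have h6 : ((D.card : ℝ) * ε ^ r) ^ 2 ≤ (ε ^ 2 * Q) ^ r *
      (D.card * (Q / 2) + (D.card : ℝ) ^ 2 * (4 * (Z : ℝ) ^ 2 / (Y₁ : ℝ) ^ r)) := by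
      refine hraw.trans (mul_le_mul h2 (by gcongr) ?_ (by positivity))
      have : 0 ≤ Real.log ((Y₂ ^ r + 1 : ℕ) : ℝ) := Real.log_natCast_nonneg _
      positivity
    have h7 : (D.card : ℝ) ^ 2 ≤ (Q : ℝ) ^ r *
      (D.card * (Q / 2) + (D.card : ℝ) ^ 2 * (4 * (Z : ℝ) ^ 2 / (Y₁ : ℝ) ^ r)) := by
      refine le_of_mul_le_mul_left ?_ hεr
      calc _ = ((D.card : ℝ) * ε ^ r) ^ 2 := by ring
        _ ≤ _ := h6
        _ = _ := by rw [mul_pow, ← pow_mul, ← pow_mul, mul_comm 2 r]; ring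
    have h8 : (D.card : ℝ) ^ 2 ≤ (Q : ℝ) ^ r * (D.card * (Q / 2)) + (D.card : ℝ) ^ 2 * (1 / 2) := by
      have := mul_le_mul_of_nonneg_left h4 (sq_nonneg (D.card : ℝ))
      nlinarith
    rcases Nat.eq_zero_or_pos D.card with h0 | h0
    · rw [h0, Nat.cast_zero]; positivity
    have h9 : (0 : ℝ) < D.card := by exact_mod_cast h0
    refine le_of_mul_le_mul_left ?_ h9
    rw [pow_succ]
    nlinarith
  have h6 : D.card ≤ Q ^ (2 * r) :=
    le_trans (by exact_mod_cast h5) (Nat.pow_le_pow_right (by omega) (by omega))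
  calc D.card ^ e ≤ (Q ^ (2 * r)) ^ e := Nat.pow_le_pow_left h6 e
    _ = Q ^ (2 * e) * (Q ^ (2 * e)) ^ (r - 1) := by
        rw [← pow_mul, ← pow_mul, ← pow_add]
        congr 1
        obtain ⟨r', hr'⟩ : ∃ r', r = r' + 1 := ⟨r - 1, by omega⟩
        rw [hr']; simp only [Nat.add_sub_cancel]; ring
    _ ≤ Q ^ (2 * e) * Z := Nat.mul_le_mul_left _ hlt.le

end Pool.Agent.Lib.MP_a3366f_nt
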