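import Mathlib
import Pool.Agent.Lib.MP_a3366f_nt.An3

/-!
Elementary symmetric sums and the Selberg sieve in orthogonal form.
-/

open Finset

namespace Pool.Agent.Lib.MP_a3366f_nt

/-- Elementary symmetric sum of degree `b`. -/
noncomputable def esym (P : Finset ℕ) (w : ℕ → ℝ) (b : ℕ) : ℝ :=
  ∑ S ∈ powersetCard b P, ∏ p ∈ S, w p

theorem esym_succ (P : Finset ℕ) (w : ℕ → ℝ) (b : ℕ) :
    (b + 1 : ℝ) * esym P w (b + 1)
      = ∑ S ∈ powersetCard b P, (∏ p ∈ S, w p) * ∑ p ∈ P \ S, w p := by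
  have h1 : (b + 1 : ℝ) * esym P w (b + 1)
      = ∑ S ∈ powersetCard (b + 1) P, ∑ _p ∈ S, ∏ q ∈ S, w q := by
    rw [esym, mul_sum]
    refine sum_congr rfl fun S hS => ?_
    rw [sum_const, (mem_powersetCard.mp hS).2]
    simp
  rw [h1]
  simp only [mul_sum]
  rw [sum_sigma', sum_sigma']
  refine sum_bij' (fun x _ => ⟨x.1.erase x.2, x.2⟩) (fun x _ => ⟨insert x.2 x.1, x.2⟩) ?_ ?_ ?_ ?_ ?_
  · rintro ⟨S, p⟩ hx
    simp only [mem_sigma, mem_powersetCard, mem_sdiff] at hx ⊢
    refine ⟨⟨(erase_subset _ _).trans hx.1.1, ?_⟩, hx.1.1 hx.2, notMem_erase _ _⟩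
    rw [card_erase_of_mem hx.2, hx.1.2]; simp
  · rintro ⟨S, p⟩ hx
    simp only [mem_sigma, mem_powersetCard, mem_sdiff] at hx ⊢
    refine ⟨⟨insert_subset hx.2.1 hx.1.1, ?_⟩, mem_insert_self _ _⟩
    rw [card_insert_of_notMem hx.2.2, hx.1.2]
  · rintro ⟨S, p⟩ hx
    simp only [mem_sigma] at hx
    simp [insert_erase hx.2]
  · rintro ⟨S, p⟩ hx
    simp only [mem_sigma, mem_sdiff] at hx
    simp [erase_insert hx.2.2]
  · rintro ⟨S, p⟩ hx
    simp only [mem_sigma] at hx
    exact (prod_erase_mul _ _ hx.2).symm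

theorem esym_nonneg (P : Finset ℕ) (w : ℕ → ℝ) (hw : ∀ p ∈ P, 0 ≤ w p) (b : ℕ) :
    0 ≤ esym P w b :=
  sum_nonneg fun _ hS => prod_nonneg fun p hp => hw p ((mem_powersetCard.mp hS).1 hp)

theorem esym_le (P : Finset ℕ) (w : ℕ → ℝ) (hw : ∀ p ∈ P, 0 ≤ w p) (L : ℝ)
    (hL : ∑ p ∈ P, w p ≤ L) (b : ℕ) : esym P w b ≤ L ^ b / b.factorial := by
  have hL0 : 0 ≤ L := (sum_nonneg hw).trans hL
  induction b with
  | zero => simp [esym]
  | succ b ih =>
    have h1 : (b + 1 : ℝ) * esym P w (b + 1) ≤ esym P w b * L := by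
      rw [esym_succ, esym, sum_mul]
      refine sum_le_sum fun S hS => mul_le_mul_of_nonneg_left ?_
        (prod_nonneg fun p hp => hw p ((mem_powersetCard.mp hS).1 hp))
      exact (sum_le_sum_of_subset_of_nonneg sdiff_subset fun p hp _ => hw p hp).trans hL
    have h2 : (0 : ℝ) < b.factorial := by exact_mod_cast b.factorial_pos
    have h3 := mul_le_mul_of_nonneg_right ih hL0
    rw [Nat.factorial_succ, le_div_iff₀ (by positivity)]
    push_cast
    rw [div_mul_eq_mul_div, le_div_iff₀ h2] at h3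
    rw [pow_succ]
    nlinarith

theorem le_esym (P : Finset ℕ) (w : ℕ → ℝ) (m : ℝ) (hw : ∀ p ∈ P, 0 ≤ w p ∧ w p ≤ m)
    (hm : 0 ≤ m) (L : ℝ) (hL0 : 0 ≤ L) (B : ℕ) (hL : L + B * m ≤ ∑ p ∈ P, w p) :
    ∀ b ≤ B, L ^ b / b.factorial ≤ esym P w b := by
  intro b
  induction b with
  | zero => intro _; simp [esym]
  | succ b ih =>
    intro hb
    have ih := ih (by omega)
    have h1 : esym P w b * L ≤ (b + 1 : ℝ) * esym P w (b + 1) := by
      rw [esym_succ, esym, sum_mul]
      refine sum_le_sum fun S hS => mul_le_mul_of_nonneg_left ?_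
        (prod_nonneg fun p hp => (hw p ((mem_powersetCard.mp hS).1 hp)).1)
      obtain ⟨hS1, hS2⟩ := mem_powersetCard.mp hS
      have h2 := sum_sdiff (f := w) hS1
      have h3 : ∑ p ∈ S, w p ≤ B * m := by
        calc ∑ p ∈ S, w p ≤ ∑ _p ∈ S, m := sum_le_sum fun p hp => (hw p (hS1 hp)).2
          _ = b * m := by simp [hS2]
          _ ≤ B * m := by gcongr; omega
      linarith
    have h2 : (0 : ℝ) < b.factorial := by exact_mod_cast b.factorial_pos
    have h3 := mul_le_mul_of_nonneg_right ih hL0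
    rw [Nat.factorial_succ, div_le_iff₀ (by positivity)]
    push_cast
    rw [div_mul_eq_mul_div, div_le_iff₀ h2] at h3
    rw [pow_succ]
    nlinarith

/-- The index set of the sieve. -/
def sieveSet (Q : Finset ℕ) (z : ℕ) : Finset (Finset ℕ) :=
  Q.powerset.filter fun e => ∏ p ∈ e, p ≤ z

/-- The Selberg sum. -/
noncomputable def selG (Q : Finset ℕ) (z : ℕ) (g : ℕ → ℝ) : ℝ :=
  ∑ e ∈ sieveSet Q z, ∏ p ∈ e, g p / (1 - g p)

/-- The orthogonal functions of the sieve. -/
noncomputable def psi (g : ℕ → ℝ) (I : ℕ → ℕ → ℝ) (p n : ℕ) : ℝ := (g p - I p n) / (1 - g p)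

/-- The (unnormalised) Selberg majorant. -/
noncomputable def selPhi (Q : Finset ℕ) (z : ℕ) (g : ℕ → ℝ) (I : ℕ → ℕ → ℝ) (n : ℕ) : ℝ :=
  ∑ e ∈ sieveSet Q z, ∏ p ∈ e, psi g I p n

theorem selPhi_sifted (Q : Finset ℕ) (z : ℕ) (g : ℕ → ℝ) (I : ℕ → ℕ → ℝ) (n : ℕ)
    (h : ∀ p ∈ Q, I p n = 0) : selPhi Q z g I n = selG Q z g := by
  refine sum_congr rfl fun e he => prod_congr rfl fun p hp => ?_
  rw [psi, h p (mem_powerset.mp (mem_filter.mp he).1 hp), sub_zero]

theorem card_sieveSet_le (Q : Finset ℕ) (hQ : ∀ p ∈ Q, p.Prime) (z : ℕ) :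
    (sieveSet Q z).card ≤ z := by
  have h := card_le_card_of_injOn (s := sieveSet Q z) (t := Icc 1 z) (fun e => ∏ p ∈ e, p)
    (fun e he => by
      obtain ⟨h1, h2⟩ := mem_filter.mp he
      simp only [coe_Icc, Set.mem_Icc]
      exact ⟨prod_pos fun p hp => (hQ p (mem_powerset.mp h1 hp)).pos, h2⟩)
    (fun e he e' he' h => by
      have h1 := mem_powerset.mp (mem_filter.mp he).1
      have h2 := mem_powerset.mp (mem_filter.mp he').1
      rw [← Nat.primeFactors_prod (s := e) fun p hp => hQ p (h1 hp),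
        ← Nat.primeFactors_prod (s := e') fun p hp => hQ p (h2 hp)]
      exact congrArg _ h)
  simpa using h

theorem abs_psi_le (g : ℕ → ℝ) (I : ℕ → ℕ → ℝ) (p n : ℕ) (hg : 0 ≤ g p ∧ g p ≤ 1 / 2)
    (hI : I p n = 0 ∨ I p n = 1) : |psi g I p n| ≤ 1 := by
  have h : 0 < 1 - g p := by linarith
  rw [psi, abs_div, abs_of_pos h, div_le_one h, abs_le]
  rcases hI with hI | hI <;> rw [hI] <;> constructor <;> linarith

theorem prod_union_le (e e' : Finset ℕ) (z : ℕ) (h0 : ∀ p ∈ e', 1 ≤ p) (he : ∏ p ∈ e, p ≤ z)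
    (he' : ∏ p ∈ e', p ≤ z) : ∏ p ∈ e ∪ e', p ≤ z ^ 2 := by
  rw [← union_sdiff_self_eq_union, prod_union disjoint_sdiff, sq]
  exact Nat.mul_le_mul he ((prod_le_prod_of_subset_of_one_le' sdiff_subset
    fun p hp _ => h0 p hp).trans he')

/-- The main sieve inequality. -/
theorem sieve_main (Q U : Finset ℕ) (z : ℕ) (g g' : ℕ → ℝ) (I J : ℕ → ℕ → ℝ) (w : ℕ → ℝ)
    (hQ : ∀ p ∈ Q, p.Prime) (hU : ∀ p ∈ U, p.Prime) (hd : Disjoint U Q)
    (hg : ∀ p ∈ Q, 0 ≤ g p ∧ g p ≤ 1 / 2) (hI : ∀ p ∈ Q, ∀ n, I p n = 0 ∨ I p n = 1)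
    (hIp : ∀ p ∈ Q, ∀ n, I p (n + p) = I p n) (hIm : ∀ p ∈ Q, ∑ n ∈ range p, I p n = p * g p)
    (hJ : ∀ p ∈ U, ∀ n, |J p n| ≤ 1) (hJp : ∀ p ∈ U, ∀ n, J p (n + p) = J p n)
    (hJm : ∀ p ∈ U, ∑ n ∈ range p, J p n = p * g' p) (A B : ℕ) (hAB : A ≤ B)
    (hw : ∀ n, A ≤ n → w (n + 1) ≤ w n) (hw0 : 0 ≤ w B) (hwA : 0 ≤ w A) :
    ∑ n ∈ Ico A B, (∏ p ∈ U, J p n) * selPhi Q z g I n ^ 2 * w n
      ≤ (∏ p ∈ U, g' p) * selG Q z g * (∑ n ∈ Ico A B, w n)
        + (z : ℝ) ^ 4 * (∏ p ∈ U, p : ℕ) * 2 * w A := by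
  classical
  have hterm : ∀ e ∈ sieveSet Q z, ∀ e' ∈ sieveSet Q z,
      ∑ n ∈ Ico A B, (∏ p ∈ U, J p n) * ((∏ p ∈ e, psi g I p n) * ∏ p ∈ e', psi g I p n) * w n
        ≤ (if e = e' then (∏ p ∈ U, g' p) * (∏ p ∈ e, g p / (1 - g p)) * ∑ n ∈ Ico A B, w n else 0)
          + (z : ℝ) ^ 2 * (∏ p ∈ U, p : ℕ) * 2 * w A := by
    intro e he e' he'
    obtain ⟨h1, h2⟩ := mem_filter.mp he
    obtain ⟨h3, h4⟩ := mem_filter.mp he'
    rw [mem_powerset] at h1 h3
    have hsub : e ∪ e' ⊆ Q := union_subset h1 h3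
    have hdis : Disjoint U (e ∪ e') := hd.mono_right hsub
    have hnU : ∀ p ∈ e ∪ e', p ∉ U := fun p hp hpU => disjoint_left.mp hdis hpU hp
    set F : ℕ → ℕ → ℝ := fun p n => if p ∈ U then J p n else
      (if p ∈ e then psi g I p n else 1) * (if p ∈ e' then psi g I p n else 1) with hF
    set μ : ℕ → ℝ := fun p => if p ∈ U then g' p else
      if p ∈ e ∧ p ∈ e' then g p / (1 - g p) else 0 with hμ
    have hcrt := crt_weighted F μ w (U ∪ (e ∪ e'))
      (fun p hp => (mem_union.mp hp).elim (hU p) fun h => hQ p (hsub h))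
      (fun p hp n => by
        simp only [hF]
        split_ifs with a b c d
        · exact hJp p a n
        all_goals simp only [psi]
        all_goals rw [hIp p (hsub ((mem_union.mp hp).resolve_left a))])
      (fun p hp n => by
        simp only [hF]
        by_cases a : p ∈ U
        · rw [if_pos a]; exact hJ p a n
        · have hpQ := hsub ((mem_union.mp hp).resolve_left a)
          have := abs_psi_le g I p n (hg p hpQ) (hI p hpQ n)
          rw [if_neg a, abs_mul]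
          refine mul_le_one₀ ?_ (abs_nonneg _) ?_ <;> split_ifs <;> simp [this])
      (fun p hp => by
        simp only [hF, hμ]
        by_cases a : p ∈ U
        · simp only [if_pos a]; exact hJm p a
        · have hpe := (mem_union.mp hp).resolve_left a
          have hpQ := hsub hpe
          have hg1 : 0 < 1 - g p := by linarith [(hg p hpQ).2]
          have hmean : ∑ n ∈ range p, psi g I p n = 0 := by
            simp only [psi]
            rw [← sum_div, sum_sub_distrib, hIm p hpQ]; simp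
          have hsq : ∑ n ∈ range p, psi g I p n * psi g I p n = p * (g p / (1 - g p)) := by
            rw [sum_congr rfl (g := fun n => (g p ^ 2 + (1 - 2 * g p) * I p n) / (1 - g p) ^ 2)
              fun n _ => by
                simp only [psi]
                rcases hI p hpQ n with h | h <;> rw [h] <;> field_simp <;> ring]
            rw [← sum_div, sum_add_distrib, ← mul_sum, hIm p hpQ]
            simp only [sum_const, card_range, nsmul_eq_mul]
            field_simp; ring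
          simp only [if_neg a]
          by_cases b : p ∈ e <;> by_cases c : p ∈ e'
          · simp [b, c, hsq]
          · simp [b, c, hmean]
          · simp [b, c, hmean]
          · exact absurd (mem_union.mp hpe) (by tauto))
      A B hAB hw hw0
    have hF1 : ∀ n, ∏ p ∈ U ∪ (e ∪ e'), F p n
        = (∏ p ∈ U, J p n) * ((∏ p ∈ e, psi g I p n) * ∏ p ∈ e', psi g I p n) := by
      intro n
      rw [prod_union hdis]
      congr 1
      · exact prod_congr rfl fun p hp => by simp only [hF, if_pos hp]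
      · rw [prod_congr rfl (g := fun p => (if p ∈ e then psi g I p n else 1) *
          (if p ∈ e' then psi g I p n else 1)) fun p hp => by simp only [hF, if_neg (hnU p hp)],
          prod_mul_distrib, prod_ite_mem, prod_ite_mem, union_inter_cancel_left,
          union_inter_cancel_right]
    have hμ1 : (∏ p ∈ U ∪ (e ∪ e'), μ p) * ∑ n ∈ Ico A B, w n = if e = e' then
        (∏ p ∈ U, g' p) * (∏ p ∈ e, g p / (1 - g p)) * ∑ n ∈ Ico A B, w n else 0 := by
      rw [prod_union hdis]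
      split_ifs with h
      · subst h
        congr 2
        · exact prod_congr rfl fun p hp => by simp only [hμ, if_pos hp]
        · rw [union_self] at hnU ⊢
          exact prod_congr rfl fun p hp => by simp [hμ, hnU p hp, hp]
      · obtain ⟨p, hp1, hp2⟩ : ∃ p ∈ e ∪ e', ¬(p ∈ e ∧ p ∈ e') := by
          by_contra hcon
          push Not at hcon
          exact h (Subset.antisymm (fun p hp => (hcon p (mem_union_left _ hp)).2)
            fun p hp => (hcon p (mem_union_right _ hp)).1)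
        rw [prod_eq_zero hp1 (by simp only [hμ, if_neg (hnU p hp1), if_neg hp2])]
        simp
    simp only [hF1, hμ1] at hcrt
    have h5 : ((∏ p ∈ U ∪ (e ∪ e'), p : ℕ) : ℝ) ≤ (z : ℝ) ^ 2 * (∏ p ∈ U, p : ℕ) := by
      rw [prod_union hdis, mul_comm]
      exact_mod_cast Nat.mul_le_mul_right _
        (prod_union_le e e' z (fun p hp => (hQ p (h3 hp)).pos) h2 h4)
    have h6 := mul_le_mul_of_nonneg_right (mul_le_mul_of_nonneg_right h5 zero_le_two) hwA
    linarith [(abs_le.mp hcrt).2]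
  have hexp : ∑ n ∈ Ico A B, (∏ p ∈ U, J p n) * selPhi Q z g I n ^ 2 * w n
      = ∑ e ∈ sieveSet Q z, ∑ e' ∈ sieveSet Q z, ∑ n ∈ Ico A B,
        (∏ p ∈ U, J p n) * ((∏ p ∈ e, psi g I p n) * ∏ p ∈ e', psi g I p n) * w n := by
    rw [sum_congr rfl (g := fun n => ∑ e ∈ sieveSet Q z, ∑ e' ∈ sieveSet Q z,
      (∏ p ∈ U, J p n) * ((∏ p ∈ e, psi g I p n) * ∏ p ∈ e', psi g I p n) * w n) fun n _ => by
        rw [selPhi, sq, sum_mul_sum, mul_sum, sum_mul]
        refine sum_congr rfl fun e _ => ?_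
        rw [mul_sum, sum_mul]]
    rw [sum_comm]
    exact sum_congr rfl fun e _ => sum_comm
  rw [hexp]
  refine (sum_le_sum fun e he => sum_le_sum fun e' he' => hterm e he e' he').trans ?_
  simp only [sum_add_distrib, sum_ite_eq, sum_const, nsmul_eq_mul]
  rw [sum_congr rfl fun e he => if_pos he, ← sum_mul, ← mul_sum]
  have h1 : ((sieveSet Q z).card : ℝ) ≤ z := by exact_mod_cast card_sieveSet_le Q hQ z
  have h2 : ((sieveSet Q z).card : ℝ) * (((sieveSet Q z).card : ℝ) *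
      ((z : ℝ) ^ 2 * (∏ p ∈ U, p : ℕ) * 2 * w A))
        ≤ z * (z * ((z : ℝ) ^ 2 * (∏ p ∈ U, p : ℕ) * 2 * w A)) := by gcongr
  unfold selG
  linarith

/-- Rankin's trick: lower bound for the Selberg sum. -/
theorem selG_ge (Q : Finset ℕ) (z W : ℕ) (g : ℕ → ℝ) (hW : 2 ≤ W) (hz : W ^ 7 ≤ z)
    (hQ : ∀ p ∈ Q, 1 ≤ p ∧ p ≤ W) (hg : ∀ p ∈ Q, 0 ≤ g p ∧ g p ≤ 1 / 2)
    (hs : ∑ p ∈ Q, g p * Real.log p ≤ 3 * Real.log W) :
    Real.exp (∑ p ∈ Q, g p) / 2 ≤ selG Q z g := by
  have hW1 : (1 : ℝ) < W := by exact_mod_cast hW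
  have hL : 0 < Real.log W := Real.log_pos hW1
  set h : ℕ → ℝ := fun p => g p / (1 - g p) with hh
  have hh0 : ∀ p ∈ Q, 0 ≤ h p := fun p hp =>
    div_nonneg (hg p hp).1 (by linarith [(hg p hp).2])
  set T := ∏ p ∈ Q, (1 + h p) with hT
  have hT1 : Real.exp (∑ p ∈ Q, g p) ≤ T := by
    rw [Real.exp_sum]
    refine prod_le_prod (fun _ _ => (Real.exp_pos _).le) fun p hp => ?_
    have h1 : 0 < 1 - g p := by linarith [(hg p hp).2]
    have h2 := Real.add_one_le_exp (-g p)
    have h3 : Real.exp (g p) * Real.exp (-g p) = 1 := by rw [← Real.exp_add]; simp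
    have h4 : 1 + h p = 1 / (1 - g p) := by simp only [hh]; field_simp; ring
    rw [h4, le_div_iff₀ h1]
    nlinarith [Real.exp_pos (g p)]
  have hT2 : T = selG Q z g + ∑ e ∈ Q.powerset.filter (fun e => ¬ ∏ p ∈ e, p ≤ z), ∏ p ∈ e, h p := by
    rw [hT, prod_one_add, selG, sieveSet, sum_filter_add_sum_filter_not]
  have hx : ∀ p ∈ Q, 0 ≤ Real.log p / Real.log W ∧ Real.log p / Real.log W ≤ 1 := by
    intro p hp
    refine ⟨div_nonneg (Real.log_natCast_nonneg p) hL.le, (div_le_one hL).mpr ?_⟩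
    exact Real.log_le_log (by exact_mod_cast (hQ p hp).1) (by exact_mod_cast (hQ p hp).2)
  have hT3 : ∑ e ∈ Q.powerset.filter (fun e => ¬ ∏ p ∈ e, p ≤ z), ∏ p ∈ e, h p
      ≤ Real.exp (-7) * ∏ p ∈ Q, (1 + h p * Real.exp (Real.log p / Real.log W)) := by
    rw [prod_one_add, mul_sum]
    refine le_trans (sum_le_sum fun e he => ?_) (sum_le_sum_of_subset_of_nonneg (filter_subset _ _)
      fun e he _ => mul_nonneg (Real.exp_pos _).le (prod_nonneg fun p hp =>
        mul_nonneg (hh0 p (mem_powerset.mp he hp)) (Real.exp_pos _).le))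
    obtain ⟨h1, h2⟩ := mem_filter.mp he
    rw [mem_powerset] at h1
    rw [prod_mul_distrib, ← Real.exp_sum, mul_left_comm, ← Real.exp_add]
    refine le_mul_of_one_le_right (prod_nonneg fun p hp => hh0 p (h1 hp)) (Real.one_le_exp ?_)
    rw [← sum_div, ← Real.log_prod (fun p hp => by
      exact_mod_cast Nat.ne_of_gt (hQ p (h1 hp)).1)]
    have h3 : (W : ℝ) ^ 7 ≤ ∏ p ∈ e, (p : ℝ) := by
      rw [← Nat.cast_prod]
      exact_mod_cast hz.trans (not_le.mp h2).le
    have h4 := Real.log_le_log (by positivity) h3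
    rw [Real.log_pow] at h4
    have h5 : 7 ≤ Real.log (∏ p ∈ e, (p : ℝ)) / Real.log W := by
      rw [le_div_iff₀ hL]; exact_mod_cast h4
    linarith
  have hT4 : ∏ p ∈ Q, (1 + h p * Real.exp (Real.log p / Real.log W))
      ≤ T * Real.exp 6 := by
    have h1 : ∏ p ∈ Q, (1 + h p * Real.exp (Real.log p / Real.log W))
        ≤ ∏ p ∈ Q, ((1 + h p) * Real.exp (2 * (g p * Real.log p) / Real.log W)) := by
      refine prod_le_prod (fun p hp => add_nonneg zero_le_one
        (mul_nonneg (hh0 p hp) (Real.exp_pos _).le)) fun p hp => ?_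
      have h2 : Real.exp (Real.log p / Real.log W) ≤ 1 + 2 * (Real.log p / Real.log W) := by
        have := Real.abs_exp_sub_one_le (x := Real.log p / Real.log W)
          (by rw [abs_of_nonneg (hx p hp).1]; exact (hx p hp).2)
        rw [abs_of_nonneg (hx p hp).1] at this
        linarith [(abs_le.mp this).2]
      have h3 := Real.add_one_le_exp (2 * (g p * Real.log p) / Real.log W)
      have h4 : 0 < 1 - g p := by linarith [(hg p hp).2]
      have h5 : (1 + h p) * g p = h p := by simp only [hh]; field_simp; ring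
      have h6 : (1 + h p) * (2 * (g p * Real.log p) / Real.log W + 1)
          = 1 + h p * (1 + 2 * (Real.log p / Real.log W)) := by
        have : (1 + h p) * (2 * (g p * Real.log p) / Real.log W + 1)
          = ((1 + h p) * g p) * (2 * (Real.log p / Real.log W)) + (1 + h p) := by ring
        rw [this, h5]; ring
      have h7 := mul_le_mul_of_nonneg_left h3 (add_nonneg zero_le_one (hh0 p hp))
      have h8 := mul_le_mul_of_nonneg_left h2 (hh0 p hp)
      linarith
    refine h1.trans ?_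
    rw [prod_mul_distrib, ← Real.exp_sum]
    refine mul_le_mul_of_nonneg_left (Real.exp_le_exp.mpr ?_)
      (prod_nonneg fun p hp => add_nonneg zero_le_one (hh0 p hp))
    rw [← sum_div, ← mul_sum, div_le_iff₀ hL]
    linarith
  have hT0 : 0 ≤ T := (Real.exp_pos _).le.trans hT1
  have h1 : Real.exp (-7) * Real.exp 6 ≤ 1 / 2 := by
    rw [← Real.exp_add]
    have h2 := Real.add_one_le_exp 1
    have h3 : Real.exp 1 * Real.exp (-7 + 6) = 1 := by rw [← Real.exp_add]; norm_num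
    have h4 := mul_le_mul_of_nonneg_right h2 (Real.exp_pos (-7 + 6)).le
    rw [h3] at h4
    generalize Real.exp (-7 + 6) = x at h4 ⊢
    linarith
  have h2 := mul_le_mul_of_nonneg_left hT4 (Real.exp_pos (-7)).le
  nlinarith

end Pool.Agent.Lib.MP_a3366f_nt
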