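import Mathlib
import Pool.Agent.Lib.MP_a3366f_nt.An2

/-!
Mertens' first theorem, also in residue classes modulo eight.
-/

open Finset ArithmeticFunction

namespace Pool.Agent.Lib.MP_a3366f_nt

theorem psi_nat_le (N : ℕ) : ∑ a ∈ Ioc 0 N, vonMangoldt a ≤ 6 * N := by
  have h := Chebyshev.psi_le_const_mul_self (x := N) (by positivity)
  rw [Chebyshev.psi, Nat.floor_natCast] at h
  have h2 : Real.log 4 ≤ 2 := by
    rw [show (4 : ℝ) = 2 ^ 2 by norm_num, Real.log_pow]
    have := Real.log_two_lt_d9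
    push_cast; linarith
  have : (0 : ℝ) ≤ N := by positivity
  nlinarith

theorem mertens_Lambda (N : ℕ) (hN : 1 ≤ N) :
    |∑ a ∈ Ioc 0 N, vonMangoldt a / a - Real.log N| ≤ 6 := by
  have hN0 : (0 : ℝ) < N := by exact_mod_cast hN
  have h1 := sum_Ioc_mul_zeta_eq_sum (R := ℝ) vonMangoldt N
  rw [vonMangoldt_mul_zeta] at h1
  have h2 : ∑ n ∈ Ioc 0 N, ArithmeticFunction.log n = Real.log N.factorial := by
    simp only [log_apply]
    rw [← Real.log_prod fun n hn => by exact_mod_cast (mem_Ioc.mp hn).1.ne', ← Nat.cast_prod,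
      show Ioc 0 N = Ico 1 (N + 1) by ext n; simp only [mem_Ioc, mem_Ico]; omega,
      Finset.prod_Ico_id_eq_factorial]
  have h3 : Real.log N.factorial ≤ N * Real.log N := by
    rw [← Real.log_pow]
    exact Real.log_le_log (by exact_mod_cast N.factorial_pos)
      (by exact_mod_cast Nat.factorial_le_pow N)
  have h4 : N * Real.log N - N ≤ Real.log N.factorial := by
    have h5 := Real.pow_div_factorial_le_exp (N : ℝ) hN0.le N
    have h6 := Real.log_le_log (by positivity) h5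
    rw [Real.log_div (by positivity) (by positivity), Real.log_pow, Real.log_exp] at h6
    linarith
  have h5 : ∑ a ∈ Ioc 0 N, vonMangoldt a * ((N / a : ℕ) : ℝ) ≤ N * ∑ a ∈ Ioc 0 N, vonMangoldt a / a := by
    rw [mul_sum]
    refine sum_le_sum fun a _ => ?_
    have := mul_le_mul_of_nonneg_left (Nat.cast_div_le (α := ℝ) (m := N) (n := a))
      (vonMangoldt_nonneg (n := a))
    calc _ ≤ _ := this
      _ = _ := by ring
  have h6 : N * ∑ a ∈ Ioc 0 N, vonMangoldt a / a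
      ≤ ∑ a ∈ Ioc 0 N, vonMangoldt a * ((N / a : ℕ) : ℝ) + ∑ a ∈ Ioc 0 N, vonMangoldt a := by
    rw [mul_sum, ← sum_add_distrib]
    refine sum_le_sum fun a ha => ?_
    have ha0 : (0 : ℝ) < a := by exact_mod_cast (mem_Ioc.mp ha).1
    have h7 : (N : ℝ) / a ≤ ((N / a : ℕ) : ℝ) + 1 := by
      rw [div_le_iff₀ ha0]
      have := Nat.lt_div_mul_add (a := N) (mem_Ioc.mp ha).1
      have h8 : (N : ℝ) < ((N / a : ℕ) : ℝ) * a + a := by exact_mod_cast this
      linarith
    have := mul_le_mul_of_nonneg_left h7 (vonMangoldt_nonneg (n := a))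
    calc _ = vonMangoldt a * ((N : ℝ) / a) := by ring
      _ ≤ _ := this
      _ = _ := by ring
  have h7 := psi_nat_le N
  rw [h2] at h1
  rw [abs_le]
  constructor
  · refine le_of_mul_le_mul_left ?_ hN0
    nlinarith
  · refine le_of_mul_le_mul_left ?_ hN0
    nlinarith

theorem log_div_antitone (n : ℕ) (hn : 3 ≤ n) :
    Real.log ((n + 1 : ℕ) : ℝ) / ((n + 1 : ℕ) : ℝ) ≤ Real.log n / n := by
  have h3 : Real.exp 1 ≤ n := by
    have := Real.exp_one_lt_d9
    have h : (3 : ℝ) ≤ n := by exact_mod_cast hn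
    linarith
  refine Real.log_div_self_antitoneOn h3 ?_ (by push_cast; linarith)
  change Real.exp 1 ≤ _
  push_cast; linarith

theorem mertens_char (f : ℕ → ℝ) (hmul : ∀ m n, f (m * n) = f m * f n) (hb : ∀ n, |f n| ≤ 1)
    (hper : ∀ n, f (n + 8) = f n) (h0 : ∑ n ∈ range 8, f n = 0) (h2 : f 2 = 0)
    (hL : 3 / 5 ≤ ∑ n ∈ Ico 1 25, f n / n) (N : ℕ) (hN : 24 ≤ N) :
    |∑ a ∈ Ioc 0 N, f a * (vonMangoldt a / a)| ≤ 300 := by
  have hN0 : (0 : ℝ) < N := by exact_mod_cast (by omega : 0 < N)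
  let F : ArithmeticFunction ℝ := ⟨fun n => f n / n, by simp⟩
  let G : ArithmeticFunction ℝ := ⟨fun n => f n * (vonMangoldt n / n), by simp⟩
  have hF : ∀ n, F n = f n / n := fun _ => rfl
  have hG : ∀ n, G n = f n * (vonMangoldt n / n) := fun _ => rfl
  have h1 := sum_Ioc_mul_eq_sum_sum G F N
  have h3 : ∀ n, (G * F) n = f n * (Real.log n / n) := by
    intro n
    rw [mul_apply, ← vonMangoldt_sum, ← Nat.sum_divisorsAntidiagonal fun a _ => vonMangoldt a, sum_div,
      mul_sum]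
    refine sum_congr rfl fun x hx => ?_
    rw [hF, hG, ← (Nat.mem_divisorsAntidiagonal.mp hx).1, hmul]
    push_cast; ring
  have hinv : ∀ A : ℕ, 1 ≤ A → ∀ n, A ≤ n → 1 / ((n + 1 : ℕ) : ℝ) ≤ 1 / (n : ℝ) := by
    intro A hA n hn
    have : (0 : ℝ) < n := by exact_mod_cast (by omega : 0 < n)
    push_cast
    exact one_div_le_one_div_of_le this (by linarith)
  have htail : ∀ A : ℕ, 1 ≤ A → A ≤ N + 1 → |∑ n ∈ Ico A (N + 1), f n / n| ≤ 8 / A := by
    intro A hA hAN
    have := periodic_weighted_bound f (fun n => 1 / (n : ℝ)) 8 1 (by norm_num) hper hb h0 A (N + 1)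
      hAN (hinv A hA) (by positivity)
    simp only [mul_one_div, mul_one] at this
    exact_mod_cast this
  have hIoc : ∀ M : ℕ, Ioc 0 M = Ico 1 (M + 1) := fun M => by
    ext n; simp only [mem_Ioc, mem_Ico]; omega
  set L := ∑ n ∈ Ico 1 (N + 1), f n / n with hLdef
  have hL1 : 1 / 4 ≤ L := by
    rw [hLdef, ← sum_Ico_consecutive _ (by norm_num : 1 ≤ 25) (by omega : 25 ≤ N + 1)]
    have := (abs_le.mp (htail 25 (by norm_num) (by omega))).1
    push_cast at this
    linarith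
  have h4 : |∑ n ∈ Ioc 0 N, (G * F) n| ≤ 8 := by
    simp only [h3]
    rw [hIoc, ← sum_Ico_consecutive _ (by norm_num : 1 ≤ 3) (by omega : 3 ≤ N + 1)]
    have h5 : ∑ n ∈ Ico 1 3, f n * (Real.log n / n) = 0 := by
      rw [show Ico 1 3 = {1, 2} by decide]
      simp [h2]
    have h6 := periodic_weighted_bound f (fun n => Real.log n / n) 8 1 (by norm_num) hper hb h0 3
      (N + 1) (by omega) log_div_antitone (div_nonneg (Real.log_natCast_nonneg _) (by positivity))
    have h7 : Real.log ((3 : ℕ) : ℝ) / ((3 : ℕ) : ℝ) ≤ 1 := by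
      rw [div_le_one (by norm_num)]
      exact (Real.log_le_sub_one_of_pos (by norm_num)).trans (by linarith)
    rw [h5, zero_add]
    refine h6.trans ?_
    push_cast at h7 ⊢
    linarith
  have h5 : |∑ n ∈ Ioc 0 N, (G * F) n - L * ∑ a ∈ Ioc 0 N, G a| ≤ 48 := by
    rw [h1, mul_sum, ← sum_sub_distrib]
    refine (abs_sum_le_sum_abs _ _).trans ?_
    have h6 : ∀ a ∈ Ioc 0 N, |G a * ∑ m ∈ Ioc 0 (N / a), F m - L * G a| ≤ vonMangoldt a * (8 / N) := by
      intro a ha
      have ha1 := (mem_Ioc.mp ha).1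
      have ha0 : (0 : ℝ) < a := by exact_mod_cast ha1
      have h7 : N / a + 1 ≤ N + 1 := Nat.succ_le_succ (Nat.div_le_self _ _)
      have h8 : G a * ∑ m ∈ Ioc 0 (N / a), F m - L * G a
          = -(G a * ∑ n ∈ Ico (N / a + 1) (N + 1), f n / n) := by
        rw [hLdef, ← sum_Ico_consecutive _ (Nat.le_add_left 1 (N / a)) h7, hIoc]
        simp only [hF]; ring
      have h9 : |G a| ≤ vonMangoldt a / a := by
        rw [hG, abs_mul, abs_of_nonneg (div_nonneg vonMangoldt_nonneg ha0.le)]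
        exact mul_le_of_le_one_left (div_nonneg vonMangoldt_nonneg ha0.le) (hb a)
      have h10 : (8 : ℝ) / ((N / a + 1 : ℕ) : ℝ) ≤ 8 * a / N := by
        rw [div_le_div_iff₀ (by positivity) hN0]
        have := Nat.lt_div_mul_add (a := N) ha1
        have h8 : (N : ℝ) < ((N / a : ℕ) : ℝ) * a + a := by exact_mod_cast this
        push_cast
        nlinarith
      rw [h8, abs_neg, abs_mul]
      calc _ ≤ vonMangoldt a / a * (8 * a / N) := mul_le_mul h9 ((htail _ (Nat.le_add_left 1 (N / a)) h7).trans h10)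
            (abs_nonneg _) (div_nonneg vonMangoldt_nonneg ha0.le)
        _ = _ := by field_simp
    refine (sum_le_sum h6).trans ?_
    rw [← sum_mul]
    calc _ ≤ 6 * (N : ℝ) * (8 / N) := mul_le_mul_of_nonneg_right (psi_nat_le N) (by positivity)
      _ = 48 := by field_simp; norm_num
  have h6 : |L * ∑ a ∈ Ioc 0 N, G a| ≤ 56 := by
    have := abs_sub_abs_le_abs_sub (L * ∑ a ∈ Ioc 0 N, G a) (∑ n ∈ Ioc 0 N, (G * F) n)
    rw [abs_sub_comm] at this
    linarith
  rw [abs_mul, abs_of_nonneg (by linarith)] at h6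
  simp only [hG] at h6
  nlinarith [abs_nonneg (∑ a ∈ Ioc 0 N, f a * (vonMangoldt a / a))]

theorem exists_nonprime_bound : ∃ C : ℝ, ∀ (f : ℕ → ℝ), (∀ n, |f n| ≤ 1) → ∀ N : ℕ,
    |∑ p ∈ (Ioc 0 N).filter Nat.Prime, f p * (Real.log p / p)
      - ∑ a ∈ Ioc 0 N, f a * (vonMangoldt a / a)| ≤ C := by
  have hs := vonMangoldt.summable_residueClass_non_primes_div (q := 1) 0
  have hr : ∀ n, vonMangoldt.residueClass (0 : ZMod 1) n = vonMangoldt n := fun n =>
    Set.indicator_of_mem (s := {n : ℕ | (n : ZMod 1) = 0}) (a := n) (Subsingleton.elim _ _) _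
  simp only [hr] at hs
  refine ⟨∑' n : ℕ, (if n.Prime then 0 else vonMangoldt n) / n, fun f hf N => ?_⟩
  have hnn : ∀ n : ℕ, 0 ≤ (if n.Prime then 0 else vonMangoldt n) / (n : ℝ) := fun n => by
    refine div_nonneg ?_ (by positivity)
    split_ifs
    exacts [le_rfl, vonMangoldt_nonneg]
  rw [sum_filter, ← sum_sub_distrib]
  refine (abs_sum_le_sum_abs _ _).trans (le_trans (sum_le_sum fun n _ => ?_)
    (hs.sum_le_tsum (Ioc 0 N) fun n _ => hnn n))
  split_ifs with h
  · simp [vonMangoldt_apply_prime h]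
  · rw [zero_sub, abs_neg, abs_mul, abs_of_nonneg (div_nonneg vonMangoldt_nonneg (by positivity))]
    exact mul_le_of_le_one_left (div_nonneg vonMangoldt_nonneg (by positivity)) (hf n)

theorem chi_neg_one (n : ℕ) :
    chi (-1) n = if n % 2 = 0 then 0 else if n % 4 = 1 then 1 else -1 := by
  unfold chi
  by_cases h : Odd n
  · rw [if_pos h, jacobiSym.at_neg_one h, ZMod.χ₄_nat_eq_if_mod_four]
    split_ifs <;> simp
  · rw [if_neg h, if_pos (by rw [Nat.odd_iff] at h; omega)]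

theorem chi_two (n : ℕ) :
    chi 2 n = if n % 2 = 0 then 0 else if n % 8 = 1 ∨ n % 8 = 7 then 1 else -1 := by
  unfold chi
  by_cases h : Odd n
  · rw [if_pos h, jacobiSym.at_two h, ZMod.χ₈_nat_eq_if_mod_eight]
    split_ifs <;> simp
  · rw [if_neg h, if_pos (by rw [Nat.odd_iff] at h; omega)]

theorem chi_neg_two (n : ℕ) :
    chi (-2) n = if n % 2 = 0 then 0 else if n % 8 = 1 ∨ n % 8 = 3 then 1 else -1 := by
  unfold chi
  by_cases h : Odd n
  · rw [if_pos h, jacobiSym.at_neg_two h, ZMod.χ₈'_nat_eq_if_mod_eight]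
    split_ifs <;> simp
  · rw [if_neg h, if_pos (by rw [Nat.odd_iff] at h; omega)]

theorem mertens_chi (a : ℤ) (ha : a = -1 ∨ a = 2 ∨ a = -2) (N : ℕ) (hN : 24 ≤ N) :
    |∑ n ∈ Ioc 0 N, chi a n * (vonMangoldt n / n)| ≤ 300 := by
  refine mertens_char (chi a) (chi_mul_right a) (abs_chi_le a) ?_ ?_ ?_ ?_ N hN
  · refine periodic_of_dvd (chi a) (4 * a.natAbs) 8 (chi_periodic a) ?_
    rcases ha with rfl | rfl | rfl <;> decide
  · rcases ha with rfl | rfl | rfl <;>
      simp [sum_range_succ, chi_neg_one, chi_two, chi_neg_two]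
  · simp [chi]
  · rw [sum_Ico_eq_sum_range]
    rcases ha with rfl | rfl | rfl <;>
      simp only [sum_range_succ, chi_neg_one, chi_two, chi_neg_two] <;> norm_num

/-- Mertens' first theorem. -/
theorem mertens_primes : ∃ C : ℝ, ∀ N : ℕ, 1 ≤ N →
    |∑ p ∈ (Ioc 0 N).filter Nat.Prime, Real.log p / p - Real.log N| ≤ C := by
  obtain ⟨C, hC⟩ := exists_nonprime_bound
  refine ⟨C + 6, fun N hN => ?_⟩
  have h1 := hC (fun _ => 1) (by simp) N
  have h2 := mertens_Lambda N hN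
  simp only [one_mul] at h1
  rw [abs_le] at *
  constructor <;> linarith [h1.1, h1.2, h2.1, h2.2]

/-- Mertens' first theorem in the classes three and five modulo eight. -/
theorem mertens_class : ∃ C : ℝ, ∀ g : ℕ, (g = 3 ∨ g = 5) → ∀ N : ℕ, 24 ≤ N →
    |∑ p ∈ (Ioc 0 N).filter (fun p => p.Prime ∧ p % 8 = g), Real.log p / p - Real.log N / 4|
      ≤ C := by
  obtain ⟨C, hC⟩ := exists_nonprime_bound
  obtain ⟨C', hC'⟩ := mertens_primes
  refine ⟨C' + 1 + 3 * (C + 300), fun g hg N hN => ?_⟩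
  have hc : ∀ a : ℤ, (a = -1 ∨ a = 2 ∨ a = -2) →
      |∑ p ∈ (Ioc 0 N).filter Nat.Prime, chi a p * (Real.log p / p)| ≤ C + 300 := by
    intro a ha
    have h1 := hC (chi a) (abs_chi_le a) N
    have h2 := mertens_chi a ha N hN
    rw [abs_le] at *
    constructor <;> linarith [h1.1, h1.2, h2.1, h2.2]
  have h1 := abs_le.mp (hc (-1) (by simp))
  have h2 := abs_le.mp (hc 2 (by simp))
  have h3 := abs_le.mp (hc (-2) (by simp))
  have h4 := abs_le.mp (hC' N (by omega))
  have hC0 : 0 ≤ C + 300 := by linarith [h1.1, h1.2]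
  have hC1 : 0 ≤ C' := by linarith [h4.1, h4.2]
  have h5 : ∑ p ∈ (Ioc 0 N).filter Nat.Prime, (if p = 2 then (1 : ℝ) else 0) * (Real.log p / p)
      = Real.log 2 / 2 := by
    simp only [ite_mul, one_mul, zero_mul]
    rw [sum_ite_eq' , if_pos (by simp [Nat.prime_two]; omega)]
    simp
  have h6 := Real.log_two_lt_d9
  have h7 := Real.log_two_gt_d9
  have h8 : ∀ s : ℝ, (g = 3 ∧ s = -1 ∨ g = 5 ∧ s = 1) →
      4 * ∑ p ∈ (Ioc 0 N).filter (fun p => p.Prime ∧ p % 8 = g), Real.log p / p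
      = ∑ p ∈ (Ioc 0 N).filter Nat.Prime, Real.log p / p
        - ∑ p ∈ (Ioc 0 N).filter Nat.Prime, (if p = 2 then (1 : ℝ) else 0) * (Real.log p / p)
        + s * ∑ p ∈ (Ioc 0 N).filter Nat.Prime, chi (-1) p * (Real.log p / p)
        - ∑ p ∈ (Ioc 0 N).filter Nat.Prime, chi 2 p * (Real.log p / p)
        - s * ∑ p ∈ (Ioc 0 N).filter Nat.Prime, chi (-2) p * (Real.log p / p) := by
    intro s hs
    rw [← filter_filter, sum_filter (s := (Ioc 0 N).filter Nat.Prime)]
    simp only [mul_sum, ← sum_sub_distrib, ← sum_add_distrib]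
    refine sum_congr rfl fun p hp => ?_
    have hp := (mem_filter.mp hp).2
    rw [chi_neg_one, chi_two, chi_neg_two]
    rcases hp.eq_two_or_odd with rfl | h
    · rcases hs with ⟨rfl, rfl⟩ | ⟨rfl, rfl⟩ <;> simp
    · have h9 : p % 8 = 1 ∨ p % 8 = 3 ∨ p % 8 = 5 ∨ p % 8 = 7 := by omega
      have h10 : p ≠ 2 := by omega
      have h11 : p % 4 = p % 8 % 4 := by omega
      rcases hs with ⟨rfl, rfl⟩ | ⟨rfl, rfl⟩ <;> rcases h9 with h9 | h9 | h9 | h9 <;>
        simp [h, h9, h10, h11] <;> ring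
  rw [abs_le]
  rcases hg with hg | hg
  · have := h8 (-1) (Or.inl ⟨hg, rfl⟩)
    constructor <;> linarith [h1.1, h1.2, h2.1, h2.2, h3.1, h3.2, h4.1, h4.2]
  · have := h8 1 (Or.inr ⟨hg, rfl⟩)
    constructor <;> linarith [h1.1, h1.2, h2.1, h2.2, h3.1, h3.2, h4.1, h4.2]

end Pool.Agent.Lib.MP_a3366f_nt
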