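import Mathlib
import Pool.Agent.Lib.MP_a3366f_nt.An4
import Pool.Agent.Lib.MP_a3366f_nt.An5

/-!
Consequences of Mertens' theorem, and the number of kernels that are strongly biased.
-/

open Finset

namespace Pool.Agent.Lib.MP_a3366f_nt

/-- Primes in `(A, B]`. -/
def prIoc (A B : ℕ) : Finset ℕ := (Ioc A B).filter Nat.Prime

/-- Primes in `(A, B]` congruent to `g` modulo eight. -/
def prCls (g A B : ℕ) : Finset ℕ := (Ioc A B).filter fun p => p.Prime ∧ p % 8 = g

theorem mem_prIoc {A B p : ℕ} : p ∈ prIoc A B ↔ (A < p ∧ p ≤ B) ∧ p.Prime := by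
  simp [prIoc]

theorem mem_prCls {g A B p : ℕ} : p ∈ prCls g A B ↔ (A < p ∧ p ≤ B) ∧ p.Prime ∧ p % 8 = g := by
  simp [prCls]

theorem sum_filter_Ioc_split (f : ℕ → ℝ) (P : ℕ → Prop) [DecidablePred P] (A B : ℕ) (h : A ≤ B) :
    ∑ p ∈ (Ioc A B).filter P, f p
      = ∑ p ∈ (Ioc 0 B).filter P, f p - ∑ p ∈ (Ioc 0 A).filter P, f p := by
  rw [sum_filter, sum_filter, sum_filter, ← sum_Ioc_consecutive _ (Nat.zero_le A) h]
  ring

theorem exists_log_ge (C : ℝ) : ∃ N₀ : ℕ, 24 ≤ N₀ ∧ ∀ N : ℕ, N₀ ≤ N → C ≤ Real.log N := by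
  refine ⟨max 24 ⌈Real.exp C⌉₊, le_max_left _ _, fun N hN => ?_⟩
  have h1 : Real.exp C ≤ N := (Nat.le_ceil _).trans (by exact_mod_cast (le_max_right _ _).trans hN)
  exact (Real.le_log_iff_exp_le ((Real.exp_pos C).trans_le h1)).mpr h1

theorem cls_log_sum : ∃ C : ℝ, ∀ g : ℕ, (g = 3 ∨ g = 5) → ∀ A B : ℕ, 24 ≤ A → A ≤ B →
    (Real.log B - Real.log A) / 4 - C ≤ ∑ p ∈ prCls g A B, Real.log p / p := by
  obtain ⟨C, hC⟩ := mertens_class
  refine ⟨2 * C, fun g hg A B hA hAB => ?_⟩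
  rw [prCls, sum_filter_Ioc_split _ _ A B hAB]
  have h1 := abs_le.mp (hC g hg A hA)
  have h2 := abs_le.mp (hC g hg B (by omega))
  linarith [h1.1, h1.2, h2.1, h2.2]

theorem lam_cls_ge : ∃ Y₀ : ℕ, ∀ g : ℕ, (g = 3 ∨ g = 5) → ∀ Y : ℕ, Y₀ ≤ Y →
    1 / 10 ≤ lam (prCls g Y (Y ^ 2)) := by
  obtain ⟨C, hC⟩ := cls_log_sum
  obtain ⟨Y₀, h0, hY₀⟩ := exists_log_ge (20 * C + 1)
  obtain ⟨Y₁, -, hY₁⟩ := exists_log_ge 1
  refine ⟨max Y₀ Y₁, fun g hg Y hY => ?_⟩
  have h1 := hC g hg Y (Y ^ 2) (by omega) (Nat.le_self_pow two_ne_zero Y)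
  have h2 := hY₀ Y (by omega)
  have h3 := hY₁ Y (by omega)
  have h4 : ∑ p ∈ prCls g Y (Y ^ 2), Real.log p / p
      ≤ 2 * Real.log Y * lam (prCls g Y (Y ^ 2)) := by
    rw [lam, mul_sum]
    refine sum_le_sum fun p hp => ?_
    obtain ⟨⟨h5, h6⟩, h7, -⟩ := mem_prCls.mp hp
    have h8 : Real.log p ≤ 2 * Real.log Y := by
      have := Real.log_le_log (by exact_mod_cast h7.pos) (by exact_mod_cast h6 : (p : ℝ) ≤ Y ^ 2)
      rwa [Real.log_pow] at this
    rw [mul_one_div]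
    gcongr
  push_cast at h1
  rw [Real.log_pow] at h1
  push_cast at h1
  by_contra h5
  nlinarith

theorem card_cls_ge : ∃ T N₀ : ℕ, 1 ≤ T ∧ ∀ g : ℕ, (g = 3 ∨ g = 5) → ∀ N : ℕ, N₀ ≤ N →
    (N : ℝ) / (T * Real.log N) ≤ (prCls g (N / T) N).card := by
  obtain ⟨C, hC⟩ := cls_log_sum
  obtain ⟨T, h0, hT⟩ := exists_log_ge (4 * C + 4)
  refine ⟨T, 24 * T, by omega, fun g hg N hN => ?_⟩
  have hT0 : 0 < T := by omega
  have hM : 24 ≤ N / T := (Nat.le_div_iff_mul_le hT0).mpr hN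
  have h1 := hC g hg (N / T) N hM (Nat.div_le_self _ _)
  have h2 := hT T le_rfl
  have hN1 : (1 : ℝ) < N := by exact_mod_cast (by omega : 1 < N)
  have hT' : (0 : ℝ) < T := by exact_mod_cast hT0
  have hL : 0 < Real.log N := Real.log_pos hN1
  have h3 : Real.log ((N / T : ℕ) : ℝ) ≤ Real.log N - Real.log T := by
    rw [← Real.log_div (by positivity) (by positivity)]
    exact Real.log_le_log (by exact_mod_cast (by omega : 0 < N / T)) Nat.cast_div_le
  have h4 : ∑ p ∈ prCls g (N / T) N, Real.log p / p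
      ≤ (prCls g (N / T) N).card * (T * Real.log N / N) := by
    rw [← nsmul_eq_mul, ← sum_const]
    refine sum_le_sum fun p hp => ?_
    obtain ⟨⟨h5, h6⟩, h7, -⟩ := mem_prCls.mp hp
    have hp0 : (0 : ℝ) < p := by exact_mod_cast h7.pos
    have h8 : Real.log p ≤ Real.log N := Real.log_le_log hp0 (by exact_mod_cast h6)
    have h9 : (N : ℝ) ≤ p * T := by
      exact_mod_cast ((Nat.div_lt_iff_lt_mul hT0).mp h5).le
    rw [div_le_div_iff₀ hp0 (by linarith)]
    nlinarith [Real.log_natCast_nonneg p]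
  rw [div_le_iff₀ (by positivity)]
  have h5 : 1 ≤ (prCls g (N / T) N).card * (T * Real.log N / N) := by linarith
  rw [← mul_div_assoc, le_div_iff₀ (by linarith)] at h5
  linarith

theorem exp_lam_ge : ∃ c : ℝ, 0 < c ∧ ∀ y w : ℕ, 2 ≤ y → y ≤ w →
    c * Real.log w / Real.log (y + 1) ≤ Real.exp (lam (prIoc y w)) := by
  obtain ⟨C, hC⟩ := mertens_primes
  refine ⟨Real.exp (-(2 * C + 1)), Real.exp_pos _, fun y w hy hyw => ?_⟩
  have hC0 : 0 ≤ C := (abs_nonneg _).trans (hC 1 le_rfl)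
  set a : ℕ → ℝ := fun n => if n.Prime then Real.log n / n else 0 with ha
  set c : ℕ → ℝ := fun n => a n - (Real.log (n + 1 : ℕ) - Real.log n) with hc
  have hlog : ∀ n : ℕ, y + 1 ≤ n → 1 ≤ Real.log n := fun n hn => by
    have h3 : (3 : ℝ) ≤ n := by exact_mod_cast (by omega : 3 ≤ n)
    have := Real.exp_one_lt_d9
    exact (Real.le_log_iff_exp_le (by linarith)).mpr (by linarith)
  have hIoc : ∀ B, Ico (y + 1) (B + 1) = Ioc y B := fun B => by
    ext n; simp only [mem_Ioc, mem_Ico]; omega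
  have h1 := abel_bound c (fun n => 1 / Real.log n) (y + 1) (w + 1) (2 * C + 1) (by omega)
    (fun B' h1 _ => by
      obtain ⟨B, rfl⟩ : ∃ B, B' = B + 1 := ⟨B' - 1, by omega⟩
      simp only [hc]
      rw [sum_sub_distrib, Finset.sum_Ico_sub (f := fun n : ℕ => Real.log n) h1, hIoc, ha,
        ← sum_filter, sum_filter_Ioc_split _ _ y B (by omega)]
      have k1 := abs_le.mp (hC y (by omega))
      have k2 := abs_le.mp (hC B (by omega))
      have k3 : ∀ n : ℕ, 1 ≤ n → 0 ≤ Real.log (n + 1 : ℕ) - Real.log n ∧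
          Real.log (n + 1 : ℕ) - Real.log n ≤ 1 := fun n hn => by
        have hn' : (1 : ℝ) ≤ n := by exact_mod_cast hn
        push_cast
        refine ⟨sub_nonneg.mpr (Real.log_le_log (by linarith) (by linarith)), ?_⟩
        rw [← Real.log_div (by linarith) (by linarith)]
        refine (Real.log_le_sub_one_of_pos (by positivity)).trans ?_
        rw [sub_le_iff_le_add, div_le_iff₀ (by linarith)]
        linarith
      have k4 := k3 y (by omega)
      have k5 := k3 B (by omega)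
      rw [abs_le]
      constructor <;> linarith [k1.1, k1.2, k2.1, k2.2, k4.1, k4.2, k5.1, k5.2])
    (fun n hn => one_div_le_one_div_of_le (by linarith [hlog n hn])
      (Real.log_le_log (by exact_mod_cast (by omega : 0 < n)) (by push_cast; linarith)))
    (div_nonneg zero_le_one (Real.log_natCast_nonneg _))
  have h2 : (2 * C + 1) * (1 / Real.log (y + 1 : ℕ)) ≤ 2 * C + 1 :=
    mul_le_of_le_one_right (by linarith) ((div_le_one (by linarith [hlog _ le_rfl])).mpr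
      (hlog _ le_rfl))
  have h3 : ∑ n ∈ Ico (y + 1) (w + 1), c n * (1 / Real.log n) = lam (prIoc y w)
      - ∑ n ∈ Ico (y + 1) (w + 1), (Real.log (n + 1 : ℕ) - Real.log n) / Real.log n := by
    rw [lam, prIoc, sum_filter, ← hIoc, ← sum_sub_distrib]
    refine sum_congr rfl fun n hn => ?_
    have := hlog n (mem_Ico.mp hn).1
    simp only [hc, ha]
    split_ifs
    · field_simp
    · ring
  have h4 : Real.log (Real.log (w + 1 : ℕ)) - Real.log (Real.log (y + 1 : ℕ))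
      ≤ ∑ n ∈ Ico (y + 1) (w + 1), (Real.log (n + 1 : ℕ) - Real.log n) / Real.log n := by
    rw [← Finset.sum_Ico_sub (f := fun n : ℕ => Real.log (Real.log n)) (by omega : y + 1 ≤ w + 1)]
    refine sum_le_sum fun n hn => ?_
    have k1 := hlog n (mem_Ico.mp hn).1
    have k2 := hlog (n + 1) (by have := (mem_Ico.mp hn).1; omega)
    rw [← Real.log_div (by linarith) (by linarith)]
    refine (Real.log_le_sub_one_of_pos (by positivity)).trans (le_of_eq ?_)
    field_simp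
  have h5 : Real.log (Real.log (w + 1 : ℕ)) - Real.log (Real.log (y + 1 : ℕ)) - (2 * C + 1)
      ≤ lam (prIoc y w) := by linarith [(abs_le.mp h1).1]
  refine le_trans ?_ (Real.exp_le_exp.mpr h5)
  have k1 := hlog (y + 1) le_rfl
  have k2 := hlog (w + 1) (by omega)
  rw [sub_eq_add_neg _ (2 * C + 1), Real.exp_add, Real.exp_sub, Real.exp_log (by linarith),
    Real.exp_log (by linarith)]
  have k3 : Real.log w ≤ Real.log (w + 1 : ℕ) :=
    Real.log_le_log (by exact_mod_cast (by omega : 0 < w)) (by push_cast; linarith)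
  push_cast at k1 k3 ⊢
  rw [mul_div_assoc, mul_comm]
  gcongr

theorem sum_g_log_le : ∃ W₀ : ℕ, 2 ≤ W₀ ∧ ∀ W : ℕ, W₀ ≤ W → ∀ (Q : Finset ℕ) (g : ℕ → ℝ),
    (∀ p ∈ Q, p.Prime ∧ p ≤ W ∧ g p ≤ 2 / p) →
      ∑ p ∈ Q, g p * Real.log p ≤ 3 * Real.log W := by
  obtain ⟨C, hC⟩ := mertens_primes
  obtain ⟨W₀, h0, hW₀⟩ := exists_log_ge (2 * C)
  refine ⟨W₀, by omega, fun W hW Q g hQ => ?_⟩
  have h1 := (abs_le.mp (hC W (by omega))).2
  have h2 := hW₀ W hW
  have h3 : ∑ p ∈ Q, g p * Real.log p ≤ ∑ p ∈ Q, 2 * (Real.log p / p) :=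
    sum_le_sum fun p hp => by
      have := mul_le_mul_of_nonneg_right (hQ p hp).2.2 (Real.log_natCast_nonneg p)
      calc _ ≤ _ := this
        _ = _ := by ring
  have h4 : ∑ p ∈ Q, Real.log p / p ≤ ∑ p ∈ (Ioc 0 W).filter Nat.Prime, Real.log p / p :=
    sum_le_sum_of_subset_of_nonneg (fun p hp => mem_filter.mpr
      ⟨mem_Ioc.mpr ⟨(hQ p hp).1.pos, (hQ p hp).2.1⟩, (hQ p hp).1⟩)
      fun p _ _ => div_nonneg (Real.log_natCast_nonneg p) (by positivity)
  rw [← mul_sum] at h3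
  linarith

/-- Only boundedly many kernels are strongly biased on a set of large primes. -/
theorem very_bad_count : ∃ s₀ W₀ : ℕ, ∀ W Y Z : ℕ, W₀ ≤ W → 400 * W ^ 28 * Z ^ 2 ≤ Y →
    Y ≤ W ^ 50 → 1 ≤ Z → ∀ P D : Finset ℕ, P ⊆ prIoc Y (Y ^ 2) → 1 / 10 ≤ lam P →
      (∀ d ∈ D, Squarefree d ∧ d ≤ Z ∧ lam P / 2 ≤ beta P d) → D.card ≤ s₀ := by
  classical
  obtain ⟨c, hc0, hc⟩ := exp_lam_ge
  obtain ⟨W₀, hW2, hW₀⟩ := sum_g_log_le
  obtain ⟨W₁, -, hW₁⟩ := exists_log_ge 1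
  refine ⟨⌈80 * (408 / c + 1)⌉₊, max W₀ W₁, fun W Y Z hW hY1 hY2 hZ P D hP hlam hD => ?_⟩
  have hWa : W₀ ≤ W := (le_max_left _ _).trans hW
  have hL := hW₁ W ((le_max_right _ _).trans hW)
  set Q := prIoc 0 W with hQ
  set z := W ^ 7 with hz
  set g : ℕ → ℝ := fun p => 1 / p with hg
  set I : ℕ → ℕ → ℝ := fun p n => if p ∣ n then 1 else 0 with hI
  set S : ℕ → ℝ := fun n => ∑ d ∈ D, 1 * chi (-(d : ℤ)) n with hS
  have hQp : ∀ p ∈ Q, p.Prime := fun p hp => (mem_prIoc.mp hp).2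
  have hg' : ∀ p ∈ Q, 0 ≤ g p ∧ g p ≤ 1 / 2 := fun p hp =>
    ⟨by positivity, one_div_le_one_div_of_le two_pos (by exact_mod_cast (hQp p hp).two_le)⟩
  have hI01 : ∀ p n, I p n = 0 ∨ I p n = 1 := fun p n => by
    simp only [hI]; split_ifs <;> simp
  have hIp : ∀ p n, I p (n + p) = I p n := fun p n => by
    simp only [hI, Nat.dvd_add_self_right]
  have hWY : W ≤ Y := by
    calc W ≤ W ^ 28 := Nat.le_self_pow (by norm_num) W
      _ ≤ 400 * W ^ 28 * Z ^ 2 := by nlinarith [Nat.zero_le (W ^ 28), Nat.one_le_pow 2 Z hZ]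
      _ ≤ Y := hY1
  have hY0 : (0 : ℝ) < Y := by exact_mod_cast (by omega : 0 < Y)
  have hA : Y + 1 ≤ Y ^ 2 + 1 := Nat.succ_le_succ (Nat.le_self_pow two_ne_zero Y)
  have hanti : ∀ n, Y + 1 ≤ n → 1 / ((n + 1 : ℕ) : ℝ) ≤ 1 / (n : ℝ) := fun n hn => by
    have : (0 : ℝ) < n := by exact_mod_cast (by omega : 0 < n)
    push_cast
    exact one_div_le_one_div_of_le this (by linarith)
  set G := selG Q z g with hG
  have hG1 : c * Real.log W / 4 ≤ G := by
    have h1 := selG_ge Q z W g (by omega) le_rfl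
      (fun p hp => ⟨(hQp p hp).pos, (mem_prIoc.mp hp).1.2⟩) hg'
      (hW₀ W hWa Q g fun p hp => ⟨hQp p hp, (mem_prIoc.mp hp).1.2, by
        simp only [hg]; gcongr; norm_num⟩)
    have h2 := hc 2 W le_rfl (by omega)
    have h3 : lam (prIoc 2 W) ≤ ∑ p ∈ Q, g p :=
      sum_le_sum_of_subset_of_nonneg (fun p hp => mem_prIoc.mpr
        ⟨⟨by have := (mem_prIoc.mp hp).1.1; omega, (mem_prIoc.mp hp).1.2⟩, (mem_prIoc.mp hp).2⟩)
        fun p _ _ => by positivity
    have h4 := Real.exp_le_exp.mpr h3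
    have h5 : Real.log ((2 : ℕ) + 1) ≤ 2 :=
      (Real.log_le_sub_one_of_pos (by norm_num)).trans (by norm_num)
    have h6 : c * Real.log W / 2 ≤ c * Real.log W / Real.log ((2 : ℕ) + 1) :=
      div_le_div_of_nonneg_left (by positivity) (Real.log_pos (by norm_num)) h5
    linarith
  have hG2 : 1 ≤ G := by
    have h1 : (∅ : Finset ℕ) ∈ sieveSet Q z := by
      simp only [sieveSet, mem_filter, empty_mem_powerset, prod_empty, true_and]
      exact Nat.one_le_pow _ _ (by omega)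
    have := single_le_sum (f := fun e => ∏ p ∈ e, g p / (1 - g p)) (fun e he =>
      prod_nonneg fun p hp => by
        have := hg' p (mem_powerset.mp (mem_filter.mp he).1 hp)
        exact div_nonneg this.1 (by linarith [this.2])) h1
    rwa [prod_empty] at this
  have hz4 : (z : ℝ) ^ 4 * (4 * (Z : ℝ) ^ 2) / Y ≤ 1 / 100 := by
    rw [div_le_iff₀ hY0]
    have h1 : (400 : ℝ) * W ^ 28 * Z ^ 2 ≤ Y := by exact_mod_cast hY1
    simp only [hz]; push_cast
    nlinarith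
  have hZ' : (1 : ℝ) ≤ Z := by exact_mod_cast hZ
  -- diagonal term
  have hdiag : ∑ n ∈ Ico (Y + 1) (Y ^ 2 + 1), selPhi Q z g I n ^ 2 * (1 / (n : ℝ))
      ≤ G ^ 2 * (408 / c + 1) := by
    have h1 := sieve_main Q ∅ z g g I I (fun n => 1 / (n : ℝ)) hQp (by simp) (by simp) hg'
      (fun p _ => hI01 p) (fun p _ => hIp p) (fun p hp => by
        have hp0 := (hQp p hp).pos
        simp only [hI, hg]
        rw [sum_eq_single 0 (fun b hb hb0 => if_neg fun h =>
          absurd (Nat.le_of_dvd (by omega) h) (by simpa using hb)) (by simp; omega)]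
        field_simp; simp)
      (by simp) (by simp) (by simp) (Y + 1) (Y ^ 2 + 1) hA hanti (by positivity) (by positivity)
    simp only [prod_empty, one_mul, Nat.cast_one, mul_one] at h1
    have h2 := sum_inv_Ico_le (Y + 1) (Y ^ 2 + 1)
    have h3 : Real.log ((Y ^ 2 + 1 : ℕ) : ℝ) ≤ 101 * Real.log W := by
      have h4 : Y ^ 2 + 1 ≤ W ^ 101 := by
        calc Y ^ 2 + 1 ≤ (W ^ 50) ^ 2 + (W ^ 50) ^ 2 := Nat.add_le_add
              (Nat.pow_le_pow_left hY2 2) (Nat.one_le_pow _ _ (Nat.pow_pos (by omega)))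
          _ = 2 * W ^ 100 := by ring
          _ ≤ W * W ^ 100 := Nat.mul_le_mul_right _ (by omega)
          _ = W ^ 101 := by ring
      have := Real.log_le_log (by positivity)
        (by exact_mod_cast h4 : ((Y ^ 2 + 1 : ℕ) : ℝ) ≤ (W : ℝ) ^ 101)
      rwa [Real.log_pow] at this
    have h4 : (z : ℝ) ^ 4 * 2 * (1 / ((Y + 1 : ℕ) : ℝ)) ≤ 1 := by
      refine le_trans ?_ (hz4.trans (by norm_num))
      rw [mul_one_div]
      push_cast
      exact div_le_div₀ (by positivity) (mul_le_mul_of_nonneg_left (by nlinarith) (by positivity))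
        hY0 (by linarith)
    have h5 : 102 * Real.log W ≤ G * (408 / c) := by
      rw [mul_div_assoc', le_div_iff₀ hc0]; nlinarith
    have h6 : G * ∑ n ∈ Ico (Y + 1) (Y ^ 2 + 1), 1 / (n : ℝ) ≤ G * (G * (408 / c)) :=
      mul_le_mul_of_nonneg_left (by linarith) (by linarith)
    nlinarith
  -- dual bound
  have hdual := dual_bound D (fun _ => 1) (fun n => selPhi Q z g I n ^ 2 * (1 / (n : ℝ)))
    (Ico (Y + 1) (Y ^ 2 + 1)) (1 / 100) (by norm_num) (by simp) (fun n _ => by positivity) (by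
      intro d hd d' hd' hne
      have h1 : ∑ n ∈ Ico (Y + 1) (Y ^ 2 + 1), selPhi Q z g I n ^ 2 * (1 / (n : ℝ)) *
          (chi (-(d : ℤ)) n * chi (-(d' : ℤ)) n) = ∑ e ∈ sieveSet Q z, ∑ e' ∈ sieveSet Q z,
          ∑ n ∈ Ico (Y + 1) (Y ^ 2 + 1), ((∏ p ∈ e, psi g I p n) * ∏ p ∈ e', psi g I p n) *
            (chi (-(d : ℤ)) n * chi (-(d' : ℤ)) n) * (1 / (n : ℝ)) := by
        rw [sum_congr rfl (g := fun n => ∑ e ∈ sieveSet Q z, ∑ e' ∈ sieveSet Q z,
          ((∏ p ∈ e, psi g I p n) * ∏ p ∈ e', psi g I p n) *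
            (chi (-(d : ℤ)) n * chi (-(d' : ℤ)) n) * (1 / (n : ℝ))) fun n _ => by
            rw [selPhi, sq, sum_mul_sum, mul_right_comm, sum_mul, sum_mul]
            refine sum_congr rfl fun e _ => ?_
            rw [sum_mul, sum_mul]]
        rw [sum_comm]
        exact sum_congr rfl fun e _ => sum_comm
      have h2 : ∀ e ∈ sieveSet Q z, ∀ e' ∈ sieveSet Q z,
          |∑ n ∈ Ico (Y + 1) (Y ^ 2 + 1), ((∏ p ∈ e, psi g I p n) * ∏ p ∈ e', psi g I p n) *
            (chi (-(d : ℤ)) n * chi (-(d' : ℤ)) n) * (1 / (n : ℝ))|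
            ≤ (z : ℝ) ^ 2 * (4 * (Z : ℝ) ^ 2) / Y := by
        intro e he e' he'
        obtain ⟨k1, k2⟩ := mem_filter.mp he
        obtain ⟨k3, k4⟩ := mem_filter.mp he'
        rw [mem_powerset] at k1 k3
        have hsub : e ∪ e' ⊆ Q := union_subset k1 k3
        have hpos : 0 < ∏ p ∈ e ∪ e', p := prod_pos fun p hp => (hQp p (hsub hp)).pos
        have hper : ∀ p ∈ e ∪ e', ∀ n, psi g I p (n + ∏ p ∈ e ∪ e', p) = psi g I p n :=
          fun p hp n => periodic_of_dvd (psi g I p) p _ (fun n => by simp only [psi, hIp])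
            (dvd_prod_of_mem _ hp) n
        have hinv : ∀ p ∈ e ∪ e', ∀ n₀ n, n₀.Prime → ∏ p ∈ e ∪ e', p < n₀ →
            psi g I p (n₀ * n) = psi g I p n := by
          intro p hp n₀ n hn₀ hlt
          have h3 : p ≤ ∏ p ∈ e ∪ e', p := Nat.le_of_dvd hpos (dvd_prod_of_mem _ hp)
          have h4 : Nat.Coprime p n₀ := (Nat.coprime_primes (hQp p (hsub hp)) hn₀).mpr (by omega)
          simp only [psi, hI, h4.dvd_mul_left]
        have habs : ∀ (e : Finset ℕ), e ⊆ Q → ∀ n, |∏ p ∈ e, psi g I p n| ≤ 1 := fun e he n => by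
          rw [abs_prod]
          exact prod_le_one (fun _ _ => abs_nonneg _) fun p hp =>
            abs_psi_le g I p n (hg' p (he hp)) (hI01 p n)
        refine (offdiag_bound d d' (hD d hd).1 (hD d' hd').1 hne
          (fun n => (∏ p ∈ e, psi g I p n) * ∏ p ∈ e', psi g I p n) (fun n => 1 / (n : ℝ)) _ hpos
          (fun n => by
            rw [prod_congr rfl fun p hp => hper p (mem_union_left _ hp) n,
              prod_congr rfl fun p hp => hper p (mem_union_right _ hp) n])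
          (fun n => by rw [abs_mul]; exact mul_le_one₀ (habs e k1 n) (abs_nonneg _) (habs e' k3 n))
          (fun n₀ n h1 h2 => by
            rw [prod_congr rfl fun p hp => hinv p (mem_union_left _ hp) n₀ n h1 h2,
              prod_congr rfl fun p hp => hinv p (mem_union_right _ hp) n₀ n h1 h2])
          (Y + 1) (Y ^ 2 + 1) hA hanti (by positivity)).trans ?_
        have k5 : ((∏ p ∈ e ∪ e', p : ℕ) : ℝ) ≤ (z : ℝ) ^ 2 := by
          exact_mod_cast prod_union_le e e' z (fun p hp => (hQp p (k3 hp)).pos) k2 k4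
        have k6 : (d : ℝ) ≤ Z := by exact_mod_cast (hD d hd).2.1
        have k7 : (d' : ℝ) ≤ Z := by exact_mod_cast (hD d' hd').2.1
        rw [mul_one_div, Nat.cast_mul]
        refine div_le_div₀ (by positivity) ?_ hY0 (by push_cast; linarith)
        push_cast
        rw [sq (Z : ℝ)]
        push_cast at k5
        gcongr
      rw [h1]
      refine (abs_sum_le_sum_abs _ _).trans ((sum_le_sum fun e he =>
        (abs_sum_le_sum_abs _ _).trans (sum_le_sum fun e' he' => h2 e he e' he')).trans ?_)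
      simp only [sum_const, nsmul_eq_mul]
      have h3 : ((sieveSet Q z).card : ℝ) ≤ z := by exact_mod_cast card_sieveSet_le Q hQp z
      refine le_trans ?_ hz4
      calc _ ≤ (z : ℝ) * (z * ((z : ℝ) ^ 2 * (4 * (Z : ℝ) ^ 2) / Y)) := by gcongr
        _ = _ := by ring)
  have hPp : ∀ p ∈ P, (0 : ℝ) < p := fun p hp => by
    exact_mod_cast (mem_prIoc.mp (hP hp)).2.pos
  have hlow : G ^ 2 * ∑ p ∈ P, S p ^ 2 / p ≤ ∑ n ∈ Ico (Y + 1) (Y ^ 2 + 1),
      selPhi Q z g I n ^ 2 * (1 / (n : ℝ)) * (∑ d ∈ D, 1 * chi (-(d : ℤ)) n) ^ 2 := by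
    rw [mul_sum]
    refine le_trans (le_of_eq (sum_congr rfl fun p hp => ?_)) (sum_le_sum_of_subset_of_nonneg
      (fun p hp => by
        have := (mem_prIoc.mp (hP hp)).1
        rw [mem_Ico]; omega) fun n _ _ => by positivity)
    rw [selPhi_sifted Q z g I p fun q hq => if_neg fun h => by
      have h1 := (Nat.prime_dvd_prime_iff_eq (hQp q hq) (mem_prIoc.mp (hP hp)).2).mp h
      have h2 := (mem_prIoc.mp hq).1.2
      have h3 := (mem_prIoc.mp (hP hp)).1.1
      omega]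
    simp only [hS, hG]; ring
  have hcs : (∑ p ∈ P, S p / p) ^ 2 ≤ lam P * ∑ p ∈ P, S p ^ 2 / p :=
    sum_sq_le_sum_mul_sum_of_sq_le_mul P (fun p _ => by positivity) (fun p _ => by positivity)
      fun p hp => le_of_eq (by have := hPp p hp; field_simp)
  have hsum : (D.card : ℝ) * (lam P / 2) ≤ ∑ p ∈ P, S p / p := by
    simp only [hS, sum_div, one_mul]
    rw [sum_comm, ← nsmul_eq_mul, ← sum_const]
    exact sum_le_sum fun d hd => (hD d hd).2.2
  have hR0 : (0 : ℝ) ≤ D.card := by positivity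
  have h1 : (D.card : ℝ) ^ 2 / 40 ≤ ∑ p ∈ P, S p ^ 2 / p := by
    have h2 := pow_le_pow_left₀ (by positivity) hsum 2
    have h3 : lam P * ((D.card : ℝ) ^ 2 * (lam P / 4)) ≤ lam P * ∑ p ∈ P, S p ^ 2 / p := by
      nlinarith
    have h4 := le_of_mul_le_mul_left h3 (by linarith)
    nlinarith [sq_nonneg (D.card : ℝ)]
  have h2 : G ^ 2 * ((D.card : ℝ) ^ 2 / 40)
      ≤ G ^ 2 * (D.card * (408 / c + 1) + (D.card : ℝ) ^ 2 * (1 / 100)) := by
    have h3 := mul_le_mul_of_nonneg_left h1 (sq_nonneg G)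
    have h4 := mul_le_mul_of_nonneg_left hdiag hR0
    have h5 : (D.card : ℝ) ^ 2 * (1 / 100) ≤ G ^ 2 * ((D.card : ℝ) ^ 2 * (1 / 100)) :=
      le_mul_of_one_le_left (by positivity) (one_le_pow₀ hG2)
    nlinarith
  have h3 := le_of_mul_le_mul_left h2 (by positivity)
  have h4 : (D.card : ℝ) ≤ 80 * (408 / c + 1) := by
    rcases hR0.eq_or_lt with h | h
    · rw [← h]; positivity
    · refine le_of_mul_le_mul_left ?_ h
      nlinarith
  exact_mod_cast h4.trans (Nat.le_ceil _)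

end Pool.Agent.Lib.MP_a3366f_nt
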