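import Mathlib
import Pool.Agent.Lib.MP_a3366f_nt.An7

open Finset

namespace Pool.Agent.Lib.MP_a3366f_nt.Ker

namespace KPrimes

open ArithmeticFunction Filter Topology

variable {q : ℕ} [NeZero q]

theorem sum_range_char {χ : DirichletCharacter ℂ q} (hχ : χ ≠ 1) :
    ∑ n ∈ range q, χ (n : ZMod q) = 0 := by
  rw [← MulChar.sum_eq_zero_of_ne_one hχ]
  refine Finset.sum_bij (fun n _ => (n : ZMod q)) (fun _ _ => mem_univ _) ?_ ?_ fun _ _ => rfl
  · intro m hm n hn h
    exact Nat.ModEq.eq_of_lt_of_lt ((ZMod.natCast_eq_natCast_iff _ _ _).1 h) (mem_range.1 hm)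
      (mem_range.1 hn)
  · intro x _
    exact ⟨x.val, mem_range.2 (ZMod.val_lt x), ZMod.natCast_zmod_val x⟩

/-- Abel's inequality for a nontrivial character. -/
theorem char_weighted {χ : DirichletCharacter ℂ q} (hχ : χ ≠ 1) (w : ℕ → ℝ) (A B : ℕ)
    (hAB : A ≤ B) (hw : ∀ n, A ≤ n → w (n + 1) ≤ w n) (hw0 : 0 ≤ w B) :
    ‖∑ n ∈ Ico A B, χ (n : ZMod q) * (w n : ℂ)‖ ≤ 2 * q * w A := by
  have hq : 0 < q := Nat.pos_of_neZero q
  have h0 := sum_range_char hχ
  have h1 := periodic_weighted_bound (fun n => (χ (n : ZMod q)).re) w q 1 hq (fun n => by simp)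
    (fun n => (Complex.abs_re_le_norm _).trans (χ.norm_le_one _))
    (by rw [← Complex.re_sum, h0]; rfl) A B hAB hw hw0
  have h2 := periodic_weighted_bound (fun n => (χ (n : ZMod q)).im) w q 1 hq (fun n => by simp)
    (fun n => (Complex.abs_im_le_norm _).trans (χ.norm_le_one _))
    (by rw [← Complex.im_sum, h0]; rfl) A B hAB hw hw0
  refine (Complex.norm_le_abs_re_add_abs_im _).trans ?_
  rw [Complex.re_sum, Complex.im_sum]
  simp only [Complex.mul_re, Complex.mul_im, Complex.ofReal_re, Complex.ofReal_im, mul_zero,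
    sub_zero, zero_add]
  linarith

theorem LFunction_sub_le {χ : DirichletCharacter ℂ q} (hχ : χ ≠ 1) (N : ℕ) (hN : 1 ≤ N) (s : ℝ)
    (hs : 1 < s) :
    ‖χ.LFunction s - ∑ n ∈ Ico 1 N, χ (n : ZMod q) * (((n : ℝ) ^ (-s) : ℝ) : ℂ)‖ ≤ 2 * q / N := by
  have hs' : 1 < (s : ℂ).re := by simpa using hs
  have hsum := (χ.LSeriesSummable_of_one_lt_re hs').hasSum.tendsto_sum_nat
  rw [χ.LFunction_eq_LSeries hs']
  have hN0 : (1 : ℝ) ≤ N := by exact_mod_cast hN
  refine le_of_tendsto ((hsum.sub_const _).norm) ?_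
  filter_upwards [eventually_ge_atTop N] with B hB
  have h1 : ∑ n ∈ range B, LSeries.term (fun n : ℕ => χ (n : ZMod q)) s n =
      ∑ n ∈ Ico 1 B, χ (n : ZMod q) * (((n : ℝ) ^ (-s) : ℝ) : ℂ) := by
    rw [range_eq_Ico, sum_eq_sum_Ico_succ_bot (by omega), LSeries.term_zero, zero_add]
    refine sum_congr rfl fun n hn => ?_
    have hn0 : n ≠ 0 := by have := (mem_Ico.1 hn).1; omega
    rw [LSeries.term_of_ne_zero hn0, Complex.ofReal_cpow (by positivity), div_eq_mul_inv,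
      ← Complex.cpow_neg]
    simp
  rw [h1, ← sum_Ico_consecutive _ hN hB, add_sub_cancel_left]
  refine (char_weighted hχ (fun n => (n : ℝ) ^ (-s)) N B hB (fun n hn => ?_)
    (by positivity)).trans ?_
  · have : (0 : ℝ) < n := by exact_mod_cast (by omega : 0 < n)
    exact Real.rpow_le_rpow_of_nonpos this (by push_cast; linarith) (by linarith)
  · rw [div_eq_mul_inv, ← Real.rpow_neg_one]
    exact mul_le_mul_of_nonneg_left (Real.rpow_le_rpow_of_exponent_le hN0 (by linarith))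
      (by positivity)

theorem LFunction_one_sub_le {χ : DirichletCharacter ℂ q} (hχ : χ ≠ 1) (N : ℕ) (hN : 1 ≤ N) :
    ‖χ.LFunction 1 - ∑ n ∈ Ico 1 N, χ (n : ZMod q) / n‖ ≤ 2 * q / N := by
  have hc : Continuous fun s : ℝ =>
      ‖χ.LFunction s - ∑ n ∈ Ico 1 N, χ (n : ZMod q) * (((n : ℝ) ^ (-s) : ℝ) : ℂ)‖ := by
    refine Continuous.norm (Continuous.sub ((DirichletCharacter.differentiable_LFunction
      hχ).continuous.comp Complex.continuous_ofReal) (continuous_finsetSum _ fun n hn => ?_))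
    have hn0 : (n : ℝ) ≠ 0 := by
      have := (mem_Ico.1 hn).1
      exact_mod_cast (by omega : n ≠ 0)
    exact continuous_const.mul (Complex.continuous_ofReal.comp
      (continuous_const.rpow continuous_neg fun _ => Or.inl hn0))
  have h := le_of_tendsto
    ((hc.tendsto 1).mono_left (nhdsWithin_le_nhds (s := Set.Ioi (1 : ℝ)) (a := (1 : ℝ))))
    (b := (2 * q / N : ℝ))
    (eventually_nhdsWithin_of_forall fun s hs => LFunction_sub_le hχ N hN s hs)
  simpa only [Real.rpow_neg_one, Complex.ofReal_inv, Complex.ofReal_natCast, Complex.ofReal_one,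
    div_eq_mul_inv] using h

/-- Mertens' theorem for a nontrivial character. -/
theorem mertens_nontriv {χ : DirichletCharacter ℂ q} (hχ : χ ≠ 1) : ∃ C : ℝ, ∀ N : ℕ, 2 ≤ N →
    ‖∑ a ∈ Ioc 0 N, χ (a : ZMod q) * ((vonMangoldt a / a : ℝ) : ℂ)‖ ≤ C := by
  have hL : 0 < ‖χ.LFunction 1‖ :=
    norm_pos_iff.2 (DirichletCharacter.LFunction_apply_one_ne_zero hχ)
  refine ⟨(1 + 14 * q) / ‖χ.LFunction 1‖, fun N hN => ?_⟩
  have hN0 : (0 : ℝ) < N := by exact_mod_cast (by omega : 0 < N)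
  let F : ArithmeticFunction ℂ := ⟨fun n => χ (n : ZMod q) / n, by simp⟩
  let G : ArithmeticFunction ℂ :=
    ⟨fun n => χ (n : ZMod q) * ((vonMangoldt n / n : ℝ) : ℂ), by simp⟩
  have hF : ∀ n, F n = χ (n : ZMod q) / n := fun _ => rfl
  have hG : ∀ n, G n = χ (n : ZMod q) * ((vonMangoldt n / n : ℝ) : ℂ) := fun _ => rfl
  have h1 := sum_Ioc_mul_eq_sum_sum G F N
  have h3 : ∀ n, (G * F) n = χ (n : ZMod q) * ((Real.log n / n : ℝ) : ℂ) := by
    intro n
    rw [mul_apply, ← vonMangoldt_sum, ← Nat.sum_divisorsAntidiagonal fun a _ => vonMangoldt a,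
      sum_div, Complex.ofReal_sum, mul_sum]
    refine sum_congr rfl fun x hx => ?_
    rw [hF, hG, ← (Nat.mem_divisorsAntidiagonal.mp hx).1]
    push_cast
    rw [map_mul]
    ring
  have hIoc : ∀ M : ℕ, Ioc 0 M = Ico 1 (M + 1) := fun M => by
    ext n; simp only [mem_Ioc, mem_Ico]; omega
  set L := χ.LFunction 1 with hLdef
  have h4 : ‖∑ n ∈ Ioc 0 N, (G * F) n‖ ≤ 1 + 2 * q := by
    simp only [h3]
    rw [hIoc, ← sum_Ico_consecutive _ (by norm_num : 1 ≤ 3) (by omega : 3 ≤ N + 1)]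
    have h5 : ‖∑ n ∈ (Ico 1 3 : Finset ℕ), χ (n : ZMod q) * ((Real.log n / n : ℝ) : ℂ)‖ ≤ 1 := by
      rw [show Ico 1 3 = {1, 2} by decide, sum_pair (by norm_num)]
      simp only [Nat.cast_one, Real.log_one, zero_div, Complex.ofReal_zero, mul_zero, zero_add,
        norm_mul, Complex.norm_real, Real.norm_eq_abs]
      refine mul_le_one₀ (χ.norm_le_one _) (abs_nonneg _) ?_
      have := Real.log_two_lt_d9
      have := Real.log_two_gt_d9
      rw [abs_le]
      push_cast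
      constructor <;> linarith
    have h6 := char_weighted hχ (fun n => Real.log n / n) 3 (N + 1) (by omega) log_div_antitone
      (div_nonneg (Real.log_natCast_nonneg _) (by positivity))
    have h7 : Real.log ((3 : ℕ) : ℝ) / ((3 : ℕ) : ℝ) ≤ 1 := by
      rw [div_le_one (by norm_num)]
      exact (Real.log_le_sub_one_of_pos (by norm_num)).trans (by linarith)
    have h8 : 2 * (q : ℝ) * (Real.log ((3 : ℕ) : ℝ) / ((3 : ℕ) : ℝ)) ≤ 2 * q :=
      mul_le_of_le_one_right (by positivity) h7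
    exact (norm_add_le _ _).trans (add_le_add h5 (h6.trans h8))
  have h5 : ‖L * ∑ a ∈ Ioc 0 N, G a - ∑ n ∈ Ioc 0 N, (G * F) n‖ ≤ 12 * q := by
    rw [h1, mul_sum, ← sum_sub_distrib]
    refine (norm_sum_le _ _).trans ?_
    have h6 : ∀ a ∈ Ioc 0 N, ‖L * G a - G a * ∑ m ∈ Ioc 0 (N / a), F m‖ ≤
        vonMangoldt a * (2 * q / N) := by
      intro a ha
      have ha1 := (mem_Ioc.mp ha).1
      have ha0 : (0 : ℝ) < a := by exact_mod_cast ha1
      have h8 : L * G a - G a * ∑ m ∈ Ioc 0 (N / a), F m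
          = G a * (L - ∑ n ∈ Ico 1 (N / a + 1), χ (n : ZMod q) / n) := by
        rw [hIoc]
        simp only [hF]; ring
      have h9 : ‖G a‖ ≤ vonMangoldt a / a := by
        rw [hG, norm_mul, Complex.norm_real, Real.norm_eq_abs,
          abs_of_nonneg (div_nonneg vonMangoldt_nonneg ha0.le)]
        exact mul_le_of_le_one_left (div_nonneg vonMangoldt_nonneg ha0.le) (χ.norm_le_one _)
      have h10 : (2 * q : ℝ) / ((N / a + 1 : ℕ) : ℝ) ≤ 2 * q * a / N := by
        rw [div_le_div_iff₀ (by positivity) hN0, mul_assoc (2 * q : ℝ)]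
        refine mul_le_mul_of_nonneg_left ?_ (by positivity)
        have := Nat.lt_div_mul_add (a := N) ha1
        have h8 : (N : ℝ) < ((N / a : ℕ) : ℝ) * a + a := by exact_mod_cast this
        push_cast
        nlinarith
      rw [h8, norm_mul]
      calc _ ≤ vonMangoldt a / a * (2 * q * a / N) :=
            mul_le_mul h9 ((LFunction_one_sub_le hχ _ (Nat.le_add_left 1 (N / a))).trans h10)
              (norm_nonneg _) (div_nonneg vonMangoldt_nonneg ha0.le)
        _ = _ := by field_simp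
    refine (sum_le_sum h6).trans ?_
    rw [← sum_mul]
    calc _ ≤ 6 * (N : ℝ) * (2 * q / N) := mul_le_mul_of_nonneg_right (psi_nat_le N) (by positivity)
      _ = 12 * q := by field_simp; ring
  have h6 : ‖L * ∑ a ∈ Ioc 0 N, G a‖ ≤ 1 + 14 * q := by
    have := norm_sub_norm_le (L * ∑ a ∈ Ioc 0 N, G a) (∑ n ∈ Ioc 0 N, (G * F) n)
    linarith
  rw [norm_mul] at h6
  rw [le_div_iff₀ hL, mul_comm]
  exact h6

/-- Orthogonality: the class sum against the sum over all reduced classes. -/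
theorem class_sub (a : ZMod q) (ha : IsUnit a) : ∃ C : ℝ, ∀ N : ℕ, 2 ≤ N →
    |q.totient * ∑ n ∈ Ioc 0 N, (if (n : ZMod q) = a then (1 : ℝ) else 0) * (vonMangoldt n / n) -
      ∑ n ∈ Ioc 0 N, (if n.Coprime q then (1 : ℝ) else 0) * (vonMangoldt n / n)| ≤ C := by
  classical
  have hex : ∀ χ : DirichletCharacter ℂ q, ∃ C : ℝ, χ ≠ 1 → ∀ N : ℕ, 2 ≤ N →
      ‖∑ a ∈ Ioc 0 N, χ (a : ZMod q) * ((vonMangoldt a / a : ℝ) : ℂ)‖ ≤ C := by
    intro χ
    by_cases hχ : χ = 1
    · exact ⟨0, fun h => absurd hχ h⟩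
    · obtain ⟨C, hC⟩ := mertens_nontriv hχ
      exact ⟨C, fun _ => hC⟩
  choose C hC using hex
  refine ⟨∑ χ ∈ univ.erase 1, C χ, fun N hN => ?_⟩
  have hkey : ∀ n : ℕ, ((q.totient * (if (n : ZMod q) = a then (1 : ℝ) else 0) -
      (if n.Coprime q then (1 : ℝ) else 0) : ℝ) : ℂ) =
      ∑ χ ∈ (univ : Finset (DirichletCharacter ℂ q)).erase 1, χ a⁻¹ * χ (n : ZMod q) := by
    intro n
    have h1 := DirichletCharacter.sum_char_inv_mul_char_eq ℂ ha (n : ZMod q)
    rw [← add_sum_erase _ _ (mem_univ (1 : DirichletCharacter ℂ q))] at h1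
    have h2 : (1 : DirichletCharacter ℂ q) a⁻¹ = 1 :=
      MulChar.one_apply (IsUnit.of_mul_eq_one a (ZMod.inv_mul_of_unit a ha))
    have h3 : (1 : DirichletCharacter ℂ q) (n : ZMod q) = if n.Coprime q then 1 else 0 := by
      split_ifs with h
      · exact MulChar.one_apply ((ZMod.isUnit_iff_coprime n q).2 h)
      · exact MulChar.map_nonunit _ fun h' => h ((ZMod.isUnit_iff_coprime n q).1 h')
    rw [h2, h3, one_mul] at h1
    rw [eq_sub_of_add_eq' h1]
    by_cases h4 : (n : ZMod q) = a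
    · rw [if_pos h4, if_pos h4.symm]
      split_ifs <;> simp
    · rw [if_neg h4, if_neg (fun h : a = n => h4 h.symm)]
      split_ifs <;> simp
  rw [mul_sum, ← sum_sub_distrib, ← Real.norm_eq_abs, ← Complex.norm_real, Complex.ofReal_sum]
  have h5 : ∀ n ∈ Ioc 0 N, ((q.totient * ((if (n : ZMod q) = a then (1 : ℝ) else 0) *
      (vonMangoldt n / n)) - (if n.Coprime q then (1 : ℝ) else 0) * (vonMangoldt n / n) : ℝ) : ℂ) =
      ∑ χ ∈ (univ : Finset (DirichletCharacter ℂ q)).erase 1,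
        χ a⁻¹ * (χ (n : ZMod q) * ((vonMangoldt n / n : ℝ) : ℂ)) := by
    intro n _
    simp only [← mul_assoc, ← sum_mul]
    rw [← hkey, ← Complex.ofReal_mul, sub_mul]
  rw [sum_congr rfl h5, sum_comm]
  refine (norm_sum_le _ _).trans (sum_le_sum fun χ hχ => ?_)
  rw [← mul_sum, norm_mul]
  exact (mul_le_of_le_one_left (norm_nonneg _) (χ.norm_le_one _)).trans
    (hC χ (ne_of_mem_erase hχ) N hN)

/-- Mertens' first theorem in a reduced residue class. -/
theorem mertens_reduced (a : ℕ) (h : Nat.Coprime a q) : ∃ C : ℝ, ∀ N : ℕ, 2 ≤ N →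
    |q.totient * ∑ p ∈ (Ioc 0 N).filter (fun p => p.Prime ∧ p ≡ a [MOD q]), Real.log p / p -
      Real.log N| ≤ C := by
  obtain ⟨C1, hC1⟩ := class_sub (a : ZMod q) ((ZMod.isUnit_iff_coprime a q).2 h)
  obtain ⟨C2, hC2⟩ := exists_nonprime_bound
  obtain ⟨C3, hC3⟩ := mertens_primes
  refine ⟨C1 + q.totient * C2 + C2 + C3 + q, fun N hN => ?_⟩
  have h1 := abs_le.1 (hC1 N hN)
  have h2 := abs_le.1 (hC2 (fun n => if (n : ZMod q) = a then (1 : ℝ) else 0)
    (fun n => by split_ifs <;> simp) N)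
  have h3 := abs_le.1 (hC2 (fun n => if n.Coprime q then (1 : ℝ) else 0)
    (fun n => by split_ifs <;> simp) N)
  have h4 := abs_le.1 (hC3 N (by omega))
  have e1 : ∑ p ∈ (Ioc 0 N).filter (fun p => p.Prime ∧ p ≡ a [MOD q]), Real.log p / p =
      ∑ p ∈ (Ioc 0 N).filter Nat.Prime,
        (if (p : ZMod q) = a then (1 : ℝ) else 0) * (Real.log p / p) := by
    rw [← filter_filter, sum_filter (s := (Ioc 0 N).filter Nat.Prime)]
    refine sum_congr rfl fun p _ => ?_
    simp only [ZMod.natCast_eq_natCast_iff, ite_mul, one_mul, zero_mul]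
  have e2 : ∑ p ∈ (Ioc 0 N).filter Nat.Prime, Real.log p / p -
      ∑ p ∈ (Ioc 0 N).filter Nat.Prime, (if p.Coprime q then (1 : ℝ) else 0) * (Real.log p / p) =
      ∑ p ∈ ((Ioc 0 N).filter Nat.Prime).filter fun p => ¬ p.Coprime q, Real.log p / p := by
    rw [← sum_sub_distrib, sum_filter (s := (Ioc 0 N).filter Nat.Prime)]
    refine sum_congr rfl fun p _ => ?_
    by_cases hp : p.Coprime q
    · rw [if_pos hp, if_neg (not_not.2 hp), one_mul, sub_self]
    · rw [if_neg hp, if_pos hp, zero_mul, sub_zero]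
  have e3 : 0 ≤ ∑ p ∈ ((Ioc 0 N).filter Nat.Prime).filter fun p => ¬ p.Coprime q,
      Real.log p / p := sum_nonneg fun p _ => div_nonneg (Real.log_natCast_nonneg p) (by positivity)
  have e4 : ∑ p ∈ ((Ioc 0 N).filter Nat.Prime).filter fun p => ¬ p.Coprime q,
      Real.log p / p ≤ q := by
    have hsub : (((Ioc 0 N).filter Nat.Prime).filter fun p => ¬ p.Coprime q) ⊆ Ioc 0 q := by
      intro p hp
      obtain ⟨hp1, hp2⟩ := mem_filter.1 hp
      have hp3 := (mem_filter.1 hp1).2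
      exact mem_Ioc.2 ⟨hp3.pos, Nat.le_of_dvd (Nat.pos_of_neZero q)
        (hp3.dvd_iff_not_coprime.2 hp2)⟩
    calc _ ≤ ∑ p ∈ Ioc 0 q, Real.log p / p := sum_le_sum_of_subset_of_nonneg hsub
          fun p _ _ => div_nonneg (Real.log_natCast_nonneg p) (by positivity)
      _ ≤ ∑ _p ∈ Ioc 0 q, (1 : ℝ) := sum_le_sum fun p hp => by
          have hp0 : (0 : ℝ) < p := by exact_mod_cast (mem_Ioc.1 hp).1
          rw [div_le_one hp0]
          linarith [Real.log_le_sub_one_of_pos hp0]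
      _ = q := by simp
  have hφ : (0 : ℝ) ≤ q.totient := by positivity
  have h5 := mul_le_mul_of_nonneg_left h2.1 hφ
  have h6 := mul_le_mul_of_nonneg_left h2.2 hφ
  have hq : (0 : ℝ) ≤ q := by positivity
  rw [e1, abs_le]
  constructor <;> linarith [h1.1, h1.2, h3.1, h3.2, h4.1, h4.2]

end KPrimes

theorem primes_class (q a : ℕ) (hq : 0 < q) (h : Nat.Coprime a q) :
    ∃ T N₀ : ℕ, 1 ≤ T ∧ ∀ N : ℕ, N₀ ≤ N → (N : ℝ) / (T * Real.log N) ≤
      ((Ioc (N / T) N).filter fun p => p.Prime ∧ p ≡ a [MOD q]).card := by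
  have : NeZero q := ⟨hq.ne'⟩
  obtain ⟨C, hC⟩ := KPrimes.mertens_reduced a h
  obtain ⟨T, h0, hT⟩ := exists_log_ge (2 * C + q.totient)
  refine ⟨T, 24 * T, by omega, fun N hN => ?_⟩
  have hT0 : 0 < T := by omega
  have hM : 24 ≤ N / T := (Nat.le_div_iff_mul_le hT0).mpr hN
  have hφ : (0 : ℝ) < q.totient := by exact_mod_cast Nat.totient_pos.2 hq
  have h2 := hT T le_rfl
  have hN1 : (1 : ℝ) < N := by exact_mod_cast (by omega : 1 < N)
  have hT' : (0 : ℝ) < T := by exact_mod_cast hT0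
  have hL : 0 < Real.log N := Real.log_pos hN1
  have h3 : Real.log ((N / T : ℕ) : ℝ) ≤ Real.log N - Real.log T := by
    rw [← Real.log_div (by positivity) (by positivity)]
    exact Real.log_le_log (by exact_mod_cast (by omega : 0 < N / T)) Nat.cast_div_le
  have h1 : 1 ≤ ∑ p ∈ (Ioc (N / T) N).filter fun p => p.Prime ∧ p ≡ a [MOD q],
      Real.log p / p := by
    rw [sum_filter_Ioc_split _ _ _ _ (Nat.div_le_self _ _)]
    have k1 := abs_le.1 (hC (N / T) (by omega))
    have k2 := abs_le.1 (hC N (by omega))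
    refine le_of_mul_le_mul_left ?_ hφ
    linarith [k1.1, k1.2, k2.1, k2.2]
  generalize hP : ((Ioc (N / T) N).filter fun p => p.Prime ∧ p ≡ a [MOD q]) = P at h1 ⊢
  have h4 : ∑ p ∈ P, Real.log p / p ≤ P.card * (T * Real.log N / N) := by
    rw [← nsmul_eq_mul, ← sum_const]
    refine sum_le_sum fun p hp => ?_
    rw [← hP, mem_filter, mem_Ioc] at hp
    obtain ⟨⟨h5, h6⟩, h7, -⟩ := hp
    have hp0 : (0 : ℝ) < p := by exact_mod_cast h7.pos
    have h8 : Real.log p ≤ Real.log N := Real.log_le_log hp0 (by exact_mod_cast h6)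
    have h9 : (N : ℝ) ≤ p * T := by
      exact_mod_cast ((Nat.div_lt_iff_lt_mul hT0).mp h5).le
    rw [div_le_div_iff₀ hp0 (by linarith)]
    nlinarith [Real.log_natCast_nonneg p]
  rw [div_le_iff₀ (by positivity)]
  have h5 : 1 ≤ P.card * (T * Real.log N / N) := by linarith
  rw [← mul_div_assoc, le_div_iff₀ (by linarith)] at h5
  linarith

end Pool.Agent.Lib.MP_a3366f_nt.Ker
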