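import Mathlib
import Pool.Agent.Lib.MP_a3366f_nt.An5

/-!
Small primes in the classes three and five modulo eight that are inert in a given imaginary
quadratic field.
-/

open Finset NumberTheorySymbols

namespace Pool.Agent.Lib.MP_a3366f_nt

theorem even_val_of_inert (p : ℕ) (hp : p.Prime) (a : ℤ) (h : J(a | p) = -1) :
    ∀ n : ℕ, n ≠ 0 → ∀ x y : ℤ, x ^ 2 - a * y ^ 2 = n → Even (n.factorization p) := by
  have := Fact.mk hp
  intro n
  induction n using Nat.strong_induction_on with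
  | _ n ih =>
    intro hn x y hxy
    by_cases hd : p ∣ n
    · obtain ⟨⟨x', rfl⟩, ⟨y', rfl⟩⟩ := jacobiSym.prime_dvd_of_eq_neg_one h (x := x) (y := y)
        (by rw [hxy]; exact_mod_cast hd)
      have h1 : ((p ^ 2 : ℕ) : ℤ) * (x' ^ 2 - a * y' ^ 2) = n := by
        rw [← hxy]; push_cast; ring
      obtain ⟨n', rfl⟩ : p ^ 2 ∣ n := Int.natCast_dvd_natCast.mp ⟨_, h1.symm⟩
      have hp2 : p ^ 2 ≠ 0 := pow_ne_zero _ hp.ne_zero
      have hn' : n' ≠ 0 := right_ne_zero_of_mul hn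
      have h2 : x' ^ 2 - a * y' ^ 2 = n' := by
        push_cast at h1
        exact mul_left_cancel₀ (by exact_mod_cast hp2) h1
      have h3 : n' < p ^ 2 * n' := lt_mul_of_one_lt_left (Nat.pos_of_ne_zero hn')
        (Nat.one_lt_pow two_ne_zero hp.one_lt)
      rw [Nat.factorization_mul hp2 hn', Finsupp.add_apply, hp.factorization_pow,
        Finsupp.single_eq_same]
      exact even_two.add (ih n' h3 hn' x' y' h2)
    · rw [Nat.factorization_eq_zero_of_not_dvd hd]; exact Even.zero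

theorem exists_odd_val (n : ℕ) (hn : n % 8 = 3 ∨ n % 8 = 5) :
    ∃ l : ℕ, l.Prime ∧ (l % 8 = 3 ∨ l % 8 = 5) ∧ Odd (n.factorization l) := by
  by_contra hcon
  push Not at hcon
  have hn0 : n ≠ 0 := by omega
  have h1 : chi 2 n = -1 := by
    rw [chi_two, if_neg (by omega), if_neg (by omega)]
  have h2 : chi 2 n = 1 := by
    rw [← Nat.prod_factorization_pow_eq_self hn0, Finsupp.prod, chi_prod_right]
    refine prod_eq_one fun l hl => ?_
    have hl' : l ∈ n.primeFactors := by simpa using hl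
    have hlp := Nat.prime_of_mem_primeFactors hl'
    have hlo : l % 2 = 1 := by
      obtain ⟨c, hc⟩ := Nat.dvd_of_mem_primeFactors hl'
      rcases hlp.eq_two_or_odd with rfl | h
      · omega
      · exact h
    rw [show l ^ n.factorization l = ∏ _i ∈ range (n.factorization l), l by simp, chi_prod_right,
      prod_const, card_range, chi_two, if_neg (by omega)]
    split_ifs with h
    · simp
    · exact Even.neg_one_pow (Nat.not_odd_iff_even.mp (hcon l hlp (by omega)))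
  rw [h1] at h2
  norm_num at h2

/-- Evaluation of a quadratic algebra at a square root. -/
def qaLift {R A : Type*} [CommRing R] [CommRing A] (f : R →+* A) (a : R) (u : A)
    (hu : u * u = f a) : QuadraticAlgebra R a 0 →+* A where
  toFun z := f z.re + f z.im * u
  map_one' := by simp [QuadraticAlgebra.re_one, QuadraticAlgebra.im_one]
  map_mul' z w := by
    simp only [QuadraticAlgebra.re_mul, QuadraticAlgebra.im_mul, map_add, map_mul, map_zero]
    linear_combination (-(f z.im * f w.im)) * hu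
  map_zero' := by simp
  map_add' z w := by simp only [QuadraticAlgebra.re_add, QuadraticAlgebra.im_add, map_add]; ring

/-- The biquadratic order. -/
abbrev Ord (r D : ℤ) : Type :=
  QuadraticAlgebra (QuadraticAlgebra ℤ (-r) 0) ⟨-D, 0⟩ 0

/-- The norm of the biquadratic order. -/
def nrm {r D : ℤ} : Ord r D →* ℤ := QuadraticAlgebra.norm.comp QuadraticAlgebra.norm

theorem nrm_eq₁ {r D : ℤ} (v : Ord r D) : nrm v =
    (v.re.re ^ 2 - r * v.re.im ^ 2 + D * (v.im.re ^ 2 - r * v.im.im ^ 2)) ^ 2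
      + r * (2 * (v.re.re * v.re.im + D * (v.im.re * v.im.im))) ^ 2 := by
  simp [nrm, QuadraticAlgebra.norm_def]
  ring

theorem nrm_eq₂ {r D : ℤ} (v : Ord r D) : nrm v =
    (v.re.re ^ 2 + r * v.re.im ^ 2 - D * (v.im.re ^ 2 + r * v.im.im ^ 2)) ^ 2
      + D * (2 * (v.re.re * v.im.re + r * (v.re.im * v.im.im))) ^ 2 := by
  rw [nrm_eq₁]; ring

theorem nrm_intCast {r D : ℤ} (n : ℤ) : nrm (n : Ord r D) = n ^ 4 := by
  rw [nrm_eq₁]; simp; ring

theorem exists_conj {r D : ℤ} (v : Ord r D) : ∃ v' : Ord r D, v * v' = (nrm v : Ord r D) := by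
  refine ⟨star v * algebraMap _ _ (star (QuadraticAlgebra.norm v)), ?_⟩
  rw [← mul_assoc, ← QuadraticAlgebra.algebraMap_norm_eq_mul_star, ← map_mul,
    ← QuadraticAlgebra.algebraMap_norm_eq_mul_star]
  rfl

theorem nrm_le {r D T : ℤ} (hr : r = 1 ∨ r = 2) (hD : 0 ≤ D) (v : Ord r D)
    (h1 : |v.re.re| ≤ T) (h2 : |v.re.im| ≤ T) (h3 : |v.im.re| ≤ T) (h4 : |v.im.im| ≤ T) :
    nrm v ≤ 17 * (1 + D) ^ 2 * T ^ 4 := by
  have hT : 0 ≤ T := (abs_nonneg _).trans h1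
  have k1 : v.re.re ^ 2 ≤ T ^ 2 := sq_le_sq' (abs_le.mp h1).1 (abs_le.mp h1).2
  have k2 : v.re.im ^ 2 ≤ T ^ 2 := sq_le_sq' (abs_le.mp h2).1 (abs_le.mp h2).2
  have k3 : v.im.re ^ 2 ≤ T ^ 2 := sq_le_sq' (abs_le.mp h3).1 (abs_le.mp h3).2
  have k4 : v.im.im ^ 2 ≤ T ^ 2 := sq_le_sq' (abs_le.mp h4).1 (abs_le.mp h4).2
  have k5 : |v.re.re * v.re.im| ≤ T ^ 2 := by
    rw [abs_mul, sq]; exact mul_le_mul h1 h2 (abs_nonneg _) hT
  have k6 : |v.im.re * v.im.im| ≤ T ^ 2 := by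
    rw [abs_mul, sq]; exact mul_le_mul h3 h4 (abs_nonneg _) hT
  have k7 := mul_le_mul_of_nonneg_left k3 hD
  have k8 := mul_le_mul_of_nonneg_left k4 hD
  have k9 := mul_nonneg hD (sq_nonneg v.im.re)
  have k10 := mul_nonneg hD (sq_nonneg v.im.im)
  have k11 := mul_le_mul_of_nonneg_left (abs_le.mp k6).1 hD
  have k12 := mul_le_mul_of_nonneg_left (abs_le.mp k6).2 hD
  have a1 : (v.re.re ^ 2 - r * v.re.im ^ 2 + D * (v.im.re ^ 2 - r * v.im.im ^ 2)) ^ 2
      ≤ (3 * (1 + D) * T ^ 2) ^ 2 := by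
    refine sq_le_sq' ?_ ?_ <;> rcases hr with rfl | rfl <;>
      nlinarith [sq_nonneg v.re.re, sq_nonneg v.re.im, sq_nonneg T, mul_nonneg hD (sq_nonneg T)]
  have a2 : (2 * (v.re.re * v.re.im + D * (v.im.re * v.im.im))) ^ 2
      ≤ (2 * (1 + D) * T ^ 2) ^ 2 := by
    refine sq_le_sq' ?_ ?_ <;> nlinarith [(abs_le.mp k5).1, (abs_le.mp k5).2]
  rw [nrm_eq₁]
  rcases hr with rfl | rfl <;> nlinarith [sq_nonneg ((1 + D) * T ^ 2)]

theorem nrm_nonneg {r D : ℤ} (hr : 0 ≤ r) (v : Ord r D) : 0 ≤ nrm v := by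
  rw [nrm_eq₁]; positivity

theorem eq_zero_of_sq_eq {c x y : ℤ} (hc : ¬ IsSquare c) (h : x ^ 2 = c * y ^ 2) :
    x = 0 ∧ y = 0 := by
  by_cases hy : y = 0
  · subst hy
    simpa using h
  · exfalso
    obtain ⟨z, rfl⟩ : y ∣ x := (Int.pow_dvd_pow_iff two_ne_zero).mp ⟨c, by rw [h]; ring⟩
    refine hc ⟨z, mul_left_cancel₀ (pow_ne_zero 2 hy) ?_⟩
    linear_combination -h

theorem eq_zero_of_nrm {r D : ℤ} (hr : 0 < r) (hD : 0 < D) (hc : ¬ IsSquare (D * r)) (v : Ord r D)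
    (h : nrm v = 0) : v = 0 := by
  have h1 := nrm_eq₁ v
  have h2 := nrm_eq₂ v
  rw [h] at h1 h2
  have k1 : v.re.re ^ 2 - r * v.re.im ^ 2 + D * (v.im.re ^ 2 - r * v.im.im ^ 2) = 0 := by
    refine pow_eq_zero_iff two_ne_zero |>.mp (le_antisymm ?_ (sq_nonneg _))
    have := mul_nonneg hr.le (sq_nonneg (2 * (v.re.re * v.re.im + D * (v.im.re * v.im.im))))
    linarith
  have k2 : v.re.re ^ 2 + r * v.re.im ^ 2 - D * (v.im.re ^ 2 + r * v.im.im ^ 2) = 0 := by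
    refine pow_eq_zero_iff two_ne_zero |>.mp (le_antisymm ?_ (sq_nonneg _))
    have := mul_nonneg hD.le (sq_nonneg (2 * (v.re.re * v.im.re + r * (v.re.im * v.im.im))))
    linarith
  obtain ⟨a1, a2⟩ := eq_zero_of_sq_eq (x := v.re.re) (y := v.im.im) hc (by linarith)
  obtain ⟨a3, a4⟩ := eq_zero_of_sq_eq (x := r * v.re.im) (y := v.im.re) hc
    (by rw [a1, a2] at k2; linear_combination r * k2)
  have a5 : v.re.im = 0 := (mul_eq_zero.mp a3).resolve_left hr.ne'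
  ext <;> simp [a1, a2, a4, a5]

theorem exists_short {r D : ℤ} (l₀ : ℕ) (hl : 0 < l₀) (φ : Ord r D →+* ZMod l₀) :
    ∃ (T : ℕ) (v : Ord r D), T ^ 4 ≤ l₀ ∧ v ≠ 0 ∧ φ v = 0 ∧ |v.re.re| ≤ T ∧ |v.re.im| ≤ T ∧
      |v.im.re| ≤ T ∧ |v.im.im| ≤ T := by
  have : NeZero l₀ := ⟨hl.ne'⟩
  set T := Nat.sqrt (Nat.sqrt l₀) with hT
  have h1 : T ^ 4 ≤ l₀ := by
    calc T ^ 4 = (T ^ 2) ^ 2 := by ring
      _ ≤ (Nat.sqrt l₀) ^ 2 := Nat.pow_le_pow_left (Nat.sqrt_le' _) 2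
      _ ≤ l₀ := Nat.sqrt_le' _
  have h2 : l₀ < (T + 1) ^ 4 := by
    calc l₀ < (Nat.sqrt l₀ + 1) ^ 2 := Nat.lt_succ_sqrt' _
      _ ≤ ((T + 1) ^ 2) ^ 2 := Nat.pow_le_pow_left (Nat.lt_succ_sqrt' _) 2
      _ = (T + 1) ^ 4 := by ring
  let F : Fin (T + 1) × Fin (T + 1) × Fin (T + 1) × Fin (T + 1) → Ord r D :=
    fun x => ⟨⟨(x.1 : ℕ), (x.2.1 : ℕ)⟩, ⟨(x.2.2.1 : ℕ), (x.2.2.2 : ℕ)⟩⟩
  obtain ⟨x, y, hxy, h⟩ := Fintype.exists_ne_map_eq_of_card_lt (fun x => φ (F x))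
    (by simp only [ZMod.card, Fintype.card_prod, Fintype.card_fin]; nlinarith)
  have hb : ∀ a b : Fin (T + 1), |((a : ℕ) : ℤ) - (b : ℕ)| ≤ T := fun a b => by
    have := a.2; have := b.2
    rw [abs_le]; constructor <;> omega
  refine ⟨T, F x - F y, h1, fun h0 => hxy ?_, by rw [map_sub, h, sub_self],
    hb _ _, hb _ _, hb _ _, hb _ _⟩
  have h3 : F x = F y := sub_eq_zero.mp h0
  have k1 := congrArg (fun v => v.re.re) h3
  have k2 := congrArg (fun v => v.re.im) h3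
  have k3 := congrArg (fun v => v.im.re) h3
  have k4 := congrArg (fun v => v.im.im) h3
  simp only [F, Nat.cast_inj] at k1 k2 k3 k4
  exact Prod.ext (Fin.ext k1) (Prod.ext (Fin.ext k2) (Prod.ext (Fin.ext k3) (Fin.ext k4)))

theorem exists_small_norm {r D : ℤ} (hr : r = 1 ∨ r = 2) (hD : 0 < D) (hc : ¬ IsSquare (D * r))
    (l₀ M : ℕ) (hl : 0 < l₀) (hM : 0 < M) (hcop : Nat.Coprime l₀ M) (φ : Ord r D →+* ZMod l₀) :
    ∃ (w : Ord r D) (n₂ : ℕ), nrm w = l₀ * n₂ ∧ (n₂ : ℤ) ≤ 289 * (1 + D) ^ 4 * M ^ 4 ∧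
      l₀ * n₂ ≡ 1 [MOD M] := by
  have hr0 : 0 < r := by rcases hr with rfl | rfl <;> norm_num
  obtain ⟨T, v, hT, hv, hφ, b1, b2, b3, b4⟩ := exists_short l₀ hl φ
  have hn0 : 0 < nrm v :=
    lt_of_le_of_ne (nrm_nonneg hr0.le v) fun h => hv (eq_zero_of_nrm hr0 hD hc v h.symm)
  have hn1 := nrm_le hr hD.le v b1 b2 b3 b4
  obtain ⟨v', hv'⟩ := exists_conj v
  obtain ⟨c, hc1⟩ : ∃ c : ℤ, (M : ℤ) ∣ l₀ * c - 1 := by
    obtain ⟨a, b, hab⟩ := Nat.isCoprime_iff_coprime.mpr hcop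
    exact ⟨a, -b, by linear_combination hab⟩
  obtain ⟨j, hj⟩ := hc1
  set n := nrm v with hn
  set m : ℤ := M * n with hm
  have hm0 : 0 < m := by positivity
  set t : Ord r D := ((l₀ * c : ℤ) : Ord r D) * v' with ht
  let κ : Ord r D := ⟨⟨t.re.re / m, t.re.im / m⟩, ⟨t.im.re / m, t.im.im / m⟩⟩
  let s : Ord r D := ⟨⟨t.re.re % m, t.re.im % m⟩, ⟨t.im.re % m, t.im.im % m⟩⟩
  have hts : t = (m : Ord r D) * κ + s := by
    ext <;> simp [κ, s, Int.mul_ediv_add_emod]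
  set w : Ord r D := ((l₀ * c : ℤ) : Ord r D) - (M : ℤ) * v * κ with hw
  have hws : w * v' = s := by
    have : w * v' = t - (M : ℤ) * (v * v') * κ := by rw [hw, ht]; ring
    rw [this, hv', hts, hm]; push_cast; ring
  have hab : ∀ x : ℤ, |x % m| ≤ m := fun x => by
    rw [abs_of_nonneg (Int.emod_nonneg _ hm0.ne')]; exact (Int.emod_lt_of_pos _ hm0).le
  have hs := nrm_le hr hD.le s (hab _) (hab _) (hab _) (hab _)
  have hv3 : nrm v' = n ^ 3 := by
    have := congrArg nrm hv'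
    rw [map_mul, nrm_intCast, ← hn] at this
    exact mul_left_cancel₀ hn0.ne' (by rw [this]; ring)
  have hw1 : nrm w ≤ 17 * (1 + D) ^ 2 * M ^ 4 * n := by
    have h1 : nrm w * n ^ 3 = nrm s := by rw [← hws, map_mul, hv3]
    refine le_of_mul_le_mul_right ?_ (pow_pos hn0 3)
    rw [h1]
    refine hs.trans (le_of_eq ?_)
    rw [hm]; ring
  have hφw : φ w = 0 := by
    rw [hw, map_sub, map_mul, map_mul, hφ, map_intCast]
    push_cast
    simp
  obtain ⟨w', hw'⟩ := exists_conj w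
  have hdvd : (l₀ : ℤ) ∣ nrm w := by
    have := congrArg φ hw'
    rw [map_mul, hφw, zero_mul, map_intCast] at this
    exact (ZMod.intCast_zmod_eq_zero_iff_dvd _ _).mp this.symm
  obtain ⟨n₂, hn₂⟩ := hdvd
  have hl' : (0 : ℤ) < l₀ := by exact_mod_cast hl
  have hn₂0 : 0 ≤ n₂ := by
    have := nrm_nonneg hr0.le w
    rw [hn₂] at this
    exact nonneg_of_mul_nonneg_right this hl'
  lift n₂ to ℕ using hn₂0
  refine ⟨w, n₂, hn₂, ?_, ?_⟩
  · refine le_of_mul_le_mul_left ?_ hl'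
    rw [← hn₂]
    have h1 : (T : ℤ) ^ 4 ≤ l₀ := by exact_mod_cast hT
    calc nrm w ≤ 17 * (1 + D) ^ 2 * M ^ 4 * n := hw1
      _ ≤ 17 * (1 + D) ^ 2 * M ^ 4 * (17 * (1 + D) ^ 2 * l₀) := by
          gcongr
          exact hn1.trans (by gcongr)
      _ = _ := by ring
  · have h1 : w = 1 + ((M : ℤ) : Ord r D) * ((j : Ord r D) - v * κ) := by
      have h2 : ((l₀ * c : ℤ) : Ord r D) = 1 + ((M : ℤ) : Ord r D) * (j : Ord r D) := by
        rw [show (l₀ * c : ℤ) = 1 + M * j by linear_combination hj]; push_cast; ring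
      rw [hw, h2]; ring
    rw [← ZMod.natCast_eq_natCast_iff]
    have h2 : ((nrm w : ℤ) : ZMod M) = 1 := by
      generalize (j : Ord r D) - v * κ = y at h1
      rw [nrm_eq₁, h1]
      simp [QuadraticAlgebra.re_one, QuadraticAlgebra.im_one]
    rw [hn₂] at h2
    exact_mod_cast h2

theorem exists_start_prime (g d : ℕ) (hg : g = 3 ∨ g = 5) (hd : Squarefree d) (hd3 : 3 ≤ d)
    (B : ℕ) : ∃ l₀ : ℕ, l₀.Prime ∧ B < l₀ ∧ l₀ % 8 = g ∧ chi (-(d : ℤ)) l₀ = -1 := by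
  have hg8 : Nat.Coprime g 8 := by rcases hg with rfl | rfl <;> norm_num
  have hper : ∀ a b : ℕ, a ≡ b [MOD 8 * d] → chi (-(d : ℤ)) a = chi (-(d : ℤ)) b := by
    intro a b hab
    have hp := periodic_of_dvd (chi (-(d : ℤ))) (4 * d) (8 * d)
      (fun n => by simpa using chi_periodic (-(d : ℤ)) n) ⟨2, by ring⟩
    rw [← periodic_mod _ _ hp a, ← periodic_mod _ _ hp b, hab]
  suffices h : ∃ n, n % 8 = g ∧ chi (-(d : ℤ)) n = -1 by
    obtain ⟨n, h1, h2⟩ := h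
    have hno : Odd n := by rw [Nat.odd_iff]; omega
    have h3 : Nat.Coprime n (8 * d) := by
      refine Nat.Coprime.mul_right ?_ ?_
      · exact (Nat.ModEq.gcd_eq (Nat.mod_modEq n 8)).symm.trans (h1 ▸ hg8)
      · by_contra h4
        have : NeZero n := ⟨hno.pos.ne'⟩
        have h5 : J(-(d : ℤ) | n) = 0 := jacobiSym.eq_zero_iff_not_coprime.mpr (by
          simpa [Nat.gcd_comm] using h4)
        rw [chi_of_odd _ hno, h5] at h2
        norm_num at h2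
    obtain ⟨p, h4, h5, h6⟩ := Nat.forall_exists_prime_gt_and_modEq B (by omega) h3
    exact ⟨p, h5, h4, Eq.trans (Nat.ModEq.of_mul_right d h6) h1, (hper _ _ h6).trans h2⟩
  obtain ⟨p, hp1, hp2, hp3⟩ := Nat.forall_exists_prime_gt_and_modEq d (by norm_num) hg8
  have hp8 : p % 8 = g := by rw [hp3]; rcases hg with rfl | rfl <;> rfl
  have hpo : Odd p := by rw [Nat.odd_iff]; omega
  rcases chi_trichotomy (-(d : ℤ)) p with h | h | h
  · exfalso
    have : NeZero p := ⟨hp2.ne_zero⟩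
    rw [chi_of_odd _ hpo] at h
    have h1 := jacobiSym.eq_zero_iff_not_coprime.mp (by exact_mod_cast h)
    apply h1
    simp only [Int.neg_gcd, Int.gcd_natCast_natCast]
    exact ((Nat.Prime.coprime_iff_not_dvd hp2).mpr fun h2 =>
      absurd (Nat.le_of_dvd (by omega) h2) (by omega)).symm
  · -- flip the sign by a number congruent to one modulo eight
    obtain ⟨q, hq, hqd, hq2⟩ : ∃ q, q.Prime ∧ q ∣ d ∧ q ≠ 2 := by
      by_contra hcon
      push Not at hcon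
      have h1 : d ∣ 2 := by
        rw [← Nat.prod_primeFactors_of_squarefree hd]
        calc ∏ p ∈ d.primeFactors, p ∣ ∏ p ∈ ({2} : Finset ℕ), p :=
              prod_dvd_prod_of_subset _ _ _ fun p hp => mem_singleton.mpr
                (hcon p (Nat.prime_of_mem_primeFactors hp) (Nat.dvd_of_mem_primeFactors hp))
          _ = 2 := by simp
      have := Nat.le_of_dvd two_pos h1
      omega
    obtain ⟨d₁, rfl⟩ := hqd
    have := Fact.mk hq
    have h1 : ¬ q ∣ d₁ := fun h => hq.not_isUnit (hd q (mul_dvd_mul_left q h))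
    have hd₁ : 0 < d₁ := Nat.pos_of_ne_zero fun h => h1 (h ▸ dvd_zero q)
    obtain ⟨a, ha⟩ := FiniteField.exists_nonsquare (F := ZMod q)
      (by rw [ZMod.ringChar_zmod_n]; exact hq2)
    have hc8 : Nat.Coprime q (8 * d₁) := by
      refine Nat.Coprime.mul_right ?_ ((Nat.Prime.coprime_iff_not_dvd hq).mpr h1)
      have : Nat.Coprime q 2 := (Nat.coprime_primes hq Nat.prime_two).mpr hq2
      simpa using Nat.Coprime.pow_right 3 this
    obtain ⟨f, hf1, hf2⟩ := Nat.chineseRemainder hc8 a.val 1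
    have hf8 : f % 8 = 1 := Nat.ModEq.of_mul_right d₁ hf2
    have hfo : Odd f := by rw [Nat.odd_iff]; omega
    have hf4 : f ≡ 1 [MOD 4 * d₁] := hf2.of_dvd ⟨2, by ring⟩
    have h3 : J((d₁ : ℤ) | f) = 1 := by
      rw [jacobiSym.mod_right' d₁ hfo, show f % (4 * d₁) = 1 from
        Eq.trans hf4 (Nat.mod_eq_of_lt (by omega)), jacobiSym.one_right]
    have h4 : J((q : ℤ) | f) = -1 := by
      rw [jacobiSym.quadratic_reciprocity_one_mod_four' (hq.odd_of_ne_two hq2) (by omega),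
        ZMod.nonsquare_iff_jacobiSym_eq_neg_one]
      have : ((f : ℤ) : ZMod q) = a := by
        rw [Int.cast_natCast, (ZMod.natCast_eq_natCast_iff _ _ _).mpr hf1, ZMod.natCast_zmod_val]
      rwa [this]
    refine ⟨p * f, by rw [Nat.mul_mod, hp8, hf8]; rcases hg with rfl | rfl <;> rfl, ?_⟩
    rw [chi_mul_right, h, one_mul, chi_of_odd _ hfo, jacobiSym.neg _ hfo,
      ZMod.χ₄_nat_one_mod_four (by omega), Nat.cast_mul, jacobiSym.mul_left, h3, h4]
    norm_num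
  · exact ⟨p, hp8, h⟩

/-- A small prime in the class `g` modulo eight, prime to `M`, inert in `ℚ(√-d)`. -/
theorem exists_aux_prime (g d M : ℕ) (hg : g = 3 ∨ g = 5) (hd : Squarefree d) (hd3 : 3 ≤ d)
    (hM : 0 < M) : ∃ l : ℕ, l.Prime ∧ l % 8 = g ∧ ¬ l ∣ M ∧ chi (-(d : ℤ)) l = -1 ∧
      l ≤ 289 * (1 + 2 * d) ^ 4 * (8 * d * M) ^ 4 := by
  obtain ⟨l₀, hl₀, hB, hl8, hchi⟩ := exists_start_prime g d hg hd hd3
    (289 * (1 + 2 * d) ^ 4 * (8 * d * M) ^ 4 + 8 * d * M)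
  have := Fact.mk hl₀
  have hlo : Odd l₀ := by rw [Nat.odd_iff]; omega
  obtain ⟨r, hr, hrg⟩ : ∃ r : ℤ, (r = 1 ∨ r = 2) ∧ ∀ l : ℕ, (l % 8 = 3 ∨ l % 8 = 5) →
      (chi (-r) l = 1 ↔ l % 8 = g) := by
    rcases hg with rfl | rfl
    · refine ⟨2, Or.inr rfl, fun l hl => ?_⟩
      rw [chi_neg_two]
      rcases hl with h | h <;> simp [h, show l % 2 = 1 by omega] <;> norm_num
    · refine ⟨1, Or.inl rfl, fun l hl => ?_⟩
      rw [chi_neg_one]
      rcases hl with h | h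
      · simp [h, show l % 2 = 1 by omega, show l % 4 = 3 by omega]; norm_num
      · simp [h, show l % 2 = 1 by omega, show l % 4 = 1 by omega]
  have h2 : ∀ l : ℕ, (l % 8 = 3 ∨ l % 8 = 5) → chi (-(2 * d : ℤ)) l = -chi (-(d : ℤ)) l := by
    intro l hl
    rw [show (-(2 * d : ℤ)) = 2 * (-(d : ℤ)) by ring, chi_mul_left, chi_two, if_neg (by omega),
      if_neg (by omega)]
    ring
  have hsq : ∀ a : ℤ, chi a l₀ = 1 → ∃ u : ZMod l₀, u * u = a := fun a ha => by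
    rw [chi_of_odd _ hlo] at ha
    obtain ⟨u, hu⟩ := ZMod.isSquare_of_jacobiSym_eq_one (p := l₀) (a := a) (by exact_mod_cast ha)
    exact ⟨u, hu.symm⟩
  have hl35 : l₀ % 8 = 3 ∨ l₀ % 8 = 5 := by omega
  obtain ⟨i₀, hi₀⟩ := hsq (-r) ((hrg l₀ hl35).mpr hl8)
  obtain ⟨ρ, hρ⟩ := hsq (-(2 * d : ℤ)) (by rw [h2 l₀ hl35, hchi]; norm_num)
  let φ₁ : QuadraticAlgebra ℤ (-r) 0 →+* ZMod l₀ := qaLift (Int.castRingHom _) (-r) i₀ hi₀
  let φ : Ord r (2 * d) →+* ZMod l₀ := qaLift φ₁ ⟨-(2 * d), 0⟩ ρ (by simp [φ₁, qaLift, hρ])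
  have hns : ¬ IsSquare ((2 * d : ℤ) * r) := by
    rintro ⟨z, hz⟩
    obtain ⟨q, hq, hqd, hq2⟩ : ∃ q, q.Prime ∧ q ∣ d ∧ q ≠ 2 := by
      by_contra hcon
      push Not at hcon
      have h1 : d ∣ 2 := by
        rw [← Nat.prod_primeFactors_of_squarefree hd]
        calc ∏ p ∈ d.primeFactors, p ∣ ∏ p ∈ ({2} : Finset ℕ), p :=
              prod_dvd_prod_of_subset _ _ _ fun p hp => mem_singleton.mpr
                (hcon p (Nat.prime_of_mem_primeFactors hp) (Nat.dvd_of_mem_primeFactors hp))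
          _ = 2 := by simp
      have := Nat.le_of_dvd two_pos h1
      omega
    have h3 : 2 * d * r.natAbs = z.natAbs * z.natAbs := by
      have := congrArg Int.natAbs hz
      simpa [Int.natAbs_mul] using this
    have h4 : q ∣ z.natAbs := by
      have : q ∣ z.natAbs * z.natAbs := h3 ▸ (Dvd.dvd.mul_left hqd 2).mul_right _
      exact ((Nat.Prime.dvd_mul hq).mp this).elim id id
    have h5 : q * q ∣ d * 4 := by
      refine (h3 ▸ mul_dvd_mul h4 h4 : q * q ∣ 2 * d * r.natAbs).trans ?_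
      rcases hr with rfl | rfl
      · exact ⟨2, by simp; ring⟩
      · exact ⟨1, by simp; ring⟩
    have h6 : Nat.Coprime (q * q) 4 := by
      have : Nat.Coprime q 2 := (Nat.coprime_primes hq Nat.prime_two).mpr hq2
      have h7 : Nat.Coprime q 4 := by simpa using Nat.Coprime.pow_right 2 this
      exact h7.mul_left h7
    exact hq.not_isUnit (hd q (h6.dvd_of_dvd_mul_right h5))
  have hM' : 0 < 8 * d * M := by positivity
  obtain ⟨w, n₂, hw, hn₂, hmod⟩ := exists_small_norm hr (by positivity) hns l₀ (8 * d * M)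
    hl₀.pos hM' ((Nat.Prime.coprime_iff_not_dvd hl₀).mpr fun h =>
      absurd (Nat.le_of_dvd hM' h) (by omega)) φ
  have hn₂' : n₂ ≤ 289 * (1 + 2 * d) ^ 4 * (8 * d * M) ^ 4 := by exact_mod_cast hn₂
  have hm8 : l₀ * n₂ % 8 = 1 := (hmod.of_dvd ⟨d * M, by ring⟩ : l₀ * n₂ ≡ 1 [MOD 8])
  have hn8 : n₂ % 8 = 3 ∨ n₂ % 8 = 5 := by
    rw [Nat.mul_mod] at hm8
    have h8 : n₂ % 8 < 8 := Nat.mod_lt _ (by norm_num)
    rcases hl35 with h | h <;> rw [h] at hm8 <;> omega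
  obtain ⟨l, hl, hl35', hodd⟩ := exists_odd_val n₂ hn8
  have hn0 : n₂ ≠ 0 := by omega
  have hln : l ∣ n₂ := by
    by_contra h
    rw [Nat.factorization_eq_zero_of_not_dvd h] at hodd
    exact absurd hodd (by decide)
  have hle : l ≤ n₂ := Nat.le_of_dvd (by omega) hln
  have hodd' : Odd ((l₀ * n₂).factorization l) := by
    rw [Nat.factorization_mul hl₀.ne_zero hn0, Finsupp.add_apply, hl₀.factorization,
      Finsupp.single_eq_of_ne (by omega), zero_add]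
    exact hodd
  have hlM : ¬ l ∣ 8 * d * M := fun h => by
    have h3 : l₀ * n₂ ≡ 1 [MOD l] := hmod.of_dvd h
    have h4 : l₀ * n₂ ≡ 0 [MOD l] := (Nat.modEq_zero_iff_dvd).mpr (Dvd.dvd.mul_left hln _)
    exact hl.one_lt.ne' (Nat.dvd_one.mp ((Nat.modEq_zero_iff_dvd).mp (h3.symm.trans h4)))
  have hlo' : Odd l := by rw [Nat.odd_iff]; omega
  have hne : ∀ a x y : ℤ, x ^ 2 - a * y ^ 2 = ((l₀ * n₂ : ℕ) : ℤ) → chi a l ≠ -1 := by
    intro a x y hxy h
    rw [chi_of_odd _ hlo'] at h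
    exact Nat.not_odd_iff_even.mpr (even_val_of_inert l hl a (by exact_mod_cast h) _
      (Nat.mul_ne_zero hl₀.ne_zero hn0) x y hxy) hodd'
  have k1 : chi (-r) l ≠ -1 := hne (-r) _ _ (by
    rw [Nat.cast_mul, ← hw, nrm_eq₁, neg_mul, sub_neg_eq_add])
  have k2 : chi (-(2 * d : ℤ)) l ≠ -1 := hne (-(2 * d : ℤ)) _ _ (by
    rw [Nat.cast_mul, ← hw, nrm_eq₂, neg_mul, sub_neg_eq_add])
  have k3 : chi (-r) l = 1 := by
    rcases hr with rfl | rfl
    · rw [chi_neg_one] at k1 ⊢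
      split_ifs at k1 ⊢ <;> first | omega | simp_all
    · rw [chi_neg_two] at k1 ⊢
      split_ifs at k1 ⊢ <;> first | omega | simp_all
  refine ⟨l, hl, (hrg l hl35').mp k3, fun h => hlM (Dvd.dvd.mul_left h _), ?_, hle.trans hn₂'⟩
  rw [h2 l hl35'] at k2
  rcases chi_trichotomy (-(d : ℤ)) l with h | h | h
  · exfalso
    have : NeZero l := ⟨hl.ne_zero⟩
    rw [chi_of_odd _ hlo'] at h
    have h1 := jacobiSym.eq_zero_iff_not_coprime.mp (by exact_mod_cast h)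
    apply h1
    simp only [Int.neg_gcd, Int.gcd_natCast_natCast]
    exact ((Nat.Prime.coprime_iff_not_dvd hl).mpr fun h2 =>
      hlM ((Dvd.dvd.mul_left h2 8).mul_right M)).symm
  · exact absurd (by rw [h]) k2
  · exact h

end Pool.Agent.Lib.MP_a3366f_nt
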