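import Mathlib
import Pool.Agent.Lib.MP_a3366f_nt.An6
import Pool.Agent.Lib.MP_a3366f_nt.An7

/-!
Families of squarefree numbers built from several blocks of primes.
-/

open Finset

namespace Pool.Agent.Lib.MP_a3366f_nt

theorem card_prime_dvd_le (P : Finset ℕ) (hP : ∀ p ∈ P, p.Prime) (n R : ℕ) (hn : n ≠ 0)
    (hR : n ≤ 2 ^ R) : (P.filter (· ∣ n)).card ≤ R := by
  have h1 : ∏ p ∈ P.filter (· ∣ n), p ∣ n :=
    Finset.prod_primes_dvd n (fun p hp => (hP p (mem_filter.mp hp).1).prime)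
      fun p hp => (mem_filter.mp hp).2
  have h2 : 2 ^ (P.filter (· ∣ n)).card ≤ ∏ p ∈ P.filter (· ∣ n), p :=
    Finset.pow_card_le_prod _ _ _ fun p hp => (hP p (mem_filter.mp hp).1).two_le
  exact (Nat.pow_le_pow_iff_right (by norm_num)).mp
    (h2.trans ((Nat.le_of_dvd (Nat.pos_of_ne_zero hn) h1).trans hR))

theorem sum_inv_dvd_le (P : Finset ℕ) (Y : ℕ) (hY : 0 < Y) (hP : ∀ p ∈ P, p.Prime ∧ Y ≤ p)
    (n R : ℕ) (hn : n ≠ 0) (hR : n ≤ 2 ^ R) :
    ∑ p ∈ P, (if p ∣ n then (1 : ℝ) / p else 0) ≤ R / Y := by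
  rw [← sum_filter]
  have hY' : (0 : ℝ) < Y := by exact_mod_cast hY
  calc ∑ p ∈ P.filter (· ∣ n), (1 : ℝ) / p ≤ ∑ _p ∈ P.filter (· ∣ n), (1 : ℝ) / Y :=
        sum_le_sum fun p hp => one_div_le_one_div_of_le hY'
          (by exact_mod_cast (hP p (mem_filter.mp hp).1).2)
    _ = (P.filter (· ∣ n)).card / Y := by simp [div_eq_mul_inv]
    _ ≤ R / Y := by
        gcongr
        exact card_prime_dvd_le P (fun p hp => (hP p hp).1) n R hn hR

theorem dvd_of_chi_eq_zero {a : ℤ} {p : ℕ} (hp : p.Prime) (hp2 : p ≠ 2) (h : chi a p = 0) :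
    p ∣ a.natAbs := by
  have : NeZero p := ⟨hp.ne_zero⟩
  rw [chi_of_odd _ (hp.odd_of_ne_two hp2)] at h
  have h1 := jacobiSym.eq_zero_iff_not_coprime.mp (by exact_mod_cast h)
  by_contra h2
  exact h1 (by simpa [Int.gcd] using ((Nat.Prime.coprime_iff_not_dvd hp).mpr h2).symm)

theorem chi_sq_mul (d s p : ℕ) (hp : p.Prime) (hp2 : p ≠ 2) :
    chi (-((d * s ^ 2 : ℕ) : ℤ)) p = if p ∣ s then 0 else chi (-(d : ℤ)) p := by
  have h1 : (-((d * s ^ 2 : ℕ) : ℤ)) = -(d : ℤ) * (s * s) := by push_cast; ring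
  rw [h1, chi_mul_left, chi_mul_left]
  split_ifs with h
  · have : NeZero p := ⟨hp.ne_zero⟩
    have h2 : chi s p = 0 := by
      rw [chi_of_odd _ (hp.odd_of_ne_two hp2), jacobiSym.eq_zero_iff_not_coprime.mpr]
      · simp
      · rw [Int.gcd_natCast_natCast, Nat.gcd_comm]
        exact fun h3 => (Nat.Prime.coprime_iff_not_dvd hp).mp h3 h
    simp [h2]
  · rcases chi_trichotomy s p with h2 | h2 | h2
    · exact absurd (by simpa using dvd_of_chi_eq_zero hp hp2 h2) h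
    · simp [h2]
    · simp [h2]

theorem sum_rho_le (P : Finset ℕ) (Y : ℕ) (hY : 2 < Y) (hP : ∀ p ∈ P, p.Prime ∧ Y ≤ p)
    (d s R : ℕ) (hs : s ≠ 0) (hR : s ≤ 2 ^ R) :
    ∑ p ∈ P, (1 + chi (-((d * s ^ 2 : ℕ) : ℤ)) p) / p ≤ lam P + beta P d + R / Y := by
  refine le_trans ?_ (add_le_add_right (sum_inv_dvd_le P Y (by omega) hP s R hs hR) _)
  rw [lam, beta, ← sum_add_distrib, ← sum_add_distrib]
  refine sum_le_sum fun p hp => ?_
  rw [chi_sq_mul d s p (hP p hp).1 (by have := (hP p hp).2; omega)]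
  have h1 : (0 : ℝ) ≤ 1 / p := by positivity
  have h2 := mul_le_mul_of_nonneg_right (neg_one_le_chi (-(d : ℤ)) p) h1
  split_ifs
  · rw [div_eq_mul_one_div (chi _ _)]; simp only [add_zero]; linarith
  · rw [add_div, add_zero]

theorem le_sum_rho (P : Finset ℕ) (Y : ℕ) (hY : 2 < Y) (hP : ∀ p ∈ P, p.Prime ∧ Y ≤ p)
    (d s R : ℕ) (hs : s ≠ 0) (hR : s ≤ 2 ^ R) :
    lam P + beta P d - R / Y ≤ ∑ p ∈ P, (1 + chi (-((d * s ^ 2 : ℕ) : ℤ)) p) / p := by
  refine le_trans (sub_le_sub_left (sum_inv_dvd_le P Y (by omega) hP s R hs hR) _) ?_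
  rw [lam, beta, ← sum_add_distrib, ← sum_sub_distrib]
  refine sum_le_sum fun p hp => ?_
  rw [chi_sq_mul d s p (hP p hp).1 (by have := (hP p hp).2; omega)]
  have h1 : (0 : ℝ) ≤ 1 / p := by positivity
  have h2 := mul_le_mul_of_nonneg_right (chi_le_one (-(d : ℤ)) p) h1
  split_ifs
  · rw [div_eq_mul_one_div (chi _ _)]; simp only [add_zero]; linarith
  · rw [add_div, sub_zero]

theorem sum_noninert_le (P : Finset ℕ) (Y : ℕ) (hY : 2 < Y) (hP : ∀ p ∈ P, p.Prime ∧ Y ≤ p)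
    (d R : ℕ) (hd : d ≠ 0) (hR : d ≤ 2 ^ R) :
    ∑ p ∈ P, (if chi (-(d : ℤ)) p = -1 then 0 else (1 : ℝ) / p)
      ≤ (lam P + beta P d + R / Y) / 2 := by
  rw [le_div_iff₀ two_pos]
  refine le_trans ?_ (add_le_add_right (sum_inv_dvd_le P Y (by omega) hP d R hd hR) _)
  rw [lam, beta, ← sum_add_distrib, ← sum_add_distrib, sum_mul]
  refine sum_le_sum fun p hp => ?_
  have h1 : (0 : ℝ) ≤ 1 / p := by positivity
  rcases chi_trichotomy (-(d : ℤ)) p with h | h | h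
  · have := dvd_of_chi_eq_zero (hP p hp).1 (by have := (hP p hp).2; omega) h
    rw [h, if_neg (by norm_num), if_pos (by simpa using this)]
    simp; linarith
  · rw [h, if_neg (by norm_num)]
    split_ifs <;> linarith
  · rw [h, if_pos rfl, neg_div]
    split_ifs <;> linarith

section slots

variable {ι : Type} [Fintype ι] [DecidableEq ι]

/-- All choices of `b i` primes from the block `P i`. -/
def choices (P : ι → Finset ℕ) (b : ι → ℕ) : Finset (ι → Finset ℕ) :=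
  Fintype.piFinset fun i => powersetCard (b i) (P i)

theorem mem_choices {P : ι → Finset ℕ} {b : ι → ℕ} {S : ι → Finset ℕ} :
    S ∈ choices P b ↔ ∀ i, S i ⊆ P i ∧ (S i).card = b i := by
  simp [choices, mem_powersetCard]

theorem sum_choices (P : ι → Finset ℕ) (b : ι → ℕ) (w : ι → ℕ → ℝ) :
    ∑ S ∈ choices P b, ∏ i, ∏ p ∈ S i, w i p = ∏ i, esym (P i) (w i) (b i) := by
  simp only [esym, choices]
  rw [Finset.prod_univ_sum]

theorem slot_family (P : ι → Finset ℕ) (b : ι → ℕ) (L : ι → ℝ)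
    (hL : ∀ i, L i ^ b i / (b i).factorial ≤ esym (P i) (fun p => 1 / p) (b i))
    (D : Finset ℕ) (slot : ℕ → ι)
    (h45 : ∀ d ∈ D, ∑ p ∈ P (slot d), (if chi (-(d : ℤ)) p = -1 then 0 else (1 : ℝ) / p)
      ≤ 4 / 5 * L (slot d))
    (hsum : ∑ d ∈ D, (4 / 5 : ℝ) ^ b (slot d) ≤ 1 / 2) :
    (∏ i, esym (P i) (fun p => 1 / p) (b i)) / 2 ≤
      ∑ S ∈ (choices P b).filter (fun S => ∀ d ∈ D, ∃ p ∈ S (slot d), chi (-(d : ℤ)) p = -1),
        ∏ i, ∏ p ∈ S i, (1 : ℝ) / p := by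
  classical
  set E := ∏ i, esym (P i) (fun p => 1 / p) (b i) with hE
  have he0 : ∀ i, 0 ≤ esym (P i) (fun p => 1 / p) (b i) := fun i =>
    esym_nonneg _ _ (fun _ _ => by positivity) _
  have hE0 : 0 ≤ E := prod_nonneg fun i _ => he0 i
  set w : ℕ → ι → ℕ → ℝ := fun d i p =>
    if i = slot d then (if chi (-(d : ℤ)) p = -1 then 0 else 1 / p) else 1 / p with hw
  have hw0 : ∀ d i p, 0 ≤ w d i p := fun d i p => by
    simp only [hw]; split_ifs <;> positivity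
  have h1 : ∀ d ∈ D, ∑ S ∈ choices P b, ∏ i, ∏ p ∈ S i, w d i p ≤ (4 / 5 : ℝ) ^ b (slot d) * E := by
    intro d hd
    rw [sum_choices, hE, ← mul_prod_erase univ _ (mem_univ (slot d)),
      ← mul_prod_erase univ _ (mem_univ (slot d)), ← mul_assoc]
    refine mul_le_mul ?_ (le_of_eq (prod_congr rfl fun i hi => ?_))
      (prod_nonneg fun i _ => esym_nonneg _ _ (fun p _ => hw0 d i p) _)
      (mul_nonneg (by positivity) (he0 _))
    · refine (esym_le _ _ (fun p _ => hw0 d _ p) (4 / 5 * L (slot d))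
        (by simpa only [hw, if_true] using h45 d hd) _).trans ?_
      rw [mul_pow, mul_div_assoc]
      exact mul_le_mul_of_nonneg_left (hL _) (by positivity)
    · simp only [hw, if_neg (ne_of_mem_erase hi)]
  have h2 : ∑ S ∈ (choices P b).filter
      (fun S => ¬ ∀ d ∈ D, ∃ p ∈ S (slot d), chi (-(d : ℤ)) p = -1), ∏ i, ∏ p ∈ S i, (1 : ℝ) / p
        ≤ ∑ S ∈ choices P b, ∑ d ∈ D, ∏ i, ∏ p ∈ S i, w d i p := by
    refine le_trans (sum_le_sum fun S hS => ?_) (sum_le_sum_of_subset_of_nonneg (filter_subset _ _)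
      fun S _ _ => sum_nonneg fun d _ => prod_nonneg fun i _ => prod_nonneg fun p _ => hw0 d i p)
    have h3 := (mem_filter.mp hS).2
    push Not at h3
    obtain ⟨d, hd, h3⟩ := h3
    refine le_trans (le_of_eq (prod_congr rfl fun i _ => prod_congr rfl fun p hp => ?_))
      (single_le_sum (f := fun d => ∏ i, ∏ p ∈ S i, w d i p)
        (fun d _ => prod_nonneg fun i _ => prod_nonneg fun p _ => hw0 d i p) hd)
    simp only [hw]
    split_ifs with h4 h5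
    · exact absurd h5 (h3 p (h4 ▸ hp))
    · rfl
    · rfl
  rw [sum_comm] at h2
  have h3 := h2.trans (sum_le_sum h1)
  rw [← sum_mul] at h3
  have h5 := mul_le_mul_of_nonneg_right hsum hE0
  have h4 := sum_filter_add_sum_filter_not (choices P b)
    (fun S => ∀ d ∈ D, ∃ p ∈ S (slot d), chi (-(d : ℤ)) p = -1)
    (fun S => ∏ i, ∏ p ∈ S i, (1 : ℝ) / p)
  rw [sum_choices P b fun _ p => 1 / p] at h4
  linarith

end slots

theorem count_of_moment {R Q e Z n : ℕ} (he : 1 ≤ e) (h : R ^ e ≤ Q ^ e * Z) (hZ : Z ≤ 2 ^ (e * n)) :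
    R ≤ Q * 2 ^ n := by
  refine (Nat.pow_le_pow_iff_left (by omega : e ≠ 0)).mp (h.trans ?_)
  rw [mul_pow, ← pow_mul 2, mul_comm n e]
  exact Nat.mul_le_mul_left _ hZ

theorem sum_inv_sqrt_le (D : Finset ℕ) (Q V e : ℕ) (he : 8 ≤ e) (hQ : 1 ≤ Q) (hV : 1 ≤ V)
    (hD : ∀ d ∈ D, V ^ 4 ≤ d) (hR : ∀ d ∈ D, (D.filter (· ≤ d)).card ^ e ≤ Q ^ e * d) :
    ∑ d ∈ D, 1 / Real.sqrt d ≤ 2 * Q ^ 2 / V := by
  classical
  set rk : ℕ → ℕ := fun d => (D.filter (· ≤ d)).card with hrk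
  have hV0 : (0 : ℝ) < V := by exact_mod_cast hV
  have hrk1 : ∀ d ∈ D, 1 ≤ rk d := fun d hd =>
    card_pos.mpr ⟨d, mem_filter.mpr ⟨hd, le_rfl⟩⟩
  have hmono : ∀ d ∈ D, ∀ d' ∈ D, d < d' → rk d < rk d' := fun d _ d' hd' hlt =>
    card_lt_card ⟨fun x hx => mem_filter.mpr ⟨(mem_filter.mp hx).1,
      (mem_filter.mp hx).2.trans hlt.le⟩, fun h => by
        have := (mem_filter.mp (h (mem_filter.mpr ⟨hd', le_rfl⟩))).2
        omega⟩
  have hinj : Set.InjOn rk D := fun d hd d' hd' h => by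
    rcases lt_trichotomy d d' with h1 | h1 | h1
    · exact absurd h (hmono d hd d' hd' h1).ne
    · exact h1
    · exact absurd h (hmono d' hd' d hd h1).ne'
  have h1 : ∀ d ∈ D, 1 / Real.sqrt d ≤ Q ^ 2 / V * (1 / (rk d : ℝ) ^ 2) := by
    intro d hd
    have hd1 : 1 ≤ d := (Nat.one_le_pow _ _ hV).trans (hD d hd)
    have h2 : rk d ^ 8 ≤ Q ^ 8 * d := by
      by_cases h3 : rk d ≤ Q
      · exact (Nat.pow_le_pow_left h3 8).trans (Nat.le_mul_of_pos_right _ hd1)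
      · obtain ⟨e', rfl⟩ : ∃ e', e = 8 + e' := ⟨e - 8, by omega⟩
        have h4 := hR d hd
        rw [pow_add, pow_add, mul_right_comm] at h4
        exact Nat.le_of_mul_le_mul_right (le_trans (Nat.mul_le_mul_left _
          (Nat.pow_le_pow_left (by omega : Q ≤ rk d) e')) h4) (Nat.pow_pos hQ)
    have h3 : (V * rk d ^ 2) ^ 4 ≤ (Q ^ 4 * d) ^ 2 := by
      calc (V * rk d ^ 2) ^ 4 = V ^ 4 * rk d ^ 8 := by ring
        _ ≤ d * (Q ^ 8 * d) := Nat.mul_le_mul (hD d hd) h2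
        _ = (Q ^ 4 * d) ^ 2 := by ring
    have h4 : (V * rk d ^ 2) ^ 2 ≤ Q ^ 4 * d :=
      (Nat.pow_le_pow_iff_left two_ne_zero).mp (by rw [← pow_mul]; exact h3)
    have h5 : ((V : ℝ) * (rk d : ℝ) ^ 2) ^ 2 ≤ ((Q : ℝ) ^ 2 * Real.sqrt d) ^ 2 := by
      rw [mul_pow _ (Real.sqrt d), Real.sq_sqrt (by positivity), ← pow_mul]
      exact_mod_cast h4
    have h6 := (pow_le_pow_iff_left₀ (by positivity) (by positivity) two_ne_zero).mp h5
    have h7 : (0 : ℝ) < rk d := by exact_mod_cast hrk1 d hd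
    have h8 : 0 < Real.sqrt d := Real.sqrt_pos.mpr (by exact_mod_cast hd1)
    rw [div_mul_div_comm, mul_one, div_le_div_iff₀ h8 (by positivity)]
    linarith
  have h2 : ∑ d ∈ D, 1 / (rk d : ℝ) ^ 2 ≤ 2 := by
    rw [← sum_image (f := fun i : ℕ => 1 / (i : ℝ) ^ 2) hinj]
    have h3 : D.image rk ⊆ Ioo 0 (D.card + 1) := fun i hi => by
      obtain ⟨d, hd, rfl⟩ := mem_image.mp hi
      exact mem_Ioo.mpr ⟨hrk1 d hd, Nat.lt_succ_of_le (card_filter_le _ _)⟩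
    refine (sum_le_sum_of_subset_of_nonneg h3 fun _ _ _ => by positivity).trans ?_
    simpa using sum_Ioo_inv_sq_le (α := ℝ) 0 (D.card + 1)
  refine (sum_le_sum h1).trans ?_
  rw [← mul_sum]
  calc _ ≤ (Q : ℝ) ^ 2 / V * 2 := mul_le_mul_of_nonneg_left h2 (by positivity)
    _ = _ := by ring

end Pool.Agent.Lib.MP_a3366f_nt
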