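import Mathlib
import Pool.Agent.Lib.MP_a3366f_nt.An8

/-!
The multi-level family of squarefree numbers.
-/

open Finset

namespace Pool.Agent.Lib.MP_a3366f_nt

theorem exists_big (C : ℕ) : ∃ l₀ : ℕ, ∀ l, l₀ ≤ l → 10 ≤ l ∧ C * l ^ 2 ≤ 2 ^ l := by
  refine ⟨max 10 C, fun l hl => ⟨(le_max_left _ _).trans hl, ?_⟩⟩
  have h1 : ∀ n, 10 ≤ n → n ^ 3 ≤ 2 ^ n := by
    intro n hn
    induction n, hn using Nat.le_induction with
    | base => norm_num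
    | succ n hn ih => rw [pow_succ 2]; nlinarith [Nat.zero_le n, sq_nonneg n]
  calc C * l ^ 2 ≤ l * l ^ 2 := Nat.mul_le_mul_right _ ((le_max_right _ _).trans hl)
    _ = l ^ 3 := by ring
    _ ≤ 2 ^ l := h1 l ((le_max_left _ _).trans hl)

theorem log_two_pow_succ_le (n : ℕ) : Real.log ((2 ^ n + 1 : ℕ) : ℝ) ≤ n + 1 := by
  have h1 : ((2 ^ n + 1 : ℕ) : ℝ) ≤ 2 ^ (n + 1) := by
    have : 2 ^ n + 1 ≤ 2 ^ (n + 1) := by
      have := Nat.one_le_two_pow (n := n)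
      rw [pow_succ]; omega
    exact_mod_cast this
  refine (Real.log_le_log (by positivity) h1).trans ?_
  rw [Real.log_pow]
  have := Real.log_two_lt_d9
  push_cast
  nlinarith [Nat.cast_nonneg (α := ℝ) n]

theorem sum_two_pow_sub (n : ℕ) : ∑ j ∈ range n, 2 ^ (n - j) + 2 = 2 ^ (n + 1) := by
  induction n with
  | zero => simp
  | succ n ih =>
    rw [sum_range_succ']
    simp only [Nat.add_sub_add_right, Nat.sub_zero]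
    rw [pow_succ 2 (n + 1)]; omega

theorem sum_two_pow_succ (n : ℕ) : ∑ j ∈ range n, 2 ^ (j + 1) + 2 = 2 ^ (n + 1) := by
  induction n with
  | zero => simp
  | succ n ih => rw [sum_range_succ, pow_succ 2 (n + 1)]; omega

/-- The lower end of the block of primes at level `j`. -/
def Yv (l j : ℕ) : ℕ := 2 ^ (1638400 * l * 2 ^ j)

theorem Yv_sq (l j : ℕ) : Yv l j ^ 2 = Yv l (j + 1) := by
  rw [Yv, Yv, ← pow_mul]; congr 1; ring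

theorem Yv_mono (l : ℕ) {j j' : ℕ} (h : j ≤ j') : Yv l j ≤ Yv l j' :=
  Nat.pow_le_pow_right two_pos (Nat.mul_le_mul_left _ (Nat.pow_le_pow_right two_pos h))

theorem cube_le_Yv (l j : ℕ) : (2 ^ l) ^ 3 ≤ Yv l j := by
  refine le_trans ?_ (Yv_mono l (Nat.zero_le j))
  rw [Yv, ← pow_mul]
  exact Nat.pow_le_pow_right two_pos (by omega)

theorem moment_level (l j Z : ℕ) (P D : Finset ℕ) (hl : 10 ≤ l) (hY : Yv l j ≤ 2 ^ (2 ^ l) ^ 2)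
    (hP : ∀ p ∈ P, p.Prime ∧ Yv l j ≤ p ∧ p ≤ 2 ^ (2 ^ l) ^ 2) (hZ1 : 1 ≤ Z)
    (hZ : Z ≤ 2 ^ (2 ^ l) ^ 2)
    (hD : ∀ d ∈ D, Squarefree d ∧ d ≤ Z ∧ 1 / ((2 ^ l : ℕ) : ℝ) ≤ |beta P d|) :
    D.card ^ (40960 * 2 ^ j) ≤ ((2 ^ l) ^ 14) ^ (40960 * 2 ^ j) * Z := by
  have hj : 1 ≤ 2 ^ j := Nat.one_le_two_pow
  have hY1 : 8 * ((2 ^ l) ^ 7) ^ (4 * (40960 * 2 ^ j) + 1) ≤ Yv l j := by
    rw [Yv, ← pow_mul, ← pow_mul, show 8 = 2 ^ 3 by norm_num, ← pow_add]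
    exact Nat.pow_le_pow_right two_pos (by nlinarith)
  have hB : 1024 ≤ 2 ^ l := le_trans (by norm_num) (Nat.pow_le_pow_right two_pos hl)
  generalize 2 ^ l = B at *
  have hB' : (1024 : ℝ) ≤ B := by exact_mod_cast hB
  have h := moment_count P D (Yv l j) (2 ^ B ^ 2) Z (B ^ 2) (B ^ 7) (40960 * 2 ^ j) (1 / (B : ℝ))
    (by positivity) (by omega) (le_trans (by omega) (Nat.le_self_pow (by norm_num) B)) hP hY hZ1 hZ
    (by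
      have h1 : lam P ≤ ∑ n ∈ Ico (0 : ℕ) (2 ^ B ^ 2 + 1), (1 : ℝ) / (n : ℝ) :=
        sum_le_sum_of_subset_of_nonneg (fun p hp => by
          have := (hP p hp).2.2
          rw [mem_Ico]; omega) fun _ _ _ => by positivity
      have h2 := sum_inv_Ico_le 0 (2 ^ B ^ 2 + 1)
      have h3 := log_two_pow_succ_le (B ^ 2)
      have h4 : lam P ≤ (B : ℝ) ^ 3 := by
        push_cast at h1 h2 h3
        nlinarith
      push_cast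
      calc lam P * (B : ℝ) ^ 2 ≤ (B : ℝ) ^ 3 * (B : ℝ) ^ 2 := by gcongr
        _ = _ := by field_simp)
    (by
      rw [← pow_mul]
      have h3 := log_two_pow_succ_le (B ^ 2 * B ^ 2)
      have h4 : (1 : ℝ) ≤ (B : ℝ) ^ 4 := one_le_pow₀ (by linarith)
      have h5 : (6 : ℝ) ≤ (B : ℝ) ^ 3 :=
        le_trans (by linarith) (le_self_pow₀ (by linarith : (1 : ℝ) ≤ B) three_ne_zero)
      have h6 := mul_le_mul_of_nonneg_right h5 (by positivity : (0 : ℝ) ≤ (B : ℝ) ^ 4)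
      push_cast at h3 ⊢
      nlinarith) hY1 hD
  rwa [pow_mul (B ^ 7), ← pow_mul B] at h

/-- The properties of the family that are used in the counting arguments. -/
structure Fam (l g g' h₁ h₂ C : ℕ) (P₀ : Finset ℕ) {ι : Type} (F : Finset ι) (U : ι → Finset ℕ)
    (E : ℝ) (Bad : ℕ → Prop) : Prop where
  pos : 0 < E
  prime : ∀ i ∈ F, ∀ p ∈ U i, p.Prime ∧ (p % 8 = g ∨ p % 8 = g') ∧ 7 < p ∧ p ≤ 2 ^ (C * 2 ^ l * l)
  card₁ : ∀ i ∈ F, ((U i).filter (· % 8 = g)).card = h₁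
  card₂ : ∀ i ∈ F, ((U i).filter (· % 8 = g')).card = h₂
  inv : ∀ i ∈ F, ∑ p ∈ U i, (1 : ℝ) / p ≤ 1 / 4
  size : ∀ i ∈ F, ∏ p ∈ U i, p ≤ 2 ^ (C * 2 ^ l * l ^ 2)
  lower : E ≤ 2 * ∑ i ∈ F, ∏ p ∈ U i, (1 : ℝ) / p
  good : ∀ d s : ℕ, s ≠ 0 → s ≤ 2 ^ (2 ^ l) ^ 2 → ¬ Bad d →
    ∑ i ∈ F, ∏ p ∈ U i, (1 + chi (-((d * s ^ 2 : ℕ) : ℤ)) p) / p ≤ C * E
  triv : ∑ i ∈ F, ∏ p ∈ U i, (2 : ℝ) / p ≤ 2 ^ (8 * 2 ^ l) * E
  kill : ∀ d, Squarefree d → Bad d → d ≤ 2 ^ (40 * 2 ^ l) →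
    (3 ≤ d ∨ (d = 1 ∧ g = 3) ∨ (d = 2 ∧ g = 5) ∨ 1 ≤ h₂) →
      ∀ i ∈ F, ∃ p ∈ U i, chi (-(d : ℤ)) p = -1
  large : ∀ D : Finset ℕ, (∀ d ∈ D, Squarefree d ∧ Bad d ∧ 2 ^ (40 * 2 ^ l) < d ∧
    d ≤ 2 ^ (2 ^ l) ^ 2) → ∑ d ∈ D, 1 / Real.sqrt d ≤ 2 * (2 ^ l) ^ 30 / 2 ^ (10 * 2 ^ l)
  sieve : ∀ d, ¬ Bad d → |beta P₀ d| ≤ 1

theorem card_le_of_cover {ι : Type} [Fintype ι] (D : Finset ℕ) (f : ι → ℕ → Prop) (K e R : ℕ)
    (hcov : ∀ d ∈ D, ∃ i, f i d) (hK : Fintype.card ι ≤ K) (he : e ≠ 0)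
    (h : ∀ i (D' : Finset ℕ), D' ⊆ D → (∀ d ∈ D', f i d) → D'.card ^ e ≤ R) :
    D.card ^ e ≤ K ^ e * R := by
  classical
  rcases D.eq_empty_or_nonempty with rfl | ⟨d₀, hd₀⟩
  · simp [he]
  obtain ⟨i₀, -⟩ := hcov d₀ hd₀
  obtain ⟨i, -, hi⟩ := exists_max_image univ (fun i => (D.filter (f i)).card) ⟨i₀, mem_univ _⟩
  have h1 : D.card ≤ K * (D.filter (f i)).card := by
    calc D.card ≤ (univ.biUnion fun i => D.filter (f i)).card := card_le_card fun d hd => by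
          obtain ⟨i, hi⟩ := hcov d hd
          exact mem_biUnion.mpr ⟨i, mem_univ _, mem_filter.mpr ⟨hd, hi⟩⟩
      _ ≤ (univ : Finset ι).card * (D.filter (f i)).card := card_biUnion_le_card_mul _ _ _ hi
      _ ≤ _ := Nat.mul_le_mul_right _ hK
  calc D.card ^ e ≤ (K * (D.filter (f i)).card) ^ e := Nat.pow_le_pow_left h1 e
    _ ≤ K ^ e * R := by
      rw [mul_pow]
      exact Nat.mul_le_mul_left _ (h i _ (filter_subset _ _) fun d hd => (mem_filter.mp hd).2)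

theorem four_fifth_pow_le (k b : ℕ) (h : 4 * k ≤ b) : (4 / 5 : ℝ) ^ b ≤ 1 / 2 ^ k := by
  calc (4 / 5 : ℝ) ^ b ≤ (4 / 5 : ℝ) ^ (4 * k) :=
        pow_le_pow_of_le_one (by norm_num) (by norm_num) h
    _ = ((4 / 5 : ℝ) ^ 4) ^ k := by rw [pow_mul]
    _ ≤ (1 / 2 : ℝ) ^ k := pow_le_pow_left₀ (by norm_num) (by norm_num) k
    _ = 1 / 2 ^ k := by rw [one_div_pow]

end Pool.Agent.Lib.MP_a3366f_nt
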