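import Mathlib
import Pool.Agent.Lib.MP_a3366f_nt.An9

/-!
Construction of the multi-level family.
-/

open Finset

namespace Pool.Agent.Lib.MP_a3366f_nt

theorem aux_size (d M B : ℕ) (hB : 10 ≤ B) (hd : d ≤ 2 ^ (40 * B)) (hM : M ≤ B) :
    289 * (1 + 2 * d) ^ 4 * (8 * d * M) ^ 4 ≤ 2 ^ (400 * B) := by
  have h1 : M ≤ 2 ^ B := hM.trans (Nat.lt_two_pow_self).le
  have h2 : 1 + 2 * d ≤ 2 ^ (40 * B + 2) := by
    have := Nat.one_le_two_pow (n := 40 * B)
    rw [pow_add]; omega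
  have h3 : 8 * d * M ≤ 2 ^ (41 * B + 3) := by
    calc 8 * d * M ≤ 8 * 2 ^ (40 * B) * 2 ^ B := by gcongr
      _ = 2 ^ (41 * B + 3) := by
        rw [show 41 * B + 3 = 3 + 40 * B + B by ring, pow_add, pow_add]; norm_num
  calc _ ≤ 2 ^ 9 * (2 ^ (40 * B + 2)) ^ 4 * (2 ^ (41 * B + 3)) ^ 4 := by gcongr; norm_num
    _ = 2 ^ (9 + (40 * B + 2) * 4 + (41 * B + 3) * 4) := by
        rw [← pow_mul, ← pow_mul, ← pow_add, ← pow_add]
    _ ≤ _ := Nat.pow_le_pow_right two_pos (by omega)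

theorem exists_Lambda : ∃ s₀ C₀ : ℕ, ∀ l, 10 ≤ l → C₀ * l ^ 2 ≤ 2 ^ l → ∀ g : ℕ, (g = 3 ∨ g = 5) →
    ∃ Λ : Finset ℕ, Λ.card ≤ s₀ ∧
      (∀ p ∈ Λ, p.Prime ∧ p % 8 = g ∧ 8 * s₀ + 8 < p ∧ p ≤ Yv l l) ∧
      ∀ d, Squarefree d → 3 ≤ d → d ≤ 2 ^ (40 * 2 ^ l) →
        lam (prCls g (Yv l l) (Yv l (l + 1))) / 2 ≤ beta (prCls g (Yv l l) (Yv l (l + 1))) d →
          ∃ p ∈ Λ, chi (-(d : ℤ)) p = -1 := by
  classical
  obtain ⟨s₀, W₀, hvb⟩ := very_bad_count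
  obtain ⟨Y₀, hlam⟩ := lam_cls_ge
  refine ⟨s₀, (8 * s₀ + 8).factorial + W₀ + Y₀, fun l hl hbig g hg => ?_⟩
  set M := (8 * s₀ + 8).factorial with hM
  have hl2 : 1 ≤ l ^ 2 := Nat.one_le_pow _ _ (by omega)
  have hB : M + W₀ + Y₀ ≤ 2 ^ l := le_trans (Nat.le_mul_of_pos_right _ hl2) hbig
  have hB10 : 10 ≤ 2 ^ l := hl.trans (Nat.lt_two_pow_self).le
  set Pt := prCls g (Yv l l) (Yv l (l + 1)) with hPt
  set V := (Icc 3 (2 ^ (40 * 2 ^ l))).filter fun d => Squarefree d ∧ lam Pt / 2 ≤ beta Pt d with hV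
  have haux : ∀ d, ∃ p, d ∈ V → p.Prime ∧ p % 8 = g ∧ ¬ p ∣ M ∧ chi (-(d : ℤ)) p = -1 ∧
      p ≤ 289 * (1 + 2 * d) ^ 4 * (8 * d * M) ^ 4 := by
    intro d
    by_cases hd : d ∈ V
    · obtain ⟨h1, h2, -⟩ := mem_filter.mp hd
      obtain ⟨p, hp⟩ := exists_aux_prime g d M hg h2 (mem_Icc.mp h1).1 (Nat.factorial_pos _)
      exact ⟨p, fun _ => hp⟩
    · exact ⟨0, fun h => absurd h hd⟩
  choose aux haux using haux
  have hcube : 2 ^ l ≤ Yv l l := (Nat.le_self_pow three_ne_zero _).trans (cube_le_Yv l l)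
  refine ⟨V.image aux, card_image_le.trans ?_, fun p hp => ?_, fun d h1 h2 h3 h4 => ?_⟩
  · refine hvb (2 ^ (32768 * l * 2 ^ l)) (Yv l l) (2 ^ (40 * 2 ^ l)) ?_ ?_ ?_ Nat.one_le_two_pow
      Pt V ?_ ?_ ?_
    · exact le_trans (by omega) ((Nat.lt_two_pow_self (n := 2 ^ l)).le.trans
        (Nat.pow_le_pow_right two_pos (by nlinarith)))
    · calc 400 * (2 ^ (32768 * l * 2 ^ l)) ^ 28 * (2 ^ (40 * 2 ^ l)) ^ 2
          ≤ 2 ^ 9 * (2 ^ (32768 * l * 2 ^ l)) ^ 28 * (2 ^ (40 * 2 ^ l)) ^ 2 := by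
            gcongr; norm_num
        _ = 2 ^ (9 + 32768 * l * 2 ^ l * 28 + 40 * 2 ^ l * 2) := by
            rw [← pow_mul, ← pow_mul, ← pow_add, ← pow_add]
        _ ≤ Yv l l := Nat.pow_le_pow_right two_pos (by nlinarith)
    · rw [Yv, ← pow_mul]
      exact Nat.pow_le_pow_right two_pos (le_of_eq (by ring))
    · rw [hPt, Yv_sq]
      exact fun p hp => mem_prIoc.mpr ⟨(mem_prCls.mp hp).1, (mem_prCls.mp hp).2.1⟩
    · rw [hPt, ← Yv_sq]
      exact hlam g hg _ (by omega)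
    · intro d hd
      obtain ⟨h1, h2, h3⟩ := mem_filter.mp hd
      exact ⟨h2, (mem_Icc.mp h1).2, h3⟩
  · obtain ⟨d, hd, rfl⟩ := mem_image.mp hp
    obtain ⟨h1, h2, h3, -, h5⟩ := haux d hd
    refine ⟨h1, h2, ?_, h5.trans ((aux_size d M (2 ^ l) hB10
      (mem_Icc.mp (mem_filter.mp hd).1).2 (by omega)).trans ?_)⟩
    · by_contra h
      exact h3 ((Nat.Prime.dvd_factorial h1).mpr (by omega))
    · exact Nat.pow_le_pow_right two_pos (by nlinarith)
  · have hd : d ∈ V := mem_filter.mpr ⟨mem_Icc.mpr ⟨h2, h3⟩, h1, h4⟩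
    exact ⟨aux d, mem_image_of_mem _ hd, (haux d hd).2.2.2.1⟩

/-- The number of primes taken from level `j + 1`. -/
def bb (l j : ℕ) : ℕ := 4 * (15 * l + (2 ^ (l - j) / 1024 + 1) + 3)

theorem sum_bb_le (l : ℕ) : 128 * ∑ j ∈ range l, bb l j ≤ 2 ^ l + 10000 * l ^ 2 := by
  have h1 := sum_two_pow_sub l
  have h2 : 256 * ∑ j ∈ range l, bb l j
      ≤ ∑ j ∈ range l, (2 ^ (l - j) + 1024 * (15 * l + 4)) := by
    rw [mul_sum]
    refine sum_le_sum fun j _ => ?_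
    unfold bb
    omega
  rw [sum_add_distrib, sum_const, card_range, smul_eq_mul] at h2
  rw [pow_succ] at h1
  have h3 : l ≤ l ^ 2 := Nat.le_self_pow two_ne_zero l
  have h4 : l * (1024 * (15 * l + 4)) = 15360 * l ^ 2 + 4096 * l := by ring
  omega

theorem sum_pow_bb_le (l : ℕ) (hl : 1 ≤ l) :
    ∑ j ∈ range l, 2 ^ (j + 2) * bb l j ≤ 400 * l * 2 ^ l := by
  have h1 := sum_two_pow_succ l
  have h2 : ∑ j ∈ range l, 2 ^ (j + 2) * bb l j
      ≤ ∑ j ∈ range l, (8 * (15 * l + 4) * 2 ^ (j + 1) + 16 * 2 ^ l) := by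
    refine sum_le_sum fun j hj => ?_
    have h3 : 2 ^ j * 2 ^ (l - j) = 2 ^ l := by
      rw [← pow_add]; congr 1; have := mem_range.mp hj; omega
    have h4 : 2 ^ j * (2 ^ (l - j) / 1024) ≤ 2 ^ l :=
      h3 ▸ Nat.mul_le_mul_left _ (Nat.div_le_self _ _)
    unfold bb
    rw [pow_succ, pow_succ]
    nlinarith
  rw [sum_add_distrib, sum_const, card_range, smul_eq_mul, ← mul_sum] at h2
  rw [pow_succ] at h1
  have h3 : ∑ j ∈ range l, 2 ^ (j + 1) ≤ 2 ^ l * 2 := by omega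
  have h4 := Nat.mul_le_mul_left (8 * (15 * l + 4)) h3
  nlinarith [Nat.zero_le (2 ^ l)]

theorem V_le (l j : ℕ) (hj : j ≤ l) :
    2 ^ (40 * 2 ^ l) ≤ 2 ^ (40960 * 2 ^ j * (2 ^ (l - j) / 1024 + 1)) := by
  refine Nat.pow_le_pow_right two_pos ?_
  have h3 : 2 ^ l = 2 ^ j * 2 ^ (l - j) := by rw [← pow_add]; congr 1; omega
  have h4 : 2 ^ (l - j) ≤ 1024 * (2 ^ (l - j) / 1024 + 1) := by omega
  rw [h3]
  nlinarith [Nat.mul_le_mul_left (2 ^ j) h4]

theorem exists_family : ∃ C l₀ : ℕ, 1 ≤ C ∧ ∀ l, l₀ ≤ l → ∀ g g' h₁ h₂ : ℕ,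
    ((g = 3 ∧ g' = 5) ∨ (g = 5 ∧ g' = 3)) → 2 ^ l ≤ 64 * h₁ → h₁ + h₂ ≤ 8 * 2 ^ l →
    ∀ P₀ : Finset ℕ, (∀ p ∈ P₀, p.Prime ∧ Yv l 0 ≤ p ∧ p ≤ 2 ^ (2 ^ l) ^ 2) →
    ∃ (F : Finset (Option (Fin (l + 1)) → Finset ℕ)) (U : _ → Finset ℕ) (E : ℝ) (Bad : ℕ → Prop),
      Fam l g g' h₁ h₂ C P₀ F U E Bad := by
  classical
  obtain ⟨s₀, C₀, hΛ⟩ := exists_Lambda
  obtain ⟨Y₀, hlam⟩ := lam_cls_ge
  obtain ⟨l₀, hl₀⟩ := exists_big (C₀ + 10000000 + 1000 * s₀ + Y₀)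
  refine ⟨1638400 * (s₀ + 416) + ⌈2 ^ s₀ * Real.exp 288⌉₊, l₀, by omega,
    fun l hl g g' h₁ h₂ hgg hh₁ hh₂ P₀ hP₀ => ?_⟩
  obtain ⟨hl10, hbig⟩ := hl₀ l hl
  have hg : g = 3 ∨ g = 5 := by omega
  have hg' : g' = 3 ∨ g' = 5 := by omega
  have hne : g ≠ g' := by omega
  obtain ⟨Λ, hΛc, hΛp, hΛk⟩ := hΛ l hl10 (le_trans (Nat.mul_le_mul_right _ (by omega)) hbig) g hg
  have hl2 : l ≤ l ^ 2 := Nat.le_self_pow two_ne_zero l
  have hBl : 10000000 * l ^ 2 + 1000 * s₀ + Y₀ ≤ 2 ^ l := by nlinarith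
  have hcube := cube_le_Yv l 0
  have htop : Yv l (l + 1) ≤ 2 ^ (2 ^ l) ^ 2 := by
    refine Nat.pow_le_pow_right two_pos ?_
    rw [pow_succ 2 l, sq (2 ^ l)]
    nlinarith [Nat.zero_le (2 ^ l)]
  have hVZ : 2 ^ (40 * 2 ^ l) ≤ 2 ^ (2 ^ l) ^ 2 :=
    Nat.pow_le_pow_right two_pos (by rw [sq]; exact Nat.mul_le_mul_right _ (by nlinarith))
  have hsb := sum_bb_le l
  have hsp := sum_pow_bb_le l (by omega)
  set B := 2 ^ l with hB
  have hB1 : 1000000000 ≤ B := by nlinarith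
  have hBr : (1000000000 : ℝ) ≤ B := by exact_mod_cast hB1
  have hs₀B : (1000 : ℝ) * s₀ ≤ B := by exact_mod_cast (by omega : 1000 * s₀ ≤ B)
  set Y := Yv l 0 with hY
  have hYr : (B : ℝ) ^ 3 ≤ Y := by exact_mod_cast hcube
  have hBY : B ≤ Y := (Nat.le_self_pow three_ne_zero _).trans hcube
  have hY0 : (0 : ℝ) < Y := by exact_mod_cast (by omega : 0 < Y)
  have hq1 : (B : ℝ) ^ 2 / Y ≤ 1 / B := by
    rw [div_le_div_iff₀ hY0 (by linarith)]; nlinarith
  have hq2 : (B : ℝ) * (1 / Y) ≤ 1 / 1000000000 * (1 / B) := by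
    refine le_trans ?_ (mul_le_mul_of_nonneg_left hq1 (by norm_num))
    rw [mul_one_div, ← mul_div_assoc]
    gcongr
    nlinarith
  have hq3 : 1 / (B : ℝ) ≤ 1 / 1000000000 := one_div_le_one_div_of_le (by norm_num) hBr
  have hq4 : 0 < 1 / (B : ℝ) := by positivity
  -- the blocks
  let Pn : ℕ → Finset ℕ := fun j => prCls g (Yv l j) (Yv l (j + 1)) \ Λ
  let lv : Option (Fin (l + 1)) → ℕ := fun i => i.elim 0 fun j => j
  let cl : Option (Fin (l + 1)) → ℕ := fun i => i.elim g' fun _ => g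
  let P : Option (Fin (l + 1)) → Finset ℕ :=
    fun i => prCls (cl i) (Yv l (lv i)) (Yv l (lv i + 1)) \ Λ
  let b₀ := h₁ - Λ.card - ∑ j ∈ range l, bb l j
  let lev : ℕ → ℕ := fun j => if j = 0 then b₀ else bb l (j - 1)
  let b : Option (Fin (l + 1)) → ℕ := fun i => i.elim h₂ fun j => lev j
  have hb₀ : 4 * (16 * l + (B / 1024 + 1) + 3) ≤ b₀ ∧
      b₀ + Λ.card + ∑ j ∈ range l, bb l j = h₁ := by
    simp only [b₀]; omega
  have hlv : ∀ i, lv i ≤ l := fun i => by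
    cases i with
    | none => exact Nat.zero_le l
    | some j => exact Nat.lt_succ_iff.mp j.2
  have hcl : ∀ i, cl i = 3 ∨ cl i = 5 := fun i => by
    cases i with
    | none => exact hg'
    | some j => exact hg
  have hsumb : ∀ f : ℕ → ℕ, ∑ i, f (lv i) * b i
      = f 0 * h₂ + (f 0 * b₀ + ∑ j ∈ range l, f (j + 1) * bb l j) := by
    intro f
    rw [Fintype.sum_option]
    change f 0 * h₂ + ∑ j : Fin (l + 1), f j * lev j = _
    rw [Fin.sum_univ_eq_sum_range (fun j => f j * lev j), sum_range_succ', add_comm (∑ _ ∈ _, _)]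
    rfl
  have hsumb1 : ∑ i, b i + Λ.card = h₁ + h₂ := by
    have := hsumb fun _ => 1
    simp only [one_mul] at this
    omega
  have hble : ∀ i, b i ≤ 8 * B := fun i =>
    (single_le_sum (f := b) (fun _ _ => Nat.zero_le _) (mem_univ i)).trans (by omega)
  have hPm : ∀ i, ∀ p ∈ P i, p.Prime ∧ Yv l (lv i) < p ∧ p ≤ Yv l (lv i + 1) ∧ p % 8 = cl i ∧
      p ∉ Λ := fun i p hp => by
    obtain ⟨h1, h2⟩ := mem_sdiff.mp hp
    obtain ⟨⟨h3, h4⟩, h5, h6⟩ := mem_prCls.mp h1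
    exact ⟨h5, h3, h4, h6, h2⟩
  have hPY : ∀ i, ∀ p ∈ P i, p.Prime ∧ Y ≤ p := fun i p hp =>
    ⟨(hPm i p hp).1, (Yv_mono l (Nat.zero_le _)).trans (hPm i p hp).2.1.le⟩
  have hPZ : ∀ i, ∀ p ∈ P i, p ≤ Yv l (l + 1) := fun i p hp =>
    (hPm i p hp).2.2.1.trans (Yv_mono l (Nat.succ_le_succ (hlv i)))
  have hinvY : ∀ i, ∀ p ∈ P i, (1 : ℝ) / p ≤ 1 / Y := fun i p hp =>
    one_div_le_one_div_of_le hY0 (by exact_mod_cast (hPY i p hp).2)
  have hlamP : ∀ i, 1 / 11 ≤ lam (P i) := by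
    intro i
    have h1 := hlam (cl i) (hcl i) (Yv l (lv i))
      (le_trans (by omega) (Yv_mono l (Nat.zero_le _) : Y ≤ _))
    rw [Yv_sq] at h1
    have h2 : lam (P i) + ∑ p ∈ prCls (cl i) (Yv l (lv i)) (Yv l (lv i + 1)) ∩ Λ, (1 : ℝ) / p
        = lam (prCls (cl i) (Yv l (lv i)) (Yv l (lv i + 1))) := by
      rw [lam, lam, add_comm]; exact sum_inter_add_sum_sdiff _ _ _
    have h3 : ∑ p ∈ prCls (cl i) (Yv l (lv i)) (Yv l (lv i + 1)) ∩ Λ, (1 : ℝ) / p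
        ≤ s₀ * (1 / Y) := by
      refine (sum_le_card_nsmul _ _ (1 / (Y : ℝ)) fun p hp => one_div_le_one_div_of_le hY0 ?_).trans
        ?_
      · exact_mod_cast (Yv_mono l (Nat.zero_le _)).trans
          (mem_prCls.mp (mem_inter.mp hp).1).1.1.le
      · rw [nsmul_eq_mul]
        gcongr
        exact (card_le_card inter_subset_right).trans hΛc
    have h4 : (s₀ : ℝ) * (1 / Y) ≤ B * (1 / Y) := by gcongr; linarith
    linarith
  let L : Option (Fin (l + 1)) → ℝ := fun i => lam (P i) - (8 * B : ℕ) * (1 / Y)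
  have hL8 : ((8 * B : ℕ) : ℝ) * (1 / Y) ≤ 8 / 1000000000 * (1 / B) := by push_cast; linarith
  have hL12 : ∀ i, 1 / 12 ≤ L i := fun i => by simp only [L]; linarith [hlamP i]
  have hLe : ∀ i, L i ^ b i / (b i).factorial ≤ esym (P i) (fun p => 1 / p) (b i) := fun i =>
    le_esym (P i) _ (1 / Y) (fun p hp => ⟨by positivity, hinvY i p hp⟩) (by positivity) (L i)
      (by linarith [hL12 i]) (8 * B) (by simp only [L, lam]; linarith) _ (hble i)
  have hdisj : ∀ i i', i ≠ i' → Disjoint (P i) (P i') := by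
    intro i i' hii
    rw [disjoint_left]
    intro p hp hp'
    obtain ⟨-, a1, a2, a3, -⟩ := hPm i p hp
    obtain ⟨-, a4, a5, a6, -⟩ := hPm i' p hp'
    have h1 : lv i = lv i' := by
      by_contra h
      rcases Nat.lt_or_gt_of_ne h with h | h
      · have : Yv l (lv i + 1) ≤ Yv l (lv i') := Yv_mono l h
        omega
      · have : Yv l (lv i' + 1) ≤ Yv l (lv i) := Yv_mono l h
        omega
    cases i with
    | none => cases i' with
      | none => exact hii rfl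
      | some j' => exact hne (a6.symm.trans a3)
    | some j => cases i' with
      | none => exact hne (a3.symm.trans a6)
      | some j' => exact hii (congrArg some (Fin.ext h1))
  -- bad kernels
  let PP : Option (Option (Fin (l + 1))) → Finset ℕ := fun i => i.elim P₀ P
  let Bad : ℕ → Prop := fun d => ∃ i, 1 / ((B : ℕ) : ℝ) ≤ |beta (PP i) d|
  have hbad : ∀ (D : Finset ℕ) (Z : ℕ), 1 ≤ Z → Z ≤ 2 ^ B ^ 2 →
      (∀ d ∈ D, Squarefree d ∧ d ≤ Z ∧ Bad d) → D.card ^ 40960 ≤ (B ^ 15) ^ 40960 * Z := by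
    intro D Z hZ1 hZ hD
    have h := card_le_of_cover D (fun i d => 1 / ((B : ℕ) : ℝ) ≤ |beta (PP i) d|) B 40960
      ((B ^ 14) ^ 40960 * Z) (fun d hd => (hD d hd).2.2) (by simp; omega) (by norm_num)
      (fun i D' h1 h2 => by
        have := moment_level l 0 Z (PP i) D' hl10 ((Yv_mono l (Nat.zero_le _)).trans htop)
          (fun p hp => by
            cases i with
            | none => exact hP₀ p hp
            | some i => exact ⟨(hPY i p hp).1, (hPY i p hp).2, (hPZ i p hp).trans htop⟩) hZ1 hZ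
          fun d hd => ⟨(hD d (h1 hd)).1, (hD d (h1 hd)).2.1, h2 d hd⟩
        simpa only [pow_zero, mul_one] using this)
    rwa [← mul_assoc, ← mul_pow, ← pow_succ'] at h
  let D := (Icc 3 (2 ^ (40 * B))).filter fun d => Squarefree d ∧ Bad d ∧
    ¬ ∃ p ∈ Λ, chi (-(d : ℤ)) p = -1
  have hsl : ∀ d, ∃ j : Fin (l + 1), d ∈ D → beta (Pn j) d < lam (Pn j) / 2 ∧
      ∀ j' < (j : ℕ), lam (Pn j') / 2 ≤ beta (Pn j') d := by
    intro d
    by_cases hd : d ∈ D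
    · obtain ⟨h1, h2, -, h4⟩ := mem_filter.mp hd
      have h5 : Pn l = prCls g (Yv l l) (Yv l (l + 1)) :=
        sdiff_eq_self_of_disjoint (disjoint_left.mpr fun p hp hp' => by
          have := (mem_prCls.mp hp).1.1
          have := (hΛp p hp').2.2.2
          omega)
      have h6 : beta (Pn l) d < lam (Pn l) / 2 := by
        rw [h5]
        by_contra h
        exact h4 (hΛk d h2 (mem_Icc.mp h1).1 (mem_Icc.mp h1).2 (not_lt.mp h))
      have hex : ∃ j, beta (Pn j) d < lam (Pn j) / 2 := ⟨l, h6⟩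
      exact ⟨⟨Nat.find hex, Nat.lt_succ_of_le (Nat.find_min' hex h6)⟩, fun _ =>
        ⟨Nat.find_spec hex, fun j' hj' => not_lt.mp (Nat.find_min hex hj')⟩⟩
    · exact ⟨0, fun h => absurd h hd⟩
  choose sl hsl using hsl
  have h45 : ∀ d ∈ D, ∑ p ∈ P (some (sl d)),
      (if chi (-(d : ℤ)) p = -1 then 0 else (1 : ℝ) / p) ≤ 4 / 5 * L (some (sl d)) := by
    intro d hd
    obtain ⟨h1, h2, -⟩ := mem_filter.mp hd
    have h3 := sum_noninert_le (P (some (sl d))) Y (by omega) (hPY _) d (40 * B) h2.ne_zero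
      (mem_Icc.mp h1).2
    have h4 : beta (P (some (sl d))) d < lam (P (some (sl d))) / 2 := (hsl d hd).1
    have h5 := hlamP (some (sl d))
    have h6 : ((40 * B : ℕ) : ℝ) / Y = 40 * (B * (1 / Y)) := by push_cast; ring
    simp only [L]
    linarith
  have hsum : ∑ d ∈ D, (4 / 5 : ℝ) ^ b (some (sl d)) ≤ 1 / 2 := by
    rw [← sum_fiberwise_of_maps_to (g := sl) (t := univ) fun _ _ => mem_univ _]
    have h1 : ∀ j : Fin (l + 1), ∑ d ∈ D.filter (sl · = j), (4 / 5 : ℝ) ^ b (some (sl d))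
        ≤ 1 / 2 ^ (l + 3) := by
      intro j
      rw [sum_congr rfl (g := fun _ => (4 / 5 : ℝ) ^ lev j) fun d hd => by
        rw [(mem_filter.mp hd).2]; rfl, sum_const, nsmul_eq_mul]
      have hDm : ∀ d ∈ D.filter (sl · = j), Squarefree d ∧ d ≤ 2 ^ (40 * B) ∧ Bad d := fun d hd =>
        ⟨(mem_filter.mp (mem_filter.mp hd).1).2.1,
          (mem_Icc.mp (mem_filter.mp (mem_filter.mp hd).1).1).2,
          (mem_filter.mp (mem_filter.mp hd).1).2.2.1⟩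
      obtain ⟨k, hk1, hk2⟩ : ∃ k, (D.filter (sl · = j)).card ≤ 2 ^ k ∧ 4 * (k + (l + 3)) ≤ lev j := by
        rcases Nat.eq_zero_or_pos j with h0 | h0
        · refine ⟨l * 15 + (B / 1024 + 1), ?_, by simp only [lev, if_pos h0]; omega⟩
          rw [pow_add, pow_mul]
          exact count_of_moment (by norm_num) (hbad _ _ Nat.one_le_two_pow hVZ hDm)
            (by simpa only [pow_zero, mul_one, Nat.sub_zero] using V_le l 0 (Nat.zero_le l))
        · have hj : (j : ℕ) - 1 < l + 1 := by omega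
          refine ⟨l * 14 + (2 ^ (l - (j - 1)) / 1024 + 1), ?_,
            by simp only [lev, if_neg h0.ne', bb]; omega⟩
          rw [pow_add, pow_mul]
          refine count_of_moment (Nat.mul_pos (by norm_num) Nat.one_le_two_pow)
            (moment_level l (j - 1) _ (P (some ⟨j - 1, hj⟩)) _ hl10
              ((Yv_mono l hj.le).trans htop) (fun p hp => ⟨(hPm _ p hp).1, (hPm _ p hp).2.1.le,
                (hPZ _ p hp).trans htop⟩) Nat.one_le_two_pow hVZ fun d hd =>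
                  ⟨(hDm d hd).1, (hDm d hd).2.1, ?_⟩) (V_le l _ (by omega))
          have h2 : lam (P (some ⟨j - 1, hj⟩)) / 2 ≤ beta (P (some ⟨j - 1, hj⟩)) d :=
            (hsl d (mem_filter.mp hd).1).2 (j - 1) (by rw [(mem_filter.mp hd).2]; omega)
          have h3 := hlamP (some ⟨j - 1, hj⟩)
          exact le_trans (by linarith) (le_abs_self _)
      have h2 := four_fifth_pow_le _ _ hk2
      have h3 : ((D.filter (sl · = j)).card : ℝ) ≤ 2 ^ k := by exact_mod_cast hk1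
      calc _ ≤ (2 : ℝ) ^ k * (1 / 2 ^ (k + (l + 3))) := by gcongr
        _ = _ := by rw [pow_add]; field_simp
    refine (sum_le_sum fun j _ => h1 j).trans ?_
    have h2 : ((l + 1 : ℕ) : ℝ) ≤ 2 ^ l := by exact_mod_cast Nat.lt_two_pow_self
    rw [sum_const, card_univ, Fintype.card_fin, nsmul_eq_mul, pow_add, mul_one_div,
      div_le_iff₀ (by positivity)]
    linarith [pow_pos (two_pos (α := ℝ)) l]
  have hfam := slot_family P b L hLe D (fun d => some (sl d)) h45 hsum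
  set F := (choices P b).filter
    (fun S => ∀ d ∈ D, ∃ p ∈ S (some (sl d)), chi (-(d : ℤ)) p = -1) with hF
  let U : (Option (Fin (l + 1)) → Finset ℕ) → Finset ℕ := fun S => Λ ∪ univ.biUnion S
  have hSm : ∀ S ∈ F, ∀ i, S i ⊆ P i ∧ (S i).card = b i := fun S hS =>
    mem_choices.mp (mem_filter.mp hS).1
  have hd1 : ∀ S ∈ F, Disjoint Λ (univ.biUnion S) := fun S hS =>
    disjoint_left.mpr fun p hp hp' => by
      obtain ⟨i, -, hi⟩ := mem_biUnion.mp hp'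
      exact (hPm i p ((hSm S hS i).1 hi)).2.2.2.2 hp
  have hd2 : ∀ S ∈ F, Set.PairwiseDisjoint
      ((univ : Finset (Option (Fin (l + 1)))) : Set _) S := fun S hS i _ i' _ h =>
    (hdisj i i' h).mono (hSm S hS i).1 (hSm S hS i').1
  have hprodR : ∀ (f : ℕ → ℝ), ∀ S ∈ F,
      ∏ p ∈ U S, f p = (∏ p ∈ Λ, f p) * ∏ i, ∏ p ∈ S i, f p := fun f S hS => by
    rw [prod_union (hd1 S hS), prod_biUnion (hd2 S hS)]
  have hsumN : ∀ (f : ℕ → ℕ), ∀ S ∈ F,
      ∑ p ∈ U S, f p = ∑ p ∈ Λ, f p + ∑ i, ∑ p ∈ S i, f p := fun f S hS => by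
    rw [sum_union (hd1 S hS), sum_biUnion (hd2 S hS)]
  have hUm : ∀ S ∈ F, ∀ p ∈ U S, p ∈ Λ ∨ ∃ i, p ∈ P i := fun S hS p hp =>
    (mem_union.mp hp).imp_right fun h => by
      obtain ⟨i, -, hi⟩ := mem_biUnion.mp h
      exact ⟨i, (hSm S hS i).1 hi⟩
  have hcnt : ∀ c, ∀ S ∈ F, ((U S).filter (· % 8 = c)).card
      = (if g = c then h₁ else 0) + if g' = c then h₂ else 0 := by
    intro c S hS
    rw [card_filter, hsumN _ S hS, sum_congr rfl (g := fun _ => if g = c then 1 else 0)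
      fun p hp => by rw [(hΛp p hp).2.1],
      sum_congr rfl (g := fun i => b i * if cl i = c then 1 else 0) fun i _ => by
        rw [sum_congr rfl (g := fun _ => if cl i = c then 1 else 0) fun p hp => by
          rw [(hPm i p ((hSm S hS i).1 hp)).2.2.2.1], sum_const, (hSm S hS i).2, smul_eq_mul],
      Fintype.sum_option]
    rw [Fintype.sum_option] at hsumb1
    have h0 : b none = h₂ := rfl
    have h1 : cl none = g' := rfl
    have h2 : ∀ j, cl (some j) = g := fun _ => rfl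
    simp only [h1, h2, sum_const, smul_eq_mul]
    rw [← sum_mul]
    split_ifs <;> omega
  have hwt : ∀ (w : ℕ → ℝ) (r : ℝ), 1 ≤ r → (∀ p, 0 ≤ w p ∧ w p ≤ 2 / p) →
      (∀ i, esym (P i) w (b i) ≤ r ^ b i * esym (P i) (fun p => 1 / p) (b i)) →
      ∑ S ∈ F, ∏ p ∈ U S, w p ≤ 2 ^ Λ.card * r ^ (∑ i, b i) *
        ((∏ p ∈ Λ, (1 : ℝ) / p) * ∏ i, esym (P i) (fun p => 1 / p) (b i)) := by
    intro w r hr hw he
    rw [sum_congr rfl (hprodR w), ← mul_sum]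
    have h1 : ∑ S ∈ F, ∏ i, ∏ p ∈ S i, w p
        ≤ r ^ (∑ i, b i) * ∏ i, esym (P i) (fun p => 1 / p) (b i) := by
      refine (sum_le_sum_of_subset_of_nonneg (filter_subset _ _) fun S _ _ =>
        prod_nonneg fun i _ => prod_nonneg fun p _ => (hw p).1).trans ?_
      rw [sum_choices P b fun _ => w, ← prod_pow_eq_pow_sum, ← prod_mul_distrib]
      exact prod_le_prod (fun i _ => esym_nonneg _ _ (fun p _ => (hw p).1) _) fun i _ => he i
    have h2 : ∏ p ∈ Λ, w p ≤ 2 ^ Λ.card * ∏ p ∈ Λ, (1 : ℝ) / p := by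
      rw [← prod_const, ← prod_mul_distrib]
      exact prod_le_prod (fun p _ => (hw p).1) fun p _ => (hw p).2.trans (le_of_eq (by ring))
    calc _ ≤ (2 ^ Λ.card * ∏ p ∈ Λ, (1 : ℝ) / p) *
          (r ^ (∑ i, b i) * ∏ i, esym (P i) (fun p => 1 / p) (b i)) :=
          mul_le_mul h2 h1 (sum_nonneg fun S _ => prod_nonneg fun i _ =>
            prod_nonneg fun p _ => (hw p).1) (by positivity)
      _ = _ := by ring
  have hΛ0 : 0 < ∏ p ∈ Λ, (1 : ℝ) / p := prod_pos fun p hp => by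
    have := (hΛp p hp).1.pos; positivity
  have hE0 : 0 < (∏ p ∈ Λ, (1 : ℝ) / p) * ∏ i, esym (P i) (fun p => 1 / p) (b i) :=
    mul_pos hΛ0 (prod_pos fun i _ => lt_of_lt_of_le (by have := hL12 i; positivity) (hLe i))
  refine ⟨F, U, (∏ p ∈ Λ, (1 : ℝ) / p) * ∏ i, esym (P i) (fun p => 1 / p) (b i), Bad,
    hE0, fun S hS p hp => ?_, fun S hS => ?_, fun S hS => ?_, fun S hS => ?_, fun S hS => ?_, ?_,
    fun d s hs hsZ hd => ?_, ?_, fun d hd1 hd2 hd3 hd4 S hS => ?_, fun D' hD' => ?_,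
    fun d hd => ?_⟩
  · have h1 : Yv l (l + 1) ≤ 2 ^ ((1638400 * (s₀ + 416) + ⌈2 ^ s₀ * Real.exp 288⌉₊) * B * l) := by
      refine Nat.pow_le_pow_right two_pos ?_
      rw [pow_succ 2 l, ← hB]
      nlinarith [Nat.zero_le (s₀ * B * l), Nat.zero_le (⌈2 ^ s₀ * Real.exp 288⌉₊ * B * l),
        Nat.zero_le (B * l)]
    rcases hUm S hS p hp with h | ⟨i, h⟩
    · obtain ⟨a1, a2, a3, a4⟩ := hΛp p h
      exact ⟨a1, Or.inl a2, by omega, (a4.trans (Yv_mono l (Nat.le_succ l))).trans h1⟩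
    · refine ⟨(hPm i p h).1, ?_, by have := (hPY i p h).2; omega, (hPZ i p h).trans h1⟩
      rw [(hPm i p h).2.2.2.1]
      cases i with
      | none => exact Or.inr rfl
      | some j => exact Or.inl rfl
  · rw [hcnt g S hS, if_pos rfl, if_neg hne.symm, add_zero]
  · rw [hcnt g' S hS, if_pos rfl, if_neg hne, zero_add]
  · rw [sum_union (hd1 S hS), sum_biUnion (hd2 S hS)]
    have h1 : ∑ p ∈ Λ, (1 : ℝ) / p ≤ 1 / 8 := by
      refine (sum_le_card_nsmul _ _ (1 / (8 * s₀ + 8 : ℝ)) fun p hp =>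
        one_div_le_one_div_of_le (by positivity) (by exact_mod_cast (hΛp p hp).2.2.1.le)).trans ?_
      have : (Λ.card : ℝ) ≤ s₀ := by exact_mod_cast hΛc
      rw [nsmul_eq_mul, mul_one_div, div_le_iff₀ (by positivity)]
      linarith
    have h2 : ∑ i, ∑ p ∈ S i, (1 : ℝ) / p ≤ ∑ i, (b i : ℝ) * (1 / Y) := sum_le_sum fun i _ => by
      refine (sum_le_card_nsmul _ _ _ fun p hp => hinvY i p ((hSm S hS i).1 hp)).trans ?_
      rw [(hSm S hS i).2, nsmul_eq_mul]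
    rw [← sum_mul, ← Nat.cast_sum] at h2
    have h3 : ((∑ i, b i : ℕ) : ℝ) * (1 / Y) ≤ ((8 * B : ℕ) : ℝ) * (1 / Y) := by
      gcongr; omega
    linarith
  · rw [prod_union (hd1 S hS), prod_biUnion (hd2 S hS)]
    have h1 : ∏ p ∈ Λ, p ≤ 2 ^ (1638400 * l * B * s₀) := by
      refine (prod_le_pow_card _ _ (Yv l l) fun p hp => (hΛp p hp).2.2.2).trans ?_
      rw [pow_mul]
      exact Nat.pow_le_pow_right (Nat.two_pow_pos _) hΛc
    have h2 : ∏ i, ∏ p ∈ S i, p ≤ 2 ^ (1638400 * l * ∑ i, 2 ^ (lv i + 1) * b i) := by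
      rw [mul_sum, ← prod_pow_eq_pow_sum]
      refine prod_le_prod' fun i _ => (prod_le_pow_card _ _ (Yv l (lv i + 1)) fun p hp =>
        (hPm i p ((hSm S hS i).1 hp)).2.2.1).trans (le_of_eq ?_)
      rw [(hSm S hS i).2, Yv, ← pow_mul, mul_assoc]
    refine (Nat.mul_le_mul h1 h2).trans ?_
    rw [← pow_add]
    refine Nat.pow_le_pow_right two_pos ?_
    have h3 : ∑ i, 2 ^ (lv i + 1) * b i ≤ 416 * l * B := by
      rw [hsumb fun j => 2 ^ (j + 1)]
      have : B ≤ l * B := Nat.le_mul_of_pos_left _ (by omega)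
      change 2 ^ 1 * h₂ + (2 ^ 1 * b₀ + ∑ j ∈ range l, 2 ^ (j + 2) * bb l j) ≤ _
      have h8 : 416 * l * B = 400 * l * B + 16 * (l * B) := by ring
      omega
    have h4 := Nat.mul_le_mul_left (1638400 * l) h3
    have h5 : 1638400 * B * s₀ * l ≤ 1638400 * B * s₀ * l ^ 2 := Nat.mul_le_mul_left _ hl2
    change _ ≤ (1638400 * (s₀ + 416) + ⌈2 ^ s₀ * Real.exp 288⌉₊) * B * l ^ 2
    generalize ⌈2 ^ s₀ * Real.exp 288⌉₊ = c₁
    generalize ∑ i, 2 ^ (lv i + 1) * b i = c₂ at h4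
    nlinarith [Nat.zero_le (c₁ * B * l ^ 2)]
  · rw [sum_congr rfl (hprodR _), ← mul_sum]
    have := mul_le_mul_of_nonneg_left hfam hΛ0.le
    linarith
  · have hw : ∀ p : ℕ, 0 ≤ (1 + chi (-((d * s ^ 2 : ℕ) : ℤ)) p) / (p : ℝ) ∧
        (1 + chi (-((d * s ^ 2 : ℕ) : ℤ)) p) / (p : ℝ) ≤ 2 / p := fun p =>
      ⟨div_nonneg (by linarith [neg_one_le_chi (-((d * s ^ 2 : ℕ) : ℤ)) p]) (by positivity),
        div_le_div_of_nonneg_right (by linarith [chi_le_one (-((d * s ^ 2 : ℕ) : ℤ)) p])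
          (by positivity)⟩
    refine (hwt _ (1 + 36 * (1 / B)) (by linarith) hw fun i => ?_).trans
      (mul_le_mul_of_nonneg_right ?_ hE0.le)
    · have h1 := sum_rho_le (P i) Y (by omega) (hPY i) d s (B ^ 2) hs hsZ
      have h2 : beta (P i) d ≤ 1 / B :=
        (le_abs_self _).trans (not_le.mp fun h => hd ⟨some i, h⟩).le
      have h3 : lam (P i) = L i + (8 * B : ℕ) * (1 / Y) := by simp only [L]; ring
      have h4 := mul_le_mul_of_nonneg_left (hL12 i) hq4.le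
      refine (esym_le _ _ (fun p _ => (hw p).1) ((1 + 36 * (1 / B)) * L i)
        (by push_cast at h1 h3 hL8 ⊢; linarith) _).trans ?_
      rw [mul_pow, mul_div_assoc]
      exact mul_le_mul_of_nonneg_left (hLe i) (by positivity)
    · have h1 : (1 + 36 * (1 / (B : ℝ))) ^ (∑ i, b i) ≤ Real.exp 288 := by
        calc _ ≤ (1 + 36 * (1 / (B : ℝ))) ^ (8 * B) :=
              pow_le_pow_right₀ (by linarith) (by omega)
          _ ≤ Real.exp (36 * (1 / (B : ℝ))) ^ (8 * B) :=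
              pow_le_pow_left₀ (by positivity) (by rw [add_comm]; exact Real.add_one_le_exp _) _
          _ = Real.exp 288 := by
              rw [← Real.exp_nat_mul]; congr 1; push_cast; field_simp; norm_num
      have h2 : (2 : ℝ) ^ Λ.card ≤ 2 ^ s₀ := pow_le_pow_right₀ one_le_two hΛc
      have h3 := Nat.le_ceil (2 ^ s₀ * Real.exp 288)
      calc _ ≤ 2 ^ s₀ * Real.exp 288 := by gcongr
        _ ≤ _ := by push_cast; linarith [(by positivity : (0 : ℝ) ≤ 1638400 * (s₀ + 416))]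
  · refine (hwt (fun p => 2 / p) 2 one_le_two (fun p => ⟨by positivity, le_rfl⟩)
      fun i => le_of_eq ?_).trans (mul_le_mul_of_nonneg_right ?_ hE0.le)
    · rw [esym, esym, mul_sum]
      refine sum_congr rfl fun S hS => ?_
      rw [← (mem_powersetCard.mp hS).2, ← prod_const, ← prod_mul_distrib]
      exact prod_congr rfl fun p _ => by ring
    · rw [← pow_add]
      exact pow_le_pow_right₀ one_le_two (by omega)
  · by_cases h3 : 3 ≤ d
    · by_cases h : ∃ p ∈ Λ, chi (-(d : ℤ)) p = -1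
      · obtain ⟨p, h1, h2⟩ := h
        exact ⟨p, mem_union_left _ h1, h2⟩
      · obtain ⟨p, h1, h2⟩ := (mem_filter.mp hS).2 d
          (mem_filter.mpr ⟨mem_Icc.mpr ⟨h3, hd3⟩, hd1, hd2, h⟩)
        exact ⟨p, mem_union_right _ (mem_biUnion.mpr ⟨_, mem_univ _, h1⟩), h2⟩
    · have hd0 := hd1.ne_zero
      obtain ⟨c, hc1, hc2⟩ : ∃ c, (d = 1 ∧ c = 3 ∨ d = 2 ∧ c = 5) ∧
          0 < ((U S).filter (· % 8 = c)).card := by
        refine ⟨if d = 1 then 3 else 5, by split_ifs <;> omega, ?_⟩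
        rw [hcnt _ S hS]
        split_ifs <;> omega
      obtain ⟨p, hp⟩ := card_pos.mp hc2
      obtain ⟨h1, h2⟩ := mem_filter.mp hp
      refine ⟨p, h1, ?_⟩
      rcases hc1 with ⟨rfl, rfl⟩ | ⟨rfl, rfl⟩
      · rw [Nat.cast_one, chi_neg_one, if_neg (by omega), if_neg (by omega)]
      · rw [Nat.cast_ofNat, chi_neg_two, if_neg (by omega), if_neg (by omega)]
  · have h := sum_inv_sqrt_le D' (B ^ 15) (2 ^ (10 * B)) 40960 (by norm_num)
      (Nat.one_le_pow _ _ (by omega)) Nat.one_le_two_pow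
      (fun d hd => by
        rw [← pow_mul, show 10 * B * 4 = 40 * B by ring]; exact (hD' d hd).2.2.1.le)
      fun d hd => hbad _ d (Nat.pos_of_ne_zero (hD' d hd).1.ne_zero) (hD' d hd).2.2.2
        fun d' hd' => ⟨(hD' d' (mem_filter.mp hd').1).1, (mem_filter.mp hd').2,
          (hD' d' (mem_filter.mp hd').1).2.1⟩
    refine h.trans (le_of_eq ?_)
    rw [hB]
    push_cast
    rw [← pow_mul ((2 : ℝ) ^ l)]
  · have h1 : |beta P₀ d| < 1 / B := not_le.mp fun h => hd ⟨none, h⟩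
    linarith

end Pool.Agent.Lib.MP_a3366f_nt
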