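import Mathlib
import Pool.Agent.Lib.MP_a3366f_nt.An10

/-!
Counting values of `a + 2 ^ j * k ^ 2` with prescribed prime divisors.
-/

open Finset

namespace Pool.Agent.Lib.MP_a3366f_nt

theorem root_count (p : ℕ) (hp : p.Prime) (hp2 : p ≠ 2) (a : ℤ) (j : ℕ) :
    ∑ k ∈ range p, (if (p : ℤ) ∣ a + 2 ^ j * (k : ℤ) ^ 2 then (1 : ℝ) else 0)
      = 1 + chi (-(2 ^ j * a)) p := by
  have := Fact.mk hp
  have h2 : (2 : ZMod p) ^ j ≠ 0 := pow_ne_zero _ (by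
    have := (ZMod.natCast_eq_zero_iff 2 p).not.mpr fun h =>
      hp2 ((Nat.prime_dvd_prime_iff_eq hp Nat.prime_two).mp h)
    exact_mod_cast this)
  have h1 := legendreSym.card_sqrts p hp2 (-(2 ^ j * a))
  rw [chi_of_odd _ (hp.odd_of_ne_two hp2), ← jacobiSym.legendreSym.to_jacobiSym, add_comm,
    sum_boole]
  have h3 : ((range p).filter fun k : ℕ => (p : ℤ) ∣ a + 2 ^ j * (k : ℤ) ^ 2).card
      = {x : ZMod p | x ^ 2 = ((-(2 ^ j * a) : ℤ) : ZMod p)}.toFinset.card := by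
    refine card_bij (fun k _ => 2 ^ j * (k : ZMod p)) (fun k hk => ?_) (fun k hk k' hk' h => ?_)
      fun x hx => ?_
    · have := (ZMod.intCast_zmod_eq_zero_iff_dvd _ p).mpr (mem_filter.mp hk).2
      simp only [Set.mem_toFinset, Set.mem_ofPred_eq]
      push_cast at this ⊢
      linear_combination 2 ^ j * this
    · have h4 := (ZMod.natCast_eq_natCast_iff' k k' p).mp (mul_left_cancel₀ h2 h)
      rwa [Nat.mod_eq_of_lt (mem_range.mp (mem_filter.mp hk).1),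
        Nat.mod_eq_of_lt (mem_range.mp (mem_filter.mp hk').1)] at h4
    · simp only [Set.mem_toFinset, Set.mem_ofPred_eq] at hx
      refine ⟨(x / 2 ^ j).val, mem_filter.mpr ⟨mem_range.mpr (ZMod.val_lt _), ?_⟩, ?_⟩
      · rw [← ZMod.intCast_zmod_eq_zero_iff_dvd]
        push_cast at hx ⊢
        rw [ZMod.natCast_zmod_val]
        field_simp
        linear_combination hx
      · rw [ZMod.natCast_zmod_val]; field_simp
  rw [h3]
  exact_mod_cast h1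

theorem one_le_selG (Q : Finset ℕ) (z : ℕ) (g : ℕ → ℝ) (hz : 1 ≤ z)
    (hg : ∀ p ∈ Q, 0 ≤ g p ∧ g p ≤ 1 / 2) : 1 ≤ selG Q z g := by
  have h1 : (∅ : Finset ℕ) ∈ sieveSet Q z := by
    simpa only [sieveSet, mem_filter, empty_mem_powerset, prod_empty, true_and] using hz
  have := single_le_sum (f := fun e => ∏ p ∈ e, g p / (1 - g p)) (fun e he =>
    prod_nonneg fun p hp => by
      have := hg p (mem_powerset.mp (mem_filter.mp he).1 hp)
      exact div_nonneg this.1 (by linarith [this.2])) h1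
  rwa [prod_empty] at this

theorem rho_bounds (a : ℤ) (p : ℕ) :
    0 ≤ (1 + chi a p) / (p : ℝ) ∧ (1 + chi a p) / (p : ℝ) ≤ 2 / p :=
  ⟨div_nonneg (by linarith [neg_one_le_chi a p]) (by positivity),
    div_le_div_of_nonneg_right (by linarith [chi_le_one a p]) (by positivity)⟩

theorem cnt_sieve (U Q T : Finset ℕ) (z K j : ℕ) (a : ℤ) (G : ℝ) (hG0 : 0 < G) (hz : 1 ≤ z)
    (hU : ∀ p ∈ U, p.Prime ∧ 7 < p) (hQ : ∀ p ∈ Q, p.Prime ∧ 7 < p) (hd : Disjoint U Q)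
    (hG : G ≤ selG Q z fun p => (1 + chi (-(2 ^ j * a)) p) / p)
    (hT : ∀ k ∈ T, 1 ≤ k ∧ k ≤ K ∧ (∀ p ∈ U, (p : ℤ) ∣ a + 2 ^ j * (k : ℤ) ^ 2) ∧
      ∀ p ∈ Q, ¬ (p : ℤ) ∣ a + 2 ^ j * (k : ℤ) ^ 2) :
    (T.card : ℝ) ≤ (∏ p ∈ U, (1 + chi (-(2 ^ j * a)) p) / p) * K / G
      + 2 * (z : ℝ) ^ 4 * (∏ p ∈ U, p : ℕ) := by
  set g : ℕ → ℝ := fun p => (1 + chi (-(2 ^ j * a)) p) / p with hg
  set I : ℕ → ℕ → ℝ := fun p k => if (p : ℤ) ∣ a + 2 ^ j * (k : ℤ) ^ 2 then 1 else 0 with hI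
  have hg' : ∀ p ∈ Q, 0 ≤ g p ∧ g p ≤ 1 / 2 := fun p hp =>
    ⟨(rho_bounds _ p).1, (rho_bounds _ p).2.trans (by
      have : (7 : ℝ) < p := by exact_mod_cast (hQ p hp).2
      rw [div_le_div_iff₀ (by linarith) two_pos]; linarith)⟩
  have hI01 : ∀ p n, I p n = 0 ∨ I p n = 1 := fun p n => by
    simp only [hI]; split_ifs <;> simp
  have hIp : ∀ p n, I p (n + p) = I p n := fun p n => by
    have : a + 2 ^ j * ((n + p : ℕ) : ℤ) ^ 2
        = a + 2 ^ j * (n : ℤ) ^ 2 + p * (2 ^ j * (2 * n + p)) := by push_cast; ring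
    simp only [hI, this, dvd_add_left (Dvd.intro _ rfl)]
  have hIm : ∀ p : ℕ, p.Prime ∧ 7 < p → ∑ n ∈ range p, I p n = p * g p := fun p hp => by
    have : (p : ℝ) ≠ 0 := by exact_mod_cast hp.1.ne_zero
    simp only [hI, hg]
    rw [root_count p hp.1 (by omega)]
    field_simp
  have h1 := sieve_main Q U z g g I I (fun _ => 1) (fun p hp => (hQ p hp).1)
    (fun p hp => (hU p hp).1) hd hg' (fun p _ => hI01 p) (fun p _ => hIp p)
    (fun p hp => hIm p (hQ p hp)) (fun p _ n => by rcases hI01 p n with h | h <;> simp [h])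
    (fun p _ => hIp p) (fun p hp => hIm p (hU p hp)) 1 (K + 1) (by omega) (fun _ _ => le_rfl)
    zero_le_one zero_le_one
  have h2 : (T.card : ℝ) * selG Q z g ^ 2
      ≤ ∑ n ∈ Ico 1 (K + 1), (∏ p ∈ U, I p n) * selPhi Q z g I n ^ 2 * 1 := by
    rw [← nsmul_eq_mul, ← sum_const]
    refine le_trans (le_of_eq (sum_congr rfl fun k hk => ?_)) (sum_le_sum_of_subset_of_nonneg
      (fun k hk => by have := hT k hk; rw [mem_Ico]; omega) fun n _ _ =>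
        mul_nonneg (mul_nonneg (prod_nonneg fun p _ => by
          rcases hI01 p n with h | h <;> simp [h]) (sq_nonneg _)) zero_le_one)
    rw [selPhi_sifted Q z g I k fun q hq => if_neg ((hT k hk).2.2.2 q hq),
      prod_eq_one fun p hp => if_pos ((hT k hk).2.2.1 p hp), one_mul, mul_one]
  have h3 := one_le_selG Q z g hz hg'
  have h4 : 0 ≤ ∏ p ∈ U, g p := prod_nonneg fun p _ => (rho_bounds _ p).1
  simp only [sum_const, Nat.card_Ico, Nat.add_sub_cancel, nsmul_eq_mul, mul_one] at h1 h2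
  generalize selG Q z g = S at *
  have h5 : (∏ p ∈ U, g p) * K / S ≤ (∏ p ∈ U, g p) * K / G := by gcongr
  have h6 : (T.card : ℝ) ≤ (∏ p ∈ U, g p) * K / S + 2 * (z : ℝ) ^ 4 * (∏ p ∈ U, p : ℕ) / S ^ 2 := by
    rw [div_add_div _ _ (by positivity) (by positivity), le_div_iff₀ (by positivity)]
    nlinarith
  have h7 : 2 * (z : ℝ) ^ 4 * (∏ p ∈ U, p : ℕ) / S ^ 2 ≤ 2 * (z : ℝ) ^ 4 * (∏ p ∈ U, p : ℕ) :=
    div_le_self (by positivity) (one_le_pow₀ h3)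
  linarith

theorem kill_sq (p d s y : ℕ) (hp : p.Prime) (h : chi (-(d : ℤ)) p = -1)
    (hdvd : p ∣ s ^ 2 * d + y ^ 2) : p ^ 2 ∣ s ^ 2 * d + y ^ 2 := by
  have := Fact.mk hp
  have h1 : jacobiSym (-(d : ℤ)) p = -1 := by
    unfold chi at h
    split_ifs at h
    · exact_mod_cast h
    · norm_num at h
  have h2 := ZMod.nonsquare_of_jacobiSym_eq_neg_one h1
  have h3 := (ZMod.natCast_eq_zero_iff _ p).mpr hdvd
  have h4 : p ∣ s := by
    by_contra hs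
    have h5 : (s : ZMod p) ≠ 0 := (ZMod.natCast_eq_zero_iff _ p).not.mpr hs
    refine h2 ⟨y / s, ?_⟩
    push_cast at h3 ⊢
    field_simp
    linear_combination -h3
  have h5 : p ∣ y := hp.dvd_of_dvd_pow
    ((Nat.dvd_add_right ((dvd_pow h4 two_ne_zero).mul_right d)).mp hdvd)
  exact dvd_add ((pow_dvd_pow_of_dvd h4 2).mul_right d) (pow_dvd_pow_of_dvd h5 2)

theorem three_le_kernel (j a d s : ℕ) (ha : a % 2 = 1) (hsq : ∀ f, a ≠ f ^ 2)
    (h : s ^ 2 * d = 2 ^ j * a) : 3 ≤ d := by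
  have key : ∀ i r, a * 2 ^ i ≠ r ^ 2 := fun i r hr => by
    obtain ⟨f, hf⟩ := exists_eq_pow_of_mul_eq_pow (by
      rw [Nat.isUnit_iff, gcd_eq_nat_gcd]
      exact Nat.Coprime.pow_right i (Nat.coprime_two_right.mpr (Nat.odd_iff.mpr ha))) hr
    exact hsq f hf
  by_contra hd
  have h0 : 0 < 2 ^ j * a := Nat.mul_pos (Nat.two_pow_pos j) (by omega)
  have : d = 0 ∨ d = 1 ∨ d = 2 := by omega
  rcases this with rfl | rfl | rfl
  · omega
  · exact key j s (by rw [mul_comm, ← h, mul_one])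
  · exact key (j + 1) (2 * s) (by rw [pow_succ, ← mul_assoc, mul_comm a, ← h]; ring)

theorem card_kernel_le (A : Finset ℕ) (m d s : ℕ → ℕ) (Z : ℕ)
    (hm : ∀ e ∈ A, 0 < m e ∧ m e ≤ Z ∧ s e ^ 2 * d e = m e) (hinj : Set.InjOn m A) :
    (A.card : ℝ) ≤ Real.sqrt Z * ∑ d' ∈ A.image d, 1 / Real.sqrt d' := by
  rw [card_eq_sum_card_image d A, mul_sum]
  push_cast
  refine sum_le_sum fun d' hd' => ?_
  obtain ⟨e₀, he₀, rfl⟩ := mem_image.mp hd'
  have hd0 : 0 < d e₀ := Nat.pos_of_ne_zero fun h => by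
    have := hm e₀ he₀; rw [h] at this; omega
  have hd1 : (0 : ℝ) < d e₀ := by exact_mod_cast hd0
  have h1 : (A.filter (d · = d e₀)).card ≤ (Icc 1 ⌊Real.sqrt (Z / d e₀)⌋₊).card := by
    refine card_le_card_of_injOn s (fun e he => ?_) fun e he e' he' h => ?_
    · obtain ⟨h1, h2⟩ := mem_filter.mp he
      obtain ⟨h3, h4, h5⟩ := hm e h1
      rw [coe_Icc, Set.mem_Icc]
      refine ⟨Nat.pos_of_ne_zero fun h => by rw [h] at h5; omega,
        Nat.le_floor (Real.le_sqrt_of_sq_le ?_)⟩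
      rw [le_div_iff₀ hd1, ← h2]
      exact_mod_cast h5.trans_le h4
    · obtain ⟨h1, h2⟩ := mem_filter.mp he
      obtain ⟨h3, h4⟩ := mem_filter.mp he'
      refine hinj h1 h3 ?_
      rw [← (hm e h1).2.2, ← (hm e' h3).2.2, h, h2, h4]
  rw [Nat.card_Icc, Nat.add_sub_cancel] at h1
  calc ((A.filter (d · = d e₀)).card : ℝ) ≤ ⌊Real.sqrt (Z / d e₀)⌋₊ := by exact_mod_cast h1
    _ ≤ Real.sqrt (Z / d e₀) := Nat.floor_le (Real.sqrt_nonneg _)
    _ = _ := by rw [Real.sqrt_div (by positivity), mul_one_div]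

theorem cover_bound {l g g' h₁ h₂ C : ℕ} {P₀ : Finset ℕ} {ι : Type} {F : Finset ι}
    {U : ι → Finset ℕ} {E : ℝ} {Bad : ℕ → Prop} (hF : Fam l g g' h₁ h₂ C P₀ F U E Bad)
    (hP₀ : ∀ p ∈ P₀, p.Prime ∧ 7 < p) (j c β K X z : ℕ) (hc : c = 1 ∨ c = 3) (hβ : β % 2 = 1)
    (G : ℝ) (hG0 : 0 < G) (hz : 1 ≤ z)
    (hG : ∀ d s : ℕ, s ≠ 0 → s ≤ 2 ^ (2 ^ l) ^ 2 → ¬ Bad d → ∀ i ∈ F,
      G ≤ selG (P₀ \ U i) z fun p => (1 + chi (-((d * s ^ 2 : ℕ) : ℤ)) p) / p)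
    (hX : 2 ^ j * (24 * X) ≤ 2 ^ (2 ^ l) ^ 2) (A : Finset ℕ) (hA : ∀ e ∈ A, e ≤ X)
    (W : ι → Finset ℕ)
    (hW : ∀ i ∈ F, ∀ n ∈ W i, (∀ p ∈ U i, p ∣ n ∧ ¬ p ^ 2 ∣ n) ∧ (∀ p ∈ P₀ \ U i, ¬ p ∣ n) ∧
      ∃ e ∈ A, ∃ k, 1 ≤ k ∧ k ≤ K ∧ n + β = 8 * c * e + 2 ^ j * k ^ 2 ∧
        ∀ f, 8 * c * e ≠ f ^ 2 + β)
    (M : ℝ) (hM : ((2 : ℝ) ^ (C * 2 ^ l * l ^ 2)) ^ 2 * 2 ^ (8 * 2 ^ l) ≤ M) :
    ∑ i ∈ F, ((W i).card : ℝ) ≤ E * (A.card * (C * K / G + 2 * (z : ℝ) ^ 4 * M)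
      + (β + Real.sqrt (2 ^ j * (24 * X) : ℕ) * (2 * (2 ^ l) ^ 30 / 2 ^ (10 * 2 ^ l)))
        * (K * 2 ^ (8 * 2 ^ l) + 2 * M)) := by
  classical
  have hE := hF.pos
  choose d s hds using Nat.sq_mul_squarefree
  let m : ℕ → ℕ := fun e => 2 ^ j * (8 * c * e - β)
  let T : ι → ℕ → Finset ℕ := fun i e => (Icc 1 K).filter fun k =>
    ∃ n ∈ W i, n + β = 8 * c * e + 2 ^ j * k ^ 2 ∧ ∀ f, 8 * c * e ≠ f ^ 2 + β
  have hU : ∀ i ∈ F, ∀ p ∈ U i, p.Prime ∧ 7 < p := fun i hi p hp =>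
    ⟨(hF.prime i hi p hp).1, (hF.prime i hi p hp).2.2.1⟩
  have h1 : ∀ i ∈ F, ((W i).card : ℝ) ≤ ∑ e ∈ A, ((T i e).card : ℝ) := by
    intro i hi
    have : (W i).card ≤ (A.sigma (T i)).card := by
      refine le_trans (card_le_card fun n hn => ?_)
        (card_image_le (f := fun x : Σ _ : ℕ, ℕ => 8 * c * x.1 + 2 ^ j * x.2 ^ 2 - β))
      obtain ⟨-, -, e, he, k, k1, k2, k3, k4⟩ := hW i hi n hn
      exact mem_image.mpr ⟨⟨e, k⟩, mem_sigma.mpr ⟨he, mem_filter.mpr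
        ⟨mem_Icc.mpr ⟨k1, k2⟩, n, hn, k3, k4⟩⟩, by simp only; omega⟩
    rw [card_sigma] at this
    exact_mod_cast this
  have hsumU : ∑ i ∈ F, ((∏ p ∈ U i, p : ℕ) : ℝ) ≤ M * E := by
    refine le_trans ?_ (mul_le_mul_of_nonneg_right hM hE.le)
    rw [mul_assoc]
    refine le_trans ?_ (mul_le_mul_of_nonneg_left hF.triv (by positivity))
    rw [mul_sum]
    refine sum_le_sum fun i hi => ?_
    have a1 : ((∏ p ∈ U i, p : ℕ) : ℝ) ≤ 2 ^ (C * 2 ^ l * l ^ 2) := by exact_mod_cast hF.size i hi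
    have a2 : 1 ≤ ((∏ p ∈ U i, p : ℕ) : ℝ) * ∏ p ∈ U i, (2 : ℝ) / p := by
      push_cast
      rw [← prod_mul_distrib]
      refine le_trans (le_of_eq prod_const_one.symm) (prod_le_prod (fun _ _ => zero_le_one)
        fun p hp => ?_)
      have : (p : ℝ) ≠ 0 := by exact_mod_cast (hU i hi p hp).1.ne_zero
      rw [mul_div_cancel₀ _ this]; norm_num
    have a3 : 0 ≤ ∏ p ∈ U i, (2 : ℝ) / p := by positivity
    have a4 : (0 : ℝ) ≤ ((∏ p ∈ U i, p : ℕ) : ℝ) := by positivity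
    calc _ ≤ ((∏ p ∈ U i, p : ℕ) : ℝ) * (((∏ p ∈ U i, p : ℕ) : ℝ) * ∏ p ∈ U i, (2 : ℝ) / p) :=
          le_mul_of_one_le_right a4 a2
      _ ≤ _ := by rw [← mul_assoc, ← sq]; gcongr
  have hM0 : 0 ≤ M := le_trans (by positivity) hM
  have hT : ∀ i ∈ F, ∀ e, ∀ k ∈ T i e, 1 ≤ k ∧ k ≤ K ∧
      (∀ p ∈ U i, (p : ℤ) ∣ (8 * c * e - β : ℤ) + 2 ^ j * (k : ℤ) ^ 2) ∧
      ∀ p ∈ P₀ \ U i, ¬ (p : ℤ) ∣ (8 * c * e - β : ℤ) + 2 ^ j * (k : ℤ) ^ 2 := by
    intro i hi e k hk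
    obtain ⟨k1, n, hn, k3, -⟩ := mem_filter.mp hk
    have k4 : (8 * c * e - β : ℤ) + 2 ^ j * (k : ℤ) ^ 2 = n := by
      have : ((n + β : ℕ) : ℤ) = (8 * c * e + 2 ^ j * k ^ 2 : ℕ) := by rw [k3]
      push_cast at this
      linarith
    rw [k4]
    exact ⟨(mem_Icc.mp k1).1, (mem_Icc.mp k1).2,
      fun p hp => Int.natCast_dvd_natCast.mpr ((hW i hi n hn).1 p hp).1,
      fun p hp h => (hW i hi n hn).2.1 p hp (Int.natCast_dvd_natCast.mp h)⟩
  have htriv : ∀ e, ∑ i ∈ F, ((T i e).card : ℝ) ≤ E * (K * 2 ^ (8 * 2 ^ l) + 2 * M) := by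
    intro e
    have a1 : ∀ i ∈ F, ((T i e).card : ℝ) ≤ K * ∏ p ∈ U i, (2 : ℝ) / p
        + 2 * ((∏ p ∈ U i, p : ℕ) : ℝ) := fun i hi => by
      have a2 := cnt_sieve (U i) ∅ (T i e) 1 K j (8 * c * e - β) 1 one_pos le_rfl (hU i hi)
        (by simp) (by simp) (one_le_selG _ _ _ le_rfl (by simp))
        fun k hk => ⟨(hT i hi e k hk).1, (hT i hi e k hk).2.1, (hT i hi e k hk).2.2.1, by simp⟩
      have a3 : ∏ p ∈ U i, (1 + chi (-(2 ^ j * (8 * c * e - β : ℤ))) p) / p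
          ≤ ∏ p ∈ U i, (2 : ℝ) / p :=
        prod_le_prod (fun p _ => (rho_bounds _ p).1) fun p _ => (rho_bounds _ p).2
      have a4 := mul_le_mul_of_nonneg_left a3 (Nat.cast_nonneg (α := ℝ) K)
      rw [Nat.cast_one] at a2
      linarith
    refine (sum_le_sum a1).trans ?_
    rw [sum_add_distrib, ← mul_sum, ← mul_sum]
    have a4 := mul_le_mul_of_nonneg_left hF.triv (Nat.cast_nonneg (α := ℝ) K)
    linarith
  have hm : ∀ e ∈ A, β < 8 * c * e → 0 < m e ∧ m e ≤ 2 ^ j * (24 * X) := fun e he h =>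
    ⟨Nat.mul_pos (Nat.two_pow_pos j) (by omega), Nat.mul_le_mul_left _ (by
      have := hA e he
      rcases hc with rfl | rfl <;> omega)⟩
  let A₁ := A.filter (· < β)
  let A₂ := A.filter fun e => β < 8 * c * e ∧ Bad (d (m e)) ∧ 2 ^ (40 * 2 ^ l) < d (m e)
  have hmain : ∀ e ∈ A, ∑ i ∈ F, ((T i e).card : ℝ) ≤ E * (C * K / G + 2 * (z : ℝ) ^ 4 * M)
      + ((if e ∈ A₁ then 1 else 0) + if e ∈ A₂ then 1 else 0)
        * (E * (K * 2 ^ (8 * 2 ^ l) + 2 * M)) := by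
    intro e he
    have a0 : 0 ≤ E * (C * K / G + 2 * (z : ℝ) ^ 4 * M) := by positivity
    have a1 : 0 ≤ E * (K * 2 ^ (8 * 2 ^ l) + 2 * M) := by positivity
    have a2 := htriv e
    by_cases b1 : e ∈ A₁
    · rw [if_pos b1]; split_ifs <;> linarith
    by_cases b2 : e ∈ A₂
    · rw [if_neg b1, if_pos b2]; linarith
    rw [if_neg b1, if_neg b2, add_zero, zero_mul, add_zero]
    have b3 : β < 8 * c * e := by
      have : ¬ e < β := fun h => b1 (mem_filter.mpr ⟨he, h⟩)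
      rcases hc with rfl | rfl <;> omega
    obtain ⟨b4, b5⟩ := hm e he b3
    obtain ⟨b6, b7⟩ := hds (m e)
    by_cases b8 : Bad (d (m e))
    · have b9 : d (m e) ≤ 2 ^ (40 * 2 ^ l) :=
        not_lt.mp fun h => b2 (mem_filter.mpr ⟨he, b3, b8, h⟩)
      refine le_trans (le_of_eq (sum_eq_zero fun i hi => ?_)) a0
      rw [Nat.cast_eq_zero, card_eq_zero, eq_empty_iff_forall_notMem]
      intro k hk
      obtain ⟨-, n, hn, k3, k4⟩ := mem_filter.mp hk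
      obtain ⟨p, hp, hp'⟩ := hF.kill _ b7 b8 b9 (Or.inl (three_le_kernel j (8 * c * e - β) _ _
        (by rcases hc with rfl | rfl <;> omega) (fun f hf => k4 f (by omega)) b6)) i hi
      have k5 : s (m e) ^ 2 * d (m e) + (2 ^ j * k) ^ 2 = 2 ^ j * n := by
        rw [b6, show n = 8 * c * e - β + 2 ^ j * k ^ 2 by omega]
        simp only [m]; ring
      obtain ⟨k6, k7⟩ := (hW i hi n hn).1 p hp
      have k8 := kill_sq p _ _ _ (hU i hi p hp).1 hp' (k5 ▸ k6.mul_left _)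
      rw [k5] at k8
      exact k7 ((Nat.Coprime.pow _ _ ((Nat.coprime_primes (hU i hi p hp).1 Nat.prime_two).mpr
        (by have := (hU i hi p hp).2; omega))).dvd_of_dvd_mul_left k8)
    · have b9 : s (m e) ≠ 0 := fun h => by rw [h] at b6; omega
      have b10 : s (m e) ≤ 2 ^ (2 ^ l) ^ 2 := by
        exact (Nat.le_self_pow two_ne_zero _).trans
          ((Nat.le_mul_of_pos_right _ (Nat.pos_of_ne_zero b7.ne_zero)).trans
            (b6.trans_le (b5.trans hX)))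
      have b11 : (2 ^ j * (8 * c * e - β) : ℤ) = ((d (m e) * s (m e) ^ 2 : ℕ) : ℤ) := by
        rw [mul_comm (d _), b6]
        simp only [m]
        push_cast [Nat.cast_sub b3.le]
        ring
      have b12 : ∀ i ∈ F, ((T i e).card : ℝ)
          ≤ K / G * ∏ p ∈ U i, (1 + chi (-((d (m e) * s (m e) ^ 2 : ℕ) : ℤ)) p) / p
            + 2 * (z : ℝ) ^ 4 * ((∏ p ∈ U i, p : ℕ) : ℝ) := fun i hi => by
        have := cnt_sieve (U i) (P₀ \ U i) (T i e) z K j (8 * c * e - β) G hG0 hz (hU i hi)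
          (fun p hp => hP₀ p (mem_sdiff.mp hp).1) disjoint_sdiff
          (by rw [b11]; exact hG _ _ b9 b10 b8 i hi) (hT i hi e)
        rw [b11] at this
        exact this.trans (le_of_eq (by ring))
      refine (sum_le_sum b12).trans ?_
      rw [sum_add_distrib, ← mul_sum, ← mul_sum]
      have b13 := mul_le_mul_of_nonneg_left (hF.good _ _ b9 b10 b8) (by positivity : 0 ≤ K / G)
      have b14 := mul_le_mul_of_nonneg_left hsumU (by positivity : 0 ≤ 2 * (z : ℝ) ^ 4)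
      calc _ ≤ K / G * (C * E) + 2 * (z : ℝ) ^ 4 * (M * E) := add_le_add b13 b14
        _ = _ := by ring
  have hA₁ : (A₁.card : ℝ) ≤ β := by
    have : A₁.card ≤ (range β).card :=
      card_le_card fun e he => mem_range.mpr (mem_filter.mp he).2
    rw [card_range] at this
    exact_mod_cast this
  have hA₂ : (A₂.card : ℝ)
      ≤ Real.sqrt (2 ^ j * (24 * X) : ℕ) * (2 * (2 ^ l) ^ 30 / 2 ^ (10 * 2 ^ l)) := by
    refine (card_kernel_le A₂ m (fun e => d (m e)) (fun e => s (m e)) (2 ^ j * (24 * X))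
      (fun e he => ?_) fun e he e' he' h => ?_).trans
      (mul_le_mul_of_nonneg_left (hF.large _ fun d' hd' => ?_) (Real.sqrt_nonneg _))
    · obtain ⟨a1, a2, -⟩ := mem_filter.mp he
      exact ⟨(hm e a1 a2).1, (hm e a1 a2).2, (hds _).1⟩
    · have a1 := (mem_filter.mp he).2.1
      have a2 := (mem_filter.mp he').2.1
      have a3 := Nat.eq_of_mul_eq_mul_left (Nat.two_pow_pos j) h
      rcases hc with rfl | rfl <;> omega
    · obtain ⟨e, he, rfl⟩ := mem_image.mp hd'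
      obtain ⟨a1, a2, a3, a4⟩ := mem_filter.mp he
      refine ⟨(hds _).2, a3, a4, le_trans ?_ ((hm e a1 a2).2.trans hX)⟩
      exact Nat.le_of_dvd (hm e a1 a2).1 (Dvd.intro_left _ (hds _).1)
  refine (sum_le_sum h1).trans ?_
  rw [sum_comm]
  refine (sum_le_sum hmain).trans ?_
  rw [sum_add_distrib, sum_const, nsmul_eq_mul, ← sum_mul, sum_add_distrib, sum_boole, sum_boole,
    filter_mem_eq_inter, filter_mem_eq_inter, inter_eq_right.mpr (filter_subset _ _),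
    inter_eq_right.mpr (filter_subset _ _)]
  have a1 : 0 ≤ E * (K * 2 ^ (8 * 2 ^ l) + 2 * M) := by positivity
  have a2 := mul_le_mul_of_nonneg_right (add_le_add hA₁ hA₂) a1
  calc _ ≤ _ := add_le_add le_rfl a2
    _ = _ := by ring

end Pool.Agent.Lib.MP_a3366f_nt
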