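import Mathlib
import Pool.Agent.Lib.MP_a3366f_nt.An11

/-!
Choice of scales and numerical estimates.
-/

open Finset

namespace Pool.Agent.Lib.MP_a3366f_nt

theorem exists_scale (α l₀ : ℕ) (hα : 1 ≤ α) (hl₀ : 1 ≤ l₀) : ∀ n, α * 2 ^ l₀ * l₀ ^ 2 ≤ n →
    ∃ l, l₀ ≤ l ∧ α * 2 ^ l * l ^ 2 ≤ n ∧ n ≤ 8 * (α * 2 ^ l * l ^ 2) := by
  intro n hn
  induction n, hn using Nat.le_induction with
  | base => exact ⟨l₀, le_rfl, le_rfl, by omega⟩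
  | succ n hn ih =>
    obtain ⟨l, h1, h2, h3⟩ := ih
    by_cases h : n + 1 ≤ 8 * (α * 2 ^ l * l ^ 2)
    · exact ⟨l, h1, by omega, h⟩
    · have h4 : (l + 1) ^ 2 ≤ 4 * l ^ 2 := by nlinarith
      have h5 : l ^ 2 + 1 ≤ (l + 1) ^ 2 := by nlinarith
      have h6 : 1 ≤ α * 2 ^ l := Nat.mul_pos hα (Nat.two_pow_pos l)
      have h7 := Nat.mul_le_mul_left (α * 2 ^ l) h4
      have h8 := Nat.mul_le_mul_left (α * 2 ^ l) h5
      refine ⟨l + 1, by omega, ?_, ?_⟩ <;> rw [pow_succ 2] <;> nlinarith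

theorem two_pow_le_sqrt {X n a : ℕ} (hn : 2 ^ n ≤ X) (ha : 2 * a ≤ n) :
    (2 : ℝ) ^ a ≤ Real.sqrt X := by
  refine Real.le_sqrt_of_sq_le ?_
  rw [← pow_mul, mul_comm]
  exact_mod_cast (Nat.pow_le_pow_right two_pos ha).trans hn

theorem log_le_two_mul {X n : ℕ} (hX : 1 ≤ X) (hn : X < 2 ^ (n + 1)) (h1 : 1 ≤ n) :
    Real.log X ≤ 2 * n := by
  have h2 : (X : ℝ) ≤ 2 ^ (n + 1) := by exact_mod_cast hn.le
  have h3 := Real.log_le_log (by exact_mod_cast hX) h2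
  rw [Real.log_pow] at h3
  have h4 := Real.log_two_lt_d9
  have h5 : (1 : ℝ) ≤ n := by exact_mod_cast h1
  push_cast at h3
  nlinarith

theorem to_loglog (X n l α k : ℕ) (hX : 2 ^ n ≤ X) (hX' : X < 2 ^ (n + 1)) (hl : 2 ≤ l)
    (h1 : 2 ^ l ≤ n) (h2 : n ≤ 8 * (α * 2 ^ l * l ^ 2)) :
    Real.log X / Real.log (Real.log X) ^ (k + 2) ≤ 16 * α * 4 ^ (k + 2) * (2 ^ l / l ^ k) := by
  have hn : 1 ≤ n := le_trans Nat.one_le_two_pow h1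
  have h3 := log_le_two_mul (le_trans Nat.one_le_two_pow hX) hX' hn
  have h4 := Real.log_two_gt_d9
  have h5 : n * Real.log 2 ≤ Real.log X := by
    rw [← Real.log_pow]
    exact Real.log_le_log (by positivity) (by exact_mod_cast hX)
  have h6 : (2 : ℝ) ^ l ≤ n := by exact_mod_cast h1
  have hl' : (2 : ℝ) ≤ l := by exact_mod_cast hl
  have h7 : (2 : ℝ) ^ l / 2 ≤ Real.log X := by nlinarith [pow_pos (two_pos (α := ℝ)) l]
  have h8 := Real.log_le_log (by positivity) h7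
  rw [Real.log_div (by positivity) two_ne_zero, Real.log_pow] at h8
  have h9 : (l : ℝ) / 4 ≤ Real.log (Real.log X) := by nlinarith
  have h10 : (n : ℝ) ≤ 8 * (α * 2 ^ l * l ^ 2) := by exact_mod_cast h2
  calc _ ≤ (16 * (α * 2 ^ l * l ^ 2)) / ((l : ℝ) / 4) ^ (k + 2) :=
        div_le_div₀ (by positivity) (by linarith) (by positivity)
          (pow_le_pow_left₀ (by positivity) h9 _)
    _ = _ := by rw [div_pow, pow_add (l : ℝ)]; field_simp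

theorem cover_final {l g g' h₁ h₂ C : ℕ} {P₀ : Finset ℕ} {ι : Type} {F : Finset ι}
    {U : ι → Finset ℕ} {E : ℝ} {Bad : ℕ → Prop} (hF : Fam l g g' h₁ h₂ C P₀ F U E Bad)
    (hP₀ : ∀ p ∈ P₀, p.Prime ∧ 7 < p) (j c β K X a n : ℕ) (hc : c = 1 ∨ c = 3) (hβ : β % 2 = 1)
    (G : ℝ) (hG0 : 0 < G)
    (hG : ∀ d s : ℕ, s ≠ 0 → s ≤ 2 ^ (2 ^ l) ^ 2 → ¬ Bad d → ∀ i ∈ F,
      G ≤ selG (P₀ \ U i) (2 ^ a) fun p => (1 + chi (-((d * s ^ 2 : ℕ) : ℤ)) p) / p)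
    (hn : 2 ^ n ≤ X) (hn' : X < 2 ^ (n + 1)) (hl : 10 ≤ l) (hj : j ≤ 2 * l + 3)
    (hβB : β ≤ 2 ^ l) (hnB : 2 * n ≤ (2 ^ l) ^ 2)
    (ha : 2 * (4 * a + (2 * C + 20) * (2 ^ l * l ^ 2)) ≤ n) (hK : (K : ℝ) ≤ Real.sqrt X)
    (A : Finset ℕ) (hA : ∀ e ∈ A, e ≤ X) (W : ι → Finset ℕ)
    (hW : ∀ i ∈ F, ∀ n ∈ W i, (∀ p ∈ U i, p ∣ n ∧ ¬ p ^ 2 ∣ n) ∧ (∀ p ∈ P₀ \ U i, ¬ p ∣ n) ∧
      ∃ e ∈ A, ∃ k, 1 ≤ k ∧ k ≤ K ∧ n + β = 8 * c * e + 2 ^ j * k ^ 2 ∧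
        ∀ f, 8 * c * e ≠ f ^ 2 + β) :
    ∑ i ∈ F, ((W i).card : ℝ) ≤ E * (A.card * (C * K / G + Real.sqrt X / (2 ^ l) ^ 3)
      + X / (2 ^ l) ^ 3) := by
  have hlB : l < 2 ^ l := Nat.lt_two_pow_self
  have hB : 1024 ≤ 2 ^ l := le_trans (by norm_num) (Nat.pow_le_pow_right two_pos hl)
  have hl2 : 100 ≤ l ^ 2 := by nlinarith
  have hBl : 100 * 2 ^ l ≤ 2 ^ l * l ^ 2 := by nlinarith
  have hX : 2 ^ j * (24 * X) ≤ 2 ^ (2 ^ l) ^ 2 := by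
    calc 2 ^ j * (24 * X) ≤ 2 ^ j * (2 ^ 5 * 2 ^ (n + 1)) := by gcongr; norm_num
      _ = 2 ^ (j + (5 + (n + 1))) := by rw [← pow_add, ← pow_add]
      _ ≤ _ := Nat.pow_le_pow_right two_pos (by nlinarith)
  refine (cover_bound hF hP₀ j c β K X (2 ^ a) hc hβ G hG0 Nat.one_le_two_pow hG hX A hA W hW
    _ le_rfl).trans (mul_le_mul_of_nonneg_left ?_ hF.pos.le)
  have h34 : 7 + l * 34 ≤ 2 * 2 ^ l := by
    have h1 : ∀ n, 10 ≤ n → 20 * n ≤ 2 ^ n := by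
      intro n hn
      induction n, hn using Nat.le_induction with
      | base => norm_num
      | succ n hn ih => rw [pow_succ 2]; omega
    have := h1 l hl
    omega
  have e1 := two_pow_le_sqrt (a := 1 + a * 4 + (C * 2 ^ l * l ^ 2 * 2 + 8 * 2 ^ l) + l * 3) hn
    (by nlinarith)
  have e2 := two_pow_le_sqrt (a := 2 + l * 4 + 8 * 2 ^ l) hn (by nlinarith)
  have e3 : (2 : ℝ) ^ (7 + l * 34) ≤ 2 ^ (2 * 2 ^ l) := pow_le_pow_right₀ one_le_two h34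
  have e4 : Real.sqrt (2 ^ j * (24 * X) : ℕ) ≤ 14 * 2 ^ l * Real.sqrt X := by
    refine Real.sqrt_le_iff.mpr ⟨by positivity, ?_⟩
    have : (2 : ℝ) ^ j ≤ 2 ^ (l * 2 + 3) := pow_le_pow_right₀ one_le_two (by omega)
    rw [pow_add, pow_mul] at this
    rw [mul_pow, mul_pow, Real.sq_sqrt (by positivity)]
    push_cast
    nlinarith [mul_le_mul_of_nonneg_right this (Nat.cast_nonneg (α := ℝ) X),
      (by positivity : (0 : ℝ) ≤ (2 ^ l) ^ 2 * X)]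
  have e5 : (β : ℝ) ≤ 2 ^ l := by exact_mod_cast hβB
  have e6 : (2 : ℝ) ^ (10 * 2 ^ l) = 2 ^ (8 * 2 ^ l) * 2 ^ (2 * 2 ^ l) := by
    rw [← pow_add]; congr 1; ring
  have e7 := Real.sq_sqrt (Nat.cast_nonneg (α := ℝ) X)
  simp only [pow_add, pow_mul _ l, pow_mul _ a, pow_mul _ (C * 2 ^ l * l ^ 2)] at e1 e2 e3
  rw [e6]
  push_cast
  have hB' : (1 : ℝ) ≤ 2 ^ l := one_le_pow₀ one_le_two
  have hz' : (1 : ℝ) ≤ (2 ^ a) ^ 4 := one_le_pow₀ (one_le_pow₀ one_le_two)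
  have hV : (1 : ℝ) ≤ 2 ^ (8 * 2 ^ l) := one_le_pow₀ one_le_two
  have hV2 : (0 : ℝ) < 2 ^ (2 * 2 ^ l) := by positivity
  have hu : (0 : ℝ) < (2 ^ (C * 2 ^ l * l ^ 2)) ^ 2 := by positivity
  have hr := Real.sqrt_nonneg (X : ℝ)
  have hs := Real.sqrt_nonneg (2 ^ j * (24 * X : ℝ))
  push_cast at e4
  generalize Real.sqrt (2 ^ j * (24 * X : ℝ)) = r' at *
  generalize Real.sqrt (X : ℝ) = r at *
  generalize (2 : ℝ) ^ (8 * 2 ^ l) = V at *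
  generalize (2 : ℝ) ^ (2 * 2 ^ l) = V₂ at *
  generalize ((2 : ℝ) ^ (C * 2 ^ l * l ^ 2)) ^ 2 = u at *
  generalize ((2 : ℝ) ^ a) ^ 4 = z at *
  generalize (2 : ℝ) ^ l = B at *
  have hB3 : 1 ≤ B ^ 3 := one_le_pow₀ hB'
  have f1 : 2 * z * (u * V) ≤ r / B ^ 3 := by rw [le_div_iff₀ (by positivity)]; linarith
  have f2 : 2 * (u * V) ≤ r := by
    have := div_le_self hr hB3
    nlinarith [mul_pos hu (by linarith : 0 < V)]
  have f3 : K * V + 2 * (u * V) ≤ 2 * r * V := by nlinarith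
  have f4 : β + r' * (2 * B ^ 30 / (V * V₂)) ≤ B + 14 * B * r * (2 * B ^ 30 / (V * V₂)) := by
    gcongr
  have f5 : B * (2 * r * V) ≤ X / B ^ 3 / 2 := by
    rw [div_div, le_div_iff₀ (by positivity), ← e7]
    nlinarith [mul_le_mul_of_nonneg_left e2 hr]
  have f6 : 14 * B * r * (2 * B ^ 30 / (V * V₂)) * (2 * r * V) ≤ X / B ^ 3 / 2 := by
    rw [div_div, le_div_iff₀ (by positivity), ← e7]
    calc _ = r ^ 2 * (112 * B ^ 34 / V₂) := by field_simp; ring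
      _ ≤ r ^ 2 := mul_le_of_le_one_right (sq_nonneg r) (by
          rw [div_le_one hV2]; nlinarith [pow_pos (by linarith : 0 < B) 34])
  refine add_le_add (mul_le_mul_of_nonneg_left (by linarith) (by positivity)) ?_
  refine (mul_le_mul f4 f3 (by positivity) (by positivity)).trans ?_
  rw [add_mul]
  linarith

end Pool.Agent.Lib.MP_a3366f_nt
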