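import Mathlib

/-!
Shared definitions for the parity of the multipartition function.
-/

open Finset

namespace Pool.Agent.Lib.MP_a3366f_nt

/-- `Δ` modulo two: the sum of `q ^ (n ^ 2)` over odd positive `n`. -/
noncomputable def Xd : PowerSeries (ZMod 2) :=
  PowerSeries.mk fun n => if Odd n ∧ IsSquare n then 1 else 0

/-- The operator `f(q) ↦ f(q ^ p)`. -/
noncomputable def Vp (p : ℕ) (f : PowerSeries (ZMod 2)) : PowerSeries (ZMod 2) :=
  PowerSeries.mk fun n => if p ∣ n then PowerSeries.coeff (n / p) f else 0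

/-- The Hecke operator `U_p + V_p` modulo two. -/
noncomputable def Tp (p : ℕ) (f : PowerSeries (ZMod 2)) : PowerSeries (ZMod 2) :=
  PowerSeries.mk fun n =>
    PowerSeries.coeff (p * n) f + if p ∣ n then PowerSeries.coeff (n / p) f else 0

/-- The number of `t`-multipartitions of `n`. -/
def pt (t n : ℕ) : ℕ :=
  ∑ x ∈ Finset.Nat.antidiagonalTuple t n, ∏ i, Fintype.card (Nat.Partition (x i))

/-- Covering property used for the count of even values. -/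
def EvenCover (A : ℕ → Prop) (t c N k h : ℕ) : Prop :=
  ∃ s : ℕ → ℕ, (∀ i, s i + N * (2 * i + 1) ≤ s (i + 1)) ∧ (∀ i, s i ≤ N * (2 * i ^ 2 + i)) ∧
    ∀ i m, s i ≤ m → m < s i + N * (2 * i + 1) →
      ∀ S : Finset ℕ, (∀ p ∈ S, p.Prime ∧ p ≠ 2) → h < S.card →
        ∀ v, 8 * m + k = (∏ p ∈ S, p) * v → Nat.Coprime (∏ p ∈ S, p) v →
          ∃ n z, A n ∧ 1 ≤ z ∧ 3 * (8 * m + k) + t = 24 * n + c * N * z ^ 2

/-- Covering property used for the count of odd values. -/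
def OddCover (A : ℕ → Prop) (t c N h : ℕ) : Prop :=
  ∃ a b, a + b = h ∧
    ∀ S₃ S₅ : Finset ℕ, (∀ p ∈ S₃, p.Prime ∧ p % 8 = 3) → (∀ p ∈ S₅, p.Prime ∧ p % 8 = 5) →
      S₃.card = a → S₅.card = b →
        ∃ n z, A n ∧ 1 ≤ z ∧
          3 * ((∏ p ∈ S₃, p) * ∏ p ∈ S₅, p) + t = 24 * n + c * N * z ^ 2

/-- At every dyadic scale there is a multiplier with both covering properties. -/
def Scales (t : ℕ) : Prop :=
  ∃ c j₀ : ℕ, (c = 1 ∨ c = 3) ∧ ∀ j, j₀ ≤ j → ∃ N k h : ℕ,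
    (N = 2 ^ j ∨ N = 2 ^ (j + 1)) ∧ 3 * k + t = c * N ∧ Odd k ∧ N ≤ 64 * h ^ 2 ∧ h ^ 2 ≤ 16 * N ∧
      EvenCover (fun n => pt t n % 2 = 0) t c N k h ∧
      OddCover (fun n => pt t n % 2 = 1) t c N h

end Pool.Agent.Lib.MP_a3366f_nt
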