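import Mathlib

open UpperHalfPlane hiding I
open ModularForm Complex Function Finset
open scoped MatrixGroups Real

namespace Pool.Agent.Lib.MP_a3366f_nt

lemma modular_eq {k : ℤ} (f : ModularForm 𝒮ℒ k) (a b c d : ℤ) (h : a * d - b * c = 1) (z : ℂ)
    (hz : 0 < z.im) :
    (f ∘ ofComplex) ((a * z + b) / (c * z + d)) = (c * z + d) ^ k * (f ∘ ofComplex) z := by
  let γ : SL(2, ℤ) := ⟨!![a, b; c, d], by simp [Matrix.det_fin_two, h]⟩
  have h1 := (slash_action_eq'_iff k f γ ⟨z, hz⟩).1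
    (congr_fun (SlashInvariantForm.slash_action_eqn f (γ : GL (Fin 2) ℝ) ⟨γ, rfl⟩) _)
  have h2 : ((γ • (⟨z, hz⟩ : ℍ) : ℍ) : ℂ) = (a * z + b) / (c * z + d) := by
    rw [coe_specialLinearGroup_apply]; simp [γ]
  simp only [Function.comp]
  rw [← h2, ofComplex_apply, h1, ofComplex_apply_of_im_pos hz]
  simp [γ]

noncomputable def heckeFun (F : ℂ → ℂ) (k : ℤ) (p : ℕ) (z : ℂ) : ℂ :=
  (p : ℂ) ^ (k - 1) * F (p * z) + (p : ℂ)⁻¹ * ∑ j ∈ range p, F ((z + j) / p)

lemma sum_range_zmod {M : Type*} [AddCommMonoid M] (p : ℕ) [NeZero p] (G : ℕ → M) :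
    ∑ j ∈ range p, G j = ∑ x : ZMod p, G x.val := by
  refine Finset.sum_nbij' (fun j => (j : ZMod p)) ZMod.val ?_ ?_ ?_ ?_ ?_
  · simp
  · intro x _; simpa using ZMod.val_lt x
  · intro j hj; exact ZMod.val_cast_of_lt (by simpa using hj)
  · simp
  · intro j hj; rw [ZMod.val_cast_of_lt (by simpa using hj)]

lemma heckeFun_S {k : ℤ} (f : ModularForm 𝒮ℒ k) (p : ℕ) (hp : p.Prime) (z : ℂ) (hz : 0 < z.im) :
    heckeFun (f ∘ ofComplex) k p (-z)⁻¹ = z ^ k * heckeFun (f ∘ ofComplex) k p z := by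
  have := Fact.mk hp
  have hp0 : (p : ℂ) ≠ 0 := by exact_mod_cast hp.ne_zero
  have hpR : (0 : ℝ) < p := by exact_mod_cast hp.pos
  have hz0 : z ≠ 0 := by rintro rfl; simp at hz
  set F := f ∘ ofComplex with hF
  have e1 : F (p * (-z)⁻¹) = (z / p) ^ k * F (z / p) := by
    have := modular_eq f 0 (-1) 1 0 (by ring) (z / p) (by
      rw [show (p : ℂ) = ((p : ℝ) : ℂ) by simp, Complex.div_ofReal_im]; positivity)
    simp only [Int.cast_zero, zero_mul, zero_add, Int.cast_neg, Int.cast_one, one_mul,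
      add_zero] at this
    rw [← this]; congr 1; field_simp
  have e2 : F ((-z)⁻¹ / p) = (p * z) ^ k * F (p * z) := by
    have := modular_eq f 0 (-1) 1 0 (by ring) (p * z) (by simpa using mul_pos hpR hz)
    simp only [Int.cast_zero, zero_mul, zero_add, Int.cast_neg, Int.cast_one, one_mul,
      add_zero] at this
    rw [← this]; congr 1; field_simp
  have e3 : ∀ x : ZMod p, x ≠ 0 →
      F (((-z)⁻¹ + x.val) / p) = z ^ k * F ((z + (-x⁻¹).val) / p) := by
    intro x hx
    have hd : (p : ℤ) ∣ (x.val : ℤ) * ((-x⁻¹).val : ℤ) + 1 := by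
      rw [← ZMod.intCast_zmod_eq_zero_iff_dvd]
      push_cast
      simp only [ZMod.natCast_val, ZMod.cast_id', id_eq]
      field_simp
      ring
    obtain ⟨b, hb⟩ := hd
    have hbC : ((x.val : ℂ)) * ((-x⁻¹).val : ℂ) + 1 = p * b := by exact_mod_cast hb
    have := modular_eq f x.val (-b) p (-((-x⁻¹).val : ℤ)) (by linarith) ((z + (-x⁻¹).val) / p) (by
      rw [show (p : ℂ) = ((p : ℝ) : ℂ) by simp, Complex.div_ofReal_im]
      simp only [add_im, natCast_im, add_zero]; positivity)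
    have hden : (((p : ℤ) : ℂ) * ((z + ((-x⁻¹).val : ℕ)) / p) + ((-((-x⁻¹).val : ℤ) : ℤ) : ℂ)) = z := by
      push_cast; field_simp; ring
    rw [hden] at this
    rw [← this]; congr 1
    generalize (-x⁻¹).val = y at hbC
    push_cast
    field_simp
    linear_combination (-1 : ℂ) * hbC
  unfold heckeFun
  rw [sum_range_zmod p (fun j => F (((-z)⁻¹ + j) / p)), sum_range_zmod p (fun j => F ((z + j) / p)),
    ← Finset.add_sum_erase _ _ (mem_univ (0 : ZMod p)),
    ← Finset.add_sum_erase _ _ (mem_univ (0 : ZMod p))]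
  have e4 : ∑ x ∈ (univ : Finset (ZMod p)).erase 0, F (((-z)⁻¹ + x.val) / p) =
      z ^ k * ∑ x ∈ (univ : Finset (ZMod p)).erase 0, F ((z + x.val) / p) := by
    rw [Finset.mul_sum]
    refine Finset.sum_nbij' (fun x => -x⁻¹) (fun x => -x⁻¹) ?_ ?_ ?_ ?_ ?_
    · simp
    · simp
    · simp
    · simp
    · intro x hx; exact e3 x (by simpa using hx)
  rw [e4, e1]
  simp only [ZMod.val_zero, Nat.cast_zero, add_zero]
  rw [e2, div_zpow, mul_zpow, zpow_sub₀ hp0]
  have : (p : ℂ) ^ k ≠ 0 := zpow_ne_zero _ hp0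
  field_simp
  ring

lemma sum_root (p n : ℕ) (hp : 0 < p) :
    ∑ j ∈ range p, cexp (2 * π * I * (n / p)) ^ j = if p ∣ n then (p : ℂ) else 0 := by
  have hp0 : (p : ℂ) ≠ 0 := by exact_mod_cast hp.ne'
  split_ifs with h
  · obtain ⟨m, rfl⟩ := h
    have : cexp (2 * π * I * (((p * m : ℕ) : ℂ) / p)) = 1 := by
      rw [show (2 * π * I * (((p * m : ℕ) : ℂ) / p)) = m * (2 * π * I) by push_cast; field_simp]
      exact exp_nat_mul_two_pi_mul_I m
    rw [this]; simp
  · have h1 : cexp (2 * π * I * (n / p)) ≠ 1 := by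
      intro h1
      rw [Complex.exp_eq_one_iff] at h1
      obtain ⟨m, hm⟩ := h1
      have h2 : (n : ℂ) = p * m := by
        have hI : (2 * π * I : ℂ) ≠ 0 := two_pi_I_ne_zero
        field_simp at hm
        linear_combination hm
      have h3 : (n : ℤ) = p * m := by exact_mod_cast h2
      exact h (Int.natCast_dvd_natCast.1 ⟨m, h3⟩)
    have h2 : cexp (2 * π * I * (n / p)) ^ p = 1 := by
      rw [← Complex.exp_nat_mul, show (p : ℂ) * (2 * π * I * (n / p)) = n * (2 * π * I) by field_simp]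
      exact exp_nat_mul_two_pi_mul_I n
    rw [geom_sum_eq h1, h2]; simp

lemma heckeFun_hasSum (F : ℂ → ℂ) (a : ℕ → ℂ)
    (hF : ∀ z : ℂ, 0 < z.im → HasSum (fun n => a n * cexp (2 * π * I * z) ^ n) (F z))
    (k : ℤ) (p : ℕ) (hp : 0 < p) (z : ℂ) (hz : 0 < z.im) :
    HasSum (fun m => (a (p * m) + (p : ℂ) ^ (k - 1) * if p ∣ m then a (m / p) else 0) *
      cexp (2 * π * I * z) ^ m) (heckeFun F k p z) := by
  have hp0 : (p : ℂ) ≠ 0 := by exact_mod_cast hp.ne'
  have hpR : (0 : ℝ) < p := by exact_mod_cast hp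
  have hinj : Function.Injective (fun m : ℕ => p * m) := mul_right_injective₀ hp.ne'
  have h1 : HasSum (fun m => (if p ∣ m then a (m / p) else 0) * cexp (2 * π * I * z) ^ m)
      (F (p * z)) := by
    rw [← hinj.hasSum_iff]
    · convert hF (p * z) (by simpa using mul_pos hpR hz) using 2 with n
      simp only [Function.comp, dvd_mul_right, if_true, Nat.mul_div_cancel_left _ hp]
      rw [pow_mul, ← Complex.exp_nat_mul]
      congr 3; ring
    · intro x hx
      rw [if_neg, zero_mul]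
      rintro ⟨m, rfl⟩; exact hx ⟨m, rfl⟩
  have h2 : HasSum (fun n => ∑ j ∈ range p, a n * cexp (2 * π * I * ((z + j) / p)) ^ n)
      (∑ j ∈ range p, F ((z + j) / p)) := by
    apply hasSum_sum
    intro j _
    apply hF
    rw [show (p : ℂ) = ((p : ℝ) : ℂ) by simp, Complex.div_ofReal_im]
    simp only [add_im, natCast_im, add_zero]; positivity
  have h3 : ∀ n : ℕ, ∑ j ∈ range p, a n * cexp (2 * π * I * ((z + j) / p)) ^ n =
      a n * cexp (2 * π * I * (z / p)) ^ n * if p ∣ n then (p : ℂ) else 0 := by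
    intro n
    rw [← sum_root p n hp, Finset.mul_sum]
    refine Finset.sum_congr rfl fun j _ => ?_
    rw [mul_assoc (a n)]; congr 1
    rw [← Complex.exp_nat_mul, ← Complex.exp_nat_mul, ← Complex.exp_nat_mul, ← Complex.exp_add]
    congr 1; field_simp
  simp_rw [h3] at h2
  have h4 : HasSum (fun m => p * (a (p * m) * cexp (2 * π * I * z) ^ m))
      (∑ j ∈ range p, F ((z + j) / p)) := by
    rw [← hinj.hasSum_iff] at h2
    · convert h2 using 2 with n
      simp only [Function.comp, dvd_mul_right, if_true]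
      rw [pow_mul, ← Complex.exp_nat_mul (n := p)]
      rw [show (p : ℂ) * (2 * π * I * (z / p)) = 2 * π * I * z by field_simp]
      ring
    · intro x hx
      rw [if_neg, mul_zero]
      rintro ⟨m, rfl⟩; exact hx ⟨m, rfl⟩
  have h5 := (h1.mul_left ((p : ℂ) ^ (k - 1))).add (h4.mul_left (p : ℂ)⁻¹)
  have h6 : (fun m => (a (p * m) + (p : ℂ) ^ (k - 1) * if p ∣ m then a (m / p) else 0) *
      cexp (2 * π * I * z) ^ m) = fun b => (p : ℂ) ^ (k - 1) *
        ((if p ∣ b then a (b / p) else 0) * cexp (2 * π * I * z) ^ b) +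
        (p : ℂ)⁻¹ * (p * (a (p * b) * cexp (2 * π * I * z) ^ b)) := by
    funext m
    rw [inv_mul_cancel_left₀ hp0]
    ring
  rw [h6]
  exact h5

lemma form_hasSum {k : ℤ} (f : ModularForm 𝒮ℒ k) (z : ℂ) (hz : 0 < z.im) :
    HasSum (fun n => (qExpansion 1 f).coeff n * cexp (2 * π * I * z) ^ n) ((f ∘ ofComplex) z) := by
  have : Fact (IsCusp OnePoint.infty 𝒮ℒ) :=
    ⟨Subgroup.isCusp_of_mem_strictPeriods one_pos one_mem_strictPeriods_SL⟩
  have := ModularForm.hasSum_qExpansion f one_pos one_mem_strictPeriods_SL ⟨z, hz⟩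
  simpa [Periodic.qParam, ofComplex_apply_of_im_pos hz] using this

lemma hecke_hasSum {k : ℤ} (f : ModularForm 𝒮ℒ k) (p : ℕ) (hp : 0 < p) (τ : ℍ) :
    HasSum (fun m => ((qExpansion 1 f).coeff (p * m) + (p : ℂ) ^ (k - 1) *
      if p ∣ m then (qExpansion 1 f).coeff (m / p) else 0) • Periodic.qParam 1 τ ^ m)
      (heckeFun (f ∘ ofComplex) k p τ) := by
  have := heckeFun_hasSum (f ∘ ofComplex) _ (form_hasSum f) k p hp τ τ.2
  simpa [Periodic.qParam] using this

lemma hecke_slash {k : ℤ} (f : ModularForm 𝒮ℒ k) (p : ℕ) (hp : p.Prime) (γ : SL(2, ℤ)) :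
    (fun τ : ℍ => heckeFun (f ∘ ofComplex) k p τ) ∣[k] γ =
      fun τ : ℍ => heckeFun (f ∘ ofComplex) k p τ := by
  apply SlashInvariantForm.slash_action_generators_SL2Z
  · ext τ
    rw [slash_action_eq'_iff, modular_S_smul]
    have := heckeFun_S f p hp τ τ.2
    simpa [ModularGroup.S] using this
  · ext τ
    rw [slash_action_eq'_iff, modular_T_smul]
    have h1 := hecke_hasSum f p hp.pos τ
    have h2 := hecke_hasSum f p hp.pos ((1 : ℝ) +ᵥ τ)
    have h3 : Periodic.qParam 1 (((1 : ℝ) +ᵥ τ : ℍ) : ℂ) = Periodic.qParam 1 τ := by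
      simp only [Periodic.qParam, coe_vadd, ofReal_one, div_one]
      rw [mul_add, Complex.exp_add, mul_one, exp_two_pi_mul_I, one_mul]
    rw [h3] at h2
    simpa [ModularGroup.T] using h2.unique h1

noncomputable def hecke {k : ℤ} (f : ModularForm 𝒮ℒ k) (p : ℕ) (hp : p.Prime) :
    ModularForm 𝒮ℒ k where
  toFun := fun τ : ℍ => heckeFun (f ∘ ofComplex) k p τ
  slash_action_eq' A hA := by
    obtain ⟨A, rfl⟩ := hA
    exact hecke_slash f p hp A
  holo' := by
    have hpR : (0 : ℝ) < p := by exact_mod_cast hp.pos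
    have hf := UpperHalfPlane.mdifferentiable_iff.1 f.holo'
    rw [UpperHalfPlane.mdifferentiable_iff]
    have : DifferentiableOn ℂ (heckeFun (f ∘ ofComplex) k p) {z : ℂ | 0 < z.im} := by
      unfold heckeFun
      refine DifferentiableOn.add (DifferentiableOn.const_mul ?_ _)
        (DifferentiableOn.const_mul (DifferentiableOn.fun_sum fun j _ => ?_) _)
      · refine hf.comp (f := fun z : ℂ => (p : ℂ) * z) (by fun_prop) fun z hz => ?_
        simpa using mul_pos hpR hz
      · refine hf.comp (f := fun z : ℂ => (z + j) / p) (by fun_prop) fun z hz => ?_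
        simp only [Set.mem_ofPred_eq] at hz ⊢
        rw [show (p : ℂ) = ((p : ℝ) : ℂ) by simp, Complex.div_ofReal_im]
        simp only [add_im, natCast_im, add_zero]; positivity
    refine this.congr fun z hz => ?_
    simp [ofComplex_apply_of_im_pos hz]
  bdd_at_cusps' hc := by
    rw [Subgroup.IsArithmetic.isCusp_iff_isCusp_SL2Z] at hc
    rw [OnePoint.isBoundedAt_iff_forall_SL2Z hc]
    intro γ _
    rw [hecke_slash f p hp γ]
    exact isBoundedAtImInfty_of_hasSum_qExpansion one_pos (hecke_hasSum f p hp.pos)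

lemma hecke_coeff {k : ℤ} (f : ModularForm 𝒮ℒ k) (p : ℕ) (hp : p.Prime) (m : ℕ) :
    (qExpansion 1 (hecke f p hp)).coeff m = (qExpansion 1 f).coeff (p * m) + (p : ℂ) ^ (k - 1) *
      if p ∣ m then (qExpansion 1 f).coeff (m / p) else 0 :=
  (ModularFormClass.qExpansion_coeff_unique one_pos one_mem_strictPeriods_SL
    (f := hecke f p hp) (hecke_hasSum f p hp.pos) m).symm

end Pool.Agent.Lib.MP_a3366f_nt
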