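import Mathlib
import Pool.Agent.Lib.MP_a3366f_nt.Hecke

open UpperHalfPlane hiding I
open ModularForm Complex Function Finset Filter PowerSeries
open scoped MatrixGroups Real Topology

namespace Pool.Agent.Lib.MP_a3366f_nt

lemma prod_bound {x : ℂ} (hx : ‖x‖ < 1) (k n : ℕ) :
    ‖∏ i ∈ range n, (1 - x ^ (k + i + 1))‖ ≤ Real.exp ((1 - ‖x‖)⁻¹) := by
  rw [norm_prod]
  calc ∏ i ∈ range n, ‖1 - x ^ (k + i + 1)‖ ≤ ∏ i ∈ range n, Real.exp (‖x‖ ^ i) := by
        refine Finset.prod_le_prod (fun _ _ => norm_nonneg _) fun i _ => ?_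
        have h1 : ‖x‖ ^ (k + i + 1) ≤ ‖x‖ ^ i :=
          pow_le_pow_of_le_one (norm_nonneg _) hx.le (by omega)
        calc ‖1 - x ^ (k + i + 1)‖ ≤ ‖(1 : ℂ)‖ + ‖x ^ (k + i + 1)‖ := norm_sub_le _ _
          _ ≤ ‖x‖ ^ i + 1 := by rw [norm_pow, norm_one]; linarith
          _ ≤ _ := Real.add_one_le_exp _
    _ = Real.exp (∑ i ∈ range n, ‖x‖ ^ i) := (Real.exp_sum _ _).symm
    _ ≤ _ := by
        apply Real.exp_le_exp.2
        rw [← tsum_geometric_of_lt_one (norm_nonneg _) hx]
        exact (summable_geometric_of_lt_one (norm_nonneg _) hx).sum_le_tsum _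
          fun _ _ => by positivity

lemma term_bound {x : ℂ} (hx : ‖x‖ < 1) (k n : ℕ) :
    ‖x ^ ((k + 1) * n) * ∏ i ∈ range (n + 1), (1 - x ^ (k + i + 1))‖ ≤
      Real.exp ((1 - ‖x‖)⁻¹) * ‖x‖ ^ n := by
  rw [norm_mul, norm_pow, mul_comm]
  refine mul_le_mul (prod_bound hx k _) ?_ (by positivity) (by positivity)
  exact pow_le_pow_of_le_one (norm_nonneg _) hx.le (by nlinarith)

lemma pent_hasSum {x : ℂ} (hx : ‖x‖ < 1) :
    HasSum (fun n => (pentagonalSeries ℂ).coeff n * x ^ n) (∏' n, (1 - x ^ (n + 1))) := by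
  have hg := summable_geometric_of_lt_one (norm_nonneg _) hx
  have hs : Summable (fun n => (pentagonalSeries ℂ).coeff n * x ^ n) := by
    refine Summable.of_norm_bounded hg fun n => ?_
    rw [norm_mul, norm_pow]
    refine mul_le_of_le_one_left (by positivity) ?_
    by_cases h : n ∈ Set.range pentagonal
    · obtain ⟨k, rfl⟩ := h
      rw [coeff_pentagonalSeries_pentagonal]
      rcases Int.units_eq_one_or (Int.negOnePow k) with h | h <;> simp [h]
    · simp [coeff_pentagonalSeries_eq_zero ℂ h]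
  have h1 : HasSum (fun k : ℤ => ((Int.negOnePow k : ℤ) : ℂ) * x ^ pentagonal k)
      (∑' n, (pentagonalSeries ℂ).coeff n * x ^ n) := by
    have := (pentagonal_injective.hasSum_iff
      (f := fun n => (pentagonalSeries ℂ).coeff n * x ^ n)
      (fun n hn => by simp [coeff_pentagonalSeries_eq_zero ℂ hn])).2 hs.hasSum
    convert this using 2 with k
    simp
  have h2 : HasSum (fun k : ℕ => (-1) ^ k * (x ^ pentagonal (-k) - x ^ pentagonal (k + 1)))
      (∑' n, (pentagonalSeries ℂ).coeff n * x ^ n) := by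
    rw [← neg_injective.hasSum_iff (fun x hx ↦ by absurd hx; use -x; simp)] at h1
    convert h1.nat_add_neg_add_one using 2 with k
    simp_rw [Function.comp_apply, neg_neg, Int.negOnePow_add]
    simp
    ring
  have hsum : ∀ k, Summable
      (fun n ↦ x ^ ((k + 1) * n) * ∏ i ∈ Finset.range (n + 1), (1 - x ^ (k + i + 1))) :=
    fun k => Summable.of_norm_bounded (hg.mul_left _) (term_bound hx k)
  have h3 := Pentagonal.tprod_one_sub_pow (x := x) (tendsto_pow_atTop_nhds_zero_of_norm_lt_one hx)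
    hsum (fun k => by
      apply multipliable_one_add_of_summable (f := fun n ↦ -x ^ (n + k + 1))
      simpa [add_assoc] using (summable_nat_add_iff (k + 1)).mpr hg) h2.summable (by
      have hb : ∀ k : ℕ, ‖(-1) ^ (k + 1) * x ^ ((k + 1) * (3 * k + 4) / 2) *
          ∑' (n : ℕ), x ^ ((k + 1) * n) * ∏ i ∈ Finset.range (n + 1), (1 - x ^ (k + i + 1))‖ ≤
          ‖x‖ ^ k * (Real.exp ((1 - ‖x‖)⁻¹) * (1 - ‖x‖)⁻¹) := by
        intro k
        rw [norm_mul, norm_mul, norm_pow, norm_neg, norm_one, one_pow, one_mul, norm_pow]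
        refine mul_le_mul ?_ ?_ (by positivity) (by positivity)
        · refine pow_le_pow_of_le_one (norm_nonneg _) hx.le ?_
          rw [Nat.le_div_iff_mul_le (by norm_num)]; nlinarith
        · rw [← tsum_geometric_of_lt_one (norm_nonneg _) hx, ← tsum_mul_left]
          rw [tsum_geometric_of_lt_one (norm_nonneg _) hx]
          exact tsum_of_norm_bounded (hg.mul_left _).hasSum (term_bound hx k)
      refine squeeze_zero_norm hb ?_
      simpa using (tendsto_pow_atTop_nhds_zero_of_lt_one (norm_nonneg x) hx).mul_const _)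
  rw [h3, h2.tsum_eq]
  exact hs.hasSum

lemma hasSum_mul_series {x : ℂ} {A B : ℂ⟦X⟧} {a b : ℂ}
    (hA : HasSum (fun n => A.coeff n * x ^ n) a) (hB : HasSum (fun n => B.coeff n * x ^ n) b) :
    HasSum (fun n => (A * B).coeff n * x ^ n) (a * b) := by
  have h1 := hA.summable.norm
  have h2 := hB.summable.norm
  have h3 := (summable_norm_sum_mul_antidiagonal_of_summable_norm h1 h2).of_norm.hasSum
  rw [← tsum_mul_tsum_eq_tsum_sum_antidiagonal_of_summable_norm h1 h2, hA.tsum_eq,
    hB.tsum_eq] at h3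
  have h4 : (fun n => (A * B).coeff n * x ^ n) = fun n => ∑ kl ∈ antidiagonal n,
      A.coeff kl.1 * x ^ kl.1 * (B.coeff kl.2 * x ^ kl.2) := by
    funext n
    rw [PowerSeries.coeff_mul, Finset.sum_mul]
    refine Finset.sum_congr rfl fun kl hkl => ?_
    rw [← mem_antidiagonal.1 hkl]; ring
  rw [h4]; exact h3

lemma hasSum_pow_series {x : ℂ} {A : ℂ⟦X⟧} {a : ℂ}
    (hA : HasSum (fun n => A.coeff n * x ^ n) a) (k : ℕ) :
    HasSum (fun n => (A ^ k).coeff n * x ^ n) (a ^ k) := by
  induction k with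
  | zero =>
    have := hasSum_ite_eq (0 : ℕ) (1 : ℂ)
    convert this using 2 with n
    · simp only [pow_zero, PowerSeries.coeff_one]; split_ifs with h <;> simp [h]
    · simp
  | succ k ih => rw [pow_succ, pow_succ]; exact hasSum_mul_series ih hA

lemma map_pent {R S : Type*} [CommRing R] [CommRing S] (φ : R →+* S) :
    (pentagonalSeries R).map φ = pentagonalSeries S := by
  ext n
  rw [PowerSeries.coeff_map]
  by_cases h : n ∈ Set.range pentagonal
  · obtain ⟨k, rfl⟩ := h
    simp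
  · simp [coeff_pentagonalSeries_eq_zero _ h]

lemma disc_qexp : qExpansion 1 CuspForm.discriminant = X * pentagonalSeries ℂ ^ 24 := by
  ext m
  refine (ModularFormClass.qExpansion_coeff_unique one_pos one_mem_strictPeriods_SL
    (f := CuspForm.discriminant) (c := fun m => (X * pentagonalSeries ℂ ^ 24).coeff m)
    (fun τ => ?_) m).symm
  have hq : ‖Periodic.qParam 1 (τ : ℂ)‖ < 1 := Periodic.norm_qParam_lt_one one_pos τ.im_pos
  have hX : HasSum (fun n => (X : ℂ⟦X⟧).coeff n * Periodic.qParam 1 (τ : ℂ) ^ n)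
      (Periodic.qParam 1 (τ : ℂ)) := by
    have := hasSum_ite_eq (1 : ℕ) (Periodic.qParam 1 (τ : ℂ))
    convert this using 2 with n
    simp only [PowerSeries.coeff_X]; split_ifs with h <;> simp [h]
  have := hasSum_mul_series hX (hasSum_pow_series (pent_hasSum hq) 24)
  rw [CuspForm.coe_discriminant, discriminant_eq_q_prod]
  simp only [smul_eq_mul, eta_q]
  rwa [(multipliable_one_sub_pow hq).tprod_pow]

noncomputable def sigZ (k : ℕ) : ℤ⟦X⟧ := PowerSeries.mk fun n => (ArithmeticFunction.sigma k n : ℤ)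

lemma E4_qexp : qExpansion 1 E₄ = (1 + 240 * sigZ 3 : ℤ⟦X⟧).map (Int.castRingHom ℂ) := by
  ext m
  rw [EisensteinSeries.E_qExpansion_coeff _ ⟨2, rfl⟩]
  have hb : bernoulli 4 = -1 / 30 := by decide +kernel
  have h240 : (240 : ℤ⟦X⟧) = C 240 := rfl
  rw [PowerSeries.coeff_map, map_add, h240, coeff_C_mul, PowerSeries.coeff_one, hb]
  split_ifs with h
  · simp [h, sigZ]
  · simp [sigZ]; norm_num

lemma E6_qexp : qExpansion 1 E₆ = (1 - 504 * sigZ 5 : ℤ⟦X⟧).map (Int.castRingHom ℂ) := by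
  ext m
  rw [EisensteinSeries.E_qExpansion_coeff _ ⟨3, rfl⟩]
  have hb : bernoulli 6 = 1 / 42 := by decide +kernel
  have h504 : (504 : ℤ⟦X⟧) = C 504 := rfl
  rw [PowerSeries.coeff_map, map_sub, h504, coeff_C_mul, PowerSeries.coeff_one, hb]
  split_ifs with h
  · simp [h, sigZ]
  · simp [sigZ]; norm_num

lemma mapZC_inj : Function.Injective (PowerSeries.map (Int.castRingHom ℂ)) :=
  PowerSeries.map_injective _ (RingHom.injective_int _)

lemma disc_eq_Z : (1728 : ℤ⟦X⟧) * (X * pentagonalSeries ℤ ^ 24) =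
    (1 + 240 * sigZ 3) ^ 3 - (1 - 504 * sigZ 5) ^ 2 := by
  apply mapZC_inj
  have h1 : ((1728 : ℂ) • (CuspForm.discriminant : ℍ → ℂ)) = ⇑(E₄.pow 3) - ⇑(E₆.pow 2) := by
    ext z
    have := discriminant_eq_E₄_cube_sub_E₆_sq z
    simp only [Pi.smul_apply, CuspForm.coe_discriminant, smul_eq_mul, Pi.sub_apply,
      ModularForm.coe_pow, Pi.pow_apply, this]
    ring
  have h2 := congrArg (qExpansion 1) h1
  rw [ModularForm.qExpansion_smul one_pos one_mem_strictPeriods_SL,
    ModularForm.qExpansion_sub one_pos one_mem_strictPeriods_SL,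
    ModularForm.qExpansion_pow one_pos one_mem_strictPeriods_SL,
    ModularForm.qExpansion_pow one_pos one_mem_strictPeriods_SL, E4_qexp, E6_qexp,
    disc_qexp] at h2
  rw [map_sub, map_pow, map_pow, ← h2, map_mul, map_mul, map_pow, map_pent, map_X, smul_eq_C_mul,
    map_ofNat, map_ofNat]

noncomputable def D : (ZMod 2)⟦X⟧ :=
  open Classical in PowerSeries.mk fun n => if Odd n ∧ IsSquare n then 1 else 0

lemma card_divisors_odd_iff (n : ℕ) (hn : n ≠ 0) : Odd (n.divisors.card) ↔ IsSquare n := by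
  rw [Nat.card_divisors hn]
  constructor
  · intro h
    have h2 : ∀ p, Even (n.factorization p) := by
      intro p
      by_cases hp : p ∈ n.primeFactors
      · have := Odd.of_dvd_nat h (Finset.dvd_prod_of_mem _ hp)
        exact Nat.odd_add_one.1 this |> Nat.not_odd_iff_even.1
      · have : n.factorization p = 0 := by
          rw [← Finsupp.notMem_support_iff]; simpa using hp
        simp [this]
    refine ⟨n.factorization.prod fun p e => p ^ (e / 2), ?_⟩
    conv_lhs => rw [← Nat.prod_factorization_pow_eq_self hn]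
    rw [Finsupp.prod, Finsupp.prod, ← Finset.prod_mul_distrib]
    refine Finset.prod_congr rfl fun p _ => ?_
    rw [← pow_add]; congr 1
    obtain ⟨c, hc⟩ := h2 p; omega
  · rintro ⟨m, rfl⟩
    have hm : m ≠ 0 := by rintro rfl; simp at hn
    refine Finset.prod_induction _ Odd (fun a b => Odd.mul) odd_one fun p _ => ?_
    rw [Nat.factorization_mul hm hm]
    exact ⟨m.factorization p, by simp; ring⟩

lemma card_odd_divisors_half (m : ℕ) (hm : m ≠ 0) :
    ((2 * m).divisors.filter Odd) = (m.divisors.filter Odd) := by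
  ext d
  simp only [mem_filter, Nat.mem_divisors]
  constructor
  · rintro ⟨⟨h1, _⟩, h2⟩
    exact ⟨⟨(Nat.coprime_two_right.2 h2).dvd_of_dvd_mul_left h1, hm⟩, h2⟩
  · rintro ⟨⟨h1, _⟩, h2⟩
    exact ⟨⟨h1.mul_left 2, by omega⟩, h2⟩

lemma sq_map_two (A : (ZMod 2)⟦X⟧) (n : ℕ) :
    (A ^ 2).coeff n = if 2 ∣ n then A.coeff (n / 2) else 0 := by
  rw [sq, PowerSeries.coeff_mul]
  have key : ∑ p ∈ (antidiagonal n).filter (fun p => p.1 ≠ p.2), A.coeff p.1 * A.coeff p.2 = 0 := by
    refine Finset.sum_involution (fun p _ => p.swap) ?_ ?_ ?_ ?_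
    · intro p _; simp only [Prod.fst_swap, Prod.snd_swap]; rw [mul_comm]
      exact CharTwo.add_self_eq_zero _
    · intro p hp _ h
      simp only [mem_filter] at hp
      exact hp.2 (by have := congrArg Prod.fst h; simpa using this.symm)
    · intro p hp
      simp only [mem_filter, Finset.HasAntidiagonal.mem_antidiagonal, Prod.fst_swap, Prod.snd_swap] at hp ⊢
      exact ⟨by omega, fun h => hp.2 h.symm⟩
    · intro p _; simp
  rw [← Finset.sum_filter_add_sum_filter_not _ (fun p => p.1 ≠ p.2), key, zero_add]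
  split_ifs with h
  · obtain ⟨m, rfl⟩ := h
    rw [Finset.sum_eq_single (m, m)]
    · have : ∀ a : ZMod 2, a * a = a := by decide
      simp [this]
    · rintro ⟨a, b⟩ hab hne
      simp only [mem_filter, Finset.HasAntidiagonal.mem_antidiagonal, not_not] at hab
      exfalso; apply hne; ext <;> simp <;> omega
    · intro h; exfalso; apply h; simp; ring
  · refine Finset.sum_eq_zero fun p hp => ?_
    simp only [mem_filter, Finset.HasAntidiagonal.mem_antidiagonal, not_not] at hp
    exfalso; apply h; omega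

lemma sum_pow_cast (k : ℕ) (hk : k ≠ 0) (n : ℕ) :
    ((ArithmeticFunction.sigma k n : ℕ) : ZMod 2) = ((n.divisors.filter Odd).card : ZMod 2) := by
  rw [ArithmeticFunction.sigma_apply, Finset.card_filter]
  push_cast
  refine Finset.sum_congr rfl fun d _ => ?_
  split_ifs with h
  · rw [(ZMod.natCast_eq_one_iff_odd).2 h]; simp
  · rw [(ZMod.natCast_eq_zero_iff_even).2 (Nat.not_odd_iff_even.1 h)]; simp [hk]

noncomputable def cZ : ℤ⟦X⟧ :=
  PowerSeries.mk fun n => ∑ d ∈ n.divisors, ((5 * (d : ℤ) ^ 3 + 7 * (d : ℤ) ^ 5) / 4)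

lemma div4 (d : ℕ) : 4 * ((5 * (d : ℤ) ^ 3 + 7 * (d : ℤ) ^ 5) / 4) = 5 * (d : ℤ) ^ 3 + 7 * (d : ℤ) ^ 5
    ∧ ((((5 * (d : ℤ) ^ 3 + 7 * (d : ℤ) ^ 5) / 4 : ℤ) : ZMod 2) = if Odd d then 1 else 0) := by
  rcases Nat.even_or_odd' d with ⟨m, rfl | rfl⟩
  · have h : (5 * ((2 * m : ℕ) : ℤ) ^ 3 + 7 * ((2 * m : ℕ) : ℤ) ^ 5) =
        4 * (2 * (5 * m ^ 3 + 28 * m ^ 5)) := by push_cast; ring
    rw [h, Int.mul_ediv_cancel_left _ (by norm_num)]
    refine ⟨rfl, ?_⟩
    rw [if_neg (by simp)]
    push_cast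
    rw [show (2 : ZMod 2) = 0 from rfl, zero_mul]
  · obtain ⟨e, he⟩ : ∃ e : ℤ, (m : ℤ) * (m + 1) = 2 * e := (Int.even_mul_succ_self m).two_dvd
    have h : (5 * ((2 * m + 1 : ℕ) : ℤ) ^ 3 + 7 * ((2 * m + 1 : ℕ) : ℤ) ^ 5) =
        4 * ((2 * m + 1) ^ 3 * (3 + 14 * e)) := by
      push_cast
      linear_combination (28 * (2 * (m : ℤ) + 1) ^ 3) * he
    rw [h, Int.mul_ediv_cancel_left _ (by norm_num)]
    refine ⟨rfl, ?_⟩
    rw [if_pos (by simp)]
    push_cast
    rw [show (2 : ZMod 2) = 0 from rfl, show (14 : ZMod 2) = 0 from rfl,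
      show (3 : ZMod 2) = 1 from rfl]
    simp

lemma cZ_eq : 4 * cZ = 5 * sigZ 3 + 7 * sigZ 5 := by
  ext n
  have h4 : (4 : ℤ⟦X⟧) = C 4 := rfl
  have h5 : (5 : ℤ⟦X⟧) = C 5 := rfl
  have h7 : (7 : ℤ⟦X⟧) = C 7 := rfl
  rw [h4, h5, h7, map_add, coeff_C_mul, coeff_C_mul, coeff_C_mul]
  simp only [cZ, sigZ, coeff_mk, ArithmeticFunction.sigma_apply]
  push_cast
  rw [Finset.mul_sum, Finset.mul_sum, Finset.mul_sum, ← Finset.sum_add_distrib]
  exact Finset.sum_congr rfl fun d _ => (div4 d).1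

lemma X_mul_pent_pow : X * pentagonalSeries (ZMod 2) ^ 24 = D := by
  have h1 : (64 : ℤ⟦X⟧) * (27 * (X * pentagonalSeries ℤ ^ 24)) =
      64 * (9 * cZ + 2700 * sigZ 3 ^ 2 + 216000 * sigZ 3 ^ 3 - 3969 * sigZ 5 ^ 2) := by
    linear_combination disc_eq_Z - 144 * cZ_eq
  have h64 : (64 : ℤ⟦X⟧) ≠ 0 := by
    have : (64 : ℤ⟦X⟧) = C 64 := rfl
    rw [this]; intro h
    have := congrArg constantCoeff h
    rw [constantCoeff_C, map_zero] at this
    norm_num at this
  have h2 := congrArg (PowerSeries.map (Int.castRingHom (ZMod 2))) (mul_left_cancel₀ h64 h1)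
  have hc : CharP (ZMod 2)⟦X⟧ 2 :=
    charP_of_injective_ringHom (PowerSeries.C_injective (R := ZMod 2)) 2
  have e2 : (2 : (ZMod 2)⟦X⟧) = 0 := CharTwo.two_eq_zero
  simp only [map_mul, map_add, map_sub, map_pow, map_pent, map_X, map_ofNat] at h2
  have h3 : X * pentagonalSeries (ZMod 2) ^ 24 = cZ.map (Int.castRingHom (ZMod 2)) +
      ((sigZ 5).map (Int.castRingHom (ZMod 2))) ^ 2 := by
    linear_combination h2 + (-13 * (X * pentagonalSeries (ZMod 2) ^ 24) +
      4 * cZ.map (Int.castRingHom (ZMod 2)) + 1350 * ((sigZ 3).map (Int.castRingHom (ZMod 2))) ^ 2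
      + 108000 * ((sigZ 3).map (Int.castRingHom (ZMod 2))) ^ 3
      - 1985 * ((sigZ 5).map (Int.castRingHom (ZMod 2))) ^ 2) * e2
  rw [h3]
  ext n
  rw [map_add, sq_map_two, PowerSeries.coeff_map, PowerSeries.coeff_map]
  have hc : (Int.castRingHom (ZMod 2)) (cZ.coeff n) = ((n.divisors.filter Odd).card : ZMod 2) := by
    simp only [cZ, coeff_mk, map_sum, Finset.card_filter]
    push_cast
    exact Finset.sum_congr rfl fun d _ => (div4 d).2
  rw [hc]
  simp only [D, sigZ, coeff_mk, eq_intCast, Int.cast_natCast]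
  rw [sum_pow_cast 5 (by norm_num)]
  rcases Nat.even_or_odd' n with ⟨m, rfl | rfl⟩
  · rw [if_pos (by simp), if_neg (by simp), Nat.mul_div_cancel_left _ (by norm_num)]
    rcases eq_or_ne m 0 with rfl | hm
    · simp
    · rw [card_odd_divisors_half m hm]; exact CharTwo.add_self_eq_zero _
  · rw [if_neg (by omega), add_zero]
    have : (2 * m + 1).divisors.filter Odd = (2 * m + 1).divisors := by
      refine Finset.filter_true_of_mem fun d hd => ?_
      exact Odd.of_dvd_nat ⟨m, rfl⟩ (Nat.dvd_of_mem_divisors hd)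
    rw [this]
    have h5 := card_divisors_odd_iff (2 * m + 1) (by omega)
    split_ifs with h
    · exact (ZMod.natCast_eq_one_iff_odd).2 (h5.2 h.2)
    · refine (ZMod.natCast_eq_zero_iff_even).2 (Nat.not_odd_iff_even.1 fun h' => h ?_)
      exact ⟨⟨m, rfl⟩, h5.1 h'⟩

lemma pent_const (R : Type*) [CommRing R] : constantCoeff (pentagonalSeries R) = 1 := by
  have := coeff_pentagonalSeries_pentagonal R 0
  simpa [pentagonal] using this

lemma structure_mod_two (k : ℕ) : ∀ (w : ℤ) (_ : w = 12 * k) (F : ModularForm 𝒮ℒ w) (A : ℤ⟦X⟧),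
    qExpansion 1 F = A.map (Int.castRingHom ℂ) →
    ∃ P : Polynomial (ZMod 2), P.natDegree ≤ k ∧
      A.map (Int.castRingHom (ZMod 2)) = Polynomial.aeval D P := by
  induction k with
  | zero =>
    intro w hw F A hA
    obtain rfl : w = 0 := by simpa using hw
    obtain ⟨c, hc⟩ := ModularFormClass.levelOne_weight_zero_const F
    have h1 : (F : ℍ → ℂ) = c • ((1 : ModularForm 𝒮ℒ 0) : ℍ → ℂ) := by
      rw [hc]; ext z; simp
    rw [h1, ModularForm.qExpansion_smul one_pos one_mem_strictPeriods_SL,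
      ModularForm.qExpansion_one] at hA
    refine ⟨Polynomial.C ((A.coeff 0 : ℤ) : ZMod 2), by simp, ?_⟩
    ext n
    have h2 := congrArg (PowerSeries.coeff n) hA
    rw [Polynomial.aeval_C, PowerSeries.coeff_map]
    rcases eq_or_ne n 0 with rfl | hn
    · simp
    · have : A.coeff n = 0 := by
        simp only [PowerSeries.coeff_map, map_smul, PowerSeries.coeff_one, hn, if_false, smul_zero,
          eq_intCast] at h2
        exact_mod_cast h2.symm
      rw [this, PowerSeries.algebraMap_apply, PowerSeries.coeff_C, if_neg hn, map_zero]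
  | succ k ih =>
    intro w hw F A hA
    let G : ModularForm 𝒮ℒ w := (E₄.pow (3 * (k + 1))).mcast (by rw [hw]; push_cast; ring)
    have hG : qExpansion 1 G = ((1 + 240 * sigZ 3 : ℤ⟦X⟧) ^ (3 * (k + 1))).map
        (Int.castRingHom ℂ) := by
      rw [ModularForm.qExpansion_mcast, ModularForm.qExpansion_pow one_pos one_mem_strictPeriods_SL,
        E4_qexp, map_pow]
    set a : ℤ := constantCoeff A with ha
    let F' : ModularForm 𝒮ℒ w := F - (a : ℂ) • G
    set A' : ℤ⟦X⟧ := A - C a * (1 + 240 * sigZ 3 : ℤ⟦X⟧) ^ (3 * (k + 1)) with hA'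
    have hF' : qExpansion 1 F' = A'.map (Int.castRingHom ℂ) := by
      have : (F' : ℍ → ℂ) = ⇑F - ⇑((a : ℂ) • G) := rfl
      rw [this, ModularForm.qExpansion_sub one_pos one_mem_strictPeriods_SL]
      have : (((a : ℂ) • G : ModularForm 𝒮ℒ w) : ℍ → ℂ) = (a : ℂ) • ⇑G := rfl
      rw [this, ModularForm.qExpansion_smul one_pos one_mem_strictPeriods_SL, hA, hG, hA',
        map_sub, map_mul, map_C, smul_eq_C_mul]
      rfl
    have h0 : constantCoeff A' = 0 := by
      have : constantCoeff (sigZ 3) = 0 := by simp [sigZ, ← coeff_zero_eq_constantCoeff_apply]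
      simp [hA', ha, this]
    have h0' : (qExpansion 1 F').coeff 0 = 0 := by
      rw [hF', PowerSeries.coeff_map, coeff_zero_eq_constantCoeff_apply, h0, map_zero]
    obtain ⟨A'', hA''⟩ := X_dvd_iff.2 h0
    have hu : IsUnit (pentagonalSeries ℤ ^ 24) := by
      apply IsUnit.pow
      rw [PowerSeries.isUnit_iff_constantCoeff, pent_const]; exact isUnit_one
    obtain ⟨V, hV⟩ := hu.exists_right_inv
    have hB := qExpansion_eq_qExpansion_discriminant_mul F' h0'
    have hd : qExpansion 1 discriminant = X * pentagonalSeries ℂ ^ 24 := disc_qexp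
    have hB2 : qExpansion 1 (CuspForm.discriminantEquiv (toCuspForm F' h0')) =
        (A'' * V).map (Int.castRingHom ℂ) := by
      rw [hF', hd, hA'', map_mul, map_X, mul_assoc] at hB
      have h3 := mul_left_cancel₀ X_ne_zero hB
      have h4 := congrArg (PowerSeries.map (Int.castRingHom ℂ)) hV
      rw [map_mul, map_pow, map_pent, map_one] at h4
      rw [map_mul, h3]
      linear_combination (-(qExpansion 1 (CuspForm.discriminantEquiv (toCuspForm F' h0')))) * h4
    obtain ⟨P, hP, hPA⟩ := ih (w - 12) (by rw [hw]; push_cast; ring) _ _ hB2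
    refine ⟨Polynomial.C (a : ZMod 2) + Polynomial.X * P, ?_, ?_⟩
    · refine (Polynomial.natDegree_add_le _ _).trans (max_le (by simp) ?_)
      refine Polynomial.natDegree_mul_le.trans ?_
      have := Polynomial.natDegree_X_le (R := ZMod 2)
      omega
    · have hc : CharP (ZMod 2)⟦X⟧ 2 :=
        charP_of_injective_ringHom (PowerSeries.C_injective (R := ZMod 2)) 2
      have e2 : (2 : (ZMod 2)⟦X⟧) = 0 := CharTwo.two_eq_zero
      have e240 : (240 : (ZMod 2)⟦X⟧) = 0 := by linear_combination 120 * e2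
      have h4 := congrArg (PowerSeries.map (Int.castRingHom (ZMod 2))) hV
      rw [map_mul, map_pow, map_pent, map_one] at h4
      have h5 : A = C a * (1 + 240 * sigZ 3 : ℤ⟦X⟧) ^ (3 * (k + 1)) + X * A'' := by
        rw [← hA'', hA']; ring
      rw [map_add, map_mul, Polynomial.aeval_X, Polynomial.aeval_C, ← hPA, ← X_mul_pent_pow, h5]
      simp only [map_mul, map_add, map_pow, map_X, map_one, map_ofNat, e240, zero_mul,
        add_zero, one_pow, mul_one, eq_intCast, map_intCast]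
      linear_combination (-(X * PowerSeries.map (Int.castRingHom (ZMod 2)) A'')) * h4

noncomputable def T (p : ℕ) : (ZMod 2)⟦X⟧ →ₗ[ZMod 2] (ZMod 2)⟦X⟧ where
  toFun f := PowerSeries.mk fun n => f.coeff (p * n) + if p ∣ n then f.coeff (n / p) else 0
  map_add' f g := by
    ext n; simp only [coeff_mk, map_add]; split_ifs <;> ring
  map_smul' c f := by
    ext n; simp only [coeff_mk, map_smul, smul_eq_mul, RingHom.id_apply]; split_ifs <;> ring

lemma coeff_T (p : ℕ) (f : (ZMod 2)⟦X⟧) (n : ℕ) :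
    (T p f).coeff n = f.coeff (p * n) + if p ∣ n then f.coeff (n / p) else 0 := by
  simp [T]

theorem T_D_pow (p : ℕ) (hp : p.Prime) (hp2 : Odd p) (k : ℕ) :
    ∃ P : Polynomial (ZMod 2), P.natDegree ≤ k ∧ T p (D ^ k) = Polynomial.aeval D P := by
  rcases Nat.eq_zero_or_pos k with rfl | hk
  · refine ⟨0, by simp, ?_⟩
    ext n
    rw [coeff_T]
    simp only [pow_zero, PowerSeries.coeff_one, map_zero]
    rcases eq_or_ne n 0 with rfl | hn
    · simp; rfl
    · rw [if_neg (mul_ne_zero hp.ne_zero hn), zero_add]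
      split_ifs with h1 h2
      · exfalso; obtain ⟨m, rfl⟩ := h1
        rw [Nat.mul_div_cancel_left _ hp.pos] at h2; simp [h2] at hn
      · rfl
      · rfl
  let F : ModularForm 𝒮ℒ (k * 12) :=
    (ModularFormClass.modularForm CuspForm.discriminant).pow k
  have hF : qExpansion 1 F = ((X * pentagonalSeries ℤ ^ 24) ^ k).map (Int.castRingHom ℂ) := by
    rw [ModularForm.qExpansion_pow one_pos one_mem_strictPeriods_SL]
    have : qExpansion 1 (ModularFormClass.modularForm CuspForm.discriminant) =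
      X * pentagonalSeries ℂ ^ 24 := disc_qexp
    rw [this, map_pow, map_mul, map_pow, map_pent, map_X]
  set B := (X * pentagonalSeries ℤ ^ 24) ^ k with hB
  let A : ℤ⟦X⟧ := PowerSeries.mk fun n => B.coeff (p * n) +
    (p : ℤ) ^ (12 * k - 1) * if p ∣ n then B.coeff (n / p) else 0
  have hA : qExpansion 1 (hecke F p hp) = A.map (Int.castRingHom ℂ) := by
    ext n
    rw [hecke_coeff, hF]
    have : ((k : ℤ) * 12 - 1) = ((12 * k - 1 : ℕ) : ℤ) := by omega
    rw [this, zpow_natCast]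
    simp only [PowerSeries.coeff_map, A, coeff_mk, eq_intCast]
    split_ifs <;> simp
  obtain ⟨P, hP, hPA⟩ := structure_mod_two k _ (by ring) _ A hA
  refine ⟨P, hP, ?_⟩
  rw [← hPA]
  have hBD : B.map (Int.castRingHom (ZMod 2)) = D ^ k := by
    rw [hB, map_pow, map_mul, map_pow, map_pent, map_X, X_mul_pent_pow]
  ext n
  rw [coeff_T, ← hBD]
  simp only [PowerSeries.coeff_map, A, coeff_mk, eq_intCast]
  push_cast
  rw [(ZMod.natCast_eq_one_iff_odd).2 hp2]
  split_ifs <;> simp

end Pool.Agent.Lib.MP_a3366f_nt
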