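import Mathlib
import Pool.Agent.Lib.MP_a3366f_nt.Eta

open Finset

namespace Pool.Agent.Lib.MP_a3366f_nt

abbrev R2 := Polynomial (ZMod 2)
abbrev S2 := PowerSeries (ZMod 2)

instance : CharP S2 2 :=
  charP_of_injective_ringHom (PowerSeries.C_injective (R := ZMod 2)) 2

lemma coeff_D (n : ℕ) : D.coeff n = open Classical in if Odd n ∧ IsSquare n then 1 else 0 := by
  simp [D]

lemma exists_W : ∃ W : S2, PowerSeries.constantCoeff W = 1 ∧ D = PowerSeries.X * W := by
  refine ⟨PowerSeries.pentagonalSeries (ZMod 2) ^ 24, ?_, X_mul_pent_pow.symm⟩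
  rw [map_pow, pent_const, one_pow]

lemma X_pow_dvd_of_aeval (k : ℕ) : ∀ P : R2,
    (PowerSeries.X : S2) ^ k ∣ Polynomial.aeval D P → Polynomial.X ^ k ∣ P := by
  obtain ⟨W, hW, hD⟩ := exists_W
  have hu : IsUnit W := by rw [PowerSeries.isUnit_iff_constantCoeff, hW]; exact isUnit_one
  induction k with
  | zero => simp
  | succ k ih =>
    intro P hP
    have h1 : P = Polynomial.X * P.divX + Polynomial.C (P.coeff 0) :=
      (Polynomial.X_mul_divX_add P).symm
    have h2 : Polynomial.aeval D P =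
        PowerSeries.X * (W * Polynomial.aeval D P.divX) + PowerSeries.C (P.coeff 0) := by
      conv_lhs => rw [h1]
      rw [map_add, map_mul, Polynomial.aeval_X, Polynomial.aeval_C, PowerSeries.algebraMap_apply]
      rw [← mul_assoc, ← hD]
      rfl
    have h3 : P.coeff 0 = 0 := by
      have := PowerSeries.X_dvd_iff.1 ((dvd_pow_self _ (Nat.succ_ne_zero k)).trans hP)
      rw [h2] at this
      simpa using this
    rw [h2, h3, map_zero, add_zero, pow_succ'] at hP
    have h4 := (hu.dvd_mul_left).1 ((mul_dvd_mul_iff_left PowerSeries.X_ne_zero).1 hP)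
    rw [h1, h3, map_zero, add_zero, pow_succ']
    exact mul_dvd_mul_left _ (ih _ h4)

lemma eq_zero_of_coeff {k : ℕ} {P : R2} (hP : P.natDegree ≤ k)
    (h : ∀ n ≤ k, (Polynomial.aeval D P).coeff n = 0) : P = 0 := by
  have h1 := X_pow_dvd_of_aeval (k + 1) P
    (PowerSeries.X_pow_dvd_iff.2 fun m hm => h m (by omega))
  by_contra h0
  have := Polynomial.natDegree_le_of_dvd h1 h0
  simp at this; omega

lemma aeval_inj : Function.Injective (Polynomial.aeval D : R2 → S2) := by
  rw [injective_iff_map_eq_zero]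
  intro P hP
  exact eq_zero_of_coeff le_rfl fun n _ => by simp [hP]

noncomputable def tau (p : ℕ) : R2 →ₗ[ZMod 2] R2 :=
  (Polynomial.basisMonomials (ZMod 2)).constr (ZMod 2) fun k =>
    Classical.epsilon fun P : R2 => P.natDegree ≤ k ∧ T p (D ^ k) = Polynomial.aeval D P

lemma tau_X_pow {p : ℕ} (hp : p.Prime) (hp2 : Odd p) (k : ℕ) :
    (tau p (Polynomial.X ^ k)).natDegree ≤ k ∧
      T p (D ^ k) = Polynomial.aeval D (tau p (Polynomial.X ^ k)) := by
  have h : tau p (Polynomial.X ^ k) = Classical.epsilon fun P : R2 =>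
      P.natDegree ≤ k ∧ T p (D ^ k) = Polynomial.aeval D P := by
    have := (Polynomial.basisMonomials (ZMod 2)).constr_basis (ZMod 2) (fun k =>
      Classical.epsilon fun P : R2 => P.natDegree ≤ k ∧ T p (D ^ k) = Polynomial.aeval D P) k
    rw [← this, tau, Polynomial.coe_basisMonomials, Polynomial.X_pow_eq_monomial]
  rw [h]
  exact Classical.epsilon_spec (T_D_pow p hp hp2 k)

lemma aeval_tau {p : ℕ} (hp : p.Prime) (hp2 : Odd p) (P : R2) :
    Polynomial.aeval D (tau p P) = T p (Polynomial.aeval D P) := by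
  induction P using Polynomial.induction_on' with
  | add P Q hP hQ => simp [hP, hQ]
  | monomial k a =>
    rw [← Polynomial.smul_X_eq_monomial, map_smul, map_smul, map_smul, map_smul,
      map_pow (Polynomial.aeval D), Polynomial.aeval_X, (tau_X_pow hp hp2 k).2]

lemma T_comm {p q : ℕ} (hp : p.Prime) (hq : q.Prime) (f : S2) : T p (T q f) = T q (T p f) := by
  rcases eq_or_ne p q with rfl | hne
  · rfl
  have hc : Nat.Coprime p q := (Nat.coprime_primes hp hq).2 hne
  ext n
  simp only [coeff_T]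
  rw [mul_left_comm q p n]
  have h1 : q ∣ p * n ↔ q ∣ n := hc.symm.dvd_mul_left
  have h2 : p ∣ q * n ↔ p ∣ n := hc.dvd_mul_left
  by_cases hpn : p ∣ n <;> by_cases hqn : q ∣ n
  · obtain ⟨m, rfl⟩ := hc.mul_dvd_of_dvd_of_dvd hpn hqn
    have e1 : p * q * m / p = q * m := by rw [mul_assoc, Nat.mul_div_cancel_left _ hp.pos]
    have e2 : p * q * m / q = p * m := by
      rw [mul_comm p q, mul_assoc, Nat.mul_div_cancel_left _ hq.pos]
    have e3 : p * (p * q * m) / q = p * (p * m) := by
      rw [show p * (p * q * m) = q * (p * (p * m)) by ring, Nat.mul_div_cancel_left _ hq.pos]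
    have e4 : q * (p * q * m) / p = q * (q * m) := by
      rw [show q * (p * q * m) = p * (q * (q * m)) by ring, Nat.mul_div_cancel_left _ hp.pos]
    simp only [h1, h2, hpn, hqn, if_true, e1, e2, e3, e4, dvd_mul_right,
      Nat.mul_div_cancel_left _ hq.pos, Nat.mul_div_cancel_left _ hp.pos]
    ring
  · obtain ⟨m, rfl⟩ := hpn
    have e4 : q * (p * m) / p = q * m := by
      rw [mul_left_comm, Nat.mul_div_cancel_left _ hp.pos]
    have : ¬ q ∣ m := fun h => hqn (h.mul_left _)
    simp only [h1, h2, hqn, if_true, if_false, e4, dvd_mul_right,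
      Nat.mul_div_cancel_left _ hp.pos, this]
    ring
  · obtain ⟨m, rfl⟩ := hqn
    have e4 : p * (q * m) / q = p * m := by
      rw [mul_left_comm, Nat.mul_div_cancel_left _ hq.pos]
    have : ¬ p ∣ m := fun h => hpn (h.mul_left _)
    simp only [h1, h2, hpn, if_true, if_false, e4, dvd_mul_right,
      Nat.mul_div_cancel_left _ hq.pos, this]
    ring
  · simp only [h1, h2, hpn, hqn, if_false]

lemma tau_comm {p q : ℕ} (hp : p.Prime) (hp2 : Odd p) (hq : q.Prime) (hq2 : Odd q) (P : R2) :
    tau p (tau q P) = tau q (tau p P) := by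
  apply aeval_inj
  simp only [aeval_tau hp hp2, aeval_tau hq hq2, T_comm hp hq]

def cD : ℕ → ℕ → ZMod 2
  | 0, n => if n = 0 then 1 else 0
  | k + 1, n => (if 1 ≤ n then cD k (n - 1) else 0) + (if 9 ≤ n then cD k (n - 9) else 0) +
      (if 25 ≤ n then cD k (n - 25) else 0) + (if 49 ≤ n then cD k (n - 49) else 0)

lemma D_trunc : ∃ E : S2, D = PowerSeries.X ^ 1 + PowerSeries.X ^ 9 + PowerSeries.X ^ 25 +
    PowerSeries.X ^ 49 + PowerSeries.X ^ 81 * E := by
  have : (PowerSeries.X : S2) ^ 81 ∣ D - (PowerSeries.X ^ 1 + PowerSeries.X ^ 9 +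
      PowerSeries.X ^ 25 + PowerSeries.X ^ 49) := by
    rw [PowerSeries.X_pow_dvd_iff]
    intro m hm
    simp only [map_sub, map_add, PowerSeries.coeff_X_pow, coeff_D]
    have h : (Odd m ∧ IsSquare m) ↔ (m = 1 ∨ m = 9 ∨ m = 25 ∨ m = 49) := by
      constructor
      · rintro ⟨h1, r, rfl⟩
        have : r < 9 := by nlinarith
        interval_cases r <;> simp_all (config := {decide := true})
      · rintro (rfl | rfl | rfl | rfl)
        exacts [⟨by decide, 1, rfl⟩, ⟨by decide, 3, rfl⟩, ⟨by decide, 5, rfl⟩, ⟨by decide, 7, rfl⟩]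
    simp only [h]
    by_cases h1 : m = 1
    · simp [h1]
    by_cases h2 : m = 9
    · simp [h2]
    by_cases h3 : m = 25
    · simp [h3]
    by_cases h4 : m = 49
    · simp [h4]
    simp [h1, h2, h3, h4]
  obtain ⟨E, hE⟩ := this
  exact ⟨E, by rw [← hE]; ring⟩

lemma coeff_D_pow (k : ℕ) : ∀ n ≤ 80, (D ^ k).coeff n = cD k n := by
  obtain ⟨E, hE⟩ := D_trunc
  induction k with
  | zero => intro n _; simp [cD, PowerSeries.coeff_one]
  | succ k ih =>
    intro n hn
    have : D ^ (k + 1) = PowerSeries.X ^ 1 * D ^ k + PowerSeries.X ^ 9 * D ^ k +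
        PowerSeries.X ^ 25 * D ^ k + PowerSeries.X ^ 49 * D ^ k +
        PowerSeries.X ^ 81 * (E * D ^ k) := by
      rw [pow_succ']
      nth_rewrite 1 [hE]
      ring
    rw [this]
    simp only [map_add, PowerSeries.coeff_X_pow_mul', cD]
    rw [if_neg (show ¬ 81 ≤ n by omega), add_zero, ih _ (by omega), ih _ (by omega),
      ih _ (by omega), ih _ (by omega)]

lemma tau_val {p : ℕ} (hp : p.Prime) (hp2 : Odd p) (k j : ℕ) (c : ZMod 2) (hj : j ≤ k)
    (hk : p * k ≤ 80)
    (h : ∀ n ≤ k, cD k (p * n) + (if p ∣ n then cD k (n / p) else 0) = c * cD j n) :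
    tau p (Polynomial.X ^ k) = c • Polynomial.X ^ j := by
  rw [← sub_eq_zero]
  have hk' : k ≤ 80 := le_trans (Nat.le_mul_of_pos_left _ hp.pos) hk
  apply eq_zero_of_coeff (k := k)
  · refine (Polynomial.natDegree_sub_le _ _).trans (max_le (tau_X_pow hp hp2 k).1 ?_)
    exact (Polynomial.natDegree_smul_le _ _).trans (by simpa using hj)
  · intro n hn
    rw [map_sub, map_sub, ← (tau_X_pow hp hp2 k).2, coeff_T, map_smul,
      map_pow (Polynomial.aeval D), Polynomial.aeval_X, map_smul, coeff_D_pow _ _ (le_trans (Nat.mul_le_mul_left _ hn) hk),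
      coeff_D_pow _ _ ((Nat.div_le_self _ _).trans (hn.trans hk')), h n hn,
      coeff_D_pow _ _ (hn.trans hk')]
    simp

noncomputable def U (p : ℕ) : S2 →ₗ[ZMod 2] S2 where
  toFun f := PowerSeries.mk fun n => f.coeff (p * n)
  map_add' f g := by ext n; simp
  map_smul' c f := by ext n; simp

lemma coeff_U (p : ℕ) (f : S2) (n : ℕ) : (U p f).coeff n = f.coeff (p * n) := by simp [U]

lemma U_eq {p : ℕ} (hp : p ≠ 0) (f : S2) : U p f = T p f + PowerSeries.expand p hp f := by
  ext n
  rw [map_add, coeff_T, coeff_U, PowerSeries.coeff_expand, add_assoc, CharTwo.add_self_eq_zero,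
    add_zero]

lemma U_expand_mul {p : ℕ} (hp : p ≠ 0) (f h : S2) :
    U p (PowerSeries.expand p hp h * f) = h * U p f := by
  ext n
  rw [coeff_U, PowerSeries.coeff_mul, PowerSeries.coeff_mul]
  symm
  refine Finset.sum_bij_ne_zero (fun x _ _ => (p * x.1, p * x.2)) ?_ ?_ ?_ ?_
  · intro x hx _
    rw [Finset.HasAntidiagonal.mem_antidiagonal] at hx ⊢
    rw [← hx]; ring
  · intro x _ _ y _ _ h
    simp only [Prod.mk.injEq, mul_right_inj' hp] at h
    exact Prod.ext h.1 h.2
  · intro y hy hne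
    rw [Finset.HasAntidiagonal.mem_antidiagonal] at hy
    have h1 : p ∣ y.1 := by
      by_contra h1
      rw [PowerSeries.coeff_expand_of_not_dvd _ _ _ h1] at hne; simp at hne
    have h2 : p ∣ y.2 := (Nat.dvd_add_right h1).1 (hy ▸ dvd_mul_right _ _)
    obtain ⟨a, ha⟩ := h1
    obtain ⟨b, hb⟩ := h2
    refine ⟨(a, b), ?_, ?_, Prod.ext ha.symm hb.symm⟩
    · rw [Finset.HasAntidiagonal.mem_antidiagonal]
      apply Nat.eq_of_mul_eq_mul_left (Nat.pos_of_ne_zero hp)
      rw [← hy, ha, hb]; ring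
    · rwa [ha, hb, PowerSeries.coeff_expand_mul, ← coeff_U] at hne
  · intro x _ _
    rw [PowerSeries.coeff_expand_mul, coeff_U]

lemma eq_zero_of_U {p : ℕ} (hp : 2 ≤ p) (G : S2) (h0 : PowerSeries.constantCoeff G = 0)
    (h : ∀ k < p, U p (G * D ^ k) = (PowerSeries.expand p (by omega) D) ^ k * G) : G = 0 := by
  by_contra hG
  obtain ⟨W, hW, hD⟩ := exists_W
  set n := G.order.toNat with hn
  have hGn : G.coeff n ≠ 0 := PowerSeries.coeff_order hG
  obtain ⟨G', hG'⟩ : (PowerSeries.X : S2) ^ n ∣ G := PowerSeries.X_pow_order_dvd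
  have hn0 : n ≠ 0 := by
    intro h; rw [h] at hGn; simp [h0] at hGn
  have hc : PowerSeries.constantCoeff G' ≠ 0 := by
    rw [hG'] at hGn
    simpa [PowerSeries.coeff_X_pow_mul'] using hGn
  obtain ⟨k, hk, m, hm⟩ : ∃ k < p, p ∣ n + k := by
    by_cases h1 : n % p = 0
    · exact ⟨0, by omega, by simpa using Nat.dvd_of_mod_eq_zero h1⟩
    · have := Nat.mod_lt n (show p > 0 by omega)
      refine ⟨p - n % p, by omega, n / p + 1, ?_⟩
      have := Nat.div_add_mod n p
      rw [mul_add]; omega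
  have h1 := congrArg (PowerSeries.coeff m) (h k hk)
  rw [coeff_U, ← hm] at h1
  have h2 : G * D ^ k = PowerSeries.X ^ (n + k) * (G' * W ^ k) := by
    rw [hG', hD]; ring
  have h3 : (PowerSeries.expand p (by omega) D) ^ k * G =
      PowerSeries.X ^ (p * k + n) * ((PowerSeries.expand p (by omega) W) ^ k * G') := by
    rw [hG', hD, map_mul, PowerSeries.expand_X]; ring
  have h4 : m < p * k + n := by nlinarith [Nat.pos_of_ne_zero hn0]
  rw [h2, h3, PowerSeries.coeff_X_pow_mul', PowerSeries.coeff_X_pow_mul', if_pos le_rfl,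
    if_neg (by omega)] at h1
  simp [hW, hc] at h1

noncomputable def P3 (k : ℕ) : R2 := tau 3 (Polynomial.X ^ k)
noncomputable def P5 (k : ℕ) : R2 := tau 5 (Polynomial.X ^ k)

lemma P3_0 : P3 0 = 0 := by
  simpa [P3] using tau_val Nat.prime_three (by decide) 0 0 0 le_rfl (by norm_num)
    (by decide +kernel)
lemma P3_1 : P3 1 = 0 := by
  simpa [P3] using tau_val Nat.prime_three (by decide) 1 0 0 (by norm_num) (by norm_num)
    (by decide +kernel)
lemma P3_2 : P3 2 = 0 := by
  simpa [P3] using tau_val Nat.prime_three (by decide) 2 0 0 (by norm_num) (by norm_num)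
    (by decide +kernel)
lemma P3_3 : P3 3 = Polynomial.X := by
  simpa [P3] using tau_val Nat.prime_three (by decide) 3 1 1 (by norm_num) (by norm_num)
    (by decide +kernel)
lemma P3_4 : P3 4 = 0 := by
  simpa [P3] using tau_val Nat.prime_three (by decide) 4 0 0 (by norm_num) (by norm_num)
    (by decide +kernel)
lemma P3_5 : P3 5 = 0 := by
  simpa [P3] using tau_val Nat.prime_three (by decide) 5 0 0 (by norm_num) (by norm_num)
    (by decide +kernel)
lemma P3_6 : P3 6 = Polynomial.X ^ 2 := by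
  simpa [P3] using tau_val Nat.prime_three (by decide) 6 2 1 (by norm_num) (by norm_num)
    (by decide +kernel)

lemma P5_zero (k : ℕ) (hk : k ≤ 9) (h5 : k ≠ 5) (h7 : k ≠ 7) : P5 k = 0 := by
  have : ∀ k ≤ 9, k ≠ 5 → k ≠ 7 → ∀ n ≤ k,
      cD k (5 * n) + (if 5 ∣ n then cD k (n / 5) else 0) = 0 * cD 0 n := by decide +kernel
  simpa [P5] using tau_val Nat.prime_five (by decide) k 0 0 (by omega) (by omega) (this k hk h5 h7)
lemma P5_5 : P5 5 = Polynomial.X := by
  simpa [P5] using tau_val Nat.prime_five (by decide) 5 1 1 (by norm_num) (by norm_num)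
    (by decide +kernel)
lemma P5_7 : P5 7 = Polynomial.X ^ 3 := by
  simpa [P5] using tau_val Nat.prime_five (by decide) 7 3 1 (by norm_num) (by norm_num)
    (by decide +kernel)
lemma P5_10 : P5 10 = Polynomial.X ^ 2 := by
  simpa [P5] using tau_val Nat.prime_five (by decide) 10 2 1 (by norm_num) (by norm_num)
    (by decide +kernel)

lemma U_D_pow {p : ℕ} (hp : p.Prime) (hp2 : Odd p) (k : ℕ) :
    U p (D ^ k) = Polynomial.aeval D (tau p (Polynomial.X ^ k)) +
      (PowerSeries.expand p hp.ne_zero D) ^ k := by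
  rw [U_eq hp.ne_zero, (tau_X_pow hp hp2 k).2, map_pow (PowerSeries.expand p hp.ne_zero)]

lemma const_D : PowerSeries.constantCoeff D = 0 := by
  obtain ⟨W, _, hD⟩ := exists_W
  rw [hD]; simp

theorem rec3 (k : ℕ) :
    P3 (k + 4) + Polynomial.X * P3 (k + 1) + Polynomial.X ^ 4 * P3 k = 0 := by
  set V := PowerSeries.expand (R := ZMod 2) 3 (by norm_num) with hV
  set G : S2 := D ^ 4 + V D * D + V D ^ 4 with hG
  have key : ∀ k, U 3 (G * D ^ k) = Polynomial.aeval D
      (P3 (k + 4) + Polynomial.X * P3 (k + 1) + Polynomial.X ^ 4 * P3 k) + V D ^ k * G := by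
    intro k
    have : G * D ^ k = D ^ (k + 4) + V D * D ^ (k + 1) + V (D ^ 4) * D ^ k := by
      rw [hG, map_pow]; ring
    rw [this, map_add, map_add, hV, U_expand_mul, U_expand_mul,
      U_D_pow Nat.prime_three (by decide), U_D_pow Nat.prime_three (by decide),
      U_D_pow Nat.prime_three (by decide), hG, hV]
    simp only [map_add, map_mul, map_pow, Polynomial.aeval_X, P3]
    ring
  have hG0 : G = 0 := by
    apply eq_zero_of_U (p := 3) (by norm_num)
    · simp [hG, const_D, hV, PowerSeries.constantCoeff_expand]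
    · intro k hk
      rw [key]
      have : P3 (k + 4) + Polynomial.X * P3 (k + 1) + Polynomial.X ^ 4 * P3 k = 0 := by
        interval_cases k
        · simp [P3_0, P3_1, P3_4]
        · simp [P3_1, P3_2, P3_5]
        · simp only [P3_2, P3_3, P3_6, Nat.reduceAdd, mul_zero, add_zero, ← sq]
          exact CharTwo.add_self_eq_zero _
      rw [this, map_zero, zero_add]
  apply aeval_inj
  have := key k
  rw [hG0] at this
  simpa using this.symm

theorem rec5 (k : ℕ) :
    P5 (k + 6) + Polynomial.X ^ 2 * P5 (k + 4) + Polynomial.X ^ 4 * P5 (k + 2) +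
      Polynomial.X * P5 (k + 1) + Polynomial.X ^ 6 * P5 k = 0 := by
  set V := PowerSeries.expand (R := ZMod 2) 5 (by norm_num) with hV
  set G : S2 := D ^ 6 + V D ^ 2 * D ^ 4 + V D ^ 4 * D ^ 2 + V D * D + V D ^ 6 with hG
  have key : ∀ k, U 5 (G * D ^ k) = Polynomial.aeval D
      (P5 (k + 6) + Polynomial.X ^ 2 * P5 (k + 4) + Polynomial.X ^ 4 * P5 (k + 2) +
      Polynomial.X * P5 (k + 1) + Polynomial.X ^ 6 * P5 k) + V D ^ k * G := by
    intro k
    have : G * D ^ k = D ^ (k + 6) + V (D ^ 2) * D ^ (k + 4) + V (D ^ 4) * D ^ (k + 2) +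
        V D * D ^ (k + 1) + V (D ^ 6) * D ^ k := by
      rw [hG, map_pow, map_pow, map_pow]; ring
    rw [this, map_add, map_add, map_add, map_add, hV, U_expand_mul, U_expand_mul, U_expand_mul,
      U_expand_mul,
      U_D_pow Nat.prime_five (by decide), U_D_pow Nat.prime_five (by decide),
      U_D_pow Nat.prime_five (by decide), U_D_pow Nat.prime_five (by decide),
      U_D_pow Nat.prime_five (by decide), hG, hV]
    simp only [map_add, map_mul, map_pow, Polynomial.aeval_X, P5]
    ring
  have hG0 : G = 0 := by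
    apply eq_zero_of_U (p := 5) (by norm_num)
    · simp [hG, const_D, hV, PowerSeries.constantCoeff_expand]
    · intro k hk
      rw [key]
      have e2 : (2 : R2) = 0 := CharTwo.two_eq_zero
      have : P5 (k + 6) + Polynomial.X ^ 2 * P5 (k + 4) + Polynomial.X ^ 4 * P5 (k + 2) +
          Polynomial.X * P5 (k + 1) + Polynomial.X ^ 6 * P5 k = 0 := by
        interval_cases k
        · simp [P5_zero]
        · simp only [Nat.reduceAdd, P5_7, P5_5]
          simp only [P5_zero, Nat.reduceLeDiff, ne_eq, Nat.reduceEqDiff, not_false_eq_true,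
            OfNat.one_ne_ofNat]
          linear_combination Polynomial.X ^ 3 * e2
        · simp [P5_zero]
        · simp only [Nat.reduceAdd, P5_7, P5_5]
          simp only [P5_zero, Nat.reduceLeDiff, ne_eq, Nat.reduceEqDiff, not_false_eq_true,
            le_refl]
          linear_combination Polynomial.X ^ 5 * e2
        · simp only [Nat.reduceAdd, P5_10, P5_5]
          simp only [P5_zero, Nat.reduceLeDiff, ne_eq, Nat.reduceEqDiff, not_false_eq_true]
          linear_combination Polynomial.X ^ 2 * e2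
      rw [this, map_zero, zero_add]
  apply aeval_inj
  have := key k
  rw [hG0] at this
  simpa using this.symm

end Pool.Agent.Lib.MP_a3366f_nt
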