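import Mathlib

namespace Pool.Agent.Lib.MP_a3366f_nt

def g (e : ℕ) : ℕ := if e = 0 then 0 else e % 4 + 2 * g (e / 4)
decreasing_by omega

def n3 (e : ℕ) : ℕ := if e = 0 then 0 else e / 2 % 2 + 2 * n3 (e / 4)
decreasing_by omega

def g5 (e : ℕ) : ℕ := if e = 0 then 0 else e % 2 + 2 * g5 (e / 4)
decreasing_by omega

@[simp] lemma g_zero : g 0 = 0 := by rw [g]; simp
@[simp] lemma n3_zero : n3 0 = 0 := by rw [n3]; simp
@[simp] lemma g5_zero : g5 0 = 0 := by rw [g5]; simp

lemma g_eq (e : ℕ) : g e = e % 4 + 2 * g (e / 4) := by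
  rcases eq_or_ne e 0 with rfl | h
  · simp
  · rw [g, if_neg h]

lemma n3_eq (e : ℕ) : n3 e = e / 2 % 2 + 2 * n3 (e / 4) := by
  rcases eq_or_ne e 0 with rfl | h
  · simp
  · rw [n3, if_neg h]

lemma g5_eq (e : ℕ) : g5 e = e % 2 + 2 * g5 (e / 4) := by
  rcases eq_or_ne e 0 with rfl | h
  · simp
  · rw [g5, if_neg h]

lemma g_split (e : ℕ) : g e = g5 e + 2 * n3 e := by
  induction e using Nat.strong_induction_on with | _ e ih =>
  rcases eq_or_ne e 0 with rfl | h
  · simp
  · rw [g_eq, g5_eq, n3_eq, ih (e / 4) (by omega)]; omega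

lemma g_succ_le (e : ℕ) : g (e + 1) ≤ g e + 1 := by
  induction e using Nat.strong_induction_on with | _ e ih =>
  rw [g_eq (e + 1), g_eq e]
  by_cases h : e % 4 = 3
  · have h1 : (e + 1) / 4 = e / 4 + 1 := by omega
    have := ih (e / 4) (by omega)
    rw [h1]; omega
  · have h1 : (e + 1) / 4 = e / 4 := by omega
    rw [h1]; omega

lemma g_mod (e : ℕ) : g e % 2 = e % 2 := by rw [g_eq]; omega

lemma code_inj (e : ℕ) : ∀ e', g e = g e' → n3 e = n3 e' → e = e' := by
  induction e using Nat.strong_induction_on with | _ e ih =>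
  intro e' h1 h2
  rcases eq_or_ne e 0 with rfl | h
  · induction e' using Nat.strong_induction_on with | _ e' ih' =>
    rcases eq_or_ne e' 0 with rfl | h'
    · rfl
    · rw [g_zero, g_eq] at h1
      rw [n3_zero, n3_eq] at h2
      have := ih' (e' / 4) (by omega) (by rw [g_zero]; omega) (by rw [n3_zero]; omega)
      omega
  · rw [g_eq e, g_eq e'] at h1
    rw [n3_eq e, n3_eq e'] at h2
    have := ih (e / 4) (by omega) (e' / 4) (by omega) (by omega)
    omega

lemma g_pow_add_two (n : ℕ) : g (2 ^ (n + 2)) = 2 * g (2 ^ n) := by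
  rw [g_eq, show 2 ^ (n + 2) / 4 = 2 ^ n by rw [pow_add]; omega,
    show 2 ^ (n + 2) % 4 = 0 by rw [pow_add]; omega, zero_add]

lemma n3_pow_add_two (n : ℕ) : n3 (2 ^ (n + 2)) = 2 * n3 (2 ^ n) := by
  rw [n3_eq, show 2 ^ (n + 2) / 4 = 2 ^ n by rw [pow_add]; omega,
    show 2 ^ (n + 2) / 2 % 2 = 0 by rw [pow_add]; omega, zero_add]

lemma g_one : g 1 = 1 := by rw [g_eq]; simp
lemma g_two : g 2 = 2 := by rw [g_eq]; simp
lemma n3_one : n3 1 = 0 := by rw [n3_eq]; simp
lemma n3_two : n3 2 = 1 := by rw [n3_eq]; simp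

lemma g_pow_even (i : ℕ) : g (2 ^ (2 * i)) = 2 ^ i := by
  induction i with
  | zero => exact g_one
  | succ i ih => rw [show 2 * (i + 1) = 2 * i + 2 by ring, g_pow_add_two, ih]; ring

lemma g_pow_odd (i : ℕ) : g (2 ^ (2 * i + 1)) = 2 * 2 ^ i := by
  induction i with
  | zero => exact g_two
  | succ i ih => rw [show 2 * (i + 1) + 1 = 2 * i + 1 + 2 by ring, g_pow_add_two, ih]; ring

lemma n3_pow_even (i : ℕ) : n3 (2 ^ (2 * i)) = 0 := by
  induction i with
  | zero => exact n3_one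
  | succ i ih => rw [show 2 * (i + 1) = 2 * i + 2 by ring, n3_pow_add_two, ih]

lemma n3_pow_odd (i : ℕ) : n3 (2 ^ (2 * i + 1)) = 2 ^ i := by
  induction i with
  | zero => exact n3_two
  | succ i ih => rw [show 2 * (i + 1) + 1 = 2 * i + 1 + 2 by ring, n3_pow_add_two, ih]; ring

lemma testBit_add_two (e n : ℕ) : e.testBit (n + 2) = (e / 4).testBit n := by
  rw [Nat.testBit_succ, Nat.testBit_succ, Nat.div_div_eq_div_mul]

lemma add_bit (n : ℕ) : ∀ e : ℕ,
    (e.testBit n = false → g (e + 2 ^ n) = g e + g (2 ^ n) ∧ n3 (e + 2 ^ n) = n3 e + n3 (2 ^ n)) ∧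
    (e.testBit n = true → g (e + 2 ^ n) < g e + g (2 ^ n) ∨
      (g (e + 2 ^ n) = g e + g (2 ^ n) ∧ n3 e + n3 (2 ^ n) + 1 ≤ n3 (e + 2 ^ n))) := by
  induction n using Nat.strong_induction_on with | _ n ih =>
  intro e
  match n with
  | 0 =>
    have := g_succ_le (e / 4)
    simp only [Nat.testBit_zero, pow_zero, g_one, n3_one, decide_eq_false_iff_not,
      decide_eq_true_eq]
    rw [g_eq (e + 1), g_eq e, n3_eq (e + 1), n3_eq e]
    by_cases h : e % 4 = 3
    · have h1 : (e + 1) / 4 = e / 4 + 1 := by omega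
      rw [h1]; omega
    · have h1 : (e + 1) / 4 = e / 4 := by omega
      rw [h1]; omega
  | 1 =>
    have := g_succ_le (e / 4)
    simp only [Nat.testBit_succ, Nat.testBit_zero, pow_one, g_two, n3_two, decide_eq_false_iff_not,
      decide_eq_true_eq]
    rw [g_eq (e + 2), g_eq e, n3_eq (e + 2), n3_eq e]
    by_cases h : 2 ≤ e % 4
    · have h1 : (e + 2) / 4 = e / 4 + 1 := by omega
      rw [h1]; omega
    · have h1 : (e + 2) / 4 = e / 4 := by omega
      rw [h1]; omega
  | n + 2 =>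
    have := ih n (by omega) (e / 4)
    rw [testBit_add_two, g_pow_add_two, n3_pow_add_two, g_eq (e + _), g_eq e, n3_eq (e + _),
      n3_eq e]
    have h1 : (e + 2 ^ (n + 2)) / 4 = e / 4 + 2 ^ n := by rw [pow_add]; omega
    have h2 : (e + 2 ^ (n + 2)) % 4 = e % 4 := by rw [pow_add]; omega
    have h3 : (e + 2 ^ (n + 2)) / 2 % 2 = e / 2 % 2 := by rw [pow_add]; omega
    rw [h1, h2, h3]
    refine ⟨fun h => ?_, fun h => ?_⟩
    · have := this.1 h; omega
    · have := this.2 h; omega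

lemma add_bit_le (n e : ℕ) : g (e + 2 ^ n) < g e + g (2 ^ n) ∨
    (g (e + 2 ^ n) = g e + g (2 ^ n) ∧ n3 e + n3 (2 ^ n) ≤ n3 (e + 2 ^ n)) := by
  cases h : e.testBit n
  · have := (add_bit n e).1 h; omega
  · have := (add_bit n e).2 h; omega

lemma testBit_odd (i : ℕ) : ∀ e : ℕ, e.testBit (2 * i + 1) = (n3 e).testBit i := by
  induction i with
  | zero =>
    intro e
    simp only [Nat.testBit_succ, Nat.testBit_zero, mul_zero]
    rw [n3_eq]; congr 1; apply propext; omega
  | succ i ih =>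
    intro e
    rw [show 2 * (i + 1) + 1 = 2 * i + 1 + 2 by ring, testBit_add_two, ih, Nat.testBit_succ,
      n3_eq e]
    congr 1; omega

lemma testBit_even (i : ℕ) : ∀ e : ℕ, e.testBit (2 * i) = (g5 e).testBit i := by
  induction i with
  | zero =>
    intro e
    simp only [Nat.testBit_zero, mul_zero]
    rw [g5_eq]; congr 1; apply propext; omega
  | succ i ih =>
    intro e
    rw [show 2 * (i + 1) = 2 * i + 2 by ring, testBit_add_two, ih, Nat.testBit_succ, g5_eq e]
    congr 1; omega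

lemma n3_lt (i : ℕ) : ∀ e : ℕ, e < 2 ^ (2 * i + 1) → n3 e < 2 ^ i := by
  induction i with
  | zero => intro e he; rw [n3_eq, show e / 4 = 0 by omega, n3_zero]; omega
  | succ i ih =>
    intro e he
    have := ih (e / 4) (by rw [show 2 * (i + 1) + 1 = 2 * i + 1 + 2 by ring, pow_add] at he; omega)
    rw [n3_eq, pow_succ]; omega

lemma g5_lt (i : ℕ) : ∀ e : ℕ, e < 2 ^ (2 * i) → g5 e < 2 ^ i := by
  induction i with
  | zero => intro e he; rw [show e = 0 by omega]; simp
  | succ i ih =>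
    intro e he
    have := ih (e / 4) (by rw [show 2 * (i + 1) = 2 * i + 2 by ring, pow_add] at he; omega)
    rw [g5_eq, pow_succ]; omega

lemma g_lt (i : ℕ) (e : ℕ) (h : e < 2 ^ (2 * i)) : g e < 3 * 2 ^ i := by
  have h1 := g5_lt i e h
  have h2 := n3_lt i e (by rw [pow_succ]; omega)
  rw [g_split]; omega

lemma le_g_sq (e : ℕ) : e ≤ g e ^ 2 := by
  induction e using Nat.strong_induction_on with | _ e ih =>
  rcases eq_or_ne e 0 with rfl | h
  · simp
  · have := ih (e / 4) (by omega)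
    rw [g_eq]
    have h1 : e = e % 4 + 4 * (e / 4) := by omega
    have h2 : e % 4 ≤ (e % 4) ^ 2 := Nat.le_self_pow (by norm_num) _
    nlinarith [Nat.zero_le (e % 4 * g (e / 4))]

lemma testBit_of_bounds {x i : ℕ} (h1 : 2 ^ i ≤ x) (h2 : x < 2 * 2 ^ i) : x.testBit i = true := by
  rw [Nat.testBit_eq_decide_div_mod_eq]
  have : x / 2 ^ i = 1 := by
    rw [Nat.div_eq_iff (by positivity)]; omega
  simp [this]

end Pool.Agent.Lib.MP_a3366f_nt
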