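import Mathlib
import Pool.Agent.Lib.MP_a3366f_nt.Tau
import Pool.Agent.Lib.MP_a3366f_nt.Weights

open Polynomial

namespace Pool.Agent.Lib.MP_a3366f_nt

def Le (G N : ℤ) (P : R2) : Prop :=
  ∀ e, P.coeff e ≠ 0 → (g e : ℤ) < G ∨ ((g e : ℤ) = G ∧ N ≤ n3 e)

def Dom (e : ℕ) (P : R2) : Prop := Le (g e) (n3 e + 1) (P + X ^ e)

lemma Le.zero (G N : ℤ) : Le G N 0 := fun e h => by simp at h

lemma Le.add {G N : ℤ} {P Q : R2} (hP : Le G N P) (hQ : Le G N Q) : Le G N (P + Q) := by
  intro e h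
  rw [coeff_add] at h
  by_cases h1 : P.coeff e = 0
  · exact hQ e (by simpa [h1] using h)
  · exact hP e h1

lemma Le.mono {G N G' N' : ℤ} {P : R2} (hP : Le G N P) (h : G < G' ∨ (G = G' ∧ N' ≤ N)) :
    Le G' N' P := fun e he => by have := hP e he; omega

lemma Le.X_pow (e : ℕ) : Le (g e) (n3 e) (X ^ e) := by
  intro e' h
  rw [coeff_X_pow] at h
  have : e' = e := by by_contra h'; simp [h'] at h
  subst this; omega

lemma Le.mul_bit {G N : ℤ} {P : R2} (hP : Le G N P) (n : ℕ) :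
    Le (G + g (2 ^ n)) (N + n3 (2 ^ n)) (X ^ (2 ^ n) * P) := by
  intro e h
  rw [coeff_X_pow_mul'] at h
  split_ifs at h with h1
  · have h2 := hP _ h
    have h3 := add_bit_le n (e - 2 ^ n)
    rw [Nat.sub_add_cancel h1] at h3
    omega
  · simp at h

lemma add_self2 (P : R2) : P + P = 0 := CharTwo.add_self_eq_zero P

lemma Dom.le {e : ℕ} {P : R2} (h : Dom e P) : Le (g e) (n3 e) P := by
  have := (h.mono (G' := g e) (N' := n3 e) (by omega)).add (Le.X_pow e)
  rwa [add_assoc, add_self2, add_zero] at this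

lemma Dom.add {e : ℕ} {P Q : R2} (h : Dom e P) (hQ : Le (g e) (n3 e + 1) Q) : Dom e (P + Q) := by
  have := Le.add h hQ
  rwa [add_right_comm] at this

lemma Dom.add' {e : ℕ} {P Q : R2} (h : Dom e P) (hQ : Le (g e) (n3 e + 1) Q) : Dom e (Q + P) := by
  rw [add_comm]; exact h.add hQ

lemma Dom.mul_bit {e n : ℕ} {P : R2} (h : Dom e P) (hb : e.testBit n = false) :
    Dom (e + 2 ^ n) (X ^ (2 ^ n) * P) := by
  have h1 := Le.mul_bit h n
  have h2 := (add_bit n e).1 hb
  rw [mul_add, ← pow_add, add_comm (2 ^ n) e] at h1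
  exact h1.mono (by omega)

lemma Dom.mul_bit' {e n : ℕ} {P : R2} (h : Dom e P) (hb : e.testBit n = true) :
    Le (g e + g (2 ^ n)) (n3 e + n3 (2 ^ n) + 1) (X ^ (2 ^ n) * P) := by
  have h1 := Le.mul_bit h n
  have h2 := (add_bit n e).2 hb
  have h3 := (Le.X_pow (e + 2 ^ n)).mono (G' := g e + g (2 ^ n)) (N' := n3 e + n3 (2 ^ n) + 1)
    (by omega)
  have h4 := (h1.mono (G' := g e + g (2 ^ n)) (N' := n3 e + n3 (2 ^ n) + 1) (by omega)).add h3
  rwa [mul_add, ← pow_add, add_comm (2 ^ n) e, add_assoc (X ^ 2 ^ n * P), add_self2, add_zero] at h4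

lemma Dom.coeff {e : ℕ} {P : R2} (h : Dom e P) : P.coeff e = 1 := by
  have h1 : (P + X ^ e).coeff e = 0 := by
    by_contra h1; have := h e h1; omega
  rw [coeff_add, coeff_X_pow_self] at h1
  have : ∀ a : ZMod 2, a + 1 = 0 → a = 1 := by decide
  exact this _ h1

noncomputable def Phi (P : ℕ → R2) : Polynomial R2 →ₗ[R2] R2 :=
  Polynomial.lsum fun k => LinearMap.id.smulRight (P k)

lemma Phi_monomial (P : ℕ → R2) (k : ℕ) (a : R2) : Phi P (monomial k a) = a * P k := by
  simp [Phi, Polynomial.lsum_apply, sum_monomial_index]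

lemma Phi_X_pow (P : ℕ → R2) (k : ℕ) : Phi P (X ^ k) = P k := by
  rw [X_pow_eq_monomial, Phi_monomial, one_mul]

lemma Phi_C_mul (P : ℕ → R2) (a : R2) (Q : Polynomial R2) : Phi P (C a * Q) = a * Phi P Q := by
  rw [← smul_eq_C_mul, map_smul, smul_eq_mul]

lemma Phi_kill {P : ℕ → R2} {F : Polynomial R2} (h : ∀ k, Phi P (X ^ k * F) = 0)
    (Q : Polynomial R2) : Phi P (Q * F) = 0 := by
  induction Q using Polynomial.induction_on' with
  | add A B hA hB => rw [add_mul, map_add, hA, hB, add_zero]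
  | monomial k a => rw [← C_mul_X_pow_eq_monomial, mul_assoc, Phi_C_mul, h, mul_zero]

lemma Phi_kill_pow {P : ℕ → R2} {F : Polynomial R2} (h : ∀ k, Phi P (X ^ k * F) = 0)
    (Q G : Polynomial R2) (n : ℕ) : Phi P (Q * (G * F) ^ 2 ^ n) = 0 := by
  obtain ⟨m, hm⟩ : ∃ m, 2 ^ n = m + 1 := ⟨2 ^ n - 1, by have := Nat.one_le_two_pow (n := n); omega⟩
  rw [hm, pow_succ, ← mul_assoc, ← mul_assoc]
  exact Phi_kill h _

lemma eq_of_add_add {a b c : R2} (h : a + b + c = 0) : a = b + c := by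
  have e2 : (2 : R2) = 0 := CharTwo.two_eq_zero
  linear_combination h - (b + c) * e2

lemma rec3n (k n : ℕ) :
    P3 (k + 2 ^ (n + 2)) = X ^ (2 ^ n) * P3 (k + 2 ^ n) + X ^ (2 ^ (n + 2)) * P3 k := by
  have h : ∀ k, Phi P3 (X ^ k * (X ^ 4 + C X * X + C X ^ 4)) = 0 := by
    intro k
    have : (X ^ k * (X ^ 4 + C X * X + C X ^ 4) : Polynomial R2) =
        X ^ (k + 4) + C X * X ^ (k + 1) + C (X ^ 4) * X ^ k := by rw [map_pow]; ring
    rw [this, map_add, map_add, Phi_C_mul, Phi_C_mul, Phi_X_pow, Phi_X_pow, Phi_X_pow, rec3]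
  have h1 := Phi_kill_pow h (X ^ k) 1 n
  have h2 : (X ^ k * (1 * (X ^ 4 + C X * X + C X ^ 4)) ^ 2 ^ n : Polynomial R2) =
      X ^ (k + 2 ^ (n + 2)) + C (X ^ 2 ^ n) * X ^ (k + 2 ^ n) + C (X ^ 2 ^ (n + 2)) * X ^ k := by
    rw [one_mul, add_pow_char_pow, add_pow_char_pow, map_pow, map_pow]; ring
  rw [h2, map_add, map_add, Phi_C_mul, Phi_C_mul, Phi_X_pow, Phi_X_pow, Phi_X_pow] at h1
  exact eq_of_add_add h1

lemma top_split {c : ℕ} (hc : c ≠ 0) : ∃ s c', c = c' + 2 ^ s ∧ c' < 2 ^ s := by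
  have h1 := Nat.pow_log_le_self 2 hc
  have h2 := Nat.lt_pow_succ_log_self (b := 2) (by norm_num) c
  refine ⟨Nat.log 2 c, c - 2 ^ Nat.log 2 c, by omega, ?_⟩
  rw [pow_succ] at h2; omega

lemma g_small : g 3 = 3 ∧ n3 3 = 1 ∧ g 4 = 2 ∧ n3 4 = 0 ∧ g 5 = 3 ∧ n3 5 = 0 := by
  rw [g_eq 3, n3_eq 3, g_eq 4, n3_eq 4, g_eq 5, n3_eq 5]; simp [g_one, n3_one]

theorem claim3 (k : ℕ) :
    (k % 2 = 1 → 1 ≤ n3 k → ∃ e, g e + 2 = g k ∧ n3 e + 1 = n3 k ∧ Dom e (P3 k)) ∧
    (¬ (k % 2 = 1 ∧ 1 ≤ n3 k) → Le (g k - 2) (n3 k) (P3 k)) := by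
  induction k using Nat.strong_induction_on with | _ K ih =>
  by_cases hK : K < 4
  · interval_cases K
    · simp [P3_0, Le.zero]
    · simp [P3_1, Le.zero, n3_one]
    · simp [P3_2, Le.zero]
    · refine ⟨fun _ _ => ⟨1, by simp [g_one, g_small], by simp [n3_one, g_small], ?_⟩, ?_⟩
      · simp [Dom, P3_3, add_self2, Le.zero]
      · simp [g_small]
  obtain ⟨s, k, rfl, hk⟩ := top_split (c := K) (by omega)
  obtain ⟨n, rfl⟩ : ∃ n, s = n + 2 := by
    refine ⟨s - 2, ?_⟩
    rcases s with _ | _ | s <;> simp at hk hK ⊢ <;> omega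
  have hp1 := Nat.one_le_two_pow (n := n)
  have hp2 : 2 ^ (n + 2) = 4 * 2 ^ n := by ring
  have weak : ∀ k' < k + 2 ^ (n + 2), Le (g k' - 2) (n3 k' - 1) (P3 k') := by
    intro k' hk'
    by_cases h : k' % 2 = 1 ∧ 1 ≤ n3 k'
    · obtain ⟨e, h1, h2, h3⟩ := (ih k' hk').1 h.1 h.2
      exact h3.le.mono (by omega)
    · exact ((ih k' hk').2 h).mono (by omega)
  have hK := (add_bit (n + 2) k).1 (Nat.testBit_lt_two_pow hk)
  have hg2 := g_pow_add_two n
  have hn2 := n3_pow_add_two n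
  have hmod : (k + 2 ^ (n + 2)) % 2 = k % 2 := by omega
  rw [rec3n, hmod]
  have hlt1 : k + 2 ^ n < k + 2 ^ (n + 2) := by omega
  have hlt2 : k < k + 2 ^ (n + 2) := by omega
  have first_set : k.testBit n = true →
      Le (g (k + 2 ^ (n + 2)) - 2) (n3 (k + 2 ^ (n + 2))) (X ^ (2 ^ n) * P3 (k + 2 ^ n)) := by
    intro hb
    have := (add_bit n k).2 hb
    exact ((weak _ hlt1).mul_bit n).mono (by omega)
  have first_ns : k.testBit n = false → ¬ ((k + 2 ^ n) % 2 = 1 ∧ 1 ≤ n3 (k + 2 ^ n)) →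
      Le (g (k + 2 ^ (n + 2)) - 2) (n3 (k + 2 ^ (n + 2))) (X ^ (2 ^ n) * P3 (k + 2 ^ n)) := by
    intro hb h
    have := (add_bit n k).1 hb
    exact (((ih _ hlt1).2 h).mul_bit n).mono (by omega)
  have first_col : k.testBit n = false → (k + 2 ^ n) % 2 = 1 → 1 ≤ n3 (k + 2 ^ n) →
      (n % 2 = 0 ∨ 1 ≤ n3 k) →
      Le (g (k + 2 ^ (n + 2)) - 2) (n3 (k + 2 ^ (n + 2))) (X ^ (2 ^ n) * P3 (k + 2 ^ n)) := by
    intro hb h1 h2 h3
    have h4 := (add_bit n k).1 hb
    obtain ⟨e, he1, he2, he3⟩ := (ih _ hlt1).1 h1 h2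
    have hbit : e.testBit n = true := by
      rcases Nat.even_or_odd' n with ⟨i, rfl | rfl⟩
      · have h5 : g5 e = g5 (k + 2 ^ (2 * i)) := by
          have := g_split e; have := g_split (k + 2 ^ (2 * i)); omega
        rw [testBit_even, h5, ← testBit_even, add_comm, Nat.testBit_two_pow_add_eq, hb]; rfl
      · have h5 : 1 ≤ n3 k := by omega
        have h6 : n3 k < 2 ^ (i + 1) := n3_lt _ _ (by rwa [show 2 * (i + 1) + 1 = 2 * i + 1 + 2 by ring])
        have h7 : (n3 k).testBit i = false := by rw [← testBit_odd, hb]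
        have h8 : n3 k < 2 ^ i := by
          by_contra h8
          rw [testBit_of_bounds (by omega) (by rw [pow_succ] at h6; omega)] at h7
          exact absurd h7 (by simp)
        rw [n3_pow_odd] at h4
        rw [testBit_odd]
        exact testBit_of_bounds (by omega) (by omega)
    exact (he3.mul_bit' hbit).mono (by omega)
  have second_ns : ¬ (k % 2 = 1 ∧ 1 ≤ n3 k) →
      Le (g (k + 2 ^ (n + 2)) - 2) (n3 (k + 2 ^ (n + 2))) (X ^ (2 ^ (n + 2)) * P3 k) := by
    intro h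
    exact (((ih _ hlt2).2 h).mul_bit (n + 2)).mono (by omega)
  refine ⟨fun h1 h2 => ?_, fun h => ?_⟩
  · by_cases h3 : 1 ≤ n3 k
    · obtain ⟨e, he1, he2, he3⟩ := (ih _ hlt2).1 h1 h3
      have hbit : e.testBit (n + 2) = false := by
        rcases Nat.even_or_odd' n with ⟨i, rfl | rfl⟩
        · have h5 : g5 e = g5 k := by
            have := g_split e; have := g_split k; omega
          rw [show 2 * i + 2 = 2 * (i + 1) by ring] at hk ⊢
          rw [testBit_even, h5]
          exact Nat.testBit_lt_two_pow (g5_lt _ _ hk)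
        · rw [show 2 * i + 1 + 2 = 2 * (i + 1) + 1 by ring] at hk ⊢
          rw [testBit_odd]
          have := n3_lt _ _ hk
          exact Nat.testBit_lt_two_pow (by omega)
      have h5 := (add_bit (n + 2) e).1 hbit
      refine ⟨e + 2 ^ (n + 2), by omega, by omega, (he3.mul_bit hbit).add' ?_⟩
      have : Le (g (k + 2 ^ (n + 2)) - 2) (n3 (k + 2 ^ (n + 2)))
          (X ^ (2 ^ n) * P3 (k + 2 ^ n)) := by
        cases hb : k.testBit n
        · by_cases h : (k + 2 ^ n) % 2 = 1 ∧ 1 ≤ n3 (k + 2 ^ n)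
          · exact first_col hb h.1 h.2 (Or.inr h3)
          · exact first_ns hb h
        · exact first_set hb
      exact this.mono (by omega)
    · rcases Nat.even_or_odd' n with ⟨i, rfl | rfl⟩
      · rw [n3_pow_even] at hn2; omega
      · have hb : k.testBit (2 * i + 1) = false := by
          rw [testBit_odd, show n3 k = 0 by omega]; simp
        have h4 := (add_bit _ k).1 hb
        have h5 := n3_pow_odd i
        have hp := Nat.one_le_two_pow (n := i)
        obtain ⟨e, he1, he2, he3⟩ := (ih _ hlt1).1 (by rw [pow_succ]; omega) (by omega)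
        have hbit : e.testBit (2 * i + 1) = false := by
          rw [testBit_odd]; exact Nat.testBit_lt_two_pow (by omega)
        have h6 := (add_bit _ e).1 hbit
        refine ⟨e + 2 ^ (2 * i + 1), by omega, by omega, (he3.mul_bit hbit).add ?_⟩
        exact (second_ns (by omega)).mono (by omega)
  · refine Le.add ?_ (second_ns (by omega))
    cases hb : k.testBit n
    · by_cases h' : (k + 2 ^ n) % 2 = 1 ∧ 1 ≤ n3 (k + 2 ^ n)
      · refine first_col hb h'.1 h'.2 ?_
        rcases Nat.even_or_odd' n with ⟨i, rfl | rfl⟩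
        · omega
        · have h5 := n3_pow_odd i
          have hp := Nat.one_le_two_pow (n := i)
          rw [pow_succ] at h'
          omega
      · exact first_ns hb h'
    · exact first_set hb

noncomputable def M5 (k c : ℕ) : R2 := Phi P5 (X ^ k * (X + C X) ^ c)

lemma kill5 (k : ℕ) : Phi P5 (X ^ k * ((X + C X) ^ 6 + C X * (X + C X) + C X ^ 2)) = 0 := by
  have e2 : (2 : Polynomial R2) = 0 := CharTwo.two_eq_zero
  have : (X ^ k * ((X + C X) ^ 6 + C X * (X + C X) + C X ^ 2) : Polynomial R2) =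
      X ^ (k + 6) + C (X ^ 2) * X ^ (k + 4) + C (X ^ 4) * X ^ (k + 2) + C X * X ^ (k + 1) +
        C (X ^ 6) * X ^ k := by
    rw [map_pow, map_pow, map_pow]
    linear_combination (X ^ k * (3 * X ^ 5 * C X + 7 * X ^ 4 * C X ^ 2 + 10 * X ^ 3 * C X ^ 3 +
      7 * X ^ 2 * C X ^ 4 + 3 * X * C X ^ 5 + C X ^ 2)) * e2
  rw [this]
  simp only [map_add, Phi_C_mul, Phi_X_pow]
  exact rec5 k

lemma M5_beta (c n : ℕ) : M5 0 (c + 2 ^ (n + 3)) =
    X ^ (2 ^ n) * M5 0 (c + 2 ^ n + 2 ^ (n + 1)) + X ^ (2 ^ (n + 1)) * M5 0 (c + 2 ^ (n + 1)) := by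
  have h1 := Phi_kill_pow kill5 ((X + C X) ^ c) ((X + C X) ^ 2) n
  have h2 : ((X + C X) ^ c * ((X + C X) ^ 2 *
      ((X + C X) ^ 6 + C X * (X + C X) + C X ^ 2)) ^ 2 ^ n : Polynomial R2) =
      X ^ 0 * (X + C X) ^ (c + 2 ^ (n + 3)) +
        C (X ^ 2 ^ n) * (X ^ 0 * (X + C X) ^ (c + 2 ^ n + 2 ^ (n + 1))) +
        C (X ^ 2 ^ (n + 1)) * (X ^ 0 * (X + C X) ^ (c + 2 ^ (n + 1))) := by
    generalize (X + C X : Polynomial R2) = u
    rw [mul_add, mul_add, add_pow_char_pow, add_pow_char_pow, map_pow, map_pow]; ring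
  rw [h2, map_add, map_add, Phi_C_mul, Phi_C_mul] at h1
  exact eq_of_add_add h1

lemma M5_gamma (c n : ℕ) : M5 0 (c + 2 ^ (n + 4)) =
    X ^ (2 ^ (n + 1)) * (X ^ (2 ^ n) * M5 0 (c + 2 ^ n)) + X ^ (2 ^ (n + 2)) * M5 0 c +
      X ^ (2 ^ (n + 2)) * M5 0 (c + 2 ^ (n + 2)) := by
  have h1 := Phi_kill_pow kill5 ((X + C X) ^ c)
    ((X + C X) ^ 4 * ((X + C X) ^ 6 + C X * (X + C X) + C X ^ 2) + C X ^ 2) n
  have h2 : ((X + C X) ^ c * (((X + C X) ^ 4 * ((X + C X) ^ 6 + C X * (X + C X) + C X ^ 2)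
      + C X ^ 2) * ((X + C X) ^ 6 + C X * (X + C X) + C X ^ 2)) ^ 2 ^ n : Polynomial R2) =
      X ^ 0 * (X + C X) ^ (c + 2 ^ (n + 4)) +
        (C (X ^ 2 ^ (n + 1)) * (C (X ^ 2 ^ n) * (X ^ 0 * (X + C X) ^ (c + 2 ^ n))) +
        C (X ^ 2 ^ (n + 2)) * (X ^ 0 * (X + C X) ^ c)) +
        C (X ^ 2 ^ (n + 2)) * (X ^ 0 * (X + C X) ^ (c + 2 ^ (n + 2))) := by
    generalize (X + C X : Polynomial R2) = u
    have e2 : (2 : Polynomial R2) = 0 := CharTwo.two_eq_zero
    have : (u ^ 4 * (u ^ 6 + C X * u + C X ^ 2) + C X ^ 2) * (u ^ 6 + C X * u + C X ^ 2) =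
        u ^ 16 + (C X ^ 3 * u + C X ^ 4) + C X ^ 4 * u ^ 4 := by
      linear_combination (C X * u ^ 11 + C X ^ 2 * u ^ 10 + C X ^ 3 * u ^ 5 + C X ^ 2 * u ^ 6) * e2
    rw [this, add_pow_char_pow, add_pow_char_pow, add_pow_char_pow, map_pow, map_pow, map_pow]
    ring
  rw [h2, map_add, map_add, map_add, Phi_C_mul, Phi_C_mul, Phi_C_mul, Phi_C_mul] at h1
  exact eq_of_add_add h1

lemma M5_bit (k c s : ℕ) : M5 (k + 2 ^ s) c = M5 k (c + 2 ^ s) + X ^ (2 ^ s) * M5 k c := by
  have e2 : (2 : Polynomial R2) = 0 := CharTwo.two_eq_zero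
  have : (X ^ (k + 2 ^ s) * (X + C X) ^ c : Polynomial R2) =
      X ^ k * (X + C X) ^ (c + 2 ^ s) + C (X ^ 2 ^ s) * (X ^ k * (X + C X) ^ c) := by
    rw [pow_add (X + C X : Polynomial R2), add_pow_char_pow, map_pow]
    linear_combination (-(X ^ k * (X + C X) ^ c * C X ^ 2 ^ s)) * e2
  rw [M5, this, map_add, Phi_C_mul]; rfl

lemma M5_succ (k c : ℕ) : M5 k (c + 1) = M5 (k + 1) c + X * M5 k c := by
  have := M5_bit k c 0
  simp only [pow_zero, pow_one] at this
  rw [this, add_assoc, add_self2, add_zero]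

lemma M5_zero (k : ℕ) : M5 k 0 = P5 k := by simp [M5, Phi_X_pow]

lemma M5_small (c : ℕ) (hc : c < 8) : M5 0 c = if c = 5 then X else 0 := by
  have e2 : (2 : R2) = 0 := CharTwo.two_eq_zero
  have h0 := P5_zero 0 (by omega) (by omega) (by omega)
  have h1 := P5_zero 1 (by omega) (by omega) (by omega)
  have h2 := P5_zero 2 (by omega) (by omega) (by omega)
  have h3 := P5_zero 3 (by omega) (by omega) (by omega)
  have h4 := P5_zero 4 (by omega) (by omega) (by omega)
  have h6 := P5_zero 6 (by omega) (by omega) (by omega)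
  interval_cases c <;> simp [M5_succ, M5_zero, h0, h1, h2, h3, h4, h6, P5_5, P5_7]
  · linear_combination (3 * X ^ 2) * e2
  · linear_combination (11 * X ^ 3) * e2

def Special (c : ℕ) : Prop := ∃ J, 1 ≤ J ∧ c = 1 + 2 ^ (2 * J)

lemma Special.n3 {c : ℕ} (h : Special c) : n3 c = 0 := by
  obtain ⟨J, hJ, rfl⟩ := h
  have := (add_bit (2 * J) 1).1 (Nat.testBit_lt_two_pow (Nat.one_lt_two_pow (by omega)))
  rw [this.2, n3_one, n3_pow_even]

lemma claim5R (c : ℕ) :
    (Special c → ∃ e, g e + 2 = g c ∧ n3 e = 0 ∧ Dom e (M5 0 c)) ∧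
    (¬ Special c → Le (g c - 2) 1 (M5 0 c)) := by
  induction c using Nat.strong_induction_on with | _ K ih =>
  by_cases hK : K < 8
  · rw [M5_small K hK]
    split_ifs with h
    · subst h
      refine ⟨fun _ => ⟨1, by simp [g_one, g_small], n3_one, ?_⟩, fun h => ?_⟩
      · simp [Dom, add_self2, Le.zero]
      · exact absurd ⟨1, le_rfl, rfl⟩ h
    · refine ⟨fun ⟨J, hJ, hK'⟩ => ?_, fun _ => Le.zero _ _⟩
      exfalso
      rcases J with _ | _ | J
      · omega
      · omega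
      · have := Nat.one_le_two_pow (n := 2 * J)
        rw [show 2 * (J + 1 + 1) = 2 * J + 4 by ring, pow_add] at hK'; omega
  obtain ⟨s, c, rfl, hc⟩ := top_split (c := K) (by omega)
  have weak : ∀ k' < c + 2 ^ s, Le (g k' - 2) 0 (M5 0 k') := by
    intro k' hk'
    by_cases h : Special k'
    · obtain ⟨e, h1, h2, h3⟩ := (ih k' hk').1 h
      exact h3.le.mono (by omega)
    · exact ((ih k' hk').2 h).mono (by omega)
  have hK2 := (add_bit s c).1 (Nat.testBit_lt_two_pow hc)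
  have hs : 3 ≤ s := by
    rcases s with _ | _ | _ | s <;> simp at hc hK ⊢ <;> omega
  rcases Nat.even_or_odd' s with ⟨i, rfl | rfl⟩
  · obtain ⟨j, rfl⟩ : ∃ j, i = j + 2 := ⟨i - 2, by omega⟩
    have e1 : 2 * (j + 2) = 2 * j + 4 := by ring
    have e2 : 2 * j + 2 = 2 * (j + 1) := by ring
    have hp := Nat.one_le_two_pow (n := 2 * j)
    have hp' := Nat.one_le_two_pow (n := j)
    have a0 := g_pow_even j
    have a1 := g_pow_odd j
    have a2 : g (2 ^ (2 * j + 2)) = 2 * 2 ^ j := by rw [e2, g_pow_even]; ring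
    have a4 : g (2 ^ (2 * j + 4)) = 4 * 2 ^ j := by rw [← e1, g_pow_even]; ring
    have b0 := n3_pow_even j
    have b1 := n3_pow_odd j
    have b2 : n3 (2 ^ (2 * j + 2)) = 0 := by rw [e2, n3_pow_even]
    have p4 : 2 ^ (2 * j + 4) = 16 * 2 ^ (2 * j) := by ring
    have p2 : 2 ^ (2 * j + 2) = 4 * 2 ^ (2 * j) := by ring
    rw [e1] at hc ih hK weak hK2 ⊢
    rw [M5_gamma]
    have t1 : Le (g (c + 2 ^ (2 * j + 4)) - 2) 1
        (X ^ (2 ^ (2 * j + 1)) * (X ^ (2 ^ (2 * j)) * M5 0 (c + 2 ^ (2 * j)))) := by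
      have := add_bit_le (2 * j) c
      exact (((weak _ (by omega)).mul_bit _).mul_bit _).mono (by omega)
    have t2 : Le (g (c + 2 ^ (2 * j + 4)) - 2) 1 (X ^ (2 ^ (2 * j + 2)) * M5 0 c) :=
      ((weak _ (by omega)).mul_bit _).mono (by omega)
    have hle := add_bit_le (2 * j + 2) c
    refine ⟨fun hsp => ?_, fun hsp => ?_⟩
    · have hc1 : c = 1 := by
        obtain ⟨J, hJ, hJ'⟩ := hsp
        have h1 : 2 ^ (2 * J) < 2 ^ (2 * j + 5) := by rw [pow_succ]; omega
        have h2 : 2 ^ (2 * j + 3) < 2 ^ (2 * J) := by rw [pow_succ]; omega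
        have h3 := (Nat.pow_lt_pow_iff_right (by norm_num)).1 h1
        have h4 := (Nat.pow_lt_pow_iff_right (by norm_num)).1 h2
        rw [show 2 * J = 2 * j + 4 by omega] at hJ'
        omega
      subst hc1
      obtain ⟨e, he1, he2, he3⟩ := (ih (1 + 2 ^ (2 * j + 2)) (by omega)).1
        ⟨j + 1, by omega, by rw [e2]⟩
      have h5 := (add_bit (2 * j + 2) 1).1 (Nat.testBit_lt_two_pow (by omega))
      have h6 := g_one
      have hbit : e.testBit (2 * j + 2) = false := by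
        rw [e2, testBit_even]
        apply Nat.testBit_lt_two_pow
        have := g_split e
        rw [pow_succ]; omega
      have h7 := (add_bit _ e).1 hbit
      refine ⟨e + 2 ^ (2 * j + 2), by omega, by omega, (he3.mul_bit hbit).add' ?_⟩
      exact (t1.add t2).mono (by omega)
    · refine (t1.add t2).add ?_
      by_cases hsp' : Special (c + 2 ^ (2 * j + 2))
      · cases hb : c.testBit (2 * j + 2)
        · exfalso
          obtain ⟨J, hJ, hJ'⟩ := hsp'
          have h1 : (c + 2 ^ (2 * j + 2)).testBit (2 * j + 2) = true := by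
            rw [add_comm, Nat.testBit_two_pow_add_eq, hb]; rfl
          have h2 : 2 * J = 2 * j + 2 := by
            by_contra h2
            rw [hJ', add_comm] at h1
            rcases lt_or_gt_of_ne h2 with h3 | h3
            · rw [Nat.testBit_lt_two_pow] at h1
              · exact absurd h1 (by simp)
              · have : 2 ^ (2 * J + 1) ≤ 2 ^ (2 * j + 2) := Nat.pow_le_pow_right (by norm_num) h3
                have := Nat.one_lt_two_pow (n := 2 * J) (by omega)
                have : 2 ^ (2 * J + 1) = 2 * 2 ^ (2 * J) := by ring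
                omega
            · rw [Nat.testBit_two_pow_add_gt h3, Nat.testBit_lt_two_pow (by omega)] at h1
              exact absurd h1 (by simp)
          rw [h2] at hJ'
          exact hsp ⟨j + 2, by omega, by rw [show c = 1 by omega, e1]⟩
        · have h1 := (add_bit _ c).2 hb
          have h2 := hsp'.n3
          exact ((weak _ (by omega)).mul_bit _).mono (by omega)
      · exact (((ih _ (by omega)).2 hsp').mul_bit _).mono (by omega)
  · obtain ⟨j, rfl⟩ : ∃ j, i = j + 1 := ⟨i - 1, by omega⟩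
    have e1 : 2 * (j + 1) + 1 = 2 * j + 3 := by ring
    have hp := Nat.one_le_two_pow (n := 2 * j)
    have hp' := Nat.one_le_two_pow (n := j)
    have a0 := g_pow_even j
    have a1 := g_pow_odd j
    have a3 : g (2 ^ (2 * j + 3)) = 4 * 2 ^ j := by rw [← e1, g_pow_odd]; ring
    have b0 := n3_pow_even j
    have b1 := n3_pow_odd j
    have b3 : n3 (2 ^ (2 * j + 3)) = 2 * 2 ^ j := by rw [← e1, n3_pow_odd]; ring
    have p3 : 2 ^ (2 * j + 3) = 8 * 2 ^ (2 * j) := by ring
    have p1 : 2 ^ (2 * j + 1) = 2 * 2 ^ (2 * j) := by ring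
    rw [e1] at hc ih hK weak hK2 ⊢
    refine ⟨fun hsp => ?_, fun _ => ?_⟩
    · have := hsp.n3; omega
    rw [M5_beta]
    have l1 := add_bit_le (2 * j) c
    have l2 := add_bit_le (2 * j + 1) (c + 2 ^ (2 * j))
    have l3 := add_bit_le (2 * j + 1) c
    refine Le.add ?_ (((weak _ (by omega)).mul_bit _).mono (by omega))
    by_cases hsp' : Special (c + 2 ^ (2 * j) + 2 ^ (2 * j + 1))
    · have := hsp'.n3
      exact ((weak _ (by omega)).mul_bit _).mono (by omega)
    · exact (((ih _ (by omega)).2 hsp').mul_bit _).mono (by omega)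

def Cond (k c : ℕ) : Prop :=
  k % 2 = 1 ∧ n3 k = 0 ∧ ((c = 0 ∧ 1 < k) ∨ (k = 1 ∧ ∃ J, c = 2 ^ (2 * J)))

lemma claim5M (s : ℕ) : ∀ k < 2 ^ (s + 1), ∀ c, 2 ^ (s + 1) ∣ c →
    (Cond k c → ∃ e, g e + 2 = g k + g c ∧ n3 e = 0 ∧ Dom e (M5 k c)) ∧
    (¬ Cond k c → Le (g k + g c - 2) 1 (M5 k c)) := by
  induction s with
  | zero =>
    intro k hk c hc
    have hns : ¬ Special c := by
      rintro ⟨J, hJ, rfl⟩
      obtain ⟨J, rfl⟩ : ∃ J', J = J' + 1 := ⟨J - 1, by omega⟩
      rw [show 2 * (J + 1) = 2 * J + 1 + 1 by ring, pow_succ] at hc; omega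
    have h0 := (claim5R c).2 hns
    have hb : c.testBit 0 = false := by simp; omega
    have h1 := (add_bit 0 c).1 hb
    simp only [pow_zero, g_one, n3_one] at h1
    interval_cases k
    · exact ⟨fun h => absurd h.1 (by simp), fun _ => by simpa using h0⟩
    · have h2 := M5_bit 0 c 0
      have h3 := h0.mul_bit 0
      simp only [pow_zero, zero_add, g_one, n3_one] at h2 h3
      rw [h2, g_one]
      refine ⟨fun h => ?_, fun h => ?_⟩
      · obtain ⟨J, hJ⟩ : ∃ J, c = 2 ^ (2 * J) := by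
          rcases h.2.2 with h | h
          · omega
          · exact h.2
        have hJ1 : 1 ≤ J := by
          rcases J with _ | J
          · simp at hJ; omega
          · omega
        obtain ⟨e, he1, he2, he3⟩ := (claim5R (c + 1)).1 ⟨J, hJ1, by omega⟩
        exact ⟨e, by omega, he2, he3.add (h3.mono (by omega))⟩
      · refine Le.add (((claim5R (c + 1)).2 ?_).mono (by omega)) (h3.mono (by omega))
        rintro ⟨J, _, hJ⟩
        exact h ⟨rfl, n3_one, Or.inr ⟨rfl, J, by omega⟩⟩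
  | succ s ih =>
    intro K hK c hc
    have hc' : 2 ^ (s + 1) ∣ c := (pow_dvd_pow 2 (by omega)).trans hc
    by_cases hlt : K < 2 ^ (s + 1)
    · exact ih K hlt c hc'
    obtain ⟨k, rfl⟩ : ∃ k, K = k + 2 ^ (s + 1) := ⟨K - 2 ^ (s + 1), by omega⟩
    have hk : k < 2 ^ (s + 1) := by rw [pow_succ] at hK; omega
    have hK2 := (add_bit (s + 1) k).1 (Nat.testBit_lt_two_pow hk)
    have hcb : c.testBit (s + 1) = false := by
      obtain ⟨d, rfl⟩ := hc
      rw [Nat.testBit_two_pow_mul]; simp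
    have hc2 := (add_bit (s + 1) c).1 hcb
    have i1 := ih k hk (c + 2 ^ (s + 1)) (dvd_add hc' dvd_rfl)
    have i2 := ih k hk c hc'
    have hp := Nat.one_le_two_pow (n := s)
    have hps : 2 ^ (s + 1) = 2 * 2 ^ s := by ring
    have hmod : (k + 2 ^ (s + 1)) % 2 = k % 2 := by omega
    have pow_case : ∀ J, c + 2 ^ (s + 1) = 2 ^ (2 * J) → c = 0 ∧ s + 1 = 2 * J := by
      intro J hJ
      have h1 : (c + 2 ^ (s + 1)).testBit (s + 1) = true := by
        rw [add_comm, Nat.testBit_two_pow_add_eq, hcb]; rfl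
      rw [hJ, Nat.testBit_two_pow] at h1
      have h2 : 2 * J = s + 1 := by simpa using h1
      rw [h2] at hJ
      omega
    have weak2 : Le (g k + g c - 2) 0 (M5 k c) := by
      by_cases h : Cond k c
      · obtain ⟨e, h1, h2, h3⟩ := i2.1 h
        exact h3.le.mono (by omega)
      · exact (i2.2 h).mono (by omega)
    rw [M5_bit]
    rcases Nat.even_or_odd' (s + 1) with ⟨i, hi | hi⟩
    · have a0 : g (2 ^ (s + 1)) = 2 ^ i := by rw [hi, g_pow_even]
      have b0 : n3 (2 ^ (s + 1)) = 0 := by rw [hi, n3_pow_even]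
      refine ⟨fun h => ?_, fun h => ?_⟩
      · obtain ⟨h1, h2, h3⟩ := h
        have hc0 : c = 0 := by
          rcases h3 with h3 | h3
          · exact h3.1
          · omega
        subst hc0
        by_cases hk1 : k = 1
        · subst hk1
          obtain ⟨e, he1, he2, he3⟩ := i1.1 ⟨rfl, n3_one, Or.inr ⟨rfl, i, by rw [hi, zero_add]⟩⟩
          refine ⟨e, by omega, he2, he3.add ?_⟩
          refine ((i2.2 ?_).mul_bit _).mono (by omega)
          rintro ⟨_, _, h | ⟨_, J, hJ⟩⟩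
          · omega
          · have := Nat.one_le_two_pow (n := 2 * J); omega
        · obtain ⟨e, he1, he2, he3⟩ := i2.1 ⟨by omega, by omega, Or.inl ⟨rfl, by omega⟩⟩
          have hbit : e.testBit (s + 1) = false := by
            rw [hi, testBit_even]
            apply Nat.testBit_lt_two_pow
            have := g5_lt i k (hi ▸ hk)
            have := g_split e
            have := g_split k
            rw [g_zero] at he1
            omega
          have h7 := (add_bit _ e).1 hbit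
          refine ⟨e + 2 ^ (s + 1), by omega, by omega, (he3.mul_bit hbit).add' ?_⟩
          refine (i1.2 ?_).mono (by omega)
          rintro ⟨_, _, h | h⟩
          · omega
          · exact hk1 h.1
      · refine Le.add ((i1.2 ?_).mono (by omega)) ?_
        · rintro ⟨h1, h2, h3 | ⟨h3, J, hJ⟩⟩
          · omega
          · exact h ⟨by omega, by omega, Or.inl ⟨(pow_case J hJ).1, by omega⟩⟩
        · by_cases h' : Cond k c
          · obtain ⟨e, he1, he2, he3⟩ := i2.1 h'
            obtain ⟨h1, h2, h3 | ⟨h3, J, hJ⟩⟩ := h'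
            · exact absurd ⟨by omega, by omega, Or.inl ⟨h3.1, by omega⟩⟩ h
            · subst h3
              have hJi : i < J := by
                rw [hJ] at hc
                have := (Nat.pow_dvd_pow_iff_le_right (by norm_num)).1 hc
                omega
              have hbit : e.testBit (s + 1) = true := by
                have h5 : g5 e = 2 ^ J - 1 := by
                  have := g_split e
                  rw [hJ, g_pow_even, g_one] at he1
                  omega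
                rw [hi, testBit_even, h5, Nat.testBit_two_pow_sub_one]
                simpa using hJi
              exact (he3.mul_bit' hbit).mono (by omega)
          · exact ((i2.2 h').mul_bit _).mono (by omega)
    · have b0 : n3 (2 ^ (s + 1)) = 2 ^ i := by rw [hi, n3_pow_odd]
      have hp' := Nat.one_le_two_pow (n := i)
      refine ⟨fun h => ?_, fun _ => ?_⟩
      · have := h.2.1; omega
      · refine Le.add ((i1.2 ?_).mono (by omega)) ((weak2.mul_bit _).mono (by omega))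
        rintro ⟨h1, h2, h3 | ⟨h3, J, hJ⟩⟩
        · omega
        · have := (pow_case J hJ).2; omega

theorem claim5 (k : ℕ) :
    (k % 2 = 1 → n3 k = 0 → 1 < k → ∃ e, g e + 2 = g k ∧ n3 e = 0 ∧ Dom e (P5 k)) ∧
    (¬ (k % 2 = 1 ∧ n3 k = 0 ∧ 1 < k) → Le (g k - 2) 1 (P5 k)) := by
  have h := claim5M k k (lt_of_lt_of_le Nat.lt_two_pow_self
    (Nat.pow_le_pow_right (by norm_num) (by omega))) 0 (dvd_zero _)
  rw [M5_zero, g_zero] at h
  refine ⟨fun h1 h2 h3 => ?_, fun h1 => ?_⟩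
  · simpa using h.1 ⟨h1, h2, Or.inl ⟨rfl, h3⟩⟩
  · have := h.2 (by
      rintro ⟨h2, h3, h4 | ⟨_, J, hJ⟩⟩
      · exact h1 ⟨h2, h3, h4.2⟩
      · have := Nat.one_le_two_pow (n := 2 * J); omega)
    simpa using this

end Pool.Agent.Lib.MP_a3366f_nt
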