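import Mathlib
import Pool.Agent.Lib.MP_a3366f_nt.NS

open Polynomial

namespace Pool.Agent.Lib.MP_a3366f_nt

lemma D_pow_mod (e : ℕ) : ∀ n, (D ^ e).coeff n ≠ 0 → n % 8 = e % 8 := by
  induction e with
  | zero => intro n h; rw [pow_zero, PowerSeries.coeff_one] at h; split_ifs at h <;> simp_all
  | succ e ih =>
    intro n h
    rw [pow_succ, PowerSeries.coeff_mul] at h
    obtain ⟨x, hx, h1⟩ := Finset.exists_ne_zero_of_sum_ne_zero h
    rw [Finset.HasAntidiagonal.mem_antidiagonal] at hx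
    have h2 := ih _ (left_ne_zero_of_mul h1)
    have h3 := right_ne_zero_of_mul h1
    rw [coeff_D] at h3
    split_ifs at h3 with h4
    · obtain ⟨h5, r, hr⟩ := h4
      have h6 : x.2 % 8 = 1 := by
        rw [hr] at h5 ⊢
        have : r % 2 = 1 := Nat.odd_iff.1 (Nat.odd_mul.1 h5).1
        have : r % 8 = 1 ∨ r % 8 = 3 ∨ r % 8 = 5 ∨ r % 8 = 7 := by omega
        rcases this with h | h | h | h <;> simp [Nat.mul_mod, h]
      omega
    · simp at h3

lemma map_eq_sum {M : Type*} [AddCommGroup M] [Module (ZMod 2) M] (S : R2 →ₗ[ZMod 2] M) (P : R2) :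
    S P = ∑ k ∈ P.support, P.coeff k • S (X ^ k) := by
  conv_lhs => rw [P.as_sum_support_C_mul_X_pow, map_sum]
  exact Finset.sum_congr rfl fun k _ => by rw [← smul_eq_C_mul, map_smul]

lemma aeval_parity (r : ℕ) (P : R2) (h : ∀ e, P.coeff e ≠ 0 → e % 2 = r) (n : ℕ)
    (hn : (aeval D P).coeff n ≠ 0) : n % 2 = r := by
  have := map_eq_sum (aeval D : R2 →ₐ[ZMod 2] S2).toLinearMap P
  simp only [AlgHom.toLinearMap_apply, map_pow, aeval_X] at this
  rw [this, map_sum] at hn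
  obtain ⟨k, hk, h1⟩ := Finset.exists_ne_zero_of_sum_ne_zero hn
  rw [map_smul, smul_eq_mul] at h1
  have h2 := D_pow_mod _ _ (right_ne_zero_of_mul h1)
  have h3 := h k (left_ne_zero_of_mul h1)
  omega

def OddP (P : R2) : Prop := ∀ e, P.coeff e ≠ 0 → e % 2 = 1

lemma oddP_of_aeval {P : R2} (h : ∀ n, (aeval D P).coeff n ≠ 0 → n % 2 = 1) : OddP P := by
  classical
  set A : R2 := ∑ k ∈ P.support.filter (fun k => k % 2 = 0), monomial k (P.coeff k) with hA
  have hAc : ∀ e, A.coeff e = if e % 2 = 0 then P.coeff e else 0 := by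
    intro e
    rw [hA, finsetSum_coeff]
    simp only [coeff_monomial, Finset.sum_ite_eq', Finset.mem_filter, mem_support_iff]
    by_cases h1 : P.coeff e = 0 <;> simp [h1]
  have h1 := aeval_parity 0 A (fun e he => by rw [hAc] at he; by_contra h; simp [h] at he)
  have h2 := aeval_parity 1 (P - A) (fun e he => by
    rw [coeff_sub, hAc] at he
    by_contra h
    rw [if_pos (by omega)] at he; simp at he)
  have h3 : A = 0 := by
    apply aeval_inj
    ext n
    rw [map_zero, map_zero]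
    by_contra h4
    have h5 := h1 n h4
    have h6 : (aeval D P).coeff n = 0 := by by_contra h6; have := h n h6; omega
    have h7 : (aeval D (P - A)).coeff n = 0 := by by_contra h6; have := h2 n h6; omega
    rw [map_sub, map_sub, h6, zero_sub, neg_eq_zero] at h7
    exact h4 h7
  intro e he
  by_contra h4
  have := hAc e
  rw [h3, if_pos (by omega)] at this
  exact he this.symm

lemma OddP.tau {p : ℕ} (hp : p.Prime) (hp2 : Odd p) {P : R2} (h : OddP P) : OddP (tau p P) := by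
  apply oddP_of_aeval
  intro n hn
  rw [aeval_tau hp hp2, coeff_T] at hn
  have hp3 := Nat.odd_iff.1 hp2
  by_cases h1 : (aeval D P).coeff (p * n) = 0
  · rw [h1, zero_add] at hn
    split_ifs at hn with h2
    · obtain ⟨m, rfl⟩ := h2
      rw [Nat.mul_div_cancel_left _ hp.pos] at hn
      have := aeval_parity 1 P h _ hn
      rw [Nat.mul_mod, hp3, this]
    · simp at hn
  · have := aeval_parity 1 P h _ h1
    rw [Nat.mul_mod, hp3] at this
    omega

lemma Le.map {G N : ℤ} (S : R2 →ₗ[ZMod 2] R2) {P : R2}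
    (h : ∀ k, P.coeff k ≠ 0 → Le G N (S (X ^ k))) : Le G N (S P) := by
  intro e he
  rw [map_eq_sum, finsetSum_coeff] at he
  obtain ⟨k, hk, h1⟩ := Finset.exists_ne_zero_of_sum_ne_zero he
  rw [coeff_smul, smul_eq_mul] at h1
  exact h k (left_ne_zero_of_mul h1) e (right_ne_zero_of_mul h1)

lemma weak3 (k : ℕ) : Le (g k - 2) (n3 k - 1) (P3 k) := by
  by_cases h : k % 2 = 1 ∧ 1 ≤ n3 k
  · obtain ⟨e, h1, h2, h3⟩ := (claim3 k).1 h.1 h.2
    exact h3.le.mono (by omega)
  · exact ((claim3 k).2 h).mono (by omega)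

lemma weak5 (k : ℕ) : Le (g k - 2) 0 (P5 k) := by
  by_cases h : k % 2 = 1 ∧ n3 k = 0 ∧ 1 < k
  · obtain ⟨e, h1, h2, h3⟩ := (claim5 k).1 h.1 h.2.1 h.2.2
    exact h3.le.mono (by omega)
  · exact ((claim5 k).2 h).mono (by omega)

lemma Dom.odd {e : ℕ} {P : R2} (h : Dom e P) (hP : OddP P) : e % 2 = 1 :=
  hP e (by rw [h.coeff]; exact one_ne_zero)

lemma split_dom (e : ℕ) (P : R2) : P = X ^ e + (P + X ^ e) := by
  rw [add_comm P, ← add_assoc, add_self2, zero_add]

lemma tau3_dom {e : ℕ} {P : R2} (hP : OddP P) (h : Dom e P) (h1 : 1 ≤ n3 e) :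
    ∃ e', g e' + 2 = g e ∧ n3 e' + 1 = n3 e ∧ Dom e' (tau 3 P) := by
  obtain ⟨e', h2, h3, h4⟩ := (claim3 e).1 (h.odd hP) h1
  refine ⟨e', h2, h3, ?_⟩
  rw [split_dom e P, map_add]
  refine h4.add (Le.map _ fun k hk => (weak3 k).mono ?_)
  have := h k hk; omega

lemma tau5_dom {e : ℕ} {P : R2} (hP : OddP P) (h : Dom e P) (h1 : n3 e = 0) (h1' : 1 < e) :
    ∃ e', g e' + 2 = g e ∧ n3 e' = 0 ∧ Dom e' (tau 5 P) := by
  obtain ⟨e', h2, h3, h4⟩ := (claim5 e).1 (h.odd hP) h1 h1'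
  refine ⟨e', h2, h3, ?_⟩
  rw [split_dom e P, map_add]
  refine h4.add (Le.map _ fun k hk => ?_)
  rcases h k hk with h5 | h5
  · exact (weak5 k).mono (by omega)
  · exact ((claim5 k).2 (by omega)).mono (by omega)

lemma exists_dom {P : R2} (hP : P ≠ 0) : ∃ e, Dom e P := by
  obtain ⟨e, he, hmax⟩ := Finset.exists_max_image P.support
    (fun e => toLex ((g e : ℤ), -(n3 e : ℤ))) (support_nonempty.2 hP)
  refine ⟨e, fun e' he' => ?_⟩
  have h1 : P.coeff e = 1 := by
    have : ∀ a : ZMod 2, a ≠ 0 → a = 1 := by decide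
    exact this _ (mem_support_iff.1 he)
  have h2 : e' ≠ e := by
    rintro rfl
    rw [coeff_add, h1, coeff_X_pow_self] at he'
    exact he' rfl
  rw [coeff_add, coeff_X_pow, if_neg h2, add_zero] at he'
  have h3 := hmax e' (mem_support_iff.2 he')
  rw [Prod.Lex.toLex_le_toLex] at h3
  have h4 := code_inj e' e
  simp only at h3
  omega

def V (n : ℕ) (P : R2) : Prop := ∀ e, P.coeff e ≠ 0 → e % 2 = 1 ∧ g e < 2 * n

lemma V.odd {n : ℕ} {P : R2} (h : V n P) : OddP P := fun e he => (h e he).1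

lemma V.eq_zero {P : R2} (h : V 0 P) : P = 0 := by
  ext e; by_contra he; have := h e he; omega

lemma V.zero (n : ℕ) : V n 0 := fun e he => by simp at he

lemma V.tau3 {n : ℕ} {P : R2} (h : V (n + 1) P) : V n (tau 3 P) := by
  intro e he
  refine ⟨h.odd.tau Nat.prime_three (by decide) e he, ?_⟩
  have := Le.map (G := 2 * n - 1) (N := -1) (tau 3) (P := P) (fun k hk => (weak3 k).mono (by
    have := h k hk; have := g_mod k; omega)) e he
  omega

lemma V.tau5 {n : ℕ} {P : R2} (h : V (n + 1) P) : V n (tau 5 P) := by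
  intro e he
  refine ⟨h.odd.tau Nat.prime_five (by decide) e he, ?_⟩
  have := Le.map (G := 2 * n - 1) (N := 0) (tau 5) (P := P) (fun k hk => (weak5 k).mono (by
    have := h k hk; have := g_mod k; omega)) e he
  omega

lemma V_of_dom {e : ℕ} {P : R2} (hP : OddP P) (h : Dom e P) {n : ℕ} (hn : g e < 2 * n) :
    V n P := fun k hk => ⟨hP k hk, by have := h.le k hk; omega⟩

lemma g_le_one {e : ℕ} (h : e ≤ 1) : g e ≤ 1 := by
  interval_cases e
  · simp
  · rw [g_one]

lemma V_of_tau {n : ℕ} {P : R2} (hP : OddP P) (h3 : V n (tau 3 P)) (h5 : V n (tau 5 P)) :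
    V (n + 1) P := by
  rcases eq_or_ne P 0 with rfl | h0
  · exact V.zero _
  obtain ⟨e, he⟩ := exists_dom h0
  refine V_of_dom hP he ?_
  by_contra hlt
  by_cases h1 : 1 ≤ n3 e
  · obtain ⟨e', h2, _, h4⟩ := tau3_dom hP he h1
    have := h3 e' (by rw [h4.coeff]; exact one_ne_zero)
    omega
  · obtain ⟨e', h2, _, h4⟩ := tau5_dom hP he (by omega)
      (by by_contra h; have := g_le_one (e := e) (by omega); omega)
    have := h5 e' (by rw [h4.coeff]; exact one_ne_zero)
    omega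

lemma V.shift (S : R2 →ₗ[ZMod 2] R2) (hodd : ∀ P, OddP P → OddP (S P))
    (c3 : ∀ P, tau 3 (S P) = S (tau 3 P)) (c5 : ∀ P, tau 5 (S P) = S (tau 5 P)) (j : ℕ)
    (h0 : ∀ P, V j P → S P = 0) (n : ℕ) : ∀ P, V (n + j) P → V n (S P) := by
  induction n with
  | zero => intro P hP; rw [h0 P (by simpa using hP)]; exact V.zero _
  | succ n ih =>
    intro P hP
    rw [show n + 1 + j = n + j + 1 by ring] at hP
    refine V_of_tau (hodd P hP.odd) ?_ ?_
    · rw [c3]; exact ih _ hP.tau3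
    · rw [c5]; exact ih _ hP.tau5

lemma T_D {p : ℕ} (hp : p.Prime) (hp2 : Odd p) : T p D = 0 := by
  ext n
  rw [coeff_T, map_zero, coeff_D]
  by_cases h : p ∣ n
  · obtain ⟨m, rfl⟩ := h
    rw [if_pos (dvd_mul_right _ _), Nat.mul_div_cancel_left _ hp.pos, coeff_D]
    have : (Odd (p * (p * m)) ∧ IsSquare (p * (p * m))) ↔ (Odd m ∧ IsSquare m) := by
      simp only [Nat.odd_mul, hp2, true_and]
      refine and_congr_right fun _ => ⟨?_, ?_⟩
      · rintro ⟨r, hr⟩
        obtain ⟨s, rfl⟩ : p ∣ r := hp.dvd_of_dvd_pow (n := 2) ⟨p * m, by rw [sq, ← hr]⟩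
        refine ⟨s, ?_⟩
        have h2 : p * p * m = p * p * (s * s) := by linarith
        exact Nat.eq_of_mul_eq_mul_left (Nat.mul_pos hp.pos hp.pos) h2
      · rintro ⟨r, rfl⟩; exact ⟨p * r, by ring⟩
    simp only [this]
    exact CharTwo.add_self_eq_zero _
  · rw [if_neg h, add_zero, if_neg]
    rintro ⟨_, r, hr⟩
    obtain ⟨s, rfl⟩ : p ∣ r := hp.dvd_of_dvd_pow (n := 2) ⟨n, by rw [sq, ← hr]⟩
    refine h ⟨s * s, ?_⟩
    have h2 : p * n = p * (p * (s * s)) := by linarith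
    exact Nat.eq_of_mul_eq_mul_left hp.pos h2

lemma tau_X {p : ℕ} (hp : p.Prime) (hp2 : Odd p) : tau p (X ^ 1) = 0 := by
  apply aeval_inj
  simp only [aeval_tau hp hp2, pow_one, aeval_X, T_D hp hp2, map_zero]

lemma V_one {e : ℕ} (h : e % 2 = 1 ∧ g e < 2 * 1) : e = 1 := by
  have h1 := le_g_sq e
  have h2 : g e ≤ 1 := by omega
  have h3 : g e ^ 2 ≤ 1 ^ 2 := Nat.pow_le_pow_left h2 2
  omega

lemma V_two {e : ℕ} (h : e % 2 = 1 ∧ g e < 2 * 2) : e = 1 ∨ e = 3 ∨ e = 5 := by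
  have h1 := le_g_sq e
  have h2 : g e ≤ 3 := by omega
  have h3 : g e ^ 2 ≤ 3 ^ 2 := Nat.pow_le_pow_left h2 2
  have h7 : g 7 = 5 := by rw [g_eq]; simp [g_one]
  have h9 : g 9 = 5 := by rw [g_eq]; simp [g_two]
  have : e ≠ 7 := by rintro rfl; omega
  have : e ≠ 9 := by rintro rfl; omega
  omega

lemma map_zero_of {S : R2 →ₗ[ZMod 2] R2} {P : R2} (h : ∀ k, P.coeff k ≠ 0 → S (X ^ k) = 0) :
    S P = 0 := by
  rw [map_eq_sum]
  exact Finset.sum_eq_zero fun k hk => by rw [h k (mem_support_iff.1 hk), smul_zero]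

theorem V.tau {p : ℕ} (hp : p.Prime) (hp2 : Odd p) {n : ℕ} {P : R2} (h : V (n + 1) P) :
    V n (tau p P) := by
  refine V.shift (MP_a3366f_nt.tau p) (fun P hP => hP.tau hp hp2)
    (tau_comm Nat.prime_three (by decide) hp hp2) (tau_comm Nat.prime_five (by decide) hp hp2) 1
    (fun P hP => map_zero_of fun k hk => ?_) n P h
  rw [V_one (hP k hk), tau_X hp hp2]

lemma V_one_eq {P : R2} (h : V 1 P) : P = P.coeff 1 • X := by
  ext e
  rw [coeff_smul, coeff_X, smul_eq_mul]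
  split_ifs with h1
  · rw [← h1, mul_one]
  · rw [mul_zero]; by_contra h2; exact h1 (V_one (h e h2)).symm

lemma coeff_one_D : D.coeff 1 = 1 := by rw [coeff_D, if_pos ⟨odd_one, 1, rfl⟩]

lemma tau_small {p : ℕ} (hp : p.Prime) (hp2 : Odd p) {k : ℕ} (hk : k = 3 ∨ k = 5) :
    tau p (X ^ k) = (D ^ k).coeff p • X := by
  have h1 : V 2 (X ^ k) := by
    intro e he
    rw [coeff_X_pow] at he
    have : e = k := by by_contra h; simp [h] at he
    have := g_small
    rcases hk with rfl | rfl <;> subst_vars <;> omega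
  have h2 := V_one_eq (h1.tau hp hp2)
  have h3 := congrArg (PowerSeries.coeff 1) (tau_X_pow hp hp2 k).2
  rw [coeff_T, if_neg (by simpa using hp.one_lt.ne'), h2, map_smul, map_smul, aeval_X,
    coeff_one_D] at h3
  rw [h2]; congr 1
  simpa using h3.symm

lemma rep_unique {p n x y u v : ℕ} (hp : p.Prime) (hn : 2 ≤ n) (h1 : x ^ 2 + n * y ^ 2 = p)
    (h2 : u ^ 2 + n * v ^ 2 = p) : x = u := by
  have hp' : Prime (p : ℤ) := Nat.prime_iff_prime_int.1 hp
  have hp0 : (0 : ℤ) < p := by exact_mod_cast hp.pos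
  have hn' : (2 : ℤ) ≤ n := by exact_mod_cast hn
  zify at h1 h2
  have key : ∀ w z : ℤ, (p : ℤ) ∣ w → z ^ 2 + n * w ^ 2 = (p : ℤ) ^ 2 → w = 0 := by
    rintro _ z ⟨c, rfl⟩ h
    by_contra h0
    have hc : c ≠ 0 := by rintro rfl; simp at h0
    have : 1 ≤ c ^ 2 := by have := sq_pos_of_ne_zero hc; omega
    have h4 : (p : ℤ) ^ 2 * 1 ≤ (p : ℤ) ^ 2 * c ^ 2 := by gcongr
    nlinarith [sq_nonneg z, sq_pos_of_pos hp0]
  have h3 : (p : ℤ) ∣ ((x : ℤ) * v - y * u) * (x * v + y * u) :=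
    ⟨v ^ 2 - y ^ 2, by linear_combination (v : ℤ) ^ 2 * h1 - (y : ℤ) ^ 2 * h2⟩
  have h4 : (x : ℤ) * v = y * u := by
    rcases hp'.dvd_or_dvd h3 with h | h
    · have := key _ (x * u + n * y * v) h (by rw [sq (p : ℤ)]; nth_rewrite 1 [← h1]; rw [← h2]; ring)
      linarith
    · have := key _ (x * u - n * y * v) h (by rw [sq (p : ℤ)]; nth_rewrite 1 [← h1]; rw [← h2]; ring)
      have a1 : (0 : ℤ) ≤ x * v := by positivity
      have a2 : (0 : ℤ) ≤ y * u := by positivity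
      linarith
  have h5 : (x : ℤ) ^ 2 * p = u ^ 2 * p := by
    nth_rewrite 1 [← h2]; rw [← h1]
    linear_combination (n : ℤ) * (x * v + y * u) * h4
  have h6 : x ^ 2 = u ^ 2 := by exact_mod_cast mul_right_cancel₀ hp0.ne' h5
  exact Nat.pow_left_injective (by norm_num) h6

lemma rep_three {p : ℕ} (hp : p.Prime) (h8 : p % 8 = 3) : ∃ x y : ℕ, x ^ 2 + 2 * y ^ 2 = p := by
  have := Fact.mk hp
  obtain ⟨r, hr⟩ : IsSquare (-2 : ZMod p) :=
    (ZMod.exists_sq_eq_neg_two_iff (by rintro rfl; omega)).2 (Or.inr h8)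
  set m := Nat.sqrt p with hm
  have hm1 : m * m ≤ p := Nat.sqrt_le p
  have hm2 : p < (m + 1) * (m + 1) := Nat.lt_succ_sqrt p
  have hm3 : m * m ≠ p := by
    intro h
    have := (Nat.prime_mul_iff.1 (h ▸ hp))
    rcases this with ⟨h1, h2⟩ | ⟨h1, h2⟩ <;> rw [h2] at h1 <;> exact Nat.not_prime_one h1
  obtain ⟨a, ha, b, hb, hab, h⟩ := Finset.exists_ne_map_eq_of_card_lt_of_maps_to
    (s := Finset.range (m + 1) ×ˢ Finset.range (m + 1)) (t := (Finset.univ : Finset (ZMod p)))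
    (by simpa [ZMod.card] using hm2) (f := fun x => (x.1 : ZMod p) - r * x.2) (by simp)
  simp only [Finset.mem_product, Finset.mem_range] at ha hb
  set x : ℤ := a.1 - b.1 with hx
  set y : ℤ := a.2 - b.2 with hy
  have h1 : (p : ℤ) ∣ x ^ 2 + 2 * y ^ 2 := by
    rw [← ZMod.intCast_zmod_eq_zero_iff_dvd]
    have : ((x : ℤ) : ZMod p) = r * y := by rw [hx, hy]; push_cast; linear_combination h
    push_cast
    rw [this]
    linear_combination (-(y : ZMod p) ^ 2) * hr
  have h2 : x ^ 2 ≤ m * m := by rw [← sq]; apply sq_le_sq' <;> omega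
  have h3 : y ^ 2 ≤ m * m := by rw [← sq]; apply sq_le_sq' <;> omega
  have h4 : 0 < x ^ 2 + 2 * y ^ 2 := by
    by_contra h4
    have a1 : x = 0 := by nlinarith [sq_nonneg x, sq_nonneg y]
    have a2 : y = 0 := by nlinarith [sq_nonneg x, sq_nonneg y]
    exact hab (Prod.ext (by omega) (by omega))
  obtain ⟨c, hc⟩ := h1
  have hmp : (m : ℤ) * m < p := by exact_mod_cast lt_of_le_of_ne hm1 hm3
  have hp0 : (0 : ℤ) < p := by exact_mod_cast hp.pos
  have c1 : 0 < c := by nlinarith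
  have c2 : c < 3 := by nlinarith
  interval_cases c
  · refine ⟨x.natAbs, y.natAbs, ?_⟩
    zify; simp only [sq_abs]; linarith
  · obtain ⟨z, hz⟩ : (2 : ℤ) ∣ x := Int.Prime.dvd_pow' (k := 2) Nat.prime_two
      ⟨p - y ^ 2, by push_cast; linarith⟩
    refine ⟨y.natAbs, z.natAbs, ?_⟩
    rw [hz] at hc
    zify; simp only [sq_abs]; linarith

lemma rep_five {p : ℕ} (hp : p.Prime) (h8 : p % 8 = 5) : ∃ x y : ℕ, x ^ 2 + 4 * y ^ 2 = p := by
  have := Fact.mk hp
  obtain ⟨a, b, hab⟩ := Nat.Prime.sq_add_sq (p := p) (by omega)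
  rcases Nat.even_or_odd' b with ⟨y, rfl | rfl⟩
  · exact ⟨a, y, by rw [← hab]; ring⟩
  · rcases Nat.even_or_odd' a with ⟨z, rfl | rfl⟩
    · exact ⟨2 * y + 1, z, by rw [← hab]; ring⟩
    · exfalso
      have : p = 2 * (2 * z ^ 2 + 2 * z + 2 * y ^ 2 + 2 * y + 1) := by rw [← hab]; ring
      omega

lemma sq_mod_eight (x : ℕ) : (x % 2 = 1 ∧ x ^ 2 % 8 = 1) ∨ (x % 2 = 0 ∧ x ^ 2 % 4 = 0) := by
  have : x % 8 = 0 ∨ x % 8 = 1 ∨ x % 8 = 2 ∨ x % 8 = 3 ∨ x % 8 = 4 ∨ x % 8 = 5 ∨ x % 8 = 6 ∨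
    x % 8 = 7 := by omega
  have h2 : x ^ 2 % 8 = (x % 8) ^ 2 % 8 := by simp [Nat.pow_mod]
  rcases this with h | h | h | h | h | h | h | h <;> rw [h] at h2 <;> omega

lemma coeff_prime {p n x y : ℕ} (hp : p.Prime) (hn : 2 ≤ n) (h : x ^ 2 + n * y ^ 2 = p)
    (hx : x % 2 = 1) (hy : y % 2 = 1) (E : S2)
    (hE : ∀ j, E.coeff j = if n ∣ j then D.coeff (j / n) else 0) : (D * E).coeff p = 1 := by
  rw [PowerSeries.coeff_mul, Finset.sum_eq_single (x ^ 2, n * y ^ 2)]
  · rw [hE, if_pos (dvd_mul_right _ _), Nat.mul_div_cancel_left _ (by omega), coeff_D, coeff_D,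
      if_pos ⟨(Nat.odd_iff.2 hx).pow, x, sq x⟩, if_pos ⟨(Nat.odd_iff.2 hy).pow, y, sq y⟩, one_mul]
  · rintro ⟨i, j⟩ hij hne
    rw [Finset.HasAntidiagonal.mem_antidiagonal] at hij
    by_contra h0
    have h1 := left_ne_zero_of_mul h0
    have h2 := right_ne_zero_of_mul h0
    rw [hE] at h2
    rw [coeff_D] at h1
    split_ifs at h1 h2 with h3 h4 h4
    · obtain ⟨m, rfl⟩ := h4
      rw [Nat.mul_div_cancel_left _ (by omega), coeff_D] at h2
      split_ifs at h2 with h5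
      · obtain ⟨_, u, rfl⟩ := h3
        obtain ⟨_, v, rfl⟩ := h5
        have h6 := rep_unique (u := u) (v := v) hp hn h (by rw [sq, sq]; exact hij)
        subst h6
        apply hne
        simp only at hij
        rw [Prod.mk.injEq, sq, sq]
        refine ⟨rfl, ?_⟩
        rw [sq, sq] at h; omega
      · simp at h2
    all_goals simp at h1 h2
  · intro h'; exact absurd (Finset.HasAntidiagonal.mem_antidiagonal.2 h) h'

lemma coeff_D3 {p : ℕ} (hp : p.Prime) (h8 : p % 8 = 3) : (D ^ 3).coeff p = 1 := by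
  obtain ⟨x, y, h⟩ := rep_three hp h8
  have h1 := sq_mod_eight x
  have h2 := sq_mod_eight y
  rw [pow_succ' D 2]
  exact coeff_prime hp le_rfl h (by omega) (by omega) _ (sq_map_two D)

lemma coeff_D5 {p : ℕ} (hp : p.Prime) (h8 : p % 8 = 5) : (D ^ 5).coeff p = 1 := by
  obtain ⟨x, y, h⟩ := rep_five hp h8
  have h1 := sq_mod_eight x
  have h2 := sq_mod_eight y
  rw [pow_succ' D 4]
  refine coeff_prime hp (by norm_num) h (by omega) (by omega) _ fun j => ?_
  rw [show D ^ 4 = (D ^ 2) ^ 2 by ring, sq_map_two, sq_map_two, Nat.div_div_eq_div_mul]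
  split_ifs <;> first | rfl | omega

theorem V.tau_sub {p r : ℕ} (hp : p.Prime) (hr : r = 3 ∨ r = 5) (h8 : p % 8 = r) {n : ℕ} {P : R2}
    (h : V (n + 2) P) : V n (MP_a3366f_nt.tau p P - MP_a3366f_nt.tau r P) := by
  have hp2 : Odd p := Nat.odd_iff.2 (by omega)
  have hrp : r.Prime := by rcases hr with rfl | rfl <;> norm_num
  have hr2 : Odd r := by rcases hr with rfl | rfl <;> decide
  refine V.shift (MP_a3366f_nt.tau p - MP_a3366f_nt.tau r) (fun P hP e he => ?_) ?_ ?_ 2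
    (fun P hP => map_zero_of fun k hk => ?_) n P h
  · rw [LinearMap.sub_apply, coeff_sub] at he
    by_cases h1 : (MP_a3366f_nt.tau p P).coeff e = 0
    · exact hP.tau hrp hr2 e (by simpa [h1] using he)
    · exact hP.tau hp hp2 e h1
  · intro P
    simp only [LinearMap.sub_apply, map_sub, tau_comm Nat.prime_three (by decide) hp hp2,
      tau_comm Nat.prime_three (by decide) hrp hr2]
  · intro P
    simp only [LinearMap.sub_apply, map_sub, tau_comm Nat.prime_five (by decide) hp hp2,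
      tau_comm Nat.prime_five (by decide) hrp hr2]
  · rw [LinearMap.sub_apply, sub_eq_zero]
    have z : ∀ q k, q % 8 ≠ k % 8 → (D ^ k).coeff q = 0 := fun q k h => by
      by_contra h'; exact h (D_pow_mod k q h')
    rcases V_two (hP k hk) with rfl | rfl | rfl
    · rw [tau_X hp hp2, tau_X hrp hr2]
    · rw [tau_small hp hp2 (Or.inl rfl), tau_small hrp hr2 (Or.inl rfl)]
      rcases hr with rfl | rfl
      · rw [coeff_D3 hp h8, coeff_D3 hrp rfl]
      · rw [z _ _ (by omega), z _ _ (by omega)]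
    · rw [tau_small hp hp2 (Or.inr rfl), tau_small hrp hr2 (Or.inr rfl)]
      rcases hr with rfl | rfl
      · rw [z _ _ (by omega), z _ _ (by omega)]
      · rw [coeff_D5 hp h8, coeff_D5 hrp rfl]

noncomputable def tauL : List ℕ → R2 →ₗ[ZMod 2] R2
  | [] => LinearMap.id
  | p :: ps => tauL ps ∘ₗ tau p

lemma tauL_zero (ps : List ℕ) (h : ∀ p ∈ ps, p.Prime ∧ Odd p) :
    ∀ P, V ps.length P → tauL ps P = 0 := by
  induction ps with
  | nil => intro P hP; exact hP.eq_zero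
  | cons p ps ih =>
    intro P hP
    have := h p (by simp)
    exact ih (fun q hq => h q (by simp [hq])) _ (hP.tau this.1 this.2)

lemma iter5 (b : ℕ) : ∀ e P, OddP P → Dom e P → n3 e = 0 → g e = 2 * b + 1 →
    (tau 5)^[b] P = X := by
  induction b with
  | zero =>
    intro e P hP h h1 h2
    have h3 : e = 1 := V_one ⟨h.odd hP, by omega⟩
    subst h3
    have := V_one_eq (V_of_dom hP h (n := 1) (by omega))
    rw [h.coeff, one_smul] at this
    exact this
  | succ b ih =>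
    intro e P hP h h1 h2
    obtain ⟨e', h3, h4, h5⟩ := tau5_dom hP h h1
      (by by_contra h; have := g_le_one (e := e) (by omega); omega)
    exact ih e' _ (hP.tau Nat.prime_five (by decide)) h5 h4 (by omega)

lemma iter3 (b a : ℕ) : ∀ e P, OddP P → Dom e P → n3 e = a → g e = 2 * (a + b) + 1 →
    (tau 5)^[b] ((tau 3)^[a] P) = X := by
  induction a with
  | zero => intro e P hP h h1 h2; exact iter5 b e P hP h h1 (by omega)
  | succ a ih =>
    intro e P hP h h1 h2
    obtain ⟨e', h3, h4, h5⟩ := tau3_dom hP h (by omega)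
    exact ih e' _ (hP.tau Nat.prime_three (by decide)) h5 (by omega) (by omega)

lemma tauL_eq (ps : List ℕ) (h : ∀ p ∈ ps, p.Prime ∧ (p % 8 = 3 ∨ p % 8 = 5)) :
    ∀ P, V (ps.length + 1) P → tauL ps P =
      (tau 5)^[ps.countP (· % 8 = 5)] ((tau 3)^[ps.countP (· % 8 = 3)] P) := by
  induction ps with
  | nil => intro P _; rfl
  | cons p ps ih =>
    intro P hP
    have hp := h p (by simp)
    have h' : ∀ q ∈ ps, q.Prime ∧ (q % 8 = 3 ∨ q % 8 = 5) := fun q hq => h q (by simp [hq])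
    have h1 : tauL ps (tau p P - tau (p % 8) P) = 0 :=
      tauL_zero ps (fun q hq => ⟨(h' q hq).1, Nat.odd_iff.2 (by have := (h' q hq).2; omega)⟩) _
        (V.tau_sub hp.1 hp.2 rfl hP)
    rw [map_sub, sub_eq_zero] at h1
    change tauL ps (tau p P) = _
    rw [h1]
    rcases hp.2 with h2 | h2
    · rw [h2, ih h' _ hP.tau3]
      simp [h2]
    · rw [h2, ih h' _ hP.tau5]
      have hc : Function.Commute (tau 3) (tau 5) :=
        tau_comm Nat.prime_three (by decide) Nat.prime_five (by decide)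
      rw [(hc.iterate_left _).eq]
      simp [h2]

lemma coeff_tauL (ps : List ℕ) (h : ∀ p ∈ ps, p.Prime ∧ Odd p) (hd : ps.Nodup) :
    ∀ (P : R2) (n : ℕ), (∀ p ∈ ps, ¬ p ∣ n) →
      (aeval D (tauL ps P)).coeff n = (aeval D P).coeff (ps.prod * n) := by
  induction ps with
  | nil => intro P n _; simp [tauL]
  | cons p ps ih =>
    intro P n hn
    have hp := h p (by simp)
    rw [List.nodup_cons] at hd
    change (aeval D (tauL ps (tau p P))).coeff n = _
    rw [ih (fun q hq => h q (by simp [hq])) hd.2 _ n (fun q hq => hn q (by simp [hq])),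
      aeval_tau hp.1 hp.2, coeff_T, if_neg, add_zero, List.prod_cons, mul_assoc]
    intro hdvd
    rcases hp.1.dvd_mul.1 hdvd with h1 | h1
    · obtain ⟨q, hq, h2⟩ := (Prime.dvd_prod_iff hp.1.prime).1 h1
      rw [(Nat.prime_dvd_prime_iff_eq hp.1 (h q (by simp [hq])).1).1 h2] at hd
      exact hd.1 hq
    · exact hn p (by simp) h1

theorem coeff_vanish (m : ℕ) (hm : m % 2 = 1) (S : Finset ℕ) (h : ∀ p ∈ S, p.Prime ∧ Odd p)
    (hS : g m < 2 * S.card) (n : ℕ) (hn : ∀ p ∈ S, ¬ p ∣ n) :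
    (D ^ m).coeff ((∏ p ∈ S, p) * n) = 0 := by
  have h1 := coeff_tauL S.toList (by simpa using h) S.nodup_toList (X ^ m) n (by simpa using hn)
  rw [tauL_zero _ (by simpa using h)] at h1
  · simpa using h1.symm
  · intro e he
    rw [coeff_X_pow] at he
    have : e = m := by by_contra h; simp [h] at he
    subst this
    simpa using ⟨hm, hS⟩

theorem coeff_one_of_dom {P : R2} (hP : OddP P) {e : ℕ} (he : Dom e P) (S : Finset ℕ)
    (h : ∀ p ∈ S, p.Prime ∧ (p % 8 = 3 ∨ p % 8 = 5))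
    (h3 : (S.filter (· % 8 = 3)).card = n3 e) (h5 : 2 * (S.filter (· % 8 = 5)).card + 1 = g5 e) :
    (aeval D P).coeff (∏ p ∈ S, p) = 1 := by
  have hodd : ∀ p ∈ S, p.Prime ∧ Odd p := fun q hq =>
    ⟨(h q hq).1, Nat.odd_iff.2 (by have := (h q hq).2; omega)⟩
  have h1 := coeff_tauL S.toList (by simpa using hodd) S.nodup_toList P 1
    (fun p hp hd => (h p (by simpa using hp)).1.one_lt.ne' (Nat.dvd_one.1 hd))
  have hc : ∀ r, S.toList.countP (· % 8 = r) = (S.filter (· % 8 = r)).card := by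
    intro r
    have : S.toList.countP (· % 8 = r) = Multiset.countP (· % 8 = r) S.val := by
      rw [← Finset.coe_toList, Multiset.coe_countP]
    rw [this, Multiset.countP_eq_card_filter]; rfl
  have hcard : S.card = (S.filter (· % 8 = 3)).card + (S.filter (· % 8 = 5)).card := by
    rw [← Finset.card_union_of_disjoint, ← Finset.filter_or, Finset.filter_true_of_mem]
    · exact fun p hp => (h p hp).2
    · rw [Finset.disjoint_filter]; intro x _ h1 h2; omega
  have hs := g_split e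
  rw [tauL_eq _ (by simpa using h) P (V_of_dom hP he (by rw [Finset.length_toList]; omega)), hc, hc,
    iter3 _ _ e P hP he h3.symm (by omega), aeval_X, coeff_one_D] at h1
  simpa using h1.symm

end Pool.Agent.Lib.MP_a3366f_nt
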