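import Mathlib
import Pool.Agent.Lib.MP_a3366f_nt.Nilp
import Pool.Agent.Lib.MP_a3366f_nt.Iface

open PowerSeries Finset

namespace Pool.Agent.Lib.MP_a3366f_nt

noncomputable def P1 : S2 := PowerSeries.mk fun n => (Fintype.card (Nat.Partition n) : ZMod 2)

noncomputable abbrev pent : S2 := pentagonalSeries (ZMod 2)

open scoped PowerSeries.WithPiTopology in
lemma P1_mul_pent : P1 * pent = 1 := by
  let _ : TopologicalSpace (ZMod 2) := ⊥
  have : DiscreteTopology (ZMod 2) := ⟨rfl⟩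
  have h1 := Nat.Partition.hasProd_powerSeriesMk_card_restricted (ZMod 2) (fun _ => True)
  have h2 := PowerSeries.WithPiTopology.hasProd_one_sub_X_pow (ZMod 2)
  have h3 := h1.mul h2
  have h4 : (fun i : ℕ => (if True then ∑' j : ℕ, (X : S2) ^ ((i + 1) * j) else 1) *
      (1 - X ^ (i + 1))) = fun _ => 1 := by
    funext i
    simp only [if_true, pow_mul]
    exact PowerSeries.WithPiTopology.tsum_pow_mul_one_sub_of_constantCoeff_eq_zero (by simp)
  rw [h4] at h3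
  have h5 := h3.unique hasProd_one
  rw [← h5]
  congr 1
  ext n
  simp [P1, Nat.Partition.restricted]

lemma coeff_P1_pow (t n : ℕ) : (P1 ^ t).coeff n = (pt t n : ZMod 2) := by
  have : P1 ^ t = ∏ _i : Fin t, P1 := by simp
  rw [this, PowerSeries.coeff_prod, pt]
  push_cast
  refine Finset.sum_nbij' (fun l => (l : Fin t → ℕ)) (fun x => Finsupp.equivFunOnFinite.symm x)
    ?_ ?_ ?_ ?_ ?_
  · intro l hl
    rw [Finset.Nat.mem_antidiagonalTuple]
    exact (Finset.mem_finsuppAntidiag.1 hl).1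
  · intro x hx
    rw [Finset.mem_finsuppAntidiag]
    exact ⟨by simpa using Finset.Nat.mem_antidiagonalTuple.1 hx, by simp⟩
  · intro l _; simp
  · intro x _; simp
  · intro l _; simp [P1]

lemma pow_two_pow (f : S2) (j : ℕ) : f ^ 2 ^ j = expand (2 ^ j) (by positivity) f := by
  induction j with
  | zero => simp
  | succ j ih =>
    ext n
    rw [coeff_expand, pow_succ 2 j, pow_mul, sq_map_two, ih, coeff_expand, Nat.div_div_eq_div_mul,
      mul_comm 2]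
    by_cases h1 : 2 ∣ n
    · obtain ⟨m, rfl⟩ := h1
      rw [if_pos (dvd_mul_right _ _), Nat.mul_div_cancel_left _ (by norm_num)]
      simp only [mul_comm 2 m, mul_dvd_mul_iff_right (two_ne_zero)]
    · rw [if_neg h1, if_neg (fun h => h1 ((dvd_mul_left _ _).trans h))]

lemma coeff_pent (e : ℕ) :
    pent.coeff e = open Classical in if IsSquare (24 * e + 1) then 1 else 0 := by
  by_cases h : e ∈ Set.range pentagonal
  · obtain ⟨k, rfl⟩ := h
    rw [coeff_pentagonalSeries_pentagonal, if_pos]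
    · rcases Int.units_eq_one_or (Int.negOnePow k) with h | h <;> simp [h]
    · refine ⟨(6 * k - 1).natAbs, ?_⟩
      have := two_mul_natCast_pentagonal k
      zify
      rw [abs_mul_abs_self]
      linear_combination 12 * this
  · rw [coeff_pentagonalSeries_eq_zero _ h, if_neg]
    rintro ⟨r, hr⟩
    apply h
    have h6 : r % 6 = 1 ∨ r % 6 = 5 := by
      have h1 : (r * r) % 6 = 1 := by omega
      have : r % 6 = 0 ∨ r % 6 = 1 ∨ r % 6 = 2 ∨ r % 6 = 3 ∨ r % 6 = 4 ∨ r % 6 = 5 := by omega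
      rcases this with h | h | h | h | h | h <;> simp [Nat.mul_mod, h] at h1 ⊢
    obtain ⟨k, hk⟩ : ∃ k : ℤ, (r : ℤ) * r = (6 * k - 1) ^ 2 := by
      rcases h6 with h | h
      · obtain ⟨s, rfl⟩ : ∃ s, r = 6 * s + 1 := ⟨r / 6, by omega⟩
        exact ⟨-s, by push_cast; ring⟩
      · obtain ⟨s, rfl⟩ : ∃ s, r = 6 * s + 5 := ⟨r / 6, by omega⟩
        exact ⟨s + 1, by push_cast; ring⟩
    refine ⟨k, ?_⟩
    have := two_mul_natCast_pentagonal k
    zify at hr ⊢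
    nlinarith

lemma D_pow_eq (m : ℕ) : D ^ m = X ^ m * expand 8 (by norm_num) (pent ^ (3 * m)) := by
  have := pow_two_pow (pent ^ (3 * m)) 3
  rw [← X_mul_pent_pow, mul_pow]
  congr 1
  rw [← show _ = expand 8 _ _ from this]
  ring

lemma coeff_D_pow_add (m n : ℕ) : (D ^ m).coeff (m + 8 * n) = (pent ^ (3 * m)).coeff n := by
  rw [D_pow_eq, add_comm, coeff_X_pow_mul, coeff_expand_mul]

lemma D_pow_supp {m n : ℕ} (h : (D ^ m).coeff n ≠ 0) : ∃ i, n = m + 8 * i := by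
  rw [D_pow_eq, coeff_X_pow_mul'] at h
  split_ifs at h with h1
  · have : 8 ∣ n - m := by
      by_contra h2; exact h (coeff_expand_of_not_dvd _ _ _ h2)
    exact ⟨(n - m) / 8, by omega⟩
  · simp at h

noncomputable def phi (c : ℕ) : S2 := pent ^ (3 / c)

lemma coeff_phi {c : ℕ} (hc : c = 1 ∨ c = 3) (e : ℕ) :
    (phi c).coeff e = open Classical in if IsSquare (8 * c * e + 1) then 1 else 0 := by
  rcases hc with rfl | rfl
  · have := coeff_D_pow_add 1 e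
    rw [pow_one, coeff_D] at this
    rw [phi, ← this]
    have h : Odd (1 + 8 * e) := ⟨4 * e, by ring⟩
    simp [h, add_comm]
  · simpa [phi] using coeff_pent e

lemma key_id {c β t j m : ℕ} (hc : c = 1 ∨ c = 3) (ht : c * t = 3 * β) (hm : c * m + β = 2 ^ j) :
    P1 ^ t * expand (2 ^ j) (by positivity) (phi c) = pent ^ (3 * m) := by
  rw [← pow_two_pow, phi, ← pow_mul, ← hm]
  have : 3 / c * (c * m + β) = t + 3 * m := by rcases hc with rfl | rfl <;> omega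
  rw [this, pow_add, ← mul_assoc, ← mul_pow, P1_mul_pent, one_pow, one_mul]

lemma cover_gen {c j : ℕ} (hc : c = 1 ∨ c = 3) (F : S2) (n : ℕ)
    (h : (F * expand (2 ^ j) (by positivity) (phi c)).coeff n ≠ 0) :
    ∃ e k, F.coeff e ≠ 0 ∧ 8 * c * n + 2 ^ j = 8 * c * e + 2 ^ j * k ^ 2 ∧ 1 ≤ k := by
  rw [coeff_mul] at h
  obtain ⟨x, hx, h1⟩ := Finset.exists_ne_zero_of_sum_ne_zero h
  rw [Finset.HasAntidiagonal.mem_antidiagonal] at hx
  have h2 := right_ne_zero_of_mul h1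
  rw [coeff_expand] at h2
  split_ifs at h2 with h3
  · obtain ⟨i, hi⟩ := h3
    rw [hi, Nat.mul_div_cancel_left _ (by positivity), coeff_phi hc] at h2
    split_ifs at h2 with h4
    · obtain ⟨k, hk⟩ := h4
      refine ⟨x.1, k, left_ne_zero_of_mul h1, ?_, ?_⟩
      · rw [← hx, hi, sq, ← hk]; ring
      · rcases k with _ | k <;> omega
    · simp at h2
  · simp at h2

lemma cover_odd {c β t j m : ℕ} (hc : c = 1 ∨ c = 3) (ht : c * t = 3 * β) (hm : c * m + β = 2 ^ j)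
    {n : ℕ} (h : (D ^ m).coeff n ≠ 0) :
    ∃ e k, pt t e % 2 = 1 ∧ c * n + β = 8 * c * e + 2 ^ j * k ^ 2 ∧ 1 ≤ k := by
  obtain ⟨i, rfl⟩ := D_pow_supp h
  rw [coeff_D_pow_add, ← key_id hc ht hm] at h
  obtain ⟨e, k, h1, h2, h3⟩ := cover_gen hc _ _ h
  refine ⟨e, k, ?_, by rw [← h2, ← hm]; ring, h3⟩
  rw [coeff_P1_pow, Ne, ZMod.natCast_eq_zero_iff_even, Nat.not_even_iff_odd] at h1
  exact Nat.odd_iff.1 h1

lemma count_sq {c : ℕ} (hc : c = 1 ∨ c = 3) (l : ℕ) :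
    ∑ k ∈ range (12 * l + 2), (if k ^ 2 % (8 * c) = 1 then (1 : ZMod 2) else 0) = 1 := by
  induction l with
  | zero => rcases hc with rfl | rfl <;> decide
  | succ l ih =>
    rw [show 12 * (l + 1) + 2 = 12 * l + 2 + 12 by ring, Finset.sum_range_add, ih]
    have : ∀ x, (12 * l + 2 + x) ^ 2 % (8 * c) = (2 + x) ^ 2 % (8 * c) := by
      intro x
      have : (12 * l + 2 + x) ^ 2 = (2 + x) ^ 2 + 24 * (l * (2 + x) + 6 * l ^ 2) := by ring
      rw [this]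
      rcases hc with rfl | rfl <;> omega
    simp only [this]
    rcases hc with rfl | rfl <;> decide

lemma count_theta {c j l n : ℕ} (hc : c = 1 ∨ c = 3)
    (h1 : 2 ^ j * (12 * l + 1) ^ 2 ≤ 8 * c * n + 2 ^ j)
    (h2 : 8 * c * n + 2 ^ j < 2 ^ j * (12 * l + 3) ^ 2) :
    (PowerSeries.mk 1 * expand (2 ^ j) (by positivity) (phi c)).coeff n = 1 := by
  classical
  have hc0 : 0 < c := by omega
  have hj : 0 < 2 ^ j := by positivity
  rw [mul_comm, coeff_mul, Finset.Nat.sum_antidiagonal_eq_sum_range_succ_mk, ← count_sq hc l]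
  simp only [coeff_mk, Pi.one_apply, mul_one, coeff_expand, coeff_phi hc]
  symm
  refine Finset.sum_bij_ne_zero (fun k _ _ => 2 ^ j * (k ^ 2 / (8 * c))) ?_ ?_ ?_ ?_
  · intro k hk hne
    have h3 : k ^ 2 % (8 * c) = 1 := by by_contra h; simp [h] at hne
    have h4 := Nat.div_add_mod (k ^ 2) (8 * c)
    have h5 : k ^ 2 ≤ (12 * l + 1) ^ 2 := Nat.pow_le_pow_left (by simp at hk; omega) 2
    rw [Finset.mem_range, Nat.lt_succ_iff]
    apply Nat.le_of_mul_le_mul_left (c := 8 * c) _ (by omega)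
    have h6 := Nat.mul_le_mul_left (2 ^ j) h5
    rw [← h4, h3] at h6
    nlinarith
  · intro k _ hne k' _ hne' h
    have h3 : k ^ 2 % (8 * c) = 1 := by by_contra h; simp [h] at hne
    have h3' : k' ^ 2 % (8 * c) = 1 := by by_contra h; simp [h] at hne'
    have h4 := Nat.div_add_mod (k ^ 2) (8 * c)
    have h4' := Nat.div_add_mod (k' ^ 2) (8 * c)
    have h5 := Nat.eq_of_mul_eq_mul_left hj h
    apply Nat.pow_left_injective (n := 2) (by norm_num)
    simp only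
    rw [← h4, ← h4', h5, h3, h3']
  · intro i hi hne
    split_ifs at hne with h3 h4
    · obtain ⟨a, rfl⟩ := h3
      rw [Nat.mul_div_cancel_left _ hj] at h4
      obtain ⟨k, hk⟩ := h4
      have h5 : k ^ 2 % (8 * c) = 1 := by
        rw [sq, ← hk, Nat.mul_add_mod, Nat.mod_eq_of_lt (by omega)]
      have h6 : k ^ 2 / (8 * c) = a := by
        rw [sq, ← hk, Nat.mul_add_div (by omega), Nat.div_eq_of_lt (by omega), add_zero]
      refine ⟨k, ?_, by simp [h5], by rw [h6]⟩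
      rw [Finset.mem_range, Nat.lt_succ_iff] at hi
      have h7 : 2 ^ j * k ^ 2 < 2 ^ j * (12 * l + 3) ^ 2 := by
        rw [sq k, ← hk]; nlinarith
      have h8 := lt_of_pow_lt_pow_left₀ 2 (by positivity) (Nat.lt_of_mul_lt_mul_left h7)
      have h9 : k ≠ 12 * l + 2 := by
        rintro rfl
        have : (12 * l + 2) * (12 * l + 2) = 2 * (72 * l ^ 2 + 24 * l + 2) := by ring
        have : 8 * c * a = 2 * (4 * c * a) := by ring
        omega
      rw [Finset.mem_range]; omega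
    all_goals simp at hne
  · intro k hk hne
    have h3 : k ^ 2 % (8 * c) = 1 := by by_contra h; simp [h] at hne
    have h4 := Nat.div_add_mod (k ^ 2) (8 * c)
    rw [if_pos h3, if_pos (dvd_mul_right _ _), Nat.mul_div_cancel_left _ hj, if_pos]
    exact ⟨k, by rw [← sq, ← h3, h4]⟩

lemma cover_even {c β t j m l n : ℕ} (hc : c = 1 ∨ c = 3) (ht : c * t = 3 * β)
    (hm : c * m + β = 2 ^ j) (h : (D ^ m).coeff (m + 8 * n) = 0)
    (h1 : 2 ^ j * (12 * l + 1) ^ 2 ≤ 8 * c * n + 2 ^ j)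
    (h2 : 8 * c * n + 2 ^ j < 2 ^ j * (12 * l + 3) ^ 2) :
    ∃ e k, pt t e % 2 = 0 ∧ c * (m + 8 * n) + β = 8 * c * e + 2 ^ j * k ^ 2 ∧ 1 ≤ k := by
  rw [coeff_D_pow_add, ← key_id hc ht hm] at h
  have h3 := count_theta hc h1 h2
  obtain ⟨e, k, h4, h5, h6⟩ := cover_gen (j := j) hc (PowerSeries.mk 1 + P1 ^ t) n
    (by rw [add_mul, map_add, h, h3]; decide)
  refine ⟨e, k, ?_, by rw [← h5, ← hm]; ring, h6⟩
  rw [map_add, coeff_P1_pow, coeff_mk] at h4
  by_contra h7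
  rw [(ZMod.natCast_eq_one_iff_odd).2 (Nat.odd_iff.2 (by omega))] at h4
  exact h4 rfl

lemma coeff_mul_expand (f G : S2) (M : ℕ) (hM : M ≠ 0) (n : ℕ) (hn : n < 2 * M) :
    (f * expand M hM G).coeff n =
      f.coeff n * G.coeff 0 + if M ≤ n then f.coeff (n - M) * G.coeff 1 else 0 := by
  obtain ⟨H, hH⟩ : (X : S2) ^ (2 * M) ∣ expand M hM G - (C (G.coeff 0) + X ^ M * C (G.coeff 1)) := by
    rw [X_pow_dvd_iff]
    intro i hi
    rw [map_sub, map_add, coeff_expand, coeff_X_pow_mul', coeff_C, coeff_C]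
    by_cases h : M ∣ i
    · obtain ⟨a, rfl⟩ := h
      have : a < 2 := by nlinarith [Nat.pos_of_ne_zero hM]
      interval_cases a
      · simp [hM]
      · simp [hM, Nat.div_self (Nat.pos_of_ne_zero hM)]
    · have h0 : i ≠ 0 := by rintro rfl; simp at h
      rw [if_neg h, if_neg h0]
      split_ifs with h1 h2
      · exact absurd (show i = M by omega) (by rintro rfl; simp at h)
      · simp
      · simp
  have : f * expand M hM G =
      f * C (G.coeff 0) + X ^ M * (f * C (G.coeff 1)) + X ^ (2 * M) * (f * H) := by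
    linear_combination f * hH
  rw [this, map_add, map_add, coeff_X_pow_mul', coeff_X_pow_mul', if_neg (show ¬ 2 * M ≤ n by omega),
    coeff_mul_C, coeff_mul_C, add_zero]

lemma exists_n0 {t : ℕ} (ht : t % 24 = 23) :
    ∃ n, (P1 ^ t).coeff n = 1 ∧ ((24 * n + 4 * t) % 5 = 2 ∨ (24 * n + 4 * t) % 5 = 3) := by
  obtain ⟨v, w, hw, hvw⟩ := Nat.exists_eq_two_pow_mul_odd (n := (t + 1) / 24) (by omega)
  have h1 : t + 1 = 3 * w * 2 ^ (v + 3) := by
    have : t + 1 = 24 * ((t + 1) / 24) := by omega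
    rw [this, hvw]; ring
  have h2 : P1 ^ t = pent * expand (2 ^ (v + 3)) (by positivity) (P1 ^ (3 * w)) := by
    rw [← pow_two_pow, ← pow_mul, ← h1, pow_succ', ← mul_assoc, mul_comm pent, P1_mul_pent, one_mul]
  have c0 : constantCoeff P1 = 1 := by simp [P1]
  have g0 : (P1 ^ (3 * w)).coeff 0 = 1 := by simp [c0]
  have g1 : (P1 ^ (3 * w)).coeff 1 = 1 := by
    rw [coeff_one_pow, c0]
    have : ((3 * w : ℕ) : ZMod 2) = 1 :=
      (ZMod.natCast_eq_one_iff_odd).2 (Odd.mul (by decide) hw)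
    simp [this, P1]
  have hp : 1 ≤ 2 ^ v := Nat.one_le_two_pow
  have hM : 2 ^ (v + 3) = 8 * 2 ^ v := by ring
  have small : ∀ i ≤ 2, pent.coeff i = 1 := by
    intro i hi
    rw [coeff_pent, if_pos]
    interval_cases i
    exacts [⟨1, rfl⟩, ⟨5, rfl⟩, ⟨7, rfl⟩]
  by_cases h5 : (t + 1) % 5 = 0
  · have h6 : ¬ 5 ∣ 2 ^ (v + 3) := fun h =>
      absurd (Nat.prime_five.dvd_of_dvd_pow h) (by norm_num)
    obtain ⟨i, hi, hi'⟩ : ∃ i ≤ 2, (24 * (2 ^ (v + 3) + i) + 1) % 5 = 2 ∨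
        (24 * (2 ^ (v + 3) + i) + 1) % 5 = 3 := by
      have : 2 ^ (v + 3) % 5 = 1 ∨ 2 ^ (v + 3) % 5 = 2 ∨ 2 ^ (v + 3) % 5 = 3 ∨
        2 ^ (v + 3) % 5 = 4 := by omega
      rcases this with h | h | h | h
      exacts [⟨2, by omega, by omega⟩, ⟨1, by omega, by omega⟩, ⟨1, by omega, by omega⟩,
        ⟨0, by omega, by omega⟩]
    refine ⟨2 ^ (v + 3) + i, ?_, by omega⟩
    rw [h2, coeff_mul_expand _ _ _ _ _ (by omega), g0, g1, if_pos (by omega),
      Nat.add_sub_cancel_left, small i hi, coeff_pent, if_neg]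
    · simp
    · rintro ⟨r, hr⟩
      rw [hr] at hi'
      have : r % 5 = 0 ∨ r % 5 = 1 ∨ r % 5 = 2 ∨ r % 5 = 3 ∨ r % 5 = 4 := by omega
      rcases this with h | h | h | h | h <;> simp [Nat.mul_mod, h] at hi'
  · obtain ⟨i, hi, hi'⟩ : ∃ i ≤ 2, (24 * i + 4 * t) % 5 = 2 ∨ (24 * i + 4 * t) % 5 = 3 := by
      have : t % 5 = 0 ∨ t % 5 = 1 ∨ t % 5 = 2 ∨ t % 5 = 3 := by omega
      rcases this with h | h | h | h
      exacts [⟨2, by omega, by omega⟩, ⟨1, by omega, by omega⟩, ⟨0, by omega, by omega⟩,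
        ⟨0, by omega, by omega⟩]
    refine ⟨i, ?_, hi'⟩
    rw [h2, coeff_mul_expand _ _ _ _ _ (by omega), g0, if_neg (by omega), small i hi]
    simp

lemma coeff_D_pow_lt {m n : ℕ} (h : n < m) : (D ^ m).coeff n = 0 := by
  by_contra h1
  obtain ⟨i, hi⟩ := D_pow_supp h1
  omega

lemma oddP_X_pow {m : ℕ} (hm : m % 2 = 1) : OddP (Polynomial.X ^ m) := by
  intro e he
  rw [Polynomial.coeff_X_pow] at he
  have : e = m := by by_contra h; simp [h] at he
  omega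

lemma exists_form {q m : ℕ} (hm : m % 2 = 1)
    (hq : q = 1 ∨ (q.Prime ∧ Odd q ∧ tau q (Polynomial.X ^ m) ≠ 0)) :
    ∃ (P : R2) (e : ℕ), OddP P ∧ Dom e P ∧ m / q ≤ e ∧ e ≤ m ∧
      ∀ n, (q = 1 ∨ ¬ q ∣ n) → (Polynomial.aeval D P).coeff n = (D ^ m).coeff (q * n) := by
  rcases hq with rfl | ⟨hq, hq2, hne⟩
  · refine ⟨Polynomial.X ^ m, m, oddP_X_pow hm, ?_, by simp, le_rfl, fun n _ => by simp⟩
    rw [Dom, add_self2]; exact Le.zero _ _
  · obtain ⟨e, he⟩ := exists_dom hne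
    have h1 : (tau q (Polynomial.X ^ m)).coeff e ≠ 0 := by rw [he.coeff]; exact one_ne_zero
    refine ⟨_, e, (oddP_X_pow hm).tau hq hq2, he, ?_,
      (Polynomial.le_natDegree_of_ne_zero h1).trans (tau_X_pow hq hq2 m).1, fun n hn => ?_⟩
    · have h2 := X_pow_dvd_of_aeval (m / q) (tau q (Polynomial.X ^ m)) (by
        rw [X_pow_dvd_iff, ← (tau_X_pow hq hq2 m).2]
        intro n hn
        have h3 : q * n < m :=
          lt_of_lt_of_le (Nat.mul_lt_mul_of_pos_left hn hq.pos) (Nat.mul_div_le m q)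
        have h4 : n / q < m := lt_of_le_of_lt (Nat.div_le_self _ _)
          (lt_of_lt_of_le hn (Nat.div_le_self _ _))
        rw [coeff_T, coeff_D_pow_lt h3, coeff_D_pow_lt h4]; simp)
      by_contra h3
      exact h1 (Polynomial.X_pow_dvd_iff.1 h2 e (by omega))
    · rw [← (tau_X_pow hq hq2 m).2, coeff_T, if_neg (hn.resolve_left hq.one_lt.ne'), add_zero]

lemma odd_core {c β t j m q : ℕ} (hc : c = 1 ∨ c = 3) (ht : c * t = 3 * β)
    (hm : c * m + β = 2 ^ j) (hβ : β % 2 = 1) (hj : 2 * β + 60 ≤ 2 ^ j) (hq7 : q ≤ 5)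
    (hq : q = 1 ∨ (q.Prime ∧ Odd q ∧ tau q (Polynomial.X ^ m) ≠ 0)) :
    ∃ a b : ℕ, 2 ^ j ≤ 240 * (a + b + 1) ^ 2 ∧ (a + b) ^ 2 ≤ 5 * 2 ^ j ∧
      ∀ S : Finset ℕ, (∀ p ∈ S, p.Prime ∧ 7 < p ∧ (p % 8 = 3 ∨ p % 8 = 5)) →
        (S.filter (· % 8 = 3)).card = a → (S.filter (· % 8 = 5)).card = b →
        ∃ e k, pt t e % 2 = 1 ∧ c * (q * ∏ p ∈ S, p) + β = 8 * c * e + 2 ^ j * k ^ 2 ∧ 1 ≤ k := by
  have hj0 : j ≠ 0 := by rintro rfl; omega
  have h2j : 2 ^ j % 2 = 0 := by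
    obtain ⟨i, rfl⟩ := Nat.exists_eq_succ_of_ne_zero hj0
    rw [pow_succ]; omega
  have hm2 : m % 2 = 1 := by rcases hc with rfl | rfl <;> omega
  have hq0 : 0 < q := by rcases hq with rfl | h; exacts [one_pos, h.1.pos]
  obtain ⟨P, e, hP, he, h1, h2, h3⟩ := exists_form hm2 hq
  have h4 := he.odd hP
  have h5 := g_split e
  have h6 : g5 e % 2 = 1 := by rw [g5_eq]; omega
  refine ⟨n3 e, g5 e / 2, ?_, ?_, fun S hS h7 h8 => ?_⟩
  · have a1 := le_g_sq e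
    have a2 : m / 5 ≤ m / q := Nat.div_le_div_left hq7 hq0
    have a3 : 2 ^ j ≤ 60 * e := by rcases hc with rfl | rfl <;> omega
    have a4 : g e ≤ 2 * (n3 e + g5 e / 2 + 1) := by omega
    nlinarith [Nat.pow_le_pow_left a4 2]
  · have a1 : e < 2 ^ (2 * ((j + 1) / 2)) :=
      lt_of_lt_of_le (by rcases hc with rfl | rfl <;> omega)
        (Nat.pow_le_pow_right (by norm_num) (show j ≤ 2 * ((j + 1) / 2) by omega))
    have a2 := g_lt _ _ a1
    have a3 : 2 ^ (2 * ((j + 1) / 2)) ≤ 2 ^ (j + 1) :=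
      Nat.pow_le_pow_right (by norm_num) (by omega)
    have a4 : 2 * (n3 e + g5 e / 2) ≤ 3 * 2 ^ ((j + 1) / 2) := by omega
    have a5 := Nat.pow_le_pow_left a4 2
    rw [mul_pow, mul_pow, ← pow_mul, mul_comm _ 2] at a5
    rw [pow_succ] at a3
    omega
  · apply cover_odd hc ht hm
    rw [← h3, coeff_one_of_dom hP he S (fun p hp => ⟨(hS p hp).1, (hS p hp).2.2⟩) h7 (by omega)]
    · exact one_ne_zero
    · rcases hq with h | h
      · exact Or.inl h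
      · right
        intro hd
        obtain ⟨p, hp, hqp⟩ := (Prime.dvd_finsetProd_iff h.1.prime _).1 hd
        have := (Nat.prime_dvd_prime_iff_eq h.1 (hS p hp).1).1 hqp
        have := (hS p hp).2.1
        omega

lemma inert_sq {q f k j n c : ℕ} (hq : q.Prime) (hc : ¬ q ∣ c) (hn : ¬ q ∣ n)
    (h : c * (q * n) = f ^ 2 + 2 ^ j * k ^ 2)
    (hin : ∀ x y : ZMod q, x ^ 2 + 2 ^ j * y ^ 2 = 0 → x = 0 ∧ y = 0) : False := by
  have h1 := congrArg (Nat.cast : ℕ → ZMod q) h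
  push_cast at h1
  rw [ZMod.natCast_self, zero_mul, mul_zero] at h1
  obtain ⟨h2, h3⟩ := hin _ _ h1.symm
  rw [ZMod.natCast_eq_zero_iff] at h2 h3
  obtain ⟨f, rfl⟩ := h2
  obtain ⟨k, rfl⟩ := h3
  have h4 : q * (c * n) = q * (q * (f ^ 2 + 2 ^ j * k ^ 2)) := by linarith
  have h5 := Nat.eq_of_mul_eq_mul_left hq.pos h4
  rcases hq.dvd_mul.1 ⟨_, h5⟩ with h6 | h6
  exacts [hc h6, hn h6]

lemma two_pow_mod {j r M : ℕ} (n : ℕ) (h : j % n = r) (hM : 2 ^ n % M = 1 % M) :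
    2 ^ j % M = 2 ^ r % M := by
  have : j = n * (j / n) + r := by have := Nat.div_add_mod j n; omega
  rw [this, pow_add, pow_mul, Nat.mul_mod, Nat.pow_mod, hM, ← Nat.pow_mod, one_pow, ← Nat.mul_mod,
    one_mul]

lemma not_dvd_prod {q : ℕ} (hq : q.Prime) (hq7 : q ≤ 7) {S : Finset ℕ}
    (hS : ∀ p ∈ S, p.Prime ∧ 7 < p) : ¬ q ∣ ∏ p ∈ S, p := by
  intro hd
  obtain ⟨p, hp, hqp⟩ := (Prime.dvd_finsetProd_iff hq.prime _).1 hd
  have := (Nat.prime_dvd_prime_iff_eq hq (hS p hp).1).1 hqp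
  have := (hS p hp).2
  omega

theorem odd_data (t : ℕ) (ht : Odd t) : ∃ c β q j0 J0 : ℕ, (c = 1 ∨ c = 3) ∧ 1 ≤ q ∧ q ≤ 5 ∧
    β % 2 = 1 ∧ j0 < 4 ∧ ∀ j, J0 ≤ j → j % 4 = j0 →
    ∃ a b : ℕ, 2 ^ j ≤ 240 * (a + b + 1) ^ 2 ∧ (a + b) ^ 2 ≤ 5 * 2 ^ j ∧
      ∀ S : Finset ℕ, (∀ p ∈ S, p.Prime ∧ 7 < p ∧ (p % 8 = 3 ∨ p % 8 = 5)) →
        (S.filter (· % 8 = 3)).card = a → (S.filter (· % 8 = 5)).card = b →
        ∃ e k, pt t e % 2 = 1 ∧ c * (q * ∏ p ∈ S, p) + β = 8 * c * e + 2 ^ j * k ^ 2 ∧ 1 ≤ k ∧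
          ∀ f, 8 * c * e ≠ f ^ 2 + β := by
  have ht2 := Nat.odd_iff.1 ht
  have big : ∀ B j, B ≤ j → B ≤ 2 ^ j := fun B j h => h.trans Nat.lt_two_pow_self.le
  by_cases h3 : t % 3 = 0
  · refine ⟨1, t / 3, 3, 0, 2 * t + 60, Or.inl rfl, by norm_num, by norm_num, by omega,
      by norm_num, fun j hj hj4 => ?_⟩
    have b1 := big _ _ hj
    obtain ⟨i, rfl⟩ : ∃ i, j = 2 * i + 1 + 1 := ⟨j / 2 - 1, by omega⟩
    have hp : 2 ^ (2 * i + 1 + 1) = 2 * 2 ^ (2 * i + 1) := by ring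
    obtain ⟨a, b, h1, h2, h4⟩ := odd_core (c := 1) (β := t / 3) (t := t) (j := 2 * i + 1 + 1)
      (m := 2 ^ (2 * i + 1 + 1) - t / 3) (q := 3) (Or.inl rfl) (by omega) (by omega) (by omega)
      (by omega) (by norm_num) (Or.inr ⟨Nat.prime_three, by decide, by
        have a1 : (2 ^ (2 * i + 1 + 1) - t / 3).testBit (2 * i + 1) = true :=
          testBit_of_bounds (by omega) (by omega)
        rw [testBit_odd] at a1
        have a2 : n3 (2 ^ (2 * i + 1 + 1) - t / 3) ≠ 0 := by intro h; simp [h] at a1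
        have a3 : 2 ^ (2 * i + 1) = 2 * 2 ^ (2 * i) := by ring
        obtain ⟨e, _, _, he⟩ := (claim3 (2 ^ (2 * i + 1 + 1) - t / 3)).1 (by omega) (by omega)
        intro h0
        have := he.coeff
        rw [P3, h0] at this
        simp at this⟩)
    refine ⟨a, b, h1, h2, fun S hS h5 h6 => ?_⟩
    obtain ⟨e, k, h7, h8, h9⟩ := h4 S hS h5 h6
    refine ⟨e, k, h7, h8, h9, fun f hf => ?_⟩
    refine inert_sq (c := 1) (f := f) (k := k) (j := 2 * i + 1 + 1) Nat.prime_three (by norm_num)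
      (not_dvd_prod Nat.prime_three (by norm_num) fun p hp => ⟨(hS p hp).1, (hS p hp).2.1⟩)
      (by omega) ?_
    have : (2 : ZMod 3) ^ (2 * i + 1 + 1) = 1 := by
      rw [show 2 * i + 1 + 1 = 2 * (i + 1) by ring, pow_mul, show (2 : ZMod 3) ^ 2 = 1 from rfl,
        one_pow]
    rw [this]; decide
  by_cases h23 : t % 24 = 23
  · obtain ⟨n0, hn0, hn1⟩ := exists_n0 h23
    refine ⟨3, t, 5, if (24 * n0 + 4 * t) % 5 = 2 then 3 else 1, 2 * t + 60 + 100 * n0, Or.inr rfl,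
      by norm_num, le_rfl, ht2, by split_ifs <;> norm_num, fun j hj hj4 => ?_⟩
    have b1 := big _ _ hj
    have m5 := two_pow_mod (M := 5) 4 hj4 (by norm_num)
    have m3 := two_pow_mod (M := 3) 4 hj4 (by norm_num)
    have m5' : (2 ^ j + 24 * n0 + 4 * t) % 5 = 0 ∧ 2 ^ j % 3 = 2 ∧
        (2 ^ j % 5 = 2 ∨ 2 ^ j % 5 = 3) := by
      split_ifs at m5 m3 <;> omega
    obtain ⟨m, hm⟩ : ∃ m, 3 * m + t = 2 ^ j := ⟨(2 ^ j - t) / 3, by omega⟩
    obtain ⟨a, b, h1, h2, h4⟩ := odd_core (c := 3) (β := t) (t := t) (j := j) (m := m) (q := 5)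
      (Or.inr rfl) rfl hm ht2 (by omega) le_rfl (Or.inr ⟨Nat.prime_five, by decide, by
        intro h0
        obtain ⟨n1, hn1⟩ : ∃ n1, m + 8 * n0 = 5 * n1 := ⟨(m + 8 * n0) / 5, by omega⟩
        have a1 := congrArg (coeff n1) (tau_X_pow Nat.prime_five (by decide) m).2
        rw [h0, map_zero, map_zero, coeff_T, coeff_D_pow_lt (n := n1 / 5) (by omega), ← hn1,
          coeff_D_pow_add, ← key_id (Or.inr rfl) rfl hm,
          coeff_mul_expand _ _ _ _ _ (by omega), if_neg (by omega), hn0,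
          coeff_phi (Or.inr rfl), if_pos ⟨1, rfl⟩] at a1
        simp at a1⟩)
    refine ⟨a, b, h1, h2, fun S hS h5 h6 => ?_⟩
    obtain ⟨e, k, h7, h8, h9⟩ := h4 S hS h5 h6
    refine ⟨e, k, h7, h8, h9, fun f hf => ?_⟩
    refine inert_sq (c := 3) (f := f) (k := k) (j := j) Nat.prime_five (by norm_num)
      (not_dvd_prod Nat.prime_five (by norm_num) fun p hp => ⟨(hS p hp).1, (hS p hp).2.1⟩)
      (by omega) ?_
    have h10 : (2 : ZMod 5) ^ j = ((2 ^ j % 5 : ℕ) : ZMod 5) := by simp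
    rw [h10]
    rcases m5'.2.2 with h | h <;> rw [h] <;> decide
  · refine ⟨3, t, 1, if t % 3 = 1 then 0 else 1, 2 * t + 60, Or.inr rfl,
      le_rfl, by norm_num, ht2, by split_ifs <;> norm_num, fun j hj hj4 => ?_⟩
    have b1 := big _ _ hj
    have m3 := two_pow_mod (M := 3) 4 hj4 (by norm_num)
    have m3' : 2 ^ j % 3 = t % 3 := by split_ifs at m3 <;> omega
    obtain ⟨m, hm⟩ : ∃ m, 3 * m + t = 2 ^ j := ⟨(2 ^ j - t) / 3, by omega⟩
    obtain ⟨a, b, h1, h2, h4⟩ := odd_core (c := 3) (β := t) (t := t) (j := j) (m := m) (q := 1)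
      (Or.inr rfl) rfl hm ht2 (by omega) (by norm_num) (Or.inl rfl)
    refine ⟨a, b, h1, h2, fun S hS h5 h6 => ?_⟩
    obtain ⟨e, k, h7, h8, h9⟩ := h4 S hS h5 h6
    refine ⟨e, k, h7, h8, h9, fun f hf => ?_⟩
    have a1 := sq_mod_eight f
    have a2 : f ^ 2 % 3 = 0 ∨ f ^ 2 % 3 = 1 := by
      have : f % 3 = 0 ∨ f % 3 = 1 ∨ f % 3 = 2 := by omega
      rcases this with h | h | h <;> simp [Nat.pow_mod, h]
    omega

theorem even_data (t : ℕ) (ht : Odd t) : ∃ c β j0 : ℕ, (c = 1 ∨ c = 3) ∧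
    β % 2 = 1 ∧ j0 < 2 ∧ ∀ j, β + 1 ≤ j → j % 2 = j0 → ∃ m, c * m + β = 2 ^ j ∧
      ∀ S : Finset ℕ, (∀ p ∈ S, p.Prime ∧ 7 < p) → 5 * 2 ^ j ≤ S.card ^ 2 →
        ∀ n l w, m + 8 * n = 7 * (∏ p ∈ S, p) * w → ¬ 7 ∣ w → (∀ p ∈ S, ¬ p ∣ w) →
        2 ^ j * (12 * l + 1) ^ 2 ≤ 8 * c * n + 2 ^ j →
        8 * c * n + 2 ^ j < 2 ^ j * (12 * l + 3) ^ 2 →
        ∃ e k, pt t e % 2 = 0 ∧ c * (m + 8 * n) + β = 8 * c * e + 2 ^ j * k ^ 2 ∧ 1 ≤ k ∧
          ∀ f, 8 * c * e ≠ f ^ 2 + β := by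
  have ht2 := Nat.odd_iff.1 ht
  obtain ⟨c, β, j0, hc, hβ, hj0, ht3, hm⟩ : ∃ c β j0 : ℕ, (c = 1 ∨ c = 3) ∧ β % 2 = 1 ∧ j0 < 2 ∧
      c * t = 3 * β ∧ ∀ j, β + 1 ≤ j → j % 2 = j0 → ∃ m, c * m + β = 2 ^ j := by
    by_cases h3 : t % 3 = 0
    · refine ⟨1, t / 3, 0, Or.inl rfl, by omega, by norm_num, by omega, fun j hj _ => ?_⟩
      have := Nat.lt_two_pow_self (n := j)
      exact ⟨2 ^ j - t / 3, by omega⟩
    · refine ⟨3, t, if t % 3 = 1 then 0 else 1, Or.inr rfl, ht2, by split_ifs <;> norm_num, rfl,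
        fun j hj hj2 => ?_⟩
      have := Nat.lt_two_pow_self (n := j)
      have m3 := two_pow_mod (M := 3) 2 hj2 (by norm_num)
      have m3' : 2 ^ j % 3 = t % 3 := by split_ifs at m3 <;> omega
      exact ⟨(2 ^ j - t) / 3, by omega⟩
  refine ⟨c, β, j0, hc, hβ, hj0, fun j hj hj2 => ?_⟩
  obtain ⟨m, hm⟩ := hm j hj hj2
  refine ⟨m, hm, fun S hS hcard n l w hw h7 hw' h1 h2 => ?_⟩
  have h2j : 2 ^ j % 2 = 0 := by
    obtain ⟨i, rfl⟩ := Nat.exists_eq_succ_of_ne_zero (n := j) (by omega)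
    rw [pow_succ]; omega
  have hm2 : m % 2 = 1 := by rcases hc with rfl | rfl <;> omega
  have hg : g m < 2 * S.card := by
    have a1 : m < 2 ^ (2 * ((j + 1) / 2)) :=
      lt_of_lt_of_le (by rcases hc with rfl | rfl <;> omega)
        (Nat.pow_le_pow_right (by norm_num) (show j ≤ 2 * ((j + 1) / 2) by omega))
    have a2 := g_lt _ _ a1
    have a3 : 2 ^ (2 * ((j + 1) / 2)) ≤ 2 ^ (j + 1) :=
      Nat.pow_le_pow_right (by norm_num) (by omega)
    by_contra a4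
    have a5 := Nat.pow_le_pow_left (show 2 * S.card ≤ 3 * 2 ^ ((j + 1) / 2) by omega) 2
    rw [mul_pow, mul_pow, ← pow_mul, mul_comm _ 2] at a5
    rw [pow_succ] at a3
    have := Nat.one_le_two_pow (n := j)
    omega
  have h77 : Nat.Prime 7 := by norm_num
  have hv := coeff_vanish m hm2 S
    (fun p hp => ⟨(hS p hp).1, (hS p hp).1.odd_of_ne_two (by have := (hS p hp).2; omega)⟩) hg
    (7 * w) (fun p hp hd => by
      rcases (hS p hp).1.dvd_mul.1 hd with h | h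
      · have := Nat.le_of_dvd (by norm_num) h; have := (hS p hp).2; omega
      · exact hw' p hp h)
  obtain ⟨e, k, h3, h4, h5⟩ := cover_even hc ht3 hm (by rw [hw, ← hv]; congr 2; ring) h1 h2
  refine ⟨e, k, h3, h4, h5, fun f hf => ?_⟩
  refine inert_sq (c := c) (f := f) (k := k) (j := j) (n := (∏ p ∈ S, p) * w) h77
    (by rcases hc with rfl | rfl <;> norm_num) (fun hd => ?_) (by rw [← mul_assoc 7, ← hw]; omega) ?_
  · rcases h77.dvd_mul.1 hd with h | h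
    exacts [not_dvd_prod h77 le_rfl hS h, h7 h]
  · have h10 : (2 : ZMod 7) ^ j = ((2 ^ j % 7 : ℕ) : ZMod 7) := by simp
    have h11 := two_pow_mod (M := 7) (j := j) 3 rfl (by norm_num)
    have h12 : j % 3 = 0 ∨ j % 3 = 1 ∨ j % 3 = 2 := by omega
    rw [h10, h11]
    rcases h12 with h | h | h <;> rw [h] <;> decide

end Pool.Agent.Lib.MP_a3366f_nt
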