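import Mathlib
import Pool.Agent.Lib.MP_a3366f_nt.An12
import Pool.Agent.Lib.MP_a3366f_nt.Link

/-!
The count of odd values.
-/

open Finset

namespace Pool.Agent.Lib.MP_a3366f_nt

theorem not_dvd_mul_prod (S : Finset ℕ) (hS : ∀ p ∈ S, p.Prime) (r p : ℕ) (hp : p.Prime)
    (hr : ¬ p ∣ r) (h : p ∉ S) : ¬ p ∣ r * ∏ q ∈ S, q := fun h1 => by
  rcases (Nat.Prime.dvd_mul hp).mp h1 with h2 | h2
  · exact hr h2
  · obtain ⟨q, hq, h3⟩ := (Prime.dvd_finsetProd_iff hp.prime _).mp h2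
    exact h ((Nat.prime_dvd_prime_iff_eq hp (hS q hq)).mp h3 ▸ hq)

theorem exact_dvd_mul_prod (S : Finset ℕ) (hS : ∀ p ∈ S, p.Prime) (r p : ℕ) (hr : ¬ p ∣ r)
    (h : p ∈ S) : p ∣ r * ∏ q ∈ S, q ∧ ¬ p ^ 2 ∣ r * ∏ q ∈ S, q := by
  refine ⟨(dvd_prod_of_mem _ h).mul_left r, fun h1 => ?_⟩
  rw [← mul_prod_erase S (fun q => q) h, sq, mul_left_comm] at h1
  exact not_dvd_mul_prod (S.erase p) (fun q hq => hS q (mem_of_mem_erase hq)) r p (hS p h) hr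
    (notMem_erase p S) (Nat.dvd_of_mul_dvd_mul_left (hS p h).pos h1)

theorem sqrt_div_le (X D j l : ℕ) (hj : 2 * l ≤ j) :
    (Nat.sqrt (D ^ 2 * X / 2 ^ j) : ℝ) * 2 ^ l ≤ D * Real.sqrt X := by
  have h1 : (Nat.sqrt (D ^ 2 * X / 2 ^ j) * 2 ^ l) ^ 2 ≤ D ^ 2 * X := by
    rw [mul_pow, ← pow_mul]
    calc _ ≤ D ^ 2 * X / 2 ^ j * 2 ^ j :=
          Nat.mul_le_mul (Nat.sqrt_le' _) (Nat.pow_le_pow_right two_pos (by omega))
      _ ≤ _ := Nat.div_mul_le_self _ _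
  refine (sq_le_sq₀ (by positivity) (by positivity)).mp ?_
  rw [mul_pow (D : ℝ), Real.sq_sqrt (by positivity)]
  exact_mod_cast h1

theorem sieve_lower : ∃ c₁ : ℝ, 0 < c₁ ∧ ∃ W₀ : ℕ, ∀ l m : ℕ, 10 ≤ l → W₀ ≤ m →
    1638400 * l ≤ m → ∀ (U : Finset ℕ) (d s : ℕ), s ≠ 0 → s ≤ 2 ^ (2 ^ l) ^ 2 →
      |beta (prIoc (Yv l 0) (2 ^ m)) d| ≤ 1 → ∑ p ∈ U, (1 : ℝ) / p ≤ 1 / 4 →
        c₁ * m / l ≤ selG (prIoc (Yv l 0) (2 ^ m) \ U) (2 ^ (m * 7))
          fun p => (1 + chi (-((d * s ^ 2 : ℕ) : ℤ)) p) / p := by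
  obtain ⟨c₀, hc₀, hexp⟩ := exp_lam_ge
  obtain ⟨W₀, hW2, hW₀⟩ := sum_g_log_le
  refine ⟨c₀ * Real.exp (-3) / 8000000, by positivity, W₀,
    fun l m hl hm hlm U d s hs hsZ hb hU => ?_⟩
  have hcube := cube_le_Yv l 0
  have hB : 1024 ≤ 2 ^ l := le_trans (by norm_num) (Nat.pow_le_pow_right two_pos hl)
  have hBY : (2 ^ l) ^ 2 ≤ Yv l 0 :=
    (Nat.pow_le_pow_right (by omega) (by norm_num)).trans hcube
  have hY8 : 8 ≤ Yv l 0 := le_trans (by nlinarith) hBY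
  have hYw : Yv l 0 ≤ 2 ^ m := Nat.pow_le_pow_right two_pos (by omega)
  have hWm : W₀ ≤ 2 ^ m := hm.trans Nat.lt_two_pow_self.le
  set P₀ := prIoc (Yv l 0) (2 ^ m) with hP₀
  set g : ℕ → ℝ := fun p => (1 + chi (-((d * s ^ 2 : ℕ) : ℤ)) p) / p with hg
  have h1 := selG_ge (P₀ \ U) (2 ^ (m * 7)) (2 ^ m) g (by omega) (pow_mul 2 m 7).ge
    (fun p hp => ⟨(mem_prIoc.mp (mem_sdiff.mp hp).1).2.pos, (mem_prIoc.mp (mem_sdiff.mp hp).1).1.2⟩)
    (fun p hp => ⟨(rho_bounds _ p).1, (rho_bounds _ p).2.trans (by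
      have : (4 : ℝ) ≤ p := by
        have := (mem_prIoc.mp (mem_sdiff.mp hp).1).1.1
        exact_mod_cast (by omega : 4 ≤ p)
      rw [div_le_div_iff₀ (by linarith) two_pos]; linarith)⟩)
    (hW₀ _ hWm _ g fun p hp => ⟨(mem_prIoc.mp (mem_sdiff.mp hp).1).2,
      (mem_prIoc.mp (mem_sdiff.mp hp).1).1.2, (rho_bounds _ p).2⟩)
  have h2 := le_sum_rho P₀ (Yv l 0) (by omega)
    (fun p hp => ⟨(mem_prIoc.mp hp).2, (mem_prIoc.mp hp).1.1.le⟩) d s _ hs hsZ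
  have h3 : (((2 ^ l) ^ 2 : ℕ) : ℝ) / Yv l 0 ≤ 1 :=
    div_le_one_of_le₀ (by exact_mod_cast hBY) (by positivity)
  have h4 : ∑ p ∈ P₀ ∩ U, g p + ∑ p ∈ P₀ \ U, g p = ∑ p ∈ P₀, g p := sum_inter_add_sum_sdiff _ _ _
  have h5 : ∑ p ∈ P₀ ∩ U, g p ≤ 2 * ∑ p ∈ U, (1 : ℝ) / p := by
    rw [mul_sum]
    exact (sum_le_sum_of_subset_of_nonneg inter_subset_right fun p _ _ => (rho_bounds _ p).1).trans
      (sum_le_sum fun p _ => (rho_bounds _ p).2.trans (le_of_eq (by ring)))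
  have h6 : lam P₀ + -3 ≤ ∑ p ∈ P₀ \ U, g p := by linarith [(abs_le.mp hb).1]
  have h7 := Real.exp_le_exp.mpr h6
  rw [Real.exp_add] at h7
  have h8 := hexp (Yv l 0) (2 ^ m) (by omega) hYw
  have h9 : Real.log ((Yv l 0 : ℝ) + 1) ≤ 2000000 * l := by
    have := log_two_pow_succ_le (1638400 * l * 2 ^ 0)
    have hl' : (10 : ℝ) ≤ l := by exact_mod_cast hl
    rw [Yv]
    push_cast at this ⊢
    linarith
  have h10 : (m : ℝ) / 2 ≤ Real.log ((2 ^ m : ℕ) : ℝ) := by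
    have := Real.log_two_gt_d9
    push_cast
    rw [Real.log_pow]
    nlinarith [Nat.cast_nonneg (α := ℝ) m]
  have h11 : c₀ * (m / 2) / (2000000 * l) ≤ Real.exp (lam P₀) :=
    le_trans (div_le_div₀ (by positivity) (by gcongr) (Real.log_pos (by
      have : (8 : ℝ) ≤ Yv l 0 := by exact_mod_cast hY8
      linarith)) h9) h8
  calc _ = c₀ * (m / 2) / (2000000 * l) * Real.exp (-3) / 2 := by field_simp; ring
    _ ≤ Real.exp (lam P₀) * Real.exp (-3) / 2 := by gcongr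
    _ ≤ _ := by linarith

theorem scale_facts (C D α l B n : ℕ) (hα : α = 200 * (C + 20)) (hl : 10 ≤ l)
    (hbig : (3200 * (C + 20) + D) * l ^ 2 ≤ B) (hs1 : α * B * l ^ 2 ≤ n)
    (hs2 : n ≤ 8 * (α * B * l ^ 2)) :
    D ≤ B ∧ 2 * n ≤ B ^ 2 ∧ B * l ≤ B * l ^ 2 ∧ 100 * B ≤ B * l ^ 2 ∧
      200 * (C * B * l ^ 2) + 4000 * (B * l ^ 2) ≤ n ∧ C * B * l ≤ C * B * l ^ 2 := by
  have hl2 : l ≤ l ^ 2 := Nat.le_self_pow two_ne_zero l
  have hl100 : 100 ≤ l ^ 2 := by nlinarith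
  have hBα : 16 * α * l ^ 2 ≤ B := le_trans (Nat.mul_le_mul_right _ (by omega)) hbig
  exact ⟨by nlinarith, by nlinarith, Nat.mul_le_mul_left _ hl2, by nlinarith,
    le_trans (le_of_eq (by rw [hα]; ring)) hs1, Nat.mul_le_mul_left _ hl2⟩

theorem le_two_mul_div_mul {X u : ℕ} (hu : 0 < u) (h : 1 ≤ X / u) : X ≤ 2 * (X / u) * u := by
  have := Nat.lt_mul_div_succ X hu
  nlinarith

theorem ab_bounds {a B N : ℕ} (h1 : B ^ 2 ≤ N) (h2 : N ≤ B ^ 2 * 8) (h3 : N ≤ 240 * (a + 1) ^ 2)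
    (h4 : a ^ 2 ≤ 5 * N) : B ≤ 16 * (a + 1) ∧ a ≤ 7 * B :=
  ⟨(Nat.pow_le_pow_iff_left two_ne_zero).mp (by nlinarith),
    (Nat.pow_le_pow_iff_left two_ne_zero).mp (by nlinarith)⟩

theorem odd_count (t : ℕ) (ht : Odd t) : ∃ c : ℝ, 0 < c ∧ ∃ X₀ : ℕ, ∀ X : ℕ, X₀ ≤ X →
    c * (Real.sqrt X * (Real.log X / Real.log (Real.log X) ^ 3))
      ≤ ((range X).filter fun n => pt t n % 2 = 1).card := by
  classical
  obtain ⟨c, β, q, j0, J0, hc, hq1, hq5, hβ, hj0, hdata⟩ := odd_data t ht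
  obtain ⟨C, l₁, hC, hfam⟩ := exists_family
  obtain ⟨T, N₀, hT, hcls⟩ := card_cls_ge
  obtain ⟨c₁, hc₁, W₀, hsieve⟩ := sieve_lower
  obtain ⟨l₀, hl₀⟩ := exists_big (3200 * (C + 20) + (β + 16 * T + N₀ + W₀ + 2000000))
  obtain ⟨α, hα⟩ : ∃ α, α = 200 * (C + 20) := ⟨_, rfl⟩
  obtain ⟨l₂, hl₂⟩ : ∃ l₂, l₂ = l₀ + l₁ + J0 + 1 := ⟨_, rfl⟩
  have hT' : (0 : ℝ) < T := by exact_mod_cast hT
  have hα' : (0 : ℝ) < α := by exact_mod_cast (by omega : 0 < α)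
  refine ⟨1 / (16 * α * 4 ^ (1 + 2) * (16 * T * (800 * C / c₁ + 1))), by positivity,
    2 ^ (α * 2 ^ l₂ * l₂ ^ 2), fun X hX => ?_⟩
  have hX0 : X ≠ 0 := by have := Nat.two_pow_pos (α * 2 ^ l₂ * l₂ ^ 2); omega
  obtain ⟨n, hn, hn', hn₀⟩ : ∃ n, 2 ^ n ≤ X ∧ X < 2 ^ (n + 1) ∧ α * 2 ^ l₂ * l₂ ^ 2 ≤ n :=
    ⟨Nat.log 2 X, Nat.pow_log_le_self 2 hX0, Nat.lt_pow_succ_log_self one_lt_two X,
      Nat.le_log_of_pow_le one_lt_two hX⟩
  obtain ⟨l, hl, hs1, hs2⟩ := exists_scale α l₂ (by omega) (by omega) n hn₀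
  obtain ⟨hl10, hbig⟩ := hl₀ l (by omega)
  obtain ⟨j, hj1, hj2, hj3⟩ : ∃ j, 2 * l ≤ j ∧ j ≤ 2 * l + 3 ∧ j % 4 = j0 :=
    ⟨2 * l + (j0 + 4 - 2 * l % 4) % 4, by omega, by omega, by omega⟩
  obtain ⟨a, b, ha, hb, hS⟩ := hdata j (by omega) hj3
  have hN1 : (2 ^ l) ^ 2 ≤ 2 ^ j := by rw [← pow_mul]; exact Nat.pow_le_pow_right two_pos (by omega)
  have hN2 : 2 ^ j ≤ (2 ^ l) ^ 2 * 8 := by
    rw [← pow_mul, show 8 = 2 ^ 3 by norm_num, ← pow_add]
    exact Nat.pow_le_pow_right two_pos (by omega)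
  have hlog := to_loglog X n l α 1 hn hn' (by omega) (le_trans (by
    have : 1 ≤ l ^ 2 := Nat.one_le_pow _ _ (by omega)
    calc 2 ^ l = 1 * 2 ^ l * 1 := by ring
      _ ≤ _ := by gcongr; omega) hs1) hs2
  have hKB := sqrt_div_le X 4 j l hj1
  have hcf := @cover_final l
  have hsv := hsieve l (n / 100) hl10
  have hfa := hfam l (by omega)
  have hnX : n ≤ X := Nat.lt_two_pow_self.le.trans hn
  obtain ⟨B, hB⟩ : ∃ B, B = 2 ^ l := ⟨_, rfl⟩
  have hBr : (2 : ℝ) ^ l = B := by rw [hB]; norm_cast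
  rw [← hB] at hs1 hs2 hbig hN1 hN2 hcf hsv hfa
  rw [hBr] at hKB hlog hcf
  obtain ⟨hBc, hnB, hBl, hBl', hs3, hCB⟩ := scale_facts C _ α l B n hα hl10 hbig hs1 hs2
  have hlB : 1638400 * l ≤ B * l := Nat.mul_le_mul_right _ (by omega)
  obtain ⟨ha', hb'⟩ := ab_bounds hN1 hN2 ha hb
  obtain ⟨g, g', h₁, h₂, hgg, hh₁, hh₂, hS'⟩ : ∃ g g' h₁ h₂ : ℕ,
      ((g = 3 ∧ g' = 5) ∨ (g = 5 ∧ g' = 3)) ∧ B ≤ 64 * h₁ ∧ h₁ + h₂ ≤ 8 * B ∧
      ∀ S : Finset ℕ, (∀ p ∈ S, p.Prime ∧ 7 < p ∧ (p % 8 = 3 ∨ p % 8 = 5)) →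
        (S.filter (· % 8 = g)).card = h₁ + 1 → (S.filter (· % 8 = g')).card = h₂ →
        ∃ e k, pt t e % 2 = 1 ∧ c * (q * ∏ p ∈ S, p) + β = 8 * c * e + 2 ^ j * k ^ 2 ∧ 1 ≤ k ∧
          ∀ f, 8 * c * e ≠ f ^ 2 + β := by
    rcases le_total b a with h | h
    · exact ⟨3, 5, a - 1, b, Or.inl ⟨rfl, rfl⟩, by omega, by omega,
        fun S h1 h2 h3 => hS S h1 (by omega) h3⟩
    · exact ⟨5, 3, b - 1, a, Or.inr ⟨rfl, rfl⟩, by omega, by omega,
        fun S h1 h2 h3 => hS S h1 h3 (by omega)⟩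
  set m := n / 100 with hm
  set P₀ := prIoc (Yv l 0) (2 ^ m) with hP₀
  obtain ⟨F, U, E, Bad, hF⟩ := hfa g g' h₁ h₂ hgg hh₁ hh₂ P₀ fun p hp =>
    ⟨(mem_prIoc.mp hp).2, (mem_prIoc.mp hp).1.1.le,
      (mem_prIoc.mp hp).1.2.trans (Nat.pow_le_pow_right two_pos (by omega))⟩
  have hY8 : 8 ≤ Yv l 0 := le_trans (by rw [← hB]; omega) ((Nat.le_self_pow three_ne_zero
    _).trans (cube_le_Yv l 0))
  set A := (range X).filter fun n => pt t n % 2 = 1 with hA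
  set K := Nat.sqrt (4 ^ 2 * X / 2 ^ j) with hK
  let u : _ → ℕ := fun i => ∏ p ∈ U i, p
  have hu0 : ∀ i ∈ F, 0 < u i := fun i hi => prod_pos fun p hp => (hF.prime i hi p hp).1.pos
  have hZ : ∀ i ∈ F, 2 ^ m ≤ X / u i / T := fun i hi => by
    rw [Nat.le_div_iff_mul_le hT, Nat.le_div_iff_mul_le (hu0 i hi)]
    have a1 := hF.size i hi
    rw [← hB] at a1
    calc 2 ^ m * T * u i ≤ 2 ^ m * 2 ^ T * 2 ^ (C * B * l ^ 2) := by
          gcongr; exact Nat.lt_two_pow_self.le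
      _ = 2 ^ (m + T + C * B * l ^ 2) := by rw [← pow_add, ← pow_add]
      _ ≤ X := (Nat.pow_le_pow_right two_pos (by omega)).trans hn
  have hBr1 : (2000000 : ℝ) ≤ B := by exact_mod_cast (by omega : 2000000 ≤ B)
  have hr := Real.sqrt_nonneg (X : ℝ)
  have hl' : (10 : ℝ) ≤ l := by exact_mod_cast hl10
  have hm0 : (0 : ℝ) < m := by exact_mod_cast (by omega : 0 < m)
  have hmain := hcf hF (fun p hp => ⟨(mem_prIoc.mp hp).2, by
      have := (mem_prIoc.mp hp).1.1; omega⟩) j c β K X (m * 7) n hc hβ (c₁ * m / l)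
    (by positivity) (fun d s h1 h2 h3 i hi => hsv (by omega) (hlB.trans (by omega)) (U i) d s h1 h2
      (hF.sieve d h3) (hF.inv i hi)) hn hn' hl10 hj2 (by omega) hnB
    (by rw [add_mul, mul_assoc 2, ← mul_assoc C]; omega)
    (by
      have := mul_le_mul_of_nonneg_left hBr1 (Nat.cast_nonneg (α := ℝ) K)
      push_cast at hKB; linarith) A
    (fun e he => (mem_range.mp (mem_filter.mp he).1).le)
    (fun i => (prCls g (X / u i / T) (X / u i)).image fun P => c * q * (P * u i)) (by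
      intro i hi n' hn'
      obtain ⟨P, hP, rfl⟩ := mem_image.mp hn'
      obtain ⟨⟨a1, a2⟩, a3, a4⟩ := mem_prCls.mp hP
      have a5 := hZ i hi
      have a6 : P ∉ U i := fun h => by
        have a7 := (hF.prime i hi P h).2.2.2
        rw [← hB] at a7
        have a8 : 2 ^ (C * B * l) ≤ 2 ^ m := Nat.pow_le_pow_right two_pos (by omega)
        omega
      have a7 : 7 < P := by have : m < 2 ^ m := Nat.lt_two_pow_self; omega
      have a8 : ∀ p ∈ insert P (U i), p.Prime ∧ 7 < p ∧ (p % 8 = 3 ∨ p % 8 = 5) := fun p hp => by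
        rcases mem_insert.mp hp with rfl | hp
        · exact ⟨a3, a7, by omega⟩
        · obtain ⟨b1, b2, b3, -⟩ := hF.prime i hi p hp
          exact ⟨b1, b3, by omega⟩
      have a9 : ∀ p, p.Prime → 7 < p → ¬ p ∣ c * q := fun p hp h7 h => by
        rcases (Nat.Prime.dvd_mul hp).mp h with h | h
        · have := Nat.le_of_dvd (by omega) h; omega
        · have := Nat.le_of_dvd (by omega) h; omega
      have a10 : P * u i = ∏ p ∈ insert P (U i), p := (prod_insert (f := fun p => p) a6).symm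
      have a11 : P * u i ≤ X := (Nat.le_div_iff_mul_le (hu0 i hi)).mp a2
      obtain ⟨e, k, b1, b2, b3, b4⟩ := hS' (insert P (U i)) a8
        (by rw [filter_insert, if_pos a4, card_insert_of_notMem fun h => a6 (mem_filter.mp h).1,
          hF.card₁ i hi])
        (by rw [filter_insert, if_neg (by omega), hF.card₂ i hi])
      rw [← a10, ← mul_assoc] at b2
      have b5 : q * (P * u i) ≤ 5 * X := Nat.mul_le_mul hq5 a11
      have b6 : 0 < 2 ^ j * k ^ 2 := by positivity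
      refine ⟨fun p hp => ?_, fun p hp => ?_, e, mem_filter.mpr ⟨mem_range.mpr ?_, b1⟩, k, b3, ?_,
        b2, b4⟩
      · rw [a10]
        have := a8 p (mem_insert_of_mem hp)
        exact exact_dvd_mul_prod _ (fun p hp => (a8 p hp).1) _ p (a9 p this.1 this.2.1)
          (mem_insert_of_mem hp)
      · rw [a10]
        obtain ⟨b7, b8⟩ := mem_sdiff.mp hp
        obtain ⟨⟨b9, b10⟩, b11⟩ := mem_prIoc.mp b7
        refine not_dvd_mul_prod _ (fun p hp => (a8 p hp).1) _ p b11 (a9 p b11 (by omega)) fun h => ?_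
        rcases mem_insert.mp h with h | h
        · omega
        · exact b8 h
      · rw [mul_assoc c] at b2
        rcases hc with rfl | rfl <;> omega
      · rw [hK, Nat.le_sqrt', Nat.le_div_iff_mul_le (Nat.two_pow_pos j), mul_comm]
        rw [mul_assoc c] at b2
        rcases hc with rfl | rfl <;> omega)
  have hn0 : (0 : ℝ) < n := by exact_mod_cast (by omega : 0 < n)
  have hlow : ∀ i ∈ F, X / (4 * T * n) * ∏ p ∈ U i, (1 : ℝ) / p
      ≤ (((prCls g (X / u i / T) (X / u i)).image fun P => c * q * (P * u i)).card : ℝ) := by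
    intro i hi
    have a1 := hu0 i hi
    rw [card_image_of_injective _ fun P P' h => Nat.eq_of_mul_eq_mul_right a1
      (Nat.eq_of_mul_eq_mul_left (Nat.mul_pos (by omega) hq1) h)]
    have a2 : m < X / u i :=
      Nat.lt_two_pow_self.trans_le ((hZ i hi).trans (Nat.div_le_self _ _))
    refine le_trans ?_ (hcls g (by omega) _ (by omega))
    have a3 : Real.log (X / u i : ℕ) ≤ 2 * n :=
      log_le_two_mul (by omega) ((Nat.div_le_self _ _).trans_lt hn') (by omega)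
    have a4 : X ≤ 2 * (X / u i) * u i := le_two_mul_div_mul a1 (by omega)
    have a5 : (X : ℝ) ≤ 2 * (X / u i : ℕ) * u i := by exact_mod_cast a4
    have a6 : (0 : ℝ) < u i := by exact_mod_cast a1
    have a7 : ∏ p ∈ U i, (1 : ℝ) / p = 1 / u i := by
      simp only [u]; push_cast; rw [prod_div_distrib, prod_const_one]
    rw [a7]
    calc _ = (X : ℝ) / (2 * u i) / (T * (2 * n)) := by field_simp; norm_num
      _ ≤ _ := div_le_div₀ (by positivity) (by rw [div_le_iff₀ (by positivity)]; linarith)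
          (mul_pos hT' (Real.log_pos (by exact_mod_cast (by omega : 1 < X / u i))))
          (by gcongr)
  have h1 := (sum_le_sum hlow).trans hmain
  rw [← mul_sum] at h1
  have h2 : E * (X / (8 * T * n)) ≤ X / (4 * T * n) * ∑ i ∈ F, ∏ p ∈ U i, (1 : ℝ) / p := by
    calc _ = X / (8 * T * n) * E := mul_comm _ _
      _ ≤ X / (8 * T * n) * (2 * ∑ i ∈ F, ∏ p ∈ U i, (1 : ℝ) / p) :=
        mul_le_mul_of_nonneg_left hF.lower (by positivity)
      _ = _ := by field_simp; ring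
  have h3 := le_of_mul_le_mul_left (h2.trans h1) hF.pos
  have hnB' : (n : ℝ) ≤ B ^ 2 := by exact_mod_cast (by omega : n ≤ B ^ 2)
  have hTB : (16 : ℝ) * T ≤ B := by exact_mod_cast (by omega : 16 * T ≤ B)
  have h4 : (X : ℝ) / B ^ 3 ≤ X / (16 * T * n) :=
    div_le_div_of_nonneg_left (by positivity) (by positivity) (by
      calc _ ≤ (B : ℝ) * B ^ 2 := by gcongr
        _ = _ := by ring)
  have h5 : Real.sqrt X / B ^ 3 ≤ Real.sqrt X * l / (B * n) :=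
    div_le_div₀ (by positivity) (le_mul_of_one_le_right hr (by linarith)) (by positivity) (by
      calc _ ≤ (B : ℝ) * B ^ 2 := by gcongr
        _ = _ := by ring)
  have hmn : (n : ℝ) ≤ 200 * m := by exact_mod_cast (by omega : n ≤ 200 * m)
  have h6 : C * K / (c₁ * m / l) ≤ 800 * C / c₁ * (Real.sqrt X * l / (B * n)) := by
    have a1 : (K : ℝ) * B * n ≤ 4 * Real.sqrt X * (200 * m) := by
      push_cast at hKB; gcongr
    rw [div_le_iff₀ (by positivity)]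
    calc (C : ℝ) * K = C / (B * n) * (K * B * n) := by field_simp
      _ ≤ C / (B * n) * (4 * Real.sqrt X * (200 * m)) := by gcongr
      _ = _ := by field_simp; norm_num
  have h7 : (X : ℝ) / (16 * T * n)
      ≤ A.card * ((800 * C / c₁ + 1) * (Real.sqrt X * l / (B * n))) := by
    have a1 : (X : ℝ) / (8 * T * n) = 2 * (X / (16 * T * n)) := by field_simp; norm_num
    have a2 := mul_le_mul_of_nonneg_left (add_le_add h6 h5) (Nat.cast_nonneg (α := ℝ) A.card)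
    rw [add_mul (800 * C / c₁), one_mul]
    linarith
  have hr0 : 0 < Real.sqrt X := Real.sqrt_pos.mpr (by exact_mod_cast Nat.pos_of_ne_zero hX0)
  have h8 : Real.sqrt X * (B / l ^ 1) ≤ 16 * T * (800 * C / c₁ + 1) * A.card := by
    have a1 := Real.mul_self_sqrt (Nat.cast_nonneg (α := ℝ) X)
    generalize Real.sqrt X = r at *
    generalize 800 * C / c₁ + 1 = κ at *
    rw [← a1] at h7
    calc _ = r * r / (16 * T * n) * (16 * T * n * B / (r * l)) := by field_simp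
      _ ≤ A.card * (κ * (r * l / (B * n))) * (16 * T * n * B / (r * l)) := by gcongr
      _ = _ := by field_simp
  rw [one_div_mul_eq_div, div_le_iff₀ (by positivity)]
  calc _ ≤ Real.sqrt X * (16 * α * 4 ^ (1 + 2) * (B / l ^ 1)) := by gcongr
    _ = 16 * α * 4 ^ (1 + 2) * (Real.sqrt X * (B / l ^ 1)) := by ring
    _ ≤ 16 * α * 4 ^ (1 + 2) * (16 * T * (800 * C / c₁ + 1) * A.card) := by gcongr
    _ = _ := by ring

end Pool.Agent.Lib.MP_a3366f_nt
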