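import Mathlib
import Pool.Agent.Lib.MP_a3366f_nt.An13

/-!
The count of even values.
-/

open Finset

namespace Pool.Agent.Lib.MP_a3366f_nt

theorem one_sub_sum_le_prod (S : Finset ℕ) (f : ℕ → ℝ) (hf : ∀ p ∈ S, 0 ≤ f p ∧ f p ≤ 1) :
    1 - ∑ p ∈ S, f p ≤ ∏ p ∈ S, (1 - f p) := by
  induction S using Finset.induction_on with
  | empty => simp
  | insert a S ha ih =>
    rw [sum_insert ha, prod_insert ha]
    have h1 := ih fun p hp => hf p (mem_insert_of_mem hp)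
    have h2 := hf a (mem_insert_self a S)
    have h3 : 0 ≤ ∑ p ∈ S, f p := sum_nonneg fun p hp => (hf p (mem_insert_of_mem hp)).1
    nlinarith

theorem linear_count (p r : ℕ) (hp : p.Prime) (hp2 : p ≠ 2) :
    ∑ v ∈ range p, (if p ∣ r + 8 * v then (0 : ℝ) else 1) = p * (1 - 1 / p) := by
  have := Fact.mk hp
  have h2 : (8 : ZMod p) ≠ 0 := by
    have h : (2 : ZMod p) ≠ 0 := by
      have := (ZMod.natCast_eq_zero_iff 2 p).not.mpr fun h =>
        hp2 ((Nat.prime_dvd_prime_iff_eq hp Nat.prime_two).mp h)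
      exact_mod_cast this
    rw [show (8 : ZMod p) = 2 ^ 3 by norm_num]
    exact pow_ne_zero _ h
  have h1 : ∑ v ∈ range p, (if p ∣ r + 8 * v then (1 : ℝ) else 0) = 1 := by
    rw [sum_eq_single (-(r : ZMod p) / 8).val (fun v hv hne => if_neg fun h => hne ?_)
      (fun h => absurd (mem_range.mpr (ZMod.val_lt _)) h), if_pos]
    · rw [← ZMod.natCast_eq_zero_iff]
      push_cast
      rw [ZMod.natCast_zmod_val]
      field_simp
      ring
    · rw [← ZMod.natCast_eq_zero_iff] at h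
      push_cast at h
      rw [← ZMod.val_cast_of_lt (mem_range.mp hv)]
      congr 1
      field_simp
      linear_combination h
  have h3 : (p : ℝ) ≠ 0 := by exact_mod_cast hp.ne_zero
  rw [sum_congr rfl (g := fun v => 1 - if p ∣ r + 8 * v then (1 : ℝ) else 0) fun v _ => by
    split_ifs <;> simp, sum_sub_distrib, h1]
  field_simp
  simp

theorem coprime_count (S : Finset ℕ) (hS : ∀ p ∈ S, p.Prime ∧ p ≠ 2)
    (hinv : ∑ p ∈ S, (1 : ℝ) / p ≤ 1 / 2) (r A D : ℕ) :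
    (D : ℝ) / 2 - 2 * (∏ p ∈ S, p : ℕ)
      ≤ ((Ico A (A + D)).filter fun v => ∀ p ∈ S, ¬ p ∣ r + 8 * v).card := by
  have h1 := crt_weighted (fun p v => if p ∣ r + 8 * v then (0 : ℝ) else 1) (fun p => 1 - 1 / p)
    (fun _ => 1) S (fun p hp => (hS p hp).1)
    (fun p _ n => by
      rw [mul_add, ← add_assoc]
      simp only [Nat.dvd_add_left (Dvd.intro_left 8 rfl : p ∣ 8 * p)])
    (fun p _ n => by split_ifs <;> simp) (fun p hp => linear_count p r (hS p hp).1 (hS p hp).2)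
    A (A + D) (by omega) (fun _ _ => le_rfl) zero_le_one
  have h2 := one_sub_sum_le_prod S (fun p => 1 / p) fun p hp => ⟨by positivity,
    div_le_one_of_le₀ (by exact_mod_cast (hS p hp).1.one_le) (by positivity)⟩
  have h3 : ∑ n ∈ Ico A (A + D), (∏ p ∈ S, if p ∣ r + 8 * n then (0 : ℝ) else 1) * 1
      = ((Ico A (A + D)).filter fun v => ∀ p ∈ S, ¬ p ∣ r + 8 * v).card := by
    rw [← sum_boole]
    refine sum_congr rfl fun v _ => ?_
    rw [mul_one]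
    split_ifs with h
    · exact prod_eq_one fun p hp => if_neg (h p hp)
    · push Not at h
      obtain ⟨p, hp, h⟩ := h
      exact prod_eq_zero hp (if_pos h)
  rw [h3] at h1
  simp only [sum_const, Nat.card_Ico, Nat.add_sub_cancel_left, nsmul_eq_mul, mul_one] at h1
  have h4 := (abs_le.mp h1).1
  nlinarith [Nat.cast_nonneg (α := ℝ) D]

theorem exists_res (y m : ℕ) (hy : y % 2 = 1) : ∃ r < 8, ∀ v, y * (r + 8 * v) % 8 = m % 8 := by
  refine ⟨y * m % 8, Nat.mod_lt _ (by norm_num), fun v => ?_⟩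
  rw [Nat.mul_mod, Nat.add_mul_mod_self_left, Nat.mod_mod, Nat.mul_mod y m]
  have h1 : y % 8 = 1 ∨ y % 8 = 3 ∨ y % 8 = 5 ∨ y % 8 = 7 := by omega
  have h2 : m % 8 < 8 := Nat.mod_lt _ (by norm_num)
  generalize m % 8 = a at *
  rcases h1 with h | h | h | h <;> rw [h] <;> omega

theorem window (c u N Λ β r x v : ℕ) (hc : c = 1 ∨ c = 3) (hu : 0 < u) (hN : 0 < N) (hr : r < 8)
    (h : 240 * u ^ 2 + β ≤ N * Λ) (hx : Λ ≤ x)
    (hv : v ∈ Ico (N * (12 * x + 1) ^ 2 / (56 * c * u) + 1)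
      (N * (12 * x + 1) ^ 2 / (56 * c * u) + 1 + N * Λ / (4 * u))) :
    N * (12 * x + 1) ^ 2 ≤ c * (7 * u * (r + 8 * v)) + β ∧
      c * (7 * u * (r + 8 * v)) + β < N * (12 * x + 3) ^ 2 := by
  obtain ⟨h1, h2⟩ := mem_Ico.mp hv
  have h0 : 0 < 56 * c * u := by rcases hc with rfl | rfl <;> omega
  have h3 := Nat.lt_mul_div_succ (N * (12 * x + 1) ^ 2) h0
  have h4 := Nat.mul_div_le (N * (12 * x + 1) ^ 2) (56 * c * u)
  have h5 := Nat.mul_div_le (N * Λ) (4 * u)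
  have h6 : N * (12 * x + 3) ^ 2 = N * (12 * x + 1) ^ 2 + 48 * (N * x) + 8 * N := by ring
  have h7 : N * Λ ≤ N * x := Nat.mul_le_mul_left N hx
  have h8 : u ≤ u ^ 2 := Nat.le_self_pow two_ne_zero u
  have h9 := Nat.mul_le_mul_left u h1
  have h10 := Nat.mul_le_mul_left u (Nat.succ_le_of_lt h2)
  have h11 := Nat.mul_le_mul_left u hr.le
  rw [h6]
  generalize N * (12 * x + 1) ^ 2 / (56 * c * u) = A at *
  generalize N * (12 * x + 1) ^ 2 = M at *
  generalize N * Λ / (4 * u) = D at *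
  rcases hc with rfl | rfl <;> constructor <;> nlinarith [Nat.zero_le (u * r)]

theorem even_count (t : ℕ) (ht : Odd t) : ∃ c : ℝ, 0 < c ∧ ∃ X₀ : ℕ, ∀ X : ℕ, X₀ ≤ X →
    c * (Real.sqrt X * (Real.log X / Real.log (Real.log X) ^ 2))
      ≤ ((range X).filter fun n => pt t n % 2 = 0).card := by
  classical
  obtain ⟨c, β, j0, hc, hβ, hj0, hdata⟩ := even_data t ht
  obtain ⟨C, l₁, hC, hfam⟩ := exists_family
  obtain ⟨l₀, hl₀⟩ := exists_big (3200 * (C + 20) + (β + 20000))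
  obtain ⟨α, hα⟩ : ∃ α, α = 200 * (C + 20) := ⟨_, rfl⟩
  obtain ⟨l₂, hl₂⟩ : ∃ l₂, l₂ = l₀ + l₁ + β + 1 := ⟨_, rfl⟩
  have hα' : (0 : ℝ) < α := by exact_mod_cast (by omega : 0 < α)
  refine ⟨1 / (16 * α * 4 ^ (0 + 2) * (18432 * (3 * C + 1))), by positivity,
    2 ^ (α * 2 ^ l₂ * l₂ ^ 2), fun X hX => ?_⟩
  have hX0 : X ≠ 0 := by have := Nat.two_pow_pos (α * 2 ^ l₂ * l₂ ^ 2); omega
  obtain ⟨n, hn, hn', hn₀⟩ : ∃ n, 2 ^ n ≤ X ∧ X < 2 ^ (n + 1) ∧ α * 2 ^ l₂ * l₂ ^ 2 ≤ n :=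
    ⟨Nat.log 2 X, Nat.pow_log_le_self 2 hX0, Nat.lt_pow_succ_log_self one_lt_two X,
      Nat.le_log_of_pow_le one_lt_two hX⟩
  obtain ⟨l, hl, hs1, hs2⟩ := exists_scale α l₂ (by omega) (by omega) n hn₀
  obtain ⟨hl10, hbig⟩ := hl₀ l (by omega)
  obtain ⟨j, hj1, hj2, hj3⟩ : ∃ j, 2 * l ≤ j ∧ j ≤ 2 * l + 1 ∧ j % 2 = j0 :=
    ⟨2 * l + j0, by omega, by omega, by omega⟩
  obtain ⟨m, hm, hS⟩ := hdata j (by omega) hj3
  have hN1 : (2 ^ l) ^ 2 ≤ 2 ^ j := by rw [← pow_mul]; exact Nat.pow_le_pow_right two_pos (by omega)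
  have hN2 : 2 ^ j ≤ (2 ^ l) ^ 2 * 2 := by
    rw [← pow_mul, ← pow_succ]
    exact Nat.pow_le_pow_right two_pos (by omega)
  have hlog := to_loglog X n l α 0 hn hn' (by omega) (le_trans (by
    have : 1 ≤ l ^ 2 := Nat.one_le_pow _ _ (by omega)
    calc 2 ^ l = 1 * 2 ^ l * 1 := by ring
      _ ≤ _ := by gcongr; omega) hs1) hs2
  have hcf := @cover_final l
  obtain ⟨F, U, E, Bad, hF⟩ := hfam l (by omega) 5 3 (8 * 2 ^ l) 0 (Or.inr ⟨rfl, rfl⟩) (by omega)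
    (by omega) ∅ (by simp)
  have hlB : l < 2 ^ l := Nat.lt_two_pow_self
  have hsize := hF.size
  have hcard : ∀ i ∈ F, (U i).card = 8 * 2 ^ l := fun i hi => by
    rw [← hF.card₁ i hi, filter_true_of_mem fun p hp => ?_]
    refine ((hF.prime i hi p hp).2.1).resolve_right fun h => ?_
    have h1 := hF.card₂ i hi
    rw [card_eq_zero, filter_eq_empty_iff] at h1
    exact h1 hp h
  obtain ⟨B, hB⟩ : ∃ B, B = 2 ^ l := ⟨_, rfl⟩
  have hBr : (2 : ℝ) ^ l = B := by rw [hB]; norm_cast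
  rw [← hB] at hs1 hs2 hbig hN1 hN2 hcf hlB hsize hcard
  rw [hBr] at hlog hcf
  obtain ⟨hBc, hnB, hBl, hBl', hs3, hCB⟩ := scale_facts C _ α l B n hα hl10 hbig hs1 hs2
  have hN0 : 0 < 2 ^ j := Nat.two_pow_pos j
  obtain ⟨Λ, hΛ1, hΛ2⟩ : ∃ Λ, 72 * 2 ^ j * Λ ^ 2 ≤ X ∧ X < 72 * 2 ^ j * (Λ + 1) ^ 2 :=
    ⟨Nat.sqrt (X / (72 * 2 ^ j)), (Nat.mul_le_mul_left _ (Nat.sqrt_le' _)).trans
      (Nat.mul_div_le _ _), (Nat.lt_mul_div_succ X (by omega)).trans_le
        (Nat.mul_le_mul_left _ (Nat.lt_succ_sqrt' _))⟩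
  have hΛ0 : 1 ≤ Λ := Nat.pos_of_ne_zero fun h => by
    have h1 : 2 ^ (j + 7) ≤ 2 ^ n := Nat.pow_le_pow_right two_pos (by omega)
    rw [h] at hΛ2
    rw [pow_add] at h1
    omega
  have hΛ3 : X ≤ 288 * (2 ^ j * Λ * Λ) := by
    have h1 : (Λ + 1) ^ 2 ≤ (2 * Λ) ^ 2 := Nat.pow_le_pow_left (by omega) 2
    calc X ≤ 72 * 2 ^ j * (2 * Λ) ^ 2 := hΛ2.le.trans (Nat.mul_le_mul_left _ h1)
      _ = _ := by ring
  let u : _ → ℕ := fun i => ∏ p ∈ U i, p
  have hu0 : ∀ i ∈ F, 0 < u i := fun i hi => prod_pos fun p hp => (hF.prime i hi p hp).1.pos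
  have hu1 : ∀ i ∈ F, 240 * u i ^ 2 + β ≤ 2 ^ j * Λ := fun i hi => by
    have a1 : (2 ^ (C * B * l ^ 2 * 2 + 8 + B)) ^ 2 ≤ (2 ^ j * Λ) ^ 2 := by
      rw [← pow_mul]
      refine ((Nat.pow_le_pow_right two_pos (by omega)).trans hn).trans (hΛ3.trans ?_)
      have a2 : 288 ≤ 2 ^ j := le_trans (le_trans (by omega) (Nat.le_self_pow two_ne_zero B)) hN1
      calc _ ≤ 2 ^ j * (2 ^ j * Λ * Λ) := Nat.mul_le_mul_right _ a2
        _ = _ := by ring
    refine le_trans ?_ ((Nat.pow_le_pow_iff_left two_ne_zero).mp a1)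
    have a3 := Nat.pow_le_pow_left (hsize i hi) 2
    have a4 : β ≤ 2 ^ B := le_trans (by omega) (Nat.lt_two_pow_self (n := B)).le
    have a5 : 1 ≤ (2 ^ (C * B * l ^ 2)) ^ 2 := Nat.one_le_pow _ _ (Nat.two_pow_pos _)
    have a6 : 1 ≤ 2 ^ B := Nat.two_pow_pos _
    rw [pow_add, pow_add, pow_mul]
    change u i ^ 2 ≤ _ at a3
    generalize (2 ^ (C * B * l ^ 2)) ^ 2 = y at *
    generalize 2 ^ B = y' at *
    have a7 := Nat.mul_le_mul_left y a6
    have a8 := Nat.mul_le_mul_right y' a5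
    linarith
  have h7 : ∀ i ∈ F, 7 ∉ U i := fun i hi h => absurd (hF.prime i hi 7 h).2.2.1 (lt_irrefl 7)
  have hU7 : ∀ i ∈ F, ∀ p ∈ insert 7 (U i), p.Prime ∧ 7 ≤ p := fun i hi p hp => by
    rcases mem_insert.mp hp with rfl | hp
    · exact ⟨by norm_num, le_rfl⟩
    · exact ⟨(hF.prime i hi p hp).1, (hF.prime i hi p hp).2.2.1.le⟩
  have hodd : ∀ i, ∃ r, i ∈ F → r < 8 ∧ ∀ v, 7 * u i * (r + 8 * v) % 8 = m % 8 := fun i => by
    by_cases hi : i ∈ F
    · obtain ⟨r, hr⟩ := exists_res (7 * u i) m (by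
        have := not_dvd_mul_prod (U i) (fun p hp => (hF.prime i hi p hp).1) 7 2 Nat.prime_two
          (by norm_num) fun h => absurd (hF.prime i hi 2 h).2.2.1 (by norm_num)
        change ¬ 2 ∣ 7 * u i at this
        omega)
      exact ⟨r, fun _ => hr⟩
    · exact ⟨0, fun h => absurd h hi⟩
  choose r hr using hodd
  let V : _ → ℕ → Finset ℕ := fun i x => (Ico (2 ^ j * (12 * x + 1) ^ 2 / (56 * c * u i) + 1)
    (2 ^ j * (12 * x + 1) ^ 2 / (56 * c * u i) + 1 + 2 ^ j * Λ / (4 * u i))).filter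
      fun v => ∀ p ∈ insert 7 (U i), ¬ p ∣ r i + 8 * v
  have hV : ∀ i ∈ F, ∀ x ∈ Ico Λ (2 * Λ), ∀ v ∈ V i x,
      2 ^ j * (12 * x + 1) ^ 2 ≤ c * (7 * u i * (r i + 8 * v)) + β ∧
        c * (7 * u i * (r i + 8 * v)) + β < 2 ^ j * (12 * x + 3) ^ 2 := fun i hi x hx v hv =>
    window c (u i) (2 ^ j) Λ β (r i) x v hc (hu0 i hi) hN0 (hr i hi).1 (hu1 i hi)
      (mem_Ico.mp hx).1 (mem_filter.mp hv).1
  set A := (range X).filter fun n => pt t n % 2 = 0 with hA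
  have hBr1 : (20000 : ℝ) ≤ B := by exact_mod_cast (by omega : 20000 ≤ B)
  have hr0 : 0 < Real.sqrt X := Real.sqrt_pos.mpr (by exact_mod_cast Nat.pos_of_ne_zero hX0)
  have hKB : ((24 * Λ : ℕ) : ℝ) * B ≤ 3 * Real.sqrt X := by
    refine (sq_le_sq₀ (by positivity) (by positivity)).mp ?_
    rw [mul_pow (3 : ℝ), Real.sq_sqrt (by positivity)]
    have : (24 * Λ * B) ^ 2 ≤ 3 ^ 2 * X := by
      calc _ = 8 * (72 * B ^ 2 * Λ ^ 2) := by ring
        _ ≤ 8 * (72 * 2 ^ j * Λ ^ 2) := by gcongr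
        _ ≤ _ := by omega
    exact_mod_cast this
  have hmain := hcf hF (by simp) j c β (24 * Λ) X 0 n hc hβ 1 one_pos
    (fun d s _ _ _ i _ => one_le_selG _ _ _ le_rfl (by simp)) hn hn' hl10 (by omega) (by omega) hnB
    (by rw [add_mul, mul_assoc 2, ← mul_assoc C]; omega)
    (by
      have := mul_le_mul_of_nonneg_left hBr1 (Nat.cast_nonneg (α := ℝ) (24 * Λ))
      linarith) A
    (fun e he => (mem_range.mp (mem_filter.mp he).1).le)
    (fun i => ((Ico Λ (2 * Λ)).biUnion (V i)).image fun v => c * (7 * u i * (r i + 8 * v))) (by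
      intro i hi n' hn'
      obtain ⟨v, hv, rfl⟩ := mem_image.mp hn'
      obtain ⟨x, hx, hv⟩ := mem_biUnion.mp hv
      obtain ⟨a1, a2⟩ := hV i hi x hx v hv
      have a3 := (mem_filter.mp hv).2
      have a4 := (hr i hi).2 v
      have a5 : 2 ^ j ≤ 2 ^ j * (12 * x + 1) ^ 2 := Nat.le_mul_of_pos_right _ (by positivity)
      obtain ⟨n₁, a6⟩ : ∃ n₁, m + 8 * n₁ = 7 * u i * (r i + 8 * v) :=
        ⟨(7 * u i * (r i + 8 * v) - m) / 8, by rcases hc with rfl | rfl <;> omega⟩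
      have a7 : c * (7 * u i * (r i + 8 * v)) + β = 8 * c * n₁ + 2 ^ j := by
        rw [← a6, ← hm]; ring
      obtain ⟨e, k, b1, b2, b3, b4⟩ := hS (U i)
        (fun p hp => ⟨(hF.prime i hi p hp).1, (hF.prime i hi p hp).2.2.1⟩)
        (by rw [hcard i hi, mul_pow]; omega) n₁ x (r i + 8 * v) a6 (a3 7 (mem_insert_self _ _))
        (fun p hp => a3 p (mem_insert_of_mem hp)) (a7 ▸ a1) (a7 ▸ a2)
      rw [a6] at b2
      have a8 : 2 ^ j * (12 * x + 3) ^ 2 ≤ 2 ^ j * (24 * Λ) ^ 2 := Nat.mul_le_mul_left _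
        (Nat.pow_le_pow_left (by have := (mem_Ico.mp hx).2; omega) 2)
      refine ⟨fun p hp => ?_, by simp, e, mem_filter.mpr ⟨mem_range.mpr ?_, b1⟩, k, b3, ?_, b2, b4⟩
      · rw [show c * (7 * u i * (r i + 8 * v)) = c * 7 * (r i + 8 * v) * u i by ring]
        obtain ⟨b5, -, b6, -⟩ := hF.prime i hi p hp
        refine exact_dvd_mul_prod _ (fun p hp => (hF.prime i hi p hp).1) _ p (fun h => ?_) hp
        rcases (Nat.Prime.dvd_mul b5).mp h with h | h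
        · rcases (Nat.Prime.dvd_mul b5).mp h with h | h
          · have := Nat.le_of_dvd (by omega) h; omega
          · have := Nat.le_of_dvd (by omega) h; omega
        · exact a3 p (mem_insert_of_mem hp) h
      · have a9 : 2 ^ j * (24 * Λ) ^ 2 = 8 * (72 * 2 ^ j * Λ ^ 2) := by ring
        rcases hc with rfl | rfl <;> omega
      · exact (Nat.pow_le_pow_iff_left two_ne_zero).mp
          (Nat.le_of_mul_le_mul_left (by omega) hN0))
  have hlow : ∀ i ∈ F, X / 4608 * ∏ p ∈ U i, (1 : ℝ) / p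
      ≤ ((((Ico Λ (2 * Λ)).biUnion (V i)).image fun v => c * (7 * u i * (r i + 8 * v))).card : ℝ) := by
    intro i hi
    have a1 := hu0 i hi
    rw [card_image_of_injective _ fun v v' h => by
      have := Nat.eq_of_mul_eq_mul_left (by omega)
        (Nat.eq_of_mul_eq_mul_left (by omega : 0 < c) h)
      omega, card_biUnion fun x hx x' hx' hne => disjoint_left.mpr fun v hv hv' => by
      obtain ⟨b1, b2⟩ := hV i hi x hx v hv
      obtain ⟨b3, b4⟩ := hV i hi x' hx' v hv'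
      have b5 := lt_of_pow_lt_pow_left₀ 2 (Nat.zero_le _)
        (Nat.lt_of_mul_lt_mul_left (b1.trans_lt b4))
      have b6 := lt_of_pow_lt_pow_left₀ 2 (Nat.zero_le _)
        (Nat.lt_of_mul_lt_mul_left (b3.trans_lt b2))
      omega]
    have a6 : (0 : ℝ) < u i := by exact_mod_cast a1
    have a7 : ∏ p ∈ U i, (1 : ℝ) / p = 1 / u i := by
      simp only [u]; push_cast; rw [prod_div_distrib, prod_const_one]
    have a2 : ∀ x ∈ Ico Λ (2 * Λ), ((2 ^ j * Λ : ℕ) : ℝ) / (16 * u i) ≤ (V i x).card := by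
      intro x _
      refine le_trans ?_ (coprime_count _ (fun p hp => ⟨(hU7 i hi p hp).1, by
        have := (hU7 i hi p hp).2; omega⟩) (by
          rw [sum_insert (h7 i hi)]; have := hF.inv i hi; push_cast; linarith) _ _ _)
      rw [prod_insert (f := fun p => p) (h7 i hi)]
      have b1 : ((2 ^ j * Λ : ℕ) : ℝ) ≤ (4 * u i : ℕ) * ((2 ^ j * Λ / (4 * u i) + 1 : ℕ) : ℝ) := by
        exact_mod_cast (Nat.lt_mul_div_succ (2 ^ j * Λ) (by omega : 0 < 4 * u i)).le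
      have b2 : ((240 * u i ^ 2 : ℕ) : ℝ) ≤ (2 ^ j * Λ : ℕ) := by
        exact_mod_cast le_trans (Nat.le_add_right _ _) (hu1 i hi)
      have b3 : (1 : ℝ) ≤ u i := by exact_mod_cast a1
      change _ ≤ _ - 2 * ((7 * u i : ℕ) : ℝ)
      rw [div_le_iff₀ (by positivity)]
      generalize 2 ^ j * Λ / (4 * u i) = D at *
      generalize ((2 ^ j * Λ : ℕ) : ℝ) = y at *
      generalize u i = u' at *
      push_cast at *
      have b4 := mul_le_mul_of_nonneg_left b3 a6.le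
      linarith
    have a3 := card_nsmul_le_sum _ _ _ a2
    rw [Nat.card_Ico, nsmul_eq_mul, show 2 * Λ - Λ = Λ by omega] at a3
    have a4 : (X : ℝ) ≤ 288 * ((2 ^ j * Λ : ℕ) * Λ) := by exact_mod_cast hΛ3
    rw [a7, Nat.cast_sum]
    refine le_trans ?_ a3
    calc _ ≤ 288 * ((2 ^ j * Λ : ℕ) * Λ) / 4608 * (1 / (u i : ℝ)) := by gcongr
      _ = _ := by field_simp; ring
  have h1 := (sum_le_sum hlow).trans hmain
  rw [← mul_sum] at h1
  have h2 : E * (X / 9216) ≤ X / 4608 * ∑ i ∈ F, ∏ p ∈ U i, (1 : ℝ) / p := by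
    calc _ = X / 9216 * E := mul_comm _ _
      _ ≤ X / 9216 * (2 * ∑ i ∈ F, ∏ p ∈ U i, (1 : ℝ) / p) :=
        mul_le_mul_of_nonneg_left hF.lower (by positivity)
      _ = _ := by ring
  have h3 := le_of_mul_le_mul_left (h2.trans h1) hF.pos
  have hB3 : (B : ℝ) ≤ B ^ 3 := le_self_pow₀ (by linarith) three_ne_zero
  have h4 : (X : ℝ) / B ^ 3 ≤ X / 18432 :=
    div_le_div_of_nonneg_left (by positivity) (by positivity) (by linarith)
  have h5 : Real.sqrt X / B ^ 3 ≤ Real.sqrt X / B :=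
    div_le_div_of_nonneg_left hr0.le (by positivity) hB3
  have h6 : C * ((24 * Λ : ℕ) : ℝ) / 1 ≤ 3 * C * (Real.sqrt X / B) := by
    rw [div_one, mul_div_assoc', le_div_iff₀ (by positivity)]
    have := mul_le_mul_of_nonneg_left hKB (Nat.cast_nonneg (α := ℝ) C)
    linarith
  have h7 : (X : ℝ) / 18432 ≤ A.card * ((3 * C + 1) * (Real.sqrt X / B)) := by
    have a2 := mul_le_mul_of_nonneg_left (add_le_add h6 h5) (Nat.cast_nonneg (α := ℝ) A.card)
    rw [add_mul (3 * C : ℝ), one_mul]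
    linarith
  have h8 : Real.sqrt X * (B / l ^ 0) ≤ 18432 * (3 * C + 1) * A.card := by
    have a1 := Real.mul_self_sqrt (Nat.cast_nonneg (α := ℝ) X)
    generalize Real.sqrt X = ρ at *
    rw [← a1] at h7
    calc _ = ρ * ρ / 18432 * (18432 * B / ρ) := by field_simp
      _ ≤ A.card * ((3 * C + 1) * (ρ / B)) * (18432 * B / ρ) := by gcongr
      _ = _ := by field_simp
  rw [one_div_mul_eq_div, div_le_iff₀ (by positivity)]
  calc _ ≤ Real.sqrt X * (16 * α * 4 ^ (0 + 2) * (B / l ^ 0)) := by gcongr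
    _ = 16 * α * 4 ^ (0 + 2) * (Real.sqrt X * (B / l ^ 0)) := by ring
    _ ≤ 16 * α * 4 ^ (0 + 2) * (18432 * (3 * C + 1) * A.card) := by gcongr
    _ = _ := by ring

end Pool.Agent.Lib.MP_a3366f_nt
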