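import Mathlib
import Pool.Agent.Lib.MP_a3366f_nt.Link

/-!
Definitions for the two-variable kernel argument on the parity of the multipartition function.
-/

open Finset

namespace Pool.Agent.Lib.MP_a3366f_nt.Ker

/-- Laurent series over the field with two elements. -/
abbrev L2 := LaurentSeries (ZMod 2)

/-- The sum of `q ^ (a ^ 2)` over positive `a` prime to `2 * c`. For `c = 1` it is the discriminant
modulo two, for `c = 3` it is `η(24 z)` modulo two. -/
noncomputable def SP (c : ℕ) : S2 :=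
  PowerSeries.mk fun n => if Nat.Coprime n (2 * c) ∧ IsSquare n then 1 else 0

/-- The same series as a Laurent series. -/
noncomputable def S (c : ℕ) : L2 := HahnSeries.ofPowerSeries ℤ (ZMod 2) (SP c)

/-- The coefficients of the Hecke operator of index `n` applied to `f`. -/
noncomputable def tc (n : ℕ) (f : L2) (m : ℤ) : ZMod 2 :=
  ∑ d ∈ n.divisors, if (d : ℤ) ∣ m then f.coeff (((n / d : ℕ) : ℤ) * (m / d)) else 0

theorem tc_bdd (n : ℕ) (f : L2) : BddBelow (Function.support (tc n f)) := by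
  refine ⟨-(n * |f.order|), fun m hm => ?_⟩
  obtain ⟨d, hd, h⟩ := Finset.exists_ne_zero_of_sum_ne_zero hm
  split_ifs at h with h1
  · obtain ⟨u, rfl⟩ := h1
    have hd1 := Nat.dvd_of_mem_divisors hd
    have hn : n ≠ 0 := (Nat.mem_divisors.1 hd).2
    have hd0 : 0 < d := Nat.pos_of_dvd_of_pos hd1 (Nat.pos_of_ne_zero hn)
    have hdn : (d : ℤ) ≤ n := by exact_mod_cast Nat.le_of_dvd (Nat.pos_of_ne_zero hn) hd1
    have he : (1 : ℤ) ≤ ((n / d : ℕ) : ℤ) := by
      exact_mod_cast Nat.div_pos (Nat.le_of_dvd (Nat.pos_of_ne_zero hn) hd1) hd0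
    rw [Int.mul_ediv_cancel_left _ (by exact_mod_cast hd0.ne')] at h
    have h2 := HahnSeries.order_le_of_coeff_ne_zero h
    have h3 := neg_abs_le f.order
    have h4 := abs_nonneg f.order
    have hd0' : (0 : ℤ) < d := by exact_mod_cast hd0
    by_cases hu : 0 ≤ u
    · have : 0 ≤ (d : ℤ) * u := by positivity
      nlinarith
    · have h5 : -|f.order| ≤ u := by nlinarith
      nlinarith
  · exact absurd rfl h

/-- The Hecke operator of index `n` on Laurent series modulo two. -/
noncomputable def TL (n : ℕ) : L2 →ₗ[ZMod 2] L2 where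
  toFun f := HahnSeries.ofSuppBddBelow (tc n f) (tc_bdd n f)
  map_add' f g := by
    ext m
    simp only [HahnSeries.coeff_ofSuppBddBelow, HahnSeries.coeff_add, tc, ← sum_add_distrib]
    refine sum_congr rfl fun d _ => ?_
    split_ifs <;> simp
  map_smul' a f := by
    ext m
    simp only [HahnSeries.coeff_ofSuppBddBelow, HahnSeries.coeff_smul, tc, RingHom.id_apply,
      smul_eq_mul, mul_sum]
    refine sum_congr rfl fun d _ => ?_
    split_ifs <;> simp

theorem coeff_TL (n : ℕ) (f : L2) (m : ℤ) : (TL n f).coeff m =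
    ∑ d ∈ n.divisors, if (d : ℤ) ∣ m then f.coeff (((n / d : ℕ) : ℤ) * (m / d)) else 0 := rfl

/-- The composite of the Hecke operators indexed by a list. -/
noncomputable def TW : List ℕ → L2 → L2
  | [], f => f
  | p :: w, f => TL p (TW w f)

/-- The span of the powers of `S c` with exponents in `J`. -/
noncomputable def Sp (c : ℕ) (J : Set ℤ) : Submodule (ZMod 2) L2 :=
  Submodule.span (ZMod 2) ((fun j : ℤ => S c ^ j) '' J)

/-- Exponents prime to `2 * c`. -/
def Adm (c : ℕ) (j : ℤ) : Prop := IsCoprime j (2 * c : ℤ)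

/-- The span of the admissible negative powers. -/
noncomputable def Neg (c : ℕ) : Submodule (ZMod 2) L2 := Sp c {j | j < 0 ∧ Adm c j}

/-- The span of the admissible positive powers. -/
noncomputable def Pos (c : ℕ) : Submodule (ZMod 2) L2 := Sp c {j | 0 < j ∧ Adm c j}

/-- The small primes whose Hecke operators generate the maximal ideal. -/
def Gen (c : ℕ) : Finset ℕ := if c = 1 then {3, 5} else {5, 7, 13}

/-- The covering relation used in the counting argument. -/
def Cov (B D : ℕ) (Z : Finset ℕ) (l l' : ℕ) : Prop :=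
  ∃ x a : ℕ, 1 ≤ x ∧ x ≤ B ∧ ((∃ y ≤ B, l * x + l' * y = D * a ^ 2) ∨
    ∃ m, 1 ≤ m ∧ m + D * a ^ 2 = l * x ∧ (l' ∣ m ∨
      ∃ u v μ, 1 ≤ u ∧ u ≤ B ∧ 1 ≤ v ∧ v ≤ B ∧ μ ∈ Z ∧ μ * v = l' * m * u))

end Pool.Agent.Lib.MP_a3366f_nt.Ker
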