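import Mathlib
import Pool.Agent.Lib.MP_a3366f_nt.KDefs

open Finset

namespace Pool.Agent.Lib.MP_a3366f_nt.Ker

namespace KSp

theorem sq_cls {c : ℕ} (hc : c = 1 ∨ c = 3) (r : ℕ) :
    Nat.Coprime (r * r) (2 * c) ↔ r * r % (8 * c) = 1 := by
  have h : r * r % 24 = 0 ∨ r * r % 24 = 1 ∨ r * r % 24 = 4 ∨ r * r % 24 = 9 ∨ r * r % 24 = 12 ∨
      r * r % 24 = 16 := by
    rw [Nat.mul_mod]
    have := Nat.mod_lt r (show 0 < 24 by norm_num)
    generalize r % 24 = s at this ⊢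
    interval_cases s <;> simp
  rcases hc with rfl | rfl
  · rw [mul_one, Nat.coprime_two_right, Nat.odd_iff]
    omega
  · rw [Nat.coprime_mul_iff_right, Nat.coprime_two_right, Nat.odd_iff, Nat.coprime_comm,
      Nat.prime_three.coprime_iff_not_dvd]
    omega

theorem SP_phi {c : ℕ} (hc : c = 1 ∨ c = 3) (h0 : 8 * c ≠ 0) :
    SP c = PowerSeries.X * PowerSeries.expand (8 * c) h0 (phi c) := by
  ext n
  rw [SP, PowerSeries.coeff_mk]
  rcases n with _ | n
  · rw [PowerSeries.coeff_zero_X_mul, if_neg]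
    rintro ⟨h, -⟩
    rw [Nat.coprime_zero_left] at h
    omega
  · rw [PowerSeries.coeff_succ_X_mul, PowerSeries.coeff_expand]
    by_cases h : 8 * c ∣ n
    · obtain ⟨m, rfl⟩ := h
      rw [if_pos (dvd_mul_right _ _), Nat.mul_div_cancel_left _ (by omega), coeff_phi hc]
      by_cases h1 : IsSquare (8 * c * m + 1)
      · rw [if_pos h1, if_pos]
        refine ⟨?_, h1⟩
        obtain ⟨r, hr⟩ := h1
        rw [hr, sq_cls hc, ← hr, Nat.mul_add_mod, Nat.mod_eq_of_lt (by omega)]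
      · rw [if_neg h1, if_neg fun h2 => h1 h2.2]
    · rw [if_neg h, if_neg]
      rintro ⟨h1, r, hr⟩
      rw [hr, sq_cls hc, ← hr] at h1
      apply h
      rcases hc with rfl | rfl <;> omega

theorem coeff_ofPS (f : S2) (i : ℤ) : (HahnSeries.ofPowerSeries ℤ (ZMod 2) f).coeff i =
    if i < 0 then 0 else f.coeff i.natAbs :=
  PowerSeries.coeff_coe f i

theorem S_pow {c : ℕ} (hc : c = 1 ∨ c = 3) (h0 : 8 * c ≠ 0) (s : ℕ) :
    S c ^ s = HahnSeries.single (s : ℤ) 1 * HahnSeries.ofPowerSeries ℤ (ZMod 2)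
      (PowerSeries.expand (8 * c) h0 (pent ^ (3 / c * s))) := by
  rw [S, SP_phi hc h0, ← map_pow, mul_pow, map_mul, HahnSeries.ofPowerSeries_X_pow, ← map_pow, phi,
    ← pow_mul]

theorem S_neg {c : ℕ} (hc : c = 1 ∨ c = 3) (h0 : 8 * c ≠ 0) (s : ℕ) :
    S c ^ (-(s : ℤ)) = HahnSeries.single (-(s : ℤ)) 1 * HahnSeries.ofPowerSeries ℤ (ZMod 2)
      (PowerSeries.expand (8 * c) h0 (P1 ^ (3 / c * s))) := by
  rw [zpow_neg, zpow_natCast, S_pow hc h0]
  refine inv_eq_of_mul_eq_one_right ?_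
  rw [mul_mul_mul_comm, HahnSeries.single_mul_single, ← map_mul, ← map_mul, ← mul_pow,
    mul_comm pent, P1_mul_pent, one_pow, map_one, map_one, mul_one, add_neg_cancel, mul_one]
  rfl

theorem S_zpow {c : ℕ} (hc : c = 1 ∨ c = 3) (h0 : 8 * c ≠ 0) (j : ℤ) :
    ∃ W : S2, PowerSeries.constantCoeff W = 1 ∧ S c ^ j = HahnSeries.single j 1 *
      HahnSeries.ofPowerSeries ℤ (ZMod 2) (PowerSeries.expand (8 * c) h0 W) := by
  obtain ⟨s, rfl | rfl⟩ := Int.eq_nat_or_neg j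
  · exact ⟨_, by rw [map_pow, pent_const, one_pow], (zpow_natCast _ _).trans (S_pow hc h0 s)⟩
  · refine ⟨_, ?_, S_neg hc h0 s⟩
    have := congrArg PowerSeries.constantCoeff P1_mul_pent
    rw [map_mul, pent_const, mul_one, map_one] at this
    rw [map_pow, this, one_pow]

theorem coeff_form {q : ℕ} (h0 : q ≠ 0) (j : ℤ) (W : S2) (n : ℕ) :
    (HahnSeries.single j 1 * HahnSeries.ofPowerSeries ℤ (ZMod 2)
      (PowerSeries.expand q h0 W)).coeff (((q * n : ℕ) : ℤ) + j) = W.coeff n := by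
  rw [HahnSeries.coeff_single_mul_add, one_mul, HahnSeries.ofPowerSeries_apply_coeff,
    PowerSeries.coeff_expand_mul]

theorem coeff_zero_sq (r : ℤ) (G : S2) :
    ((HahnSeries.single r 1 * HahnSeries.ofPowerSeries ℤ (ZMod 2) G) ^ 2).coeff 0 =
      (HahnSeries.single r 1 * HahnSeries.ofPowerSeries ℤ (ZMod 2) G).coeff 0 := by
  rw [mul_pow, HahnSeries.single_pow, ← map_pow, HahnSeries.coeff_single_mul,
    HahnSeries.coeff_single_mul, one_pow, one_mul, one_mul, coeff_ofPS, coeff_ofPS, sq_map_two]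
  simp only [nsmul_eq_mul, Nat.cast_ofNat]
  by_cases h : 0 - r < 0
  · rw [if_pos h, if_pos (by omega)]
  · rw [if_neg h, if_neg (by omega), if_pos (by omega)]
    congr 2
    omega

end KSp

theorem SP_one : SP 1 = D := by
  ext n
  simp only [SP, PowerSeries.coeff_mk, coeff_D, mul_one, Nat.coprime_two_right]

theorem SP_eq {c : ℕ} (hc : c = 1 ∨ c = 3) (h0 : c ≠ 0) :
    SP c = PowerSeries.X * PowerSeries.expand c h0 (pent ^ (24 / c)) := by
  have h1 : pent ^ (24 / c) = PowerSeries.expand 8 (by norm_num) (phi c) := by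
    rw [← show phi c ^ 2 ^ 3 = PowerSeries.expand 8 _ _ from pow_two_pow (phi c) 3, phi, ← pow_mul]
    rcases hc with rfl | rfl <;> rfl
  rw [h1, ← PowerSeries.expand_mul, KSp.SP_phi hc (by omega)]
  simp only [mul_comm c 8]

theorem SP_pow_self {c : ℕ} (hc : c = 1 ∨ c = 3) (h0 : c ≠ 0) :
    SP c ^ c = PowerSeries.expand c h0 D := by
  rw [SP_eq hc h0, ← X_mul_pent_pow, map_mul, PowerSeries.expand_X, mul_pow, ← map_pow, ← pow_mul]
  rcases hc with rfl | rfl <;> rfl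

theorem S_ne_zero {c : ℕ} (hc : c = 1 ∨ c = 3) : S c ≠ 0 := by
  intro h
  have := KSp.coeff_form (q := 8 * c) (by omega) ((1 : ℕ) : ℤ) (pent ^ (3 / c * 1)) 0
  rw [← KSp.S_pow hc, h, PowerSeries.coeff_zero_eq_constantCoeff_apply, map_pow, pent_const] at this
  simp at this

theorem coeff_S_zpow_self {c : ℕ} (hc : c = 1 ∨ c = 3) (j : ℤ) : (S c ^ j).coeff j = 1 := by
  obtain ⟨W, hW, h⟩ := KSp.S_zpow hc (by omega) j
  have := KSp.coeff_form (q := 8 * c) (by omega) j W 0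
  rwa [← h, mul_zero, Nat.cast_zero, zero_add, PowerSeries.coeff_zero_eq_constantCoeff_apply,
    hW] at this

theorem supp_S_zpow {c : ℕ} (hc : c = 1 ∨ c = 3) {j n : ℤ} (h : (S c ^ j).coeff n ≠ 0) :
    j ≤ n ∧ n ≡ j [ZMOD (8 * c)] := by
  obtain ⟨W, -, h1⟩ := KSp.S_zpow hc (by omega) j
  rw [h1, HahnSeries.coeff_single_mul, one_mul, KSp.coeff_ofPS] at h
  split_ifs at h with h2
  · exact absurd rfl h
  · have h3 : 8 * c ∣ (n - j).natAbs :=
      by_contra fun h3 => h (PowerSeries.coeff_expand_of_not_dvd _ _ _ h3)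
    refine ⟨by omega, (Int.modEq_iff_dvd.2 ?_).symm⟩
    exact_mod_cast Int.natCast_dvd.2 h3

theorem coeff_zero_S_zpow {c : ℕ} (hc : c = 1 ∨ c = 3) {j : ℤ} (hj : j ≠ 0) :
    (S c ^ j).coeff 0 = 0 := by
  induction h : j.natAbs using Nat.strong_induction_on generalizing j with
  | _ k ih =>
    rcases Int.even_or_odd' j with ⟨r, rfl | rfl⟩
    · obtain ⟨W, -, h1⟩ := KSp.S_zpow hc (by omega) r
      have h2 := KSp.coeff_zero_sq r (PowerSeries.expand (8 * c) (by omega) W)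
      rw [← h1, ← zpow_natCast, ← zpow_mul, mul_comm] at h2
      exact h2.trans (ih r.natAbs (by omega) (by omega) rfl)
    · by_contra h1
      obtain ⟨m, hm⟩ := (supp_S_zpow hc h1).2.dvd
      have : 8 * (c : ℤ) * m = 2 * (4 * c * m) := by ring
      omega

theorem supp_Sp {c : ℕ} (hc : c = 1 ∨ c = 3) {J : Set ℤ} {f : L2} (hf : f ∈ Sp c J) {n : ℤ}
    (h : f.coeff n ≠ 0) : ∃ j ∈ J, j ≤ n ∧ n ≡ j [ZMOD (8 * c)] := by
  induction hf using Submodule.span_induction with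
  | mem x hx =>
    obtain ⟨j, hj, rfl⟩ := hx
    exact ⟨j, hj, supp_S_zpow hc h⟩
  | zero => exact absurd rfl h
  | add x y _ _ hx hy =>
    by_cases h1 : x.coeff n = 0
    · refine hy fun h2 => h ?_
      rw [HahnSeries.coeff_add, h1, h2, add_zero]
    · exact hx h1
  | smul a x _ hx =>
    refine hx fun h2 => h ?_
    rw [HahnSeries.coeff_smul, h2, smul_zero]

theorem KSp.coeff_min {c : ℕ} (hc : c = 1 ∨ c = 3) {ι : Type*} (s : Finset ι) (φ : ι → ℤ)
    (l : ι → ZMod 2) {i₀ : ι} (hi : i₀ ∈ s)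
    (h : ∀ i ∈ s, φ i ≤ φ i₀ → φ i₀ ≡ φ i [ZMOD (8 * c)] → i = i₀) :
    (∑ i ∈ s, l i • S c ^ φ i).coeff (φ i₀) = l i₀ := by
  rw [HahnSeries.coeff_sum, sum_eq_single_of_mem i₀ hi, HahnSeries.coeff_smul,
    coeff_S_zpow_self hc, smul_eq_mul, mul_one]
  intro i hi' hne
  rw [HahnSeries.coeff_smul, smul_eq_mul]
  refine mul_eq_zero_of_right _ (by_contra fun h1 => ?_)
  exact hne (h i hi' (supp_S_zpow hc h1).1 (supp_S_zpow hc h1).2)

theorem KSp.ofPS_aeval (c : ℕ) (P : R2) :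
    HahnSeries.ofPowerSeries ℤ (ZMod 2) (Polynomial.aeval (SP c) P) =
      ∑ e ∈ P.support, P.coeff e • S c ^ (e : ℤ) := by
  conv_lhs => rw [P.as_sum_support]
  rw [map_sum, map_sum]
  refine sum_congr rfl fun e _ => ?_
  rw [Polynomial.aeval_monomial, map_mul, map_pow, zpow_natCast, PowerSeries.algebraMap_apply,
    HahnSeries.ofPowerSeries_C, HahnSeries.C_mul_eq_smul]
  rfl

theorem Sp_refine {c : ℕ} (hc : c = 1 ∨ c = 3) {J : Set ℤ} {f : L2} (hf : f ∈ Sp c J) :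
    f ∈ Sp c {j | j ∈ J ∧ ∃ n, f.coeff n ≠ 0 ∧ n ≤ j ∧ n ≡ j [ZMOD (8 * c)]} := by
  classical
  obtain ⟨l, hl, hf⟩ := (Finsupp.mem_span_image_iff_linearCombination _).1 hf
  refine (Finsupp.mem_span_image_iff_linearCombination _).2 ⟨l, fun j hj => ⟨hl hj, ?_⟩, hf⟩
  obtain ⟨n, hn, hmin⟩ := (l.support.filter fun i => i ≡ j [ZMOD (8 * c)]).exists_min_image id
    ⟨j, mem_filter.2 ⟨hj, Int.ModEq.refl _⟩⟩
  rw [mem_filter] at hn
  refine ⟨n, ?_, hmin j (mem_filter.2 ⟨hj, Int.ModEq.refl _⟩), hn.2⟩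
  have := KSp.coeff_min hc l.support id l hn.1 fun i hi h1 h2 =>
    le_antisymm h1 (hmin i (mem_filter.2 ⟨hi, h2.symm.trans hn.2⟩))
  rw [← hf, Finsupp.linearCombination_apply, Finsupp.sum]
  exact fun h => Finsupp.mem_support_iff.1 hn.1 (this.symm.trans h)

theorem coeff_S_sparse {c : ℕ} (hc : c = 1 ∨ c = 3) (u : ℕ) (n : ℤ) :
    (S c ^ (c * 2 ^ u)).coeff n =
      open Classical in if ∃ a : ℕ, Odd a ∧ n = c * 2 ^ u * a ^ 2 then 1 else 0 := by
  classical
  have h0 : c ≠ 0 := by omega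
  rw [S, ← map_pow, pow_mul, SP_pow_self hc h0, pow_two_pow, ← PowerSeries.expand_mul,
    KSp.coeff_ofPS]
  by_cases h : n < 0
  · rw [if_pos h, if_neg]
    rintro ⟨a, -, rfl⟩
    exact absurd h (not_lt.2 (by positivity))
  obtain ⟨m, rfl⟩ := Int.eq_ofNat_of_zero_le (not_lt.1 h)
  have hq : 0 < 2 ^ u * c := by positivity
  have key : ∀ a : ℕ, (m : ℤ) = c * 2 ^ u * a ^ 2 ↔ m = 2 ^ u * c * (a * a) := fun a => by
    rw [mul_comm (c : ℤ), sq]
    exact_mod_cast Iff.rfl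
  rw [if_neg h, Int.natAbs_natCast, PowerSeries.coeff_expand]
  by_cases h1 : 2 ^ u * c ∣ m
  · obtain ⟨k, rfl⟩ := h1
    rw [if_pos (dvd_mul_right _ _), Nat.mul_div_cancel_left _ hq, coeff_D]
    refine if_congr ⟨?_, ?_⟩ rfl rfl
    · rintro ⟨h2, a, rfl⟩
      exact ⟨a, (Nat.odd_mul.1 h2).1, (key a).2 rfl⟩
    · rintro ⟨a, h2, h3⟩
      obtain rfl := Nat.eq_of_mul_eq_mul_left hq ((key a).1 h3)
      exact ⟨h2.mul h2, a, rfl⟩
  · rw [if_neg h1, if_neg]
    rintro ⟨a, -, h3⟩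
    exact h1 ⟨_, (key a).1 h3⟩

theorem coeff_S_neg {c t s : ℕ} (hc : c = 1 ∨ c = 3) (ht : c * t = 3 * s) (n : ℕ) :
    (S c ^ (-(s : ℤ))).coeff (8 * c * n - s) = (pt t n : ZMod 2) := by
  have h1 : 3 / c * s = t := by rcases hc with rfl | rfl <;> omega
  have := KSp.coeff_form (q := 8 * c) (by omega) (-(s : ℤ)) (P1 ^ (3 / c * s)) n
  rw [← KSp.S_neg hc, h1, coeff_P1_pow] at this
  rw [← this, sub_eq_add_neg]
  push_cast
  rfl

/-- Elements of the span of nonnegative powers are polynomials in `SP c`. -/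
theorem mem_Sp_iff_poly {c : ℕ} (hc : c = 1 ∨ c = 3) {J : Set ℤ} (hJ : ∀ j ∈ J, 0 ≤ j) (f : L2) :
    f ∈ Sp c J ↔ ∃ P : R2, (∀ e, P.coeff e ≠ 0 → (e : ℤ) ∈ J) ∧
      f = HahnSeries.ofPowerSeries ℤ (ZMod 2) (Polynomial.aeval (SP c) P) := by
  have := hc
  constructor
  · intro hf
    induction hf using Submodule.span_induction with
    | mem x hx =>
      obtain ⟨j, hj, rfl⟩ := hx
      obtain ⟨e, rfl⟩ := Int.eq_ofNat_of_zero_le (hJ j hj)
      refine ⟨Polynomial.X ^ e, fun e' he => ?_, ?_⟩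
      · rw [Polynomial.coeff_X_pow] at he
        split_ifs at he with h
        · rwa [h]
        · exact absurd rfl he
      · simp only [map_pow, Polynomial.aeval_X, zpow_natCast, S]
    | zero => exact ⟨0, fun e he => absurd rfl he, by rw [map_zero, map_zero]⟩
    | add x y _ _ hx hy =>
      obtain ⟨P, hP, rfl⟩ := hx
      obtain ⟨Q, hQ, rfl⟩ := hy
      refine ⟨P + Q, fun e he => ?_, by rw [map_add, map_add]⟩
      by_cases h1 : P.coeff e = 0
      · refine hQ e fun h2 => he ?_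
        rw [Polynomial.coeff_add, h1, h2, add_zero]
      · exact hP e h1
    | smul a x _ hx =>
      obtain ⟨P, hP, rfl⟩ := hx
      refine ⟨Polynomial.C a * P, fun e he => hP e fun h2 => he ?_, ?_⟩
      · rw [Polynomial.coeff_C_mul, h2, mul_zero]
      · rw [map_mul, map_mul, Polynomial.aeval_C, PowerSeries.algebraMap_apply,
          HahnSeries.ofPowerSeries_C, HahnSeries.C_mul_eq_smul]
        rfl
  · rintro ⟨P, hP, rfl⟩
    rw [KSp.ofPS_aeval]
    exact Submodule.sum_mem _ fun e he => Submodule.smul_mem _ _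
      (Submodule.subset_span ⟨e, hP e (Polynomial.mem_support_iff.1 he), rfl⟩)

theorem aeval_SP_inj {c : ℕ} (hc : c = 1 ∨ c = 3) :
    Function.Injective (Polynomial.aeval (SP c) : R2 → S2) := by
  have := hc
  rw [injective_iff_map_eq_zero]
  intro P hP
  by_contra h0
  obtain ⟨e, he, hmin⟩ := P.support.exists_min_image id (Polynomial.support_nonempty.2 h0)
  have := KSp.coeff_min hc P.support (fun e => (e : ℤ)) P.coeff he fun i hi h1 _ =>
    le_antisymm (by exact_mod_cast h1) (hmin i hi)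
  rw [← KSp.ofPS_aeval, hP, map_zero] at this
  exact Polynomial.mem_support_iff.1 he this.symm

end Pool.Agent.Lib.MP_a3366f_nt.Ker
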