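import Mathlib
import Pool.Agent.Lib.MP_a3366f_nt.KSpan

/-!
Components of a Laurent series modulo two along residue classes of the exponent modulo powers of
two, and theta series of arithmetic progressions.
-/

open Finset

namespace Pool.Agent.Lib.MP_a3366f_nt.Zt

open Ker

theorem charL2 : CharP L2 2 := charP_of_injective_algebraMap (algebraMap (ZMod 2) L2).injective 2

/-- The part of `f` with exponents congruent to `a` modulo `2 ^ k`. -/
noncomputable def cmp (k : ℕ) (a : ℤ) : L2 →+ L2 where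
  toFun f :=
    { coeff := fun n => if n ≡ a [ZMOD 2 ^ k] then f.coeff n else 0
      isPWO_support' := f.isPWO_support.mono fun n hn h => hn (by simp [h]) }
  map_zero' := by ext n; simp
  map_add' f g := by
    ext n
    simp only [HahnSeries.coeff_add]
    split_ifs <;> simp

theorem coeff_cmp (k : ℕ) (a : ℤ) (f : L2) (n : ℤ) :
    (cmp k a f).coeff n = if n ≡ a [ZMOD 2 ^ k] then f.coeff n else 0 := rfl

/-- All exponents of `f` are congruent to `a` modulo `2 ^ k`. -/
def Cls (k : ℕ) (a : ℤ) (f : L2) : Prop := ∀ n, f.coeff n ≠ 0 → n ≡ a [ZMOD 2 ^ k]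

theorem cls_cmp (k : ℕ) (a : ℤ) (f : L2) : Cls k a (cmp k a f) := fun n hn => by
  by_contra h
  exact hn (by rw [coeff_cmp, if_neg h])

theorem cmp_congr {k : ℕ} {a b : ℤ} (h : a ≡ b [ZMOD 2 ^ k]) (f : L2) : cmp k a f = cmp k b f := by
  ext n
  rw [coeff_cmp, coeff_cmp]
  exact if_congr ⟨fun h1 => h1.trans h, fun h1 => h1.trans h.symm⟩ rfl rfl

theorem Cls.congr {k : ℕ} {a b : ℤ} {f : L2} (hf : Cls k a f) (h : a ≡ b [ZMOD 2 ^ k]) :
    Cls k b f := fun n hn => (hf n hn).trans h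

theorem Cls.mono {k l : ℕ} {a : ℤ} {f : L2} (hf : Cls k a f) (h : l ≤ k) : Cls l a f :=
  fun n hn => (hf n hn).of_dvd (pow_dvd_pow 2 h)

theorem Cls.cmp_eq {k : ℕ} {a b : ℤ} {f : L2} (hf : Cls k b f) (h : b ≡ a [ZMOD 2 ^ k]) :
    cmp k a f = f := by
  ext n
  rw [coeff_cmp]
  split_ifs with h1
  · rfl
  · by_contra h2
    exact h1 ((hf n (Ne.symm h2)).trans h)

theorem Cls.cmp_ne {k : ℕ} {a b : ℤ} {f : L2} (hf : Cls k b f) (h : ¬ b ≡ a [ZMOD 2 ^ k]) :
    cmp k a f = 0 := by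
  ext n
  rw [coeff_cmp]
  split_ifs with h1
  · by_contra h2
    exact h ((hf n h2).symm.trans h1)
  · rfl

theorem Cls.mul {k : ℕ} {a b : ℤ} {f g : L2} (hf : Cls k a f) (hg : Cls k b g) :
    Cls k (a + b) (f * g) := fun n hn => by
  obtain ⟨x, hx, y, hy, rfl⟩ := HahnSeries.support_mul_subset (show n ∈ (f * g).support from hn)
  exact (hf x hx).add (hg y hy)

theorem cls_one (k : ℕ) : Cls k 0 1 := fun n hn => by
  rw [HahnSeries.coeff_one] at hn
  split_ifs at hn with h
  · rw [h]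
  · exact absurd rfl hn

theorem Cls.pow {k : ℕ} {a : ℤ} {f : L2} (hf : Cls k a f) (m : ℕ) : Cls k (m * a) (f ^ m) := by
  induction m with
  | zero => simpa using cls_one k
  | succ m ih =>
    rw [pow_succ, Nat.cast_succ, add_mul, one_mul]
    exact ih.mul hf

theorem Cls.add {k : ℕ} {a : ℤ} {f g : L2} (hf : Cls k a f) (hg : Cls k a g) :
    Cls k a (f + g) := fun n hn => by
  by_cases h : f.coeff n = 0
  · refine hg n fun h1 => hn ?_
    rw [HahnSeries.coeff_add, h, h1, add_zero]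
  · exact hf n h

theorem sum_cmp (k : ℕ) (f : L2) : ∑ a ∈ Ico (0 : ℤ) (2 ^ k), cmp k a f = f := by
  ext n
  have h0 : (0 : ℤ) < 2 ^ k := by positivity
  rw [HahnSeries.coeff_sum, sum_eq_single_of_mem (n % 2 ^ k), coeff_cmp,
    if_pos (Int.mod_modEq n _).symm]
  · exact mem_Ico.2 ⟨Int.emod_nonneg _ h0.ne', Int.emod_lt_of_pos _ h0⟩
  · intro b hb hne
    rw [coeff_cmp, if_neg]
    intro h
    rw [mem_Ico] at hb
    exact hne (by rw [h, Int.emod_eq_of_lt hb.1 hb.2])

theorem cmp_mul {k : ℕ} {b : ℤ} {g : L2} (hg : Cls k b g) (a : ℤ) (f : L2) :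
    cmp k (a + b) (f * g) = cmp k a f * g := by
  have h1 : f * g = cmp k a f * g + (f - cmp k a f) * g := by ring
  rw [h1, map_add, ((cls_cmp k a f).mul hg).cmp_eq rfl, add_eq_left]
  ext n
  rw [coeff_cmp]
  split_ifs with h
  · by_contra h2
    obtain ⟨x, hx, y, hy, rfl⟩ := HahnSeries.support_mul_subset
      (show n ∈ ((f - cmp k a f) * g).support from h2)
    have h3 : x ≡ a [ZMOD 2 ^ k] := (hg y hy).add_right_cancel h
    exact hx (by rw [HahnSeries.coeff_sub, coeff_cmp, if_pos h3, sub_self])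
  · rfl

theorem cls_of_mul {k : ℕ} {a b : ℤ} {f g : L2} (hg : Cls k b g) (h0 : g ≠ 0)
    (h : Cls k (a + b) (f * g)) : Cls k a f := by
  have h1 := cmp_mul hg a f
  rw [h.cmp_eq rfl] at h1
  rw [mul_right_cancel₀ h0 h1]
  exact cls_cmp k a f

theorem coeff_sq (f : L2) (n : ℤ) : (f ^ 2).coeff n = if 2 ∣ n then f.coeff (n / 2) else 0 := by
  obtain ⟨r, G, rfl⟩ : ∃ (r : ℤ) (G : S2),
      f = HahnSeries.single r 1 * HahnSeries.ofPowerSeries ℤ (ZMod 2) G :=
    ⟨_, _, f.single_order_mul_powerSeriesPart.symm⟩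
  rw [mul_pow, HahnSeries.single_pow, ← map_pow, HahnSeries.coeff_single_mul,
    HahnSeries.coeff_single_mul, one_pow, one_mul, one_mul, KSp.coeff_ofPS, KSp.coeff_ofPS,
    sq_map_two]
  simp only [nsmul_eq_mul, Nat.cast_ofNat]
  by_cases h1 : 2 ∣ n
  · rw [if_pos h1]
    by_cases h : n / 2 - r < 0
    · rw [if_pos h, if_pos (by omega)]
    · rw [if_neg h, if_neg (by omega), if_pos (by omega)]
      congr 2
      omega
  · rw [if_neg h1, if_neg (show ¬ 2 ∣ (n - 2 * r).natAbs by omega), ite_self]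

theorem Cls.sq {k : ℕ} {a : ℤ} {f : L2} (hf : Cls k a f) : Cls (k + 1) (2 * a) (f ^ 2) :=
  fun n hn => by
  rw [coeff_sq] at hn
  split_ifs at hn with h
  · obtain ⟨m, rfl⟩ := h
    rw [Int.mul_ediv_cancel_left _ two_ne_zero] at hn
    rw [pow_succ']
    exact (hf m hn).mul_left'
  · exact absurd rfl hn

theorem cls_of_sq {k : ℕ} {f : L2} (hf : Cls (k + 1) 0 (f ^ 2)) : Cls k 0 f := fun n hn => by
  have h := hf (2 * n) (by
    rwa [coeff_sq, if_pos (dvd_mul_right _ _), Int.mul_ediv_cancel_left _ two_ne_zero])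
  rw [Int.modEq_zero_iff_dvd, pow_succ'] at h
  exact Int.modEq_zero_iff_dvd.2 (Int.dvd_of_mul_dvd_mul_left two_ne_zero h)

theorem cls_pow_two_pow (k : ℕ) (f : L2) : Cls k 0 (f ^ 2 ^ k) := by
  induction k with
  | zero => exact fun n _ => by simpa using Int.modEq_one
  | succ k ih =>
    rw [pow_succ, pow_mul]
    simpa using ih.sq

/-- The generating series of the values of `Q`. -/
noncomputable def G {ι : Type} (Q : ι → ℤ) : L2 :=
  HahnSeries.ofSuppBddBelow (fun n => if 0 ≤ n then ∑ᶠ i, if Q i = n then (1 : ZMod 2) else 0 else 0)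
    ⟨0, fun _ hn => by_contra fun h => hn (if_neg h)⟩

theorem coeff_G {ι : Type} (Q : ι → ℤ) (n : ℤ) :
    (G Q).coeff n = if 0 ≤ n then ∑ᶠ i, if Q i = n then (1 : ZMod 2) else 0 else 0 := rfl

/-- Nonnegative values, finite fibres. -/
def Ok {ι : Type} (Q : ι → ℤ) : Prop := (∀ i, 0 ≤ Q i) ∧ ∀ n, {i | Q i = n}.Finite

/-- The family of monomials attached to `Q`. -/
noncomputable def fam {ι : Type} {Q : ι → ℤ} (h : Ok Q) :
    HahnSeries.SummableFamily ℤ (ZMod 2) ι where
  toFun i := HahnSeries.single (Q i) 1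
  isPWO_iUnion_support' := by
    refine (BddBelow.isWF ⟨0, fun n hn => ?_⟩).isPWO
    obtain ⟨i, hi⟩ := Set.mem_iUnion.1 hn
    rw [HahnSeries.eq_of_mem_support_single hi]
    exact h.1 i
  finite_co_support' n := (h.2 n).subset fun i hi =>
    (HahnSeries.eq_of_mem_support_single (show n ∈ HahnSeries.support _ from hi)).symm

theorem G_eq {ι : Type} {Q : ι → ℤ} (h : ∀ i, 0 ≤ Q i) (s : HahnSeries.SummableFamily ℤ (ZMod 2) ι)
    (hs : ∀ i, s i = HahnSeries.single (Q i) 1) : G Q = s.hsum := by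
  ext n
  rw [coeff_G, HahnSeries.SummableFamily.coeff_hsum]
  simp only [hs, HahnSeries.coeff_single, eq_comm (a := n)]
  split_ifs with h1
  · rfl
  · refine (finsum_eq_zero_of_forall_eq_zero fun i => if_neg fun h2 => h1 ?_).symm
    exact h2 ▸ h i

theorem G_mul {ι κ : Type} {Q : ι → ℤ} {Q' : κ → ℤ} (h : Ok Q) (h' : Ok Q') :
    G Q * G Q' = G fun p : ι × κ => Q p.1 + Q' p.2 := by
  rw [G_eq h.1 (fam h) fun _ => rfl, G_eq h'.1 (fam h') fun _ => rfl,
    ← HahnSeries.SummableFamily.hsum_mul,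
    G_eq (fun p => add_nonneg (h.1 _) (h'.1 _)) ((fam h).mul (fam h'))]
  intro p
  show HahnSeries.single (Q p.1) (1 : ZMod 2) * HahnSeries.single (Q' p.2) 1 = _
  rw [HahnSeries.single_mul_single, one_mul]

theorem G_equiv {ι κ : Type} (e : ι ≃ κ) {Q : ι → ℤ} {Q' : κ → ℤ} (h : ∀ i, Q i = Q' (e i)) :
    G Q = G Q' := by
  ext n
  simp only [coeff_G, h]
  rw [finsum_comp_equiv e (f := fun j => if Q' j = n then (1 : ZMod 2) else 0)]

theorem G_sq {ι : Type} (Q : ι → ℤ) : G Q ^ 2 = G fun i => 2 * Q i := by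
  ext n
  rw [coeff_sq, coeff_G, coeff_G]
  by_cases h : 2 ∣ n
  · obtain ⟨m, rfl⟩ := h
    rw [if_pos (dvd_mul_right _ _), Int.mul_ediv_cancel_left _ two_ne_zero]
    simp only [mul_eq_mul_left_iff, OfNat.ofNat_ne_zero, or_false, Nat.ofNat_pos,
      mul_nonneg_iff_of_pos_left]
  · rw [if_neg h, finsum_eq_zero_of_forall_eq_zero fun i => if_neg (by omega), ite_self]

theorem G_split {Q : ℤ → ℤ} (h : Ok Q) :
    G Q = G (fun i => Q (2 * i)) + G fun i => Q (2 * i + 1) := by
  ext n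
  rw [HahnSeries.coeff_add, coeff_G, coeff_G, coeff_G]
  split_ifs with h1
  · have h2 : (Function.support fun i => if Q i = n then (1 : ZMod 2) else 0).Finite :=
      (h.2 n).subset fun i hi => by_contra fun h3 => hi (if_neg h3)
    rw [← finsum_mem_range (f := fun i => if Q i = n then (1 : ZMod 2) else 0)
        (g := fun i : ℤ => 2 * i) fun x y h => by simpa using h,
      ← finsum_mem_range (f := fun i => if Q i = n then (1 : ZMod 2) else 0)
        (g := fun i : ℤ => 2 * i + 1) fun x y h => by simpa using h,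
      ← finsum_mem_union' _ (h2.inter_of_right _) (h2.inter_of_right _), ← finsum_mem_univ]
    · congr! 3 with i
      refine ⟨fun _ => ?_, fun _ => trivial⟩
      rcases Int.even_or_odd' i with ⟨m, h | h⟩
      · exact Or.inl ⟨m, h.symm⟩
      · exact Or.inr ⟨m, h.symm⟩
    · rw [Set.disjoint_left]
      rintro _ ⟨x, rfl⟩ ⟨y, hy⟩
      dsimp only at hy
      omega
  · rw [add_zero]

theorem supp_G {ι : Type} {Q : ι → ℤ} {n : ℤ} (h : (G Q).coeff n ≠ 0) : ∃ i, Q i = n := by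
  by_contra h1
  refine h ?_
  rw [coeff_G, finsum_eq_zero_of_forall_eq_zero fun i => if_neg fun h2 => h1 ⟨i, h2⟩, ite_self]

/-- The theta series of the progression `b + M * i`, in the variable `q ^ c`. -/
noncomputable def th (c M b : ℤ) : L2 := G fun i : ℤ => c * (b + M * i) ^ 2

theorem ok_th {c M : ℤ} (hc : 0 < c) (hM : M ≠ 0) (b : ℤ) :
    Ok fun i : ℤ => c * (b + M * i) ^ 2 := by
  refine ⟨fun i => by positivity, fun n => (Set.finite_Icc (-(|b| + n)) (|b| + n)).subset ?_⟩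
  intro i (hi : c * (b + M * i) ^ 2 = n)
  have h1 : |b + M * i| ≤ n := by
    have h2 : |b + M * i| ≤ (b + M * i) ^ 2 := by
      rw [← sq_abs]; exact Int.le_self_sq _
    nlinarith [sq_nonneg (b + M * i)]
  have h2 : |i| ≤ |M * i| := by
    rw [abs_mul]
    exact le_mul_of_one_le_left (abs_nonneg _) (Int.one_le_abs hM)
  have h3 : |M * i| ≤ |b + M * i| + |b| := by
    simpa using abs_sub (b + M * i) b
  exact abs_le.1 (by linarith)

theorem th_shift (c M b : ℤ) : th c M (b + M) = th c M b :=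
  G_equiv (Equiv.addRight 1) fun i => by simp only [Equiv.coe_addRight]; ring

theorem th_neg (c M b : ℤ) : th c M (-b) = th c M b :=
  G_equiv (Equiv.neg ℤ) fun i => by simp only [Equiv.neg_apply]; ring

theorem th_sq (c M b : ℤ) : th c M b ^ 2 = th (2 * c) M b := by
  rw [th, G_sq, th]
  simp only [mul_assoc]

theorem th_add {c M : ℤ} (hc : 0 < c) (hM : M ≠ 0) (b : ℤ) :
    th c (2 * M) b + th c (2 * M) (b + M) = th c M b := by
  rw [th, th, th, G_split (ok_th hc hM b)]
  congr 2 <;> funext i <;> ring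

/-- The reindexing behind the product formula. -/
def rix : ℤ × ℤ ≃ ℤ × ℤ where
  toFun p := if p.1 % 2 = 0 then (p.1 / 2 - p.2, p.1 / 2 + p.2) else (p.1 / 2 + p.2 + 1, p.1 / 2 - p.2)
  invFun p := (p.1 + p.2, if (p.1 + p.2) % 2 = 0 then (p.2 - p.1) / 2 else (p.1 - p.2) / 2)
  left_inv p := by
    dsimp only
    split_ifs <;> ext <;> dsimp only at * <;> omega
  right_inv p := by
    dsimp only
    split_ifs <;> ext <;> dsimp only at * <;> omega

theorem th_mul {c h : ℤ} (hc : 0 < c) (hh : h ≠ 0) (b : ℤ) :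
    th c (4 * h) b * th c (4 * h) (b + 2 * h) = (th c (2 * h) (b + h) * th (c * h ^ 2) 4 1) ^ 2 := by
  rw [th, th, th, th, G_mul (ok_th hc (by omega) _) (ok_th hc (by omega) _),
    G_mul (ok_th hc (by omega) _) (ok_th (by positivity) (by omega) _), G_sq]
  refine (G_equiv rix fun p => ?_).symm
  obtain ⟨i, j⟩ := p
  rcases Int.even_or_odd' i with ⟨m, rfl | rfl⟩
  · have : rix (2 * m, j) = (m - j, m + j) := by
      simp only [rix, Equiv.coe_fn_mk]
      rw [if_pos (by omega), show 2 * m / 2 = m by omega]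
    rw [this]
    ring
  · have : rix (2 * m + 1, j) = (m + j + 1, m - j) := by
      simp only [rix, Equiv.coe_fn_mk]
      rw [if_neg (by omega), show (2 * m + 1) / 2 = m by omega]
    rw [this]
    ring

theorem th_four {c : ℕ} (hc : c = 1 ∨ c = 3) : th c 4 1 = S c ^ c := by
  classical
  ext n
  have h1 := coeff_S_sparse hc 0 n
  simp only [pow_zero, mul_one] at h1
  have h0 : (0 : ℤ) < c := by omega
  rw [h1, th, coeff_G]
  split_ifs with h2 h3 h3
  · obtain ⟨a, ⟨m, rfl⟩, rfl⟩ := h3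
    obtain ⟨i, hi⟩ : ∃ i : ℤ, (1 + 4 * i) ^ 2 = ((2 * m + 1 : ℕ) : ℤ) ^ 2 := by
      rcases Nat.even_or_odd' m with ⟨l, rfl | rfl⟩
      · exact ⟨l, by push_cast; ring⟩
      · exact ⟨-l - 1, by push_cast; ring⟩
    rw [finsum_eq_single _ i, if_pos (by rw [hi])]
    intro j hj
    rw [if_neg]
    intro h4
    rw [← hi, mul_right_inj' h0.ne', sq_eq_sq_iff_eq_or_eq_neg] at h4
    omega
  · refine finsum_eq_zero_of_forall_eq_zero fun i => if_neg fun h4 => h3 ⟨(1 + 4 * i).natAbs, ?_, ?_⟩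
    · rw [Int.natAbs_odd]
      exact ⟨2 * i, by ring⟩
    · rw [← h4, Int.natCast_natAbs, sq_abs]
  · obtain ⟨a, -, rfl⟩ := h3
    exact absurd (by positivity) h2
  · rfl

theorem th_pow (c M b : ℤ) (u : ℕ) : th c M b ^ 2 ^ u = th (c * 2 ^ u) M b := by
  induction u with
  | zero => simp
  | succ u ih => rw [pow_succ, pow_mul, ih, th_sq, pow_succ]; congr 1; ring

end Pool.Agent.Lib.MP_a3366f_nt.Zt
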