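import Mathlib
import Pool.Agent.Lib.MP_a3366f_nt.ZBase

/-!
The tower of quadratic extensions generated by the theta series of progressions modulo powers of
two, over the field generated by the discriminant modulo two.
-/

open Finset

namespace Pool.Agent.Lib.MP_a3366f_nt.Zt

open Ker

/-- The discriminant modulo two in the variable `q ^ c`. -/
noncomputable def Dl (c : ℕ) : L2 := S c ^ c

/-- Its inverse. -/
noncomputable def sg (c : ℕ) : L2 := (Dl c)⁻¹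

/-- The theta series of level `n`. -/
noncomputable def Th (c n : ℕ) (b : ℤ) : L2 := th c (4 * 2 ^ n) b

/-- Polynomials in `sg c`. -/
noncomputable abbrev AA (c : ℕ) : Subalgebra (ZMod 2) L2 := Algebra.adjoin (ZMod 2) {sg c}

/-- Rational functions in `sg c`. -/
noncomputable abbrev F0 (c : ℕ) : IntermediateField (ZMod 2) L2 :=
  IntermediateField.adjoin (ZMod 2) {sg c}

/-- The field generated by all theta series. -/
noncomputable abbrev KK (c : ℕ) : IntermediateField (F0 c) L2 :=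
  IntermediateField.adjoin (F0 c) {y | ∃ n b, Odd b ∧ y = Th c n b}

/-- Its elements integral over the polynomials in `sg c`. -/
noncomputable def OO (c : ℕ) : Subring L2 :=
  (KK c).toSubring ⊓ (integralClosure (AA c) L2).toSubring

/-- The pole order needed at level `n`. -/
def EE : ℕ → ℕ
  | 0 => 1
  | n + 1 => EE n + 4 * 4 ^ n

theorem EE_le (n : ℕ) : EE n ≤ 2 * 4 ^ n := by
  induction n with
  | zero => simp [EE]
  | succ n ih => rw [EE, pow_succ]; omega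

variable {c : ℕ}

theorem Dl_ne (hc : c = 1 ∨ c = 3) : Dl c ≠ 0 := pow_ne_zero _ (S_ne_zero hc)

theorem sg_ne (hc : c = 1 ∨ c = 3) : sg c ≠ 0 := inv_ne_zero (Dl_ne hc)

theorem sg_mul (hc : c = 1 ∨ c = 3) : sg c * Dl c = 1 := inv_mul_cancel₀ (Dl_ne hc)

theorem sg_pow (c m : ℕ) : sg c ^ m = S c ^ (-((c * m : ℕ) : ℤ)) := by
  rw [sg, Dl, zpow_neg, zpow_natCast, inv_pow, pow_mul]

theorem Th_zero (hc : c = 1 ∨ c = 3) {b : ℤ} (hb : Odd b) : Th c 0 b = Dl c := by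
  have h1 : ∀ m : ℤ, th c 4 (1 + 4 * m) = th c 4 1 := fun m =>
    G_equiv (Equiv.addRight m) fun i => by simp only [Equiv.coe_addRight]; ring
  rw [Th, pow_zero, mul_one, Dl, ← th_four hc]
  obtain ⟨m, rfl⟩ := hb
  rcases Int.even_or_odd' m with ⟨l, rfl | rfl⟩
  · rw [← h1 l]; congr 1; ring
  · rw [← h1 (-l - 1), ← th_neg]; congr 1; ring

theorem Th_per (c n : ℕ) (b : ℤ) : Th c n (b + 4 * 2 ^ n) = Th c n b := th_shift _ _ _

theorem Th_add (hc : c = 1 ∨ c = 3) (n : ℕ) (b : ℤ) :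
    Th c (n + 1) b + Th c (n + 1) (b + 4 * 2 ^ n) = Th c n b := by
  rw [Th, Th, Th, ← th_add (c := c) (by omega) (M := 4 * 2 ^ n) (by positivity) b,
    show (4 : ℤ) * 2 ^ (n + 1) = 2 * (4 * 2 ^ n) by ring]

theorem Th_mul (hc : c = 1 ∨ c = 3) (n : ℕ) (b : ℤ) :
    Th c (n + 1) b * Th c (n + 1) (b + 4 * 2 ^ n) =
      (Th c n (b + 2 * 2 ^ n) * Dl c ^ (4 * 4 ^ n)) ^ 2 := by
  have h := th_mul (c := c) (by omega) (h := 2 * 2 ^ n) (by positivity) b
  rw [show (4 : ℤ) * (2 * 2 ^ n) = 4 * 2 ^ (n + 1) by ring,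
    show (2 : ℤ) * (2 * 2 ^ n) = 4 * 2 ^ n by ring,
    show ((2 : ℤ) * 2 ^ n) ^ 2 = 2 ^ (2 * n + 2) by ring, ← th_pow, th_four hc] at h
  rw [Th, Th, Th, h, Dl, show 2 ^ (2 * n + 2) = 4 * 4 ^ n by rw [pow_add, pow_mul]; ring]

theorem cls_Th (c n : ℕ) (b : ℤ) : Cls (n + 3) (c * b ^ 2) (Th c n b) := fun m hm => by
  obtain ⟨i, rfl⟩ := supp_G hm
  exact (Int.modEq_iff_dvd.2 ⟨c * (b * i + 2 * 2 ^ n * i ^ 2), by ring⟩).symm

theorem odd_sib {b : ℤ} (hb : Odd b) (m : ℤ) : Odd (b + 2 * m) := hb.add_even (even_two_mul m)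

theorem odd_sib' {b : ℤ} (hb : Odd b) (m : ℤ) : Odd (b + 4 * m) :=
  hb.add_even ⟨2 * m, by ring⟩

theorem Th_ne (hc : c = 1 ∨ c = 3) (n : ℕ) : ∀ {b : ℤ}, Odd b → Th c n b ≠ 0 := by
  induction n with
  | zero => exact fun hb => Th_zero hc hb ▸ Dl_ne hc
  | succ n ih =>
    intro b hb
    refine left_ne_zero_of_mul (b := Th c (n + 1) (b + 4 * 2 ^ n)) ?_
    rw [Th_mul hc]
    exact pow_ne_zero _ (mul_ne_zero (ih (odd_sib hb _)) (pow_ne_zero _ (Dl_ne hc)))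

theorem F0_le {y : L2} (hy : y ∈ F0 c) : y ∈ KK c := (KK c).algebraMap_mem ⟨y, hy⟩

theorem AA_le {y : L2} (hy : y ∈ AA c) : y ∈ F0 c :=
  IntermediateField.algebra_adjoin_le_adjoin _ _ hy

theorem sg_AA (c : ℕ) : sg c ∈ AA c := Algebra.self_mem_adjoin_singleton _ _

theorem Dl_F0 (c : ℕ) : Dl c ∈ F0 c := by
  simpa only [sg, inv_inv] using inv_mem (AA_le (sg_AA c))

theorem Th_KK (c n : ℕ) {b : ℤ} (hb : Odd b) : Th c n b ∈ KK c :=
  IntermediateField.subset_adjoin _ _ ⟨n, b, hb, rfl⟩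

theorem AA_OO {y : L2} (hy : y ∈ AA c) : y ∈ OO c :=
  ⟨F0_le (AA_le hy), isIntegral_algebraMap (x := (⟨y, hy⟩ : AA c))⟩

theorem int_quad {R L : Type*} [CommRing R] [Field L] [Algebra R L] {u v x : L}
    (hu : IsIntegral R u) (hv : IsIntegral R v) (h : x ^ 2 + (-u * x + v) = 0) : IsIntegral R x := by
  refine isIntegral_trans (A := integralClosure R L) x
    ⟨Polynomial.X ^ 2 + (Polynomial.C (-⟨u, hu⟩) * Polynomial.X + Polynomial.C ⟨v, hv⟩),
      Polynomial.monic_X_pow_add (Polynomial.degree_linear_le.trans_lt (by norm_num)), ?_⟩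
  simpa using h

theorem Th_OO (hc : c = 1 ∨ c = 3) (n : ℕ) : ∀ {b : ℤ}, Odd b → sg c ^ EE n * Th c n b ∈ OO c := by
  induction n with
  | zero =>
    intro b hb
    rw [Th_zero hc hb, EE, pow_one, sg_mul hc]
    exact one_mem _
  | succ n ih =>
    intro b hb
    refine ⟨mul_mem (pow_mem (F0_le (AA_le (sg_AA c))) _) (Th_KK c _ hb), ?_⟩
    refine int_quad (u := sg c ^ (4 * 4 ^ n) * (sg c ^ EE n * Th c n b))
      (v := (sg c ^ EE n * Th c n (b + 2 * 2 ^ n)) ^ 2)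
      (mul_mem (pow_mem (AA_OO (sg_AA c)) _) (ih hb)).2 (pow_mem (ih (odd_sib hb _)) 2).2 ?_
    have h1 := Th_mul hc n b
    have h2 : (sg c ^ (4 * 4 ^ n) * Dl c ^ (4 * 4 ^ n)) ^ 2 = 1 := by
      rw [← mul_pow, sg_mul hc, one_pow, one_pow]
    rw [← Th_add hc n b, EE, pow_add]
    linear_combination (-(sg c ^ EE n * sg c ^ (4 * 4 ^ n)) ^ 2) * h1 -
      (sg c ^ EE n * Th c n (b + 2 * 2 ^ n)) ^ 2 * h2

theorem Dl_closure (hc : c = 1 ∨ c = 3) (n : ℕ) :
    Dl c ∈ AddSubmonoid.closure {y | ∃ b, Odd b ∧ y = Th c n b} := by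
  induction n with
  | zero => exact AddSubmonoid.subset_closure ⟨1, odd_one, (Th_zero hc odd_one).symm⟩
  | succ n ih =>
    refine AddSubmonoid.closure_le.2 ?_ ih
    rintro _ ⟨b, hb, rfl⟩
    rw [← Th_add hc]
    exact add_mem (AddSubmonoid.subset_closure ⟨b, hb, rfl⟩)
      (AddSubmonoid.subset_closure ⟨_, odd_sib' hb _, rfl⟩)

theorem cmp_Dl (hc : c = 1 ∨ c = 3) {k n : ℕ} (h : k ≤ n + 3) (a : ℤ) :
    sg c ^ EE n * cmp k a (Dl c) ∈ OO c := by
  have := Dl_closure hc n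
  generalize Dl c = y at this
  induction this using AddSubmonoid.closure_induction with
  | mem y hy =>
    obtain ⟨b, hb, rfl⟩ := hy
    by_cases h1 : c * b ^ 2 ≡ a [ZMOD 2 ^ k]
    · rw [((cls_Th c n b).mono h).cmp_eq h1]
      exact Th_OO hc n hb
    · rw [((cls_Th c n b).mono h).cmp_ne h1, mul_zero]
      exact zero_mem _
  | zero => rw [map_zero, mul_zero]; exact zero_mem _
  | add x y _ _ hx hy => rw [map_add, mul_add]; exact add_mem hx hy

/-- Elements of the form `u ^ 2 + τ * v ^ 2`. -/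
def Sq (B : Subring L2) {τ : L2} (hτ : τ ∈ B) : Subring L2 where
  carrier := {y | ∃ u ∈ B, ∃ v ∈ B, y = u ^ 2 + τ * v ^ 2}
  zero_mem' := ⟨0, zero_mem _, 0, zero_mem _, by simp⟩
  one_mem' := ⟨1, one_mem _, 0, zero_mem _, by simp⟩
  add_mem' := by
    rintro _ _ ⟨u, hu, v, hv, rfl⟩ ⟨u', hu', v', hv', rfl⟩
    have := charL2
    exact ⟨u + u', add_mem hu hu', v + v', add_mem hv hv', by
      rw [CharTwo.add_sq, CharTwo.add_sq]; ring⟩
  mul_mem' := by
    rintro _ _ ⟨u, hu, v, hv, rfl⟩ ⟨u', hu', v', hv', rfl⟩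
    have := charL2
    exact ⟨u * u' + τ * (v * v'), add_mem (mul_mem hu hu') (mul_mem hτ (mul_mem hv hv')),
      u * v' + v * u', add_mem (mul_mem hu hv') (mul_mem hv hu'), by
      rw [CharTwo.add_sq, CharTwo.add_sq]; ring⟩
  neg_mem' := by
    intro y hy
    have := charL2
    rwa [CharTwo.neg_eq]

theorem sq_mem_Sq {B : Subring L2} {τ : L2} (hτ : τ ∈ B) {u : L2} (hu : u ∈ B) : u ^ 2 ∈ Sq B hτ :=
  ⟨u, hu, 0, zero_mem _, by simp⟩

theorem self_mem_Sq {B : Subring L2} {τ : L2} (hτ : τ ∈ B) : τ ∈ Sq B hτ :=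
  ⟨0, zero_mem _, 1, one_mem _, by simp⟩

theorem alg_mem (B : Subring L2) (r : ZMod 2) : algebraMap (ZMod 2) L2 r ∈ B := by
  rcases (by decide : ∀ r : ZMod 2, r = 0 ∨ r = 1) r with rfl | rfl
  · rw [map_zero]; exact zero_mem B
  · rw [map_one]; exact one_mem B

theorem AA_split (hc : c = 1 ∨ c = 3) {f : L2} (hf : f ∈ AA c) :
    ∃ u ∈ AA c, ∃ v ∈ AA c, f = u ^ 2 + Dl c * v ^ 2 := by
  have h : f ∈ Sq (AA c).toSubring (sg_AA c) := by
    induction hf using Algebra.adjoin_induction with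
    | mem x hx => rw [Set.mem_singleton_iff.1 hx]; exact self_mem_Sq _
    | algebraMap r => exact alg_mem _ r
    | add x y _ _ hx hy => exact add_mem hx hy
    | mul x y _ _ hx hy => exact mul_mem hx hy
  obtain ⟨u, hu, v, hv, rfl⟩ := h
  exact ⟨u, hu, sg c * v, mul_mem (sg_AA c) hv, by
    linear_combination (-(sg c * v ^ 2)) * sg_mul hc⟩

theorem cmp_AA (hc : c = 1 ∨ c = 3) (k : ℕ) : ∀ {f : L2}, f ∈ AA c → ∀ a : ℤ,
    sg c ^ 4 ^ k * cmp k a f ∈ OO c := by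
  induction k with
  | zero =>
    intro f hf a
    rw [Cls.cmp_eq (b := a) (fun n _ => by simpa using Int.modEq_one) rfl]
    exact AA_OO (mul_mem (pow_mem (sg_AA c) _) hf)
  | succ k ih =>
    have := charL2
    have key : ∀ x : L2, (∀ a, sg c ^ (2 * 4 ^ k) * cmp (k + 1) a x ∈ OO c) → ∀ v ∈ AA c, ∀ a,
        sg c ^ 4 ^ (k + 1) * cmp (k + 1) a (x * v ^ 2) ∈ OO c := by
      intro x hx v hv a
      rw [← sum_cmp k v, CharTwo.sum_sq, mul_sum, map_sum, mul_sum]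
      refine sum_mem fun r _ => ?_
      have h1 := cmp_mul (cls_cmp k r v).sq (a - 2 * r) x
      rw [sub_add_cancel] at h1
      rw [h1, show 4 ^ (k + 1) = 2 * 4 ^ k + 4 ^ k * 2 by ring, pow_add, pow_mul _ _ 2,
        mul_mul_mul_comm, ← mul_pow]
      exact mul_mem (hx _) (pow_mem (ih hv r) 2)
    intro f hf a
    obtain ⟨u, hu, v, hv, rfl⟩ := AA_split hc hf
    rw [map_add, mul_add, ← one_mul (u ^ 2)]
    refine add_mem (key 1 (fun a => mul_mem (pow_mem (AA_OO (sg_AA c)) _) ?_) u hu a)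
      (key _ (fun a => ?_) v hv a)
    · by_cases h : 0 ≡ a [ZMOD 2 ^ (k + 1)]
      · rw [(cls_one _).cmp_eq h]; exact one_mem _
      · rw [(cls_one _).cmp_ne h]; exact zero_mem _
    · obtain ⟨m, hm⟩ := Nat.exists_eq_add_of_le (EE_le k)
      rw [hm, add_comm (EE k), pow_add, mul_assoc]
      exact mul_mem (pow_mem (AA_OO (sg_AA c)) _) (cmp_Dl hc (by omega) a)

theorem mem_of_sg (hc : c = 1 ∨ c = 3) {m : ℕ} {y : L2} (h : sg c ^ m * y ∈ OO c) : y ∈ KK c := by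
  have h1 : y = Dl c ^ m * (sg c ^ m * y) := by
    rw [← mul_assoc, ← mul_pow, mul_comm (Dl c), sg_mul hc, one_pow, one_mul]
  rw [h1]
  exact mul_mem (pow_mem (F0_le (Dl_F0 c)) _) h.1

theorem KK_split (hc : c = 1 ∨ c = 3) {y : L2} (hy : y ∈ KK c) :
    ∃ u ∈ KK c, ∃ v ∈ KK c, y = u ^ 2 + sg c * v ^ 2 := by
  have h0 : sg c ∈ (KK c).toSubring := F0_le (AA_le (sg_AA c))
  have hinv : ∀ x ∈ KK c, x ∈ Sq _ h0 → x⁻¹ ∈ Sq _ h0 := fun x hx h => by
    have : x⁻¹ = x * x⁻¹ ^ 2 := by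
      by_cases h1 : x = 0
      · simp [h1]
      · field_simp
    rw [this]
    exact mul_mem h (sq_mem_Sq h0 (inv_mem hx : x⁻¹ ∈ KK c))
  have hF : ∀ x ∈ F0 c, x ∈ Sq _ h0 := fun x hx => by
    induction hx using IntermediateField.adjoin_induction with
    | mem x hx => rw [Set.mem_singleton_iff.1 hx]; exact self_mem_Sq _
    | algebraMap r => exact alg_mem _ r
    | add x y _ _ hx hy => exact add_mem hx hy
    | inv x h hx => exact hinv x (F0_le h) hx
    | mul x y _ _ hx hy => exact mul_mem hx hy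
  have hT : ∀ n b, Odd b → Th c n b ∈ Sq _ h0 := fun n => by
    induction n with
    | zero => exact fun b hb => Th_zero hc hb ▸ hF _ (Dl_F0 c)
    | succ n ih =>
      intro b hb
      have h1 : Th c (n + 1) b = (Th c n b)⁻¹ * (Th c (n + 1) b ^ 2 +
          (Th c n (b + 2 * 2 ^ n) * Dl c ^ (4 * 4 ^ n)) ^ 2) := by
        rw [eq_inv_mul_iff_mul_eq₀ (Th_ne hc n hb), ← Th_mul hc, ← Th_add hc n b]
        ring
      rw [h1]
      exact mul_mem (hinv _ (Th_KK c n hb) (ih b hb)) (add_mem (sq_mem_Sq h0 (Th_KK c _ hb))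
        (sq_mem_Sq h0 (mul_mem (Th_KK c n (odd_sib hb _)) (pow_mem (F0_le (Dl_F0 c)) _) :
          _ ∈ KK c)))
  show y ∈ Sq _ h0
  induction hy using IntermediateField.adjoin_induction with
  | mem x hx => obtain ⟨n, b, hb, rfl⟩ := hx; exact hT n b hb
  | algebraMap r => exact hF _ r.2
  | add x y _ _ hx hy => exact add_mem hx hy
  | inv x h hx => exact hinv x h hx
  | mul x y _ _ hx hy => exact mul_mem hx hy

theorem cls_sg (hc : c = 1 ∨ c = 3) : Cls 1 1 (sg c) := fun n hn => by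
  rw [← pow_one (sg c), sg_pow] at hn
  obtain ⟨m, hm⟩ := (supp_S_zpow hc hn).2.dvd
  rw [Int.ModEq]
  rcases hc with rfl | rfl <;> push_cast at hm ⊢ <;> omega

theorem KK_root (hc : c = 1 ∨ c = 3) (k : ℕ) : ∀ {y : L2}, y ∈ KK c → Cls k 0 y →
    ∃ w ∈ KK c, y = w ^ 2 ^ k := by
  induction k with
  | zero => exact fun hy _ => ⟨_, hy, by simp⟩
  | succ k ih =>
    intro y hy h
    obtain ⟨u, hu, v, hv, rfl⟩ := KK_split hc hy
    have h1 := (h.mono (show 1 ≤ k + 1 by omega)).cmp_ne (a := 1) (by decide)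
    have h2 : Cls 1 0 (u ^ 2) := by simpa using cls_pow_two_pow 1 u
    have h3 : Cls 1 0 (v ^ 2) := by simpa using cls_pow_two_pow 1 v
    rw [map_add, h2.cmp_ne (by decide), ((cls_sg hc).mul h3).cmp_eq (by decide), zero_add] at h1
    rw [h1, add_zero] at h ⊢
    obtain ⟨w, hw, rfl⟩ := ih hu (cls_of_sq h)
    exact ⟨w, hw, by rw [← pow_mul, pow_succ]⟩

theorem coeff_aeval (hc : c = 1 ∨ c = 3) (P : R2) :
    (Polynomial.aeval (sg c) P).coeff (-((c * P.natDegree : ℕ) : ℤ)) = P.leadingCoeff := by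
  rw [Polynomial.aeval_eq_sum_range]
  simp only [sg_pow]
  refine Eq.trans ?_ (KSp.coeff_min hc (range (P.natDegree + 1)) (fun e => -((c * e : ℕ) : ℤ))
    P.coeff (self_mem_range_succ _) fun i hi h1 _ => ?_)
  · congr 2
    funext e
    rw [Algebra.smul_def]
    rcases (by decide : ∀ r : ZMod 2, r = 0 ∨ r = 1) (P.coeff e) with h | h <;> simp [h]
  · rw [mem_range] at hi
    rcases hc with rfl | rfl <;> omega

theorem order_AA (hc : c = 1 ∨ c = 3) {y : L2} (hy : y ∈ AA c) (h0 : y ≠ 0) : y.order ≤ 0 := by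
  rw [AA, Algebra.adjoin_singleton_eq_range_aeval] at hy
  obtain ⟨P, rfl⟩ := hy
  have h1 : P ≠ 0 := fun h => h0 (by simp [h])
  refine (HahnSeries.order_le_of_coeff_ne_zero (g := -((c * P.natDegree : ℕ) : ℤ)) ?_).trans
    (by omega)
  exact coeff_aeval hc P ▸ Polynomial.leadingCoeff_ne_zero.2 h1

theorem sg_transc (hc : c = 1 ∨ c = 3) : Transcendental (ZMod 2) (sg c) := by
  rintro ⟨P, h0, h⟩
  have := coeff_aeval hc P
  rw [h] at this
  exact Polynomial.leadingCoeff_ne_zero.2 h0 this.symm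

end Pool.Agent.Lib.MP_a3366f_nt.Zt
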