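import Mathlib
import Pool.Agent.Lib.MP_a3366f_nt.ZTower

/-!
The components of a polynomial in the inverse discriminant are conjugate, and their norm bounds the
sum of their orders of vanishing.
-/

open Finset

namespace Pool.Agent.Lib.MP_a3366f_nt.Zt

open Ker

/-- An algebraic closure of the field of Laurent series. -/
abbrev Om := AlgebraicClosure L2

variable {c : ℕ}

/-- The embedding `ψ` sends `y` to `y'`. -/
def Rel (ψ : KK c →ₐ[F0 c] Om) (y y' : L2) : Prop :=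
  ∃ hy : y ∈ KK c, ψ ⟨y, hy⟩ = algebraMap L2 Om y'

section

variable {ψ : KK c →ₐ[F0 c] Om} {x x' y y' : L2}

theorem Rel.add (h : Rel ψ x x') (h' : Rel ψ y y') : Rel ψ (x + y) (x' + y') :=
  ⟨add_mem h.1 h'.1, by rw [map_add, ← h.2, ← h'.2, ← map_add]; rfl⟩

theorem Rel.mul (h : Rel ψ x x') (h' : Rel ψ y y') : Rel ψ (x * y) (x' * y') :=
  ⟨mul_mem h.1 h'.1, by rw [map_mul, ← h.2, ← h'.2, ← map_mul]; rfl⟩

theorem Rel.inv (h : Rel ψ x x') : Rel ψ x⁻¹ x'⁻¹ :=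
  ⟨inv_mem h.1, by rw [map_inv₀, ← h.2, ← map_inv₀]; rfl⟩

theorem rel_F0 (ψ : KK c →ₐ[F0 c] Om) (h : x ∈ F0 c) : Rel ψ x x :=
  ⟨F0_le h, ψ.commutes ⟨x, h⟩⟩

theorem Rel.pow (h : Rel ψ x x') (m : ℕ) : Rel ψ (x ^ m) (x' ^ m) := by
  induction m with
  | zero => simpa using rel_F0 ψ (one_mem _)
  | succ m ih => rw [pow_succ, pow_succ]; exact ih.mul h

theorem Rel.unique (h : Rel ψ x x') (h' : Rel ψ x y') : x' = y' :=
  (algebraMap L2 Om).injective (h.2.symm.trans h'.2)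

theorem Rel.ne_zero (h : Rel ψ x x') (h0 : x ≠ 0) : x' ≠ 0 := by
  rintro rfl
  have h1 := h.2
  rw [map_zero, map_eq_zero] at h1
  exact h0 (congrArg Subtype.val h1)

theorem rel_sum {ι : Type} (s : Finset ι) {f g : ι → L2} (h : ∀ i ∈ s, Rel ψ (f i) (g i)) :
    Rel ψ (∑ i ∈ s, f i) (∑ i ∈ s, g i) := by
  induction s using Finset.cons_induction with
  | empty => simpa using rel_F0 ψ (zero_mem _)
  | cons a s ha ih =>
    rw [sum_cons, sum_cons]
    exact (h a (mem_cons_self _ _)).add (ih fun i hi => h i (mem_cons_of_mem hi))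

theorem rel_prod {ι : Type} (s : Finset ι) {f g : ι → L2} (h : ∀ i ∈ s, Rel ψ (f i) (g i)) :
    Rel ψ (∏ i ∈ s, f i) (∏ i ∈ s, g i) := by
  induction s using Finset.cons_induction with
  | empty => simpa using rel_F0 ψ (one_mem _)
  | cons a s ha ih =>
    rw [prod_cons, prod_cons]
    exact (h a (mem_cons_self _ _)).mul (ih fun i hi => h i (mem_cons_of_mem hi))

theorem rel_pair {u v u' v' : L2} (hu : u ∈ KK c) (hv : v ∈ KK c) (h1 : Rel ψ (u + v) (u' + v'))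
    (h2 : Rel ψ (u * v) (u' * v')) : Rel ψ u u' ∧ Rel ψ v v' ∨ Rel ψ u v' ∧ Rel ψ v u' := by
  have h3 : ψ ⟨u, hu⟩ + ψ ⟨v, hv⟩ = algebraMap L2 Om u' + algebraMap L2 Om v' := by
    rw [← map_add, ← map_add, ← h1.2]; rfl
  have h4 : ψ ⟨u, hu⟩ * ψ ⟨v, hv⟩ = algebraMap L2 Om u' * algebraMap L2 Om v' := by
    rw [← map_mul, ← map_mul, ← h2.2]; rfl
  have h5 : (ψ ⟨u, hu⟩ - algebraMap L2 Om u') * (ψ ⟨u, hu⟩ - algebraMap L2 Om v') = 0 := by
    linear_combination ψ ⟨u, hu⟩ * h3 - h4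
  rcases mul_eq_zero.1 h5 with h | h
  · exact Or.inl ⟨⟨hu, by linear_combination h⟩, hv, by linear_combination h3 - h⟩
  · exact Or.inr ⟨⟨hu, by linear_combination h⟩, hv, by linear_combination h3 - h⟩

end

theorem rel_Th (hc : c = 1 ∨ c = 3) (ψ : KK c →ₐ[F0 c] Om) (n : ℕ) : ∀ {b : ℤ}, Odd b →
    ∃ b', Odd b' ∧ Rel ψ (Th c n b) (Th c n b') ∧
      Rel ψ (Th c n (b + 2 * 2 ^ n)) (Th c n (b' + 2 * 2 ^ n)) := by
  induction n with
  | zero =>
    intro b hb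
    refine ⟨b, hb, ?_, ?_⟩
    · rw [Th_zero hc hb]; exact rel_F0 ψ (Dl_F0 c)
    · rw [Th_zero hc (odd_sib hb _)]; exact rel_F0 ψ (Dl_F0 c)
  | succ n ih =>
    intro b hb
    obtain ⟨b', hb', h1, h2⟩ := ih hb
    have h3 := (h2.mul ((rel_F0 ψ (Dl_F0 c)).pow (4 * 4 ^ n))).pow 2
    rw [← Th_mul hc, ← Th_mul hc] at h3
    rw [← Th_add hc n b, ← Th_add hc n b'] at h1
    rw [show (2 : ℤ) * 2 ^ (n + 1) = 4 * 2 ^ n by ring]
    rcases rel_pair (Th_KK c _ hb) (Th_KK c _ (odd_sib' hb _)) h1 h3 with h | h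
    · exact ⟨b', hb', h⟩
    · refine ⟨_, odd_sib' hb' _, h.1, ?_⟩
      rw [show b' + 4 * 2 ^ n + 4 * 2 ^ n = b' + 4 * 2 ^ (n + 1) by ring, Th_per]
      exact h.2

theorem ex_rel (hc : c = 1 ∨ c = 3) (ψ : KK c →ₐ[F0 c] Om) {y : L2} (hy : y ∈ KK c) :
    ∃ y', Rel ψ y y' := by
  induction hy using IntermediateField.adjoin_induction with
  | mem x hx =>
    obtain ⟨n, b, hb, rfl⟩ := hx
    obtain ⟨b', -, h, -⟩ := rel_Th hc ψ n hb
    exact ⟨_, h⟩
  | algebraMap r => exact ⟨_, rel_F0 ψ r.2⟩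
  | add x y _ _ hx hy => exact ⟨_, hx.choose_spec.add hy.choose_spec⟩
  | inv x _ hx => exact ⟨_, hx.choose_spec.inv⟩
  | mul x y _ _ hx hy => exact ⟨_, hx.choose_spec.mul hy.choose_spec⟩

theorem cop_two {b : ℤ} (hb : Odd b) (k : ℕ) : IsCoprime ((2 : ℤ) ^ k) b :=
  (Int.isCoprime_two_left.2 hb).pow_left

theorem Rel.cls (hc : c = 1 ∨ c = 3) {ψ : KK c →ₐ[F0 c] Om} {n k : ℕ} {b a : ℤ} (hb : Odd b)
    (h : Rel ψ (Th c n 1) (Th c n b)) (hk : k ≤ n + 3) {y y' : L2} (hy : Rel ψ y y')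
    (ha : Cls k a y) : Cls k (a * b ^ 2) y' := by
  obtain ⟨u, v, huv⟩ := cop_two (b := c) (by rcases hc with rfl | rfl <;> decide) k
  obtain ⟨m, hm⟩ := Int.eq_ofNat_of_zero_le
    (Int.emod_nonneg (-a * v) (show (2 : ℤ) ^ k ≠ 0 by positivity))
  have h1 : a + m * c ≡ 0 [ZMOD 2 ^ k] := by
    have h2 := ((Int.mod_modEq (-a * v) (2 ^ k)).mul_right c).add_left a
    rw [hm] at h2
    exact h2.trans (Int.modEq_zero_iff_dvd.2 ⟨a * u, by linear_combination (-a) * huv⟩)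
  have h2 := hy.mul (h.pow m)
  obtain ⟨w, hw, h3⟩ := KK_root hc k h2.1
    ((ha.mul (((cls_Th c n 1).mono hk).pow m)).congr (by simpa using h1))
  obtain ⟨w', hw'⟩ := ex_rel hc ψ hw
  rw [h3] at h2
  refine cls_of_mul (((cls_Th c n b).mono hk).pow m) (pow_ne_zero _ (Th_ne hc n hb)) ?_
  rw [h2.unique (hw'.pow _)]
  refine (cls_pow_two_pow k w').congr ?_
  have h4 := h1.mul_right (b ^ 2)
  rw [zero_mul, add_mul, mul_assoc] at h4
  exact h4.symm

theorem cancel_odd {k : ℕ} {w r a : ℤ} (hw : Odd w) (h : r * w ≡ a * w [ZMOD 2 ^ k]) :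
    r ≡ a [ZMOD 2 ^ k] := by
  have h1 := h.dvd
  rw [← sub_mul] at h1
  exact Int.modEq_iff_dvd.2 ((cop_two hw k).dvd_of_dvd_mul_right h1)

/-- The embedding `ψ` multiplies the classes of exponents by `b ^ 2`. -/
def Act (ψ : KK c →ₐ[F0 c] Om) (k : ℕ) (b : ℤ) : Prop :=
  Odd b ∧ ∀ l ≤ k, ∀ f ∈ F0 c, (∀ r, cmp l r f ∈ KK c) →
    ∀ a, Rel ψ (cmp l a f) (cmp l (a * b ^ 2) f)

theorem ex_act (hc : c = 1 ∨ c = 3) (ψ : KK c →ₐ[F0 c] Om) (k : ℕ) : ∃ b, Act ψ k b := by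
  obtain ⟨b, hb, h, -⟩ := rel_Th hc ψ k odd_one
  refine ⟨b, hb, fun l hl f hf hK a => ?_⟩
  choose g hg using fun r => ex_rel hc ψ (hK r)
  have h0 : (0 : ℤ) < 2 ^ l := by positivity
  have h1 := rel_sum (Ico (0 : ℤ) (2 ^ l)) fun r _ => hg r
  rw [sum_cmp] at h1
  have h2 : ∀ r, Cls l (r * b ^ 2) (g r) := fun r =>
    Rel.cls hc hb h (by omega) (hg r) (cls_cmp l r f)
  have h3 := Int.mod_modEq a (2 ^ l)
  have h4 : cmp l (a * b ^ 2) f = g (a % 2 ^ l) := by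
    conv_lhs => rw [(rel_F0 ψ hf).unique h1]
    rw [map_sum, sum_eq_single_of_mem (a % 2 ^ l)
      (mem_Ico.2 ⟨Int.emod_nonneg _ h0.ne', Int.emod_lt_of_pos _ h0⟩),
      (h2 _).cmp_eq (h3.mul_right _)]
    refine fun r hr hne => (h2 r).cmp_ne fun h5 => hne ?_
    rw [mem_Ico] at hr
    rw [← cancel_odd hb.pow h5, Int.emod_eq_of_lt hr.1 hr.2]
  rw [h4, ← cmp_congr h3]
  exact hg _

open scoped IntermediateField.algebraAdjoinAdjoin in
theorem order_fixed (hc : c = 1 ∨ c = 3) {x : L2} (hx : x ∈ OO c) (h0 : x ≠ 0)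
    (h : ∀ ψ : KK c →ₐ[F0 c] Om, Rel ψ x x) : x.order ≤ 0 := by
  have alg : Algebra.IsAlgebraic (F0 c) (KK c) := by
    refine IntermediateField.isAlgebraic_adjoin ?_
    rintro _ ⟨n, b, hb, rfl⟩
    have h1 : Th c n b = Dl c ^ EE n * (sg c ^ EE n * Th c n b) := by
      rw [← mul_assoc, ← mul_pow, mul_comm (Dl c), sg_mul hc, one_pow, one_mul]
    rw [h1]
    exact (isIntegral_algebraMap (x := (⟨Dl c, Dl_F0 c⟩ : F0 c))).pow _ |>.mul
      (IsIntegral.tower_top (R := AA c) (Th_OO hc n hb).2)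
  have icl : IsIntegrallyClosed (AA c) := IsIntegrallyClosed.of_equiv
    (Polynomial.algEquivOfTranscendental (ZMod 2) (sg c) (sg_transc hc)).toRingEquiv
  let x' : KK c := ⟨x, hx.1⟩
  have hint : IsIntegral (F0 c) x' := Algebra.IsIntegral.isIntegral x'
  set P := (minpoly (F0 c) x').map (algebraMap (F0 c) Om) with hP
  have hm : P.Monic := (minpoly.monic hint).map _
  have hs : P.Splits := IsAlgClosed.splits P
  have h1 : P.roots = Multiset.replicate P.natDegree (algebraMap L2 Om x) := by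
    rw [hs.natDegree_eq_card_roots]
    refine Multiset.eq_replicate_card.2 fun z hz => ?_
    have h2 : z ∈ (minpoly (F0 c) x').rootSet Om :=
      Polynomial.mem_rootSet'.2 (Polynomial.mem_aroots'.1 hz)
    rw [← Algebra.IsAlgebraic.range_eval_eq_rootSet_minpoly] at h2
    obtain ⟨ψ, rfl⟩ := h2
    exact (h ψ).2
  have h2 := hs.coeff_zero_eq_prod_roots_of_monic hm
  rw [h1, Multiset.prod_replicate, ← mul_pow, hP, Polynomial.coeff_map,
    Polynomial.natDegree_map] at h2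
  have h3 : algebraMap (F0 c) L2 ((minpoly (F0 c) x').coeff 0) =
      (-x) ^ (minpoly (F0 c) x').natDegree := by
    refine (algebraMap L2 Om).injective ?_
    rw [map_pow, map_neg, ← neg_one_mul, ← h2]
    rfl
  have h4 : IsIntegral (AA c) ((minpoly (F0 c) x').coeff 0) := by
    rw [← isIntegral_algebraMap_iff (algebraMap (F0 c) L2).injective, h3]
    exact (IsIntegral.neg hx.2).pow _
  obtain ⟨z, hz⟩ := IsIntegrallyClosed.isIntegral_iff.1 h4
  have h5 : (z : L2) = (-x) ^ (minpoly (F0 c) x').natDegree := by rw [← h3, ← hz]; rfl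
  have h6 := order_AA hc z.2 (h5 ▸ pow_ne_zero _ (neg_ne_zero.2 h0))
  rw [h5, HahnSeries.order_pow, HahnSeries.order_neg, nsmul_eq_mul] at h6
  have h7 : (0 : ℤ) < (minpoly (F0 c) x').natDegree := by exact_mod_cast minpoly.natDegree_pos hint
  exact nonpos_of_mul_nonpos_right h6 h7

theorem order_S_zpow (hc : c = 1 ∨ c = 3) (j : ℤ) : (S c ^ j).order = j :=
  le_antisymm (HahnSeries.order_le_of_coeff_ne_zero (by rw [coeff_S_zpow_self hc]; exact one_ne_zero))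
    (supp_S_zpow hc (mt HahnSeries.coeff_order_eq_zero.1 (zpow_ne_zero _ (S_ne_zero hc)))).1

theorem order_sg_pow (hc : c = 1 ∨ c = 3) (m : ℕ) : (sg c ^ m).order = -(c * m) := by
  rw [sg_pow, order_S_zpow hc, Nat.cast_mul]

theorem ex_nine (hc : c = 1 ∨ c = 3) {k : ℕ} (hk : 4 ≤ k) :
    ∃ (ψ : KK c →ₐ[F0 c] Om) (b : ℤ), Act ψ k b ∧ b ^ 2 ≡ 9 [ZMOD 16] := by
  classical
  by_contra! h
  have h1 : ∀ n, (Dl c).coeff n = if ∃ a : ℕ, Odd a ∧ n = c * a ^ 2 then 1 else 0 := fun n => by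
    simpa [Dl] using coeff_S_sparse hc 0 n
  have h2 : cmp 4 (9 * c) (Dl c) ≠ 0 := fun h2 => by
    have h3 := coeff_cmp 4 (9 * c) (Dl c) (9 * c)
    rw [h2, if_pos (Int.ModEq.refl _), h1, if_pos ⟨3, by decide, by push_cast; ring⟩] at h3
    exact zero_ne_one h3
  have h3 : 9 * c ≤ (cmp 4 (9 * c) (Dl c)).order := by
    have h4 := mt HahnSeries.coeff_order_eq_zero.1 h2
    generalize (cmp 4 (9 * c) (Dl c)).order = n at h4
    rw [coeff_cmp, h1] at h4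
    split_ifs at h4 with h5 h6
    · obtain ⟨a, ⟨m, rfl⟩, rfl⟩ := h6
      rcases Nat.eq_zero_or_pos m with rfl | hm
      · revert h5
        rcases hc with rfl | rfl <;> decide
      · have : (1 : ℤ) ≤ m := by exact_mod_cast hm
        have h7 : (0 : ℤ) ≤ c := by positivity
        push_cast
        nlinarith [mul_nonneg h7 (show (0 : ℤ) ≤ (2 * m + 1) ^ 2 - 9 by nlinarith)]
    all_goals exact absurd rfl h4
  have h4 := order_fixed hc (cmp_Dl hc (k := 4) (n := 1) le_rfl (9 * c))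
    (mul_ne_zero (pow_ne_zero _ (sg_ne hc)) h2) fun ψ => by
      obtain ⟨b, hb⟩ := ex_act hc ψ k
      have h5 := hb.2 4 hk _ (Dl_F0 c)
        (fun r => mem_of_sg hc (cmp_Dl hc (k := 4) (n := 1) le_rfl r)) (9 * c)
      have h6 : b ^ 2 ≡ 1 [ZMOD 2 ^ 4] := by
        have h7 := h ψ b hb
        obtain ⟨m, rfl⟩ := hb.1
        obtain ⟨l, hl⟩ := Int.even_mul_succ_self m
        rw [show (2 * m + 1) ^ 2 = 4 * (m * (m + 1)) + 1 by ring, hl, Int.ModEq] at h7 ⊢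
        omega
      rw [cmp_congr (h6.mul_left (9 * c)), mul_one] at h5
      exact ((rel_F0 ψ (AA_le (sg_AA c))).pow _).mul h5
  rw [HahnSeries.order_mul (pow_ne_zero _ (sg_ne hc)) h2, order_sg_pow hc] at h4
  simp only [EE] at h4
  omega

theorem pow_nine {w : ℤ} (hw : w ≡ 9 [ZMOD 16]) (n : ℕ) :
    ∃ u, Odd u ∧ w ^ 2 ^ n = 1 + 2 ^ (n + 3) * u := by
  induction n with
  | zero =>
    obtain ⟨m, hm⟩ := hw.dvd
    exact ⟨1 - 2 * m, ⟨-m, by ring⟩, by linear_combination -hm⟩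
  | succ n ih =>
    obtain ⟨u, hu, h⟩ := ih
    exact ⟨u + 2 * (2 ^ (n + 1) * u ^ 2), odd_sib hu _, by rw [pow_succ, pow_mul, h]; ring⟩

theorem orbit_nine {w a a' : ℤ} (hw : w ≡ 9 [ZMOD 16]) (ha : Odd a) (h : a' ≡ a [ZMOD 2 ^ 3])
    (n : ℕ) : ∃ m : ℕ, a' ≡ a * w ^ m [ZMOD 2 ^ (n + 3)] := by
  induction n with
  | zero => exact ⟨0, by simpa using h⟩
  | succ n ih =>
    obtain ⟨m, hm⟩ := ih
    obtain ⟨v, hv⟩ := hm.dvd
    rcases Int.even_or_odd v with ⟨l, rfl⟩ | hv'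
    · exact ⟨m, Int.modEq_iff_dvd.2 ⟨l, by rw [hv]; ring⟩⟩
    · obtain ⟨u, hu, h1⟩ := pow_nine hw n
      have hw' : Odd w := by rw [Int.odd_iff]; rw [Int.ModEq] at hw; omega
      obtain ⟨l, hl⟩ := hv'.add_odd ((ha.mul (hw'.pow (n := m))).mul hu)
      refine ⟨m + 2 ^ n, Int.modEq_iff_dvd.2 ⟨l, ?_⟩⟩
      rw [pow_add, h1]
      linear_combination hv + 2 ^ (n + 3) * hl

theorem order_prod {ι : Type} (s : Finset ι) {f : ι → L2} (h : ∀ i ∈ s, f i ≠ 0) :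
    (∏ i ∈ s, f i).order = ∑ i ∈ s, (f i).order := by
  induction s using Finset.cons_induction with
  | empty => simp
  | cons a s ha ih =>
    have h1 := fun i hi => h i (mem_cons_of_mem hi)
    rw [prod_cons, sum_cons, HahnSeries.order_mul (h a (mem_cons_self _ _)) (prod_ne_zero_iff.2 h1),
      ih h1]

/-- The classes modulo `2 ^ k` congruent to `a` modulo `2 ^ l`. -/
noncomputable def cl (k l : ℕ) (a : ℤ) : Finset ℤ :=
  (Ico (0 : ℤ) (2 ^ k)).filter fun r => r ≡ a [ZMOD 2 ^ l]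

theorem norm_bound (hc : c = 1 ∨ c = 3) {k : ℕ} (hk : 4 ≤ k) {g : L2} (hg : g ∈ AA c) {a : ℤ}
    (ha : Odd a) (h0 : cmp k a g ≠ 0) : (∀ r ∈ cl k 3 a, cmp k r g ≠ 0) ∧
      ∑ r ∈ cl k 3 a, (cmp k r g).order ≤ (cl k 3 a).card * (c * 4 ^ k) := by
  have hK : ∀ r, cmp k r g ∈ KK c := fun r => mem_of_sg hc (cmp_AA hc k hg r)
  have h1 : ∀ r ∈ cl k 3 a, cmp k r g ≠ 0 := by
    obtain ⟨ψ, b, hb, h9⟩ := ex_nine hc hk
    have h2 : ∀ m : ℕ, cmp k (a * (b ^ 2) ^ m) g ≠ 0 := fun m => by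
      induction m with
      | zero => simpa using h0
      | succ m ih =>
        rw [pow_succ, ← mul_assoc]
        exact (hb.2 k le_rfl g (AA_le hg) hK _).ne_zero ih
    intro r hr
    obtain ⟨n, rfl⟩ := Nat.exists_eq_add_of_le' (show 3 ≤ k by omega)
    obtain ⟨m, hm⟩ := orbit_nine h9 ha (mem_filter.1 hr).2 n
    rw [cmp_congr hm]
    exact h2 m
  refine ⟨h1, ?_⟩
  have h2 : ∀ r ∈ cl k 3 a, sg c ^ 4 ^ k * cmp k r g ≠ 0 := fun r hr =>
    mul_ne_zero (pow_ne_zero _ (sg_ne hc)) (h1 r hr)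
  have h3 := order_fixed hc (prod_mem fun r (_ : r ∈ cl k 3 a) => cmp_AA hc k hg r)
    (prod_ne_zero_iff.2 h2) fun ψ => by
      obtain ⟨b, hb⟩ := ex_act hc ψ k
      have h4 := rel_prod (cl k 3 a) fun r _ =>
        ((rel_F0 ψ (AA_le (sg_AA c))).pow (4 ^ k)).mul (hb.2 k le_rfl g (AA_le hg) hK r)
      have h5 : (0 : ℤ) < 2 ^ k := by positivity
      have h6 : Set.InjOn (fun r => r * b ^ 2 % 2 ^ k) (cl k 3 a) := fun r hr r' hr' h => by
        have h7 : r % 2 ^ k = r' % 2 ^ k := cancel_odd hb.1.pow h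
        have h8 := mem_Ico.1 (mem_filter.1 hr).1
        have h9 := mem_Ico.1 (mem_filter.1 hr').1
        rwa [Int.emod_eq_of_lt h8.1 h8.2, Int.emod_eq_of_lt h9.1 h9.2] at h7
      have h7 : (cl k 3 a).image (fun r => r * b ^ 2 % 2 ^ k) = cl k 3 a := by
        refine eq_of_subset_of_card_le (image_subset_iff.2 fun r hr => ?_)
          (card_image_of_injOn h6).ge
        refine mem_filter.2 ⟨mem_Ico.2 ⟨Int.emod_nonneg _ h5.ne', Int.emod_lt_of_pos _ h5⟩, ?_⟩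
        refine ((Int.mod_modEq _ _).of_dvd (pow_dvd_pow 2 (by omega))).trans ?_
        have h8 : b ^ 2 ≡ 1 [ZMOD 2 ^ 3] := by
          obtain ⟨m, rfl⟩ := hb.1
          obtain ⟨l, hl⟩ := Int.even_mul_succ_self m
          rw [show (2 * m + 1) ^ 2 = 4 * (m * (m + 1)) + 1 by ring, hl, Int.ModEq]
          omega
        simpa using (mem_filter.1 hr).2.mul h8
      have h8 : ∏ r ∈ cl k 3 a, sg c ^ 4 ^ k * cmp k r g =
          ∏ r ∈ cl k 3 a, sg c ^ 4 ^ k * cmp k (r * b ^ 2) g := by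
        conv_lhs => rw [← h7]
        rw [prod_image h6]
        exact prod_congr rfl fun r _ => by rw [cmp_congr (Int.mod_modEq _ _)]
      rwa [← h8] at h4
  rw [order_prod _ h2, sum_congr rfl fun r hr =>
    HahnSeries.order_mul (pow_ne_zero _ (sg_ne hc)) (h1 r hr), sum_add_distrib, sum_const,
    order_sg_pow hc, nsmul_eq_mul] at h3
  push_cast at h3
  linarith

end Pool.Agent.Lib.MP_a3366f_nt.Zt
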