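import Mathlib
import Pool.Agent.Lib.MP_a3366f_nt.KDefs

open Finset

namespace Pool.Agent.Lib.MP_a3366f_nt.Ker

theorem kh_div {d a : ℕ} {b : ℤ} (hd : d ≠ 0) (ha : d ∣ a) (hb : (d : ℤ) ∣ b) :
    ((a / d : ℕ) : ℤ) * (b / d) = a * b / (d : ℤ) ^ 2 := by
  obtain ⟨a, rfl⟩ := ha
  obtain ⟨b, rfl⟩ := hb
  have h : (d : ℤ) ≠ 0 := by exact_mod_cast hd
  rw [Nat.mul_div_cancel_left _ (Nat.pos_of_ne_zero hd), Int.mul_ediv_cancel_left _ h,
    show ((d * a : ℕ) : ℤ) * (d * b) = (d : ℤ) ^ 2 * (a * b) by push_cast; ring,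
    Int.mul_ediv_cancel_left _ (pow_ne_zero 2 h)]

theorem kh_coeff (n : ℕ) (f : L2) (m : ℤ) : (TL n f).coeff m =
    ∑ d ∈ n.divisors, if (d : ℤ) ∣ m then f.coeff (n * m / (d : ℤ) ^ 2) else 0 := by
  rw [coeff_TL]
  refine sum_congr rfl fun d hd => ?_
  split_ifs with h
  · rw [kh_div (Nat.pos_of_mem_divisors hd).ne' (Nat.dvd_of_mem_divisors hd) h]
  · rfl

theorem TL_one (f : L2) : TL 1 f = f := by
  ext m
  simp [coeff_TL]

theorem coeff_TL_prime {p : ℕ} (hp : p.Prime) (f : L2) (m : ℤ) :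
    (TL p f).coeff m = f.coeff (p * m) + if (p : ℤ) ∣ m then f.coeff (m / p) else 0 := by
  rw [coeff_TL, hp.divisors, sum_pair hp.one_lt.ne, Nat.div_self hp.pos]
  simp

theorem kh_s1 {p a : ℕ} (hp : p ≠ 0) (H : ℕ → ZMod 2) :
    ∑ d ∈ (p * a).divisors with p ∣ d, H d = ∑ d ∈ a.divisors, H (p * d) := by
  refine (sum_nbij (p * ·) (fun d hd => ?_) (fun _ _ _ _ h => Nat.eq_of_mul_eq_mul_left
    (Nat.pos_of_ne_zero hp) h) (fun d hd => ?_) fun _ _ => rfl).symm
  · rw [Nat.mem_divisors] at hd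
    exact mem_filter.2 ⟨Nat.mem_divisors.2 ⟨Nat.mul_dvd_mul_left p hd.1, mul_ne_zero hp hd.2⟩,
      dvd_mul_right _ _⟩
  · obtain ⟨h1, e, rfl⟩ := mem_filter.1 hd
    rw [Nat.mem_divisors] at h1
    exact ⟨e, Nat.mem_divisors.2 ⟨Nat.dvd_of_mul_dvd_mul_left (Nat.pos_of_ne_zero hp) h1.1,
      right_ne_zero_of_mul h1.2⟩, rfl⟩

theorem kh_sc {p : ℕ} (hp : p ≠ 0) (x d : ℤ) : (p : ℤ) ^ 2 * x / (p * d) ^ 2 = x / d ^ 2 := by
  rw [mul_pow, Int.mul_ediv_mul_of_pos]
  positivity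

theorem TL_prime_TL {p n : ℕ} (hp : p.Prime) (hn : n ≠ 0) (f : L2) :
    TL p (TL n f) = TL (p * n) f + if p ∣ n then TL (n / p) f else 0 := by
  ext m
  have hp0 : (p : ℤ) ≠ 0 := by exact_mod_cast hp.ne_zero
  have e1 : (if (p : ℤ) ∣ m then (TL n f).coeff (m / p) else 0) =
      ∑ d ∈ (p * n).divisors with p ∣ d,
        if (d : ℤ) ∣ m then f.coeff ((p * n : ℕ) * m / (d : ℤ) ^ 2) else 0 := by
    rw [kh_s1 hp.ne_zero]
    split_ifs with h
    · obtain ⟨u, rfl⟩ := h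
      rw [kh_coeff, Int.mul_ediv_cancel_left _ hp0]
      refine sum_congr rfl fun d _ => ?_
      push_cast
      rw [show (p : ℤ) * n * (p * u) = (p : ℤ) ^ 2 * (n * u) by ring, kh_sc hp.ne_zero]
      simp only [mul_dvd_mul_iff_left hp0]
    · refine (sum_eq_zero fun d _ => if_neg fun c => h ?_).symm
      exact (Dvd.intro _ (Nat.cast_mul p d).symm).trans c
  have e2 : (if p ∣ n then TL (n / p) f else 0).coeff m = ∑ d ∈ n.divisors with p ∣ d,
        if (d : ℤ) ∣ p * m then f.coeff (n * (p * m) / (d : ℤ) ^ 2) else 0 := by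
    split_ifs with h
    · obtain ⟨u, rfl⟩ := h
      rw [kh_s1 hp.ne_zero, kh_coeff, Nat.mul_div_cancel_left _ hp.pos]
      refine sum_congr rfl fun d _ => ?_
      push_cast
      rw [show (p : ℤ) * u * (p * m) = (p : ℤ) ^ 2 * (u * m) by ring, kh_sc hp.ne_zero]
      simp only [mul_dvd_mul_iff_left hp0]
    · refine (sum_eq_zero fun d hd => absurd ?_ h).symm
      exact (mem_filter.1 hd).2.trans (Nat.dvd_of_mem_divisors (mem_filter.1 hd).1)
  have cop : ∀ {d : ℕ}, ¬ p ∣ d → d.Coprime p := fun h => (hp.coprime_iff_not_dvd.2 h).symm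
  have e3 : (p * n).divisors.filter (fun d => ¬ p ∣ d) = n.divisors.filter (fun d => ¬ p ∣ d) := by
    ext d
    simp only [mem_filter, Nat.mem_divisors]
    exact ⟨fun h => ⟨⟨(cop h.2).dvd_of_dvd_mul_left h.1.1, hn⟩, h.2⟩, fun h =>
      ⟨⟨h.1.1.mul_left _, mul_ne_zero hp.ne_zero hn⟩, h.2⟩⟩
  rw [coeff_TL_prime hp, HahnSeries.coeff_add, e1, e2, kh_coeff, kh_coeff,
    ← sum_filter_add_sum_filter_not n.divisors (p ∣ ·),
    ← sum_filter_add_sum_filter_not (p * n).divisors (p ∣ ·), e3]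
  have e4 : (∑ d ∈ n.divisors with ¬ p ∣ d,
      if (d : ℤ) ∣ p * m then f.coeff (n * (p * m) / (d : ℤ) ^ 2) else 0) =
      ∑ d ∈ n.divisors with ¬ p ∣ d,
        if (d : ℤ) ∣ m then f.coeff ((p * n : ℕ) * m / (d : ℤ) ^ 2) else 0 := by
    refine sum_congr rfl fun d hd => ?_
    have c : IsCoprime (d : ℤ) p := Nat.isCoprime_iff_coprime.2 (cop (mem_filter.1 hd).2)
    rw [show ((p * n : ℕ) : ℤ) * m = n * (p * m) by push_cast; ring]
    exact if_congr ⟨c.dvd_of_dvd_mul_left, fun h => h.mul_left _⟩ rfl rfl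
  rw [e4]
  ring

theorem kh_ind (M : ℕ) (P : (L2 → L2) → Prop) (h1 : P fun f => f)
    (hs : ∀ a b, P a → P b → P fun f => a f - b f)
    (hp : ∀ p : ℕ, p.Prime → p.Coprime M → ∀ a, P a → P fun f => TL p (a f)) :
    ∀ n : ℕ, n ≠ 0 → n.Coprime M → P (TL n) := by
  intro n
  induction n using Nat.strong_induction_on with
  | _ n ih =>
    intro hn hc
    by_cases h : n = 1
    · subst h
      exact (funext TL_one : (TL 1 : L2 → L2) = fun f => f) ▸ h1
    obtain ⟨p, pp, u, rfl⟩ := Nat.exists_prime_and_dvd h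
    have hu : u ≠ 0 := right_ne_zero_of_mul hn
    have hlt : u < p * u := lt_mul_of_one_lt_left (Nat.pos_of_ne_zero hu) pp.one_lt
    have hcu : u.Coprime M := hc.coprime_mul_left
    have a1 := hp p pp hc.coprime_mul_right _ (ih u hlt hu hcu)
    have e : (TL (p * u) : L2 → L2) =
        fun f => TL p (TL u f) - if p ∣ u then TL (u / p) f else 0 := by
      funext f
      rw [TL_prime_TL pp hu, add_sub_cancel_right]
    rw [e]
    by_cases c : p ∣ u
    · simp only [if_pos c]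
      exact hs _ _ a1 (ih _ ((Nat.div_le_self _ _).trans_lt hlt)
        (Nat.div_pos (Nat.le_of_dvd (Nat.pos_of_ne_zero hu) c) pp.pos).ne'
        (hcu.coprime_dvd_left (Nat.div_dvd_of_dvd c)))
    · simpa only [if_neg c, sub_zero] using a1

theorem kh_comm {b : ℕ} (h : ∀ p : ℕ, p.Prime → ∀ f, TL p (TL b f) = TL b (TL p f)) {a : ℕ}
    (ha : a ≠ 0) : ∀ f, TL a (TL b f) = TL b (TL a f) :=
  kh_ind 1 (fun x => ∀ f, x (TL b f) = TL b (x f)) (fun _ => rfl)
    (fun x y hx hy f => by simp only [hx, hy, map_sub])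
    (fun p pp _ x hx f => by simp only [hx, h p pp]) a ha (Nat.coprime_one_right _)

theorem TL_comm {a b : ℕ} (ha : a ≠ 0) (hb : b ≠ 0) (f : L2) :
    TL a (TL b f) = TL b (TL a f) := by
  refine kh_comm (fun p pp f => (kh_comm (fun q qq f => ?_) hb f).symm) ha f
  by_cases e : q = p
  · rw [e]
  · rw [TL_prime_TL qq pp.ne_zero, TL_prime_TL pp qq.ne_zero, mul_comm,
      if_neg fun c => e ((Nat.prime_dvd_prime_iff_eq qq pp).1 c),
      if_neg fun c => e ((Nat.prime_dvd_prime_iff_eq pp qq).1 c).symm]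

theorem coeff_TL_symm {n m : ℕ} (hn : n ≠ 0) (hm : m ≠ 0) (f : L2) :
    (TL n f).coeff m = (TL m f).coeff n := by
  rw [kh_coeff, kh_coeff, ← sum_filter, ← sum_filter, mul_comm]
  refine sum_congr ?_ fun _ _ => rfl
  ext d
  simp only [mem_filter, Nat.mem_divisors, Int.natCast_dvd_natCast]
  tauto

theorem coeff_TL_one {n : ℕ} (hn : n ≠ 0) (f : L2) : (TL n f).coeff 1 = f.coeff n := by
  have := coeff_TL_symm hn one_ne_zero f
  rwa [TL_one, Nat.cast_one] at this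

theorem coeff_zero_mul (f g : L2) (A : Finset ℤ)
    (h : ∀ m, f.coeff m ≠ 0 → g.coeff (-m) ≠ 0 → m ∈ A) :
    (f * g).coeff 0 = ∑ m ∈ A, f.coeff m * g.coeff (-m) := by
  rw [HahnSeries.coeff_mul]
  have k : ∀ x ∈ antidiagonal f.isPWO_support g.isPWO_support 0, x.2 = -x.1 := fun x hx =>
    eq_neg_of_add_eq_zero_right (mem_antidiagonal.1 hx).2.2
  refine sum_of_injOn Prod.fst (fun x hx y hy e => Prod.ext e ?_) (fun x hx => ?_)
    (fun i _ hi => ?_) fun x hx => by rw [k x hx]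
  · rw [k x hx, k y hy, e]
  · exact h _ (mem_antidiagonal.1 hx).1 (k x hx ▸ (mem_antidiagonal.1 hx).2.1)
  · by_contra c
    exact hi ⟨(i, -i), mem_antidiagonal.2
      ⟨left_ne_zero_of_mul c, right_ne_zero_of_mul c, add_neg_cancel i⟩, rfl⟩

theorem kh_fin (f g : L2) : (f * g).coeff 0 = ∑ᶠ m, f.coeff m * g.coeff (-m) := by
  have k : ∀ m, f.coeff m ≠ 0 → g.coeff (-m) ≠ 0 → m ∈ Icc f.order (-g.order) := fun m h1 h2 =>
    mem_Icc.2 ⟨HahnSeries.order_le_of_coeff_ne_zero h1,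
      le_neg.1 (HahnSeries.order_le_of_coeff_ne_zero h2)⟩
  rw [coeff_zero_mul f g _ k, finsum_eq_sum_of_support_subset]
  exact fun m hm => k m (left_ne_zero_of_mul hm) (right_ne_zero_of_mul hm)

theorem kh_half (n : ℕ) (f g : L2) : (TL n f * g).coeff 0 =
    ∑ d ∈ n.divisors, ∑ᶠ u : ℤ, f.coeff ((n / d : ℕ) * u) * g.coeff (-(d * u)) := by
  rw [kh_fin]
  simp only [coeff_TL, sum_mul]
  rw [finsum_sum_comm]
  · refine sum_congr rfl fun d hd => ?_
    have h0 : (d : ℤ) ≠ 0 := by exact_mod_cast (Nat.pos_of_mem_divisors hd).ne'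
    rw [← finsum_mem_univ, finsum_mem_inter_support_eq' _ _ (Set.range fun u : ℤ => d * u),
      finsum_mem_range (mul_right_injective₀ h0)]
    · simp only [dvd_mul_right, if_true, Int.mul_ediv_cancel_left _ h0]
    · refine fun x hx => ⟨fun _ => ?_, fun _ => trivial⟩
      by_contra c
      exact left_ne_zero_of_mul hx (if_neg fun ⟨u, hu⟩ => c ⟨u, hu.symm⟩)
  · intro d hd
    refine (Set.finite_Icc (-(d * |f.order|)) (-g.order)).subset fun m hm =>
      ⟨?_, le_neg.1 (HahnSeries.order_le_of_coeff_ne_zero (right_ne_zero_of_mul hm))⟩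
    have h := left_ne_zero_of_mul hm
    have h0 : (0 : ℤ) < d := by exact_mod_cast Nat.pos_of_mem_divisors hd
    have he : (1 : ℤ) ≤ ((n / d : ℕ) : ℤ) := by
      exact_mod_cast Nat.div_pos (Nat.divisor_le hd) (Nat.pos_of_mem_divisors hd)
    split_ifs at h with h1
    · obtain ⟨u, rfl⟩ := h1
      rw [Int.mul_ediv_cancel_left _ h0.ne'] at h
      have h2 := HahnSeries.order_le_of_coeff_ne_zero h
      have h3 := neg_abs_le f.order
      have h4 := abs_nonneg f.order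
      have h5 : -|f.order| ≤ u := by
        by_contra c
        nlinarith
      nlinarith
    · exact absurd rfl h

theorem TL_adj {n : ℕ} (hn : n ≠ 0) (f g : L2) :
    (TL n f * g).coeff 0 = (f * TL n g).coeff 0 := by
  rw [mul_comm f, kh_half, kh_half, ← Nat.sum_div_divisors]
  refine sum_congr rfl fun d hd => ?_
  rw [Nat.div_div_self (Nat.dvd_of_mem_divisors hd) hn, ← finsum_comp_equiv (Equiv.neg ℤ)]
  simp only [Equiv.neg_apply, mul_neg, neg_neg, mul_comm]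

theorem TL_mem (U : Submodule (ZMod 2) L2) (M : ℕ)
    (hU : ∀ p : ℕ, p.Prime → Nat.Coprime p M → ∀ f ∈ U, TL p f ∈ U) {n : ℕ} (hn : n ≠ 0)
    (hc : Nat.Coprime n M) : ∀ f ∈ U, TL n f ∈ U :=
  kh_ind M (fun x => ∀ f ∈ U, x f ∈ U) (fun _ h => h)
    (fun _ _ hx hy f hf => sub_mem (hx f hf) (hy f hf))
    (fun p pp c _ hx f hf => hU p pp c _ (hx f hf)) n hn hc

theorem TL_coe {p : ℕ} (hp : p.Prime) (f : S2) :
    TL p (HahnSeries.ofPowerSeries ℤ (ZMod 2) f) = HahnSeries.ofPowerSeries ℤ (ZMod 2) (T p f) := by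
  ext m
  rw [coeff_TL_prime hp]
  have hp0 : (0 : ℤ) < p := by exact_mod_cast hp.pos
  rcases lt_or_ge m 0 with h | h
  · rw [PowerSeries.coeff_coe, PowerSeries.coeff_coe, PowerSeries.coeff_coe, if_pos h,
      if_pos (mul_neg_of_pos_of_neg hp0 h), if_pos (Int.ediv_neg_of_neg_of_pos h hp0)]
    simp
  · lift m to ℕ using h
    rw [← Nat.cast_mul, ← Int.natCast_div]
    simp only [HahnSeries.ofPowerSeries_apply_coeff, Int.natCast_dvd_natCast]
    exact (PowerSeries.coeff_mk m fun n => f.coeff (p * n) +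
      if p ∣ n then f.coeff (n / p) else 0).symm

end Pool.Agent.Lib.MP_a3366f_nt.Ker
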