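import Mathlib
import Pool.Agent.Lib.MP_a3366f_nt.KDefs

namespace Pool.Agent.Lib.MP_a3366f_nt.Ker

namespace Eta8

open Complex hiding eta
open ModularForm
open scoped Real

/-- Powers of the primitive cube root of unity. -/
noncomputable def W (x : ℤ) : ℂ := cexp (2 * π * I * x / 3)

lemma W_add (x y : ℤ) : W (x + y) = W x * W y := by
  rw [W, W, W, ← Complex.exp_add]; congr 1; push_cast; ring

lemma W_three (x : ℤ) : W (3 * x) = 1 := by
  rw [W, show 2 * π * I * ((3 * x : ℤ) : ℂ) / 3 = x * (2 * π * I) by push_cast; ring]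
  exact Complex.exp_int_mul_two_pi_mul_I x

lemma W_cube (x : ℤ) : W x ^ 3 = 1 := by
  rw [← W_three x, show 3 * x = x + x + x by ring, W_add, W_add]; ring

lemma W_congr {x y : ℤ} (h : (x : ZMod 3) = y) : W x = W y := by
  obtain ⟨k, hk⟩ := (ZMod.intCast_eq_intCast_iff_dvd_sub x y 3).1 h
  rw [show y = x + 3 * k by push_cast at hk; linarith, W_add, W_three, mul_one]

/-- The exponent of the multiplier of the eighth power of eta. -/
def chi {R : Type} [CommRing R] (a b c d : R) : R := a * b - a * c - a ^ 2 * c * d + c * d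

lemma chi_cast (a b c d : ℤ) : ((chi a b c d : ℤ) : ZMod 3) = chi (a : ZMod 3) b c d := by
  simp [chi]

lemma chi_step : ∀ r b c d q : ZMod 3, r * d - b * c = 1 →
    chi (r + q * c) (b + q * d) c d = q + chi c d (-r) (-b) := by
  unfold chi; decide

lemma eta_add_int (z : ℂ) (n : ℤ) : eta (z + n) ^ 8 = W n * eta z ^ 8 := by
  have h1 : ∀ k : ℕ, eta_q k (z + n) = eta_q k z := fun k => by
    rw [eta_q_eq_pow, eta_q_eq_pow, mul_add, Complex.exp_add,
      show 2 * π * I * (n : ℂ) = n * (2 * π * I) by ring, Complex.exp_int_mul_two_pi_mul_I, mul_one]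
  simp only [eta, h1, mul_pow, Function.Periodic.qParam, W]
  rw [← mul_assoc, ← Complex.exp_nat_mul, ← Complex.exp_nat_mul, ← Complex.exp_add]
  congr 2
  push_cast
  ring

lemma eta_inv {z : ℂ} (hz : 0 < z.im) : eta (-1 / z) ^ 8 = z ^ 4 * eta z ^ 8 := by
  have h := eta_comp_eq_csqrt_I_inv (show z ∈ UpperHalfPlane.upperHalfPlaneSet from hz)
  simp only [Function.comp_apply, Pi.smul_apply, Pi.mul_apply, smul_eq_mul] at h
  have hs : ∀ w : ℂ, Complex.sqrt w ^ 8 = w ^ 4 := fun w => by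
    rw [show 8 = 2 * 4 from rfl, pow_mul, Complex.sqrt]
    congr 1
    exact Complex.cpow_nat_inv_pow w two_ne_zero
  rw [h, mul_pow, mul_pow, inv_pow, hs, hs, Complex.I_pow_four, inv_one, one_mul]

lemma den_ne {a b c d : ℤ} (h : a * d - b * c = 1) {z : ℂ} (hz : 0 < z.im) :
    (c : ℂ) * z + d ≠ 0 := by
  intro e
  have h1 := congrArg Complex.im e
  simp [hz.ne'] at h1
  subst h1
  simp at e
  subst e
  simp at h

lemma im_pos {a b c d : ℤ} (h : a * d - b * c = 1) {z : ℂ} (hz : 0 < z.im) :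
    0 < (((a : ℂ) * z + b) / (c * z + d)).im := by
  have h1 : (0 : ℝ) < Complex.normSq ((c : ℂ) * z + d) := Complex.normSq_pos.2 (den_ne h hz)
  have h2 : (a : ℝ) * d - b * c = 1 := by exact_mod_cast h
  rw [Complex.div_im, ← sub_div]
  refine div_pos ?_ h1
  simp only [add_im, mul_im, intCast_re, intCast_im, add_re, mul_re]
  nlinarith

lemma main (n : ℕ) : ∀ a b c d : ℤ, c.natAbs = n → a * d - b * c = 1 → ∀ z : ℂ, 0 < z.im →
    eta ((a * z + b) / (c * z + d)) ^ 8 = W (chi a b c d) * ((c * z + d) ^ 4 * eta z ^ 8) := by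
  induction n using Nat.strong_induction_on with
  | _ n ih =>
  intro a b c d hn h z hz
  by_cases hc : c = 0
  · subst hc
    have h1 : a * d = 1 := by linarith
    rcases Int.eq_one_or_neg_one_of_mul_eq_one' h1 with ⟨rfl, rfl⟩ | ⟨rfl, rfl⟩
    · have := eta_add_int z b
      simpa [chi] using this
    · have := eta_add_int z (-b)
      rw [show (((-1 : ℤ) : ℂ) * z + b) / (((0 : ℤ) : ℂ) * z + ((-1 : ℤ) : ℂ)) = z + ((-b : ℤ) : ℂ) by
        push_cast; field_simp; ring, this]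
      simp [chi]
      norm_num
  · obtain ⟨q, r, rfl, hr⟩ : ∃ q r : ℤ, a = r + q * c ∧ r.natAbs < c.natAbs := by
      refine ⟨a / c, a % c, by rw [mul_comm]; exact (Int.emod_add_mul_ediv a c).symm, ?_⟩
      have h1 := Int.emod_lt_abs a hc
      have h2 := Int.emod_nonneg a hc
      rw [Int.abs_eq_natAbs] at h1
      omega
    obtain ⟨b, rfl⟩ : ∃ b' : ℤ, b = b' + q * d := ⟨b - q * d, by ring⟩
    have h1 : r * d - b * c = 1 := by linarith
    have h2 : c * (-b) - d * (-r) = 1 := by linarith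
    have h3 := ih _ (by rw [Int.natAbs_neg, ← hn]; exact hr) c d (-r) (-b) rfl h2 z hz
    have h4 := eta_inv (im_pos h2 hz)
    have n1 := den_ne h1 hz
    have n2 := den_ne h2 hz
    rw [show (((r + q * c : ℤ) : ℂ) * z + ((b + q * d : ℤ) : ℂ)) / (c * z + d) =
      -1 / ((c * z + d) / (((-r : ℤ) : ℂ) * z + ((-b : ℤ) : ℂ))) + q by
        push_cast; field_simp; ring, eta_add_int, h4, h3,
      W_congr (x := chi (r + q * c) (b + q * d) c d) (y := q + chi c d (-r) (-b)) (by
        rw [chi_cast]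
        push_cast
        rw [chi_cast]
        push_cast
        exact chi_step _ _ _ _ _ (by exact_mod_cast congrArg (Int.cast : ℤ → ZMod 3) h1)), W_add,
      div_pow, ← mul_assoc (_ / _), mul_comm (_ / _), mul_assoc (W _) (_ / _), ← mul_assoc (_ / _),
      div_mul_cancel₀ _ (pow_ne_zero 4 n2), mul_assoc]

end Eta8

theorem eta_trans {c : ℕ} (hc : c = 1 ∨ c = 3) (α β γ δ : ℤ) (h : α * δ - β * γ = 1)
    (hα : (c : ℤ) ∣ α) (hδ : (c : ℤ) ∣ δ) (z : ℂ) (hz : 0 < z.im) :
    ModularForm.eta ((α * z + β) / (γ * z + δ)) ^ (24 / c) =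
      (γ * z + δ) ^ (12 / c) * ModularForm.eta z ^ (24 / c) := by
  have h1 := Eta8.main _ α β γ δ rfl h z hz
  rcases hc with rfl | rfl
  · rw [show 24 / 1 = 8 * 3 from rfl, show 12 / 1 = 4 * 3 from rfl, pow_mul, h1, mul_pow,
      Eta8.W_cube, one_mul, mul_pow, ← pow_mul, ← pow_mul]
  · obtain ⟨a, rfl⟩ := hα
    obtain ⟨d, rfl⟩ := hδ
    rw [show 24 / 3 = 8 from rfl, show 12 / 3 = 4 from rfl, h1,
      show Eta8.chi (((3 : ℕ) : ℤ) * a) β γ (((3 : ℕ) : ℤ) * d) =
        3 * (a * β - a * γ - 9 * a ^ 2 * γ * d + γ * d) by simp only [Eta8.chi]; push_cast; ring,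
      Eta8.W_three, one_mul]

end Pool.Agent.Lib.MP_a3366f_nt.Ker
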