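import Mathlib
import Pool.Agent.Lib.MP_a3366f_nt.KDefs
import Pool.Agent.Lib.MP_a3366f_nt.KEta

open UpperHalfPlane ModularForm PowerSeries
open scoped MatrixGroups

namespace Pool.Agent.Lib.MP_a3366f_nt.Ker

/-- The coefficient of `Q ^ N` in `Q ^ e * B (Q ^ c)`. -/
noncomputable def cf (c : ℕ) (e : ℤ) (B : ℤ⟦X⟧) (N : ℤ) : ℤ :=
  if (c : ℤ) ∣ N - e ∧ e ≤ N then B.coeff ((N - e) / c).toNat else 0

namespace KF

open Complex hiding eta
open Finset
open scoped Real

/-- the Euler product -/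
noncomputable def PP (x : ℂ) : ℂ := ∏' n : ℕ, (1 - x ^ (n + 1))

/-- the exponential `e (w)` -/
noncomputable def ee (w : ℂ) : ℂ := cexp (2 * π * Complex.I * w)

lemma hs_congr {ι : Type*} {f g : ι → ℂ} {a b : ℂ} (h : HasSum f a) (hfg : ∀ i, g i = f i)
    (hab : b = a) : HasSum g b := by
  rw [hab, funext hfg]; exact h

lemma ee_ne (w : ℂ) : ee w ≠ 0 := Complex.exp_ne_zero _

lemma ee_add (z w : ℂ) : ee (z + w) = ee z * ee w := by
  rw [ee, ee, ee, ← Complex.exp_add]; congr 1; ring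

lemma ee_pow (z : ℂ) (n : ℕ) : ee z ^ n = ee (n * z) := by
  rw [ee, ee, ← Complex.exp_nat_mul]; congr 1; ring

lemma ee_zpow (z : ℂ) (n : ℤ) : ee z ^ n = ee (n * z) := by
  rw [ee, ee, ← Complex.exp_int_mul]; congr 1; ring

lemma ee_int (n : ℤ) : ee n = 1 := by
  rw [ee, show 2 * π * Complex.I * (n : ℂ) = n * (2 * π * Complex.I) by ring]
  exact Complex.exp_int_mul_two_pi_mul_I n

lemma norm_ee_lt {z : ℂ} (hz : 0 < z.im) : ‖ee z‖ < 1 := by
  have h : ‖ee z‖ = Real.exp (-2 * π * z.im) := by simp [ee, Complex.norm_exp]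
  rw [h, Real.exp_lt_one_iff]
  have := Real.pi_pos
  nlinarith

lemma eta_eq (z : ℂ) : eta z = ee (z / 24) * PP (ee z) := by
  simp [eta, PP, ee, Function.Periodic.qParam, eta_q, mul_div_assoc]

lemma PP_ne {q : ℂ} (hq : ‖q‖ < 1) : PP q ≠ 0 := by
  have := tprod_one_add_ne_zero_of_summable (f := fun n : ℕ => -q ^ (n + 1)) (fun i => ?_) ?_
  · simpa [PP, sub_eq_add_neg] using this
  · intro h
    have h1 : q ^ (i + 1) = 1 := by linear_combination -h
    have : ‖q ^ (i + 1)‖ < 1 := by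
      rw [norm_pow]; exact pow_lt_one₀ (norm_nonneg _) hq (Nat.succ_ne_zero i)
    rw [h1] at this; simp at this
  · simpa using (summable_nat_add_iff 1).mpr (summable_geometric_of_lt_one (norm_nonneg _) hq)

lemma PP_diffOn : DifferentiableOn ℂ PP (Metric.ball 0 1) := differentiableOn_tprod_one_sub_pow

lemma coeff_zero_of_hasSum (d : ℕ → ℂ)
    (h : ∀ z : ℂ, ‖z‖ < 1 → HasSum (fun n => d n * z ^ n) 0) : d = 0 := by
  have h1 : HasFPowerSeriesAt (0 : ℂ → ℂ) (FormalMultilinearSeries.ofScalars ℂ d) 0 := by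
    rw [hasFPowerSeriesAt_iff]
    filter_upwards [Metric.ball_mem_nhds (0 : ℂ) one_pos] with z hz
    have := h z (by simpa using hz)
    simpa [FormalMultilinearSeries.coeff_ofScalars, mul_comm] using this
  have h2 := h1.eq_zero
  ext n
  have := congrArg (fun p => FormalMultilinearSeries.coeff p n) h2
  simp only [FormalMultilinearSeries.coeff_ofScalars] at this
  rw [this]; simp [FormalMultilinearSeries.coeff]

lemma series_unique {A A' : ℂ⟦X⟧} {f : ℂ → ℂ}
    (h : ∀ z : ℂ, ‖z‖ < 1 → HasSum (fun n => A.coeff n * z ^ n) (f z))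
    (h' : ∀ z : ℂ, ‖z‖ < 1 → HasSum (fun n => A'.coeff n * z ^ n) (f z)) : A = A' := by
  have := coeff_zero_of_hasSum (fun n => A.coeff n - A'.coeff n) fun z hz => by
    have h1 := (h z hz).sub (h' z hz)
    rw [sub_self] at h1
    simpa only [sub_mul] using h1
  ext n
  exact sub_eq_zero.1 (congrFun this n)

lemma exists_series {f : ℂ → ℂ} (hf : DifferentiableOn ℂ f (Metric.ball 0 1)) :
    ∃ A : ℂ⟦X⟧, ∀ z : ℂ, ‖z‖ < 1 → HasSum (fun n => A.coeff n * z ^ n) (f z) := by
  refine ⟨PowerSeries.mk fun n => (n.factorial : ℂ)⁻¹ * iteratedDeriv n f 0, fun z hz => ?_⟩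
  have := Complex.hasSum_taylorSeries_on_ball hf (z := z) (by simpa using hz)
  refine hs_congr this (fun n => ?_) rfl
  simp only [coeff_mk, sub_zero, smul_eq_mul]
  ring

lemma B_hasSum (a : ℕ) (e : ℤ) (B : ℤ⟦X⟧)
    (hB : B * pentagonalSeries ℤ ^ (a * (-e).toNat) = pentagonalSeries ℤ ^ (a * e.toNat))
    {x : ℂ} (hx : ‖x‖ < 1) :
    HasSum (fun n => ((B.coeff n : ℤ) : ℂ) * x ^ n) ((PP x ^ a) ^ e) := by
  have hd : DifferentiableOn ℂ (fun x => (PP x ^ a) ^ e) (Metric.ball 0 1) :=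
    (PP_diffOn.pow a).zpow (Or.inl fun y hy => pow_ne_zero _ (PP_ne (by simpa using hy)))
  obtain ⟨A, hA⟩ := exists_series hd
  have h1 : A * pentagonalSeries ℂ ^ (a * (-e).toNat) = pentagonalSeries ℂ ^ (a * e.toNat) := by
    refine series_unique (f := fun y => PP y ^ (a * e.toNat)) (fun y hy => ?_)
      (fun y hy => hasSum_pow_series (pent_hasSum hy) _)
    have h2 := hasSum_mul_series (hA y hy) (hasSum_pow_series (pent_hasSum hy) (a * (-e).toNat))
    have h3 : (PP y ^ a) ^ e * PP y ^ (a * (-e).toNat) = PP y ^ (a * e.toNat) := by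
      have h0 : PP y ^ a ≠ 0 := pow_ne_zero _ (PP_ne hy)
      rw [pow_mul, pow_mul, ← zpow_natCast (PP y ^ a), ← zpow_natCast (PP y ^ a), ← zpow_add₀ h0]
      congr 1
      omega
    rw [← h3]
    exact h2
  have h4 := congrArg (PowerSeries.map (Int.castRingHom ℂ)) hB
  rw [map_mul, map_pow, map_pow, map_pent, ← h1] at h4
  have h5 : pentagonalSeries ℂ ^ (a * (-e).toNat) ≠ 0 := by
    apply pow_ne_zero
    intro h
    have := pent_const ℂ
    rw [h, map_zero] at this
    exact zero_ne_one this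
  have h6 := mul_right_cancel₀ h5 h4
  have h7 := hA x hx
  rw [← h6] at h7
  simpa only [PowerSeries.coeff_map, eq_intCast] using h7

/-- the basic eta power -/
noncomputable def EE (c : ℕ) (z : ℂ) : ℂ := eta z ^ (24 / c)

lemma EE_ne (c : ℕ) {z : ℂ} (hz : 0 < z.im) : EE c z ≠ 0 := pow_ne_zero _ (eta_ne_zero hz)

lemma EE_eq {c : ℕ} (hc : c = 1 ∨ c = 3) (z : ℂ) :
    EE c z = ee (z / c) * PP (ee z) ^ (24 / c) := by
  rw [EE, eta_eq, mul_pow, ee_pow]
  congr 2
  rcases hc with rfl | rfl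
  · norm_num; ring
  · norm_num; ring

lemma EE_diff (c : ℕ) : DifferentiableOn ℂ (EE c) {z : ℂ | 0 < z.im} := fun _ hz =>
  ((differentiableAt_eta_of_mem_upperHalfPlaneSet hz).pow _).differentiableWithinAt

lemma phi_hasSum {c : ℕ} (hc : c = 1 ∨ c = 3) (e : ℤ) (B : ℤ⟦X⟧)
    (hB : B * pentagonalSeries ℤ ^ (24 / c * (-e).toNat) =
      pentagonalSeries ℤ ^ (24 / c * e.toNat)) {z : ℂ} (hz : 0 < z.im) :
    HasSum (fun N : ℤ => (cf c e B N : ℂ) * ee (N * z / c)) (EE c z ^ e) := by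
  have hc0 : (0 : ℤ) < c := by rcases hc with rfl | rfl <;> norm_num
  have hcC : (c : ℂ) ≠ 0 := by exact_mod_cast hc0.ne'
  have hinj : Function.Injective (fun n : ℕ => e + c * (n : ℤ)) := by
    intro n m h
    have h1 : (c : ℤ) * n = c * m := by simpa using h
    exact_mod_cast mul_left_cancel₀ hc0.ne' h1
  rw [← hinj.hasSum_iff]
  · have h1 := (B_hasSum (24 / c) e B hB (norm_ee_lt hz)).mul_left (ee (z / c) ^ e)
    rw [EE_eq hc, mul_zpow]
    refine hs_congr h1 (fun n => ?_) rfl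
    simp only [Function.comp, cf]
    rw [if_pos ⟨by simp, by nlinarith [Int.natCast_nonneg n]⟩, add_sub_cancel_left,
      Int.mul_ediv_cancel_left _ hc0.ne', Int.toNat_natCast, ee_zpow, ee_pow, mul_left_comm,
      ← ee_add]
    congr 2
    push_cast
    field_simp
  · intro N hN
    rw [cf, if_neg, Int.cast_zero, zero_mul]
    rintro ⟨⟨m, hm⟩, h2⟩
    have hm0 : 0 ≤ m := by
      by_contra h
      push Not at h
      nlinarith
    lift m to ℕ using hm0
    exact hN ⟨m, by simp only; linarith⟩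

lemma sum_root_int (p : ℕ) (hp : 0 < p) (N : ℤ) :
    ∑ j ∈ range p, ee (N * j / p) = if (p : ℤ) ∣ N then (p : ℂ) else 0 := by
  have hp0 : (p : ℂ) ≠ 0 := by exact_mod_cast hp.ne'
  have hpZ : (0 : ℤ) < p := by exact_mod_cast hp
  obtain ⟨r, hr⟩ := Int.eq_ofNat_of_zero_le (Int.emod_nonneg N hpZ.ne')
  have hN : N = p * (N / p) + r := by rw [← hr]; exact (Int.mul_ediv_add_emod N p).symm
  have h1 : ((p : ℤ) ∣ N) ↔ p ∣ r := by
    rw [← Int.natCast_dvd_natCast, ← hr]
    exact (Int.dvd_iff_emod_eq_zero).trans ⟨fun h => by rw [h]; exact dvd_zero _, fun h =>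
      Int.eq_zero_of_dvd_of_nonneg_of_lt (Int.emod_nonneg N hpZ.ne') (Int.emod_lt_of_pos N hpZ) h⟩
  rw [if_congr h1 rfl rfl, ← sum_root p r hp]
  refine sum_congr rfl fun j _ => ?_
  have h2 : (N : ℂ) = p * ((N / p : ℤ) : ℂ) + r := by exact_mod_cast hN
  have h3 : (N : ℂ) * j / p = ((N / p * j : ℤ) : ℂ) + j * (r / p) := by
    rw [h2]; push_cast; field_simp
  rw [h3, ee_add, ee_int, one_mul, ← ee_pow]
  rfl

/-- the Hecke sum with shifts by multiples of `c` -/
noncomputable def HH (F : ℂ → ℂ) (k : ℤ) (c p : ℕ) (z : ℂ) : ℂ :=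
  (p : ℂ) ^ (k - 1) * F (p * z) + (p : ℂ)⁻¹ * ∑ j ∈ range p, F ((z + c * j) / p)

lemma im_shift {z : ℂ} (hz : 0 < z.im) {p : ℕ} (hp : 0 < p) (c j : ℕ) :
    0 < ((z + c * j) / p).im := by
  have hpR : (0 : ℝ) < p := by exact_mod_cast hp
  rw [show (p : ℂ) = ((p : ℝ) : ℂ) by simp, Complex.div_ofReal_im]
  simp only [add_im, mul_im, natCast_im, natCast_re, mul_zero, zero_mul, add_zero]
  positivity

lemma im_mul {z : ℂ} (hz : 0 < z.im) {p : ℕ} (hp : 0 < p) : 0 < ((p : ℂ) * z).im := by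
  have hpR : (0 : ℝ) < p := by exact_mod_cast hp
  simpa using mul_pos hpR hz

lemma HH_hasSum (F : ℂ → ℂ) (a : ℤ → ℂ) {c : ℕ} (hc : 0 < c)
    (hF : ∀ z : ℂ, 0 < z.im → HasSum (fun N : ℤ => a N * ee (N * z / c)) (F z))
    (k : ℤ) (p : ℕ) (hp : 0 < p) (z : ℂ) (hz : 0 < z.im) :
    HasSum (fun N : ℤ => (a (p * N) + (p : ℂ) ^ (k - 1) * if (p : ℤ) ∣ N then a (N / p) else 0) *
      ee (N * z / c)) (HH F k c p z) := by
  have hp0 : (p : ℂ) ≠ 0 := by exact_mod_cast hp.ne'
  have hc0 : (c : ℂ) ≠ 0 := by exact_mod_cast hc.ne'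
  have hpZ : (p : ℤ) ≠ 0 := by exact_mod_cast hp.ne'
  have hinj : Function.Injective (fun m : ℤ => (p : ℤ) * m) := mul_right_injective₀ hpZ
  have h1 : HasSum (fun N : ℤ => (if (p : ℤ) ∣ N then a (N / p) else 0) * ee (N * z / c))
      (F (p * z)) := by
    rw [← hinj.hasSum_iff]
    · convert hF (p * z) (im_mul hz hp) using 2 with n
      simp only [Function.comp, dvd_mul_right, if_true, Int.mul_ediv_cancel_left _ hpZ]
      congr 2
      push_cast
      ring
    · intro x hx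
      rw [if_neg, zero_mul]
      rintro ⟨m, rfl⟩; exact hx ⟨m, rfl⟩
  have h2 : HasSum (fun N : ℤ => ∑ j ∈ range p, a N * ee (N * ((z + c * j) / p) / c))
      (∑ j ∈ range p, F ((z + c * j) / p)) :=
    hasSum_sum fun j _ => hF _ (im_shift hz hp c j)
  have h3 : ∀ N : ℤ, ∑ j ∈ range p, a N * ee (N * ((z + c * j) / p) / c) =
      a N * ee (N * z / (c * p)) * if (p : ℤ) ∣ N then (p : ℂ) else 0 := by
    intro N
    rw [← sum_root_int p hp N, Finset.mul_sum]
    refine Finset.sum_congr rfl fun j _ => ?_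
    rw [mul_assoc (a N), ← ee_add]
    congr 2
    field_simp
  simp_rw [h3] at h2
  have h4 : HasSum (fun m : ℤ => p * (a (p * m) * ee (m * z / c)))
      (∑ j ∈ range p, F ((z + c * j) / p)) := by
    rw [← hinj.hasSum_iff] at h2
    · convert h2 using 2 with n
      simp only [Function.comp, dvd_mul_right, if_true]
      rw [show (((p : ℤ) * n : ℤ) : ℂ) * z / (c * p) = n * z / c by push_cast; field_simp]
      ring
    · intro x hx
      rw [if_neg, mul_zero]
      rintro ⟨m, rfl⟩; exact hx ⟨m, rfl⟩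
  have h5 := (h1.mul_left ((p : ℂ) ^ (k - 1))).add (h4.mul_left (p : ℂ)⁻¹)
  refine hs_congr h5 (fun m => ?_) rfl
  rw [inv_mul_cancel_left₀ hp0]
  ring

lemma HH_S {k : ℤ} (F : ℂ → ℂ) {c : ℕ}
    (hF : ∀ α β γ δ : ℤ, α * δ - β * γ = 1 → (c : ℤ) ∣ α → (c : ℤ) ∣ δ → ∀ z : ℂ, 0 < z.im →
      F ((α * z + β) / (γ * z + δ)) = (γ * z + δ) ^ k * F z)
    (p : ℕ) (hp : p.Prime) (hpc : Nat.Coprime p c) (z : ℂ) (hz : 0 < z.im) :
    HH F k c p (-z)⁻¹ = z ^ k * HH F k c p z := by
  have := Fact.mk hp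
  have hp0 : (p : ℂ) ≠ 0 := by exact_mod_cast hp.ne_zero
  have hz0 : z ≠ 0 := by rintro rfl; simp at hz
  have hcp : (c : ZMod p) ≠ 0 := by
    rw [Ne, ZMod.natCast_eq_zero_iff]
    exact (Nat.Prime.coprime_iff_not_dvd hp).1 hpc
  have e1 : F (p * (-z)⁻¹) = (z / p) ^ k * F (z / p) := by
    have := hF 0 (-1) 1 0 (by ring) (dvd_zero _) (dvd_zero _) (z / p) (by
      simpa using im_shift hz hp.pos 0 0)
    simp only [Int.cast_zero, zero_mul, zero_add, Int.cast_neg, Int.cast_one, one_mul,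
      add_zero] at this
    rw [← this]; congr 1; field_simp
  have e2 : F ((-z)⁻¹ / p) = (p * z) ^ k * F (p * z) := by
    have := hF 0 (-1) 1 0 (by ring) (dvd_zero _) (dvd_zero _) (p * z) (im_mul hz hp.pos)
    simp only [Int.cast_zero, zero_mul, zero_add, Int.cast_neg, Int.cast_one, one_mul,
      add_zero] at this
    rw [← this]; congr 1; field_simp
  have e3 : ∀ x : ZMod p, x ≠ 0 →
      F (((-z)⁻¹ + c * x.val) / p) = z ^ k * F ((z + c * (-(c ^ 2 * x)⁻¹).val) / p) := by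
    intro x hx
    have hd : (p : ℤ) ∣ (c * x.val : ℤ) * (c * (-((c : ZMod p) ^ 2 * x)⁻¹).val : ℤ) + 1 := by
      rw [← ZMod.intCast_zmod_eq_zero_iff_dvd]
      push_cast
      simp only [ZMod.natCast_val, ZMod.cast_id', id_eq]
      field_simp
      ring
    obtain ⟨b, hb⟩ := hd
    generalize (-((c : ZMod p) ^ 2 * x)⁻¹).val = y at hb ⊢
    have hbC : ((c : ℂ) * x.val) * (c * y) + 1 = p * b := by exact_mod_cast hb
    have := hF (c * x.val) (-b) p (-(c * y)) (by linarith) (dvd_mul_right _ _)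
      (dvd_neg.2 (dvd_mul_right _ _)) ((z + c * y) / p) (im_shift hz hp.pos c y)
    have hden : (((p : ℤ) : ℂ) * ((z + c * y) / p) + ((-((c : ℤ) * y) : ℤ) : ℂ)) = z := by
      push_cast; field_simp; ring
    rw [hden] at this
    rw [← this]; congr 1
    push_cast
    field_simp
    linear_combination (-1 : ℂ) * hbC
  unfold HH
  rw [sum_range_zmod p (fun j => F (((-z)⁻¹ + c * j) / p)),
    sum_range_zmod p (fun j => F ((z + c * j) / p)),
    ← Finset.add_sum_erase _ _ (mem_univ (0 : ZMod p)),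
    ← Finset.add_sum_erase _ _ (mem_univ (0 : ZMod p))]
  have e4 : ∑ x ∈ (univ : Finset (ZMod p)).erase 0, F (((-z)⁻¹ + c * x.val) / p) =
      z ^ k * ∑ x ∈ (univ : Finset (ZMod p)).erase 0, F ((z + c * x.val) / p) := by
    rw [Finset.mul_sum]
    refine Finset.sum_nbij' (fun x => -((c : ZMod p) ^ 2 * x)⁻¹)
      (fun x => -((c : ZMod p) ^ 2 * x)⁻¹) ?_ ?_ ?_ ?_ ?_
    · intro x hx
      have hx0 : x ≠ 0 := by simpa using hx
      simp [hx0, hcp]
    · intro x hx
      have hx0 : x ≠ 0 := by simpa using hx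
      simp [hx0, hcp]
    · intro x hx
      have hx0 : x ≠ 0 := by simpa using hx
      field_simp
    · intro x hx
      have hx0 : x ≠ 0 := by simpa using hx
      field_simp
    · intro x hx; exact e3 x (by simpa using hx)
  rw [e4, e1]
  simp only [ZMod.val_zero, Nat.cast_zero, mul_zero, add_zero]
  rw [e2, div_zpow, mul_zpow, zpow_sub₀ hp0]
  have : (p : ℂ) ^ k ≠ 0 := zpow_ne_zero _ hp0
  field_simp
  ring

lemma HH_diff {F : ℂ → ℂ} (hf : DifferentiableOn ℂ F {z : ℂ | 0 < z.im}) (k : ℤ) (c : ℕ) {p : ℕ}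
    (hp : 0 < p) : DifferentiableOn ℂ (HH F k c p) {z : ℂ | 0 < z.im} := by
  unfold HH
  refine DifferentiableOn.add (DifferentiableOn.const_mul ?_ _)
    (DifferentiableOn.const_mul (DifferentiableOn.fun_sum fun j _ => ?_) _)
  · exact hf.comp (f := fun z : ℂ => (p : ℂ) * z) (by fun_prop) fun z hz => im_mul hz hp
  · exact hf.comp (f := fun z : ℂ => (z + c * j) / p) (by fun_prop) fun z hz =>
      im_shift hz hp c j

lemma exists_mf (G : ℂ → ℂ) (k : ℤ) (A : ℂ⟦X⟧)
    (hS : ∀ z : ℂ, 0 < z.im → G (-z)⁻¹ = z ^ k * G z)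
    (hsum : ∀ z : ℂ, 0 < z.im → HasSum (fun n => A.coeff n * ee z ^ n) (G z))
    (hd : DifferentiableOn ℂ G {z : ℂ | 0 < z.im}) :
    ∃ F : ModularForm 𝒮ℒ k, qExpansion 1 F = A := by
  have hs : ∀ τ : ℍ, HasSum (fun m => A.coeff m • Function.Periodic.qParam 1 τ ^ m) (G τ) := by
    intro τ
    simpa [Function.Periodic.qParam, ee] using hsum τ τ.2
  have hsl : ∀ γ : SL(2, ℤ), (fun τ : ℍ => G τ) ∣[k] γ = fun τ : ℍ => G τ := by
    intro γ
    apply SlashInvariantForm.slash_action_generators_SL2Z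
    · ext τ
      rw [slash_action_eq'_iff, modular_S_smul]
      have := hS τ τ.2
      simpa [ModularGroup.S] using this
    · ext τ
      rw [slash_action_eq'_iff, modular_T_smul]
      have h1 := hs τ
      have h2 := hs ((1 : ℝ) +ᵥ τ)
      have h3 : Function.Periodic.qParam 1 (((1 : ℝ) +ᵥ τ : ℍ) : ℂ) =
          Function.Periodic.qParam 1 τ := by
        simp only [Function.Periodic.qParam, coe_vadd, ofReal_one, div_one]
        rw [mul_add, Complex.exp_add, mul_one, exp_two_pi_mul_I, one_mul]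
      rw [h3] at h2
      simpa [ModularGroup.T] using h2.unique h1
  let F : ModularForm 𝒮ℒ k :=
    { toFun := fun τ : ℍ => G τ
      slash_action_eq' := fun g hg => by
        obtain ⟨g, rfl⟩ := hg
        exact hsl g
      holo' := by
        rw [UpperHalfPlane.mdifferentiable_iff]
        refine hd.congr fun z hz => ?_
        simp [ofComplex_apply_of_im_pos hz]
      bdd_at_cusps' := fun hc => by
        rw [Subgroup.IsArithmetic.isCusp_iff_isCusp_SL2Z] at hc
        rw [OnePoint.isBoundedAt_iff_forall_SL2Z hc]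
        intro γ _
        rw [hsl γ]
        exact isBoundedAtImInfty_of_hasSum_qExpansion one_pos hs }
  refine ⟨F, ?_⟩
  ext m
  exact (ModularFormClass.qExpansion_coeff_unique one_pos one_mem_strictPeriods_SL
    (f := F) hs m).symm

lemma sq_mod {c p : ℕ} (hc : c = 1 ∨ c = 3) (hpc : Nat.Coprime p (2 * c)) :
    (c : ℤ) ∣ (p : ℤ) * p - 1 := by
  rcases hc with rfl | rfl
  · simp
  · have h3 : ¬ 3 ∣ p := fun h => by
      have := Nat.Coprime.coprime_dvd_left h hpc
      norm_num at this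
    obtain ⟨r, hr⟩ : ∃ r, p = 3 * r + 1 ∨ p = 3 * r + 2 := ⟨p / 3, by omega⟩
    rcases hr with rfl | rfl
    · exact ⟨3 * r * r + 2 * r, by push_cast; ring⟩
    · exact ⟨3 * r * r + 4 * r + 1, by push_cast; ring⟩

lemma cf_ne {c : ℕ} {e : ℤ} {B : ℤ⟦X⟧} {N : ℤ} (h : cf c e B N ≠ 0) :
    (c : ℤ) ∣ N - e ∧ e ≤ N := by
  by_contra h1
  exact h (if_neg h1)

lemma exists_ab (p : ℕ) (hp : Odd p) (w : ℤ) :
    ∃ α β : ℤ, Odd α ∧ Odd β ∧ (α : ℂ) * (p : ℂ) ^ (w - 1) = β := by
  have hp0 : (p : ℂ) ≠ 0 := by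
    have : p ≠ 0 := by rintro rfl; simp at hp
    exact_mod_cast this
  have hpZ : Odd (p : ℤ) := by exact_mod_cast hp
  rcases le_total 0 (w - 1) with h | h
  · obtain ⟨n, hn⟩ := Int.eq_ofNat_of_zero_le h
    exact ⟨1, p ^ n, odd_one, hpZ.pow, by rw [hn, zpow_natCast]; simp⟩
  · obtain ⟨n, hn⟩ := Int.eq_ofNat_of_zero_le (neg_nonneg.2 h)
    refine ⟨p ^ n, 1, hpZ.pow, odd_one, ?_⟩
    rw [show w - 1 = -(n : ℤ) by omega, zpow_neg, zpow_natCast]
    push_cast
    exact mul_inv_cancel₀ (pow_ne_zero _ hp0)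

end KF

open KF in
theorem hecke_form {c p : ℕ} (hc : c = 1 ∨ c = 3) (hp : p.Prime) (hpc : Nat.Coprime p (2 * c))
    (e : ℤ) (M u : ℕ) (hM : (c : ℤ) ∣ M + p * e) (hM' : (p : ℤ) * |e| ≤ M)
    (hu : (c : ℤ) * u = 3 * (e + M)) (B : ℤ⟦X⟧)
    (hB : B * pentagonalSeries ℤ ^ (24 / c * (-e).toNat) =
      pentagonalSeries ℤ ^ (24 / c * e.toNat)) :
    ∃ (F : ModularForm 𝒮ℒ (4 * u : ℤ)) (α β : ℤ), Odd α ∧ Odd β ∧
      qExpansion 1 F = ((PowerSeries.mk fun n : ℕ => α * cf c e B (p * (c * n - M)) +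
        β * if (p : ℤ) ∣ c * n - M then cf c e B ((c * n - M) / p) else 0) *
          pentagonalSeries ℤ ^ (24 / c * M)).map (Int.castRingHom ℂ) := by
  have hc0 : 0 < c := by rcases hc with rfl | rfl <;> norm_num
  have hcZ : (0 : ℤ) < c := by exact_mod_cast hc0
  have hcC : (c : ℂ) ≠ 0 := by exact_mod_cast hc0.ne'
  have hpZ : (1 : ℤ) ≤ p := by exact_mod_cast hp.pos
  have hodd : Odd p := Nat.coprime_two_right.1 (Nat.Coprime.coprime_mul_right_right hpc)
  have hpc' : Nat.Coprime p c := Nat.Coprime.coprime_mul_left_right hpc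
  set w : ℤ := ((12 / c : ℕ) : ℤ) * e with hw
  obtain ⟨α, β, hα, hβ, hαβ⟩ := exists_ab p hodd w
  let φ : ℂ → ℂ := fun z => EE c z ^ e
  have hEt : ∀ a b g d : ℤ, a * d - b * g = 1 → (c : ℤ) ∣ a → (c : ℤ) ∣ d → ∀ z : ℂ, 0 < z.im →
      EE c ((a * z + b) / (g * z + d)) = (g * z + d) ^ (12 / c) * EE c z :=
    fun a b g d h ha hd z hz => eta_trans hc a b g d h ha hd z hz
  have hφt : ∀ a b g d : ℤ, a * d - b * g = 1 → (c : ℤ) ∣ a → (c : ℤ) ∣ d → ∀ z : ℂ, 0 < z.im →
      φ ((a * z + b) / (g * z + d)) = (g * z + d) ^ w * φ z := by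
    intro a b g d h ha hd z hz
    simp only [φ]
    rw [hEt a b g d h ha hd z hz, mul_zpow, hw, zpow_mul, zpow_natCast]
  have hφd : DifferentiableOn ℂ φ {z : ℂ | 0 < z.im} :=
    (EE_diff c).zpow (Or.inl fun z hz => EE_ne c hz)
  let G : ℂ → ℂ := fun z => α * HH φ w c p z * EE c z ^ M
  refine (exists_mf G (4 * u : ℤ)
    (((PowerSeries.mk fun n : ℕ => α * cf c e B (p * (c * n - M)) +
        β * if (p : ℤ) ∣ c * n - M then cf c e B ((c * n - M) / p) else 0) *
          pentagonalSeries ℤ ^ (24 / c * M)).map (Int.castRingHom ℂ)) ?_ ?_ ?_).elim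
    fun F hF => ⟨F, α, β, hα, hβ, hF⟩
  · intro z hz
    have hz0 : z ≠ 0 := by rintro rfl; simp at hz
    have h1 := hEt 0 (-1) 1 0 (by ring) (dvd_zero _) (dvd_zero _) z hz
    simp only [Int.cast_zero, zero_mul, zero_add, Int.cast_neg, Int.cast_one, one_mul,
      add_zero] at h1
    have h2 : (-z)⁻¹ = -1 / z := by field_simp
    have h3 : (4 * u : ℤ) = w + ((12 / c * M : ℕ) : ℤ) := by
      rw [hw]
      rcases hc with rfl | rfl
      · push_cast at hu ⊢; linarith
      · push_cast at hu ⊢; linarith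
    simp only [G]
    rw [HH_S φ hφt p hp hpc' z hz, h2, h1, h3, zpow_add₀ hz0, zpow_natCast, mul_pow, pow_mul]
    ring
  · intro z hz
    have h1 := HH_hasSum φ (fun N => (cf c e B N : ℂ)) hc0 (fun y hy => phi_hasSum hc e B hB hy)
      w p hp.pos z hz
    have h2 := (h1.mul_left (α : ℂ)).mul_right (ee (z / c) ^ M)
    have hinj : Function.Injective (fun n : ℕ => (c : ℤ) * n - M) := by
      intro n m h
      have h1 : (c : ℤ) * n = c * m := by simpa using h
      exact_mod_cast mul_left_cancel₀ hcZ.ne' h1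
    have hrange : ∀ N : ℤ, (c : ℤ) ∣ N + M → 0 ≤ N + M →
        N ∈ Set.range (fun n : ℕ => (c : ℤ) * n - M) := by
      rintro N ⟨m, hm⟩ h0
      have hm0 : 0 ≤ m := by
        by_contra h
        push Not at h
        nlinarith
      lift m to ℕ using hm0
      exact ⟨m, by simp only; linarith⟩
    have he1 := neg_abs_le e
    have he2 := abs_nonneg e
    rw [← hinj.hasSum_iff] at h2
    · have h3 : HasSum (fun n : ℕ => ((PowerSeries.mk fun n : ℕ => α * cf c e B (p * (c * n - M)) +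
          β * if (p : ℤ) ∣ c * n - M then cf c e B ((c * n - M) / p) else 0).map
            (Int.castRingHom ℂ)).coeff n * ee z ^ n) (α * HH φ w c p z * ee (z / c) ^ M) := by
        refine hs_congr h2 (fun n => ?_) rfl
        simp only [Function.comp, PowerSeries.coeff_map, coeff_mk, eq_intCast]
        have h4 : ee z ^ n = ee ((((c : ℤ) * n - M : ℤ) : ℂ) * z / c) * ee (z / c) ^ M := by
          rw [ee_pow, ee_pow, ← ee_add]
          congr 1
          push_cast
          field_simp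
          ring
        rw [h4, Int.cast_add, Int.cast_mul, Int.cast_mul, ← hαβ]
        split_ifs
        · ring
        · rw [Int.cast_zero]; ring
      have h5 := hasSum_mul_series h3 (hasSum_pow_series (pent_hasSum (norm_ee_lt hz)) (24 / c * M))
      rw [map_mul, map_pow, map_pent]
      refine hs_congr h5 (fun _ => rfl) ?_
      simp only [G]
      rw [EE_eq hc, mul_pow, pow_mul]
      simp only [PP]
      ring
    · intro N hN
      have ha : cf c e B (p * N) = 0 := by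
        by_contra h
        obtain ⟨h1, h2⟩ := cf_ne h
        refine hN (hrange N ?_ ?_)
        · have h3 : N + M = p * (p * N - e) + (M + p * e) - (p * p - 1) * N := by ring
          rw [h3]
          exact ((h1.mul_left _).add hM).sub ((sq_mod hc hpc).mul_right _)
        · by_cases h0 : 0 ≤ N
          · positivity
          · nlinarith
      have hb : (if (p : ℤ) ∣ N then (cf c e B (N / p) : ℂ) else 0) = 0 := by
        split_ifs with hd
        · obtain ⟨N', rfl⟩ := hd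
          rw [Int.mul_ediv_cancel_left _ (by omega)]
          by_contra h
          obtain ⟨h1, h2⟩ := cf_ne (c := c) (e := e) (B := B) (N := N') (by exact_mod_cast h)
          refine hN (hrange _ ?_ ?_)
          · have h3 : p * N' + M = p * (N' - e) + (M + p * e) := by ring
            rw [h3]
            exact (h1.mul_left _).add hM
          · nlinarith
        · rfl
      simp only [ha, hb, Int.cast_zero, mul_zero, add_zero, zero_mul]
  · exact ((HH_diff hφd w c hp.pos).const_mul _).mul ((EE_diff c).pow M)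

end Pool.Agent.Lib.MP_a3366f_nt.Ker
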