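import Mathlib
import Pool.Agent.Lib.MP_a3366f_nt.KDefs

open UpperHalfPlane ModularForm PowerSeries
open scoped MatrixGroups

namespace Pool.Agent.Lib.MP_a3366f_nt.Ker

/-- One step: subtract a multiple of a power of `E₄` and divide by the discriminant. -/
theorem structure4_step (u : ℕ) (w : ℤ) (hw : w = 4 * u) (F : ModularForm 𝒮ℒ w) (A : ℤ⟦X⟧)
    (hA : qExpansion 1 F = A.map (Int.castRingHom ℂ)) :
    ∃ (a : ZMod 2) (G : ModularForm 𝒮ℒ (w - 12)) (B : ℤ⟦X⟧),
      qExpansion 1 G = B.map (Int.castRingHom ℂ) ∧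
      A.map (Int.castRingHom (ZMod 2)) = C a + D * B.map (Int.castRingHom (ZMod 2)) := by
  let G : ModularForm 𝒮ℒ w := (E₄.pow u).mcast (by rw [hw]; ring)
  have hG : qExpansion 1 G = ((1 + 240 * sigZ 3 : ℤ⟦X⟧) ^ u).map (Int.castRingHom ℂ) := by
    rw [ModularForm.qExpansion_mcast, ModularForm.qExpansion_pow one_pos one_mem_strictPeriods_SL,
      E4_qexp, map_pow]
  set a : ℤ := constantCoeff A with ha
  let F' : ModularForm 𝒮ℒ w := F - (a : ℂ) • G
  set A' : ℤ⟦X⟧ := A - C a * (1 + 240 * sigZ 3 : ℤ⟦X⟧) ^ u with hA'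
  have hF' : qExpansion 1 F' = A'.map (Int.castRingHom ℂ) := by
    have : (F' : ℍ → ℂ) = ⇑F - ⇑((a : ℂ) • G) := rfl
    rw [this, ModularForm.qExpansion_sub one_pos one_mem_strictPeriods_SL]
    have : (((a : ℂ) • G : ModularForm 𝒮ℒ w) : ℍ → ℂ) = (a : ℂ) • ⇑G := rfl
    rw [this, ModularForm.qExpansion_smul one_pos one_mem_strictPeriods_SL, hA, hG, hA',
      map_sub, map_mul, map_C, smul_eq_C_mul]
    rfl
  have h0 : constantCoeff A' = 0 := by
    have : constantCoeff (sigZ 3) = 0 := by simp [sigZ, ← coeff_zero_eq_constantCoeff_apply]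
    simp [hA', ha, this]
  have h0' : (qExpansion 1 F').coeff 0 = 0 := by
    rw [hF', PowerSeries.coeff_map, coeff_zero_eq_constantCoeff_apply, h0, map_zero]
  obtain ⟨A'', hA''⟩ := X_dvd_iff.2 h0
  have hu : IsUnit (pentagonalSeries ℤ ^ 24) := by
    apply IsUnit.pow
    rw [PowerSeries.isUnit_iff_constantCoeff, pent_const]; exact isUnit_one
  obtain ⟨V, hV⟩ := hu.exists_right_inv
  have hB := qExpansion_eq_qExpansion_discriminant_mul F' h0'
  have hd : qExpansion 1 discriminant = X * pentagonalSeries ℂ ^ 24 := disc_qexp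
  have hB2 : qExpansion 1 (CuspForm.discriminantEquiv (toCuspForm F' h0')) =
      (A'' * V).map (Int.castRingHom ℂ) := by
    rw [hF', hd, hA'', map_mul, map_X, mul_assoc] at hB
    have h3 := mul_left_cancel₀ X_ne_zero hB
    have h4 := congrArg (PowerSeries.map (Int.castRingHom ℂ)) hV
    rw [map_mul, map_pow, map_pent, map_one] at h4
    rw [map_mul, h3]
    linear_combination (-(qExpansion 1 (CuspForm.discriminantEquiv (toCuspForm F' h0')))) * h4
  refine ⟨(a : ZMod 2), _, _, hB2, ?_⟩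
  have hc : CharP (ZMod 2)⟦X⟧ 2 :=
    charP_of_injective_ringHom (PowerSeries.C_injective (R := ZMod 2)) 2
  have e2 : (2 : (ZMod 2)⟦X⟧) = 0 := CharTwo.two_eq_zero
  have e240 : (240 : (ZMod 2)⟦X⟧) = 0 := by linear_combination 120 * e2
  have h4 := congrArg (PowerSeries.map (Int.castRingHom (ZMod 2))) hV
  rw [map_mul, map_pow, map_pent, map_one] at h4
  have h5 : A = C a * (1 + 240 * sigZ 3 : ℤ⟦X⟧) ^ u + X * A'' := by
    rw [← hA'', hA']; ring
  rw [← X_mul_pent_pow, h5]
  simp only [map_mul, map_add, map_pow, map_X, map_one, map_ofNat, e240, zero_mul,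
    add_zero, one_pow, mul_one, eq_intCast, map_intCast]
  linear_combination (-(X * PowerSeries.map (Int.castRingHom (ZMod 2)) A'')) * h4

theorem structure4 (u : ℕ) : ∀ (w : ℤ) (_ : w = 4 * u) (F : ModularForm 𝒮ℒ w) (A : ℤ⟦X⟧),
    qExpansion 1 F = A.map (Int.castRingHom ℂ) →
      ∃ P : R2, 3 * P.natDegree ≤ u ∧
        A.map (Int.castRingHom (ZMod 2)) = Polynomial.aeval D P := by
  induction u using Nat.strong_induction_on with
  | _ u ih =>
    intro w hw F A hA
    obtain ⟨a, G, B, hG, hAB⟩ := structure4_step u w hw F A hA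
    rcases lt_or_ge u 3 with hu | hu
    · have hG0 : (G : ℍ → ℂ) = 0 := ModularFormClass.levelOne_neg_weight_eq_zero (by omega) G
      rw [hG0, qExpansion_zero] at hG
      have hB : B = 0 := mapZC_inj (hG.symm.trans (map_zero _).symm)
      refine ⟨Polynomial.C a, by simp, ?_⟩
      rw [hAB, hB, map_zero, mul_zero, add_zero, Polynomial.aeval_C]
      rfl
    · obtain ⟨v, rfl⟩ := Nat.exists_eq_add_of_le hu
      obtain ⟨P, hP, hPB⟩ := ih v (by omega) (w - 12) (by rw [hw]; push_cast; ring) G B hG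
      refine ⟨Polynomial.C a + Polynomial.X * P, ?_, ?_⟩
      · have h1 : (Polynomial.C a + Polynomial.X * P : R2).natDegree ≤ 1 + P.natDegree :=
          (Polynomial.natDegree_add_le _ _).trans (max_le (by simp)
            (Polynomial.natDegree_mul_le.trans
              (Nat.add_le_add_right Polynomial.natDegree_X_le _)))
        omega
      · rw [map_add, map_mul, Polynomial.aeval_X, Polynomial.aeval_C, ← hPB, hAB]
        rfl

end Pool.Agent.Lib.MP_a3366f_nt.Ker
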