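import Mathlib
import Pool.Agent.Lib.MP_a3366f_nt.KDefs
import Pool.Agent.Lib.MP_a3366f_nt.KHecke
import Pool.Agent.Lib.MP_a3366f_nt.KSpan
import Pool.Agent.Lib.MP_a3366f_nt.KStruct
import Pool.Agent.Lib.MP_a3366f_nt.KForm

namespace Pool.Agent.Lib.MP_a3366f_nt.Ker

open PowerSeries

namespace StabAux

theorem sq_mod {c p : ℕ} (hc : c = 1 ∨ c = 3) (hpc : Nat.Coprime p (2 * c)) :
    (p : ℤ) * p ≡ 1 [ZMOD (8 * c)] := by
  have h2 : p % 2 = 1 := by
    have h := (Nat.Coprime.coprime_mul_right_right hpc)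
    exact Nat.odd_iff.1 (Nat.coprime_two_right.1 h)
  have key : p * p ≡ 1 [MOD (8 * c)] := by
    rcases hc with rfl | rfl
    · have h8 : p % 8 = 1 ∨ p % 8 = 3 ∨ p % 8 = 5 ∨ p % 8 = 7 := by omega
      unfold Nat.ModEq
      rw [Nat.mul_mod]
      rcases h8 with h | h | h | h <;> simp [h]
    · have h3 : p % 3 ≠ 0 := fun h => by
        have h4 := Nat.Coprime.coprime_mul_left_right hpc
        have h5 := Nat.eq_one_of_dvd_coprimes h4 (Nat.dvd_of_mod_eq_zero h) dvd_rfl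
        omega
      have h8 : p % 24 = 1 ∨ p % 24 = 5 ∨ p % 24 = 7 ∨ p % 24 = 11 ∨ p % 24 = 13 ∨ p % 24 = 17 ∨
        p % 24 = 19 ∨ p % 24 = 23 := by omega
      unfold Nat.ModEq
      rw [Nat.mul_mod]
      rcases h8 with h | h | h | h | h | h | h | h <;> simp [h]
  have := Int.natCast_modEq_iff.2 key
  push_cast at this
  exact this

theorem coeff_shift {c : ℕ} (h0 : c ≠ 0) (k : ℤ) (g : S2) (N : ℤ) :
    (HahnSeries.single k (1 : ZMod 2) *
      HahnSeries.ofPowerSeries ℤ (ZMod 2) (expand c h0 g) : L2).coeff N =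
      if (c : ℤ) ∣ N - k ∧ k ≤ N then g.coeff ((N - k) / c).toNat else 0 := by
  rw [HahnSeries.coeff_single_mul, one_mul]
  by_cases h : k ≤ N
  · obtain ⟨n, hn⟩ := Int.eq_ofNat_of_zero_le (sub_nonneg.2 h)
    rw [hn, HahnSeries.ofPowerSeries_apply_coeff, coeff_expand]
    simp only [h, and_true, Int.natCast_dvd_natCast]
    split_ifs with h1
    · rw [← Int.natCast_div, Int.toNat_natCast]
    · rfl
  · rw [if_neg (fun h1 => h h1.2)]
    have := PowerSeries.coeff_coe (expand c h0 g) (N - k)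
    rw [if_pos (by omega)] at this
    exact this

theorem pent_unit : IsUnit (pentagonalSeries ℤ) := by
  rw [PowerSeries.isUnit_iff_constantCoeff]
  have h := coeff_pentagonalSeries_pentagonal ℤ 0
  have h0 : pentagonal 0 = 0 := by decide
  rw [h0, coeff_zero_eq_constantCoeff] at h
  rw [h]
  simp

theorem exists_B (a b : ℕ) : ∃ B : ℤ⟦X⟧, B * pentagonalSeries ℤ ^ a = pentagonalSeries ℤ ^ b := by
  obtain ⟨v, hv⟩ := (pent_unit.pow a).exists_left_inv
  exact ⟨pentagonalSeries ℤ ^ b * v, by rw [mul_assoc, hv, mul_one]⟩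

/-- The unit part of `S c`. -/
noncomputable def W (c : ℕ) (h0 : c ≠ 0) : L2 :=
  HahnSeries.ofPowerSeries ℤ (ZMod 2) (expand c h0 (pent ^ (24 / c)))

theorem S_eq {c : ℕ} (hc : c = 1 ∨ c = 3) (h0 : c ≠ 0) :
    S c = HahnSeries.single (1 : ℤ) (1 : ZMod 2) * W c h0 := by
  rw [S, SP_eq hc h0, map_mul, HahnSeries.ofPowerSeries_X, W]

theorem W_ne_zero {c : ℕ} (hc : c = 1 ∨ c = 3) (h0 : c ≠ 0) : W c h0 ≠ 0 := fun h => by
  have := S_ne_zero hc
  rw [S_eq hc h0, h, mul_zero] at this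
  exact this rfl

theorem W_pow {c : ℕ} (h0 : c ≠ 0) (n : ℕ) :
    W c h0 ^ n = HahnSeries.ofPowerSeries ℤ (ZMod 2) (expand c h0
      ((pentagonalSeries ℤ ^ (24 / c * n)).map (Int.castRingHom (ZMod 2)))) := by
  rw [W, ← map_pow, ← map_pow, ← pow_mul, map_pow (PowerSeries.map _), map_pent]

theorem S_zpow_eq {c : ℕ} (hc : c = 1 ∨ c = 3) (h0 : c ≠ 0) (e : ℤ) (B : ℤ⟦X⟧)
    (hB : B * pentagonalSeries ℤ ^ (24 / c * (-e).toNat) =
      pentagonalSeries ℤ ^ (24 / c * e.toNat)) :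
    S c ^ e = HahnSeries.single e (1 : ZMod 2) * HahnSeries.ofPowerSeries ℤ (ZMod 2)
      (expand c h0 (B.map (Int.castRingHom (ZMod 2)))) := by
  rw [S_eq hc h0, mul_zpow, ← RatFunc.single_zpow]
  congr 1
  have h1 : HahnSeries.ofPowerSeries ℤ (ZMod 2) (expand c h0 (B.map (Int.castRingHom (ZMod 2)))) *
      W c h0 ^ (-e).toNat = W c h0 ^ e.toNat := by
    rw [W_pow, W_pow, ← map_mul, ← map_mul, ← map_mul, hB]
  have h2 := W_ne_zero hc h0
  have h3 : e = (e.toNat : ℤ) - ((-e).toNat : ℤ) := by omega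
  have h4 : W c h0 ^ e = W c h0 ^ e.toNat / W c h0 ^ (-e).toNat := by
    conv_lhs => rw [h3]
    rw [zpow_sub₀ h2, zpow_natCast, zpow_natCast]
  rw [h4, ← h1, mul_div_assoc, div_self (pow_ne_zero _ h2), mul_one]

theorem coeff_S_zpow {c : ℕ} (hc : c = 1 ∨ c = 3) (e : ℤ) (B : ℤ⟦X⟧)
    (hB : B * pentagonalSeries ℤ ^ (24 / c * (-e).toNat) =
      pentagonalSeries ℤ ^ (24 / c * e.toNat)) (N : ℤ) :
    (S c ^ e).coeff N = (cf c e B N : ZMod 2) := by
  have h0 : c ≠ 0 := by omega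
  rw [S_zpow_eq hc h0 e B hB, coeff_shift, cf]
  split_ifs
  · simp
  · simp

theorem odd_cast {a : ℤ} (ha : Odd a) : (a : ZMod 2) = 1 := by
  obtain ⟨k, rfl⟩ := ha
  have : (2 : ZMod 2) = 0 := rfl
  push_cast
  rw [this]
  simp

theorem TL_eq {c p : ℕ} (hc : c = 1 ∨ c = 3) (h0 : c ≠ 0) (hp : p.Prime)
    (hpc : Nat.Coprime p (2 * c))
    (e : ℤ) (M : ℕ) (hM : (c : ℤ) ∣ M + p * e) (hM' : (p : ℤ) * |e| ≤ M) (B : ℤ⟦X⟧)
    (hB : B * pentagonalSeries ℤ ^ (24 / c * (-e).toNat) =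
      pentagonalSeries ℤ ^ (24 / c * e.toNat)) {α β : ℤ} (hα : Odd α) (hβ : Odd β) :
    TL p (S c ^ e) = HahnSeries.single (-(M : ℤ)) (1 : ZMod 2) *
      HahnSeries.ofPowerSeries ℤ (ZMod 2) (expand c h0
        ((PowerSeries.mk fun n : ℕ => α * cf c e B (p * (c * n - M)) +
        β * if (p : ℤ) ∣ c * n - M then cf c e B ((c * n - M) / p) else 0).map
          (Int.castRingHom (ZMod 2)))) := by
  ext N
  rw [coeff_shift, coeff_TL_prime hp, coeff_S_zpow hc e B hB, coeff_S_zpow hc e B hB]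
  have hp1 : (1 : ℤ) ≤ p := by exact_mod_cast hp.one_le
  have he1 := neg_abs_le e
  have he2 := abs_nonneg e
  by_cases h : (c : ℤ) ∣ N - -(M : ℤ) ∧ -(M : ℤ) ≤ N
  · rw [if_pos h]
    obtain ⟨⟨k, hk⟩, h2⟩ := h
    have hc0 : (0 : ℤ) < c := by exact_mod_cast Nat.pos_of_ne_zero h0
    have hk0 : 0 ≤ k := by
      by_contra h3
      have : (c : ℤ) * k < 0 := mul_neg_of_pos_of_neg hc0 (not_le.1 h3)
      omega
    obtain ⟨n, rfl⟩ := Int.eq_ofNat_of_zero_le hk0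
    have h4 : (c : ℤ) * n - M = N := by omega
    rw [hk, Int.mul_ediv_cancel_left _ hc0.ne', Int.toNat_natCast, coeff_map, coeff_mk, h4]
    simp only [eq_intCast, Int.cast_add, Int.cast_mul, odd_cast hα, odd_cast hβ, one_mul]
    split_ifs
    · rfl
    · simp
  · rw [if_neg h]
    have h5 : cf c e B (p * N) = 0 := by
      rw [cf, if_neg]
      rintro ⟨h6, h7⟩
      refine h ⟨?_, ?_⟩
      · have h8 : (c : ℤ) ∣ 1 - (p : ℤ) * p :=
          (Dvd.intro_left _ rfl).trans (sq_mod hc hpc).dvd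
        have h9 : N - -(M : ℤ) = p * (p * N - e) + (M + p * e) + (1 - (p : ℤ) * p) * N := by ring
        rw [h9]
        exact ((h6.mul_left _).add hM).add (h8.mul_right _)
      · by_cases hN : 0 ≤ N
        · omega
        · nlinarith
    rw [h5]
    split_ifs with h6
    · obtain ⟨k, rfl⟩ := h6
      rw [Int.mul_ediv_cancel_left _ (by omega)]
      have h7 : cf c e B k = 0 := by
        rw [cf, if_neg]
        rintro ⟨h8, h9⟩
        refine h ⟨?_, ?_⟩
        · have h10 : (p : ℤ) * k - -(M : ℤ) = p * (k - e) + (M + p * e) := by ring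
          rw [h10]
          exact (h8.mul_left _).add hM
        · nlinarith
      rw [h7]
      simp
    · simp

end StabAux

open StabAux

theorem stab {c p : ℕ} (hc : c = 1 ∨ c = 3) (hp : p.Prime) (hpc : Nat.Coprime p (2 * c)) (e : ℤ) :
    TL p (S c ^ e) ∈ Sp c {j | j ≤ e} := by
  have h0 : c ≠ 0 := by omega
  have hp1 : (1 : ℤ) ≤ p := by exact_mod_cast hp.one_le
  have he1 := neg_abs_le e
  have he2 := abs_nonneg e
  have he3 := le_abs_self e
  obtain ⟨M, hMe⟩ := Int.eq_ofNat_of_zero_le (show 0 ≤ 3 * (p * |e|) - p * e by nlinarith)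
  have hM : (c : ℤ) ∣ M + p * e := by
    rw [← hMe, sub_add_cancel]
    refine Dvd.dvd.mul_right ?_ _
    rcases hc with rfl | rfl <;> norm_num
  have hM' : (p : ℤ) * |e| ≤ M := by rw [← hMe]; nlinarith
  obtain ⟨v, hv⟩ := Int.eq_ofNat_of_zero_le (show 0 ≤ e + M by nlinarith)
  have hu : (c : ℤ) * ((3 / c * v : ℕ) : ℤ) = 3 * (e + M) := by
    rw [hv]
    rcases hc with rfl | rfl <;> push_cast <;> ring
  obtain ⟨B, hB⟩ := exists_B (24 / c * (-e).toNat) (24 / c * e.toNat)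
  obtain ⟨F, α, β, hα, hβ, hF⟩ := hecke_form hc hp hpc e M (3 / c * v) hM hM' hu B hB
  obtain ⟨P, hP, hPA⟩ := structure4 (3 / c * v) _ rfl F _ hF
  have h1 := TL_eq hc h0 hp hpc e M hM hM' B hB hα hβ
  have hS := S_ne_zero hc
  have h2 : TL p (S c ^ e) * S c ^ M =
      ∑ r ∈ Finset.range (P.natDegree + 1), P.coeff r • S c ^ (c * r) := by
    have h3 : S c ^ M = HahnSeries.single (M : ℤ) (1 : ZMod 2) * W c h0 ^ M := by
      rw [S_eq hc h0, mul_pow, ← RatFunc.single_one_eq_pow]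
    rw [h1, h3, mul_mul_mul_comm, HahnSeries.single_mul_single, neg_add_cancel, one_mul,
      HahnSeries.single_zero_one, one_mul, W_pow, ← map_mul, ← map_mul, ← map_mul, hPA,
      ← Polynomial.aeval_algHom_apply, ← SP_pow_self hc h0, Polynomial.aeval_eq_sum_range, map_sum]
    refine Finset.sum_congr rfl fun r _ => ?_
    rw [← pow_mul, S, ← map_pow]
    exact map_smul (HahnSeries.ofPowerSeriesAlg ℤ (ZMod 2) (A := ZMod 2)) _ _
  have h4 : TL p (S c ^ e) =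
      ∑ r ∈ Finset.range (P.natDegree + 1), P.coeff r • S c ^ ((c : ℤ) * r - M) := by
    rw [eq_div_of_mul_eq (pow_ne_zero _ hS) h2, Finset.sum_div]
    refine Finset.sum_congr rfl fun r _ => ?_
    rw [zpow_sub₀ hS, zpow_natCast, ← Nat.cast_mul, zpow_natCast, div_eq_mul_inv, div_eq_mul_inv,
      smul_mul_assoc]
  rw [h4]
  refine Submodule.sum_mem _ fun r hr => Submodule.smul_mem _ _ (Submodule.subset_span ⟨_, ?_, rfl⟩)
  have h5 : r ≤ P.natDegree := Nat.lt_succ_iff.1 (Finset.mem_range.1 hr)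
  have h6 : (3 * r : ℤ) ≤ ((3 / c * v : ℕ) : ℤ) := by exact_mod_cast (by omega)
  have hc0 : (0 : ℤ) ≤ c := Int.natCast_nonneg c
  show (c : ℤ) * r - M ≤ e
  nlinarith

theorem stab_class {c p : ℕ} (hc : c = 1 ∨ c = 3) (hp : p.Prime) (hpc : Nat.Coprime p (2 * c))
    (e : ℤ) :
    TL p (S c ^ e) ∈ Sp c {j | j ≤ e ∧ j ≡ p * e [ZMOD (8 * c)] ∧ (0 ≤ e → 0 ≤ j)} := by
  have h1 := Sp_refine hc (stab hc hp hpc e)
  have hp1 : (1 : ℤ) ≤ p := by exact_mod_cast hp.one_le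
  refine Submodule.span_mono (Set.image_mono ?_) h1
  rintro j ⟨hj, n, hn, hnj, hcl⟩
  have key : n ≡ p * e [ZMOD (8 * c)] ∧ (0 ≤ e → 0 ≤ n) := by
    rw [coeff_TL_prime hp] at hn
    by_cases h2 : (S c ^ e).coeff (p * n) = 0
    · rw [h2, zero_add] at hn
      split_ifs at hn with h3
      · obtain ⟨k, rfl⟩ := h3
        rw [Int.mul_ediv_cancel_left _ (by omega)] at hn
        obtain ⟨h4, h5⟩ := supp_S_zpow hc hn
        exact ⟨h5.mul_left _, fun h6 => by nlinarith⟩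
      · exact absurd rfl hn
    · obtain ⟨h4, h5⟩ := supp_S_zpow hc h2
      refine ⟨?_, fun h6 => ?_⟩
      · have h7 := (sq_mod hc hpc).mul_right n
        rw [one_mul, mul_assoc] at h7
        exact h7.symm.trans (h5.mul_left _)
      · by_contra h7
        nlinarith
  exact ⟨hj, hcl.symm.trans key.1, fun h => (key.2 h).trans hnj⟩

theorem stab_poly {c p : ℕ} (hc : c = 1 ∨ c = 3) (hp : p.Prime) (hpc : Nat.Coprime p (2 * c))
    (k : ℕ) : ∃ Q : R2, (∀ e, Q.coeff e ≠ 0 → e ≤ k ∧ e ≡ p * k [MOD (8 * c)]) ∧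
      T p (SP c ^ k) = Polynomial.aeval (SP c) Q := by
  have h1 := stab_class hc hp hpc k
  rw [mem_Sp_iff_poly hc (fun j hj => hj.2.2 (Int.natCast_nonneg k))] at h1
  obtain ⟨Q, hQ, h2⟩ := h1
  refine ⟨Q, fun e he => ?_, ?_⟩
  · obtain ⟨h3, h4, -⟩ := hQ e he
    refine ⟨by exact_mod_cast h3, Int.natCast_modEq_iff.1 ?_⟩
    push_cast
    exact h4
  · rw [zpow_natCast, S, ← map_pow, TL_coe hp] at h2
    exact HahnSeries.ofPowerSeries_injective h2

end Pool.Agent.Lib.MP_a3366f_nt.Ker
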