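import Mathlib
import Pool.Agent.Lib.MP_a3366f_nt.KDefs
import Pool.Agent.Lib.MP_a3366f_nt.KHecke
import Pool.Agent.Lib.MP_a3366f_nt.KSpan
import Pool.Agent.Lib.MP_a3366f_nt.KStab

/-!
Stability of the spans under the Hecke operators, and the representation of a constant term by an
element of the positive span.
-/

open Finset

namespace Pool.Agent.Lib.MP_a3366f_nt.Ker

theorem z2_ne_zero {x : ZMod 2} (h : x ≠ 0) : x = 1 := by
  revert x; decide

theorem coeff_mul_fin (f g : L2) (n : ℤ) (A : Finset ℤ)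
    (h : ∀ m, f.coeff m ≠ 0 → g.coeff (n - m) ≠ 0 → m ∈ A) :
    (f * g).coeff n = ∑ m ∈ A, f.coeff m * g.coeff (n - m) := by
  classical
  rw [HahnSeries.coeff_mul]
  symm
  refine Finset.sum_bij_ne_zero (fun m _ _ => (m, n - m)) ?_ ?_ ?_ ?_
  · intro m _ h2
    rw [Finset.mem_antidiagonal]
    exact ⟨left_ne_zero_of_mul h2, right_ne_zero_of_mul h2, by simp⟩
  · intro a _ _ b _ _ hab
    exact (Prod.ext_iff.1 hab).1
  · rintro ⟨a, b⟩ hab h2
    rw [Finset.mem_antidiagonal] at hab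
    obtain ⟨h3, h4, h5⟩ := hab
    simp only at h5
    have hb : b = n - a := by omega
    subst hb
    exact ⟨a, h a h3 h4, h2, rfl⟩
  · intro m _ _
    rfl

theorem exists_of_coeff_mul {f g : L2} {n : ℤ} (h : (f * g).coeff n ≠ 0) :
    ∃ a b, f.coeff a ≠ 0 ∧ g.coeff b ≠ 0 ∧ a + b = n := by
  rw [HahnSeries.coeff_mul] at h
  obtain ⟨⟨a, b⟩, hab, _⟩ := Finset.exists_ne_zero_of_sum_ne_zero h
  rw [Finset.mem_antidiagonal] at hab
  exact ⟨a, b, hab.1, hab.2.1, hab.2.2⟩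

theorem Sp_mono {c : ℕ} {J J' : Set ℤ} (h : J ⊆ J') : Sp c J ≤ Sp c J' :=
  Submodule.span_mono (Set.image_mono h)

theorem zpow_mem_Sp {c : ℕ} {J : Set ℤ} {j : ℤ} (h : j ∈ J) : S c ^ j ∈ Sp c J :=
  Submodule.subset_span ⟨j, h, rfl⟩

theorem Sp_map {c : ℕ} {J : Set ℤ} (U : Submodule (ZMod 2) L2) (F : L2 →ₗ[ZMod 2] L2)
    (h : ∀ j ∈ J, F (S c ^ j) ∈ U) {f : L2} (hf : f ∈ Sp c J) : F f ∈ U := by
  have : Sp c J ≤ U.comap F := by
    refine Submodule.span_le.2 ?_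
    rintro _ ⟨j, hj, rfl⟩
    exact h j hj
  exact this hf

theorem Sp_empty {c : ℕ} {J : Set ℤ} (hJ : ∀ j, j ∉ J) {f : L2} (hf : f ∈ Sp c J) : f = 0 := by
  have : J = ∅ := Set.eq_empty_iff_forall_notMem.2 hJ
  subst this
  simpa [Sp] using hf

theorem Adm.of_modEq {c : ℕ} {j k : ℤ} (hk : Adm c k) (h : j ≡ k [ZMOD (8 * c)]) : Adm c j := by
  obtain ⟨r, hr⟩ := h.dvd
  have : j = k + (2 * c) * (-(4 * r)) := by linarith
  unfold Adm
  rw [this]
  exact IsCoprime.add_mul_left_left hk _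

theorem Adm.mul {c : ℕ} {j k : ℤ} (hj : Adm c j) (hk : Adm c k) : Adm c (j * k) :=
  IsCoprime.mul_left hj hk

theorem Adm.neg {c : ℕ} {j : ℤ} (hj : Adm c j) : Adm c (-j) := IsCoprime.neg_left hj

theorem adm_nat {c n : ℕ} : Adm c n ↔ Nat.Coprime n (2 * c) := by
  unfold Adm
  rw [← Nat.isCoprime_iff_coprime]
  push_cast
  rfl

theorem Adm.ne_zero {c : ℕ} {j : ℤ} (hj : Adm c j) : j ≠ 0 := by
  rintro rfl
  have h := isCoprime_zero_left.1 hj
  rw [Int.isUnit_iff] at h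
  omega

theorem Adm.odd {c : ℕ} {j : ℤ} (hj : Adm c j) : Odd j := by
  have h : IsCoprime j 2 := IsCoprime.of_mul_right_left hj
  rw [← Int.not_even_iff_odd]
  rintro ⟨r, rfl⟩
  obtain ⟨a, b, hab⟩ := h
  have : 2 * (a * r + b) = 1 := by linarith
  omega

/-- The span of the admissible positive powers of degree at most `D`. -/
noncomputable def PosD (c : ℕ) (D : ℤ) : Submodule (ZMod 2) L2 :=
  Sp c {j | 0 < j ∧ j ≤ D ∧ Adm c j}

theorem PosD_le {c : ℕ} (D : ℤ) : PosD c D ≤ Pos c :=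
  Sp_mono fun _ hj => ⟨hj.1, hj.2.2⟩

theorem TL_prime_Neg {c p : ℕ} (hc : c = 1 ∨ c = 3) (hp : p.Prime) (hpc : Nat.Coprime p (2 * c))
    {f : L2} (hf : f ∈ Neg c) : TL p f ∈ Neg c := by
  refine Sp_map _ _ (fun e he => Sp_mono ?_ (stab_class hc hp hpc e)) hf
  rintro j ⟨h1, h2, _⟩
  exact ⟨lt_of_le_of_lt h1 he.1, ((adm_nat.2 hpc).mul he.2).of_modEq h2⟩

theorem TL_prime_PosD {c p : ℕ} (hc : c = 1 ∨ c = 3) (hp : p.Prime)
    (hpc : Nat.Coprime p (2 * c)) {D : ℤ} {f : L2} (hf : f ∈ PosD c D) : TL p f ∈ PosD c D := by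
  refine Sp_map _ _ (fun e he => Sp_mono ?_ (stab_class hc hp hpc e)) hf
  rintro j ⟨h1, h2, h3⟩
  have h4 := ((adm_nat.2 hpc).mul he.2.2).of_modEq h2
  exact ⟨lt_of_le_of_ne (h3 he.1.le) h4.ne_zero.symm, h1.trans he.2.1, h4⟩

theorem TL_Neg {c n : ℕ} (hc : c = 1 ∨ c = 3) (hn : Nat.Coprime n (2 * c)) {f : L2}
    (hf : f ∈ Neg c) : TL n f ∈ Neg c := by
  have hn0 : n ≠ 0 := by exact_mod_cast (adm_nat.2 hn).ne_zero
  exact TL_mem (Neg c) (2 * c) (fun p hp hpc f hf => TL_prime_Neg hc hp hpc hf) hn0 hn f hf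

theorem TL_PosD {c n : ℕ} (hc : c = 1 ∨ c = 3) (hn : Nat.Coprime n (2 * c)) {D : ℤ} {f : L2}
    (hf : f ∈ PosD c D) : TL n f ∈ PosD c D := by
  have hn0 : n ≠ 0 := by exact_mod_cast (adm_nat.2 hn).ne_zero
  exact TL_mem (PosD c D) (2 * c) (fun p hp hpc f hf => TL_prime_PosD hc hp hpc hf) hn0 hn f hf

/-- Words of admissible indices. -/
def AW (c : ℕ) (w : List ℕ) : Prop := ∀ n ∈ w, Nat.Coprime n (2 * c)

theorem AW.ne_zero {c : ℕ} {w : List ℕ} (hw : AW c w) : ∀ n ∈ w, n ≠ 0 := fun n hn => by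
  exact_mod_cast (adm_nat.2 (hw n hn)).ne_zero

theorem AW.tail {c n : ℕ} {w : List ℕ} (hw : AW c (n :: w)) : AW c w :=
  fun m hm => hw m (List.mem_cons_of_mem _ hm)

theorem AW.head {c n : ℕ} {w : List ℕ} (hw : AW c (n :: w)) : Nat.Coprime n (2 * c) :=
  hw n List.mem_cons_self

theorem TW_Neg {c : ℕ} (hc : c = 1 ∨ c = 3) {w : List ℕ} (hw : AW c w) {f : L2}
    (hf : f ∈ Neg c) : TW w f ∈ Neg c := by
  induction w with
  | nil => exact hf
  | cons n w ih => exact TL_Neg hc hw.head (ih hw.tail)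

theorem TW_PosD {c : ℕ} (hc : c = 1 ∨ c = 3) {w : List ℕ} (hw : AW c w) {D : ℤ} {f : L2}
    (hf : f ∈ PosD c D) : TW w f ∈ PosD c D := by
  induction w with
  | nil => exact hf
  | cons n w ih => exact TL_PosD hc hw.head (ih hw.tail)

theorem TW_append (v w : List ℕ) (f : L2) : TW (v ++ w) f = TW v (TW w f) := by
  induction v with
  | nil => rfl
  | cons n v ih => simp only [List.cons_append, TW, ih]

theorem TW_comm {w : List ℕ} (hw : ∀ n ∈ w, n ≠ 0) {m : ℕ} (hm : m ≠ 0) (f : L2) :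
    TW w (TL m f) = TL m (TW w f) := by
  induction w with
  | nil => rfl
  | cons n w ih =>
    simp only [TW]
    rw [ih fun k hk => hw k (List.mem_cons_of_mem _ hk), TL_comm (hw n List.mem_cons_self) hm]

theorem TW_add (w : List ℕ) (f g : L2) : TW w (f + g) = TW w f + TW w g := by
  induction w with
  | nil => rfl
  | cons n w ih => simp only [TW, ih, map_add]

theorem TW_smul (w : List ℕ) (a : ZMod 2) (f : L2) : TW w (a • f) = a • TW w f := by
  induction w with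
  | nil => rfl
  | cons n w ih => simp only [TW, ih, map_smul]

theorem TW_zero (w : List ℕ) : TW w 0 = 0 := by
  induction w with
  | nil => rfl
  | cons n w ih => simp only [TW, ih, map_zero]

theorem TW_sum {ι : Type*} (w : List ℕ) (A : Finset ι) (F : ι → L2) :
    TW w (∑ i ∈ A, F i) = ∑ i ∈ A, TW w (F i) := by
  classical
  induction A using Finset.induction_on with
  | empty => simp [TW_zero]
  | insert a A ha ih => rw [sum_insert ha, sum_insert ha, TW_add, ih]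

theorem TW_adj {w : List ℕ} (hw : ∀ n ∈ w, n ≠ 0) (f g : L2) :
    (TW w f * g).coeff 0 = (f * TW w g).coeff 0 := by
  induction w generalizing g with
  | nil => rfl
  | cons n w ih =>
    have h1 := hw n List.mem_cons_self
    have h2 : ∀ k ∈ w, k ≠ 0 := fun k hk => hw k (List.mem_cons_of_mem _ hk)
    simp only [TW]
    rw [TL_adj h1, ih h2, TW_comm h2 h1]

theorem Sp_mul {c : ℕ} (hc : c = 1 ∨ c = 3) {J J' J'' : Set ℤ}
    (h : ∀ j ∈ J, ∀ j' ∈ J', j + j' ∈ J'') {f g : L2} (hf : f ∈ Sp c J) (hg : g ∈ Sp c J') :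
    f * g ∈ Sp c J'' := by
  have h1 : ∀ j ∈ J, S c ^ j * g ∈ Sp c J'' := fun j hj => by
    refine Sp_map _ (LinearMap.mulLeft (ZMod 2) (S c ^ j)) (fun j' hj' => ?_) hg
    rw [LinearMap.mulLeft_apply, ← zpow_add₀ (S_ne_zero hc)]
    exact zpow_mem_Sp (h j hj j' hj')
  exact Sp_map _ (LinearMap.mulRight (ZMod 2) g) h1 hf

theorem coeff_zero_Sp {c : ℕ} (hc : c = 1 ∨ c = 3) {J : Set ℤ} (hJ : (0 : ℤ) ∉ J) {f : L2}
    (hf : f ∈ Sp c J) : f.coeff 0 = 0 := by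
  induction hf using Submodule.span_induction with
  | mem x hx =>
    obtain ⟨j, hj, rfl⟩ := hx
    exact coeff_zero_S_zpow hc fun h => hJ (h ▸ hj)
  | zero => rfl
  | add x y _ _ hx hy => rw [HahnSeries.coeff_add, hx, hy, add_zero]
  | smul a x _ hx => rw [HahnSeries.coeff_smul, hx, smul_zero]

theorem coeff_zero_Neg_mul {c : ℕ} (hc : c = 1 ∨ c = 3) {f g : L2} (hf : f ∈ Neg c)
    (hg : g ∈ Neg c) : (f * g).coeff 0 = 0 := by
  refine coeff_zero_Sp hc (J := {j | j < 0}) (by simp) (Sp_mul hc ?_ hf hg)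
  intro j hj j' hj'
  have h1 := hj.1
  have h2 := hj'.1
  show j + j' < 0
  omega

theorem split_mul {c : ℕ} (hc : c = 1 ∨ c = 3) {D : ℕ} (hD : 2 * c ∣ D) {y : L2}
    (hy : y ∈ Neg c) : ∃ a ∈ PosD c D, ∃ b ∈ Neg c, a + b = y * S c ^ D := by
  have h1 : y * S c ^ D ∈ Sp c ({j | 0 < j ∧ j ≤ D ∧ Adm c j} ∪ {j | j < 0 ∧ Adm c j}) := by
    rw [← zpow_natCast]
    refine Sp_mul hc ?_ hy (zpow_mem_Sp (J := {(D : ℤ)}) rfl)
    rintro j hj _ rfl
    have h2 : Adm c (j + D) := by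
      obtain ⟨r, hr⟩ := hD
      have : j + D = j + (2 * c) * r := by rw [hr]; push_cast; ring
      unfold Adm
      rw [this]
      exact IsCoprime.add_mul_left_left hj.2 _
    have h3 := hj.1
    rcases lt_or_gt_of_ne h2.ne_zero with h | h
    · exact Or.inr ⟨h, h2⟩
    · exact Or.inl ⟨h, by omega, h2⟩
  unfold Sp at h1
  rw [Set.image_union, Submodule.span_union, Submodule.mem_sup] at h1
  exact h1

theorem supp_adm {c : ℕ} (hc : c = 1 ∨ c = 3) {J : Set ℤ} (hJ : ∀ j ∈ J, Adm c j) {f : L2}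
    (hf : f ∈ Sp c J) {n : ℤ} (h : f.coeff n ≠ 0) : Adm c n := by
  obtain ⟨j, hj, _, h2⟩ := supp_Sp hc hf h
  exact (hJ j hj).of_modEq h2

theorem supp_PosD {c : ℕ} (hc : c = 1 ∨ c = 3) {D : ℤ} {f : L2} (hf : f ∈ PosD c D) {n : ℤ}
    (h : f.coeff n ≠ 0) : 0 < n := by
  obtain ⟨j, hj, h1, _⟩ := supp_Sp hc hf h
  exact lt_of_lt_of_le hj.1 h1

/-- The constant terms of `TW w σ * y * S ^ D` are the first coefficients of `TW w h` for one
element `h` of the positive span. -/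
theorem exists_rep {c : ℕ} (hc : c = 1 ∨ c = 3) {D : ℕ} (hD : 2 * c ∣ D) {σ y : L2}
    (hσ : σ ∈ Neg c) (hy : y ∈ Neg c) : ∃ h ∈ PosD c D, ∀ w, AW c w →
      (TW w h).coeff 1 = (TW w σ * y * S c ^ D).coeff 0 := by
  classical
  obtain ⟨a, ha, b, hb, hab⟩ := split_mul hc hD hy
  let K : Finset ℕ := (Finset.Icc 1 σ.order.natAbs).filter fun k => σ.coeff (-(k : ℤ)) ≠ 0
  have hK : ∀ k ∈ K, Nat.Coprime k (2 * c) := fun k hk => by
    have h1 := (supp_adm hc (fun j hj => hj.2) hσ (Finset.mem_filter.1 hk).2).neg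
    rw [neg_neg] at h1
    exact adm_nat.1 h1
  refine ⟨∑ k ∈ K, TL k a, Submodule.sum_mem _ fun k hk => TL_PosD hc (hK k hk) ha, fun w hw => ?_⟩
  rw [mul_assoc, ← hab, mul_add, HahnSeries.coeff_add, coeff_zero_Neg_mul hc (TW_Neg hc hw hσ) hb,
    add_zero, TW_adj hw.ne_zero, TW_sum, HahnSeries.coeff_sum,
    coeff_mul_fin _ _ 0 (K.image fun k : ℕ => -(k : ℤ)), Finset.sum_image]
  · refine Finset.sum_congr rfl fun k hk => ?_
    have hk0 : k ≠ 0 := by exact_mod_cast (adm_nat.2 (hK k hk)).ne_zero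
    rw [TW_comm hw.ne_zero hk0, coeff_TL_one hk0, z2_ne_zero (Finset.mem_filter.1 hk).2]
    simp
  · intro x _ y _ hxy
    simpa using hxy
  · intro m h1 h2
    have h3 := supp_PosD hc (TW_PosD hc hw ha) h2
    have h4 := HahnSeries.order_le_of_coeff_ne_zero h1
    refine Finset.mem_image.2 ⟨(-m).toNat,
      Finset.mem_filter.2 ⟨Finset.mem_Icc.2 ⟨by omega, by omega⟩, ?_⟩, by omega⟩
    rwa [show -(((-m).toNat : ℕ) : ℤ) = m by omega]

end Pool.Agent.Lib.MP_a3366f_nt.Ker
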