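import Mathlib
import Pool.Agent.Lib.MP_a3366f_nt.KDefs

open Polynomial

namespace Pool.Agent.Lib.MP_a3366f_nt.Ker

lemma rec7n (P : ℕ → R2)
    (hrec : ∀ k, P (k + 8) = X ^ 8 * P k + X ^ 2 * P (k + 2) + X * P (k + 1)) (k m : ℕ) :
    P (k + 2 ^ (m + 1 + 2)) = X ^ (2 ^ (m + 1)) * P (k + 2 ^ (m + 1)) +
      X ^ (2 ^ (m + 1 + 2)) * P k + X ^ (2 ^ m) * P (k + 2 ^ m) := by
  have e2 : (2 : R2) = 0 := CharTwo.two_eq_zero
  have h : ∀ k, Phi P (X ^ k * (X ^ 8 + C X ^ 2 * X ^ 2 + C X ^ 8 + C X * X)) = 0 := by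
    intro k
    have : (X ^ k * (X ^ 8 + C X ^ 2 * X ^ 2 + C X ^ 8 + C X * X) : Polynomial R2) =
        X ^ (k + 8) + C (X ^ 2) * X ^ (k + 2) + C (X ^ 8) * X ^ k + C X * X ^ (k + 1) := by
      rw [map_pow, map_pow]; ring
    rw [this, map_add, map_add, map_add, Phi_C_mul, Phi_C_mul, Phi_C_mul, Phi_X_pow, Phi_X_pow,
      Phi_X_pow, Phi_X_pow, hrec]
    linear_combination (X ^ 8 * P k + X ^ 2 * P (k + 2) + X * P (k + 1)) * e2
  have h1 := Phi_kill_pow h (X ^ k) 1 m
  have h2 : (X ^ k * (1 * (X ^ 8 + C X ^ 2 * X ^ 2 + C X ^ 8 + C X * X)) ^ 2 ^ m : Polynomial R2) =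
      X ^ (k + 2 ^ (m + 1 + 2)) + C (X ^ 2 ^ (m + 1)) * X ^ (k + 2 ^ (m + 1)) +
        C (X ^ 2 ^ (m + 1 + 2)) * X ^ k + C (X ^ 2 ^ m) * X ^ (k + 2 ^ m) := by
    rw [one_mul, add_pow_char_pow, add_pow_char_pow, add_pow_char_pow, map_pow, map_pow, map_pow]
    ring
  rw [h2, map_add, map_add, map_add, Phi_C_mul, Phi_C_mul, Phi_C_mul, Phi_X_pow, Phi_X_pow,
    Phi_X_pow, Phi_X_pow] at h1
  linear_combination h1 - (X ^ (2 ^ (m + 1)) * P (k + 2 ^ (m + 1)) +
      X ^ (2 ^ (m + 1 + 2)) * P k + X ^ (2 ^ m) * P (k + 2 ^ m)) * e2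

lemma g_seven : g 7 = 5 ∧ n3 7 = 1 := by
  rw [g_eq 7, n3_eq 7]; simp [g_one, n3_one]

theorem claim7 (P : ℕ → R2)
    (hrec : ∀ k, P (k + 8) = X ^ 8 * P k + X ^ 2 * P (k + 2) + X * P (k + 1))
    (hinit : ∀ k < 8, P k = if k = 3 then X else if k = 4 then 1 else if k = 7 then X ^ 5 else 0)
    (k : ℕ) :
    (k % 2 = 1 → 1 ≤ n3 k → ∃ e, g e + 2 = g k ∧ n3 e + 1 = n3 k ∧ Dom e (P k)) ∧
    (¬ (k % 2 = 1 ∧ 1 ≤ n3 k) → Le (g k - 2) (n3 k) (P k)) := by
  induction k using Nat.strong_induction_on with | _ K ih =>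
  by_cases hK : K < 8
  · rw [hinit K hK]
    interval_cases K
    · simp [Le.zero]
    · simp [Le.zero, n3_one]
    · simp [Le.zero]
    · refine ⟨fun _ _ => ⟨1, by simp [g_one, g_small], by simp [n3_one, g_small], ?_⟩, ?_⟩
      · simp [Dom, add_self2, Le.zero]
      · simp [g_small]
    · refine ⟨fun h => by simp at h, fun _ => ?_⟩
      have := Le.X_pow 0
      simpa [g_small] using this
    · simp [Le.zero, g_small]
    · simp [Le.zero]
    · refine ⟨fun _ _ => ⟨5, by simp [g_seven, g_small], by simp [g_seven, g_small], ?_⟩, ?_⟩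
      · simp [Dom, add_self2, Le.zero]
      · simp [g_seven]
  obtain ⟨s, k, rfl, hk⟩ := top_split (c := K) (by omega)
  obtain ⟨n, m, rfl, hm⟩ : ∃ n m, s = n + 2 ∧ n = m + 1 := by
    refine ⟨s - 2, s - 3, ?_⟩
    rcases s with _ | _ | _ | s <;> simp at hk hK ⊢ <;> omega
  have hp1 := Nat.one_le_two_pow (n := n)
  have hp2 : 2 ^ (n + 2) = 4 * 2 ^ n := by ring
  have weak : ∀ k' < k + 2 ^ (n + 2), Le (g k' - 2) (n3 k' - 1) (P k') := by
    intro k' hk'
    by_cases h : k' % 2 = 1 ∧ 1 ≤ n3 k'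
    · obtain ⟨e, h1, h2, h3⟩ := (ih k' hk').1 h.1 h.2
      exact h3.le.mono (by omega)
    · exact ((ih k' hk').2 h).mono (by omega)
  have hK := (add_bit (n + 2) k).1 (Nat.testBit_lt_two_pow hk)
  have hg2 := g_pow_add_two n
  have hn2 := n3_pow_add_two n
  have hmod : (k + 2 ^ (n + 2)) % 2 = k % 2 := by omega
  have hrec7 : P (k + 2 ^ (n + 2)) = X ^ (2 ^ n) * P (k + 2 ^ n) + X ^ (2 ^ (n + 2)) * P k +
      X ^ (2 ^ m) * P (k + 2 ^ m) := by
    rw [hm]; exact rec7n P hrec k m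
  have third : Le (g (k + 2 ^ (n + 2)) - 2) (n3 (k + 2 ^ (n + 2)))
      (X ^ (2 ^ m) * P (k + 2 ^ m)) := by
    have hpm : 2 ^ n = 2 * 2 ^ m := by rw [hm]; ring
    have hl := add_bit_le m k
    have hw := (weak (k + 2 ^ m) (by omega)).mul_bit m
    rcases Nat.even_or_odd' m with ⟨i, hi | hi⟩
    · have a0 : g (2 ^ m) = 2 ^ i := by rw [hi, g_pow_even]
      have a1 : g (2 ^ n) = 2 * 2 ^ i := by rw [hm, hi, g_pow_odd]
      have hp := Nat.one_le_two_pow (n := i)
      exact hw.mono (by omega)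
    · have e1 : n = 2 * (i + 1) := by omega
      have a0 : g (2 ^ m) = 2 * 2 ^ i := by rw [hi, g_pow_odd]
      have a1 : g (2 ^ n) = 2 * 2 ^ i := by rw [e1, g_pow_even]; ring
      have b0 : n3 (2 ^ m) = 2 ^ i := by rw [hi, n3_pow_odd]
      have b1 : n3 (2 ^ n) = 0 := by rw [e1, n3_pow_even]
      have hp := Nat.one_le_two_pow (n := i)
      exact hw.mono (by omega)
  rw [hrec7, hmod]
  clear hrec7
  have hlt1 : k + 2 ^ n < k + 2 ^ (n + 2) := by omega
  have hlt2 : k < k + 2 ^ (n + 2) := by omega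
  have first_set : k.testBit n = true →
      Le (g (k + 2 ^ (n + 2)) - 2) (n3 (k + 2 ^ (n + 2))) (X ^ (2 ^ n) * P (k + 2 ^ n)) := by
    intro hb
    have := (add_bit n k).2 hb
    exact ((weak _ hlt1).mul_bit n).mono (by omega)
  have first_ns : k.testBit n = false → ¬ ((k + 2 ^ n) % 2 = 1 ∧ 1 ≤ n3 (k + 2 ^ n)) →
      Le (g (k + 2 ^ (n + 2)) - 2) (n3 (k + 2 ^ (n + 2))) (X ^ (2 ^ n) * P (k + 2 ^ n)) := by
    intro hb h
    have := (add_bit n k).1 hb
    exact (((ih _ hlt1).2 h).mul_bit n).mono (by omega)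
  have first_col : k.testBit n = false → (k + 2 ^ n) % 2 = 1 → 1 ≤ n3 (k + 2 ^ n) →
      (n % 2 = 0 ∨ 1 ≤ n3 k) →
      Le (g (k + 2 ^ (n + 2)) - 2) (n3 (k + 2 ^ (n + 2))) (X ^ (2 ^ n) * P (k + 2 ^ n)) := by
    intro hb h1 h2 h3
    have h4 := (add_bit n k).1 hb
    obtain ⟨e, he1, he2, he3⟩ := (ih _ hlt1).1 h1 h2
    have hbit : e.testBit n = true := by
      rcases Nat.even_or_odd' n with ⟨i, rfl | rfl⟩
      · have h5 : g5 e = g5 (k + 2 ^ (2 * i)) := by
          have := g_split e; have := g_split (k + 2 ^ (2 * i)); omega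
        rw [testBit_even, h5, ← testBit_even, add_comm, Nat.testBit_two_pow_add_eq, hb]; rfl
      · have h5 : 1 ≤ n3 k := by omega
        have h6 : n3 k < 2 ^ (i + 1) := n3_lt _ _ (by rwa [show 2 * (i + 1) + 1 = 2 * i + 1 + 2 by ring])
        have h7 : (n3 k).testBit i = false := by rw [← testBit_odd, hb]
        have h8 : n3 k < 2 ^ i := by
          by_contra h8
          rw [testBit_of_bounds (by omega) (by rw [pow_succ] at h6; omega)] at h7
          exact absurd h7 (by simp)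
        rw [n3_pow_odd] at h4
        rw [testBit_odd]
        exact testBit_of_bounds (by omega) (by omega)
    exact (he3.mul_bit' hbit).mono (by omega)
  have second_ns : ¬ (k % 2 = 1 ∧ 1 ≤ n3 k) →
      Le (g (k + 2 ^ (n + 2)) - 2) (n3 (k + 2 ^ (n + 2))) (X ^ (2 ^ (n + 2)) * P k) := by
    intro h
    exact (((ih _ hlt2).2 h).mul_bit (n + 2)).mono (by omega)
  refine ⟨fun h1 h2 => ?_, fun h => ?_⟩
  · by_cases h3 : 1 ≤ n3 k
    · obtain ⟨e, he1, he2, he3⟩ := (ih _ hlt2).1 h1 h3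
      have hbit : e.testBit (n + 2) = false := by
        rcases Nat.even_or_odd' n with ⟨i, rfl | rfl⟩
        · have h5 : g5 e = g5 k := by
            have := g_split e; have := g_split k; omega
          rw [show 2 * i + 2 = 2 * (i + 1) by ring] at hk ⊢
          rw [testBit_even, h5]
          exact Nat.testBit_lt_two_pow (g5_lt _ _ hk)
        · rw [show 2 * i + 1 + 2 = 2 * (i + 1) + 1 by ring] at hk ⊢
          rw [testBit_odd]
          have := n3_lt _ _ hk
          exact Nat.testBit_lt_two_pow (by omega)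
      have h5 := (add_bit (n + 2) e).1 hbit
      refine ⟨e + 2 ^ (n + 2), by omega, by omega,
        ((he3.mul_bit hbit).add' ?_).add (third.mono (by omega))⟩
      have : Le (g (k + 2 ^ (n + 2)) - 2) (n3 (k + 2 ^ (n + 2)))
          (X ^ (2 ^ n) * P (k + 2 ^ n)) := by
        cases hb : k.testBit n
        · by_cases h : (k + 2 ^ n) % 2 = 1 ∧ 1 ≤ n3 (k + 2 ^ n)
          · exact first_col hb h.1 h.2 (Or.inr h3)
          · exact first_ns hb h
        · exact first_set hb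
      exact this.mono (by omega)
    · rcases Nat.even_or_odd' n with ⟨i, rfl | rfl⟩
      · rw [n3_pow_even] at hn2; omega
      · have hb : k.testBit (2 * i + 1) = false := by
          rw [testBit_odd, show n3 k = 0 by omega]; simp
        have h4 := (add_bit _ k).1 hb
        have h5 := n3_pow_odd i
        have hp := Nat.one_le_two_pow (n := i)
        obtain ⟨e, he1, he2, he3⟩ := (ih _ hlt1).1 (by rw [pow_succ]; omega) (by omega)
        have hbit : e.testBit (2 * i + 1) = false := by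
          rw [testBit_odd]; exact Nat.testBit_lt_two_pow (by omega)
        have h6 := (add_bit _ e).1 hbit
        refine ⟨e + 2 ^ (2 * i + 1), by omega, by omega,
          ((he3.mul_bit hbit).add ?_).add (third.mono (by omega))⟩
        exact (second_ns (by omega)).mono (by omega)
  · refine Le.add (Le.add ?_ (second_ns (by omega))) third
    cases hb : k.testBit n
    · by_cases h' : (k + 2 ^ n) % 2 = 1 ∧ 1 ≤ n3 (k + 2 ^ n)
      · refine first_col hb h'.1 h'.2 ?_
        rcases Nat.even_or_odd' n with ⟨i, rfl | rfl⟩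
        · omega
        · have h5 := n3_pow_odd i
          have hp := Nat.one_le_two_pow (n := i)
          rw [pow_succ] at h'
          omega
      · exact first_ns hb h'
    · exact first_set hb

end Pool.Agent.Lib.MP_a3366f_nt.Ker
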