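import Mathlib
import Pool.Agent.Lib.MP_a3366f_nt.KDefs
import Pool.Agent.Lib.MP_a3366f_nt.KSpan

namespace Pool.Agent.Lib.MP_a3366f_nt.Ker

open Finset

namespace Dihed

/-- Primary Gaussian integers. -/
def Prim (z : GaussianInt) : Prop := z.im % 2 = 0 ∧ (z.re + z.im) % 4 = 1

lemma norm_eq (z : GaussianInt) : z.norm = z.re * z.re + z.im * z.im := by
  rw [Zsqrtd.norm_def]; ring

lemma fin_norm (n : ℕ) : {z : GaussianInt | z.norm = n ∧ Prim z}.Finite := by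
  refine ((Set.finite_Icc (-(n : ℤ)) n).prod (Set.finite_Icc (-(n : ℤ)) n)).of_injOn
    (f := fun z : GaussianInt => (z.re, z.im)) (fun z hz => ?_) (fun z _ w _ h => ?_)
  · have h := hz.1
    rw [norm_eq] at h
    have h1 := mul_self_nonneg z.re
    have h2 := mul_self_nonneg z.im
    refine ⟨⟨?_, ?_⟩, ?_, ?_⟩ <;> simp only <;> nlinarith [sq_nonneg (z.re + 1), sq_nonneg (z.re - 1),
      sq_nonneg (z.im + 1), sq_nonneg (z.im - 1), sq_nonneg (2 * z.re + 1),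
      sq_nonneg (2 * z.re - 1), sq_nonneg (2 * z.im + 1), sq_nonneg (2 * z.im - 1)]
  · simp only [Prod.mk.injEq] at h
    exact Zsqrtd.ext h.1 h.2

/-- Primary Gaussian integers of norm `n`. -/
noncomputable def PS (n : ℕ) : Finset GaussianInt := (fin_norm n).toFinset

lemma mem_PS {n : ℕ} {z : GaussianInt} : z ∈ PS n ↔ z.norm = n ∧ Prim z := by
  simp [PS]

open Classical in
lemma sum_mul {w : GaussianInt} {m : ℕ} (hm0 : m ≠ 0) (hm : w.norm = m)
    (hp : ∀ z, Prim (w * z) ↔ Prim z) (φ : GaussianInt → ℤ) (n : ℕ) :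
    ∑ z ∈ PS (m * n), (if w ∣ z then φ z else 0) = ∑ z ∈ PS n, φ (w * z) := by
  have hw : w ≠ 0 := by
    rintro rfl
    simp at hm
    exact hm0 (by exact_mod_cast hm.symm)
  rw [← sum_filter, ← sum_image (s := PS n) (g := fun z => w * z)
    (fun a _ b _ h => mul_left_cancel₀ hw h)]
  refine sum_congr ?_ fun _ _ => rfl
  ext z
  simp only [mem_filter, mem_image, mem_PS]
  constructor
  · rintro ⟨⟨h1, h2⟩, y, rfl⟩
    refine ⟨y, ⟨?_, (hp y).1 h2⟩, rfl⟩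
    rw [Zsqrtd.norm_mul, hm, Nat.cast_mul] at h1
    exact mul_left_cancel₀ (by exact_mod_cast hm0) h1
  · rintro ⟨y, ⟨h1, h2⟩, rfl⟩
    exact ⟨⟨by rw [Zsqrtd.norm_mul, hm, h1, Nat.cast_mul], (hp y).2 h2⟩, dvd_mul_right _ _⟩

open Classical in
lemma sum_mul_sq {w : GaussianInt} {p : ℕ} (hp0 : p ≠ 0) (hm : w.norm = (p * p : ℕ))
    (hp : ∀ z, Prim (w * z) ↔ Prim z) (φ : GaussianInt → ℤ) (n : ℕ) :
    ∑ z ∈ PS (p * n), (if w ∣ z then φ z else 0) =
      if p ∣ n then ∑ z ∈ PS (n / p), φ (w * z) else 0 := by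
  split_ifs with h
  · obtain ⟨k, rfl⟩ := h
    rw [Nat.mul_div_cancel_left _ (Nat.pos_of_ne_zero hp0), ← mul_assoc]
    exact sum_mul (mul_ne_zero hp0 hp0) hm hp φ k
  · refine sum_eq_zero fun z hz => if_neg ?_
    rintro ⟨y, rfl⟩
    have h1 := (mem_PS.1 hz).1
    rw [Zsqrtd.norm_mul, hm] at h1
    push_cast at h1
    rw [mul_assoc] at h1
    have h2 := mul_left_cancel₀ (by exact_mod_cast hp0 : (p : ℤ) ≠ 0) h1
    exact h (Int.natCast_dvd_natCast.1 ⟨_, h2.symm⟩)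

/-- The Gaussian prime above thirteen. -/
def pi13 : GaussianInt := ⟨3, 2⟩

lemma dvd_pi {z : GaussianInt} : pi13 ∣ z ↔ (3 * z.re + 2 * z.im) % 13 = 0 := by
  constructor
  · rintro ⟨y, rfl⟩
    simp only [pi13, Zsqrtd.re_mul, Zsqrtd.im_mul]
    omega
  · intro h
    refine ⟨⟨(3 * z.re + 2 * z.im) / 13, (3 * z.im - 2 * z.re) / 13⟩, Zsqrtd.ext ?_ ?_⟩ <;>
      simp only [pi13, Zsqrtd.re_mul, Zsqrtd.im_mul] <;> omega

lemma dvd_pi' {z : GaussianInt} : star pi13 ∣ z ↔ (3 * z.re - 2 * z.im) % 13 = 0 := by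
  constructor
  · rintro ⟨y, rfl⟩
    simp only [pi13, Zsqrtd.re_mul, Zsqrtd.im_mul, Zsqrtd.re_star, Zsqrtd.im_star]
    omega
  · intro h
    refine ⟨⟨(3 * z.re - 2 * z.im) / 13, (3 * z.im + 2 * z.re) / 13⟩, Zsqrtd.ext ?_ ?_⟩ <;>
      simp only [pi13, Zsqrtd.re_mul, Zsqrtd.im_mul, Zsqrtd.re_star, Zsqrtd.im_star] <;> omega

lemma dvd_int {k : ℤ} {z : GaussianInt} : (⟨k, 0⟩ : GaussianInt) ∣ z ↔ k ∣ z.re ∧ k ∣ z.im := by
  constructor
  · rintro ⟨y, rfl⟩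
    simp
  · rintro ⟨⟨a, ha⟩, ⟨b, hb⟩⟩
    exact ⟨⟨a, b⟩, Zsqrtd.ext (by simp [ha]) (by simp [hb])⟩

lemma hecke13 (φ : GaussianInt → ℤ) (n : ℕ) :
    ∑ z ∈ PS (13 * n), φ z + (if 13 ∣ n then ∑ z ∈ PS (n / 13), φ (⟨13, 0⟩ * z) else 0) =
      ∑ z ∈ PS n, (φ (pi13 * z) + φ (star pi13 * z)) := by
  classical
  have h1 := sum_mul (w := pi13) (m := 13) (by norm_num) (by decide) (fun z => by
    simp only [Prim, pi13, Zsqrtd.re_mul, Zsqrtd.im_mul]; omega) φ n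
  have h2 := sum_mul (w := star pi13) (m := 13) (by norm_num) (by decide) (fun z => by
    simp only [Prim, pi13, Zsqrtd.re_mul, Zsqrtd.im_mul, Zsqrtd.re_star, Zsqrtd.im_star]
    omega) φ n
  have h3 := sum_mul_sq (w := ⟨13, 0⟩) (p := 13) (by norm_num) (by decide) (fun z => by
    simp only [Prim, Zsqrtd.re_mul, Zsqrtd.im_mul]; omega) φ n
  rw [sum_add_distrib, ← h1, ← h2, ← h3, ← sum_add_distrib, ← sum_add_distrib]
  refine sum_congr rfl fun z hz => ?_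
  have hn := (mem_PS.1 hz).1
  rw [norm_eq] at hn
  have h13 : (13 : ℤ) ∣ (3 * z.re + 2 * z.im) * (3 * z.re - 2 * z.im) :=
    ⟨9 * n - z.im * z.im, by push_cast at hn; linear_combination 9 * hn⟩
  have h4 := (Int.prime_iff_natAbs_prime.2 (by norm_num) : Prime (13 : ℤ)).dvd_or_dvd h13
  simp only [dvd_pi, dvd_pi', dvd_int]
  split_ifs <;> omega

lemma hecke7 (φ : GaussianInt → ℤ) (n : ℕ) :
    ∑ z ∈ PS (7 * n), φ z = if 7 ∣ n then ∑ z ∈ PS (n / 7), φ (⟨-7, 0⟩ * z) else 0 := by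
  classical
  rw [← sum_mul_sq (w := ⟨-7, 0⟩) (p := 7) (by norm_num) (by decide) (fun z => by
    simp only [Prim, Zsqrtd.re_mul, Zsqrtd.im_mul]; omega) φ n]
  refine sum_congr rfl fun z hz => (if_pos ?_).symm
  have hn := (mem_PS.1 hz).1
  rw [norm_eq] at hn
  have h7 : ((z.re : ZMod 7)) * z.re + (z.im : ZMod 7) * z.im = 0 := by
    have : ((z.re * z.re + z.im * z.im : ℤ) : ZMod 7) = 0 :=
      (ZMod.intCast_zmod_eq_zero_iff_dvd _ 7).2 ⟨n, by rw [hn]; push_cast; ring⟩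
    exact_mod_cast this
  have key : ∀ a b : ZMod 7, a * a + b * b = 0 → a = 0 ∧ b = 0 := by decide
  obtain ⟨ha, hb⟩ := key _ _ h7
  rw [dvd_int, neg_dvd, neg_dvd]
  exact ⟨(ZMod.intCast_zmod_eq_zero_iff_dvd _ 7).1 ha, (ZMod.intCast_zmod_eq_zero_iff_dvd _ 7).1 hb⟩

lemma halve (φ : GaussianInt → ℤ) (h1 : ∀ z, φ (star z) = φ z)
    (h2 : ∀ z, φ z ≠ 0 → z.norm % 3 = 2) (n : ℕ) :
    ∑ z ∈ PS n, φ z = 2 * ∑ z ∈ (PS n).filter (fun z => 0 < z.im), φ z := by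
  have hneg : ∑ z ∈ (PS n).filter (fun z => ¬ 0 < z.im), φ z =
      ∑ z ∈ (PS n).filter (fun z => 0 < z.im), φ z := by
    refine sum_bij_ne_zero (fun z _ _ => star z) ?_ ?_ ?_ ?_
    · intro z hz hne
      rw [mem_filter, mem_PS] at hz ⊢
      obtain ⟨⟨a1, a2⟩, a3⟩ := hz
      refine ⟨⟨by rw [Zsqrtd.norm_conj, a1], ?_⟩, ?_⟩
      · simp only [Prim, Zsqrtd.re_star, Zsqrtd.im_star] at a2 ⊢
        omega
      · have a4 := h2 z hne
        rw [Zsqrtd.im_star]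
        by_contra a5
        have a6 : z.im = 0 := by omega
        rw [norm_eq, a6, mul_zero, add_zero, Int.mul_emod] at a4
        have : z.re % 3 = 0 ∨ z.re % 3 = 1 ∨ z.re % 3 = 2 := by omega
        rcases this with h | h | h <;> simp [h] at a4
    · intro a _ _ b _ _ h
      exact star_injective h
    · intro z hz hne
      rw [mem_filter, mem_PS] at hz
      obtain ⟨⟨a1, a2⟩, a3⟩ := hz
      refine ⟨star z, ?_, by rwa [h1], star_star z⟩
      rw [mem_filter, mem_PS]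
      refine ⟨⟨by rw [Zsqrtd.norm_conj, a1], ?_⟩, ?_⟩
      · simp only [Prim, Zsqrtd.re_star, Zsqrtd.im_star] at a2 ⊢
        omega
      · rw [Zsqrtd.im_star]
        omega
    · intro z _ _
      exact (h1 z).symm
  rw [← sum_filter_add_sum_filter_not (PS n) (fun z => 0 < z.im), hneg, two_mul]

/-- The theta series with weight `φ`. -/
noncomputable def Th (φ : GaussianInt → ZMod 2) : S2 :=
  PowerSeries.mk fun n => ∑ z ∈ (PS n).filter (fun z => 0 < z.im), φ z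

/-- Admissible weights. -/
structure Good (φ : GaussianInt → ZMod 2) : Prop where
  conj : ∀ z, φ (star z) = φ z
  inv : ∀ z, φ (⟨13, 0⟩ * z) = φ z
  supp : ∀ z, φ z ≠ 0 → z.norm % 3 = 2

/-- The symmetrised translate of a weight. -/
def H (w : GaussianInt) (φ : GaussianInt → ZMod 2) : GaussianInt → ZMod 2 :=
  fun z => φ (w * z) + φ (star w * z)

lemma supp_H {A : Type*} [AddZeroClass A] {φ : GaussianInt → A}
    (h : ∀ z, φ z ≠ 0 → z.norm % 3 = 2) {w : GaussianInt} (hw : w.norm % 3 = 1) (z : GaussianInt)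
    (hz : φ (w * z) + φ (star w * z) ≠ 0) : z.norm % 3 = 2 := by
  by_contra hn
  apply hz
  have a1 : φ (w * z) = 0 := by
    by_contra a
    have := h _ a
    rw [Zsqrtd.norm_mul, Int.mul_emod, hw] at this
    omega
  have a2 : φ (star w * z) = 0 := by
    by_contra a
    have := h _ a
    rw [Zsqrtd.norm_mul, Zsqrtd.norm_conj, Int.mul_emod, hw] at this
    omega
  rw [a1, a2, add_zero]

lemma conj_H {A : Type*} [AddCommMonoid A] {φ : GaussianInt → A} (h : ∀ z, φ (star z) = φ z)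
    (w z : GaussianInt) :
    φ (w * star z) + φ (star w * star z) = φ (w * z) + φ (star w * z) := by
  rw [← h (w * star z), ← h (star w * star z), add_comm]
  simp [mul_comm]

lemma Good.H {φ : GaussianInt → ZMod 2} (h : Good φ) {w : GaussianInt} (hw : w.norm % 3 = 1) :
    Good (H w φ) where
  conj z := conj_H h.conj w z
  inv z := by
    simp only [Dihed.H]
    rw [mul_left_comm w, mul_left_comm (star w), h.inv, h.inv]
  supp z hz := supp_H h.supp hw z hz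

lemma H_H (w : GaussianInt) (φ : GaussianInt → ZMod 2) : H w (H w φ) = H (w * w) φ := by
  funext z
  simp only [H, star_mul, mul_assoc]
  rw [mul_left_comm (star w) w z]
  have := CharTwo.add_self_eq_zero (φ (w * (star w * z)))
  linear_combination this

lemma val_ne {x : ZMod 2} (h : ((x.val : ℕ) : ℤ) ≠ 0) : x ≠ 0 := by
  rintro rfl
  simp at h

lemma cast_val (x : ZMod 2) : (((x.val : ℕ) : ℤ) : ZMod 2) = x := by
  revert x
  decide

lemma T13_Th {φ : GaussianInt → ZMod 2} (h : Good φ) : T 13 (Th φ) = Th (H pi13 φ) := by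
  ext n
  set ψ : GaussianInt → ℤ := fun z => ((φ z).val : ℕ) with hψ
  have c1 : ∀ z, ψ (star z) = ψ z := fun z => by simp only [hψ, h.conj]
  have c2 : ∀ z, ψ z ≠ 0 → z.norm % 3 = 2 := fun z hz => h.supp z (val_ne hz)
  have c3 : ∀ z, ψ (⟨13, 0⟩ * z) = ψ z := fun z => by simp only [hψ, h.inv]
  have key := hecke13 ψ n
  simp only [c3] at key
  rw [halve ψ c1 c2, halve ψ c1 c2 (n / 13), halve (fun z => ψ (pi13 * z) + ψ (star pi13 * z))
    (conj_H c1 pi13) (supp_H c2 (by decide))] at key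
  have key2 : ∑ z ∈ (PS (13 * n)).filter (fun z => 0 < z.im), ψ z +
      (if 13 ∣ n then ∑ z ∈ (PS (n / 13)).filter (fun z => 0 < z.im), ψ z else 0) =
      ∑ z ∈ (PS n).filter (fun z => 0 < z.im), (ψ (pi13 * z) + ψ (star pi13 * z)) := by
    split_ifs at key ⊢ <;> omega
  have key3 := congrArg (Int.cast : ℤ → ZMod 2) key2
  simp only [hψ, Int.cast_add, Int.cast_sum, Int.cast_ite, Int.cast_zero, cast_val] at key3
  simp only [coeff_T, Th, PowerSeries.coeff_mk, H]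
  exact key3

lemma T7_Th {φ : GaussianInt → ZMod 2} (h : Good φ) (h7 : ∀ z, φ (⟨-7, 0⟩ * z) = φ z) :
    T 7 (Th φ) = 0 := by
  ext n
  set ψ : GaussianInt → ℤ := fun z => ((φ z).val : ℕ) with hψ
  have c1 : ∀ z, ψ (star z) = ψ z := fun z => by simp only [hψ, h.conj]
  have c2 : ∀ z, ψ z ≠ 0 → z.norm % 3 = 2 := fun z hz => h.supp z (val_ne hz)
  have c3 : ∀ z, ψ (⟨-7, 0⟩ * z) = ψ z := fun z => by simp only [hψ, h7]
  have key := hecke7 ψ n
  simp only [c3] at key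
  rw [halve ψ c1 c2, halve ψ c1 c2 (n / 7)] at key
  have key2 : ∑ z ∈ (PS (7 * n)).filter (fun z => 0 < z.im), ψ z =
      (if 7 ∣ n then ∑ z ∈ (PS (n / 7)).filter (fun z => 0 < z.im), ψ z else 0) := by
    split_ifs at key ⊢ <;> omega
  have key3 := congrArg (Int.cast : ℤ → ZMod 2) key2
  simp only [hψ, Int.cast_sum, Int.cast_ite, Int.cast_zero, cast_val] at key3
  simp only [coeff_T, Th, PowerSeries.coeff_mk, map_zero]
  rw [key3]
  exact CharTwo.add_self_eq_zero _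

lemma norm_pi_pow (k : ℕ) : (pi13 ^ k).norm % 3 = 1 := by
  induction k with
  | zero => simp
  | succ k ih =>
    rw [pow_succ, Zsqrtd.norm_mul, Int.mul_emod, ih]
    decide

lemma T13_pow (j : ℕ) : ∀ {φ : GaussianInt → ZMod 2}, Good φ →
    ((T 13) ^ (2 ^ j)) (Th φ) = Th (H (pi13 ^ 2 ^ j) φ) := by
  induction j with
  | zero => intro φ h; simpa using T13_Th h
  | succ j ih =>
    intro φ h
    rw [pow_succ, mul_two, pow_add, Module.End.mul_apply, ih h, ih (h.H (norm_pi_pow _)), H_H,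
      pow_add]

lemma pi_pow (j : ℕ) : ∃ x y : ℤ, x % 2 = 1 ∧ y % 2 = 1 ∧ pi13 ^ 2 ^ j = ⟨x, 2 ^ (j + 1) * y⟩ := by
  induction j with
  | zero => exact ⟨3, 1, by decide, by decide, by simp [pi13]⟩
  | succ j ih =>
    obtain ⟨x, y, hx, hy, h⟩ := ih
    refine ⟨x * x - 2 * (2 ^ j * y * (2 ^ (j + 1) * y)), x * y, ?_, ?_, ?_⟩
    · have : x * x % 2 = 1 := by rw [Int.mul_emod, hx]; rfl
      omega
    · rw [Int.mul_emod, hx, hy]; rfl
    · rw [pow_succ 2 j, pow_mul, h, sq]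
      refine Zsqrtd.ext ?_ ?_ <;> simp only [Zsqrtd.re_mul, Zsqrtd.im_mul] <;> ring

/-- Exact divisibility by a power of two. -/
def Ex (J : ℕ) (b : ℤ) : Prop := ∃ d, b = 2 ^ J * d ∧ d % 2 = 1

lemma Ex_mul_left {J : ℕ} {d : ℤ} : Ex J (2 ^ J * d) ↔ d % 2 = 1 := by
  constructor
  · rintro ⟨e, h, he⟩
    rwa [mul_left_cancel₀ (by positivity) h]
  · exact fun h => ⟨d, rfl, h⟩

lemma pow_dvd_of_odd {J : ℕ} {k b : ℤ} (hk : k % 2 = 1) (h : 2 ^ J ∣ k * b) : 2 ^ J ∣ b := by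
  have : IsCoprime (2 : ℤ) k := ⟨-(k / 2), 1, by omega⟩
  exact (this.pow_left (m := J)).dvd_of_dvd_mul_left h

lemma Ex_odd_mul {J : ℕ} {k b : ℤ} (hk : k % 2 = 1) : Ex J (k * b) ↔ Ex J b := by
  by_cases h : 2 ^ J ∣ b
  · obtain ⟨d, rfl⟩ := h
    rw [mul_left_comm, Ex_mul_left, Ex_mul_left, Int.mul_emod, hk]
    omega
  · constructor
    · rintro ⟨d, h1, -⟩
      exact absurd (pow_dvd_of_odd hk ⟨d, h1⟩) h
    · rintro ⟨d, h1, -⟩
      exact absurd ⟨d, h1⟩ h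

lemma Ex_succ {J : ℕ} {t : ℤ} : Ex (J + 1) (2 ^ J * t) ↔ t % 4 = 2 := by
  constructor
  · rintro ⟨e, h, he⟩
    rw [pow_succ, mul_assoc] at h
    have := mul_left_cancel₀ (by positivity) h
    omega
  · intro h
    refine ⟨t / 2, ?_, by omega⟩
    rw [pow_succ, mul_assoc]
    congr 1
    omega

open Classical in
/-- Indicator of a proposition. -/
noncomputable def ind (P : Prop) : ZMod 2 := if P then 1 else 0

lemma ind_pos {P : Prop} (h : P) : ind P = 1 := if_pos h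

lemma ind_neg {P : Prop} (h : ¬ P) : ind P = 0 := if_neg h

lemma ind_congr {P Q : Prop} (h : P ↔ Q) : ind P = ind Q := by rw [propext h]

lemma of_ind_ne {P : Prop} (h : ind P ≠ 0) : P := by
  by_contra hn
  exact h (ind_neg hn)

/-- The weight of the power `1 + 4 ^ J`. -/
noncomputable def psi (J : ℕ) (z : GaussianInt) : ZMod 2 :=
  ind (Ex J z.im ∧ z.norm % 3 = 2)

lemma psi_int (J : ℕ) {k : ℤ} (hk : k % 2 = 1) (hk3 : k * k % 3 = 1) (z : GaussianInt) :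
    psi J (⟨k, 0⟩ * z) = psi J z := by
  have h1 : ((⟨k, 0⟩ : GaussianInt) * z).im = k * z.im := by simp
  have h2 : ((⟨k, 0⟩ : GaussianInt) * z).norm % 3 = z.norm % 3 := by
    rw [Zsqrtd.norm_mul, norm_eq ⟨k, 0⟩, Int.mul_emod]
    simp [hk3]
  exact ind_congr (by rw [h1, h2, Ex_odd_mul hk])

lemma good_psi (J : ℕ) : Good (psi J) where
  conj z := by
    have := Ex_odd_mul (J := J) (k := -1) (b := z.im) (by decide)
    rw [neg_one_mul] at this
    exact ind_congr (by rw [Zsqrtd.im_star, Zsqrtd.norm_conj, this])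
  inv z := psi_int J (by decide) (by decide) z
  supp z hz := (of_ind_ne hz).2

lemma H_psi (j : ℕ) {z : GaussianInt} (hz : Prim z) :
    H (pi13 ^ 2 ^ j) (psi (j + 2)) z = psi (j + 1) z := by
  have n1 : (pi13 ^ 2 ^ j * z).norm % 3 = z.norm % 3 := by
    rw [Zsqrtd.norm_mul, Int.mul_emod, norm_pi_pow]
    simp
  have n2 : (star (pi13 ^ 2 ^ j) * z).norm % 3 = z.norm % 3 := by
    rw [Zsqrtd.norm_mul, Zsqrtd.norm_conj, Int.mul_emod, norm_pi_pow]
    simp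
  unfold H psi
  rw [n1, n2]
  by_cases h3 : z.norm % 3 = 2
  swap
  · rw [ind_neg fun h => h3 h.2, ind_neg fun h => h3 h.2, ind_neg fun h => h3 h.2, add_zero]
  rw [ind_congr (and_iff_left h3), ind_congr (and_iff_left h3), ind_congr (and_iff_left h3)]
  obtain ⟨x, y, hx, hy, h⟩ := pi_pow j
  have ha : z.re % 2 = 1 := by
    have := hz.1
    have := hz.2
    omega
  have hQ : y * z.re % 2 = 1 := by rw [Int.mul_emod, hy, ha]; rfl
  have i1 : (pi13 ^ 2 ^ j * z).im = x * z.im + 2 ^ (j + 1) * (y * z.re) := by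
    rw [h]; simp only [Zsqrtd.im_mul]; ring
  have i2 : (star (pi13 ^ 2 ^ j) * z).im = x * z.im - 2 ^ (j + 1) * (y * z.re) := by
    rw [h]; simp only [Zsqrtd.im_mul, Zsqrtd.re_star, Zsqrtd.im_star]; ring
  rw [i1, i2]
  by_cases hd : 2 ^ (j + 1) ∣ z.im
  · obtain ⟨c, hc⟩ := hd
    have hP : x * c % 2 = c % 2 := by rw [Int.mul_emod, hx]; simp
    rw [hc, mul_left_comm x, ← mul_add, ← mul_sub]
    rw [ind_congr Ex_succ, ind_congr Ex_succ, ind_congr Ex_mul_left]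
    unfold ind
    split_ifs <;> first | omega | decide
  · have e : ∀ t, 2 ^ (j + 1) ∣ t - x * z.im → ¬ Ex (j + 2) t := by
      rintro t h1 ⟨d, h2, -⟩
      have h4 : 2 ^ (j + 1) ∣ t := ⟨2 * d, by rw [h2]; ring⟩
      exact hd (pow_dvd_of_odd hx (by simpa using dvd_sub h4 h1))
    have e3 : ¬ Ex (j + 1) z.im := fun ⟨d, h1, _⟩ => hd ⟨d, h1⟩
    rw [ind_neg (e _ (by simp)), ind_neg (e _ (by simp)), ind_neg e3, add_zero]

lemma coprime_six {n : ℕ} : Nat.Coprime n (2 * 3) ↔ n % 2 = 1 ∧ n % 3 ≠ 0 := by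
  rw [Nat.coprime_mul_iff_right, Nat.coprime_two_right, Nat.odd_iff, Nat.coprime_comm,
    Nat.Prime.coprime_iff_not_dvd Nat.prime_three, Nat.dvd_iff_mod_eq_zero]

lemma coeff_SP3 (n : ℕ) :
    (SP 3).coeff n = ind (∃ a : ℕ, n = a * a ∧ a % 2 = 1 ∧ a % 3 ≠ 0) := by
  classical
  simp only [SP, PowerSeries.coeff_mk, ind]
  refine if_congr ?_ rfl rfl
  constructor
  · rintro ⟨h, a, rfl⟩
    exact ⟨a, rfl, coprime_six.1 (Nat.coprime_mul_iff_left.1 h).1⟩
  · rintro ⟨a, rfl, h⟩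
    exact ⟨Nat.coprime_mul_iff_left.2 ⟨coprime_six.2 h, coprime_six.2 h⟩, a, rfl⟩

lemma sq_mod_three (a : ℤ) : (a % 3 = 0 ∧ a * a % 3 = 0) ∨ (a % 3 ≠ 0 ∧ a * a % 3 = 1) := by
  have : a % 3 = 0 ∨ a % 3 = 1 ∨ a % 3 = 2 := by omega
  rcases this with h | h | h <;> simp [Int.mul_emod, h]

lemma Th_psi (J : ℕ) : SP 3 ^ (1 + 4 ^ (J + 1)) = Th (psi (J + 1)) := by
  have h4 : 4 ^ (J + 1) = 2 ^ (2 * (J + 1)) := by rw [pow_mul]; norm_num
  have hsq : 2 ^ (2 * (J + 1)) = 2 ^ (J + 1) * 2 ^ (J + 1) := by rw [two_mul, pow_add]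
  have hM : ((2 : ℤ) ^ (J + 1)) % 3 ≠ 0 := fun h => by
    have := (Int.prime_three.dvd_of_dvd_pow (Int.dvd_of_emod_eq_zero h))
    omega
  have hM2 : ((2 : ℤ) ^ (J + 1)) % 2 = 0 := by rw [pow_succ]; omega
  rw [pow_add, pow_one, h4, pow_two_pow]
  ext n
  simp only [PowerSeries.coeff_mul, PowerSeries.coeff_expand, coeff_SP3, Th, PowerSeries.coeff_mk,
    hsq]
  symm
  refine sum_bij_ne_zero (fun z _ _ => (z.re.natAbs * z.re.natAbs, z.im.natAbs * z.im.natAbs))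
    ?_ ?_ ?_ ?_
  · intro z hz _
    rw [mem_filter, mem_PS, norm_eq] at hz
    rw [Finset.HasAntidiagonal.mem_antidiagonal]
    zify
    rw [abs_mul_abs_self, abs_mul_abs_self, hz.1.1]
  · intro z hz _ w hw _ h
    rw [mem_filter, mem_PS] at hz hw
    rw [Prod.mk.injEq] at h
    have a1 := Nat.mul_self_inj.1 h.1
    have a2 := Nat.mul_self_inj.1 h.2
    obtain ⟨⟨-, b1, b2⟩, b3⟩ := hz
    obtain ⟨⟨-, c1, c2⟩, c3⟩ := hw
    exact Zsqrtd.ext (by omega) (by omega)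
  · rintro ⟨i, k⟩ hik hne
    rw [Finset.HasAntidiagonal.mem_antidiagonal] at hik
    have h1 := left_ne_zero_of_mul hne
    have h2 := right_ne_zero_of_mul hne
    simp only at h1 h2 hik
    split_ifs at h2 with a2
    swap
    · exact absurd rfl h2
    have a3 := of_ind_ne h2
    obtain ⟨a, rfl, ha2, ha3⟩ := of_ind_ne h1
    obtain ⟨m, rfl⟩ := a2
    rw [Nat.mul_div_cancel_left _ (by positivity)] at a3
    obtain ⟨b, rfl, hb2, hb3⟩ := a3
    have hb0 : (0 : ℤ) < 2 ^ (J + 1) * b := by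
      have : 0 < b := by omega
      positivity
    have hI2 : ((2 : ℤ) ^ (J + 1) * b) % 2 = 0 := by rw [Int.mul_emod, hM2]; simp
    have hI3 : ((2 : ℤ) ^ (J + 1) * b) % 3 ≠ 0 := fun h => by
      rcases Int.prime_three.dvd_or_dvd (Int.dvd_of_emod_eq_zero h) with h | h <;> omega
    obtain ⟨r, hr1, hr2⟩ : ∃ r : ℤ, r.natAbs = a ∧ (r + 2 ^ (J + 1) * b) % 4 = 1 := by
      by_cases h : ((a : ℤ) + 2 ^ (J + 1) * b) % 4 = 1
      · exact ⟨a, by simp, h⟩
      · exact ⟨-a, by simp, by omega⟩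
    have hrr : r * r = a * a := by rw [← hr1]; push_cast; rw [abs_mul_abs_self]
    have hnorm : Zsqrtd.norm (⟨r, 2 ^ (J + 1) * b⟩ : GaussianInt) = n := by
      rw [norm_eq, ← hik, hrr]
      push_cast
      ring
    refine ⟨⟨r, 2 ^ (J + 1) * b⟩, ?_, ?_, ?_⟩
    · rw [mem_filter, mem_PS]
      exact ⟨⟨hnorm, hI2, hr2⟩, hb0⟩
    · rw [psi, ind_pos]
      · simp
      · refine ⟨Ex_mul_left.2 (by omega), ?_⟩
        rw [norm_eq]
        have s1 := sq_mod_three r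
        have s2 := sq_mod_three (2 ^ (J + 1) * b)
        simp only
        omega
    · simp only [hr1, Int.natAbs_mul, Int.natAbs_pow, Int.natAbs_natCast, Prod.mk.injEq, true_and]
      norm_num
      ring
  · intro z hz hne
    rw [mem_filter, mem_PS] at hz
    obtain ⟨⟨-, b1, b2⟩, b3⟩ := hz
    have hc : Ex (J + 1) z.im ∧ z.norm % 3 = 2 := of_ind_ne hne
    rw [psi, ind_pos hc]
    obtain ⟨⟨d, hd, hd2⟩, h3⟩ := hc
    rw [norm_eq] at h3
    have s1 := sq_mod_three z.re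
    have s2 := sq_mod_three z.im
    have hd3 : d % 3 ≠ 0 := fun h => by
      have : (3 : ℤ) ∣ z.im := hd ▸ (Int.dvd_of_emod_eq_zero h).mul_left _
      omega
    have hk : z.im.natAbs * z.im.natAbs = 2 ^ (J + 1) * 2 ^ (J + 1) * (d.natAbs * d.natAbs) := by
      rw [hd]
      simp only [Int.natAbs_mul, Int.natAbs_pow]
      norm_num
      ring
    dsimp only
    rw [ind_pos ⟨_, rfl, by omega, by omega⟩, hk, if_pos (dvd_mul_right _ _),
      Nat.mul_div_cancel_left _ (by positivity), ind_pos ⟨_, rfl, by omega, by omega⟩, one_mul]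

end Dihed

open Dihed in
theorem T7_dihed (j : ℕ) : T 7 (SP 3 ^ (1 + 4 ^ (j + 1))) = 0 := by
  rw [Th_psi]
  exact T7_Th (good_psi _) (psi_int _ (by decide) (by decide))

open Dihed in
theorem T13_dihed (j : ℕ) :
    ((T 13) ^ (2 ^ j)) (SP 3 ^ (1 + 4 ^ (j + 2))) = SP 3 ^ (1 + 4 ^ (j + 1)) := by
  rw [Th_psi (j + 1), Th_psi j, T13_pow j (good_psi _)]
  ext n
  simp only [Th, PowerSeries.coeff_mk]
  exact sum_congr rfl fun z hz => H_psi j (mem_PS.1 (mem_filter.1 hz).1).2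

end Pool.Agent.Lib.MP_a3366f_nt.Ker
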