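import Mathlib
import Pool.Agent.Lib.MP_a3366f_nt.KDefs
import Pool.Agent.Lib.MP_a3366f_nt.KSpan
import Pool.Agent.Lib.MP_a3366f_nt.KStab

open Polynomial

namespace Pool.Agent.Lib.MP_a3366f_nt.Ker

namespace Rec

/-- The first coefficients of the powers of `SP 3`. -/
def cF : ℕ → ℕ → ZMod 2
  | 0, n => if n = 0 then 1 else 0
  | k + 1, n => (if 1 ≤ n then cF k (n - 1) else 0) + (if 25 ≤ n then cF k (n - 25) else 0) +
      (if 49 ≤ n then cF k (n - 49) else 0)

theorem F_trunc : ∃ E : S2, SP 3 = PowerSeries.X ^ 1 + PowerSeries.X ^ 25 + PowerSeries.X ^ 49 +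
    PowerSeries.X ^ 121 * E := by
  have : (PowerSeries.X : S2) ^ 121 ∣ SP 3 - (PowerSeries.X ^ 1 + PowerSeries.X ^ 25 +
      PowerSeries.X ^ 49) := by
    rw [PowerSeries.X_pow_dvd_iff]
    intro m hm
    simp only [map_sub, map_add, PowerSeries.coeff_X_pow, SP, PowerSeries.coeff_mk]
    have h : (Nat.Coprime m (2 * 3) ∧ IsSquare m) ↔ (m = 1 ∨ m = 25 ∨ m = 49) := by
      constructor
      · rintro ⟨h1, r, rfl⟩
        have : r < 11 := by nlinarith
        interval_cases r <;> simp_all (config := {decide := true})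
      · rintro (rfl | rfl | rfl)
        exacts [⟨by decide, 1, rfl⟩, ⟨by decide, 5, rfl⟩, ⟨by decide, 7, rfl⟩]
    simp only [h]
    by_cases h1 : m = 1
    · simp [h1]
    by_cases h3 : m = 25
    · simp [h3]
    by_cases h4 : m = 49
    · simp [h4]
    simp [h1, h3, h4]
  obtain ⟨E, hE⟩ := this
  exact ⟨E, by rw [← hE]; ring⟩

theorem coeff_F_pow (k : ℕ) : ∀ n ≤ 120, (SP 3 ^ k).coeff n = cF k n := by
  obtain ⟨E, hE⟩ := F_trunc
  induction k with
  | zero => intro n _; simp [cF, PowerSeries.coeff_one]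
  | succ k ih =>
    intro n hn
    have : SP 3 ^ (k + 1) = PowerSeries.X ^ 1 * SP 3 ^ k + PowerSeries.X ^ 25 * SP 3 ^ k +
        PowerSeries.X ^ 49 * SP 3 ^ k + PowerSeries.X ^ 121 * (E * SP 3 ^ k) := by
      rw [pow_succ']
      nth_rewrite 1 [hE]
      ring
    rw [this]
    simp only [map_add, PowerSeries.coeff_X_pow_mul', cF]
    rw [if_neg (show ¬ 121 ≤ n by omega), add_zero, ih _ (by omega), ih _ (by omega),
      ih _ (by omega)]

theorem exists_WF : ∃ W : S2, PowerSeries.constantCoeff W = 1 ∧ SP 3 = PowerSeries.X * W := by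
  obtain ⟨E, hE⟩ := F_trunc
  refine ⟨1 + PowerSeries.X ^ 24 + PowerSeries.X ^ 48 + PowerSeries.X ^ 120 * E, by simp, ?_⟩
  rw [hE]
  ring

theorem const_F : PowerSeries.constantCoeff (SP 3) = 0 := by
  obtain ⟨W, _, hF⟩ := exists_WF
  rw [hF]
  simp

theorem coeff_F_pow_self (e : ℕ) : (SP 3 ^ e).coeff e = 1 := by
  obtain ⟨W, hW, hF⟩ := exists_WF
  rw [hF, mul_pow, PowerSeries.coeff_X_pow_mul', if_pos le_rfl]
  simp [hW]

/-- The scalar in the value of `T p` on a small power. -/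
def sc (p k : ℕ) : ZMod 2 :=
  if p * k % 24 ≤ k then
    cF k (p * (p * k % 24)) + if p ∣ p * k % 24 then cF k (p * k % 24 / p) else 0
  else 0

theorem T_val {p : ℕ} (hp : p.Prime) (hpc : Nat.Coprime p (2 * 3)) {k : ℕ} (hk : k < 24)
    (hpk : p * k ≤ 120) : T p (SP 3 ^ k) = sc p k • SP 3 ^ (p * k % 24) := by
  obtain ⟨Q, hQ, h⟩ := stab_poly (c := 3) (Or.inr rfl) hp hpc k
  have hQe : Q = monomial (p * k % 24) (Q.coeff (p * k % 24)) := by
    ext e
    rw [coeff_monomial]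
    split_ifs with he
    · rw [he]
    · by_contra hne
      obtain ⟨h1, h2⟩ := hQ e hne
      have h3 : e % 24 = p * k % 24 := h2
      omega
  rw [hQe, aeval_monomial, ← Algebra.smul_def] at h
  rw [h]
  congr 1
  unfold sc
  split_ifs with he hd
  · have h1 := congrArg (PowerSeries.coeff (p * k % 24)) h
    rw [coeff_T, map_smul, coeff_F_pow_self, smul_eq_mul, mul_one, if_pos hd,
      coeff_F_pow _ _ ((Nat.mul_le_mul_left _ he).trans hpk),
      coeff_F_pow _ _ ((Nat.div_le_self _ _).trans (by omega))] at h1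
    exact h1.symm
  · have h1 := congrArg (PowerSeries.coeff (p * k % 24)) h
    rw [coeff_T, map_smul, coeff_F_pow_self, smul_eq_mul, mul_one, if_neg hd,
      coeff_F_pow _ _ ((Nat.mul_le_mul_left _ he).trans hpk)] at h1
    exact h1.symm
  · by_contra hne
    exact he (hQ _ hne).1

theorem T5_small {k : ℕ} (hk : k ≤ 10) :
    T 5 (SP 3 ^ k) = if k = 5 then SP 3 else if k = 10 then SP 3 ^ 2 else 0 := by
  have hs : ∀ k ≤ 10, sc 5 k = if k = 5 ∨ k = 10 then 1 else 0 := by decide +kernel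
  rw [T_val Nat.prime_five (by decide) (by omega) (by omega), hs k hk]
  interval_cases k <;> simp

theorem T7_small {k : ℕ} (hk : k ≤ 14) :
    T 7 (SP 3 ^ k) = if k = 7 then SP 3 else if k = 11 then SP 3 ^ 5 else
      if k = 14 then SP 3 ^ 2 else 0 := by
  have hs : ∀ k ≤ 14, sc 7 k = if k = 7 ∨ k = 11 ∨ k = 14 then 1 else 0 := by decide +kernel
  rw [T_val Nat.prime_seven (by decide) (by omega) (by omega), hs k hk]
  interval_cases k <;> simp

theorem eq_zero_of_UF {p : ℕ} (hp : 2 ≤ p) (hp0 : p ≠ 0) (G : S2)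
    (h0 : PowerSeries.constantCoeff G = 0)
    (h : ∀ k < p, U p (G * SP 3 ^ k) = (PowerSeries.expand p hp0 (SP 3)) ^ k * G) : G = 0 := by
  by_contra hG
  obtain ⟨W, hW, hD⟩ := exists_WF
  set n := G.order.toNat with hn
  have hGn : G.coeff n ≠ 0 := PowerSeries.coeff_order hG
  obtain ⟨G', hG'⟩ : (PowerSeries.X : S2) ^ n ∣ G := PowerSeries.X_pow_order_dvd
  have hn0 : n ≠ 0 := by
    intro h; rw [h] at hGn; simp [h0] at hGn
  have hc : PowerSeries.constantCoeff G' ≠ 0 := by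
    rw [hG'] at hGn
    simpa [PowerSeries.coeff_X_pow_mul'] using hGn
  obtain ⟨k, hk, m, hm⟩ : ∃ k < p, p ∣ n + k := by
    by_cases h1 : n % p = 0
    · exact ⟨0, by omega, by simpa using Nat.dvd_of_mod_eq_zero h1⟩
    · have := Nat.mod_lt n (show p > 0 by omega)
      refine ⟨p - n % p, by omega, n / p + 1, ?_⟩
      have := Nat.div_add_mod n p
      rw [mul_add]; omega
  have h1 := congrArg (PowerSeries.coeff m) (h k hk)
  rw [coeff_U, ← hm] at h1
  have h2 : G * SP 3 ^ k = PowerSeries.X ^ (n + k) * (G' * W ^ k) := by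
    rw [hG', hD]; ring
  have h3 : (PowerSeries.expand p hp0 (SP 3)) ^ k * G =
      PowerSeries.X ^ (p * k + n) * ((PowerSeries.expand p hp0 W) ^ k * G') := by
    rw [hG', hD, map_mul, PowerSeries.expand_X]; ring
  have h4 : m < p * k + n := by nlinarith [Nat.pos_of_ne_zero hn0]
  rw [h2, h3, PowerSeries.coeff_X_pow_mul', PowerSeries.coeff_X_pow_mul', if_pos le_rfl,
    if_neg (by omega)] at h1
  simp [hW, hc] at h1

/-- The effect of `U p` on a symmetric expression in `F` and `F (q ^ p)`. -/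
theorem U_sym {p : ℕ} (hp : p ≠ 0) (c : S2) (hc : PowerSeries.expand p hp c = c) (n a b k : ℕ) :
    U p ((SP 3 ^ n + c * (PowerSeries.expand p hp (SP 3) ^ a * SP 3 ^ a) +
        PowerSeries.expand p hp (SP 3) ^ b * SP 3 ^ b + PowerSeries.expand p hp (SP 3) ^ n) *
        SP 3 ^ k) =
      (T p (SP 3 ^ (k + n)) + c * SP 3 ^ a * T p (SP 3 ^ (k + a)) +
        SP 3 ^ b * T p (SP 3 ^ (k + b)) + SP 3 ^ n * T p (SP 3 ^ k)) +
      PowerSeries.expand p hp (SP 3) ^ k *
        (SP 3 ^ n + c * (PowerSeries.expand p hp (SP 3) ^ a * SP 3 ^ a) +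
        PowerSeries.expand p hp (SP 3) ^ b * SP 3 ^ b + PowerSeries.expand p hp (SP 3) ^ n) := by
  have : (SP 3 ^ n + c * (PowerSeries.expand p hp (SP 3) ^ a * SP 3 ^ a) +
        PowerSeries.expand p hp (SP 3) ^ b * SP 3 ^ b + PowerSeries.expand p hp (SP 3) ^ n) *
        SP 3 ^ k = SP 3 ^ (k + n) + PowerSeries.expand p hp (c * SP 3 ^ a) * SP 3 ^ (k + a) +
        PowerSeries.expand p hp (SP 3 ^ b) * SP 3 ^ (k + b) +
        PowerSeries.expand p hp (SP 3 ^ n) * SP 3 ^ k := by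
    rw [map_mul, hc, map_pow, map_pow, map_pow]
    ring
  rw [this, map_add, map_add, map_add, U_expand_mul, U_expand_mul, U_expand_mul, U_eq hp, U_eq hp,
    U_eq hp, U_eq hp]
  simp only [map_pow]
  ring

theorem two0 : (2 : S2) = 0 := CharTwo.two_eq_zero

theorem rec5F (k : ℕ) :
    T 5 (SP 3 ^ (k + 6)) = SP 3 * T 5 (SP 3 ^ (k + 1)) + SP 3 ^ 6 * T 5 (SP 3 ^ k) := by
  have key := U_sym (p := 5) (by norm_num) 0 (map_zero _) 6 0 1
  have hG := eq_zero_of_UF (p := 5) (by norm_num) (by norm_num) _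
    (by simp [const_F, PowerSeries.constantCoeff_expand]) fun k hk => (key k).trans (by
      rw [add_eq_right, T5_small (k := k + 6) (by omega), T5_small (k := k + 1) (by omega),
        T5_small (k := k) (by omega)]
      interval_cases k <;> simp
      linear_combination SP 3 ^ 2 * two0)
  have := key k
  rw [hG, zero_mul, map_zero, mul_zero] at this
  linear_combination (T 5 (SP 3 ^ (k + 6))) * two0 + this

theorem mod7 : SP 3 ^ 8 + 1 * (PowerSeries.expand 7 (by norm_num) (SP 3) ^ 4 * SP 3 ^ 4) +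
    PowerSeries.expand 7 (by norm_num) (SP 3) ^ 1 * SP 3 ^ 1 +
    PowerSeries.expand 7 (by norm_num) (SP 3) ^ 8 = 0 := by
  have key := U_sym (p := 7) (by norm_num) 1 (map_one _) 8 4 1
  refine eq_zero_of_UF (p := 7) (by norm_num) (by norm_num) _
    (by simp [const_F, PowerSeries.constantCoeff_expand]) fun k hk => (key k).trans ?_
  rw [add_eq_right, T7_small (k := k + 8) (by omega), T7_small (k := k + 4) (by omega),
    T7_small (k := k + 1) (by omega), T7_small (k := k) (by omega)]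
  interval_cases k <;> simp
  · linear_combination SP 3 ^ 5 * two0
  · linear_combination SP 3 ^ 2 * two0

theorem rec7F (k : ℕ) : T 7 (SP 3 ^ (k + 8)) = SP 3 ^ 4 * T 7 (SP 3 ^ (k + 4)) +
    SP 3 * T 7 (SP 3 ^ (k + 1)) + SP 3 ^ 8 * T 7 (SP 3 ^ k) := by
  have := U_sym (p := 7) (by norm_num) 1 (map_one _) 8 4 1 k
  rw [mod7, zero_mul, map_zero, mul_zero] at this
  linear_combination (T 7 (SP 3 ^ (k + 8))) * two0 + this

theorem rec24F (k : ℕ) : T 7 (SP 3 ^ (k + 24)) = SP 3 ^ 24 * T 7 (SP 3 ^ k) +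
    SP 3 ^ 6 * T 7 (SP 3 ^ (k + 6)) + SP 3 ^ 3 * T 7 (SP 3 ^ (k + 3)) := by
  have h := mod7
  have := U_sym (p := 7) (by norm_num) 1 (map_one _) 24 6 3 k
  generalize PowerSeries.expand 7 (by norm_num) (SP 3) = y at h this
  have h24 : SP 3 ^ 24 + 1 * (y ^ 6 * SP 3 ^ 6) + y ^ 3 * SP 3 ^ 3 + y ^ 24 = 0 := by
    generalize SP 3 = x at h
    linear_combination ((x ^ 8) ^ 2 + (x ^ 4 * y ^ 4 + x * y) ^ 2 + (y ^ 8) ^ 2 -
      x ^ 8 * (x ^ 4 * y ^ 4 + x * y) - (x ^ 4 * y ^ 4 + x * y) * y ^ 8 - y ^ 8 * x ^ 8) * h +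
      (x ^ 12 * y ^ 12 - x ^ 6 * y ^ 6) * two0
  rw [h24, zero_mul, map_zero, mul_zero] at this
  linear_combination (T 7 (SP 3 ^ (k + 24))) * two0 + this

/-- The polynomials describing `T 7` on the powers with exponent `2` modulo `3`. -/
noncomputable def P7 : ℕ → R2
  | 0 => 0
  | 1 => 0
  | 2 => 0
  | 3 => X
  | 4 => 1
  | 5 => 0
  | 6 => 0
  | 7 => X ^ 5
  | k + 8 => X ^ 8 * P7 k + X ^ 2 * P7 (k + 2) + X * P7 (k + 1)

theorem T7_init {k : ℕ} (hk : k < 8) :
    T 7 (SP 3 ^ (3 * k + 2)) = SP 3 ^ 2 * aeval (SP 3 ^ 3) (P7 k) := by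
  have h15 : T 7 (SP 3 ^ 15) = 0 := by
    rw [rec7F 7, T7_small (k := 7 + 4) (by omega), T7_small (k := 7 + 1) (by omega),
      T7_small (k := 7) (by omega)]
    simp
    linear_combination SP 3 ^ 9 * two0
  have h16 : T 7 (SP 3 ^ 16) = 0 := by
    rw [rec7F 8, T7_small (k := 8 + 4) (by omega), T7_small (k := 8 + 1) (by omega),
      T7_small (k := 8) (by omega)]
    simp
  have h17 : T 7 (SP 3 ^ 17) = 0 := by
    rw [rec7F 9, T7_small (k := 9 + 4) (by omega), T7_small (k := 9 + 1) (by omega),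
      T7_small (k := 9) (by omega)]
    simp
  have h19 : T 7 (SP 3 ^ 19) = SP 3 ^ 13 := by
    rw [rec7F 11, h15, T7_small (k := 11 + 1) (by omega), T7_small (k := 11) (by omega)]
    simp
    ring
  have h20 : T 7 (SP 3 ^ 20) = 0 := by
    rw [rec7F 12, h16, T7_small (k := 12 + 1) (by omega), T7_small (k := 12) (by omega)]
    simp
  have h23 : T 7 (SP 3 ^ 23) = SP 3 ^ 17 := by
    rw [rec7F 15, h19, h16, h15]
    ring
  interval_cases k
  · rw [T7_small (by omega)]; simp [P7]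
  · rw [T7_small (by omega)]; simp [P7]
  · rw [T7_small (by omega)]; simp [P7]
  · rw [T7_small (by omega)]; simp [P7]; ring
  · rw [T7_small (by omega)]; simp [P7]
  · rw [h17]; simp [P7]
  · rw [h20]; simp [P7]
  · rw [h23]; simp [P7]; ring

/-- The polynomials describing `T 5` on the powers of `SP 3`. -/
noncomputable def Q5 : ℕ → R2
  | 0 => 0
  | 1 => 0
  | 2 => 0
  | 3 => 0
  | 4 => 0
  | 5 => X
  | k + 6 => X * Q5 (k + 1) + X ^ 6 * Q5 k

theorem T5_eq (k : ℕ) : T 5 (SP 3 ^ k) = aeval (SP 3) (Q5 k) := by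
  induction k using Nat.strong_induction_on with
  | _ k ih =>
    rcases lt_or_ge k 6 with h | h
    · rw [T5_small (by omega)]
      interval_cases k <;> simp [Q5]
    · obtain ⟨k, rfl⟩ := Nat.exists_eq_add_of_le' h
      rw [rec5F, ih _ (by omega), ih _ (by omega), Q5]
      simp

theorem Q5_supp (k : ℕ) : ∀ e, (Q5 k).coeff e ≠ 0 → e + 4 ≤ k ∧ (e + k) % 6 = 0 := by
  induction k using Nat.strong_induction_on with
  | _ k ih =>
    intro e he
    rcases lt_or_ge k 6 with h | h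
    · interval_cases k
      all_goals simp only [Q5, coeff_zero, ne_eq, not_true_eq_false] at he
      rw [coeff_X] at he
      split_ifs at he with h1
      · omega
      · exact absurd rfl he
    · obtain ⟨k, rfl⟩ := Nat.exists_eq_add_of_le' h
      rw [Q5, coeff_add, ← pow_one (X : R2), coeff_X_pow_mul', ← pow_mul, coeff_X_pow_mul'] at he
      by_cases h1 : (if 1 ≤ e then (Q5 (k + 1)).coeff (e - 1) else 0) = 0
      · rw [h1, zero_add] at he
        split_ifs at he with h2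
        · have := ih k (by omega) _ he
          omega
        · exact absurd rfl he
      · split_ifs at h1 with h2
        · have := ih (k + 1) (by omega) _ h1
          omega
        · exact absurd rfl h1

theorem Q5_lead (n : ℕ) : (Q5 (6 * n + 5)).coeff (6 * n + 1) = 1 := by
  induction n with
  | zero => simp [Q5]
  | succ n ih =>
    have h0 : (Q5 (6 * n + 5 + 1)).coeff (6 * n + 6) = 0 := by
      by_contra h
      have := Q5_supp _ _ h
      omega
    rw [show 6 * (n + 1) + 5 = 6 * n + 5 + 6 by ring, Q5, coeff_add,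
      show 6 * (n + 1) + 1 = 6 * n + 6 + 1 by ring, coeff_X_mul, h0, zero_add,
      show 6 * n + 6 + 1 = 6 * n + 1 + 6 by ring, coeff_X_pow_mul, ih]

end Rec

open Rec

theorem exists_P7 : ∃ P : ℕ → R2,
    (∀ k, T 7 (SP 3 ^ (3 * k + 2)) = SP 3 ^ 2 * aeval (SP 3 ^ 3) (P k)) ∧
    (∀ k, P (k + 8) = X ^ 8 * P k + X ^ 2 * P (k + 2) + X * P (k + 1)) ∧
    ∀ k < 8, P k = if k = 3 then X else if k = 4 then 1 else if k = 7 then X ^ 5 else 0 := by
  refine ⟨P7, fun k => ?_, fun k => by rw [P7], fun k hk => ?_⟩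
  · induction k using Nat.strong_induction_on with
    | _ k ih =>
      rcases lt_or_ge k 8 with h | h
      · exact T7_init h
      · obtain ⟨k, rfl⟩ := Nat.exists_eq_add_of_le' h
        rw [show 3 * (k + 8) + 2 = 3 * k + 2 + 24 by ring, rec24F,
          show 3 * k + 2 + 6 = 3 * (k + 2) + 2 by ring,
          show 3 * k + 2 + 3 = 3 * (k + 1) + 2 by ring, ih _ (by omega), ih _ (by omega),
          ih _ (by omega), P7]
        simp only [map_add, map_mul, map_pow, aeval_X]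
        ring
  · interval_cases k <;> simp [P7]

theorem T5_lead (n : ℕ) : ∃ Q : R2, (∀ e, Q.coeff e ≠ 0 → e < 6 * n + 1 ∧ e % 6 = 1) ∧
    T 5 (SP 3 ^ (6 * n + 5)) = SP 3 ^ (6 * n + 1) + aeval (SP 3) Q := by
  refine ⟨Q5 (6 * n + 5) - X ^ (6 * n + 1), fun e he => ?_, ?_⟩
  · rw [coeff_sub, coeff_X_pow] at he
    split_ifs at he with h
    · rw [h, Q5_lead, sub_self] at he
      exact absurd rfl he
    · rw [sub_zero] at he
      have := Q5_supp _ _ he
      omega
  · rw [T5_eq, map_sub, map_pow, aeval_X]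
    ring

end Pool.Agent.Lib.MP_a3366f_nt.Ker
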