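import Mathlib
import Pool.Agent.Lib.MP_a3366f_nt.KDefs
import Pool.Agent.Lib.MP_a3366f_nt.KSpan

namespace Pool.Agent.Lib.MP_a3366f_nt.Ker

namespace Rep

theorem coeff_SP (c n : ℕ) :
    (SP c).coeff n = if Nat.Coprime n (2 * c) ∧ IsSquare n then 1 else 0 := by
  rw [SP, PowerSeries.coeff_mk]

/-- Thue's lemma for the form `x ^ 2 + n * y ^ 2`. -/
theorem thue {p n : ℕ} (hp : p.Prime) (hn : 1 ≤ n) (h : IsSquare (-n : ZMod p)) :
    ∃ x y k : ℕ, 0 < k ∧ k ≤ n ∧ x ^ 2 + n * y ^ 2 = k * p := by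
  have := Fact.mk hp
  obtain ⟨r, hr⟩ := h
  set m := Nat.sqrt p with hm
  have hm1 : m * m ≤ p := Nat.sqrt_le p
  have hm2 : p < (m + 1) * (m + 1) := Nat.lt_succ_sqrt p
  have hm3 : m * m ≠ p := by
    intro h
    have := (Nat.prime_mul_iff.1 (h ▸ hp))
    rcases this with ⟨h1, h2⟩ | ⟨h1, h2⟩ <;> rw [h2] at h1 <;> exact Nat.not_prime_one h1
  obtain ⟨a, ha, b, hb, hab, h⟩ := Finset.exists_ne_map_eq_of_card_lt_of_maps_to
    (s := Finset.range (m + 1) ×ˢ Finset.range (m + 1)) (t := (Finset.univ : Finset (ZMod p)))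
    (by simpa [ZMod.card] using hm2) (f := fun x => (x.1 : ZMod p) - r * x.2) (by simp)
  simp only [Finset.mem_product, Finset.mem_range] at ha hb
  set x : ℤ := a.1 - b.1 with hx
  set y : ℤ := a.2 - b.2 with hy
  have h1 : (p : ℤ) ∣ x ^ 2 + n * y ^ 2 := by
    rw [← ZMod.intCast_zmod_eq_zero_iff_dvd]
    have : ((x : ℤ) : ZMod p) = r * y := by rw [hx, hy]; push_cast; linear_combination h
    push_cast
    rw [this]
    linear_combination (-(y : ZMod p) ^ 2) * hr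
  have h2 : x ^ 2 ≤ m * m := by rw [← sq]; apply sq_le_sq' <;> omega
  have h3 : y ^ 2 ≤ m * m := by rw [← sq]; apply sq_le_sq' <;> omega
  have hn' : (1 : ℤ) ≤ n := by exact_mod_cast hn
  have h4 : 0 < x ^ 2 + n * y ^ 2 := by
    by_contra h4
    have a0 : y ^ 2 ≤ n * y ^ 2 := by nlinarith [sq_nonneg y]
    have a1 : x = 0 := by nlinarith [sq_nonneg x, sq_nonneg y]
    have a2 : y = 0 := by nlinarith [sq_nonneg x, sq_nonneg y]
    exact hab (Prod.ext (by omega) (by omega))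
  obtain ⟨c, hc⟩ := h1
  have hmp : (m : ℤ) * m < p := by exact_mod_cast lt_of_le_of_ne hm1 hm3
  have hp0 : (0 : ℤ) < p := by exact_mod_cast hp.pos
  have c1 : 0 < c := by nlinarith
  have c2 : c < n + 1 := by
    have : (n : ℤ) * y ^ 2 ≤ n * p := by nlinarith
    nlinarith
  obtain ⟨k, rfl⟩ := Int.eq_ofNat_of_zero_le c1.le
  refine ⟨x.natAbs, y.natAbs, k, by omega, by omega, ?_⟩
  zify
  simp only [sq_abs]
  linarith

theorem isSquare_neg_three {p : ℕ} (hp : p.Prime) (h : p % 3 = 1) : IsSquare (-3 : ZMod p) := by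
  have := Fact.mk hp
  have : Fact (Nat.Prime 3) := ⟨Nat.prime_three⟩
  obtain ⟨w, hw⟩ := exists_prime_orderOf_dvd_card (G := (ZMod p)ˣ) 3
    (by rw [ZMod.card_units]; omega)
  have h1 : (w : ZMod p) ^ 3 = 1 := by
    rw [← Units.val_pow_eq_pow_val, ← hw, pow_orderOf_eq_one, Units.val_one]
  have h2 : (w : ZMod p) - 1 ≠ 0 := by
    intro h2
    have : w = 1 := Units.ext (sub_eq_zero.1 h2)
    rw [this, orderOf_one] at hw
    omega
  have h3 : (w : ZMod p) ^ 2 + w + 1 = 0 :=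
    mul_left_cancel₀ h2 (by linear_combination h1)
  exact ⟨2 * w + 1, by linear_combination (-4) * h3⟩

theorem sq_mod_three (x : ℕ) : (x % 3 = 0 ∧ x ^ 2 % 9 = 0) ∨ (x % 3 ≠ 0 ∧ x ^ 2 % 3 = 1) := by
  have h2 : x ^ 2 % 9 = (x % 9) ^ 2 % 9 := by simp [Nat.pow_mod]
  have : x % 9 = 0 ∨ x % 9 = 1 ∨ x % 9 = 2 ∨ x % 9 = 3 ∨ x % 9 = 4 ∨ x % 9 = 5 ∨ x % 9 = 6 ∨
    x % 9 = 7 ∨ x % 9 = 8 := by omega
  rcases this with h | h | h | h | h | h | h | h | h <;> rw [h] at h2 <;> omega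

theorem rep_seven {p : ℕ} (hp : p.Prime) (h : p % 24 = 7) : ∃ x y : ℕ, x ^ 2 + 6 * y ^ 2 = p := by
  have := Fact.mk hp
  have h2 : IsSquare (2 : ZMod p) :=
    (ZMod.exists_sq_eq_two_iff (by rintro rfl; omega)).2 (Or.inr (by omega))
  have h6 : IsSquare (-(6 : ℕ) : ZMod p) := by
    have := h2.mul (isSquare_neg_three hp (by omega))
    rwa [show (2 : ZMod p) * -3 = -(6 : ℕ) by push_cast; ring] at this
  obtain ⟨x, y, k, k0, k6, e⟩ := thue hp (by norm_num) h6
  have a1 := sq_mod_three x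
  have a2 := sq_mod_three y
  have a3 := sq_mod_eight x
  have a4 := sq_mod_eight y
  interval_cases k
  · exact ⟨x, y, by omega⟩
  · omega
  · omega
  · obtain ⟨u, rfl⟩ : 2 ∣ x := by omega
    obtain ⟨v, rfl⟩ : 2 ∣ y := by omega
    exact ⟨u, v, by nlinarith⟩
  · omega
  · obtain ⟨u, rfl⟩ : 6 ∣ x := by omega
    exact ⟨y, u, by nlinarith⟩

theorem rep_thirteen {p : ℕ} (hp : p.Prime) (h : p % 24 = 13) :
    ∃ x y : ℕ, x ^ 2 + 12 * y ^ 2 = p := by
  have h3 : IsSquare (-(3 : ℕ) : ZMod p) := by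
    have := isSquare_neg_three hp (by omega)
    rwa [Nat.cast_ofNat]
  have key : ∃ x y : ℕ, x ^ 2 + 3 * y ^ 2 = p := by
    obtain ⟨x, y, k, k0, k6, e⟩ := thue hp (by norm_num) h3
    have a1 := sq_mod_three x
    interval_cases k
    · exact ⟨x, y, by omega⟩
    · omega
    · obtain ⟨u, rfl⟩ : 3 ∣ x := by omega
      exact ⟨y, u, by nlinarith⟩
  obtain ⟨x, y, e⟩ := key
  have a3 := sq_mod_eight x
  have a4 := sq_mod_eight y
  obtain ⟨v, rfl⟩ : 2 ∣ y := by omega
  exact ⟨x, v, by nlinarith⟩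

theorem coprime_six {x : ℕ} (h2 : x % 2 = 1) (h3 : x % 3 ≠ 0) : Nat.Coprime x (2 * 3) :=
  Nat.Coprime.mul_right ((Nat.coprime_two_right).2 (Nat.odd_iff.2 h2))
    ((Nat.Prime.coprime_iff_not_dvd Nat.prime_three).2 (by omega)).symm

theorem coprime_two {x : ℕ} (h2 : x % 2 = 1) : Nat.Coprime x (2 * 1) :=
  (Nat.coprime_two_right).2 (Nat.odd_iff.2 h2)

theorem coeff_rep {p n x y c c' : ℕ} (hp : p.Prime) (hn : 2 ≤ n) (h : x ^ 2 + n * y ^ 2 = p)
    (hx : Nat.Coprime x (2 * c)) (hy : Nat.Coprime y (2 * c')) (E : S2)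
    (hE : ∀ j, E.coeff j = if n ∣ j then (SP c').coeff (j / n) else 0) :
    (SP c * E).coeff p = 1 := by
  rw [PowerSeries.coeff_mul, Finset.sum_eq_single (x ^ 2, n * y ^ 2)]
  · rw [hE, if_pos (dvd_mul_right _ _), Nat.mul_div_cancel_left _ (by omega), coeff_SP, coeff_SP,
      if_pos ⟨hx.pow_left 2, x, sq x⟩, if_pos ⟨hy.pow_left 2, y, sq y⟩, one_mul]
  · rintro ⟨i, j⟩ hij hne
    rw [Finset.HasAntidiagonal.mem_antidiagonal] at hij
    by_contra h0
    have h1 := left_ne_zero_of_mul h0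
    have h2 := right_ne_zero_of_mul h0
    rw [hE] at h2
    rw [coeff_SP] at h1
    split_ifs at h1 h2 with h3 h4 h4
    · obtain ⟨m, rfl⟩ := h4
      rw [Nat.mul_div_cancel_left _ (by omega), coeff_SP] at h2
      split_ifs at h2 with h5
      · obtain ⟨_, u, rfl⟩ := h3
        obtain ⟨_, v, rfl⟩ := h5
        have h6 := rep_unique (u := u) (v := v) hp hn h (by rw [sq, sq]; exact hij)
        subst h6
        apply hne
        simp only at hij
        rw [Prod.mk.injEq, sq, sq]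
        refine ⟨rfl, ?_⟩
        rw [sq, sq] at h; omega
      · simp at h2
    all_goals simp at h1 h2
  · intro h'; exact absurd (Finset.HasAntidiagonal.mem_antidiagonal.2 h) h'

theorem coeff_three_pow (u j : ℕ) : (SP 3 ^ (3 * 2 ^ u)).coeff j =
    if 2 ^ u * 3 ∣ j then (SP 1).coeff (j / (2 ^ u * 3)) else 0 := by
  rw [pow_mul, pow_two_pow, SP_pow_self (Or.inr rfl) (by norm_num), PowerSeries.coeff_expand,
    PowerSeries.coeff_expand, SP_one, Nat.div_div_eq_div_mul]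
  by_cases h : 2 ^ u ∣ j
  · obtain ⟨m, rfl⟩ := h
    rw [if_pos (dvd_mul_right _ _), Nat.mul_div_cancel_left _ (by positivity)]
    simp only [Nat.mul_dvd_mul_iff_left (show 0 < 2 ^ u by positivity)]
  · rw [if_neg h, if_neg fun h' => h ((dvd_mul_right _ _).trans h')]

end Rep

theorem coeff_gen {c g l : ℕ} (hc : c = 1 ∨ c = 3) (hg : g ∈ Gen c) (hl : l.Prime)
    (h : l % (8 * c) = g) : (SP c ^ g).coeff l = 1 := by
  rcases hc with rfl | rfl
  · rw [SP_one]
    simp only [Gen, if_true, Finset.mem_insert, Finset.mem_singleton] at hg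
    rcases hg with rfl | rfl
    · exact coeff_D3 hl h
    · exact coeff_D5 hl h
  · simp only [Gen, show (3 : ℕ) ≠ 1 by norm_num, if_false, Finset.mem_insert,
      Finset.mem_singleton] at hg
    rcases hg with rfl | rfl | rfl
    · obtain ⟨x, y, e⟩ := rep_five hl (by omega)
      have a1 := Rep.sq_mod_three x
      have a2 := Rep.sq_mod_three y
      have a3 := sq_mod_eight x
      have a4 := sq_mod_eight y
      rw [pow_succ' (SP 3) 4]
      refine Rep.coeff_rep hl (by norm_num) e (Rep.coprime_six (by omega) (by omega))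
        (Rep.coprime_six (by omega) (by omega)) _ fun j => ?_
      rw [show SP 3 ^ 4 = SP 3 ^ 2 ^ 2 from rfl, pow_two_pow, PowerSeries.coeff_expand]
      rfl
    · obtain ⟨x, y, e⟩ := Rep.rep_seven hl h
      have a1 := Rep.sq_mod_three x
      have a3 := sq_mod_eight x
      have a4 := sq_mod_eight y
      rw [pow_succ' (SP 3) 6]
      exact Rep.coeff_rep hl (by norm_num) e (Rep.coprime_six (by omega) (by omega))
        (Rep.coprime_two (by omega)) _ (Rep.coeff_three_pow 1)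
    · obtain ⟨x, y, e⟩ := Rep.rep_thirteen hl h
      have a1 := Rep.sq_mod_three x
      have a3 := sq_mod_eight x
      have a4 := sq_mod_eight y
      rw [pow_succ' (SP 3) 12]
      exact Rep.coeff_rep hl (by norm_num) e (Rep.coprime_six (by omega) (by omega))
        (Rep.coprime_two (by omega)) _ (Rep.coeff_three_pow 2)

theorem T_SP {c l : ℕ} (hl : l.Prime) (hlc : Nat.Coprime l (2 * c)) : T l (SP c) = 0 := by
  ext n
  rw [coeff_T, map_zero, Rep.coeff_SP]
  by_cases h : l ∣ n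
  · obtain ⟨m, rfl⟩ := h
    rw [if_pos (dvd_mul_right _ _), Nat.mul_div_cancel_left _ hl.pos, Rep.coeff_SP]
    have : (Nat.Coprime (l * (l * m)) (2 * c) ∧ IsSquare (l * (l * m))) ↔
        (Nat.Coprime m (2 * c) ∧ IsSquare m) := by
      simp only [Nat.coprime_mul_iff_left, eq_true hlc, true_and]
      refine and_congr_right fun _ => ⟨?_, ?_⟩
      · rintro ⟨r, hr⟩
        obtain ⟨s, rfl⟩ : l ∣ r := hl.dvd_of_dvd_pow (n := 2) ⟨l * m, by rw [sq, ← hr]⟩
        refine ⟨s, ?_⟩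
        have h2 : l * l * m = l * l * (s * s) := by linarith
        exact Nat.eq_of_mul_eq_mul_left (Nat.mul_pos hl.pos hl.pos) h2
      · rintro ⟨r, rfl⟩; exact ⟨l * r, by ring⟩
    simp only [this]
    exact CharTwo.add_self_eq_zero _
  · rw [if_neg h, add_zero, if_neg]
    rintro ⟨_, r, hr⟩
    obtain ⟨s, rfl⟩ : l ∣ r := hl.dvd_of_dvd_pow (n := 2) ⟨n, by rw [sq, ← hr]⟩
    refine h ⟨s * s, ?_⟩
    have h2 : l * n = l * (l * (s * s)) := by linarith
    exact Nat.eq_of_mul_eq_mul_left hl.pos h2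

end Pool.Agent.Lib.MP_a3366f_nt.Ker
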