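import Mathlib
import Pool.Agent.Lib.MP_a3366f_nt.KDefs
import Pool.Agent.Lib.MP_a3366f_nt.KHecke
import Pool.Agent.Lib.MP_a3366f_nt.KSpan
import Pool.Agent.Lib.MP_a3366f_nt.KStab
import Pool.Agent.Lib.MP_a3366f_nt.KRec
import Pool.Agent.Lib.MP_a3366f_nt.KClaim7
import Pool.Agent.Lib.MP_a3366f_nt.KDihed
import Pool.Agent.Lib.MP_a3366f_nt.KRep

namespace Pool.Agent.Lib.MP_a3366f_nt.Ker

namespace KK

open Polynomial

/-- The linear map with prescribed values on the monomials. -/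
noncomputable def lin (P : ℕ → R2) : R2 →ₗ[ZMod 2] R2 :=
  (Polynomial.basisMonomials (ZMod 2)).constr (ZMod 2) P

lemma lin_X_pow (P : ℕ → R2) (k : ℕ) : lin P (X ^ k) = P k := by
  have := (Polynomial.basisMonomials (ZMod 2)).constr_basis (ZMod 2) P k
  rw [← this, lin, Polynomial.coe_basisMonomials, Polynomial.X_pow_eq_monomial]

lemma ext_pow {M : Type*} [AddCommGroup M] [Module (ZMod 2) M] (A B : R2 →ₗ[ZMod 2] M)
    (h : ∀ k, A (X ^ k) = B (X ^ k)) (P : R2) : A P = B P := by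
  rw [map_eq_sum A, map_eq_sum B]
  exact Finset.sum_congr rfl fun k _ => by rw [h]

lemma coeff_map_ne {A : R2 →ₗ[ZMod 2] R2} {P : R2} {e : ℕ} (h : (A P).coeff e ≠ 0) :
    ∃ k, P.coeff k ≠ 0 ∧ (A (X ^ k)).coeff e ≠ 0 := by
  rw [map_eq_sum, finsetSum_coeff] at h
  obtain ⟨k, _, h1⟩ := Finset.exists_ne_zero_of_sum_ne_zero h
  rw [coeff_smul, smul_eq_mul] at h1
  exact ⟨k, left_ne_zero_of_mul h1, right_ne_zero_of_mul h1⟩

/-- `A` represents the Hecke operator of index `p` on polynomials in `SP 3`. -/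
def IsSig (p : ℕ) (A : R2 →ₗ[ZMod 2] R2) : Prop :=
  (∀ P, aeval (SP 3) (A P) = T p (aeval (SP 3) P)) ∧
    ∀ P e, (A P).coeff e ≠ 0 → ∃ k, P.coeff k ≠ 0 ∧ e ≤ k ∧ e % 24 = p * k % 24

lemma exists_sig {p : ℕ} (hp : p.Prime) (hpc : Nat.Coprime p (2 * 3)) : ∃ A, IsSig p A := by
  choose Q hQ1 hQ2 using stab_poly (c := 3) (Or.inr rfl) hp hpc
  refine ⟨lin Q, fun P => ?_, fun P e he => ?_⟩
  · refine ext_pow ((aeval (SP 3) : R2 →ₐ[ZMod 2] S2).toLinearMap ∘ₗ lin Q)
      (T p ∘ₗ (aeval (SP 3) : R2 →ₐ[ZMod 2] S2).toLinearMap) (fun k => ?_) P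
    simp only [LinearMap.comp_apply, AlgHom.toLinearMap_apply, lin_X_pow, map_pow, aeval_X, hQ2]
  · obtain ⟨k, h1, h2⟩ := coeff_map_ne he
    rw [lin_X_pow] at h2
    exact ⟨k, h1, (hQ1 k e h2).1, (hQ1 k e h2).2⟩

lemma inj3 : Function.Injective (aeval (SP 3) : R2 → S2) := aeval_SP_inj (Or.inr rfl)

lemma IsSig.comm {p q : ℕ} {A B : R2 →ₗ[ZMod 2] R2} (hA : IsSig p A) (hB : IsSig q B)
    (hp : p.Prime) (hq : q.Prime) (P : R2) : A (B P) = B (A P) := by
  apply inj3
  rw [hA.1, hB.1, hB.1, hA.1, T_comm hp hq]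

/-- All exponents lie in the class `r` modulo six. -/
def Cl (r : ℕ) (P : R2) : Prop := ∀ e, P.coeff e ≠ 0 → e % 6 = r

lemma IsSig.cl {p r : ℕ} {A : R2 →ₗ[ZMod 2] R2} (hA : IsSig p A) {P : R2} (hP : Cl r P) :
    Cl (p * r % 6) (A P) := by
  intro e he
  obtain ⟨k, h1, _, h3⟩ := hA.2 P e he
  have h4 := hP k h1
  have h5 : e % 6 = p * k % 6 := by omega
  rw [h5, Nat.mul_mod, h4, Nat.mul_mod p r, ← h4, Nat.mod_mod]

lemma Cl.sep {r s : ℕ} {P Q : R2} (hP : Cl r P) (hQ : Cl s Q) (hrs : r ≠ s) (h : P + Q = 0) :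
    P = 0 ∧ Q = 0 := by
  have h1 : P = 0 := by
    ext e
    by_contra he
    have h2 := congrArg (fun R : R2 => R.coeff e) h
    simp only [coeff_add, coeff_zero] at h2 he
    have h3 : Q.coeff e = 0 := by
      by_contra h3
      exact hrs ((hP e he).symm.trans (hQ e h3))
    rw [h3, add_zero] at h2
    exact he h2
  exact ⟨h1, by simpa [h1] using h⟩

lemma exists_split {P : R2} (hP : ∀ e, P.coeff e ≠ 0 → e % 6 = 1 ∨ e % 6 = 5) :
    ∃ A B, Cl 1 A ∧ Cl 5 B ∧ P = A + B := by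
  classical
  set A : R2 := ∑ k ∈ P.support.filter (fun k => k % 6 = 1), monomial k (P.coeff k) with hA
  have hAc : ∀ e, A.coeff e = if e % 6 = 1 then P.coeff e else 0 := by
    intro e
    rw [hA, finsetSum_coeff]
    simp only [coeff_monomial, Finset.sum_ite_eq', Finset.mem_filter, mem_support_iff]
    by_cases h1 : P.coeff e = 0 <;> simp [h1]
  refine ⟨A, P - A, fun e he => ?_, fun e he => ?_, by ring⟩
  · rw [hAc] at he
    by_contra h
    simp [h] at he
  · rw [coeff_sub, hAc] at he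
    split_ifs at he with h
    · simp at he
    · have := hP e (by simpa using he)
      omega

lemma eq_one_of_ne {a : ZMod 2} (h : a ≠ 0) : a = 1 := by
  revert a; decide

lemma sig5_lead {A : R2 →ₗ[ZMod 2] R2} (hA : IsSig 5 A) (n : ℕ) :
    ∃ Q : R2, (∀ e, Q.coeff e ≠ 0 → e < 6 * n + 1 ∧ e % 6 = 1) ∧
      A (X ^ (6 * n + 5)) = X ^ (6 * n + 1) + Q := by
  obtain ⟨Q, h1, h2⟩ := T5_lead n
  refine ⟨Q, h1, inj3 ?_⟩
  rw [hA.1, map_add, aeval_X_pow, aeval_X_pow, h2]

lemma sig5_inj {A : R2 →ₗ[ZMod 2] R2} (hA : IsSig 5 A) {P : R2} (hP : Cl 5 P) (h : A P = 0) :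
    P = 0 := by
  by_contra h0
  have h1 : P.coeff P.natDegree ≠ 0 := leadingCoeff_ne_zero.2 h0
  have h2 := hP _ h1
  obtain ⟨n, hn⟩ : ∃ n, P.natDegree = 6 * n + 5 := ⟨P.natDegree / 6, by omega⟩
  have h3 := congrArg (fun R : R2 => R.coeff (6 * n + 1)) h
  simp only [coeff_zero] at h3
  rw [map_eq_sum, finsetSum_coeff, Finset.sum_eq_single (6 * n + 5)] at h3
  · obtain ⟨Q, h4, h5⟩ := sig5_lead hA n
    have h6 : Q.coeff (6 * n + 1) = 0 := by
      by_contra h6
      have := h4 _ h6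
      omega
    rw [h5, coeff_smul, coeff_add, coeff_X_pow_self, h6, ← hn] at h3
    exact h1 (by simpa using h3)
  · intro k hk hne
    have h4 := le_natDegree_of_mem_supp _ hk
    have h5 := hP k (mem_support_iff.1 hk)
    obtain ⟨m, rfl⟩ : ∃ m, k = 6 * m + 5 := ⟨k / 6, by omega⟩
    obtain ⟨Q, h6, h7⟩ := sig5_lead hA m
    have h8 : Q.coeff (6 * n + 1) = 0 := by
      by_contra h8
      have := h6 _ h8
      omega
    rw [h7, coeff_smul, coeff_add, coeff_X_pow, if_neg (by omega), h8]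
    simp
  · intro hk
    rw [notMem_support_iff.1 hk]
    simp

lemma sig5_surj {A : R2 →ₗ[ZMod 2] R2} (hA : IsSig 5 A) (n : ℕ) :
    ∀ P : R2, (∀ e, P.coeff e ≠ 0 → e < 6 * n + 1 ∧ e % 6 = 1) → ∃ H, Cl 5 H ∧ A H = P := by
  induction n with
  | zero =>
    intro P hP
    refine ⟨0, fun e he => by simp at he, ?_⟩
    rw [map_zero]
    ext e
    by_contra he
    have := hP e (fun h => he (by simp [h]))
    omega
  | succ n ih =>
    intro P hP
    obtain ⟨Q, h1, h2⟩ := sig5_lead hA n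
    obtain ⟨H, h3, h4⟩ := ih (P - P.coeff (6 * n + 1) • (X ^ (6 * n + 1) + Q)) (by
      intro e he
      rw [coeff_sub, coeff_smul, coeff_add, coeff_X_pow, smul_eq_mul] at he
      by_cases h3 : e = 6 * n + 1
      · subst h3
        have h6 : Q.coeff (6 * n + 1) = 0 := by
          by_contra h6
          have := h1 _ h6
          omega
        simp [h6] at he
      · rw [if_neg h3, zero_add] at he
        by_cases h4 : Q.coeff e = 0
        · have := hP e (by simpa [h4] using he)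
          omega
        · exact h1 e h4)
    refine ⟨H + P.coeff (6 * n + 1) • X ^ (6 * n + 5), fun e he => ?_, ?_⟩
    · rw [coeff_add, coeff_smul, coeff_X_pow] at he
      by_cases h5 : e = 6 * n + 5
      · omega
      · exact h3 e (by simpa [h5] using he)
    · rw [map_add, map_smul, h4, h2]
      simp

/-- The embedding `X ^ k ↦ X ^ (3 k + 2)`. -/
noncomputable def emb : R2 →ₗ[ZMod 2] R2 :=
  LinearMap.mulLeft (ZMod 2) (X ^ 2 : R2) ∘ₗ (expand (ZMod 2) 3).toLinearMap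

lemma emb_apply (P : R2) : emb P = X ^ 2 * expand (ZMod 2) 3 P := rfl

lemma coeff_emb (P : R2) (k : ℕ) : (emb P).coeff (3 * k + 2) = P.coeff k := by
  rw [emb_apply, coeff_X_pow_mul, coeff_expand_mul' (by norm_num)]

lemma aeval_emb (P : R2) : aeval (SP 3) (emb P) = SP 3 ^ 2 * aeval (SP 3 ^ 3) P := by
  rw [emb_apply, map_mul, map_pow, aeval_X, expand_aeval]

lemma exists_emb {H : R2} (hH : Cl 5 H) : ∃ P, OddP P ∧ H = emb P := by
  have hc : ∀ k, (contract 3 H.divX.divX).coeff k = H.coeff (3 * k + 2) := by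
    intro k
    rw [coeff_contract (by norm_num), coeff_divX, coeff_divX, mul_comm]
  refine ⟨contract 3 H.divX.divX, fun k hk => ?_, ?_⟩
  · rw [hc] at hk
    have := hH _ hk
    omega
  · ext e
    by_cases h : e % 3 = 2
    · obtain ⟨k, rfl⟩ : ∃ k, e = 3 * k + 2 := ⟨e / 3, by omega⟩
      rw [coeff_emb, hc]
    · have h1 : H.coeff e = 0 := by
        by_contra h1
        have := hH _ h1
        omega
      rw [h1, emb_apply, coeff_X_pow_mul']
      split_ifs with h2
      · rw [coeff_expand (by norm_num), if_neg (by omega)]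
      · rfl

lemma dom7 {A : R2 →ₗ[ZMod 2] R2} (hA : IsSig 7 A) {H : R2} (hH : Cl 5 H) (h0 : H ≠ 0)
    (h : A H = 0) : ∃ k, k % 2 = 1 ∧ n3 k = 0 ∧ H.coeff (3 * k + 2) ≠ 0 := by
  obtain ⟨P7, h1, h2, h3⟩ := exists_P7
  have cl := claim7 P7 h2 h3
  have weak : ∀ k, Le (g k - 2) (n3 k - 1) (P7 k) := by
    intro k
    by_cases h : k % 2 = 1 ∧ 1 ≤ n3 k
    · obtain ⟨e, h1, h2, h3⟩ := (cl k).1 h.1 h.2
      exact h3.le.mono (by omega)
    · exact ((cl k).2 h).mono (by omega)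
  have key : ∀ P, A (emb P) = emb (lin P7 P) := by
    intro P
    refine ext_pow (A ∘ₗ emb) (emb ∘ₗ lin P7) (fun k => inj3 ?_) P
    simp only [LinearMap.comp_apply]
    rw [hA.1, lin_X_pow, aeval_emb, aeval_emb, ← h1, map_pow, aeval_X, ← pow_mul, ← pow_add,
      add_comm]
  obtain ⟨P, hP, rfl⟩ := exists_emb hH
  have hP0 : P ≠ 0 := by
    rintro rfl
    exact h0 (map_zero _)
  have h4 : lin P7 P = 0 := by
    ext k
    rw [← coeff_emb, ← key, h]
    simp
  obtain ⟨e, he⟩ := exists_dom hP0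
  refine ⟨e, he.odd hP, ?_, by rw [coeff_emb, he.coeff]; exact one_ne_zero⟩
  by_contra h5
  obtain ⟨e', h6, h7, h8⟩ := (cl e).1 (he.odd hP) (by omega)
  have h9 : Dom e' (lin P7 P) := by
    rw [split_dom e P, map_add, lin_X_pow]
    refine h8.add (Le.map _ fun k hk => ?_)
    rw [lin_X_pow]
    refine (weak k).mono ?_
    have := he k hk
    omega
  have h10 := h9.coeff
  rw [h4] at h10
  simp at h10

lemma ker_le_one {W : Type*} [AddCommGroup W] [Module (ZMod 2) W] [FiniteDimensional (ZMod 2) W]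
    (B : Module.End (ZMod 2) W) (N : ℕ) (hN : Module.finrank (ZMod 2) W ≤ N + 1) (v : W)
    (h1 : (B ^ N) v ≠ 0) (h2 : (B ^ (N + 1)) v = 0) (h : W) (hh : B h = 0) :
    h = 0 ∨ h = (B ^ N) v := by
  have key : ∀ i ≤ N, Module.finrank (ZMod 2) (LinearMap.ker B) + i ≤
      Module.finrank (ZMod 2) (LinearMap.ker (B ^ (i + 1))) := by
    intro i
    induction i with
    | zero => intro _; rw [zero_add, pow_one, add_zero]
    | succ i ih =>
      intro hi
      have h3 := ih (by omega)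
      have h4 : LinearMap.ker (B ^ (i + 1)) < LinearMap.ker (B ^ (i + 1 + 1)) := by
        refine lt_of_le_of_ne (fun x hx => ?_) (fun h4 => ?_)
        · rw [LinearMap.mem_ker] at hx ⊢
          rw [pow_succ' B (i + 1), Module.End.mul_apply, hx, map_zero]
        · have h5 : (B ^ (N - (i + 1))) v ∈ LinearMap.ker (B ^ (i + 1 + 1)) := by
            rw [LinearMap.mem_ker, ← Module.End.mul_apply, ← pow_add,
              show i + 1 + 1 + (N - (i + 1)) = N + 1 by omega, h2]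
          rw [← h4, LinearMap.mem_ker, ← Module.End.mul_apply, ← pow_add,
            show i + 1 + (N - (i + 1)) = N by omega] at h5
          exact h1 h5
      have := Submodule.finrank_lt_finrank_of_lt h4
      omega
  have h3 := key N le_rfl
  have h4 := Submodule.finrank_le (LinearMap.ker (B ^ (N + 1)))
  have h5 : (B ^ N) v ∈ LinearMap.ker B := by
    rw [LinearMap.mem_ker, ← Module.End.mul_apply, ← pow_succ', h2]
  have h6 : (⟨(B ^ N) v, h5⟩ : LinearMap.ker B) ≠ 0 := fun h6 => h1 (congrArg Subtype.val h6)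
  have h7 : Module.finrank (ZMod 2) (LinearMap.ker B) = 1 := by
    have : 0 < Module.finrank (ZMod 2) (LinearMap.ker B) :=
      Module.finrank_pos_iff_exists_ne_zero.2 ⟨_, h6⟩
    omega
  obtain ⟨c, hc⟩ := (finrank_eq_one_iff_of_nonzero' _ h6).1 h7 ⟨h, hh⟩
  have h8 : c • (B ^ N) v = h := congrArg Subtype.val hc
  by_cases hc0 : c = 0
  · left; rw [← h8, hc0, zero_smul]
  · right; rw [← h8, eq_one_of_ne hc0, one_smul]

lemma card_code (j : ℕ) :
    ((Finset.range (4 ^ (j + 1))).filter fun k => k % 2 = 1 ∧ n3 k = 0).card ≤ 2 ^ j := by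
  rw [← Finset.card_range (2 ^ j)]
  refine Finset.card_le_card_of_injOn (fun k => g k / 2) (fun k hk => ?_) (fun k hk l hl h => ?_)
  · simp only [Finset.coe_filter, Finset.mem_range, Set.mem_ofPred_eq, Finset.coe_range,
      Set.mem_Iio] at hk ⊢
    have h1 := g5_lt (j + 1) k (by rw [pow_mul]; exact hk.1)
    have h2 := g_split k
    rw [pow_succ] at h1
    omega
  · simp only [Finset.coe_filter, Finset.mem_range, Set.mem_ofPred_eq] at hk hl h
    have h1 := g_mod k
    have h2 := g_mod l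
    exact code_inj k l (by omega) (by omega)

lemma four_pow_mod (j : ℕ) : 4 ^ (j + 1) % 6 = 4 := by
  induction j with
  | zero => rfl
  | succ j ih => rw [pow_succ, Nat.mul_mod, ih]

lemma sig_pow {p : ℕ} {B : R2 →ₗ[ZMod 2] R2} (hB : IsSig p B) (n : ℕ) (P : R2) :
    aeval (SP 3) ((B ^ n : Module.End (ZMod 2) R2) P) =
      (T p ^ n : Module.End (ZMod 2) S2) (aeval (SP 3) P) := by
  induction n with
  | zero => rfl
  | succ n ih => rw [pow_succ', pow_succ', Module.End.mul_apply, Module.End.mul_apply, hB.1, ih]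

lemma sig13_iter {B : R2 →ₗ[ZMod 2] R2} (hB : IsSig 13 B) (j : ℕ) :
    (B ^ (2 ^ j - 1) : Module.End (ZMod 2) R2) (X ^ (1 + 4 ^ (j + 1))) = X ^ 5 := by
  induction j with
  | zero => rfl
  | succ j ih =>
    have h1 : (B ^ (2 ^ j) : Module.End (ZMod 2) R2) (X ^ (1 + 4 ^ (j + 1 + 1))) =
        X ^ (1 + 4 ^ (j + 1)) := by
      apply inj3
      rw [sig_pow hB, aeval_X_pow, aeval_X_pow]
      exact T13_dihed j
    have h2 := Nat.one_le_two_pow (n := j)
    rw [show 2 ^ (j + 1) - 1 = (2 ^ j - 1) + 2 ^ j by rw [pow_succ]; omega, pow_add,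
      Module.End.mul_apply, h1, ih]

lemma sig13_five {B : R2 →ₗ[ZMod 2] R2} (hB : IsSig 13 B) : B (X ^ 5) = 0 := by
  ext e
  by_contra he
  obtain ⟨k, h1, h2, h3⟩ := hB.2 (X ^ 5) e (by simpa using he)
  rw [coeff_X_pow] at h1
  have : k = 5 := by by_contra h; simp [h] at h1
  omega

/-- The kernel of the operator of index seven in bounded degree. -/
def KS (A : R2 →ₗ[ZMod 2] R2) (M : ℕ) : Submodule (ZMod 2) R2 where
  carrier := {H | (∀ e, H.coeff e ≠ 0 → e % 6 = 5 ∧ e ≤ M) ∧ A H = 0}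
  add_mem' := by
    rintro P Q ⟨h1, h2⟩ ⟨h3, h4⟩
    refine ⟨fun e he => ?_, by rw [map_add, h2, h4, add_zero]⟩
    rw [coeff_add] at he
    by_cases h5 : P.coeff e = 0
    · exact h3 e (by simpa [h5] using he)
    · exact h1 e h5
  zero_mem' := ⟨fun e he => by simp at he, map_zero _⟩
  smul_mem' := by
    rintro c P ⟨h1, h2⟩
    refine ⟨fun e he => ?_, by rw [map_smul, h2, smul_zero]⟩
    rw [coeff_smul, smul_eq_mul] at he
    exact h1 e (right_ne_zero_of_mul he)

lemma ker5 {A B : R2 →ₗ[ZMod 2] R2} (hA : IsSig 7 A) (hB : IsSig 13 B) {H : R2} (hH : Cl 5 H)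
    (h7 : A H = 0) (h13 : B H = 0) : H = 0 ∨ H = X ^ 5 := by
  classical
  set j := H.natDegree with hj
  set E := (Finset.range (4 ^ (j + 1))).filter fun k => k % 2 = 1 ∧ n3 k = 0 with hE
  set K := KS A (1 + 4 ^ (j + 1)) with hK
  let φ : K →ₗ[ZMod 2] (E → ZMod 2) :=
    LinearMap.pi fun k : E => lcoeff (ZMod 2) (3 * k.1 + 2) ∘ₗ K.subtype
  have hφ : Function.Injective φ := by
    rw [injective_iff_map_eq_zero]
    rintro ⟨P, h1, h2⟩ h3
    by_contra h0
    obtain ⟨k, h4, h5, h6⟩ := dom7 hA (fun e he => (h1 e he).1)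
      (fun h => h0 (Subtype.ext h)) h2
    have h8 := (h1 _ h6).2
    have h9 : k ∈ E := by
      rw [hE, Finset.mem_filter, Finset.mem_range]
      exact ⟨by omega, h4, h5⟩
    exact h6 (congrFun h3 ⟨k, h9⟩)
  have : FiniteDimensional (ZMod 2) K := FiniteDimensional.of_injective φ hφ
  have hp := Nat.one_le_two_pow (n := j)
  have hdim : Module.finrank (ZMod 2) K ≤ (2 ^ j - 1) + 1 := by
    have h1 := LinearMap.finrank_le_finrank_of_injective hφ
    rw [Module.finrank_fintype_fun_eq_card, Fintype.card_coe] at h1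
    have h2 := card_code j
    rw [← hE] at h2
    omega
  have hBK : ∀ P ∈ K, B P ∈ K := by
    rintro P ⟨h1, h2⟩
    refine ⟨fun e he => ?_, ?_⟩
    · obtain ⟨k, h3, h4, h5⟩ := hB.2 P e he
      have := h1 k h3
      omega
    · rw [hA.comm hB (by norm_num) (by norm_num), h2, map_zero]
  have hv : (X ^ (1 + 4 ^ (j + 1)) : R2) ∈ K := by
    refine ⟨fun e he => ?_, inj3 ?_⟩
    · rw [coeff_X_pow] at he
      have h1 : e = 1 + 4 ^ (j + 1) := by by_contra h; simp [h] at he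
      have := four_pow_mod j
      omega
    · rw [hA.1, map_pow, aeval_X, T7_dihed, map_zero]
  have hHK : H ∈ K := by
    refine ⟨fun e he => ⟨hH e he, ?_⟩, h7⟩
    have h1 := le_natDegree_of_ne_zero he
    have h2 : j + 1 < 4 ^ (j + 1) := Nat.lt_pow_self (by norm_num)
    omega
  have hpow : ∀ n (x : K), ((((B.restrict hBK : Module.End (ZMod 2) K) ^ n) x : K) : R2) =
      (B ^ n : Module.End (ZMod 2) R2) x := by
    intro n x
    induction n with
    | zero => rfl
    | succ n ih =>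
      rw [pow_succ', pow_succ', Module.End.mul_apply, Module.End.mul_apply,
        LinearMap.coe_restrict_apply, ih]
  have h1 := hpow (2 ^ j - 1) ⟨_, hv⟩
  rw [sig13_iter hB] at h1
  rcases ker_le_one (B.restrict hBK) (2 ^ j - 1) hdim ⟨_, hv⟩
    (fun h => by
      rw [h] at h1
      exact pow_ne_zero 5 X_ne_zero h1.symm)
    (Subtype.ext (by
      rw [pow_succ', Module.End.mul_apply, LinearMap.coe_restrict_apply, h1, sig13_five hB]
      rfl))
    ⟨H, hHK⟩ (Subtype.ext h13) with h | h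
  · exact Or.inl (congrArg Subtype.val h)
  · exact Or.inr ((congrArg Subtype.val h).trans h1)

lemma poly3 {P : R2} (hP : ∀ e, P.coeff e ≠ 0 → e % 6 = 1 ∨ e % 6 = 5)
    (h5 : T 5 (aeval (SP 3) P) = 0) (h7 : T 7 (aeval (SP 3) P) = 0)
    (h13 : T 13 (aeval (SP 3) P) = 0) : P = 0 ∨ P = X := by
  obtain ⟨A5, hA5⟩ := exists_sig (p := 5) (by norm_num) (by norm_num)
  obtain ⟨A7, hA7⟩ := exists_sig (p := 7) (by norm_num) (by norm_num)
  obtain ⟨A13, hA13⟩ := exists_sig (p := 13) (by norm_num) (by norm_num)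
  have z : ∀ {p A}, IsSig p A → T p (aeval (SP 3) P) = 0 → A P = 0 := fun hA h =>
    inj3 (by rw [hA.1, h, map_zero])
  have k5 := z hA5 h5
  have k7 := z hA7 h7
  have k13 := z hA13 h13
  obtain ⟨P1, P5, h1, h2, rfl⟩ := exists_split hP
  rw [map_add] at k5
  have h3 : P5 = 0 := sig5_inj hA5 h2 ((hA5.cl h1).sep (hA5.cl h2) (by norm_num) k5).2
  subst h3
  rw [add_zero] at k7 k13 ⊢
  obtain ⟨H, h4, rfl⟩ := sig5_surj hA5 (P1.natDegree + 1) P1 fun e he =>
    ⟨by have := le_natDegree_of_ne_zero he; omega, h1 e he⟩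
  have l7 : A7 H = 0 := sig5_inj hA5 (hA7.cl h4)
    (by rw [hA5.comm hA7 (by norm_num) (by norm_num), k7])
  have l13 : A13 H = 0 := sig5_inj hA5 (hA13.cl h4)
    (by rw [hA5.comm hA13 (by norm_num) (by norm_num), k13])
  rcases ker5 hA7 hA13 h4 l7 l13 with rfl | rfl
  · exact Or.inl (map_zero _)
  · obtain ⟨Q, h6, h8⟩ := sig5_lead hA5 0
    have h9 : Q = 0 := by
      ext e
      by_contra he
      have := h6 e (by simpa using he)
      omega
    right
    simpa [h9] using h8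

lemma poly1 {P : R2} (hP : OddP P) (h3 : T 3 (aeval D P) = 0) (h5 : T 5 (aeval D P) = 0) :
    P = 0 ∨ P = X := by
  have k3 : tau 3 P = 0 :=
    aeval_inj (by rw [aeval_tau Nat.prime_three (by decide), h3, map_zero])
  have k5 : tau 5 P = 0 :=
    aeval_inj (by rw [aeval_tau Nat.prime_five (by decide), h5, map_zero])
  have h1 := V_one_eq (V_of_tau (n := 0) hP (k3 ▸ V.zero 0) (k5 ▸ V.zero 0))
  by_cases h : P.coeff 1 = 0
  · left; rw [h1, h, zero_smul]
  · right; rw [h1, eq_one_of_ne h, one_smul]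

end KK

theorem ker_gen {c : ℕ} (hc : c = 1 ∨ c = 3) {f : L2} (hf : f ∈ Pos c)
    (h : ∀ g ∈ Gen c, TL g f = 0) : f = 0 ∨ f = S c := by
  obtain ⟨P, hP, rfl⟩ := (mem_Sp_iff_poly hc (fun j hj => hj.1.le) f).1 hf
  have z : ∀ p ∈ Gen c, p.Prime → T p (Polynomial.aeval (SP c) P) = 0 := by
    intro p hp hp'
    have h1 := h p hp
    rw [TL_coe hp'] at h1
    exact HahnSeries.ofPowerSeries_injective (h1.trans (map_zero _).symm)
  have key : P = 0 ∨ P = Polynomial.X := by
    rcases hc with rfl | rfl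
    · rw [SP_one] at z
      refine KK.poly1 (fun e he => ?_) (z 3 (by simp [Gen]) (by norm_num))
        (z 5 (by simp [Gen]) (by norm_num))
      have h1 : IsCoprime (e : ℤ) ((2 : ℕ) : ℤ) := by simpa [Adm] using (hP e he).2
      rw [Nat.isCoprime_iff_coprime, Nat.coprime_two_right, Nat.odd_iff] at h1
      exact h1
    · refine KK.poly3 (fun e he => ?_) (z 5 (by simp [Gen]) (by norm_num))
        (z 7 (by simp [Gen]) (by norm_num)) (z 13 (by simp [Gen]) (by norm_num))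
      have h1 : IsCoprime (e : ℤ) ((2 * 3 : ℕ) : ℤ) := by simpa [Adm] using (hP e he).2
      rw [Nat.isCoprime_iff_coprime, Nat.coprime_mul_iff_right, Nat.coprime_two_right,
        Nat.odd_iff, Nat.coprime_comm, Nat.Prime.coprime_iff_not_dvd Nat.prime_three] at h1
      omega
  rcases key with rfl | rfl
  · left; simp
  · right; simp [S]

end Pool.Agent.Lib.MP_a3366f_nt.Ker
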