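import Mathlib
import Pool.Agent.Lib.MP_a3366f_nt.KBase
import Pool.Agent.Lib.MP_a3366f_nt.KRep
import Pool.Agent.Lib.MP_a3366f_nt.KKer

/-!
The constant term of a product of two Hecke images and a sparse power equals one for all pairs of
primes in two residue classes.
-/

open Finset

namespace Pool.Agent.Lib.MP_a3366f_nt.Ker

/-- Words in the generators. -/
def GW (c : ℕ) (w : List ℕ) : Prop := ∀ n ∈ w, n ∈ Gen c

theorem gen_cases {c g : ℕ} (hc : c = 1 ∨ c = 3) (hg : g ∈ Gen c) :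
    (c = 1 ∧ (g = 3 ∨ g = 5)) ∨ (c = 3 ∧ (g = 5 ∨ g = 7 ∨ g = 13)) := by
  rcases hc with rfl | rfl
  · left; simpa [Gen] using hg
  · right; simpa [Gen] using hg

theorem gen_prime {c g : ℕ} (hc : c = 1 ∨ c = 3) (hg : g ∈ Gen c) : g.Prime := by
  rcases gen_cases hc hg with ⟨_, rfl | rfl⟩ | ⟨_, rfl | rfl | rfl⟩ <;> norm_num

theorem gen_coprime {c g : ℕ} (hc : c = 1 ∨ c = 3) (hg : g ∈ Gen c) : Nat.Coprime g (2 * c) := by
  rcases gen_cases hc hg with ⟨rfl, rfl | rfl⟩ | ⟨rfl, rfl | rfl | rfl⟩ <;> norm_num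

theorem gen_mod {c g : ℕ} (hc : c = 1 ∨ c = 3) (hg : g ∈ Gen c) : g % (8 * c) = g := by
  rcases gen_cases hc hg with ⟨rfl, rfl | rfl⟩ | ⟨rfl, rfl | rfl | rfl⟩ <;> norm_num

theorem gen_le {c g : ℕ} (hc : c = 1 ∨ c = 3) (hg : g ∈ Gen c) : g ≤ 13 := by
  rcases gen_cases hc hg with ⟨rfl, rfl | rfl⟩ | ⟨rfl, rfl | rfl | rfl⟩ <;> norm_num

theorem class_coprime {c g l : ℕ} (hc : c = 1 ∨ c = 3) (hg : g ∈ Gen c) (h : l % (8 * c) = g) :
    Nat.Coprime l (2 * c) := by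
  have h1 : (l : ℤ) ≡ g [ZMOD (8 * c)] := by
    have : l ≡ g [MOD (8 * c)] := by rw [Nat.ModEq, h, gen_mod hc hg]
    exact_mod_cast Int.natCast_modEq_iff.2 this
  exact adm_nat.1 ((adm_nat.2 (gen_coprime hc hg)).of_modEq h1)

theorem GW.aw {c : ℕ} (hc : c = 1 ∨ c = 3) {w : List ℕ} (hw : GW c w) : AW c w :=
  fun n hn => gen_coprime hc (hw n hn)

theorem GW.cons {c g : ℕ} {w : List ℕ} (hg : g ∈ Gen c) (hw : GW c w) : GW c (g :: w) := by
  intro n hn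
  rcases List.mem_cons.1 hn with rfl | h
  · exact hg
  · exact hw n h

theorem GW.append {c : ℕ} {v w : List ℕ} (hv : GW c v) (hw : GW c w) : GW c (v ++ w) := by
  intro n hn
  rcases List.mem_append.1 hn with h | h
  · exact hv n h
  · exact hw n h

theorem GW.tail {c g : ℕ} {w : List ℕ} (hw : GW c (g :: w)) : GW c w :=
  fun m hm => hw m (List.mem_cons_of_mem _ hm)

theorem gen_drop {c g : ℕ} (hc : c = 1 ∨ c = 3) (hg : g ∈ Gen c) {D : ℤ} {f : L2}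
    (hf : f ∈ PosD c D) : TL g f ∈ PosD c (D - 1) := by
  refine Sp_map _ _ (fun e he => Sp_mono ?_ (stab_class hc (gen_prime hc hg) (gen_coprime hc hg) e))
    hf
  rintro j ⟨h1, h2, h3⟩
  have h4 := ((adm_nat.2 (gen_coprime hc hg)).mul he.2.2).of_modEq h2
  have h5 : j ≠ e := by
    rintro rfl
    have h6 := he.2.2
    have h7 := h2.dvd
    have h8 := h6.odd
    rcases gen_cases hc hg with ⟨rfl, rfl | rfl⟩ | ⟨rfl, rfl | rfl | rfl⟩
    all_goals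
      obtain ⟨r, hr⟩ := h8
      push_cast at h7
    · omega
    · omega
    · omega
    · omega
    · omega
  have h6 := he.2.1
  exact ⟨lt_of_le_of_ne (h3 he.1.le) h4.ne_zero.symm, by omega, h4⟩

theorem word_drop {c : ℕ} (hc : c = 1 ∨ c = 3) {w : List ℕ} (hw : GW c w) {D : ℤ} {f : L2}
    (hf : f ∈ PosD c D) : TW w f ∈ PosD c (D - w.length) := by
  induction w with
  | nil => simpa [TW] using hf
  | cons g w ih =>
    have := gen_drop hc (hw g List.mem_cons_self) (ih hw.tail)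
    rw [List.length_cons, Nat.cast_succ, ← sub_sub]
    exact this

theorem word_kill {c : ℕ} (hc : c = 1 ∨ c = 3) {w : List ℕ} (hw : GW c w) {D : ℤ} {f : L2}
    (hf : f ∈ PosD c D) (hD : D ≤ w.length) : TW w f = 0 := by
  refine Sp_empty ?_ (word_drop hc hw hf)
  rintro j ⟨h1, h2, _⟩
  omega

theorem coeff_S_one {c : ℕ} (hc : c = 1 ∨ c = 3) : (S c).coeff 1 = 1 := by
  simpa using coeff_S_zpow_self hc 1

theorem coeff_S_eq_zero {c : ℕ} (hc : c = 1 ∨ c = 3) {n : ℤ} (hn : ¬ n ≡ 1 [ZMOD (8 * c)]) :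
    (S c).coeff n = 0 := by
  by_contra h
  have h1 : (S c ^ (1 : ℤ)).coeff n ≠ 0 := by simpa using h
  exact hn (supp_S_zpow hc h1).2

/-- An element all of whose images under words have first coefficient zero vanishes. -/
theorem detect {c : ℕ} (hc : c = 1 ∨ c = 3) (k : ℕ) : ∀ f : L2, f ∈ PosD c k →
    (∀ w, GW c w → (TW w f).coeff 1 = 0) → f = 0 := by
  induction k with
  | zero =>
    intro f hf _
    refine Sp_empty ?_ hf
    rintro j ⟨h1, h2, _⟩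
    omega
  | succ k ih =>
    intro f hf h
    have h1 : ∀ g ∈ Gen c, TL g f = 0 := fun g hg => by
      refine ih _ (by simpa using gen_drop hc hg hf) fun w hw => ?_
      have := h (w ++ [g]) (hw.append fun n hn => by rw [List.mem_singleton.1 hn]; exact hg)
      rwa [TW_append] at this
    rcases ker_gen hc (PosD_le _ hf) h1 with h2 | h2
    · exact h2
    · have h3 := h [] fun n hn => by simp at hn
      rw [h2] at h3
      simp only [TW] at h3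
      rw [coeff_S_one hc] at h3
      exact absurd h3 one_ne_zero

theorem level_one {c : ℕ} (hc : c = 1 ∨ c = 3) {D : ℕ} {f : L2} (hf : f ∈ PosD c D)
    (h : ∀ w, GW c w → 1 ≤ w.length → (TW w f).coeff 1 = 0) : f = 0 ∨ f = S c := by
  refine ker_gen hc (PosD_le _ hf) fun g hg => ?_
  refine detect hc D _ (TL_PosD hc (gen_coprime hc hg) hf) fun w hw => ?_
  have := h (w ++ [g]) (hw.append fun n hn => by rw [List.mem_singleton.1 hn]; exact hg) (by simp)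
  rwa [TW_append] at this

theorem level_one_coeff {c : ℕ} (hc : c = 1 ∨ c = 3) {D : ℕ} {f : L2} (hf : f ∈ PosD c D)
    (h : ∀ w, GW c w → 1 ≤ w.length → (TW w f).coeff 1 = 0) {n : ℤ}
    (hn : ¬ n ≡ 1 [ZMOD (8 * c)]) : f.coeff n = 0 := by
  rcases level_one hc hf h with h1 | h1
  · rw [h1]; rfl
  · rw [h1]; exact coeff_S_eq_zero hc hn

theorem coeff_gen' {c g l : ℕ} (hc : c = 1 ∨ c = 3) (hg : g ∈ Gen c) (hl : l.Prime)
    (h : l % (8 * c) = g) : (S c ^ (g : ℤ)).coeff l = 1 := by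
  rw [zpow_natCast, S, ← map_pow, HahnSeries.ofPowerSeries_apply_coeff]
  exact coeff_gen hc hg hl h

theorem TL_gen_pow {c g g' : ℕ} (hc : c = 1 ∨ c = 3) (hg : g ∈ Gen c) (hg' : g' ∈ Gen c) :
    TL g' (S c ^ (g : ℤ)) = if g' = g then S c else 0 := by
  have h1 := stab_class hc (gen_prime hc hg') (gen_coprime hc hg') (g : ℤ)
  split_ifs with h
  · subst h
    have h2 : TL g' (S c ^ (g' : ℤ)) ∈ Sp c {1} := by
      refine Sp_mono ?_ h1
      rintro j ⟨h3, h4, h5⟩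
      have h6 := h5 (by positivity)
      have h7 := h4.dvd
      show j = 1
      rcases gen_cases hc hg with ⟨rfl, rfl | rfl⟩ | ⟨rfl, rfl | rfl | rfl⟩ <;>
        push_cast at h3 h7 <;> omega
    unfold Sp at h2
    rw [Set.image_singleton, Submodule.mem_span_singleton] at h2
    obtain ⟨a, ha⟩ := h2
    have h3 := congrArg (fun f : L2 => f.coeff 1) ha
    simp only [zpow_one, HahnSeries.coeff_smul, coeff_S_one hc, smul_eq_mul, mul_one] at h3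
    rw [coeff_TL_one (gen_prime hc hg).ne_zero,
      coeff_gen' hc hg (gen_prime hc hg) (gen_mod hc hg)] at h3
    rw [← ha, h3, one_smul, zpow_one]
  · refine Sp_empty ?_ h1
    rintro j ⟨h3, h4, h5⟩
    have h6 := h5 (by positivity)
    have h7 := h4.dvd
    rcases gen_cases hc hg with ⟨rfl, rfl | rfl⟩ | ⟨rfl, rfl | rfl | rfl⟩ <;>
      rcases gen_cases hc hg' with ⟨h8, rfl | rfl⟩ | ⟨h8, rfl | rfl | rfl⟩ <;>
      push_cast at h3 h7 <;> omega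

theorem gen_not_one {c g l : ℕ} (hc : c = 1 ∨ c = 3) (hg : g ∈ Gen c) (h : l % (8 * c) = g) :
    ¬ (l : ℤ) ≡ 1 [ZMOD (8 * c)] := by
  intro h1
  have h2 := h1.dvd
  rcases gen_cases hc hg with ⟨rfl, rfl | rfl⟩ | ⟨rfl, rfl | rfl | rfl⟩ <;>
    push_cast at h2 <;> omega

theorem level_two {c : ℕ} (hc : c = 1 ∨ c = 3) {D : ℕ} {f : L2} (hf : f ∈ PosD c D)
    (h : ∀ w, GW c w → 2 ≤ w.length → (TW w f).coeff 1 = 0) {g l : ℕ} (hg : g ∈ Gen c)
    (hl : l.Prime) (hlg : l % (8 * c) = g) : f.coeff l = f.coeff g := by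
  classical
  have h1 : ∀ g ∈ Gen c, TL g f = f.coeff g • S c := fun g hg => by
    have h2 := level_one hc (TL_PosD hc (gen_coprime hc hg) hf) fun w hw hw1 => by
      have := h (w ++ [g]) (hw.append fun n hn => by rw [List.mem_singleton.1 hn]; exact hg)
        (by simpa using hw1)
      rwa [TW_append] at this
    rw [← coeff_TL_one (gen_prime hc hg).ne_zero]
    rcases h2 with h2 | h2
    · rw [h2]; simp
    · rw [h2, coeff_S_one hc, one_smul]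
  have h2 : f - ∑ g ∈ Gen c, f.coeff g • S c ^ (g : ℤ) ∈ Pos c := by
    refine Submodule.sub_mem _ (PosD_le _ hf) (Submodule.sum_mem _ fun g hg =>
      Submodule.smul_mem _ _ (zpow_mem_Sp ⟨?_, adm_nat.2 (gen_coprime hc hg)⟩))
    exact_mod_cast (gen_prime hc hg).pos
  have h3 := ker_gen hc h2 fun g' hg' => by
    rw [map_sub, map_sum, h1 g' hg', Finset.sum_eq_single g']
    · rw [map_smul, TL_gen_pow hc hg' hg', if_pos rfl, sub_self]
    · intro g hg hne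
      rw [map_smul, TL_gen_pow hc hg hg', if_neg (Ne.symm hne), smul_zero]
    · intro h; exact absurd hg' h
  have h4 : (f - ∑ g ∈ Gen c, f.coeff g • S c ^ (g : ℤ)).coeff l = 0 := by
    rcases h3 with h3 | h3
    · rw [h3]; rfl
    · rw [h3]; exact coeff_S_eq_zero hc (gen_not_one hc hg hlg)
  rw [HahnSeries.coeff_sub, sub_eq_zero, HahnSeries.coeff_sum, Finset.sum_eq_single g] at h4
  · rw [h4, HahnSeries.coeff_smul, coeff_gen' hc hg hl hlg, smul_eq_mul, mul_one]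
  · intro g' hg' hne
    have h5 : (S c ^ (g' : ℤ)).coeff l = 0 := by
      by_contra h6
      have h7 := (supp_S_zpow hc h6).2
      have h8 : l ≡ g' [MOD (8 * c)] := by
        rw [← Int.natCast_modEq_iff]; exact_mod_cast h7
      rw [Nat.ModEq, hlg, gen_mod hc hg'] at h8
      exact hne h8.symm
    rw [HahnSeries.coeff_smul, h5, smul_zero]
  · intro h; exact absurd hg h

/-! The explicit constant term. -/

theorem order_Neg {c : ℕ} (hc : c = 1 ∨ c = 3) {σ : L2} (hσ : σ ∈ Neg c) (h0 : σ ≠ 0) :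
    ∃ t : ℕ, Nat.Coprime t (2 * c) ∧ σ.coeff (-(t : ℤ)) = 1 ∧
      ∀ n, σ.coeff n ≠ 0 → -(t : ℤ) ≤ n := by
  have h1 : σ.coeff σ.order ≠ 0 := fun h => h0 (HahnSeries.coeff_order_eq_zero.1 h)
  obtain ⟨j, ⟨hj, n, h2, h3, _⟩, h4, _⟩ := supp_Sp hc (Sp_refine hc hσ) h1
  have h5 := HahnSeries.order_le_of_coeff_ne_zero h2
  have h6 : σ.order = j := by omega
  have h7 := hj.1
  have h8 : -(((-j).toNat : ℕ) : ℤ) = j := by omega
  refine ⟨(-j).toNat, adm_nat.1 ?_, ?_, fun n hn => ?_⟩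
  · rw [show (((-j).toNat : ℕ) : ℤ) = -j by omega]
    exact hj.2.neg
  · rw [h8, ← h6]; exact z2_ne_zero h1
  · rw [h8, ← h6]; exact HahnSeries.order_le_of_coeff_ne_zero hn

theorem TL_supp {σ : L2} {i : ℕ} {m : ℤ} (h : (TL i σ).coeff m ≠ 0) :
    ∃ d e : ℕ, ∃ x : ℤ, 1 ≤ d ∧ 1 ≤ e ∧ d * e = i ∧ m = d * x ∧ σ.coeff (e * x) ≠ 0 := by
  rw [coeff_TL] at h
  obtain ⟨d, hd, h1⟩ := Finset.exists_ne_zero_of_sum_ne_zero h
  obtain ⟨⟨e, rfl⟩, h2⟩ := Nat.mem_divisors.1 hd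
  have hd0 : 0 < d := Nat.pos_of_ne_zero (left_ne_zero_of_mul h2)
  have he0 : 0 < e := Nat.pos_of_ne_zero (right_ne_zero_of_mul h2)
  split_ifs at h1 with h3
  · obtain ⟨x, rfl⟩ := h3
    rw [Int.mul_ediv_cancel_left _ (by exact_mod_cast hd0.ne'), Nat.mul_div_cancel_left _ hd0] at h1
    exact ⟨d, e, x, hd0, he0, rfl, rfl, h1⟩
  · exact absurd rfl h1

theorem TL_lower {σ : L2} {t : ℕ} (ht : ∀ n, σ.coeff n ≠ 0 → -(t : ℤ) ≤ n) {i : ℕ} {m : ℤ}
    (h : (TL i σ).coeff m ≠ 0) : -((t : ℤ) * i) ≤ m := by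
  obtain ⟨d, e, x, hd, he, rfl, rfl, h1⟩ := TL_supp h
  have h2 := ht _ h1
  have hd' : (1 : ℤ) ≤ d := by exact_mod_cast hd
  have he' : (1 : ℤ) ≤ e := by exact_mod_cast he
  have ht' : (0 : ℤ) ≤ t := by positivity
  push_cast
  by_cases hx : 0 ≤ x
  · have : 0 ≤ (d : ℤ) * x := by positivity
    have : 0 ≤ (t : ℤ) * (d * e) := by positivity
    linarith
  · have h3 : -(t : ℤ) ≤ x := by nlinarith
    have h4 : -((t : ℤ) * e) ≤ x := by nlinarith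
    nlinarith

theorem TL_gap {σ : L2} {t : ℕ} (ht1 : 1 ≤ t) (ht : ∀ n, σ.coeff n ≠ 0 → -(t : ℤ) ≤ n) {i : ℕ}
    {m : ℤ} (h : (TL i σ).coeff m ≠ 0) (hm : m ≠ -((t : ℤ) * i)) :
    (i : ℤ) ≤ 2 * (m + t * i) := by
  obtain ⟨d, e, x, hd, he, rfl, rfl, h1⟩ := TL_supp h
  have h2 := ht _ h1
  have hd' : (1 : ℤ) ≤ d := by exact_mod_cast hd
  have ht' : (1 : ℤ) ≤ t := by exact_mod_cast ht1
  push_cast at hm ⊢
  have key : (e : ℤ) ≤ 2 * (x + t * e) := by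
    rcases Nat.eq_or_lt_of_le he with h3 | h3
    · subst h3
      push_cast at h2 hm ⊢
      have : x ≠ -t := by rintro rfl; apply hm; ring
      omega
    · have he' : (2 : ℤ) ≤ e := by exact_mod_cast h3
      by_cases hx : 0 ≤ x
      · nlinarith
      · have h4 : -(t : ℤ) ≤ 2 * x := by nlinarith
        nlinarith
  nlinarith

theorem TL_val {σ : L2} {t : ℕ} (ht1 : 1 ≤ t) (h1 : σ.coeff (-(t : ℤ)) = 1) {a b j : ℕ} (hab : a * b = t) (hj : 1 ≤ j) :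
    (TL (a * j) σ).coeff (-((b : ℤ) * j)) =
      ∑ d ∈ (a * j).divisors.erase j, (if (d : ℤ) ∣ -((b : ℤ) * j) then
        σ.coeff (((a * j / d : ℕ) : ℤ) * (-((b : ℤ) * j) / d)) else 0) + 1 := by
  have ha : a ≠ 0 := by rintro rfl; omega
  have hj' : j ∈ (a * j).divisors := Nat.mem_divisors.2 ⟨Dvd.intro_left _ rfl, by positivity⟩
  rw [coeff_TL, ← Finset.sum_erase_add _ _ hj', if_pos (by simp), Nat.mul_div_cancel _ hj,
    show -((b : ℤ) * j) = (-b) * j by ring, Int.mul_ediv_cancel _ (by positivity),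
    show (a : ℤ) * -b = -(t : ℤ) by rw [← hab]; push_cast; ring, h1]

theorem TL_lead {σ : L2} {t : ℕ} (ht1 : 1 ≤ t) (h1 : σ.coeff (-(t : ℤ)) = 1)
    (ht : ∀ n, σ.coeff n ≠ 0 → -(t : ℤ) ≤ n) {i : ℕ} (hi : 1 ≤ i) :
    (TL i σ).coeff (-((t : ℤ) * i)) = 1 := by
  have h2 := TL_val ht1 h1 (one_mul t) hi
  rw [one_mul] at h2
  rw [h2, Finset.sum_eq_zero, zero_add]
  intro d hd
  obtain ⟨h3, h4⟩ := Finset.mem_erase.1 hd
  obtain ⟨⟨e, rfl⟩, h5⟩ := Nat.mem_divisors.1 h4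
  have hd0 : 0 < d := Nat.pos_of_ne_zero (left_ne_zero_of_mul h5)
  have he0 : 0 < e := Nat.pos_of_ne_zero (right_ne_zero_of_mul h5)
  have he1 : e ≠ 1 := by rintro rfl; simp at h3
  split_ifs
  · by_contra h6
    have h7 := ht _ h6
    rw [Nat.mul_div_cancel_left _ hd0, show -((t : ℤ) * ((d * e : ℕ) : ℤ)) = d * (-(t * e)) by
      push_cast; ring, Int.mul_ediv_cancel_left _ (by positivity)] at h7
    have he' : (2 : ℤ) ≤ e := by omega
    have ht' : (1 : ℤ) ≤ t := by exact_mod_cast ht1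
    have h8 : (4 : ℤ) ≤ e * e := by nlinarith
    nlinarith [mul_le_mul_of_nonneg_left h8 (show (0 : ℤ) ≤ t by positivity)]
  · rfl

theorem TL_mid {σ : L2} {t : ℕ} (ht1 : 1 ≤ t) (h1 : σ.coeff (-(t : ℤ)) = 1)
    (ht : ∀ n, σ.coeff n ≠ 0 → -(t : ℤ) ≤ n) {j : ℕ} (hj : 1 ≤ j) :
    (TL (t * j) σ).coeff (-(j : ℤ)) = 1 := by
  have h2 := TL_val ht1 h1 (mul_one t) hj
  simp only [Nat.cast_one, one_mul] at h2
  rw [h2, Finset.sum_eq_zero, zero_add]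
  intro d hd
  obtain ⟨h3, h4⟩ := Finset.mem_erase.1 hd
  split_ifs with h5
  · by_contra h6
    have h7 := ht _ h6
    obtain ⟨e, rfl⟩ : d ∣ j := by exact_mod_cast (Int.dvd_neg.1 h5)
    have hd0 : 0 < d := Nat.pos_of_ne_zero (by rintro rfl; simp at hj)
    have he0 : 0 < e := Nat.pos_of_ne_zero (by rintro rfl; simp at hj)
    have he1 : e ≠ 1 := by rintro rfl; simp at h3
    rw [show t * (d * e) = d * (t * e) by ring, Nat.mul_div_cancel_left _ hd0,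
      show -((d * e : ℕ) : ℤ) = d * (-e) by push_cast; ring,
      Int.mul_ediv_cancel_left _ (by positivity)] at h7
    have he' : (2 : ℤ) ≤ e := by omega
    have ht' : (1 : ℤ) ≤ t := by exact_mod_cast ht1
    push_cast at h7
    have h8 : (4 : ℤ) ≤ e * e := by nlinarith
    nlinarith [mul_le_mul_of_nonneg_left h8 (show (0 : ℤ) ≤ t by positivity)]
  · rfl

theorem explicit_ct {c : ℕ} (hc : c = 1 ∨ c = 3) {σ₁ σ₂ : L2} {t₁ t₂ i j u : ℕ} (h1 : 1 ≤ t₁)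
    (h2 : σ₁.coeff (-(t₁ : ℤ)) = 1) (h3 : ∀ n, σ₁.coeff n ≠ 0 → -(t₁ : ℤ) ≤ n) (h4 : 1 ≤ t₂)
    (h5 : σ₂.coeff (-(t₂ : ℤ)) = 1) (h6 : ∀ n, σ₂.coeff n ≠ 0 → -(t₂ : ℤ) ≤ n) (hj : 1 ≤ j)
    (hD : t₁ * i + j = c * 2 ^ u) (hi : 2 * (t₂ * (t₂ * j)) < i) :
    (TL i σ₁ * TL (t₂ * j) σ₂ * S c ^ (c * 2 ^ u)).coeff 0 = 1 := by
  have hD' : (t₁ : ℤ) * i + j = c * 2 ^ u := by exact_mod_cast hD
  have hi' : 2 * ((t₂ : ℤ) * (t₂ * j)) < i := by exact_mod_cast hi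
  have h1' : (1 : ℤ) ≤ t₁ := by exact_mod_cast h1
  have h4' : (1 : ℤ) ≤ t₂ := by exact_mod_cast h4
  have hj' : (1 : ℤ) ≤ j := by exact_mod_cast hj
  have hi0 : (0 : ℤ) ≤ i := by positivity
  have h7 : (j : ℤ) ≤ t₂ * (t₂ * j) := by nlinarith [mul_le_mul h4' h4' zero_le_one (by positivity)]
  rw [coeff_mul_fin _ _ 0 {-((c : ℤ) * 2 ^ u)}, Finset.sum_singleton, coeff_S_sparse hc,
    if_pos ⟨1, odd_one, by simp⟩, mul_one, coeff_mul_fin _ _ _ {-((t₁ : ℤ) * i)},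
    Finset.sum_singleton, TL_lead h1 h2 h3 (by omega), ← hD',
    show -((t₁ : ℤ) * i + j) - -(t₁ * i) = -j by ring, TL_mid h4 h5 h6 hj, one_mul]
  · intro m h8 h9
    rw [Finset.mem_singleton]
    by_contra h10
    have h11 := TL_gap h1 h3 h8 h10
    have h12 := TL_lower h6 h9
    push_cast at h12
    linarith
  · intro m h8 h9
    rw [coeff_S_sparse hc] at h9
    split_ifs at h9 with h10
    · obtain ⟨a, ha, h11⟩ := h10
      obtain ⟨x, y, h12, h13, rfl⟩ := exists_of_coeff_mul h8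
      have h14 := TL_lower h3 h12
      have h15 := TL_lower h6 h13
      push_cast at h15
      rw [Finset.mem_singleton]
      have h16 : a = 1 := by
        by_contra h17
        obtain ⟨r, rfl⟩ := ha
        have h18 : (1 : ℤ) ≤ r := by omega
        have h19 : (9 : ℤ) ≤ ((2 * r + 1 : ℕ) : ℤ) ^ 2 := by push_cast; nlinarith
        have h20 : (i : ℤ) ≤ t₁ * i := by nlinarith
        rw [← hD'] at h11
        nlinarith
      subst h16
      simp only [Nat.cast_one, one_pow, mul_one] at h11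
      linarith
    · exact absurd rfl h9

theorem exists_start {c : ℕ} (hc : c = 1 ∨ c = 3) {σ₁ σ₂ : L2} (h1 : σ₁ ∈ Neg c) (h2 : σ₂ ∈ Neg c)
    (h3 : σ₁ ≠ 0) (h4 : σ₂ ≠ 0) : ∃ u i j : ℕ, 3 ≤ u ∧ Nat.Coprime i (2 * c) ∧
      Nat.Coprime j (2 * c) ∧ ¬ (i : ℤ) ≡ 1 [ZMOD (8 * c)] ∧ ¬ (j : ℤ) ≡ 1 [ZMOD (8 * c)] ∧
      (TL i σ₁ * TL j σ₂ * S c ^ (c * 2 ^ u)).coeff 0 = 1 := by
  obtain ⟨t₁, a1, a2, a3⟩ := order_Neg hc h1 h3
  obtain ⟨t₂, b1, b2, b3⟩ := order_Neg hc h2 h4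
  have a4 : 1 ≤ t₁ := Nat.pos_of_ne_zero (by exact_mod_cast (adm_nat.2 a1).ne_zero)
  have b4 : 1 ≤ t₂ := Nat.pos_of_ne_zero (by exact_mod_cast (adm_nat.2 b1).ne_zero)
  obtain ⟨i₀, hi₀, hi₁⟩ : ∃ i₀ : ℕ, (i₀ = 5 ∨ i₀ = 7) ∧ (t₂ * t₁ * i₀) % 8 ≠ 7 := by
    by_cases h : (t₂ * t₁ * 5) % 8 = 7
    · exact ⟨7, Or.inr rfl, by omega⟩
    · exact ⟨5, Or.inl rfl, h⟩
  set u := 48 * (t₁ * (t₂ * (t₂ * t₁))) + 31 * t₁ + 3 with hu
  have hc1 : 1 ≤ c := by omega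
  have hDu : u < c * 2 ^ u := lt_of_lt_of_le Nat.lt_two_pow_self (Nat.le_mul_of_pos_left _ hc1)
  obtain ⟨v, hv⟩ : ∃ v, c * 2 ^ u = 8 * c * v :=
    ⟨2 ^ (u - 3), by rw [show u = 3 + (u - 3) by omega, pow_add]; simp; ring⟩
  set D := c * 2 ^ u with hD
  have hi₂ : t₁ * i₀ ≤ t₁ * 7 := Nat.mul_le_mul_left _ (by omega)
  set k := (D - t₁ * i₀ - 1) / (24 * t₁) with hk
  have k1 := Nat.div_add_mod (D - t₁ * i₀ - 1) (24 * t₁)
  have k2 := Nat.mod_lt (D - t₁ * i₀ - 1) (show 0 < 24 * t₁ by omega)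
  rw [← hk] at k1
  set r := (D - t₁ * i₀ - 1) % (24 * t₁) with hr
  have k3 : t₁ * (i₀ + 24 * k) + (r + 1) = D := by
    have : t₁ * (i₀ + 24 * k) = t₁ * i₀ + 24 * t₁ * k := by ring
    omega
  have hiA : Adm c ((i₀ + 24 * k : ℕ) : ℤ) := by
    have h5 : Adm c (i₀ : ℤ) := by
      rw [adm_nat]
      rcases hc with rfl | rfl <;> rcases hi₀ with rfl | rfl <;> norm_num
    refine h5.of_modEq ?_
    rw [Int.modEq_iff_dvd]
    rcases hc with rfl | rfl <;> push_cast <;> omega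
  have hjA : Adm c ((r + 1 : ℕ) : ℤ) := by
    refine ((adm_nat.2 a1).mul hiA).neg.of_modEq ?_
    rw [Int.modEq_iff_dvd]
    refine ⟨-v, ?_⟩
    have : ((t₁ * (i₀ + 24 * k) + (r + 1) : ℕ) : ℤ) = (8 * c * v : ℕ) := by rw [k3, hv]
    push_cast at this ⊢
    linarith
  refine ⟨u, i₀ + 24 * k, t₂ * (r + 1), by omega, adm_nat.1 hiA, ?_, ?_, ?_, ?_⟩
  · rw [← adm_nat]; push_cast
    exact_mod_cast (adm_nat.2 b1).mul hjA
  · intro h5
    have h6 : (8 : ℤ) ∣ _ := (Dvd.intro _ rfl).trans h5.dvd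
    push_cast at h6
    omega
  · intro h5
    have h6 : (8 : ℤ) ∣ _ := (Dvd.intro _ rfl).trans h5.dvd
    have h7 : t₂ * (r + 1) + t₂ * t₁ * i₀ + 8 * (3 * (t₂ * t₁ * k)) = 8 * (t₂ * c * v) := by
      have : t₂ * (t₁ * (i₀ + 24 * k) + (r + 1)) = t₂ * (8 * c * v) := by rw [k3, hv]
      linarith
    omega
  · refine explicit_ct hc a4 a2 a3 b4 b2 b3 (by omega) k3 ?_
    have h5 : t₂ * (t₂ * (r + 1)) ≤ t₂ * (t₂ * (24 * t₁)) :=
      Nat.mul_le_mul_left _ (Nat.mul_le_mul_left _ (by omega))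
    have h6 : t₁ * (48 * (t₂ * (t₂ * t₁))) < t₁ * (i₀ + 24 * k) := by
      have : t₁ * (48 * (t₂ * (t₂ * t₁))) = 48 * (t₁ * (t₂ * (t₂ * t₁))) := by ring
      omega
    have h7 := Nat.lt_of_mul_lt_mul_left h6
    have : t₂ * (t₂ * (24 * t₁)) = 24 * (t₂ * (t₂ * t₁)) := by ring
    omega

/-! The maximal pair of words. -/

theorem step_word {c : ℕ} (hc : c = 1 ∨ c = 3) {D : ℕ} (hD : 2 * c ∣ D) {σ y : L2}
    (hσ : σ ∈ Neg c) (hy : y ∈ Neg c) {i : ℕ} (hi : Nat.Coprime i (2 * c))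
    (hi1 : ¬ (i : ℤ) ≡ 1 [ZMOD (8 * c)]) (h : (TL i σ * y * S c ^ D).coeff 0 = 1) :
    ∃ w, GW c w ∧ 1 ≤ w.length ∧ (TW w σ * y * S c ^ D).coeff 0 = 1 := by
  obtain ⟨f, hf, h1⟩ := exists_rep hc hD hσ hy
  by_contra h2
  have h3 := level_one_coeff hc hf (fun w hw hw1 => by
    rw [h1 w (hw.aw hc)]
    by_contra h4
    exact h2 ⟨w, hw, hw1, z2_ne_zero h4⟩) hi1
  have h4 := h1 [i] fun n hn => by rw [List.mem_singleton.1 hn]; exact hi
  simp only [TW] at h4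
  rw [h, coeff_TL_one (by exact_mod_cast (adm_nat.2 hi).ne_zero), h3] at h4
  exact absurd h4 zero_ne_one

theorem bound_word {c : ℕ} (hc : c = 1 ∨ c = 3) {D : ℕ} (hD : 2 * c ∣ D) {σ y : L2}
    (hσ : σ ∈ Neg c) (hy : y ∈ Neg c) {w : List ℕ} (hw : GW c w)
    (h : (TW w σ * y * S c ^ D).coeff 0 = 1) : w.length ≤ D := by
  obtain ⟨f, hf, h1⟩ := exists_rep hc hD hσ hy
  by_contra h2
  rw [← h1 w (hw.aw hc), word_kill hc hw hf (by omega)] at h
  exact absurd h zero_ne_one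

theorem kill_one {c : ℕ} (hc : c = 1 ∨ c = 3) {D : ℕ} (hD : 2 * c ∣ D) {σ y : L2}
    (hσ : σ ∈ Neg c) (hy : y ∈ Neg c)
    (h : ∀ w, GW c w → 1 ≤ w.length → (TW w σ * y * S c ^ D).coeff 0 = 0) {g l : ℕ}
    (hg : g ∈ Gen c) (hlg : l % (8 * c) = g) : (TL l σ * y * S c ^ D).coeff 0 = 0 := by
  by_contra h1
  obtain ⟨w, hw, hw1, h2⟩ := step_word hc hD hσ hy (class_coprime hc hg hlg)
    (gen_not_one hc hg hlg) (z2_ne_zero h1)
  rw [h w hw hw1] at h2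
  exact absurd h2 zero_ne_one

theorem swap_two {c : ℕ} (hc : c = 1 ∨ c = 3) {D : ℕ} (hD : 2 * c ∣ D) {σ y : L2}
    (hσ : σ ∈ Neg c) (hy : y ∈ Neg c)
    (h : ∀ w, GW c w → 2 ≤ w.length → (TW w σ * y * S c ^ D).coeff 0 = 0) {g l : ℕ}
    (hg : g ∈ Gen c) (hl : l.Prime) (hlg : l % (8 * c) = g) :
    (TL l σ * y * S c ^ D).coeff 0 = (TL g σ * y * S c ^ D).coeff 0 := by
  obtain ⟨f, hf, h1⟩ := exists_rep hc hD hσ hy
  have h2 := level_two hc hf (fun w hw hw1 => by rw [h1 w (hw.aw hc), h w hw hw1]) hg hl hlg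
  have h3 := h1 [l] fun n hn => by rw [List.mem_singleton.1 hn]; exact class_coprime hc hg hlg
  have h4 := h1 [g] fun n hn => by rw [List.mem_singleton.1 hn]; exact gen_coprime hc hg
  simp only [TW] at h3 h4
  rw [← h3, ← h4, coeff_TL_one hl.ne_zero, coeff_TL_one (gen_prime hc hg).ne_zero, h2]

theorem core {c : ℕ} (hc : c = 1 ∨ c = 3) {σ₁ σ₂ : L2} (h1 : σ₁ ∈ Neg c) (h2 : σ₂ ∈ Neg c)
    (h3 : σ₁ ≠ 0) (h4 : σ₂ ≠ 0) : ∃ u : ℕ, ∃ w w' : List ℕ, ∃ g g' : ℕ, GW c w ∧ GW c w' ∧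
      g ∈ Gen c ∧ g' ∈ Gen c ∧ ∀ l l' : ℕ, l.Prime → l'.Prime → l % (8 * c) = g →
        l' % (8 * c) = g' →
        (TL l (TW w σ₁) * TL l' (TW w' σ₂) * S c ^ (c * 2 ^ u)).coeff 0 = 1 := by
  classical
  obtain ⟨u, i, j, hu, hi, hj, hi1, hj1, h5⟩ := exists_start hc h1 h2 h3 h4
  have hD : 2 * c ∣ c * 2 ^ u := ⟨2 ^ (u - 1), by
    rw [show u = 1 + (u - 1) by omega, pow_add]; simp; ring⟩
  set D := c * 2 ^ u with hDu
  let P : ℕ → Prop := fun n => ∃ w w' : List ℕ, GW c w ∧ GW c w' ∧ 1 ≤ w.length ∧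
    1 ≤ w'.length ∧ w.length + w'.length = n ∧ (TW w σ₁ * TW w' σ₂ * S c ^ D).coeff 0 = 1
  have hP : ∀ n, P n → n ≤ 2 * D := by
    rintro n ⟨w, w', hw, hw', _, _, rfl, h6⟩
    have h7 := bound_word hc hD h1 (TW_Neg hc (hw'.aw hc) h2) hw h6
    rw [mul_comm (TW w σ₁)] at h6
    have h8 := bound_word hc hD h2 (TW_Neg hc (hw.aw hc) h1) hw' h6
    omega
  obtain ⟨n, hn⟩ : ∃ n, P n := by
    obtain ⟨w, hw, hw1, h6⟩ := step_word hc hD h1 (TL_Neg hc hj h2) hi hi1 h5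
    rw [mul_comm (TW w σ₁)] at h6
    obtain ⟨w', hw', hw1', h7⟩ := step_word hc hD h2 (TW_Neg hc (hw.aw hc) h1) hj hj1 h6
    rw [mul_comm (TW w' σ₂)] at h7
    exact ⟨_, w, w', hw, hw', hw1, hw1', rfl, h7⟩
  obtain ⟨w, w', hw, hw', hw1, hw1', h6, h7⟩ := Nat.findGreatest_spec (hP n hn) hn
  have hmax : ∀ v v' : List ℕ, GW c v → GW c v' → 1 ≤ v.length → 1 ≤ v'.length →
      w.length + w'.length < v.length + v'.length →
      (TW v σ₁ * TW v' σ₂ * S c ^ D).coeff 0 = 0 := by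
    intro v v' hv hv' a1 a2 a3
    by_contra h8
    have h9 : P (v.length + v'.length) := ⟨v, v', hv, hv', a1, a2, rfl, z2_ne_zero h8⟩
    exact Nat.findGreatest_is_greatest (h6 ▸ a3) (hP _ h9) h9
  obtain ⟨g, w, rfl⟩ := List.exists_cons_of_length_pos hw1
  obtain ⟨g', w', rfl⟩ := List.exists_cons_of_length_pos hw1'
  have hg := hw g List.mem_cons_self
  have hg' := hw' g' List.mem_cons_self
  refine ⟨u, w, w', g, g', hw.tail, hw'.tail, hg, hg', fun l l' hl hl' hlg hlg' => ?_⟩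
  have n1 := TW_Neg hc (hw.tail.aw hc) h1
  have n2 := TW_Neg hc (hw'.tail.aw hc) h2
  have n3 := TL_Neg hc (class_coprime hc hg hlg) n1
  rw [mul_comm (TL l _), swap_two hc hD n2 n3 ?_ hg' hl' hlg', mul_comm (TL g' _),
    swap_two hc hD n1 (TL_Neg hc (gen_coprime hc hg') n2) ?_ hg hl hlg]
  · exact h7
  · intro v hv hv2
    rw [← TW_append]
    refine hmax _ (g' :: w') (hv.append hw.tail) hw' ?_ hw1' ?_ <;>
      simp only [List.length_append, List.length_cons] <;> omega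
  · intro v' hv' hv2
    rw [mul_comm (TW v' _), ← TW_append]
    refine kill_one hc hD n1 (TW_Neg hc ((hv'.append hw'.tail).aw hc) h2) (fun v hv hv1 => ?_) hg hlg
    rw [← TW_append]
    refine hmax _ _ (hv.append hw.tail) (hv'.append hw'.tail) ?_ ?_ ?_ <;>
      simp only [List.length_append, List.length_cons] <;> omega

end Pool.Agent.Lib.MP_a3366f_nt.Ker
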