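import Mathlib
import Pool.Agent.Lib.MP_a3366f_nt.KDefs

open Finset

namespace Pool.Agent.Lib.MP_a3366f_nt.Ker

namespace Cnt

/-- The prime factors above `k` of a number below `(k + 1) ^ 3`. -/
def big (k n : ℕ) : Finset ℕ := if n < (k + 1) ^ 3 then n.primeFactors.filter (k < ·) else ∅

theorem card_big (k n : ℕ) : (big k n).card ≤ 2 := by
  unfold big
  split_ifs with h
  · rcases Nat.eq_zero_or_pos n with rfl | hn
    · simp
    have h1 : (k + 1) ^ (n.primeFactors.filter (k < ·)).card ≤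
        ∏ p ∈ n.primeFactors.filter (k < ·), p :=
      Finset.pow_card_le_prod _ _ _ fun p hp => (mem_filter.1 hp).2
    have h2 : ∏ p ∈ n.primeFactors.filter (k < ·), p ≤ n :=
      Nat.le_of_dvd hn ((Finset.prod_dvd_prod_of_subset _ _ _ (filter_subset _ _)).trans
        (Nat.prod_primeFactors_dvd n))
    have h3 := (h1.trans h2).trans_lt h
    by_contra hc
    exact absurd h3 (not_lt.2 (Nat.pow_le_pow_right (by omega) (by omega)))
  · simp

theorem one_side (B T D N : ℕ) (hT : 1 ≤ T) (hD : 1 ≤ D) (hN : B * T ^ 3 ≤ N)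
    (L L' Z : Finset ℕ) (hL : ∀ l ∈ L, l ≤ N) (hL' : ∀ l ∈ L', l.Prime ∧ N / T < l ∧ l ≤ N)
    (P : Finset (ℕ × ℕ)) (hP : ∀ p ∈ P, p.1 ∈ L ∧ p.2 ∈ L' ∧ Cov B D Z p.1 p.2) :
    P.card ≤ (Nat.sqrt (2 * B * N) + 1) *
      ((N + 1) * ((B + 1) * (B + 1) + (B + 1) * (T * B + 1)) + (B + 1) ^ 3 * Z.card * 2) := by
  set s := Nat.sqrt (2 * B * N) + 1 with hs
  let S₁ : Finset (ℕ × ℕ) := (range s ×ˢ range (N + 1) ×ˢ range (B + 1) ×ˢ range (B + 1)).image
    fun d => ((D * d.1 ^ 2 - d.2.1 * d.2.2.2) / d.2.2.1, d.2.1)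
  let S₂ : Finset (ℕ × ℕ) :=
    (range s ×ˢ range (N + 1) ×ˢ range (B + 1) ×ˢ range (T * B + 1)).image
      fun d => ((d.2.1 * d.2.2.2 + D * d.1 ^ 2) / d.2.2.1, d.2.1)
  let S₃ : Finset (ℕ × ℕ) :=
    (range s ×ˢ range (B + 1) ×ˢ range (B + 1) ×ˢ range (B + 1) ×ˢ Z).biUnion fun d =>
      (big (N / T) (d.2.2.2.2 * d.2.2.2.1 / d.2.2.1)).image fun l' =>
        ((d.2.2.2.2 * d.2.2.2.1 / d.2.2.1 / l' + D * d.1 ^ 2) / d.2.1, l')
  have hsub : P ⊆ S₁ ∪ S₂ ∪ S₃ := by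
    rintro ⟨l, l'⟩ hp
    obtain ⟨h1, h2, x, a, hx, hxB, h⟩ := hP _ hp
    dsimp only at h1 h2 h
    have hl := hL l h1
    obtain ⟨hp', hl', hl''⟩ := hL' l' h2
    have hlx : l * x ≤ N * B := Nat.mul_le_mul hl hxB
    have ha : ∀ {c : ℕ}, D * a ^ 2 ≤ c → c ≤ 2 * B * N → a < s := fun h h' =>
      Nat.lt_succ_of_le (Nat.le_sqrt'.2 (((Nat.le_mul_of_pos_left _ hD).trans h).trans h'))
    have hNT : N < l' * T := (Nat.div_lt_iff_lt_mul hT).1 hl'
    rcases h with ⟨y, hy, e⟩ | ⟨m, hm, e, ⟨k, rfl⟩ | ⟨u, v, μ, hu, huB, hv, hvB, hμ, e'⟩⟩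
    · refine mem_union_left _ (mem_union_left _ (mem_image.2 ⟨(a, l', x, y), ?_, ?_⟩))
      · have : l' * y ≤ N * B := Nat.mul_le_mul hl'' hy
        simp only [mem_product, mem_range]
        exact ⟨ha e.ge (by nlinarith), by omega, by omega, by omega⟩
      · dsimp only
        rw [← e, Nat.add_sub_cancel, Nat.mul_div_cancel _ hx]
    · refine mem_union_left _ (mem_union_right _ (mem_image.2 ⟨(a, l', x, k), ?_, ?_⟩))
      · simp only [mem_product, mem_range]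
        refine ⟨ha (c := l * x) (by omega) (by nlinarith), by omega, by omega,
          Nat.lt_succ_of_le (Nat.le_of_mul_le_mul_left (c := l') ?_ hp'.pos)⟩
        calc l' * k ≤ N * B := by omega
          _ ≤ l' * T * B := Nat.mul_le_mul_right _ hNT.le
          _ = l' * (T * B) := mul_assoc _ _ _
      · dsimp only
        rw [e, Nat.mul_div_cancel _ hx]
    · refine mem_union_right _ (mem_biUnion.2 ⟨(a, x, u, v, μ), ?_, mem_image.2 ⟨l', ?_, ?_⟩⟩)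
      · simp only [mem_product, mem_range]
        exact ⟨ha (c := l * x) (by omega) (by nlinarith), by omega, by omega, by omega, hμ⟩
      · dsimp only
        rw [e', Nat.mul_div_cancel _ hu, big, if_pos]
        · exact mem_filter.2 ⟨Nat.mem_primeFactors.2
            ⟨hp', dvd_mul_right _ _, mul_ne_zero hp'.ne_zero (by omega)⟩, hl'⟩
        · have h3 : N < (N / T + 1) * T := (Nat.div_lt_iff_lt_mul hT).1 (Nat.lt_succ_self _)
          refine Nat.lt_of_mul_lt_mul_right (a := T ^ 3) ?_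
          calc l' * m * T ^ 3 ≤ N * (N * B) * T ^ 3 :=
                Nat.mul_le_mul_right _ (Nat.mul_le_mul hl'' (by omega))
            _ = N ^ 2 * (B * T ^ 3) := by ring
            _ ≤ N ^ 2 * N := Nat.mul_le_mul_left _ hN
            _ = N ^ 3 := by ring
            _ < ((N / T + 1) * T) ^ 3 := Nat.pow_lt_pow_left h3 (by norm_num)
            _ = _ := mul_pow _ _ _
      · dsimp only
        rw [e', Nat.mul_div_cancel _ hu, Nat.mul_div_cancel_left _ hp'.pos, e,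
          Nat.mul_div_cancel _ hx]
  have c₁ : S₁.card ≤ s * ((N + 1) * ((B + 1) * (B + 1))) :=
    card_image_le.trans (by simp only [card_product, card_range, le_refl])
  have c₂ : S₂.card ≤ s * ((N + 1) * ((B + 1) * (T * B + 1))) :=
    card_image_le.trans (by simp only [card_product, card_range, le_refl])
  have c₃ : S₃.card ≤ s * ((B + 1) * ((B + 1) * ((B + 1) * Z.card))) * 2 :=
    (card_biUnion_le_card_mul _ _ 2 fun d _ => card_image_le.trans (card_big _ _)).trans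
      (by simp only [card_product, card_range, le_refl])
  calc P.card ≤ (S₁ ∪ S₂ ∪ S₃).card := card_le_card hsub
    _ ≤ S₁.card + S₂.card + S₃.card :=
      (card_union_le _ _).trans (Nat.add_le_add_right (card_union_le _ _) _)
    _ ≤ _ := (Nat.add_le_add (Nat.add_le_add c₁ c₂) c₃).trans (le_of_eq (by ring))

theorem two_sides (B T D N : ℕ) (hT : 1 ≤ T) (hD : 1 ≤ D) (hN : B * T ^ 3 ≤ N)
    (L L' Z : Finset ℕ) (hL : ∀ l ∈ L, l.Prime ∧ N / T < l ∧ l ≤ N)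
    (hL' : ∀ l ∈ L', l.Prime ∧ N / T < l ∧ l ≤ N)
    (h : ∀ l ∈ L, ∀ l' ∈ L', Cov B D Z l l' ∨ Cov B D Z l' l) :
    L.card * L'.card ≤ 2 * ((Nat.sqrt (2 * B * N) + 1) *
      ((N + 1) * ((B + 1) * (B + 1) + (B + 1) * (T * B + 1)) + (B + 1) ^ 3 * Z.card * 2)) := by
  classical
  have h1 := one_side B T D N hT hD hN L L' Z (fun l hl => (hL l hl).2.2) hL'
    ((L ×ˢ L').filter fun p => Cov B D Z p.1 p.2) fun p hp => by
      simpa only [mem_filter, mem_product, and_assoc] using hp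
  have h2 := one_side B T D N hT hD hN L' L Z (fun l hl => (hL' l hl).2.2) hL
    (((L ×ˢ L').filter fun p => ¬ Cov B D Z p.1 p.2).map (Equiv.prodComm ℕ ℕ).toEmbedding)
    fun p hp => by
      obtain ⟨q, hq, rfl⟩ := mem_map.1 hp
      simp only [mem_filter, mem_product] at hq
      exact ⟨hq.1.2, hq.1.1, (h _ hq.1.1 _ hq.1.2).resolve_left hq.2⟩
  rw [card_map] at h2
  rw [← card_product, ← card_filter_add_card_filter_not fun p : ℕ × ℕ => Cov B D Z p.1 p.2]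
  omega

theorem log_small (c : ℝ) : ∃ N₀ : ℕ, ∀ N : ℕ, N₀ ≤ N → c * Real.log N ^ 2 ≤ √N := by
  have h := (Real.isLittleO_pow_log_id_atTop (n := 2)).const_mul_left (4 * c)
  have h2 := (Real.tendsto_sqrt_atTop.comp tendsto_natCast_atTop_atTop).eventually (h.bound one_pos)
  obtain ⟨N₀, hN₀⟩ := Filter.eventually_atTop.1 h2
  refine ⟨N₀, fun N hN => ?_⟩
  have h3 := hN₀ N hN
  simp only [Function.comp_apply, id, one_mul, Real.log_sqrt (Nat.cast_nonneg N),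
    Real.norm_of_nonneg (Real.sqrt_nonneg _)] at h3
  have h4 := (le_abs_self _).trans h3
  linarith

theorem rpow_three_half (x : ℝ) (hx : 0 ≤ x) : x ^ (3 / 2 : ℝ) = x * √x := by
  rw [Real.sqrt_eq_rpow, show (3 / 2 : ℝ) = 1 + 1 / 2 by norm_num,
    Real.rpow_add' hx (by norm_num), Real.rpow_one]

end Cnt

open Cnt

theorem count_main (B T D : ℕ) (hT : 1 ≤ T) (hD : 1 ≤ D) :
    ∃ κ : ℝ, 0 < κ ∧ ∃ N₀ : ℕ, ∀ N : ℕ, N₀ ≤ N → ∀ L L' Z : Finset ℕ,
      (∀ l ∈ L, l.Prime ∧ N / T < l ∧ l ≤ N) → (∀ l ∈ L', l.Prime ∧ N / T < l ∧ l ≤ N) →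
      (N : ℝ) / (T * Real.log N) ≤ L.card → (N : ℝ) / (T * Real.log N) ≤ L'.card →
      (∀ l ∈ L, ∀ l' ∈ L', Cov B D Z l l' ∨ Cov B D Z l' l) →
      κ * ((N : ℝ) ^ (3 / 2 : ℝ) / Real.log N ^ 2) ≤ Z.card := by
  obtain ⟨c, hc⟩ : ∃ c : ℝ, c = √(2 * B) + 1 := ⟨_, rfl⟩
  obtain ⟨K, hK⟩ : ∃ K : ℕ, K = (B + 1) * (B + 1) + (B + 1) * (T * B + 1) := ⟨_, rfl⟩
  obtain ⟨E, hE⟩ : ∃ E : ℕ, E = (B + 1) ^ 3 := ⟨_, rfl⟩
  have hc0 : 0 < c := by rw [hc]; positivity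
  have hE0 : (0 : ℝ) < E := by rw [hE]; positivity
  have hT0 : (0 : ℝ) < T := by exact_mod_cast hT
  obtain ⟨N₀, hN₀⟩ := log_small (8 * c * K * T ^ 2)
  refine ⟨1 / (8 * c * E * T ^ 2), by positivity, max (max N₀ 2) (B * T ^ 3),
    fun N hN L L' Z hL hL' h1 h2 h => ?_⟩
  have hN2 : (2 : ℝ) ≤ N := by exact_mod_cast ((le_max_right _ _).trans (le_max_left _ _)).trans hN
  have h3 := two_sides B T D N hT hD ((le_max_right _ _).trans hN) L L' Z hL hL' h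
  rw [← hK, ← hE] at h3
  have h4 : (L.card : ℝ) * L'.card ≤
      2 * ((Nat.sqrt (2 * B * N) + 1) * ((N + 1) * K + E * Z.card * 2)) := by exact_mod_cast h3
  have h5 := hN₀ N (((le_max_left _ _).trans (le_max_left _ _)).trans hN)
  have hlog : 0 < Real.log N := Real.log_pos (by linarith)
  have hr1 : 1 ≤ √(N : ℝ) := Real.one_le_sqrt.2 (by linarith)
  have hrr : √(N : ℝ) * √(N : ℝ) = N := Real.mul_self_sqrt (by linarith)
  have h6 : (Nat.sqrt (2 * B * N) + 1 : ℝ) ≤ c * √N := by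
    have : (Nat.sqrt (2 * B * N) : ℝ) ≤ √(2 * B) * √N := by
      rw [← Real.sqrt_mul (by positivity)]
      exact_mod_cast Real.nat_sqrt_le_real_sqrt (a := 2 * B * N)
    rw [hc]
    linarith
  rw [rpow_three_half _ (by positivity)]
  generalize √(N : ℝ) = r at *
  generalize Real.log N = lg at *
  have h7 : (N : ℝ) / (T * lg) * (N / (T * lg)) ≤ 2 * (c * r * (2 * N * K + E * Z.card * 2)) :=
    (mul_le_mul h1 h2 (by positivity) (by positivity)).trans (h4.trans (by gcongr; linarith))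
  rw [div_mul_div_comm, div_le_iff₀ (by positivity)] at h7
  rw [div_mul_div_comm, one_mul, div_le_iff₀ (by positivity)]
  have h8 : N * r * (8 * c * K * T ^ 2 * lg ^ 2) ≤ N * r * r := by gcongr
  refine le_of_mul_le_mul_left ?_ (show 0 < r by linarith)
  have h9 : (N : ℝ) * r * r = N * N := by rw [mul_assoc, hrr]
  nlinarith

theorem scale_main (κ : ℝ) (hκ : 0 < κ) (C N₀ : ℕ) (hC : 1 ≤ C) (A : ℕ → ℕ) (hA : Monotone A)
    (h : ∀ N : ℕ, N₀ ≤ N → κ * ((N : ℝ) ^ (3 / 2 : ℝ) / Real.log N ^ 2) ≤ A (C * N ^ 2)) :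
    ∃ κ' : ℝ, 0 < κ' ∧ ∃ X₀ : ℕ, ∀ X : ℕ, X₀ ≤ X →
      κ' * ((X : ℝ) ^ (3 / 4 : ℝ) / Real.log X ^ 2) ≤ A X := by
  have hC0 : (0 : ℝ) < C := by exact_mod_cast hC
  refine ⟨κ / (4 * C) ^ (3 / 4 : ℝ), by positivity, (N₀ + 2) ^ 2 * C, fun X hX => ?_⟩
  obtain ⟨N, hN⟩ : ∃ N, N = Nat.sqrt (X / C) := ⟨_, rfl⟩
  have h1 : N₀ + 2 ≤ N := hN ▸ Nat.le_sqrt'.2 ((Nat.le_div_iff_mul_le hC).2 hX)
  have h2 : C * N ^ 2 ≤ X := by
    rw [mul_comm, hN]
    exact (Nat.le_div_iff_mul_le hC).1 (Nat.sqrt_le' _)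
  have h3 : X ≤ 4 * C * N ^ 2 := by
    have : X < (N + 1) ^ 2 * C := by
      rw [hN]
      exact (Nat.div_lt_iff_lt_mul hC).1 (Nat.lt_succ_sqrt' _)
    have h4 : (N + 1) ^ 2 ≤ 4 * N ^ 2 := by nlinarith
    nlinarith
  have h4 : N ≤ X := by nlinarith
  have hN2 : (2 : ℝ) ≤ N := by exact_mod_cast (show 2 ≤ N by omega)
  have hlog : 0 < Real.log N := Real.log_pos (by linarith)
  have h5 : Real.log N ≤ Real.log X := Real.log_le_log (by linarith) (by exact_mod_cast h4)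
  have h6 : (X : ℝ) ^ (3 / 4 : ℝ) ≤ (4 * C) ^ (3 / 4 : ℝ) * (N : ℝ) ^ (3 / 2 : ℝ) := by
    rw [show (3 / 2 : ℝ) = (2 : ℕ) * (3 / 4) by norm_num, Real.rpow_natCast_mul (by positivity),
      ← Real.mul_rpow (by positivity) (by positivity)]
    exact Real.rpow_le_rpow (by positivity) (by exact_mod_cast h3) (by norm_num)
  calc κ / (4 * C) ^ (3 / 4 : ℝ) * ((X : ℝ) ^ (3 / 4 : ℝ) / Real.log X ^ 2)
      ≤ κ / (4 * C) ^ (3 / 4 : ℝ) *
        ((4 * C) ^ (3 / 4 : ℝ) * (N : ℝ) ^ (3 / 2 : ℝ) / Real.log N ^ 2) := by gcongr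
    _ = κ * ((N : ℝ) ^ (3 / 2 : ℝ) / Real.log N ^ 2) := by field_simp
    _ ≤ A (C * N ^ 2) := h N (by omega)
    _ ≤ A X := by exact_mod_cast hA h2

end Pool.Agent.Lib.MP_a3366f_nt.Ker
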