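import Mathlib
import Pool.Agent.Lib.MP_a3366f_nt.KCore

/-!
Each pair of primes in two residue classes produces an index `μ` at which the coefficients of the
negative power at `μ` and at `P ^ 2 * μ` differ.
-/

open Finset

namespace Pool.Agent.Lib.MP_a3366f_nt.Ker

/-- The principal part is bounded by `B` and lies in one quadratic class modulo `P`. -/
def PP (P B : ℕ) (ε : ℤ) (f : L2) : Prop :=
  ∀ x : ℕ, 1 ≤ x → f.coeff (-(x : ℤ)) ≠ 0 → x ≤ B ∧ jacobiSym x P = ε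

theorem PP.mono {P B B' : ℕ} {ε : ℤ} {f : L2} (h : PP P B ε f) (hB : B ≤ B') : PP P B' ε f :=
  fun x hx h1 => ⟨(h x hx h1).1.trans hB, (h x hx h1).2⟩

theorem TL_neg_cases {q : ℕ} (hq : q.Prime) {f : L2} {x : ℕ}
    (h : (TL q f).coeff (-(x : ℤ)) ≠ 0) :
    f.coeff (-((q * x : ℕ) : ℤ)) ≠ 0 ∨ ∃ y : ℕ, x = q * y ∧ f.coeff (-(y : ℤ)) ≠ 0 := by
  rw [coeff_TL_prime hq] at h
  by_cases h1 : f.coeff (q * -(x : ℤ)) = 0
  · right
    rw [h1, zero_add] at h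
    split_ifs at h with h2
    · obtain ⟨y, rfl⟩ : q ∣ x := by exact_mod_cast (Int.dvd_neg.1 h2)
      refine ⟨y, rfl, ?_⟩
      rwa [show -((q * y : ℕ) : ℤ) = q * -(y : ℤ) by push_cast; ring,
        Int.mul_ediv_cancel_left _ (by exact_mod_cast hq.ne_zero)] at h
    · exact absurd rfl h
  · left
    rwa [show -((q * x : ℕ) : ℤ) = q * -(x : ℤ) by push_cast; ring]

theorem PP.TL {P B q : ℕ} {ε : ℤ} {f : L2} (h : PP P B ε f) (hq : q.Prime)
    (hqP : Nat.Coprime q P) : PP P (q * B) (jacobiSym q P * ε) (TL q f) := by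
  intro x hx h1
  have hq1 := hq.one_le
  have h2 : jacobiSym q P ^ 2 = 1 := jacobiSym.sq_one (by simpa using hqP)
  rcases TL_neg_cases hq h1 with h3 | ⟨y, rfl, h3⟩
  · obtain ⟨h4, h5⟩ := h _ (Nat.mul_pos hq1 hx) h3
    refine ⟨by nlinarith, ?_⟩
    rw [Nat.cast_mul, jacobiSym.mul_left] at h5
    rw [← h5, ← mul_assoc, ← sq, h2, one_mul]
  · obtain ⟨h4, h5⟩ := h y (Nat.pos_of_ne_zero (by rintro rfl; simp at hx)) h3
    exact ⟨Nat.mul_le_mul_left _ h4, by rw [Nat.cast_mul, jacobiSym.mul_left, h5]⟩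

theorem PP.TW {P B : ℕ} {ε : ℤ} {f : L2} (h : PP P B ε f) {w : List ℕ}
    (hw : ∀ q ∈ w, q.Prime ∧ Nat.Coprime q P) :
    PP P (w.prod * B) (jacobiSym (w.prod : ℕ) P * ε) (TW w f) := by
  induction w with
  | nil => simpa [Ker.TW, jacobiSym.one_left] using h
  | cons q w ih =>
    have h1 := hw q List.mem_cons_self
    have := (ih fun k hk => hw k (List.mem_cons_of_mem _ hk)).TL h1.1 h1.2
    rw [List.prod_cons, Nat.cast_mul, jacobiSym.mul_left, mul_assoc, mul_assoc]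
    exact this

theorem PP.big {P B l : ℕ} {ε : ℤ} {f : L2} (h : PP P B ε f) (hl : l.Prime) (hB : B < l) {X : ℕ}
    (hX : 1 ≤ X) (h1 : (Ker.TL l f).coeff (-(X : ℤ)) ≠ 0) :
    ∃ x, 1 ≤ x ∧ x ≤ B ∧ X = l * x ∧ jacobiSym x P = ε := by
  rcases TL_neg_cases hl h1 with h3 | ⟨y, rfl, h3⟩
  · have := (h _ (Nat.mul_pos hl.pos hX) h3).1
    nlinarith
  · have hy : 1 ≤ y := Nat.pos_of_ne_zero (by rintro rfl; simp at hX)
    exact ⟨y, hy, (h y hy h3).1, rfl, (h y hy h3).2⟩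

theorem PP_base {c s P : ℕ} (hc : c = 1 ∨ c = 3) (hs : Odd s)
    (hP : P ≡ 1 [MOD (4 * s.factorial)]) : PP P s 1 (S c ^ (-(s : ℤ))) := by
  intro x hx h
  obtain ⟨h1, h2⟩ := supp_S_zpow hc h
  have h3 : x ≤ s := by omega
  have h4 : Odd x := by
    have h5 : (2 : ℤ) ∣ _ := (show (2 : ℤ) ∣ 8 * c from ⟨4 * c, by ring⟩).trans h2.dvd
    obtain ⟨r, rfl⟩ := hs
    rw [Nat.odd_iff]
    omega
  refine ⟨h3, ?_⟩
  have h5 : P % 4 = 1 := (Nat.ModEq.of_mul_right _ hP)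
  have h6 : P ≡ 1 [MOD x] := (Nat.ModEq.of_mul_left _ hP).of_dvd (Nat.dvd_factorial hx h3)
  rw [jacobiSym.quadratic_reciprocity_one_mod_four' h4 h5, ← jacobiSym.one_left x]
  refine jacobiSym.mod_left' ?_
  exact_mod_cast Int.natCast_modEq_iff.2 h6

theorem diff_word {σ : L2} {P : ℕ} {w : List ℕ} (hw : ∀ q ∈ w, q.Prime ∧ Nat.Coprime q P) :
    ∀ n : ℕ, (TW w σ).coeff ((P ^ 2 * n : ℕ) : ℤ) ≠ (TW w σ).coeff n →
      ∃ u v μ : ℕ, u * v = w.prod ∧ μ * v = n * u ∧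
        σ.coeff ((P ^ 2 * μ : ℕ) : ℤ) ≠ σ.coeff μ := by
  induction w with
  | nil => exact fun n h => ⟨1, 1, n, rfl, rfl, h⟩
  | cons q w ih =>
    intro n h
    obtain ⟨hq, hqP⟩ := hw q List.mem_cons_self
    have ih' := ih fun k hk => hw k (List.mem_cons_of_mem _ hk)
    simp only [TW] at h
    rw [coeff_TL_prime hq, coeff_TL_prime hq] at h
    by_cases h1 : (TW w σ).coeff ((P ^ 2 * (q * n) : ℕ) : ℤ) = (TW w σ).coeff (q * n : ℕ)
    · rw [show (q : ℤ) * ((P ^ 2 * n : ℕ) : ℤ) = ((P ^ 2 * (q * n) : ℕ) : ℤ) by push_cast; ring, h1,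
        Nat.cast_mul q n] at h
      by_cases h2 : q ∣ n
      · obtain ⟨y, rfl⟩ := h2
        have hq0 : (q : ℤ) ≠ 0 := by exact_mod_cast hq.ne_zero
        rw [if_pos ⟨(P ^ 2 * y : ℕ), by push_cast; ring⟩, if_pos ⟨y, by push_cast; ring⟩,
          show ((P ^ 2 * (q * y) : ℕ) : ℤ) = q * ((P ^ 2 * y : ℕ) : ℤ) by push_cast; ring,
          Int.mul_ediv_cancel_left _ hq0, Nat.cast_mul q y, Int.mul_ediv_cancel_left _ hq0] at h
        obtain ⟨u, v, μ, h3, h4, h5⟩ := ih' y fun h6 => h (by rw [h6])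
        exact ⟨u, q * v, μ, by rw [List.prod_cons, ← h3]; ring, by
          rw [mul_left_comm, h4]; ring, h5⟩
      · have h3 : ¬ (q : ℤ) ∣ ((P ^ 2 * n : ℕ) : ℤ) := by
          rw [Int.natCast_dvd_natCast]
          exact fun h4 => h2 ((Nat.Coprime.pow_right 2 hqP).dvd_of_dvd_mul_left h4)
        rw [if_neg h3, if_neg (by exact_mod_cast h2)] at h
        exact absurd rfl h
    · obtain ⟨u, v, μ, h3, h4, h5⟩ := ih' _ h1
      exact ⟨q * u, v, μ, by rw [List.prod_cons, ← h3]; ring, by rw [h4]; ring, h5⟩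

theorem TL_TL_coeff {P : ℕ} (hP : P.Prime) (τ : L2) {n : ℕ} (hn : ¬ P ∣ n) :
    (TL P (TL P τ)).coeff n = τ.coeff ((P ^ 2 * n : ℕ) : ℤ) + τ.coeff n := by
  rw [coeff_TL_prime hP, if_neg (by exact_mod_cast hn), add_zero, coeff_TL_prime hP,
    if_pos (Dvd.intro _ rfl), Int.mul_ediv_cancel_left _ (by exact_mod_cast hP.ne_zero)]
  congr 2
  push_cast; ring

theorem half {P B D l l' N a X m : ℕ} {ε : ℤ} {τ σ : L2} {w : List ℕ} {Z : Finset ℕ}
    (hP : P.Prime) (hτ : PP P B ε τ) (hl : l.Prime) (hBl : B < l) (hlN : l ≤ N) (hl' : l'.Prime)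
    (hl'P : l' ≠ P) (hl'N : l' ≤ N) (hw : ∀ q ∈ w, q.Prime ∧ Nat.Coprime q P) (hwB : w.prod ≤ B)
    (hχ : jacobiSym l P * (ε * jacobiSym D P) = -1) (hm : 1 ≤ m)
    (h1 : (TL l τ).coeff (-(X : ℤ)) ≠ 0) (h2 : (TL l' (TW w (TL P (TL P σ)))).coeff m ≠ 0)
    (h3 : m + D * a ^ 2 = X)
    (hZ : ∀ μ : ℕ, 1 ≤ μ → μ ≤ B * B * (N * N) → σ.coeff ((P ^ 2 * μ : ℕ) : ℤ) ≠ σ.coeff μ → μ ∈ Z) :
    Cov B D Z l l' := by
  obtain ⟨x, hx1, hx2, rfl, hx3⟩ := hτ.big hl hBl (by omega) h1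
  refine ⟨x, a, hx1, hx2, Or.inr ⟨m, hm, h3, ?_⟩⟩
  by_cases h4 : l' ∣ m
  · exact Or.inl h4
  right
  have h5 : ¬ P ∣ m := by
    rintro ⟨r, rfl⟩
    have h6 : jacobiSym (l * x : ℕ) P = jacobiSym (D * a ^ 2 : ℕ) P := by
      refine jacobiSym.mod_left' ?_
      rw [← h3]
      push_cast
      rw [add_comm, Int.add_mul_emod_self_left]
    rw [Nat.cast_mul, Nat.cast_mul, Nat.cast_pow, jacobiSym.mul_left, jacobiSym.mul_left,
      jacobiSym.pow_left, hx3] at h6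
    rw [← mul_assoc, h6] at hχ
    nlinarith [sq_nonneg (jacobiSym D P * jacobiSym a P)]
  have h6 : ¬ P ∣ l' * m := fun h =>
    ((Nat.Prime.dvd_mul hP).1 h).elim
      (fun h7 => hl'P ((Nat.prime_dvd_prime_iff_eq hP hl').1 h7).symm) h5
  have hw0 : ∀ n ∈ w, n ≠ 0 := fun n hn => (hw n hn).1.ne_zero
  rw [coeff_TL_prime hl', if_neg (by exact_mod_cast h4), add_zero, TW_comm hw0 hP.ne_zero,
    TW_comm hw0 hP.ne_zero, ← Nat.cast_mul, TL_TL_coeff hP _ h6] at h2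
  obtain ⟨u, v, μ, h7, h8, h9⟩ := diff_word hw (l' * m) fun h => h2 (by
    rw [h]; exact CharTwo.add_self_eq_zero _)
  have h10 : 0 < w.prod := List.prod_pos fun n hn => (hw n hn).1.pos
  have hu : 1 ≤ u := Nat.pos_of_ne_zero (by rintro rfl; simp at h7; omega)
  have hv : 1 ≤ v := Nat.pos_of_ne_zero (by rintro rfl; simp at h7; omega)
  have hu' : u ≤ B := by nlinarith
  have hv' : v ≤ B := by nlinarith
  have hμ : 1 ≤ μ := Nat.pos_of_ne_zero (by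
    rintro rfl
    have : 0 < l' * m * u := Nat.mul_pos (Nat.mul_pos hl'.pos hm) hu
    omega)
  refine ⟨u, v, μ, hu, hu', hv, hv', hZ μ hμ ?_ h9, h8⟩
  have h11 : m ≤ N * B := le_trans (by omega) (Nat.mul_le_mul hlN hx2)
  calc μ ≤ μ * v := Nat.le_mul_of_pos_right _ hv
    _ = l' * m * u := h8
    _ ≤ N * (N * B) * B := Nat.mul_le_mul (Nat.mul_le_mul hl'N h11) hu'
    _ = B * B * (N * N) := by ring

theorem exists_class {c g P : ℕ} (hc : c = 1 ∨ c = 3) (hg : g ∈ Gen c) (hP : P.Prime)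
    (hP13 : 13 < P) {η : ℤ} (hη : η ^ 2 = 1) : ∃ a, Nat.Coprime a (8 * c * P) ∧
      ∀ l : ℕ, l ≡ a [MOD (8 * c * P)] → l % (8 * c) = g ∧ jacobiSym l P * η = -1 := by
  have := Fact.mk hP
  obtain ⟨r, hr⟩ : ∃ r : ℕ, jacobiSym r P * η = -1 := by
    rcases (show η = 1 ∨ η = -1 by
      have : (η - 1) * (η + 1) = 0 := by linarith
      rcases mul_eq_zero.1 this with h | h <;> omega) with rfl | rfl
    · obtain ⟨b, hb⟩ := quadraticChar_exists_neg_one (F := ZMod P)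
        (by rw [ZMod.ringChar_zmod_n]; omega)
      refine ⟨b.val, ?_⟩
      rw [mul_one, ← jacobiSym.legendreSym.to_jacobiSym, legendreSym]
      simpa using hb
    · exact ⟨1, by simp [jacobiSym.one_left]⟩
  have hco : Nat.Coprime (8 * c) P := by
    refine ((Nat.Prime.coprime_iff_not_dvd hP).2 fun h => ?_).symm
    have h1 : P ∣ 2 ^ 3 * 3 := h.trans (by rcases hc with rfl | rfl <;> norm_num)
    rcases (Nat.Prime.dvd_mul hP).1 h1 with h2 | h2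
    · have := Nat.le_of_dvd (by norm_num) (hP.dvd_of_dvd_pow h2); omega
    · have := Nat.le_of_dvd (by norm_num) h2; omega
  obtain ⟨a, ha1, ha2⟩ := Nat.chineseRemainder hco g r
  have hrP : Nat.Coprime r P := by
    by_contra h
    have : jacobiSym r P = 0 := jacobiSym.eq_zero_iff_not_coprime.2 (by simpa using h)
    rw [this] at hr
    simp at hr
  have hg8 : Nat.Coprime g (8 * c) := by
    rcases gen_cases hc hg with ⟨rfl, rfl | rfl⟩ | ⟨rfl, rfl | rfl | rfl⟩ <;> norm_num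
  refine ⟨a, Nat.Coprime.mul_right ?_ ?_, fun l hl => ⟨?_, ?_⟩⟩
  · rw [Nat.Coprime, ha1.gcd_eq]; exact hg8
  · rw [Nat.Coprime, ha2.gcd_eq]; exact hrP
  · have := (Nat.ModEq.of_mul_right _ hl).trans ha1
    rwa [Nat.ModEq, gen_mod hc hg] at this
  · have := (Nat.ModEq.of_mul_left _ hl).trans ha2
    rw [← hr]
    congr 1
    refine jacobiSym.mod_left' ?_
    exact_mod_cast Int.natCast_modEq_iff.2 this

theorem TL_TL_ne_zero {c s p : ℕ} (hc : c = 1 ∨ c = 3) (hs : 1 ≤ s) (hp : p.Prime) :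
    TL p (TL p (S c ^ (-(s : ℤ)))) ≠ 0 := by
  have h1 : ∀ n, (S c ^ (-(s : ℤ))).coeff n ≠ 0 → -(s : ℤ) ≤ n := fun n hn => (supp_S_zpow hc hn).1
  have h2 := TL_lead hs (coeff_S_zpow_self hc _) h1 hp.one_le
  have h3 : ∀ n, (TL p (S c ^ (-(s : ℤ)))).coeff n ≠ 0 → -((s * p : ℕ) : ℤ) ≤ n := fun n hn => by
    simpa using TL_lower h1 hn
  have h4 := TL_lead (Nat.mul_pos hs hp.pos) (by simpa using h2) h3 hp.one_le
  intro h
  rw [h] at h4
  exact absurd h4 zero_ne_one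

theorem big_coprime {c p : ℕ} (hc : c = 1 ∨ c = 3) (hp : p.Prime) (h : 13 < p) :
    Nat.Coprime p (2 * c) := by
  refine (Nat.Prime.coprime_iff_not_dvd hp).2 fun h1 => ?_
  have := Nat.le_of_dvd (by omega) h1
  omega

theorem cover {c s : ℕ} (hc : c = 1 ∨ c = 3) (hs : Nat.Coprime s (2 * c)) :
    ∃ B D P P' q a q' a' : ℕ, 1 ≤ B ∧ 1 ≤ D ∧ 0 < q ∧ 0 < q' ∧ Nat.Coprime a q ∧
      Nat.Coprime a' q' ∧ Nat.Coprime P (2 * c) ∧ Nat.Coprime P' (2 * c) ∧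
      ∀ (l l' N : ℕ) (Z : Finset ℕ), l.Prime → l'.Prime → l ≡ a [MOD q] → l' ≡ a' [MOD q'] →
        B < l → B < l' → l ≤ N → l' ≤ N →
        (∀ μ : ℕ, 1 ≤ μ → μ ≤ B * B * (N * N) →
          ((S c ^ (-(s : ℤ))).coeff ((P ^ 2 * μ : ℕ) : ℤ) ≠ (S c ^ (-(s : ℤ))).coeff μ ∨
            (S c ^ (-(s : ℤ))).coeff ((P' ^ 2 * μ : ℕ) : ℤ) ≠ (S c ^ (-(s : ℤ))).coeff μ) →
          μ ∈ Z) →
        Cov B D Z l l' ∨ Cov B D Z l' l := by
  have hsA := adm_nat.2 hs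
  have hs1 : 1 ≤ s := Nat.pos_of_ne_zero (by exact_mod_cast hsA.ne_zero)
  have hso : Odd s := by exact_mod_cast hsA.odd
  have hk : 4 * s.factorial ≠ 0 := by positivity
  obtain ⟨p, hp, hp1, hp2⟩ := Nat.exists_prime_gt_modEq_one 13 hk
  obtain ⟨p', hp', hp1', hp2'⟩ := Nat.exists_prime_gt_modEq_one p hk
  set σ := S c ^ (-(s : ℤ)) with hσ
  have hσN : σ ∈ Neg c := zpow_mem_Sp ⟨by omega, hsA.neg⟩
  have hpc := big_coprime hc hp hp1
  have hpc' := big_coprime hc hp' (by omega)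
  obtain ⟨u, w, w', g, g', hw, hw', hg, hg', hcore⟩ := core hc
    (TL_Neg hc hpc (TL_Neg hc hpc hσN)) (TL_Neg hc hpc' (TL_Neg hc hpc' hσN))
    (TL_TL_ne_zero hc hs1 hp) (TL_TL_ne_zero hc hs1 hp')
  have gw : ∀ {v : List ℕ} {r : ℕ}, GW c v → r.Prime → 13 < r →
      ∀ q ∈ v, q.Prime ∧ Nat.Coprime q r := fun hv hr h13 q hq =>
    ⟨gen_prime hc (hv q hq), (Nat.coprime_primes (gen_prime hc (hv q hq)) hr).2 (by
      have := gen_le hc (hv q hq); omega)⟩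
  have hpp : Nat.Coprime p p' := (Nat.coprime_primes hp hp').2 (by omega)
  have a1 := (((PP_base hc hso hp2').TL hp hpp).TL hp hpp).TW (gw hw hp' (by omega))
  have a2 := (((PP_base hc hso hp2).TL hp' hpp.symm).TL hp' hpp.symm).TW (gw hw' hp hp1)
  have sq : ∀ {v : List ℕ} {r r' : ℕ}, GW c v → r.Prime → 13 < r → Nat.Coprime r' r →
      (jacobiSym (v.prod : ℕ) r * (jacobiSym r' r * (jacobiSym r' r * 1)) *
        jacobiSym (c * 2 ^ u : ℕ) r) ^ 2 = 1 := by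
    intro v r r' hv hr h13 hrr
    have b1 : jacobiSym (v.prod : ℕ) r ^ 2 = 1 := jacobiSym.sq_one (by
      have : Nat.Coprime v.prod r :=
        Nat.coprime_list_prod_left_iff.2 fun q hq => (gw hv hr h13 q hq).2
      rw [Int.gcd_natCast_natCast]
      exact this)
    have b2 : jacobiSym r' r ^ 2 = 1 := jacobiSym.sq_one (by simpa using hrr)
    have b3 : jacobiSym (c * 2 ^ u : ℕ) r ^ 2 = 1 := jacobiSym.sq_one (by
      have h1 := (big_coprime hc hr h13).symm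
      have : Nat.Coprime (c * 2 ^ u) r :=
        Nat.Coprime.mul_left (Nat.Coprime.coprime_mul_left h1)
          (Nat.Coprime.pow_left _ (Nat.Coprime.coprime_mul_right h1))
      exact_mod_cast this)
    rw [mul_one, mul_pow, mul_pow, mul_pow, b1, b2, b3]
    norm_num
  obtain ⟨a, ha, ha1⟩ := exists_class hc hg hp' (by omega) (sq hw hp' (by omega) hpp)
  obtain ⟨a', ha', ha1'⟩ := exists_class hc hg' hp hp1 (sq hw' hp hp1 hpp.symm)
  have hc1 : 1 ≤ c := by omega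
  have w0 : 0 < w.prod := List.prod_pos fun n hn => (gen_prime hc (hw n hn)).pos
  have w0' : 0 < w'.prod := List.prod_pos fun n hn => (gen_prime hc (hw' n hn)).pos
  have p0 := hp.pos
  have p0' := hp'.pos
  set B₁ := w.prod * (p * (p * s)) with hB₁
  set B₂ := w'.prod * (p' * (p' * s)) with hB₂
  have c1 : w.prod ≤ B₁ := Nat.le_mul_of_pos_right _ (by positivity)
  have c2 : w'.prod ≤ B₂ := Nat.le_mul_of_pos_right _ (by positivity)
  have c3 : p' ≤ B₂ := (Nat.le_mul_of_pos_right _ (by positivity)).trans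
    (Nat.le_mul_of_pos_left _ w0')
  refine ⟨B₁ + B₂, c * 2 ^ u, p, p', 8 * c * p', a, 8 * c * p, a', by omega,
    Nat.mul_pos hc1 (by positivity), by positivity, by positivity, ha, ha', hpc, hpc', ?_⟩
  intro l l' N Z hl hl' hla hla' hB hB' hN hN' hZ
  obtain ⟨d1, d2⟩ := ha1 l hla
  obtain ⟨d1', d2'⟩ := ha1' l' hla'
  have h1 := hcore l l' hl hl' d1 d1'
  obtain ⟨m, n, h2, h3, h4⟩ := exists_of_coeff_mul (h1 ▸ one_ne_zero)
  obtain ⟨m₁, m₂, h5, h6, rfl⟩ := exists_of_coeff_mul h2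
  rw [coeff_S_sparse hc] at h3
  split_ifs at h3 with h7
  swap
  · exact absurd rfl h3
  obtain ⟨b, hb, rfl⟩ := h7
  have e1 := a1.mono (show B₁ ≤ B₁ + B₂ by omega)
  have e2 := a2.mono (show B₂ ≤ B₁ + B₂ by omega)
  have hb0 : 0 < c * 2 ^ u * b ^ 2 := by have := hb.pos; positivity
  have h8 : m₁ + m₂ + ((c * 2 ^ u * b ^ 2 : ℕ) : ℤ) = 0 := by push_cast; exact h4
  by_cases f1 : 0 < m₂
  · left
    obtain ⟨m, rfl⟩ := Int.eq_ofNat_of_zero_le f1.le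
    obtain ⟨X, rfl⟩ : ∃ X : ℕ, m₁ = -(X : ℤ) := ⟨(-m₁).toNat, by omega⟩
    exact half hp' e1 hl hB hN hl' (by omega) hN' (gw hw' hp' (by omega)) (by omega) d2
      (by omega) h5 h6 (a := b) (by omega) fun μ g1 g2 g3 => hZ μ g1 g2 (Or.inr g3)
  by_cases f2 : 0 < m₁
  · right
    obtain ⟨m, rfl⟩ := Int.eq_ofNat_of_zero_le f2.le
    obtain ⟨X, rfl⟩ : ∃ X : ℕ, m₂ = -(X : ℤ) := ⟨(-m₂).toNat, by omega⟩
    exact half hp e2 hl' hB' hN' hl (by omega) hN (gw hw hp hp1) (by omega) d2'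
      (by omega) h6 h5 (a := b) (by omega) fun μ g1 g2 g3 => hZ μ g1 g2 (Or.inl g3)
  obtain ⟨X, rfl⟩ : ∃ X : ℕ, m₁ = -(X : ℤ) := ⟨(-m₁).toNat, by omega⟩
  obtain ⟨Y, rfl⟩ : ∃ Y : ℕ, m₂ = -(Y : ℤ) := ⟨(-m₂).toNat, by omega⟩
  rcases Nat.eq_zero_or_pos X with rfl | hX
  · right
    obtain ⟨y, g1, g2, g3, _⟩ := e2.big hl' hB' (by omega) h6
    exact ⟨y, b, g1, g2, Or.inl ⟨0, Nat.zero_le _, by omega⟩⟩
  left
  obtain ⟨x, g1, g2, g3, _⟩ := e1.big hl hB hX h5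
  rcases Nat.eq_zero_or_pos Y with rfl | hY
  · exact ⟨x, b, g1, g2, Or.inl ⟨0, Nat.zero_le _, by omega⟩⟩
  · obtain ⟨y, _, g5, g6, _⟩ := e2.big hl' hB' hY h6
    exact ⟨x, b, g1, g2, Or.inl ⟨y, g5, by omega⟩⟩

end Pool.Agent.Lib.MP_a3366f_nt.Ker
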