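import Mathlib
import Pool.Agent.Lib.MP_a3366f_nt.KCover
import Pool.Agent.Lib.MP_a3366f_nt.KPrimes
import Pool.Agent.Lib.MP_a3366f_nt.KCount

/-!
Both parities of the multipartition function occur at least `X ^ (3 / 4) / (log X) ^ 2` times below
`X`, up to a constant factor.
-/

open Finset

namespace Pool.Agent.Lib.MP_a3366f_nt.Ker

theorem sq_mod {c P : ℕ} (hc : c = 1 ∨ c = 3) (hP : Nat.Coprime P (2 * c)) :
    ∃ k, P ^ 2 = 8 * c * k + 1 := by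
  have h1 : P ^ 2 % (8 * c) = 1 := by
    have h2 : Nat.Coprime (P % (8 * c)) (2 * c) := by
      have : P % (8 * c) ≡ P [MOD (2 * c)] := (Nat.mod_modEq P _).of_dvd ⟨4, by ring⟩
      rw [Nat.Coprime, this.gcd_eq]; exact hP
    rw [Nat.pow_mod]
    have h3 : P % (8 * c) < 8 * c := Nat.mod_lt _ (by omega)
    generalize P % (8 * c) = r at h2 h3
    rcases hc with rfl | rfl
    · revert h2; revert r; decide
    · revert h2; revert r; decide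
  exact ⟨P ^ 2 / (8 * c), by rw [← h1, Nat.div_add_mod]⟩

theorem pair_of_diff {c t s P μ : ℕ} (hc : c = 1 ∨ c = 3) (ht : c * t = 3 * s)
    (hP : Nat.Coprime P (2 * c))
    (h : (S c ^ (-(s : ℤ))).coeff ((P ^ 2 * μ : ℕ) : ℤ) ≠ (S c ^ (-(s : ℤ))).coeff μ) :
    ∃ n₁ n₂ : ℕ, 8 * c * n₁ = μ + s ∧ 8 * c * n₂ = P ^ 2 * μ + s ∧
      pt t n₁ % 2 ≠ pt t n₂ % 2 := by
  obtain ⟨k, hk⟩ := sq_mod hc hP
  have h1 : ((8 * c : ℕ) : ℤ) ∣ ((μ + s : ℕ) : ℤ) := by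
    by_cases h2 : (S c ^ (-(s : ℤ))).coeff μ = 0
    · rw [h2] at h
      obtain ⟨r, hr⟩ := (supp_S_zpow hc h).2.dvd
      rw [hk] at hr
      exact ⟨-r - k * μ, by push_cast at hr ⊢; linarith⟩
    · obtain ⟨r, hr⟩ := (supp_S_zpow hc h2).2.dvd
      exact ⟨-r, by push_cast at hr ⊢; linarith⟩
  obtain ⟨n₁, h2⟩ := Int.natCast_dvd_natCast.1 h1
  have h3 : 8 * c * (n₁ + k * μ) = P ^ 2 * μ + s := by rw [hk, mul_add, ← h2]; ring
  refine ⟨n₁, n₁ + k * μ, h2.symm, h3, fun h4 => h ?_⟩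
  have h5 : ((P ^ 2 * μ : ℕ) : ℤ) = 8 * c * ((n₁ + k * μ : ℕ) : ℤ) - s := by
    have : ((8 * c * (n₁ + k * μ) : ℕ) : ℤ) = (P ^ 2 * μ + s : ℕ) := by rw [h3]
    push_cast at this ⊢
    linarith
  have h6 : (μ : ℤ) = 8 * c * (n₁ : ℤ) - s := by
    have : ((μ + s : ℕ) : ℤ) = (8 * c * n₁ : ℕ) := by rw [h2]
    push_cast at this ⊢
    linarith
  rw [h5, coeff_S_neg hc ht, h6, coeff_S_neg hc ht]
  exact (ZMod.natCast_eq_natCast_iff' _ _ 2).2 h4.symm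

theorem card_diff {c t s P P' M X r : ℕ} (hc : c = 1 ∨ c = 3) (ht : c * t = 3 * s)
    (hP : Nat.Coprime P (2 * c)) (hP' : Nat.Coprime P' (2 * c)) (hr : r < 2) (Z : Finset ℕ)
    (hZ : ∀ μ ∈ Z, μ ≤ M ∧
      ((S c ^ (-(s : ℤ))).coeff ((P ^ 2 * μ : ℕ) : ℤ) ≠ (S c ^ (-(s : ℤ))).coeff μ ∨
        (S c ^ (-(s : ℤ))).coeff ((P' ^ 2 * μ : ℕ) : ℤ) ≠ (S c ^ (-(s : ℤ))).coeff μ))
    (hX : (P ^ 2 + P' ^ 2 + 1) * M + s < X) :
    Z.card ≤ 3 * ((range X).filter fun n => pt t n % 2 = r).card := by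
  set A := (range X).filter fun n => pt t n % 2 = r with hA
  have hc1 : 1 ≤ 8 * c := by omega
  have key : ∀ Q μ, Nat.Coprime Q (2 * c) → μ ≤ M → Q ^ 2 ≤ P ^ 2 + P' ^ 2 →
      (S c ^ (-(s : ℤ))).coeff ((Q ^ 2 * μ : ℕ) : ℤ) ≠ (S c ^ (-(s : ℤ))).coeff μ →
      μ ∈ A.image (fun n => 8 * c * n - s) ∨ μ ∈ A.image (fun n => (8 * c * n - s) / Q ^ 2) := by
    intro Q μ hQ hμ hQP h
    obtain ⟨n₁, n₂, h1, h2, h3⟩ := pair_of_diff hc ht hQ h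
    have hQ0 : 0 < Q ^ 2 := by obtain ⟨k, hk⟩ := sq_mod hc hQ; omega
    have h4 : n₁ ≤ 8 * c * n₁ := Nat.le_mul_of_pos_left _ hc1
    have h5 : n₂ ≤ 8 * c * n₂ := Nat.le_mul_of_pos_left _ hc1
    have h6 : Q ^ 2 * μ ≤ (P ^ 2 + P' ^ 2) * M := Nat.mul_le_mul hQP hμ
    have h7 : (P ^ 2 + P' ^ 2 + 1) * M = (P ^ 2 + P' ^ 2) * M + M := by ring
    by_cases h8 : pt t n₁ % 2 = r
    · exact Or.inl (mem_image.2 ⟨n₁, mem_filter.2 ⟨mem_range.2 (by omega), h8⟩, by omega⟩)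
    · refine Or.inr (mem_image.2 ⟨n₂, mem_filter.2 ⟨mem_range.2 (by omega), by omega⟩, ?_⟩)
      rw [h2, Nat.add_sub_cancel, Nat.mul_div_cancel_left _ hQ0]
  have hsub : Z ⊆ A.image (fun n => 8 * c * n - s) ∪
      (A.image (fun n => (8 * c * n - s) / P ^ 2) ∪ A.image (fun n => (8 * c * n - s) / P' ^ 2)) := by
    intro μ hμ
    obtain ⟨h1, h2 | h2⟩ := hZ μ hμ
    · rcases key P μ hP h1 (by omega) h2 with h3 | h3
      · exact mem_union_left _ h3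
      · exact mem_union_right _ (mem_union_left _ h3)
    · rcases key P' μ hP' h1 (by omega) h2 with h3 | h3
      · exact mem_union_left _ h3
      · exact mem_union_right _ (mem_union_right _ h3)
  have h1 := card_le_card hsub
  have h2 := card_union_le (A.image (fun n => 8 * c * n - s))
    (A.image (fun n => (8 * c * n - s) / P ^ 2) ∪ A.image (fun n => (8 * c * n - s) / P' ^ 2))
  have h3 := card_union_le (A.image (fun n => (8 * c * n - s) / P ^ 2))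
    (A.image (fun n => (8 * c * n - s) / P' ^ 2))
  have h4 := card_image_le (s := A) (f := fun n => 8 * c * n - s)
  have h5 := card_image_le (s := A) (f := fun n => (8 * c * n - s) / P ^ 2)
  have h6 := card_image_le (s := A) (f := fun n => (8 * c * n - s) / P' ^ 2)
  omega

theorem count_parity {t r : ℕ} (ht : Odd t) (hr : r < 2) : ∃ κ : ℝ, 0 < κ ∧ ∃ X₀ : ℕ, ∀ X : ℕ,
    X₀ ≤ X → κ * ((X : ℝ) ^ (3 / 4 : ℝ) / Real.log X ^ 2) ≤
      (((range X).filter fun n => pt t n % 2 = r).card : ℝ) := by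
  classical
  obtain ⟨c, s, hc, hts, hs⟩ : ∃ c s : ℕ, (c = 1 ∨ c = 3) ∧ c * t = 3 * s ∧
      Nat.Coprime s (2 * c) := by
    by_cases h : 3 ∣ t
    · obtain ⟨s, rfl⟩ := h
      refine ⟨1, s, Or.inl rfl, by ring, ?_⟩
      rw [mul_one, Nat.coprime_two_right]
      exact (Nat.odd_mul.1 ht).2
    · refine ⟨3, t, Or.inr rfl, rfl, Nat.Coprime.mul_right (Nat.coprime_two_right.2 ht) ?_⟩
      exact ((Nat.Prime.coprime_iff_not_dvd Nat.prime_three).2 h).symm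
  obtain ⟨B, D, P, P', q, a, q', a', hB, hD, hq, hq', ha, ha', hP, hP', hcov⟩ := cover hc hs
  obtain ⟨T₁, N₁, hT₁, h1⟩ := primes_class q a hq ha
  obtain ⟨T₂, N₂, hT₂, h2⟩ := primes_class q' a' hq' ha'
  obtain ⟨κ, hκ, N₀, h3⟩ := count_main B (T₁ + T₂) D (by omega) hD
  refine scale_main (κ / 3) (by positivity) ((P ^ 2 + P' ^ 2 + 1) * (B * B) + s + 1)
    (N₀ + N₁ + N₂ + (T₁ + T₂) * (B + 1) + 2) (by omega)
    (fun X => ((range X).filter fun n => pt t n % 2 = r).card)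
    (fun X Y hXY => card_le_card (filter_subset_filter _ (range_mono hXY))) fun N hN => ?_
  let Z : Finset ℕ := (range (B * B * (N * N) + 1)).filter fun μ =>
    (S c ^ (-(s : ℤ))).coeff ((P ^ 2 * μ : ℕ) : ℤ) ≠ (S c ^ (-(s : ℤ))).coeff μ ∨
      (S c ^ (-(s : ℤ))).coeff ((P' ^ 2 * μ : ℕ) : ℤ) ≠ (S c ^ (-(s : ℤ))).coeff μ
  have hlog : 0 < Real.log N := Real.log_pos (by exact_mod_cast (show 1 < N by omega))
  have hdiv : ∀ T : ℕ, 1 ≤ T → T ≤ T₁ + T₂ → N / (T₁ + T₂) ≤ N / T ∧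
      (N : ℝ) / (((T₁ + T₂ : ℕ) : ℝ) * Real.log N) ≤ (N : ℝ) / (T * Real.log N) := by
    intro T hT hT'
    refine ⟨Nat.div_le_div_left hT' hT, ?_⟩
    have : (0 : ℝ) < T := by exact_mod_cast hT
    have h5 : (T : ℝ) ≤ ((T₁ + T₂ : ℕ) : ℝ) := by exact_mod_cast hT'
    gcongr
  have hBN : B < N / (T₁ + T₂) := by
    rw [Nat.lt_iff_add_one_le, Nat.le_div_iff_mul_le (by omega), mul_comm]
    omega
  have d1 := hdiv T₁ hT₁ (by omega)
  have d2 := hdiv T₂ hT₂ (by omega)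
  have h4 := h3 N (by omega) _ _ Z (fun l hl => ?_) (fun l hl => ?_)
    (d1.2.trans (h1 N (by omega))) (d2.2.trans (h2 N (by omega))) (fun l hl l' hl' => ?_)
  · have h5 := card_diff (M := B * B * (N * N))
      (X := ((P ^ 2 + P' ^ 2 + 1) * (B * B) + s + 1) * N ^ 2) hc hts hP hP' hr Z
      (fun μ hμ => ⟨Nat.lt_succ_iff.1 (mem_range.1 (mem_filter.1 hμ).1), (mem_filter.1 hμ).2⟩) (by
        have h6 : 1 ≤ N ^ 2 := Nat.one_le_pow _ _ (by omega)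
        have h7 : s + 1 ≤ (s + 1) * N ^ 2 := Nat.le_mul_of_pos_right _ h6
        have h8 : ((P ^ 2 + P' ^ 2 + 1) * (B * B) + s + 1) * N ^ 2 =
          (P ^ 2 + P' ^ 2 + 1) * (B * B * (N * N)) + (s + 1) * N ^ 2 := by ring
        omega)
    have h6 : (Z.card : ℝ) ≤ 3 * (((range (((P ^ 2 + P' ^ 2 + 1) * (B * B) + s + 1) * N ^ 2)).filter
      fun n => pt t n % 2 = r).card : ℝ) := by exact_mod_cast h5
    linarith
  · obtain ⟨h5, h6, _⟩ := mem_filter.1 hl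
    obtain ⟨h7, h8⟩ := mem_Ioc.1 h5
    exact ⟨h6, by omega, h8⟩
  · obtain ⟨h5, h6, _⟩ := mem_filter.1 hl
    obtain ⟨h7, h8⟩ := mem_Ioc.1 h5
    exact ⟨h6, by omega, h8⟩
  · obtain ⟨h5, h6, h7⟩ := mem_filter.1 hl
    obtain ⟨h8, h9⟩ := mem_Ioc.1 h5
    obtain ⟨h5', h6', h7'⟩ := mem_filter.1 hl'
    obtain ⟨h8', h9'⟩ := mem_Ioc.1 h5'
    exact hcov l l' N Z h6 h6' h7 h7' (by omega) (by omega) h9 h9' fun μ _ g2 g3 =>
      mem_filter.2 ⟨mem_range.2 (by omega), g3⟩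

end Pool.Agent.Lib.MP_a3366f_nt.Ker
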