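import Mathlib
import Pool.Agent.Lib.MP_a3366f_nt.ZConj
import Pool.Agent.Lib.MP_a3366f_nt.KStab

/-!
The norm bound applied to the sum of two Hecke images of a negative power of `S c`.
-/

open Finset

namespace Pool.Agent.Lib.MP_a3366f_nt.Zt

open Ker

variable {c : ℕ}

theorem card_cl_le (k l : ℕ) (a : ℤ) : (cl k l a).card ≤ 2 ^ k := by
  refine (card_filter_le _ _).trans ?_
  rw [Int.card_Ico, sub_zero, ← Nat.cast_ofNat, ← Nat.cast_pow, Int.toNat_natCast]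

theorem le_card_cl (l m : ℕ) (a : ℤ) : 2 ^ m ≤ (cl (l + m) l a).card := by
  have h0 : (0 : ℤ) < 2 ^ l := by positivity
  rw [← card_range (2 ^ m)]
  refine card_le_card_of_injOn (fun i : ℕ => a % 2 ^ l + 2 ^ l * i) (fun i hi => ?_)
    fun i _ j _ h => by simpa using h
  have h1 : (i : ℤ) + 1 ≤ 2 ^ m := by exact_mod_cast mem_range.1 hi
  have h2 := Int.emod_nonneg a h0.ne'
  have h3 := Int.emod_lt_of_pos a h0
  refine mem_filter.2 ⟨mem_Ico.2 ⟨by positivity, ?_⟩, ?_⟩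
  · rw [pow_add]
    nlinarith
  · exact (Int.modEq_add_fac_self).trans (Int.mod_modEq _ _)

theorem norm_Sp (hc : c = 1 ∨ c = 3) {k : ℕ} (hk : 4 ≤ k) {a : ℤ} (ha : Odd a) {f : L2}
    (hf : f ∈ Sp c {j | j ≤ 0 ∧ j ≡ a [ZMOD (8 * c)]}) (h0 : f ≠ 0) :
    (∀ r ∈ cl k 3 a, cmp k r f ≠ 0) ∧ ∑ r ∈ cl k 3 a, (cmp k r f).order ≤ 5 * 8 ^ k := by
  obtain ⟨ρ, hρ, h1⟩ : ∃ ρ : ℕ, ρ ≤ 2 ∧ (c : ℤ) ∣ ρ * 2 ^ k - a := by
    rcases hc with rfl | rfl
    · exact ⟨0, by omega, one_dvd _⟩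
    · have h1 : ¬ (3 : ℤ) ∣ 2 ^ k := fun h => by
        have := Int.prime_three.dvd_of_dvd_pow h
        omega
      generalize (2 : ℤ) ^ k = x at h1
      have : (3 : ℤ) ∣ 0 * x - a ∨ (3 : ℤ) ∣ 1 * x - a ∨ (3 : ℤ) ∣ 2 * x - a := by
        have h2 : x % 3 = 1 ∨ x % 3 = 2 := by omega
        have h3 : a % 3 = 0 ∨ a % 3 = 1 ∨ a % 3 = 2 := by omega
        rcases h2 with h2 | h2 <;> rcases h3 with h3 | h3 | h3 <;> omega
      rcases this with h | h | h
      exacts [⟨0, by omega, h⟩, ⟨1, by omega, h⟩, ⟨2, by omega, h⟩]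
  have hS := S_ne_zero hc
  obtain ⟨g, hg, h2⟩ : ∃ g ∈ AA c, f = g * (S c ^ ρ) ^ 2 ^ k := by
    clear h0
    induction hf using Submodule.span_induction with
    | mem x hx =>
      obtain ⟨j, ⟨hj, hj'⟩, rfl⟩ := hx
      obtain ⟨m, hm⟩ : (c : ℤ) ∣ ρ * 2 ^ k - j := by
        simpa using h1.add ((dvd_mul_left _ 8).trans hj'.dvd)
      have h3 : (0 : ℤ) ≤ ρ * 2 ^ k := by positivity
      obtain ⟨m, rfl⟩ := Int.eq_ofNat_of_zero_le (show 0 ≤ m by rcases hc with rfl | rfl <;> omega)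
      refine ⟨sg c ^ m, pow_mem (sg_AA c) _, ?_⟩
      rw [sg_pow, ← pow_mul, ← zpow_natCast, ← zpow_add₀ hS]
      push_cast
      rw [← hm]
      simp
    | zero => exact ⟨0, zero_mem _, by simp⟩
    | add x y _ _ hx hy =>
      obtain ⟨g, hg, rfl⟩ := hx
      obtain ⟨g', hg', rfl⟩ := hy
      exact ⟨g + g', add_mem hg hg', by ring⟩
    | smul r x _ hx =>
      rcases (by decide : ∀ r : ZMod 2, r = 0 ∨ r = 1) r with rfl | rfl
      · exact ⟨0, zero_mem _, by simp⟩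
      · simpa using hx
  have h3 : ∀ r, cmp k r f = cmp k r g * (S c ^ ρ) ^ 2 ^ k := fun r => by
    simpa [h2] using cmp_mul (cls_pow_two_pow k (S c ^ ρ)) r g
  have h4 := mt HahnSeries.coeff_order_eq_zero.1 h0
  obtain ⟨j, ⟨-, hj⟩, -, hj'⟩ := supp_Sp hc hf h4
  have h5 : f.order ≡ a [ZMOD 2 ^ 3] := (hj'.trans hj).of_dvd ⟨c, by norm_num⟩
  have h6 : cmp k f.order g ≠ 0 := fun h => h4 (by
    have := coeff_cmp k f.order f f.order
    rw [h3, h, zero_mul, if_pos (Int.ModEq.refl _)] at this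
    exact this.symm)
  have h7 : cl k 3 f.order = cl k 3 a :=
    filter_congr fun r _ => ⟨fun h => h.trans h5, fun h => h.trans h5.symm⟩
  have h8 := norm_bound hc hk hg (a := f.order) (by
    rw [Int.odd_iff] at ha ⊢; rw [Int.ModEq] at h5; omega) h6
  rw [h7] at h8
  have h9 : (S c ^ ρ) ^ 2 ^ k ≠ 0 := pow_ne_zero _ (pow_ne_zero _ hS)
  refine ⟨fun r hr => h3 r ▸ mul_ne_zero (h8.1 r hr) h9, ?_⟩
  rw [sum_congr rfl fun r hr => by rw [h3, HahnSeries.order_mul (h8.1 r hr) h9], sum_add_distrib,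
    sum_const, ← pow_mul, ← zpow_natCast, order_S_zpow hc, nsmul_eq_mul]
  have h10 : ((cl k 3 a).card : ℤ) ≤ 2 ^ k := by exact_mod_cast card_cl_le k 3 a
  have h11 : (ρ : ℤ) ≤ 2 := by exact_mod_cast hρ
  have h12 : (c : ℤ) ≤ 3 := by omega
  have h13 : (2 : ℤ) ^ k ≤ 4 ^ k := by gcongr; norm_num
  have h14 : (8 : ℤ) ^ k = 2 ^ k * 4 ^ k := by rw [← mul_pow]; norm_num
  calc _ ≤ (2 : ℤ) ^ k * (3 * 4 ^ k) + 2 ^ k * (2 * 4 ^ k) := by
        refine add_le_add (h8.2.trans (by gcongr)) ?_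
        push_cast
        gcongr
    _ = _ := by rw [h14]; ring

/-- The cofactors `j ≤ J` for which `p * j` gives an index with the prescribed parity. -/
noncomputable def Js (c t s e B ρ J p : ℕ) : Finset ℕ :=
  open Classical in
  (Icc 1 J).filter fun j => ∃ n, 8 * c * n = p * j + s ∧ n ≡ B [MOD 2 ^ e] ∧ pt t n % 2 = ρ

theorem ex_index (hc : c = 1 ∨ c = 3) {t s e B p j : ℕ} (ht : c * t = 3 * s)
    (hp : p ≡ 1 [MOD 8 * c * 2 ^ e]) (h1 : (j : ℤ) ≡ -s [ZMOD (8 * c)])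
    (h2 : (j : ℤ) ≡ 8 * c * B - s [ZMOD 2 ^ (e + 3)]) :
    ∃ n, 8 * c * n = p * j + s ∧ n ≡ B [MOD 2 ^ e] ∧ (S c ^ (-(s : ℤ))).coeff (p * j) = pt t n := by
  obtain ⟨u, hu⟩ := (Int.natCast_modEq_iff.2 hp).symm.dvd
  obtain ⟨v, hv⟩ := h1.symm.dvd
  obtain ⟨w, hw⟩ := h2.symm.dvd
  push_cast at hu
  obtain ⟨n, hn⟩ : 8 * c ∣ p * j + s := Int.natCast_dvd_natCast.1
    ⟨2 ^ e * u * j + v, by push_cast; linear_combination j * hu + hv⟩
  have hn' : (p : ℤ) * j + s = 8 * c * n := by exact_mod_cast hn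
  refine ⟨n, hn.symm, Int.natCast_modEq_iff.1 ?_, ?_⟩
  · push_cast
    refine cancel_odd (w := c) (by rcases hc with rfl | rfl <;> decide)
      (Int.modEq_iff_dvd.2 ⟨-(c * u * j + w), ?_⟩)
    refine mul_left_cancel₀ (show (8 : ℤ) ≠ 0 by norm_num) ?_
    linear_combination hn' - j * hu - hw
  · rw [← coeff_S_neg hc ht, ← hn', add_sub_cancel_right]

theorem pair_bound (hc : c = 1 ∨ c = 3) {t s e B ρ k N J p p' : ℕ} (ht : c * t = 3 * s)
    (hs : Odd s) (hρ : ρ < 2) (hk : e + 4 ≤ k) (hp : p.Prime) (hp' : p'.Prime) (hne : p ≠ p')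
    (h1 : p ≡ 1 [MOD 8 * c * 2 ^ e]) (h1' : p' ≡ 1 [MOD 8 * c * 2 ^ e]) (h2 : s < p) (h2' : s < p')
    (h3 : J < p) (h3' : J < p') (h4 : p ≤ N) (h4' : p' ≤ N) :
    ∃ m : ℕ, (cl k (e + 3) (8 * c * B - s)).card ≤
      2 * s + ((Js c t s e B ρ J p).card + (Js c t s e B ρ J p').card) + m ∧
      m * J ≤ 5 * 8 ^ k + 2 * s * (s * N) := by
  classical
  set σ := S c ^ (-(s : ℤ)) with hσ
  have hz : ∀ n : ℤ, n < -s → σ.coeff n = 0 := fun n hn =>
    by_contra fun h => absurd (supp_S_zpow hc h).1 (not_le.2 hn)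
  have hmem : ∀ q : ℕ, q.Prime → q ≡ 1 [MOD 8 * c * 2 ^ e] →
      TL q σ ∈ Sp c {j | j ≤ 0 ∧ j ≡ -s [ZMOD (8 * c)]} := fun q hq h => by
    have h5 : q ≡ 1 [MOD 8 * c] := h.of_mul_right _
    refine Submodule.span_mono (Set.image_mono ?_) (stab_class hc hq ?_ (-(s : ℤ)))
    · rintro j ⟨h6, h7, -⟩
      refine ⟨by omega, h7.trans ?_⟩
      simpa using (Int.natCast_modEq_iff.2 h5).mul_right (-(s : ℤ))
    · have h6 : q ≡ 1 [MOD 2 * c] := h5.of_dvd ⟨4, by ring⟩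
      rw [Nat.Coprime, h6.gcd_eq, Nat.gcd_one_left]
  have hneg : ∀ q : ℕ, q.Prime → s < q → ∀ n : ℤ, n < 0 → (TL q σ).coeff n ≠ 0 →
      ∃ m ∈ Ico (-(s : ℤ)) 0, q * m = n := fun q hq h n hn h5 => by
    have h6 : (s : ℤ) < q := by exact_mod_cast h
    rw [coeff_TL_prime hq, hz _ (by nlinarith), zero_add] at h5
    split_ifs at h5 with h7
    · obtain ⟨m, rfl⟩ := h7
      rw [Int.mul_ediv_cancel_left _ (by omega)] at h5
      exact ⟨m, mem_Ico.2 ⟨(supp_S_zpow hc h5).1, by nlinarith⟩, rfl⟩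
    · exact absurd rfl h5
  set f := TL p σ + TL p' σ with hf
  have hfm : f ∈ Sp c {j | j ≤ 0 ∧ j ≡ -s [ZMOD (8 * c)]} := add_mem (hmem p hp h1) (hmem p' hp' h1')
  have hs0 : (0 : ℤ) < s := by exact_mod_cast hs.pos
  have hp0 : (s : ℤ) < p := by exact_mod_cast h2
  have hp0' : (s : ℤ) < p' := by exact_mod_cast h2'
  have hf0 : f ≠ 0 := fun h => by
    have h5 : f.coeff (p * -s) = 0 := by rw [h]; rfl
    have h6 : (TL p' σ).coeff (p * -s) = 0 := by
      by_contra h6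
      obtain ⟨m, -, hm⟩ := hneg p' hp' h2' _ (by nlinarith) h6
      have h7 : p' ∣ p * s := Int.natCast_dvd_natCast.1 ⟨-m, by push_cast; linear_combination hm⟩
      rcases (Nat.Prime.dvd_mul hp').1 h7 with h8 | h8
      · exact hne ((Nat.prime_dvd_prime_iff_eq hp' hp).1 h8).symm
      · exact absurd (Nat.le_of_dvd hs.pos h8) (not_le.2 h2')
    have h7 : (2 : ℤ) ≤ p := by omega
    rw [hf, HahnSeries.coeff_add, h6, add_zero, coeff_TL_prime hp,
      hz _ (by nlinarith [mul_pos hs0 (show (0 : ℤ) < p * p - 1 by nlinarith)]), zero_add,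
      if_pos (dvd_mul_right _ _), Int.mul_ediv_cancel_left _ (by omega), coeff_S_zpow_self hc] at h5
    exact one_ne_zero h5
  obtain ⟨h5, h6⟩ := norm_Sp hc (k := k) (by omega) (a := -s) (by simpa using hs) hfm hf0
  set T := cl k 3 (-s) with hT
  set o : ℤ → ℤ := fun r => (cmp k r f).order with ho
  have h7 : ∀ r ∈ T, f.coeff (o r) ≠ 0 ∧ o r ≡ r [ZMOD 2 ^ k] := fun r hr => by
    have h8 := mt HahnSeries.coeff_order_eq_zero.1 (h5 r hr)
    have h9 := cls_cmp k r f _ h8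
    rw [coeff_cmp, if_pos h9] at h8
    exact ⟨h8, h9⟩
  have h8 : ∀ r ∈ T, ∀ r' ∈ T, o r = o r' → r = r' := fun r hr r' hr' h => by
    have h9 : r % 2 ^ k = r' % 2 ^ k := (h7 r hr).2.symm.trans (h ▸ (h7 r' hr').2)
    have h10 := mem_Ico.1 (mem_filter.1 hr).1
    have h11 := mem_Ico.1 (mem_filter.1 hr').1
    rwa [Int.emod_eq_of_lt h10.1 h10.2, Int.emod_eq_of_lt h11.1 h11.2] at h9
  have h9 : ∀ r ∈ T, o r < 0 → o r ∈ (Ico (-(s : ℤ)) 0).image (fun m => (p : ℤ) * m) ∪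
      (Ico (-(s : ℤ)) 0).image (fun m => (p' : ℤ) * m) := fun r hr h => by
    by_cases h10 : (TL p σ).coeff (o r) = 0
    · refine mem_union_right _ (mem_image.2 (hneg p' hp' h2' _ h fun h11 => (h7 r hr).1 ?_))
      rw [hf, HahnSeries.coeff_add, h10, h11, add_zero]
    · exact mem_union_left _ (mem_image.2 (hneg p hp h2 _ h h10))
  have h10 : (T.filter fun r => o r < 0).card ≤ 2 * s := by
    refine (card_le_card_of_injOn o (fun r hr => h9 r (mem_filter.1 hr).1 (mem_filter.1 hr).2)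
      fun r hr r' hr' => h8 r (mem_filter.1 hr).1 r' (mem_filter.1 hr').1).trans
      ((card_union_le _ _).trans ((add_le_add card_image_le card_image_le).trans ?_))
    simp [two_mul]
  have h11 : ∀ r ∈ T, -((s : ℤ) * N) ≤ o r := fun r hr => by
    have h12 : (p : ℤ) ≤ N := by exact_mod_cast h4
    have h13 : (p' : ℤ) ≤ N := by exact_mod_cast h4'
    by_cases h : o r < 0
    · rcases mem_union.1 (h9 r hr h) with h14 | h14 <;>
        obtain ⟨m, hm, h15⟩ := mem_image.1 h14 <;> rw [mem_Ico] at hm <;> nlinarith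
    · nlinarith
  have hsub : cl k (e + 3) (8 * c * B - s) ⊆ T := fun r hr => mem_filter.2 ⟨(mem_filter.1 hr).1,
    ((mem_filter.1 hr).2.of_dvd (pow_dvd_pow 2 (by omega))).trans
      (Int.modEq_iff_dvd.2 ⟨-(c * B), by ring⟩)⟩
  refine ⟨(T.filter fun r => J < o r).card, ?_, ?_⟩
  · have h12 : ((cl k (e + 3) (8 * c * B - s)).filter fun r => 0 ≤ o r ∧ o r ≤ J).card ≤
        (Js c t s e B ρ J p ∪ Js c t s e B ρ J p').card := by
      refine card_le_card_of_injOn (fun r => (o r).toNat) (fun r hr => ?_) fun r hr r' hr' h => ?_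
      · obtain ⟨hr, h12, h13⟩ := mem_filter.1 hr
        obtain ⟨h14, h15⟩ := h7 r (hsub hr)
        obtain ⟨j, hj⟩ := Int.eq_ofNat_of_zero_le h12
        obtain ⟨i, ⟨-, hi⟩, -, hi'⟩ := supp_Sp hc hfm h14
        simp only [hj, Int.toNat_natCast] at h13 h14 h15 hi' ⊢
        have h16 := hi'.trans hi
        have h17 := (h15.of_dvd (pow_dvd_pow 2 (show e + 3 ≤ k by omega))).trans (mem_filter.1 hr).2
        have h18 : j ∈ Icc 1 J := by
          refine mem_Icc.2 ⟨Nat.pos_of_ne_zero ?_, by exact_mod_cast h13⟩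
          rintro rfl
          obtain ⟨u, hu⟩ := (dvd_mul_right 8 _).trans h16.dvd
          rw [Nat.odd_iff] at hs
          omega
        have h19 : ∀ q : ℕ, J < q → ¬ (q : ℤ) ∣ j := fun q hq h =>
          absurd (Nat.le_of_dvd (mem_Icc.1 h18).1 (Int.natCast_dvd_natCast.1 h))
            (not_le.2 ((mem_Icc.1 h18).2.trans_lt hq))
        obtain ⟨n, hn, hnB, hnc⟩ := ex_index hc ht h1 h16 h17
        obtain ⟨n', hn', hnB', hnc'⟩ := ex_index hc ht h1' h16 h17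
        rw [hf, HahnSeries.coeff_add, coeff_TL_prime hp, coeff_TL_prime hp', if_neg (h19 p h3),
          if_neg (h19 p' h3'), add_zero, add_zero, hnc, hnc', ← Nat.cast_add,
          Ne, ZMod.natCast_eq_zero_iff] at h14
        by_cases h20 : pt t n % 2 = ρ
        · exact mem_union_left _ (mem_filter.2 ⟨h18, n, hn, hnB, h20⟩)
        · exact mem_union_right _ (mem_filter.2 ⟨h18, n', hn', hnB', by omega⟩)
      · obtain ⟨hr, h12, -⟩ := mem_filter.1 hr
        obtain ⟨hr', h13, -⟩ := mem_filter.1 hr'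
        refine h8 r (hsub hr) r' (hsub hr') ?_
        dsimp only at h
        omega
    have h13 : cl k (e + 3) (8 * c * B - s) ⊆ (T.filter fun r => o r < 0) ∪
        ((cl k (e + 3) (8 * c * B - s)).filter fun r => 0 ≤ o r ∧ o r ≤ J) ∪
        T.filter fun r => J < o r := fun r hr => by
      simp only [mem_union, mem_filter, hr, hsub hr, true_and]
      omega
    exact (card_le_card h13).trans ((card_union_le _ _).trans (Nat.add_le_add_right
      ((card_union_le _ _).trans (add_le_add h10 (h12.trans (card_union_le _ _)))) _))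
  · have h12 : ∑ r ∈ T, ((if (J : ℤ) < o r then (J : ℤ) else 0) -
        if o r < 0 then (s : ℤ) * N else 0) ≤ ∑ r ∈ T, o r := sum_le_sum fun r hr => by
      have := h11 r hr
      split_ifs <;> omega
    rw [sum_sub_distrib, ← sum_filter, ← sum_filter, sum_const, sum_const, nsmul_eq_mul,
      nsmul_eq_mul] at h12
    have h13 : ((T.filter fun r => o r < 0).card : ℤ) * (s * N) ≤ 2 * s * (s * N) := by
      exact_mod_cast Nat.mul_le_mul_right _ h10
    zify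
    linarith

end Pool.Agent.Lib.MP_a3366f_nt.Zt
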