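import Mathlib
import Pool.Agent.Lib.MP_a3366f_nt.ZPair
import Pool.Agent.Lib.MP_a3366f_nt.KPrimes

/-!
Both parities of the multipartition function occur at least `X ^ (4 / 5) / log X` times below `X`,
up to a constant factor, in every residue class modulo a power of two.
-/

open Finset

namespace Pool.Agent.Lib.MP_a3366f_nt.Zt

open Ker

variable {c : ℕ}

theorem sum_Js {t s e B ρ N J X : ℕ} (hc : 1 ≤ c) (P : Finset ℕ)
    (hP : ∀ p ∈ P, p.Prime ∧ J < p ∧ p ≤ N) (hX : N * J + s < X) :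
    ∑ p ∈ P, (Js c t s e B ρ J p).card ≤
      ((range X).filter fun n => n ≡ B [MOD 2 ^ e] ∧ pt t n % 2 = ρ).card := by
  classical
  rw [← card_sigma]
  have key : ∀ x ∈ P.sigma (Js c t s e B ρ J), 1 ≤ x.2 ∧ x.2 ≤ J ∧ ∃ n, 8 * c * n = x.1 * x.2 + s ∧
      (x.1 * x.2 + s) / (8 * c) = n ∧ n ≡ B [MOD 2 ^ e] ∧ pt t n % 2 = ρ := fun x hx => by
    obtain ⟨h1, n, h2, h3⟩ := mem_filter.1 (mem_sigma.1 hx).2
    exact ⟨(mem_Icc.1 h1).1, (mem_Icc.1 h1).2, n, h2,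
      by rw [← h2, Nat.mul_div_cancel_left _ (by omega)], h3⟩
  refine card_le_card_of_injOn (fun x => (x.1 * x.2 + s) / (8 * c)) (fun x hx => ?_)
    fun x hx y hy h => ?_
  · obtain ⟨-, h1, n, h2, h3, h4⟩ := key x hx
    have h5 := Nat.mul_le_mul (hP _ (mem_sigma.1 hx).1).2.2 h1
    have h6 : n ≤ 8 * c * n := Nat.le_mul_of_pos_left _ (by omega)
    exact mem_filter.2 ⟨mem_range.2 (by dsimp only; omega), by dsimp only; rw [h3]; exact h4⟩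
  · obtain ⟨h1, -, n, h2, h3, -⟩ := key x hx
    obtain ⟨h1', h4, n', h2', h3', -⟩ := key y hy
    obtain ⟨hp, h5, -⟩ := hP _ (mem_sigma.1 hx).1
    obtain ⟨hp', -, -⟩ := hP _ (mem_sigma.1 hy).1
    obtain ⟨p, j⟩ := x
    obtain ⟨p', j'⟩ := y
    dsimp only at *
    have h6 : p * j = p' * j' := by rw [h3, h3'] at h; subst h; omega
    obtain rfl : p = p' := by
      rcases (Nat.Prime.dvd_mul hp).1 ⟨j, h6.symm⟩ with h7 | h7
      · exact (Nat.prime_dvd_prime_iff_eq hp hp').1 h7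
      · exact absurd (Nat.le_of_dvd h1' h7) (by omega)
    rw [Nat.eq_of_mul_eq_mul_left hp.pos h6]

theorem count_scale (hc : c = 1 ∨ c = 3) {t s e B ρ m : ℕ} (ht : c * t = 3 * s) (hs : Odd s)
    (hρ : ρ < 2) (hm : 2 * s ≤ 2 ^ m) (P : Finset ℕ)
    (hP : ∀ p ∈ P, p.Prime ∧ p ≡ 1 [MOD 8 * c * 2 ^ e] ∧ s < p ∧
      2 ^ (e + 5) * (5 + 2 * s * s) * 4 ^ (e + 5 + m) < p ∧ p ≤ 8 ^ (e + 5 + m)) :
    (P.card - 1) * 2 ^ m ≤ ((range ((2 ^ (e + 5) * (5 + 2 * s * s) + s + 1) * 32 ^ (e + 5 + m))).filter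
      fun n => n ≡ B [MOD 2 ^ e] ∧ pt t n % 2 = ρ).card := by
  classical
  set J := 2 ^ (e + 5) * (5 + 2 * s * s) * 4 ^ (e + 5 + m) with hJ
  have h1 : (P.filter fun p => ¬ 2 ^ m ≤ (Js c t s e B ρ J p).card).card ≤ 1 := by
    refine card_le_one.2 fun p hp p' hp' => by_contra fun hne => ?_
    obtain ⟨hp, h2⟩ := mem_filter.1 hp
    obtain ⟨hp', h2'⟩ := mem_filter.1 hp'
    obtain ⟨g1, g2, g3, g4, g5⟩ := hP p hp
    obtain ⟨g1', g2', g3', g4', g5'⟩ := hP p' hp'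
    obtain ⟨u, h3, h4⟩ := pair_bound hc (B := B) (k := e + 5 + m) ht hs hρ (by omega) g1 g1' hne
      g2 g2' g3 g3' g4 g4' g5 g5'
    have h5 := le_card_cl (e + 3) (m + 2) (8 * c * B - s)
    rw [show e + 3 + (m + 2) = e + 5 + m by ring, pow_add] at h5
    have h6 : u ≤ 2 ^ m := by
      refine Nat.le_of_mul_le_mul_right (h4.trans (le_of_eq ?_)) (show 0 < J by positivity)
      rw [hJ, show (8 : ℕ) = 2 * 4 by norm_num, mul_pow]
      ring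
    omega
  have h2 := card_filter_add_card_filter_not (s := P) fun p => 2 ^ m ≤ (Js c t s e B ρ J p).card
  refine le_trans ?_ (sum_Js (N := 8 ^ (e + 5 + m)) (J := J) (s := s) (c := c) (by omega)
    (P.filter fun p => 2 ^ m ≤ (Js c t s e B ρ J p).card) (fun p hp => ?_) ?_)
  · refine le_trans ?_ (card_nsmul_le_sum _ _ (2 ^ m) fun p hp => (mem_filter.1 hp).2)
    exact Nat.mul_le_mul_right _ (by omega)
  · obtain ⟨g1, -, -, g4, g5⟩ := hP p (mem_filter.1 hp).1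
    exact ⟨g1, g4, g5⟩
  · have h3 : s + 1 ≤ (s + 1) * 32 ^ (e + 5 + m) := Nat.le_mul_of_pos_right _ (by positivity)
    have h4 : 8 ^ (e + 5 + m) * J = 2 ^ (e + 5) * (5 + 2 * s * s) * 32 ^ (e + 5 + m) := by
      rw [hJ, show (32 : ℕ) = 8 * 4 by norm_num, mul_pow]
      ring
    rw [add_assoc _ s, add_mul]
    omega

theorem scale_main (κ : ℝ) (hκ : 0 < κ) (C k₀ : ℕ) (hC : 1 ≤ C) (A : ℕ → ℕ) (hA : Monotone A)
    (h : ∀ k : ℕ, k₀ ≤ k → κ * ((16 : ℝ) ^ k / k) ≤ A (C * 32 ^ k)) :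
    ∃ κ' : ℝ, 0 < κ' ∧ ∃ X₀ : ℕ, ∀ X : ℕ, X₀ ≤ X →
      κ' * ((X : ℝ) ^ (4 / 5 : ℝ) / Real.log X) ≤ A X := by
  have hC0 : (0 : ℝ) < C := by exact_mod_cast hC
  refine ⟨κ / (32 * C) ^ (4 / 5 : ℝ), by positivity, 32 ^ (k₀ + 1) * C, fun X hX => ?_⟩
  obtain ⟨k, hk⟩ : ∃ k, k = Nat.log 32 (X / C) := ⟨_, rfl⟩
  have h0 : 32 ^ (k₀ + 1) ≤ X / C := (Nat.le_div_iff_mul_le hC).2 hX
  have h1 : k₀ + 1 ≤ k := hk ▸ Nat.le_log_of_pow_le (by norm_num) h0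
  have h2 : C * 32 ^ k ≤ X := by
    rw [mul_comm, hk]
    exact (Nat.le_div_iff_mul_le hC).1 (Nat.pow_log_le_self _ (lt_of_lt_of_le (by positivity) h0).ne')
  have h3 : X ≤ 32 * C * 32 ^ k := by
    have : X < 32 ^ (k + 1) * C := by
      rw [hk]
      exact (Nat.div_lt_iff_lt_mul hC).1 (Nat.lt_pow_succ_log_self (by norm_num) _)
    rw [pow_succ] at this
    linarith
  have h4 : 32 ^ k ≤ X := (Nat.le_mul_of_pos_left _ hC).trans h2
  have hk0 : (0 : ℝ) < k := by exact_mod_cast (show 0 < k by omega)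
  have h5 : (k : ℝ) ≤ Real.log X := by
    refine le_trans ?_ (Real.log_le_log (by positivity) (show (32 : ℝ) ^ k ≤ X by exact_mod_cast h4))
    rw [Real.log_pow]
    refine le_mul_of_one_le_right hk0.le ((Real.le_log_iff_exp_le (by norm_num)).2 ?_)
    linarith [Real.exp_one_lt_d9]
  have h6 : (X : ℝ) ^ (4 / 5 : ℝ) ≤ (32 * C) ^ (4 / 5 : ℝ) * (16 : ℝ) ^ k := by
    have h7 : ((32 : ℝ) ^ k) ^ (4 / 5 : ℝ) = 16 ^ k := by
      rw [show (32 : ℝ) ^ k = (2 ^ k) ^ 5 by rw [← pow_mul, mul_comm, pow_mul]; norm_num,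
        ← Real.rpow_natCast_mul (by positivity), show ((5 : ℕ) : ℝ) * (4 / 5) = (4 : ℕ) by norm_num,
        Real.rpow_natCast, ← pow_mul, mul_comm, pow_mul]
      norm_num
    rw [← h7, ← Real.mul_rpow (by positivity) (by positivity)]
    exact Real.rpow_le_rpow (by positivity) (by exact_mod_cast h3) (by norm_num)
  calc κ / (32 * C) ^ (4 / 5 : ℝ) * ((X : ℝ) ^ (4 / 5 : ℝ) / Real.log X)
      ≤ κ / (32 * C) ^ (4 / 5 : ℝ) * ((32 * C) ^ (4 / 5 : ℝ) * (16 : ℝ) ^ k / k) := by gcongr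
    _ = κ * ((16 : ℝ) ^ k / k) := by field_simp
    _ ≤ A (C * 32 ^ k) := h k (by omega)
    _ ≤ A X := by exact_mod_cast hA h2

theorem count_parity {t ρ : ℕ} (ht : Odd t) (hρ : ρ < 2) (e B : ℕ) :
    ∃ κ : ℝ, 0 < κ ∧ ∃ X₀ : ℕ, ∀ X : ℕ, X₀ ≤ X → κ * ((X : ℝ) ^ (4 / 5 : ℝ) / Real.log X) ≤
      (((range X).filter fun n => n ≡ B [MOD 2 ^ e] ∧ pt t n % 2 = ρ).card : ℝ) := by
  obtain ⟨c, s, hc, hts, hs⟩ : ∃ c s : ℕ, (c = 1 ∨ c = 3) ∧ c * t = 3 * s ∧ Odd s := by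
    by_cases h : 3 ∣ t
    · obtain ⟨s, rfl⟩ := h
      exact ⟨1, s, Or.inl rfl, by ring, (Nat.odd_mul.1 ht).2⟩
    · exact ⟨3, t, Or.inr rfl, rfl, ht⟩
  obtain ⟨T, N₀, hT, h1⟩ := primes_class (8 * c * 2 ^ e) 1
    (by rcases hc with rfl | rfl <;> positivity) (Nat.coprime_one_left _)
  obtain ⟨C, hC⟩ : ∃ C, C = 2 ^ (e + 5) * (5 + 2 * s * s) := ⟨_, rfl⟩
  have hC1 : s + 1 ≤ C := by
    have h2 : 5 + 2 * s * s ≤ C := hC ▸ Nat.le_mul_of_pos_left _ (by positivity)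
    nlinarith [Nat.le_mul_self s]
  have hT0 : (0 : ℝ) < T := by exact_mod_cast hT
  refine scale_main (1 / (6 * T * 2 ^ (e + 5))) (by positivity) (C + s + 1)
    (e + 5 + (2 * s + N₀ + (C + 6) * T)) (by omega)
    (fun X => ((range X).filter fun n => n ≡ B [MOD 2 ^ e] ∧ pt t n % 2 = ρ).card)
    (fun X Y hXY => card_le_card (filter_subset_filter _ (range_mono hXY))) fun k hk => ?_
  obtain ⟨m, rfl⟩ := Nat.exists_eq_add_of_le (show e + 5 ≤ k by omega)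
  have hm : m < 2 ^ m := Nat.lt_two_pow_self
  obtain ⟨k, hk'⟩ : ∃ k, k = e + 5 + m := ⟨_, rfl⟩
  have h2 : k < 2 ^ k := Nat.lt_two_pow_self
  have h3 : (8 : ℕ) ^ k = 2 ^ k * 4 ^ k := mul_pow 2 4 k
  have h4 : 2 ^ k ≤ 4 ^ k := Nat.pow_le_pow_left (by norm_num) _
  have h5 : (C + 6) * T ≤ 2 ^ k := by omega
  have h6 : C * 4 ^ k ≤ 8 ^ k / T := by
    rw [Nat.le_div_iff_mul_le hT, h3]
    nlinarith
  have h7 := count_scale hc (B := B) (e := e) (m := m) hts hs hρ (by omega)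
    ((Ioc (8 ^ k / T) (8 ^ k)).filter fun p => p.Prime ∧ p ≡ 1 [MOD 8 * c * 2 ^ e]) fun p hp => by
      obtain ⟨g1, g2, g3⟩ := mem_filter.1 hp
      rw [mem_Ioc] at g1
      have : C ≤ C * 4 ^ k := Nat.le_mul_of_pos_right _ (by positivity)
      rw [← hC, ← hk']
      exact ⟨g2, g3, by omega, by omega, g1.2⟩
  have h8 := h1 (8 ^ k) (by nlinarith)
  rw [← hC] at h7
  refine le_trans ?_ (Nat.cast_le.2 h7)
  generalize ((Ioc (8 ^ k / T) (8 ^ k)).filter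
    fun p => p.Prime ∧ p ≡ 1 [MOD 8 * c * 2 ^ e]).card = u at h8 ⊢
  have hk0 : (0 : ℝ) < k := by exact_mod_cast (show 0 < k by omega)
  have h9 : (8 : ℝ) ^ k / (T * (3 * k)) ≤ u := by
    refine le_trans ?_ h8
    push_cast
    rw [Real.log_pow]
    have g1 : Real.log 8 ≤ 3 := by
      rw [show (8 : ℝ) = 2 ^ 3 by norm_num, Real.log_pow]
      push_cast
      linarith [Real.log_two_lt_d9]
    have g2 : 0 < Real.log 8 := Real.log_pos (by norm_num)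
    rw [mul_comm 3]
    gcongr
  have h10 : (2 : ℝ) ≤ 8 ^ k / (T * (3 * k)) := by
    rw [le_div_iff₀ (by positivity)]
    have g1 : 6 * T * k ≤ 2 ^ k * 4 ^ k := Nat.mul_le_mul (by nlinarith) (by omega)
    exact_mod_cast (show 2 * (T * (3 * k)) ≤ 8 ^ k by nlinarith)
  have h11 : 1 ≤ u := by exact_mod_cast (show (1 : ℝ) ≤ u by linarith)
  rw [← hk', Nat.cast_mul, Nat.cast_sub h11]
  have h12 : (16 : ℝ) ^ k = 8 ^ k * (2 ^ (e + 5) * 2 ^ m) := by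
    rw [← pow_add, ← hk', ← mul_pow]; norm_num
  calc 1 / (6 * T * 2 ^ (e + 5)) * ((16 : ℝ) ^ k / k) = 8 ^ k / (T * (3 * k)) / 2 * 2 ^ m := by
        rw [h12]; field_simp; norm_num
    _ ≤ _ := by
        push_cast
        gcongr
        linarith

end Pool.Agent.Lib.MP_a3366f_nt.Zt
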