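import Mathlib
import Pool.Agent.Lib.MP_a3366f_nt.Link

open PowerSeries Finset

namespace Pool.Agent.Lib.MP_a3366f_nt

lemma count_sq' {c : ℕ} (hc : c = 1 ∨ c = 3) (l : ℕ) :
    ∑ k ∈ range ((c + 3) * l + 2), (if k ^ 2 % (8 * c) = 1 then (1 : ZMod 2) else 0) = 1 := by
  have key : ∀ k : ℕ, k ^ 2 % (8 * c) = 1 ↔ (k % (c + 3) = 1 ∨ k % (c + 3) = c + 2) := by
    intro k
    rcases hc with rfl | rfl
    · have h : k % 8 < 8 := Nat.mod_lt _ (by norm_num)
      rw [Nat.pow_mod, show k % (1 + 3) = k % 8 % 4 by omega]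
      generalize k % 8 = r at h
      interval_cases r <;> simp
    · have h : k % 24 < 24 := Nat.mod_lt _ (by norm_num)
      rw [Nat.pow_mod, show k % (3 + 3) = k % 24 % 6 by omega]
      generalize k % 24 = r at h
      interval_cases r <;> simp
  simp only [key]
  induction l with
  | zero => rcases hc with rfl | rfl <;> decide
  | succ l ih =>
    rw [show (c + 3) * (l + 1) + 2 = (c + 3) * l + 2 + (c + 3) by ring, Finset.sum_range_add, ih]
    simp only [add_assoc ((c + 3) * l), Nat.mul_add_mod]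
    rcases hc with rfl | rfl <;> decide

lemma count_theta' {c j l n : ℕ} (hc : c = 1 ∨ c = 3)
    (h1 : 2 ^ j * ((c + 3) * l + 1) ^ 2 ≤ 8 * c * n + 2 ^ j)
    (h2 : 8 * c * n + 2 ^ j < 2 ^ j * ((c + 3) * l + c + 2) ^ 2) :
    (PowerSeries.mk 1 * expand (2 ^ j) (by positivity) (phi c)).coeff n = 1 := by
  classical
  have hc0 : 0 < c := by omega
  have hj : 0 < 2 ^ j := by positivity
  rw [mul_comm, coeff_mul, Finset.Nat.sum_antidiagonal_eq_sum_range_succ_mk, ← count_sq' hc l]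
  simp only [coeff_mk, Pi.one_apply, mul_one, coeff_expand, coeff_phi hc]
  symm
  refine Finset.sum_bij_ne_zero (fun k _ _ => 2 ^ j * (k ^ 2 / (8 * c))) ?_ ?_ ?_ ?_
  · intro k hk hne
    have h3 : k ^ 2 % (8 * c) = 1 := by by_contra h; simp [h] at hne
    have h4 := Nat.div_add_mod (k ^ 2) (8 * c)
    have h5 : k ^ 2 ≤ ((c + 3) * l + 1) ^ 2 := Nat.pow_le_pow_left (by simp at hk; omega) 2
    rw [Finset.mem_range, Nat.lt_succ_iff]
    apply Nat.le_of_mul_le_mul_left (c := 8 * c) _ (by omega)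
    have h6 := Nat.mul_le_mul_left (2 ^ j) h5
    rw [← h4, h3] at h6
    nlinarith
  · intro k _ hne k' _ hne' h
    have h3 : k ^ 2 % (8 * c) = 1 := by by_contra h; simp [h] at hne
    have h3' : k' ^ 2 % (8 * c) = 1 := by by_contra h; simp [h] at hne'
    have h4 := Nat.div_add_mod (k ^ 2) (8 * c)
    have h4' := Nat.div_add_mod (k' ^ 2) (8 * c)
    have h5 := Nat.eq_of_mul_eq_mul_left hj h
    apply Nat.pow_left_injective (n := 2) (by norm_num)
    simp only
    rw [← h4, ← h4', h5, h3, h3']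
  · intro i hi hne
    split_ifs at hne with h3 h4
    · obtain ⟨a, rfl⟩ := h3
      rw [Nat.mul_div_cancel_left _ hj] at h4
      obtain ⟨k, hk⟩ := h4
      have h5 : k ^ 2 % (8 * c) = 1 := by
        rw [sq, ← hk, Nat.mul_add_mod, Nat.mod_eq_of_lt (by omega)]
      have h6 : k ^ 2 / (8 * c) = a := by
        rw [sq, ← hk, Nat.mul_add_div (by omega), Nat.div_eq_of_lt (by omega), add_zero]
      refine ⟨k, ?_, by simp [h5], by rw [h6]⟩
      rw [Finset.mem_range, Nat.lt_succ_iff] at hi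
      have h7 : 2 ^ j * k ^ 2 < 2 ^ j * ((c + 3) * l + c + 2) ^ 2 := by
        rw [sq k, ← hk]; nlinarith
      have h8 := lt_of_pow_lt_pow_left₀ 2 (by positivity) (Nat.lt_of_mul_lt_mul_left h7)
      have h9 : k % 2 = 1 := by
        have : k % 2 = 0 ∨ k % 2 = 1 := by omega
        rcases this with h | h
        · have a1 : (k * k) % 2 = 0 := by simp [Nat.mul_mod, h]
          have : 8 * c * a = 2 * (4 * c * a) := by ring
          omega
        · exact h
      rw [Finset.mem_range]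
      rcases hc with rfl | rfl
      · omega
      · have h10 : k % 3 ≠ 0 := by
          intro h
          have a1 : (k * k) % 3 = 0 := by simp [Nat.mul_mod, h]
          omega
        omega
    all_goals simp at hne
  · intro k hk hne
    have h3 : k ^ 2 % (8 * c) = 1 := by by_contra h; simp [h] at hne
    have h4 := Nat.div_add_mod (k ^ 2) (8 * c)
    rw [if_pos h3, if_pos (dvd_mul_right _ _), Nat.mul_div_cancel_left _ hj, if_pos]
    exact ⟨k, by rw [← sq, ← h3, h4]⟩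

lemma cover_even' {c β t j m l n : ℕ} (hc : c = 1 ∨ c = 3) (ht : c * t = 3 * β)
    (hm : c * m + β = 2 ^ j) (h : (D ^ m).coeff (m + 8 * n) = 0)
    (h1 : 2 ^ j * ((c + 3) * l + 1) ^ 2 ≤ 8 * c * n + 2 ^ j)
    (h2 : 8 * c * n + 2 ^ j < 2 ^ j * ((c + 3) * l + c + 2) ^ 2) :
    ∃ e k, pt t e % 2 = 0 ∧ c * (m + 8 * n) + β = 8 * c * e + 2 ^ j * k ^ 2 ∧ 1 ≤ k := by
  rw [coeff_D_pow_add, ← key_id hc ht hm] at h
  have h3 := count_theta' hc h1 h2
  obtain ⟨e, k, h4, h5, h6⟩ := cover_gen (j := j) hc (PowerSeries.mk 1 + P1 ^ t) n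
    (by rw [add_mul, map_add, h, h3]; decide)
  refine ⟨e, k, ?_, by rw [← h5, ← hm]; ring, h6⟩
  rw [map_add, coeff_P1_pow, coeff_mk] at h4
  by_contra h7
  rw [(ZMod.natCast_eq_one_iff_odd).2 (Nat.odd_iff.2 (by omega))] at h4
  exact h4 rfl

lemma scale_one {c c' β t j m : ℕ} (hc : (c = 1 ∧ c' = 3) ∨ (c = 3 ∧ c' = 1))
    (ht : c * t = 3 * β) (hβ : β % 2 = 1) (hm : c * m + β = 2 ^ j) (hj : 28 * β + 28 ≤ 2 ^ j) :
    ∃ h, 3 * m + t = c' * 2 ^ j ∧ Odd m ∧ 2 ^ j ≤ 64 * h ^ 2 ∧ h ^ 2 ≤ 16 * 2 ^ j ∧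
      EvenCover (fun n => pt t n % 2 = 0) t c' (2 ^ j) m h ∧
      OddCover (fun n => pt t n % 2 = 1) t c' (2 ^ j) h := by
  have hc1 : c = 1 ∨ c = 3 := by omega
  have hj0 : j ≠ 0 := by rintro rfl; omega
  have h2j : 2 ^ j % 2 = 0 := by
    obtain ⟨i, rfl⟩ := Nat.exists_eq_succ_of_ne_zero hj0
    rw [pow_succ]; omega
  have hm2 : m % 2 = 1 := by rcases hc1 with rfl | rfl <;> omega
  have h5 := g_split m
  have h6 : g5 m % 2 = 1 := by rw [g5_eq]; omega
  have conv : ∀ ν e k, c * ν + β = 8 * c * e + 2 ^ j * k ^ 2 →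
      3 * ν + t = 24 * e + c' * 2 ^ j * k ^ 2 := by
    intro ν e k h
    rw [mul_assoc c']
    rcases hc with ⟨rfl, rfl⟩ | ⟨rfl, rfl⟩ <;> omega
  refine ⟨n3 m + g5 m / 2, by rcases hc with ⟨rfl, rfl⟩ | ⟨rfl, rfl⟩ <;> omega,
    Nat.odd_iff.2 hm2, ?_, ?_, ?_, ?_⟩
  · have a1 := le_g_sq m
    have a2 : g m = 2 * (n3 m + g5 m / 2) + 1 := by omega
    generalize n3 m + g5 m / 2 = h at *
    rw [a2] at a1
    have a3 : 9 * 2 ^ j ≤ 28 * m := by rcases hc1 with rfl | rfl <;> omega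
    rcases h with _ | h
    · omega
    · nlinarith
  · have a1 : m < 2 ^ (2 * ((j + 1) / 2)) :=
      lt_of_lt_of_le (by rcases hc1 with rfl | rfl <;> omega)
        (Nat.pow_le_pow_right (by norm_num) (show j ≤ 2 * ((j + 1) / 2) by omega))
    have a2 := g_lt _ _ a1
    have a3 : 2 ^ (2 * ((j + 1) / 2)) ≤ 2 ^ (j + 1) :=
      Nat.pow_le_pow_right (by norm_num) (by omega)
    have a4 : 2 * (n3 m + g5 m / 2) ≤ 3 * 2 ^ ((j + 1) / 2) := by omega
    have a5 := Nat.pow_le_pow_left a4 2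
    rw [mul_pow, mul_pow, ← pow_mul, mul_comm _ 2] at a5
    rw [pow_succ] at a3
    omega
  · have tri : ∀ i : ℕ, ∃ r, 2 * r = i * (3 * i + 1) := fun i => by
      rcases Nat.even_or_odd' i with ⟨a, rfl | rfl⟩
      exacts [⟨a * (3 * (2 * a) + 1), by ring⟩, ⟨(2 * a + 1) * (3 * a + 2), by ring⟩]
    choose r hr using tri
    refine ⟨fun i => 2 ^ j * (if c = 1 then 2 * i ^ 2 + i else r i), fun i => ?_, fun i => ?_,
      fun i n hn1 hn2 S hS hcard v hv hcop => ?_⟩
    · rw [← mul_add]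
      apply Nat.mul_le_mul_left
      split_ifs
      · nlinarith
      · nlinarith [hr i, hr (i + 1)]
    · apply Nat.mul_le_mul_left
      split_ifs
      · exact le_rfl
      · nlinarith [hr i]
    · have hv0 := coeff_vanish m hm2 S (fun p hp => ⟨(hS p hp).1, (hS p hp).1.odd_of_ne_two
        (hS p hp).2⟩) (by omega) v (fun p hp hd => by
          have := Nat.Coprime.coprime_dvd_left (Finset.dvd_prod_of_mem _ hp) hcop
          exact ((hS p hp).1.coprime_iff_not_dvd.1 this) hd)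
      refine (cover_even' (l := i) (n := n) hc1 ht hm (by rw [add_comm, hv, hv0]) ?_ ?_).imp
        fun e => Exists.imp fun k h => ⟨h.1, h.2.2, conv _ _ _ (by rw [← h.2.1, add_comm m])⟩
      · rcases hc1 with rfl | rfl
        · simp only [if_true] at hn1; nlinarith
        · simp only [show (3 : ℕ) ≠ 1 by norm_num, if_false] at hn1
          have := hr i
          have a1 : ((3 + 3) * i + 1) ^ 2 = 24 * r i + 1 := by nlinarith
          rw [a1]; nlinarith
      · rcases hc1 with rfl | rfl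
        · simp only [if_true] at hn2; nlinarith
        · simp only [show (3 : ℕ) ≠ 1 by norm_num, if_false] at hn2
          have := hr i
          have a1 : ((3 + 3) * i + 3 + 2) ^ 2 = 24 * (r i + (2 * i + 1)) + 1 := by nlinarith
          rw [a1]; nlinarith
  · refine ⟨n3 m, g5 m / 2, rfl, fun S3 S5 hS3 hS5 c3 c5 => ?_⟩
    have hdis : Disjoint S3 S5 := Finset.disjoint_left.2 fun p h1 h2 => by
      have := (hS3 p h1).2; have := (hS5 p h2).2; omega
    have hD : Dom m (Polynomial.X ^ m) := by rw [Dom, add_self2]; exact Le.zero _ _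
    have f3 : (S3 ∪ S5).filter (· % 8 = 3) = S3 := by
      ext p; simp only [mem_filter, mem_union]
      exact ⟨fun h => h.1.resolve_right fun h' => by have := (hS5 p h').2; omega,
        fun h => ⟨Or.inl h, (hS3 p h).2⟩⟩
    have f5 : (S3 ∪ S5).filter (· % 8 = 5) = S5 := by
      ext p; simp only [mem_filter, mem_union]
      exact ⟨fun h => h.1.resolve_left fun h' => by have := (hS3 p h').2; omega,
        fun h => ⟨Or.inr h, (hS5 p h).2⟩⟩
    have a1 := coeff_one_of_dom (oddP_X_pow hm2) hD (S3 ∪ S5) (fun p hp => by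
      rcases mem_union.1 hp with h | h
      exacts [⟨(hS3 p h).1, Or.inl (hS3 p h).2⟩, ⟨(hS5 p h).1, Or.inr (hS5 p h).2⟩])
      (by rw [f3, c3]) (by rw [f5, c5]; omega)
    rw [map_pow, Polynomial.aeval_X, Finset.prod_union hdis] at a1
    obtain ⟨e, k, h1, h2, h3⟩ := cover_odd hc1 ht hm (by rw [a1]; exact one_ne_zero)
    exact ⟨e, k, h1, h3, conv _ _ _ h2⟩

theorem scales (t : ℕ) (ht : Odd t) : Scales t := by
  have ht2 := Nat.odd_iff.1 ht
  have big : ∀ B j, B ≤ j → B ≤ 2 ^ j := fun B j h => h.trans Nat.lt_two_pow_self.le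
  by_cases h3 : t % 3 = 0
  · refine ⟨3, 28 * t + 28, Or.inr rfl, fun j hj => ?_⟩
    have b1 := big _ _ hj
    obtain ⟨h, a⟩ := scale_one (c := 1) (c' := 3) (β := t / 3) (t := t) (j := j)
      (m := 2 ^ j - t / 3) (Or.inl ⟨rfl, rfl⟩) (by omega) (by omega) (by omega) (by omega)
    exact ⟨2 ^ j, _, h, Or.inl rfl, a⟩
  · refine ⟨1, 28 * t + 28, Or.inl rfl, fun j hj => ?_⟩
    obtain ⟨i, hi, hi'⟩ : ∃ i, (i = j ∨ i = j + 1) ∧ 2 ^ i % 3 = t % 3 := by
      have : ¬ 3 ∣ 2 ^ j := fun h => absurd (Nat.prime_three.dvd_of_dvd_pow h) (by norm_num)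
      by_cases h : 2 ^ j % 3 = t % 3
      · exact ⟨j, Or.inl rfl, h⟩
      · refine ⟨j + 1, Or.inr rfl, ?_⟩
        rw [pow_succ]
        generalize 2 ^ j = N at *
        have a1 : N % 3 = 1 ∨ N % 3 = 2 := by omega
        have a2 : t % 3 = 1 ∨ t % 3 = 2 := by omega
        rcases a1 with a1 | a1 <;> rcases a2 with a2 | a2 <;> omega
    have b1 := big (28 * t + 28) i (by omega)
    obtain ⟨h, a⟩ := scale_one (c := 3) (c' := 1) (β := t) (t := t) (j := i)
      (m := (2 ^ i - t) / 3) (Or.inr ⟨rfl, rfl⟩) rfl ht2 (by omega) b1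
    exact ⟨2 ^ i, _, h, by rcases hi with rfl | rfl <;> simp, a⟩

end Pool.Agent.Lib.MP_a3366f_nt
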